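import Pool.Agent.H3F.Bdw

/-! Canonical paths to the base face. -/

namespace Pool.H3F

open Finset

namespace Shadow

variable {n : ℕ} (S : Shadow n) (d : Fin (n + 2) → ℕ) (C : ℕ)

/-- Sparse levels. -/
def Sp (k : ℕ) : Prop := 2 ≤ k ∧ S.lev d k ≤ C

open Classical in
/-- A face outside `U` that is adjacent to `U`. -/
noncomputable def gate (U : Set (Fin (n + 2))) : Fin (n + 2) :=
  if h : ∃ g, ∃ j, ((S.L j ∈ U ∧ S.R j = g) ∨ (S.R j ∈ U ∧ S.L j = g)) ∧ g ∉ U then
    Classical.choose h else S.L (-1)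

open Classical in
/-- The gate at the highest sparse level below `k`. -/
noncomputable def gt : ℕ → Fin (n + 2) → Fin (n + 2)
  | 0, _ => S.L (-1)
  | (k + 1), f => if S.Sp d C k then S.gate (S.comp d k f) else gt k f

open Classical in
/-- Number of consecutive levels below `k` that are not sparse. -/
noncomputable def gap : ℕ → ℕ
  | 0 => 0
  | (k + 1) => if S.Sp d C k then 0 else gap k + 1

variable {S d C}

theorem IsRank.gate_spec [NeZero n] (h : S.IsRank d) {k : ℕ} {f : Fin (n + 2)} (hk : k < d f) :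
    d (S.gate (S.comp d k f)) = k ∧ S.gate (S.comp d k f) ∉ S.comp d k f ∧
      ∃ j ∈ S.bd (S.comp d k f),
        S.gate (S.comp d k f) = S.L j ∨ S.gate (S.comp d k f) = S.R j := by
  have hex : ∃ g, ∃ j, ((S.L j ∈ S.comp d k f ∧ S.R j = g) ∨
      (S.R j ∈ S.comp d k f ∧ S.L j = g)) ∧ g ∉ S.comp d k f := by
    obtain ⟨j, hj⟩ := h.bd_nonempty hk
    rcases hj with ⟨h1, h2⟩ | ⟨h1, h2⟩
    · exact ⟨S.R j, j, Or.inl ⟨h1, rfl⟩, h2⟩
    · exact ⟨S.L j, j, Or.inr ⟨h2, rfl⟩, h1⟩
  have hg : S.gate (S.comp d k f) = Classical.choose hex := by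
    unfold gate
    rw [dif_pos hex]
  obtain ⟨j, hj1, hj2⟩ := Classical.choose_spec hex
  rw [← hg] at hj1 hj2
  rcases hj1 with ⟨h1, h2⟩ | ⟨h1, h2⟩
  · have hb : j ∈ S.bd (S.comp d k f) := Or.inl ⟨h1, by rw [h2]; exact hj2⟩
    refine ⟨?_, hj2, j, hb, Or.inr h2.symm⟩
    rcases h.bd_lev hk j hb with ⟨-, -, h3⟩ | ⟨h3, -, -⟩
    · rw [← h2]; exact h3
    · rw [h2] at h3
      exact absurd h3 hj2
  · have hb : j ∈ S.bd (S.comp d k f) := Or.inr ⟨by rw [h2]; exact hj2, h1⟩
    refine ⟨?_, hj2, j, hb, Or.inl h2.symm⟩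
    rcases h.bd_lev hk j hb with ⟨h3, -, -⟩ | ⟨-, -, h3⟩
    · rw [h2] at h3
      exact absurd h3 hj2
    · rw [← h2]; exact h3

/-- The outside neighbours of a component at level `k + 1` belong to the component at level
`k`. -/
theorem IsRank.out_mem [NeZero n] (h : S.IsRank d) {k : ℕ} {f : Fin (n + 2)} (hk : k + 1 < d f)
    (j : ZMod (2 * n)) (hj : j ∈ S.bd (S.comp d (k + 1) f)) :
    S.L j ∈ S.comp d k f ∧ S.R j ∈ S.comp d k f := by
  have hsub := h.comp_anti (Nat.le_succ k) hk
  have hadj := h.comp_adj (k := k) (f := f) (by omega) j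
  rcases h.bd_lev hk j hj with ⟨h1, h2, h3⟩ | ⟨h1, h2, h3⟩
  · exact ⟨hsub h1, hadj.1 (hsub h1) (by omega)⟩
  · exact ⟨hadj.2 (hsub h1) (by omega), hsub h1⟩

namespace DescAux

theorem gt_pos {k : ℕ} (f : Fin (n + 2)) (hsp : S.Sp d C k) :
    S.gt d C (k + 1) f = S.gate (S.comp d k f) := by
  simp only [gt, if_pos hsp]

theorem gt_neg {k : ℕ} (f : Fin (n + 2)) (hsp : ¬ S.Sp d C k) :
    S.gt d C (k + 1) f = S.gt d C k f := by
  simp only [gt, if_neg hsp]

theorem gap_pos {k : ℕ} (hsp : S.Sp d C k) : S.gap d C (k + 1) = 0 := by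
  simp only [gap, if_pos hsp]

theorem gap_neg {k : ℕ} (hsp : ¬ S.Sp d C k) : S.gap d C (k + 1) = S.gap d C k + 1 := by
  simp only [gap, if_neg hsp]

/-- The four edges at a boundary passage are at level at most `k + 1`. -/
theorem low (h : S.IsRank d) {k : ℕ} {f : Fin (n + 2)} (hk : k < d f) (i : ZMod (2 * n))
    (hi : i ∈ S.bv (S.comp d k f)) :
    (d (S.L i) ≤ k + 1 ∨ d (S.R i) ≤ k + 1) ∧
      (d (S.L (i - 1)) ≤ k + 1 ∨ d (S.R (i - 1)) ≤ k + 1) := by
  have hlev : ∀ e, e ∈ S.bd (S.comp d k f) →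
      (d (S.L e) = k + 1 ∧ d (S.R e) = k) ∨ (d (S.R e) = k + 1 ∧ d (S.L e) = k) := by
    intro e he
    rcases h.bd_lev hk e he with ⟨-, h2, h3⟩ | ⟨-, h2, h3⟩
    · exact Or.inl ⟨h2, h3⟩
    · exact Or.inr ⟨h2, h3⟩
  have hb := bv_edge _ i hi
  have a1 := h.lipL i
  have a2 := h.lipR i
  have a3 := h.lipL (i - 1)
  have a4 := h.lipR (i - 1)
  have a5 := h.lipL (S.star i)
  have a6 := h.lipR (S.star i)
  have a7 := h.lipL (S.star i - 1)
  have a8 := h.lipR (S.star i - 1)
  have hb' : ((d (S.L i) = k + 1 ∧ d (S.R i) = k) ∨ (d (S.R i) = k + 1 ∧ d (S.L i) = k)) ∨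
      ((d (S.L (i - 1)) = k + 1 ∧ d (S.R (i - 1)) = k) ∨
        (d (S.R (i - 1)) = k + 1 ∧ d (S.L (i - 1)) = k)) ∨
      ((d (S.L (S.star i)) = k + 1 ∧ d (S.R (S.star i)) = k) ∨
        (d (S.R (S.star i)) = k + 1 ∧ d (S.L (S.star i)) = k)) ∨
      ((d (S.L (S.star i - 1)) = k + 1 ∧ d (S.R (S.star i - 1)) = k) ∨
        (d (S.R (S.star i - 1)) = k + 1 ∧ d (S.L (S.star i - 1)) = k)) := by
    rcases hb with hb | hb | hb | hb
    · exact Or.inl (hlev _ hb)
    · exact Or.inr (Or.inl (hlev _ hb))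
    · exact Or.inr (Or.inr (Or.inl (hlev _ hb)))
    · exact Or.inr (Or.inr (Or.inr (hlev _ hb)))
  clear hb hlev hi
  rcases S.tau_pm i with ht | ht
  · obtain ⟨c1, c2, c3, c4⟩ := S.corner i ht
    have e1 := congrArg d c1
    have e2 := congrArg d c2
    have e3 := congrArg d c3
    have e4 := congrArg d c4
    omega
  · have ht' : S.tau (S.star i) = 1 := by rw [S.tau_star, ht]; rfl
    obtain ⟨c1, c2, c3, c4⟩ := S.corner (S.star i) ht'
    rw [S.star_star] at c1 c2 c3 c4
    have e1 := congrArg d c1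
    have e2 := congrArg d c2
    have e3 := congrArg d c3
    have e4 := congrArg d c4
    omega

end DescAux

/-- From every face at level `k` of the component of `f` there is a short path to the gate. -/
theorem IsRank.descent [NeZero n] (h : S.IsRank d) (k : ℕ) (f : Fin (n + 2)) (hk : k ≤ d f)
    (g : Fin (n + 2)) (hg : d g = k) (hgf : k = 0 ∨ g ∈ S.comp d (k - 1) f) :
    S.Path (fun t => d (S.L t) ≤ k ∨ d (S.R t) ≤ k) (S.gap d C k + (8 * C + 3)) g
      (S.gt d C k f) := by
  induction k generalizing g with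
  | zero =>
    have hg' : g = S.L (-1) := (h.zero g).1 hg
    have e : S.gt d C 0 f = g := by rw [hg']; rfl
    rw [e]
    exact (Path.refl _ g).mono (fun _ hj => hj) (Nat.zero_le _)
  | succ k ih =>
    have hk' : k < d f := hk
    have hgU : g ∈ S.comp d k f := by
      rcases hgf with h0 | h0
      · omega
      · simpa using h0
    -- the edge to a lower face
    obtain ⟨j, hj⟩ := h.desc g (by omega)
    obtain ⟨g', hg', hstep, hjU⟩ : ∃ g', d g' = k ∧
        (∃ g₁, g₁ = g' ∧ S.Path (fun t => d (S.L t) ≤ k + 1 ∨ d (S.R t) ≤ k + 1) 1 g g₁) ∧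
        j ∈ S.bd (S.comp d k f) ∧ (g' = S.L j ∨ g' = S.R j) := by
      rcases hj with ⟨h1, h2⟩ | ⟨h1, h2⟩
      · have h3 : d (S.R j) = k := by omega
        refine ⟨S.R j, h3, ⟨_, rfl, ?_⟩, Or.inl ⟨by rw [h1]; exact hgU, fun h4 => ?_⟩,
          Or.inr rfl⟩
        · have := (Path.edge (S := S) (P := fun t => d (S.L t) ≤ k + 1 ∨ d (S.R t) ≤ k + 1) j
            (Or.inr (by omega))).1
          rwa [h1] at this
        · have := h.comp_gt hk' h4
          omega
      · have h3 : d (S.L j) = k := by omega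
        refine ⟨S.L j, h3, ⟨_, rfl, ?_⟩, Or.inr ⟨fun h4 => ?_, by rw [h1]; exact hgU⟩,
          Or.inl rfl⟩
        · have := (Path.edge (S := S) (P := fun t => d (S.L t) ≤ k + 1 ∨ d (S.R t) ≤ k + 1) j
            (Or.inl (by omega))).2
          rwa [h1] at this
        · have := h.comp_gt hk' h4
          omega
    obtain ⟨g₁, rfl, hpath⟩ := hstep
    obtain ⟨hjb, hside⟩ := hjU
    by_cases hsp : S.Sp d C k
    · rw [DescAux.gt_pos f hsp, DescAux.gap_pos hsp]
      obtain ⟨-, -, j', hj'b, hj's⟩ := h.gate_spec hk'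
      obtain ⟨N, hN, hw⟩ := h.bwalk hk' j j' (bd_bv _ j hjb).1 (bd_bv _ j' hj'b).1
      have hp2 := hw.path (bd_bv _ j hjb).1 g₁ (S.gate (S.comp d k f))
        (by rcases hside with hs | hs
            · exact Or.inl hs
            · exact Or.inr (Or.inl hs))
        (by rcases hj's with hs | hs
            · exact Or.inl hs
            · exact Or.inr (Or.inl hs))
      have hcard := (h.bd_card hk').trans hsp.2
      have hp3 : S.Path (fun t => d (S.L t) ≤ k + 1 ∨ d (S.R t) ≤ k + 1) (2 * (N + 1)) g₁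
          (S.gate (S.comp d k f)) := by
        refine hp2.mono ?_ le_rfl
        rintro t (ht | ht)
        · exact (DescAux.low h hk' t ht).1
        · have := (DescAux.low h hk' (t + 1) ht).2
          rwa [add_sub_cancel_right] at this
      exact (hpath.trans hp3).mono (fun _ hj => hj) (by omega)
    · rw [DescAux.gt_neg f hsp, DescAux.gap_neg hsp]
      have hmem : k = 0 ∨ g₁ ∈ S.comp d (k - 1) f := by
        rcases Nat.eq_zero_or_pos k with h0 | h0
        · exact Or.inl h0
        · obtain ⟨m, rfl⟩ : ∃ m, k = m + 1 := ⟨k - 1, by omega⟩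
          right
          have hm := h.out_mem hk' j hjb
          rw [Nat.add_sub_cancel]
          rcases hside with hs | hs
          · rw [hs]; exact hm.1
          · rw [hs]; exact hm.2
      have hp2 := ih (by omega) g₁ hg' hmem
      have hp3 := hp2.mono (Q := fun t => d (S.L t) ≤ k + 1 ∨ d (S.R t) ≤ k + 1)
        (fun t ht => by
          rcases ht with ht | ht
          · exact Or.inl (by omega)
          · exact Or.inr (by omega)) le_rfl
      exact (hpath.trans hp3).mono (fun _ hj => hj) (by omega)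

theorem IsRank.gt_comp [NeZero n] (h : S.IsRank d) (k : ℕ) (f g : Fin (n + 2)) (hk : k < d f)
    (hg : g ∈ S.comp d k f) : S.gt d C k g = S.gt d C k f ∧
      S.gt d C (k + 1) g = S.gt d C (k + 1) f := by
  have key : ∀ m, m ≤ k + 1 → S.gt d C m g = S.gt d C m f := by
    intro m
    induction m with
    | zero => intro _; rfl
    | succ m ih =>
      intro hm
      have h1 : g ∈ S.comp d m f := h.comp_anti (by omega) hk hg
      have h2 : S.comp d m g = S.comp d m f := h.comp_eq (by omega) h1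
      by_cases hsp : S.Sp d C m
      · rw [DescAux.gt_pos g hsp, DescAux.gt_pos f hsp, h2]
      · rw [DescAux.gt_neg g hsp, DescAux.gt_neg f hsp]
        exact ih (by omega)
  exact ⟨key k (by omega), key (k + 1) le_rfl⟩

open Classical in
/-- The number of levels that are not sparse. -/
theorem gap_sum [NeZero n] (K : ℕ) :
    (∑ k ∈ range K, if S.Sp d C k then S.gap d C k else 0) + S.gap d C K ≤ K ∧
      S.gap d C K * (C + 1) ≤ 2 * n + 2 * (C + 1) := by
  have e : ∀ k, S.gap d C (k + 1) = if S.Sp d C k then 0 else S.gap d C k + 1 := fun k => rfl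
  constructor
  · induction K with
    | zero => exact le_of_eq rfl
    | succ K ih =>
      rw [sum_range_succ, e K]
      by_cases hsp : S.Sp d C K
      · rw [if_pos hsp, if_pos hsp]
        omega
      · rw [if_neg hsp, if_neg hsp]
        omega
  · have key : ∀ K, S.gap d C K * (C + 1) ≤ ∑ k ∈ range K, S.lev d k + min K 2 * (C + 1) := by
      intro K
      induction K with
      | zero =>
        have : S.gap d C 0 = 0 := rfl
        rw [this]
        simp
      | succ K ih =>
        rw [sum_range_succ, e K]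
        by_cases hsp : S.Sp d C K
        · rw [if_pos hsp]
          simp
        · rw [if_neg hsp, add_mul, one_mul]
          rcases lt_or_ge K 2 with h2 | h2
          · have h3 : min (K + 1) 2 = min K 2 + 1 := by omega
            rw [h3, add_mul, one_mul]
            omega
          · have h3 : min (K + 1) 2 = min K 2 := by omega
            have h4 : C + 1 ≤ S.lev d K := by
              by_contra h5
              exact hsp ⟨h2, by omega⟩
            rw [h3]
            omega
    have h1 := key K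
    have h2 := sum_lev (S := S) d K
    have h3 : min K 2 * (C + 1) ≤ 2 * (C + 1) := Nat.mul_le_mul_right _ (by omega)
    omega

end Shadow

end Pool.H3F
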