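import Pool.Agent.H3F.Idx

/-! Loops of the curve. -/

namespace Pool.H3F

open Finset

namespace Shadow

variable {n : ℕ} (S : Shadow n)

namespace LoopAux

theorem one_lt_two_mul (n : ℕ) [NeZero n] : 1 < 2 * n := by
  have := Nat.pos_of_ne_zero (NeZero.ne n)
  omega

theorem val_pred {n : ℕ} [NeZero n] (j : ZMod (2 * n)) :
    (j - 1).val = if j.val = 0 then 2 * n - 1 else j.val - 1 := by
  have h1 : 1 < 2 * n := one_lt_two_mul n
  have : Fact (1 < 2 * n) := ⟨h1⟩
  have hv1 : (1 : ZMod (2 * n)).val = 1 := ZMod.val_one (2 * n)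
  split_ifs with h
  · have hj : j = 0 := (ZMod.val_eq_zero j).1 h
    subst hj
    have : ((0 : ZMod (2 * n)) - 1) = ((2 * n - 1 : ℕ) : ZMod (2 * n)) := by
      rw [Nat.cast_sub h1.le, ZMod.natCast_self]
      simp
    rw [this, ZMod.val_natCast_of_lt (by omega)]
  · rw [ZMod.val_sub (by rw [hv1]; omega), hv1]

theorem val_pt {n : ℕ} [NeZero n] (S : Shadow n) (j : ℕ) :
    ((S.pt j : ℕ) : ZMod (2 * n)) = S.star (j : ZMod (2 * n)) := by
  unfold Shadow.pt
  exact ZMod.natCast_zmod_val _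

theorem pt_lt {n : ℕ} [NeZero n] (S : Shadow n) (j : ℕ) : S.pt j < 2 * n := by
  unfold Shadow.pt
  exact ZMod.val_lt _

theorem pt_pt {n : ℕ} [NeZero n] (S : Shadow n) {j : ℕ} (hj : j < 2 * n) :
    S.pt (S.pt j) = j := by
  have h : S.pt (S.pt j) = (S.star ((S.pt j : ℕ) : ZMod (2 * n))).val := rfl
  rw [h, val_pt, S.star_star, ZMod.val_natCast_of_lt hj]

theorem tau_pt {n : ℕ} [NeZero n] (S : Shadow n) (j : ℕ) :
    S.tau ((S.pt j : ℕ) : ZMod (2 * n)) = - S.tau (j : ZMod (2 * n)) := by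
  rw [val_pt, S.tau_star]

theorem star_val {n : ℕ} [NeZero n] (S : Shadow n) (j : ZMod (2 * n)) :
    (S.star j).val = S.pt j.val := by
  unfold Shadow.pt
  rw [ZMod.natCast_zmod_val]

/-- away from the ends of the loop the indicator does not jump -/
theorem z_pred {n : ℕ} [NeZero n] (p q : ℕ) (hq : q < 2 * n) (j : ZMod (2 * n))
    (h1 : j.val ≠ p) (h2 : j.val ≠ q) :
    ((if p ≤ (j - 1).val ∧ (j - 1).val < q then 1 else 0 : ℤ)) =
      if p ≤ j.val ∧ j.val < q then 1 else 0 := by
  have hlt : j.val < 2 * n := ZMod.val_lt j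
  rw [val_pred]
  by_cases h : j.val = 0
  · rw [if_pos h, if_neg (by omega), if_neg (by omega)]
  · rw [if_neg h]
    by_cases h3 : p ≤ j.val ∧ j.val < q
    · rw [if_pos h3, if_pos (by omega)]
    · rw [if_neg h3, if_neg (by omega)]

theorem pt_ne {n : ℕ} [NeZero n] (S : Shadow n) {p q : ℕ} (hp : p < 2 * n)
    (h : S.pt p = q) {j : ℕ} (hj : j < 2 * n) (h1 : j ≠ p) (h2 : j ≠ q) :
    S.pt j ≠ p ∧ S.pt j ≠ q := by
  constructor
  · intro h3
    apply h2
    rw [← h, ← h3, pt_pt S hj]
  · intro h3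
    apply h1
    rw [← pt_pt S hp, h, ← h3, pt_pt S hj]

/-- the increment of the index function at a passage off the loop -/
theorem step_off {n : ℕ} [NeZero n] (S : Shadow n) (p q : ℕ) (hpq : p < q) (hq : q < 2 * n)
    (h : S.pt p = q) (I : Fin (n + 2) → ℤ)
    (hI : S.IsIndex I (fun t => if p ≤ t.val ∧ t.val < q then 1 else 0))
    (j : ℕ) (hj : j < 2 * n) (h1 : j ≠ p) (h2 : j ≠ q) :
    I (S.L (j : ZMod (2 * n))) - I (S.L ((j : ZMod (2 * n)) - 1)) =
      - (if p < S.pt j ∧ S.pt j < q then S.tau (j : ZMod (2 * n)) else 0) := by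
  have hw := S.walk I _ hI (j : ZMod (2 * n))
  obtain ⟨h3, h4⟩ := pt_ne S (hpq.trans hq) h hj h1 h2
  have hz : ((if p ≤ (S.star (j : ZMod (2 * n)) - 1).val ∧
        (S.star (j : ZMod (2 * n)) - 1).val < q then 1 else 0 : ℤ)) =
      if p ≤ (S.star (j : ZMod (2 * n))).val ∧ (S.star (j : ZMod (2 * n))).val < q then 1 else 0 :=
    z_pred p q hq (S.star (j : ZMod (2 * n))) h3 h4
  have hz2 : ((if p ≤ (S.star (j : ZMod (2 * n))).val ∧ (S.star (j : ZMod (2 * n))).val < q
      then 1 else 0 : ℤ)) = if p < S.pt j ∧ S.pt j < q then 1 else 0 := by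
    have e : (S.star (j : ZMod (2 * n))).val = S.pt j := rfl
    rw [e]
    by_cases h5 : p < S.pt j ∧ S.pt j < q
    · rw [if_pos h5, if_pos (by omega)]
    · rw [if_neg h5, if_neg (by omega)]
  rw [hw]
  simp only [hz]
  rw [ite_self, hz2]
  split_ifs <;> simp

theorem tele (S : Shadow n) (I : Fin (n + 2) → ℤ) (q : ℕ) (m : ℕ) :
    ∑ j ∈ Finset.range m, (I (S.L ((q + j : ℕ) : ZMod (2 * n))) -
      I (S.L (((q + j : ℕ) : ZMod (2 * n)) - 1))) =
      I (S.L (((q + m : ℕ) : ZMod (2 * n)) - 1)) - I (S.L ((q : ZMod (2 * n)) - 1)) := by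
  induction m with
  | zero => simp
  | succ m ih =>
    rw [Finset.sum_range_succ, ih]
    have : (((q + (m + 1) : ℕ) : ZMod (2 * n)) - 1) = ((q + m : ℕ) : ZMod (2 * n)) := by
      push_cast
      ring
    rw [this]
    ring

end LoopAux

open LoopAux

theorem loop_circ [NeZero n] (p q : ℕ) (hpq : p < q) (hq : q < 2 * n) (h : S.pt p = q) :
    S.Circ (fun t => if p ≤ t.val ∧ t.val < q then 1 else 0) := by
  intro j
  have hp : p < 2 * n := hpq.trans hq
  have hqp : S.pt q = p := by rw [← h, pt_pt S hp]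
  have hjv : j.val < 2 * n := ZMod.val_lt j
  simp only
  rw [LoopAux.star_val S j]
  by_cases h1 : j.val = p
  · have e1 : (j - 1).val = if j.val = 0 then 2 * n - 1 else j.val - 1 := val_pred j
    have e2 : (S.star j - 1).val = if (S.star j).val = 0 then 2 * n - 1 else (S.star j).val - 1 :=
      val_pred _
    rw [LoopAux.star_val S j, h1, h] at e2
    rw [h1] at e1
    rw [e1, e2, h1, h]
    rw [if_pos (⟨le_refl p, hpq⟩ : p ≤ p ∧ p < q), if_neg (by omega : ¬ (p ≤ q ∧ q < q)),
      if_neg (by omega : ¬ q = 0), if_pos (by omega : p ≤ q - 1 ∧ q - 1 < q)]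
    by_cases hp0 : p = 0
    · rw [if_pos hp0, if_neg (by omega)]; norm_num
    · rw [if_neg hp0, if_neg (by omega)]; norm_num
  · by_cases h2 : j.val = q
    · have e1 : (j - 1).val = if j.val = 0 then 2 * n - 1 else j.val - 1 := val_pred j
      have e2 : (S.star j - 1).val =
          if (S.star j).val = 0 then 2 * n - 1 else (S.star j).val - 1 := val_pred _
      rw [LoopAux.star_val S j, h2, hqp] at e2
      rw [h2] at e1
      rw [e1, e2, h2, hqp]
      rw [if_pos (⟨le_refl p, hpq⟩ : p ≤ p ∧ p < q), if_neg (by omega : ¬ (p ≤ q ∧ q < q)),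
        if_neg (by omega : ¬ q = 0), if_pos (by omega : p ≤ q - 1 ∧ q - 1 < q)]
      by_cases hp0 : p = 0
      · rw [if_pos hp0, if_neg (by omega)]; norm_num
      · rw [if_neg hp0, if_neg (by omega)]; norm_num
    · obtain ⟨h3, h4⟩ := pt_ne S hp h hjv h1 h2
      have e1 := z_pred p q hq j h1 h2
      have e2 := z_pred p q hq (S.star j) (by rw [LoopAux.star_val S j]; exact h3)
        (by rw [LoopAux.star_val S j]; exact h4)
      rw [e1, e2, LoopAux.star_val S j]

/-- The initial arc meets a loop as often as the index function of the loop tells. -/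
theorem loop_index [NeZero n] (p q : ℕ) (hpq : p < q) (hq : q < 2 * n) (h : S.pt p = q) :
    ∃ I : Fin (n + 2) → ℤ,
      S.IsIndex I (fun t => if p ≤ t.val ∧ t.val < q then 1 else 0) ∧
      (∑ j ∈ range p, if p < S.pt j ∧ S.pt j < q then S.tau (j : ZMod (2 * n)) else 0) =
        I (S.L (-1)) - I (S.L ((p : ZMod (2 * n)) - 1)) := by
  obtain ⟨I, hI⟩ := S.exists_index _ (S.loop_circ p q hpq hq h)
  refine ⟨I, hI, ?_⟩
  have ht := LoopAux.tele S I 0 p
  simp only [Nat.zero_add] at ht
  have e : (((0 : ℕ) : ZMod (2 * n)) - 1) = -1 := by simp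
  rw [e] at ht
  have hs : ∑ j ∈ Finset.range p, (I (S.L ((j : ℕ) : ZMod (2 * n))) -
      I (S.L (((j : ℕ) : ZMod (2 * n)) - 1))) =
      - ∑ j ∈ range p, (if p < S.pt j ∧ S.pt j < q then S.tau (j : ZMod (2 * n)) else 0) := by
    rw [← Finset.sum_neg_distrib]
    apply Finset.sum_congr rfl
    intro j hj
    have hjp := Finset.mem_range.1 hj
    exact step_off S p q hpq hq h I hI j (by omega) (by omega) (by omega)
  rw [hs] at ht
  linarith

/-- A loop meets the rest of the curve algebraically zero times. -/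
theorem loop_zero [NeZero n] (p q : ℕ) (hpq : p < q) (hq : q < 2 * n) (h : S.pt p = q) :
    (∑ j ∈ Ioo p q, if S.pt j < p ∨ q < S.pt j then S.tau (j : ZMod (2 * n)) else 0) = 0 := by
  obtain ⟨I, hI⟩ := S.exists_index _ (S.loop_circ p q hpq hq h)
  have hp : p < 2 * n := hpq.trans hq
  have hqp : S.pt q = p := by rw [← h, pt_pt S hp]
  have star_p : S.star (p : ZMod (2 * n)) = (q : ZMod (2 * n)) := by
    rw [← val_pt, h]
  have star_q : S.star (q : ZMod (2 * n)) = (p : ZMod (2 * n)) := by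
    rw [← val_pt, hqp]
  have vp : ((p : ℕ) : ZMod (2 * n)).val = p := ZMod.val_natCast_of_lt hp
  have vq : ((q : ℕ) : ZMod (2 * n)).val = q := ZMod.val_natCast_of_lt hq
  -- the two ends of the complementary arc
  have hends : I (S.L (q : ZMod (2 * n))) = I (S.L ((p : ZMod (2 * n)) - 1)) := by
    rcases S.tau_pm (p : ZMod (2 * n)) with ht | ht
    · have hc := (S.corner _ ht).2.1
      rw [hc, star_p]
    · have ht' : S.tau (q : ZMod (2 * n)) = 1 := by
        rw [← star_p, S.tau_star, ht]; norm_num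
      have hc := (S.corner _ ht').2.2
      rw [star_q] at hc
      have z1 := hI (q : ZMod (2 * n))
      have z2 := hI ((p : ZMod (2 * n)) - 1)
      simp only at z1 z2
      rw [vq, if_neg (by omega)] at z1
      rw [val_pred, vp] at z2
      have z2' : I (S.L ((p : ZMod (2 * n)) - 1)) - I (S.R ((p : ZMod (2 * n)) - 1)) = 0 := by
        rw [z2]
        by_cases hp0 : p = 0
        · rw [if_pos hp0, if_neg (by omega)]
        · rw [if_neg hp0, if_neg (by omega)]
      rw [hc.2] at z1
      linarith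
  -- telescoping
  have t1 := LoopAux.tele S I 0 p
  simp only [Nat.zero_add] at t1
  have e0 : (((0 : ℕ) : ZMod (2 * n)) - 1) = -1 := by simp
  rw [e0] at t1
  have t2 := LoopAux.tele S I (q + 1) (2 * n - (q + 1))
  have e1 : (((q + 1 + (2 * n - (q + 1)) : ℕ) : ZMod (2 * n)) - 1) = -1 := by
    have : q + 1 + (2 * n - (q + 1)) = 2 * n := by omega
    rw [this, ZMod.natCast_self]
    simp
  have e2 : (((q + 1 : ℕ) : ZMod (2 * n)) - 1) = (q : ZMod (2 * n)) := by
    push_cast
    ring
  rw [e1, e2] at t2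
  have s1 : ∑ j ∈ Finset.range p, (I (S.L ((j : ℕ) : ZMod (2 * n))) -
      I (S.L (((j : ℕ) : ZMod (2 * n)) - 1))) =
      - ∑ j ∈ range p, (if p < S.pt j ∧ S.pt j < q then S.tau (j : ZMod (2 * n)) else 0) := by
    rw [← Finset.sum_neg_distrib]
    apply Finset.sum_congr rfl
    intro j hj
    have hjp := Finset.mem_range.1 hj
    exact step_off S p q hpq hq h I hI j (by omega) (by omega) (by omega)
  have s2 : ∑ j ∈ Finset.range (2 * n - (q + 1)), (I (S.L ((q + 1 + j : ℕ) : ZMod (2 * n))) -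
      I (S.L (((q + 1 + j : ℕ) : ZMod (2 * n)) - 1))) =
      - ∑ j ∈ Ico (q + 1) (2 * n),
        (if p < S.pt j ∧ S.pt j < q then S.tau (j : ZMod (2 * n)) else 0) := by
    rw [Finset.sum_Ico_eq_sum_range, ← Finset.sum_neg_distrib]
    apply Finset.sum_congr rfl
    intro j hj
    have hjp := Finset.mem_range.1 hj
    exact step_off S p q hpq hq h I hI (q + 1 + j) (by omega) (by omega) (by omega)
  rw [s1] at t1
  rw [s2] at t2
  -- the involution
  have inv : (∑ j ∈ Ioo p q, if S.pt j < p ∨ q < S.pt j then S.tau (j : ZMod (2 * n)) else 0) =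
      - ∑ j ∈ range p ∪ Ico (q + 1) (2 * n),
        (if p < S.pt j ∧ S.pt j < q then S.tau (j : ZMod (2 * n)) else 0) := by
    rw [← Finset.sum_filter, ← Finset.sum_filter, ← Finset.sum_neg_distrib]
    apply Finset.sum_nbij' (fun j => S.pt j) (fun j => S.pt j)
    · intro j hj
      simp only [mem_filter, mem_Ioo, mem_union, mem_range, mem_Ico] at hj ⊢
      have h1 := pt_lt S j
      have h2 := pt_pt S (show j < 2 * n by omega)
      rw [h2]
      omega
    · intro j hj
      simp only [mem_filter, mem_Ioo, mem_union, mem_range, mem_Ico] at hj ⊢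
      have h2 := pt_pt S (show j < 2 * n by omega)
      rw [h2]
      omega
    · intro j hj
      simp only [mem_filter, mem_Ioo] at hj
      exact pt_pt S (show j < 2 * n by omega)
    · intro j hj
      simp only [mem_filter, mem_union, mem_range, mem_Ico] at hj
      exact pt_pt S (show j < 2 * n by omega)
    · intro j hj
      rw [tau_pt, neg_neg]
  rw [inv, Finset.sum_union]
  · linarith
  · rw [Finset.disjoint_left]
    intro j hj hj'
    simp only [mem_range, mem_Ico] at hj hj'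
    omega

end Shadow

end Pool.H3F
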