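import Pool.Agent.H3F.Sb
import Pool.Agent.H3F.Desc
import Pool.Agent.H3F.Loop

/-! The planarity lemma, quantitative form. -/

namespace Pool.H3F

open Finset

namespace Shadow

variable {n : ℕ} {S : Shadow n}

/-- The constant. -/
def Kc (C : ℕ) : ℕ := (8 * C + 5) + C * Kb C * (3 * (8 * C + 4))

namespace AsmAux

open LoopAux

/-- inner sum -/
def Rr (S : Shadow n) (p : ℕ) : ℤ :=
  ∑ j ∈ range p, if p < S.pt j ∧ S.pt j < S.pt p then S.tau (j : ZMod (2 * n)) else 0

/-- chords inside the initial arc -/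
def Pp (S : Shadow n) (l : ℕ) : Finset ℕ :=
  (range l).filter (fun p => p < S.pt p ∧ S.pt p < l)

theorem Wl_eq (S : Shadow n) (l : ℕ) :
    S.Wl l = ∑ p ∈ Pp S l, S.tau (p : ZMod (2 * n)) * Rr S p := by
  unfold Shadow.Wl Pp
  rw [Finset.sum_comm, Finset.sum_filter]
  apply Finset.sum_congr rfl
  intro p hp
  have hpl := Finset.mem_range.1 hp
  by_cases h : p < S.pt p ∧ S.pt p < l
  · rw [if_pos h]
    unfold Rr
    rw [Finset.mul_sum]
    have hsub : range p ⊆ range l := by
      intro x hx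
      simp only [mem_range] at hx ⊢
      omega
    rw [← Finset.sum_subset hsub (f := fun j => if j < p ∧ p < S.pt j ∧ S.pt j < S.pt p ∧
      S.pt p < l then S.tau (j : ZMod (2 * n)) * S.tau (p : ZMod (2 * n)) else 0)]
    · apply Finset.sum_congr rfl
      intro j hj
      have hjp := Finset.mem_range.1 hj
      by_cases h2 : p < S.pt j ∧ S.pt j < S.pt p
      · rw [if_pos ⟨hjp, h2.1, h2.2, h.2⟩, if_pos h2]; ring
      · rw [if_neg (fun h3 => h2 ⟨h3.2.1, h3.2.2.1⟩), if_neg h2]; ring
    · intro j _ hj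
      rw [if_neg]
      intro h3
      exact hj (Finset.mem_range.2 h3.1)
  · rw [if_neg h]
    apply Finset.sum_eq_zero
    intro j _
    rw [if_neg]
    rintro ⟨_, h2, h3, h4⟩
    exact h ⟨h2.trans h3, h4⟩

theorem Pp_card [NeZero n] (S : Shadow n) {l : ℕ} (hl : l ≤ 2 * n) : (Pp S l).card ≤ n := by
  have h1 : Disjoint (Pp S l) ((Pp S l).image S.pt) := by
    rw [Finset.disjoint_left]
    intro x hx hx'
    obtain ⟨y, hy, hyx⟩ := Finset.mem_image.1 hx'
    simp only [Pp, mem_filter, mem_range] at hx hy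
    have h2 : S.pt x = y := by
      rw [← hyx]
      exact pt_pt S (by omega)
    omega
  have h2 : ((Pp S l).image S.pt).card = (Pp S l).card := by
    apply Finset.card_image_of_injOn
    intro x hx y hy hxy
    have hx2 : x ∈ Pp S l := hx
    have hy2 : y ∈ Pp S l := hy
    simp only [Pp, mem_filter, mem_range] at hx2 hy2
    have e1 := pt_pt S (show x < 2 * n by omega)
    have e2 := pt_pt S (show y < 2 * n by omega)
    rw [← e1, ← e2, hxy]
  have h3 : ((Pp S l) ∪ ((Pp S l).image S.pt)).card ≤ (range (2 * n)).card := by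
    apply Finset.card_le_card
    intro x hx
    rw [Finset.mem_union] at hx
    rcases hx with hx | hx
    · simp only [Pp, mem_filter, mem_range] at hx ⊢
      omega
    · obtain ⟨y, hy, hyx⟩ := Finset.mem_image.1 hx
      rw [← hyx, mem_range]
      exact pt_lt S y
  rw [Finset.card_union_of_disjoint h1, h2, Finset.card_range] at h3
  omega

theorem list_bound {α : Type} (lst : List α) (g : α → ℤ) (B : ℤ) (h : ∀ x ∈ lst, |g x| ≤ B) :
    |(lst.map g).sum| ≤ lst.length * B := by
  induction lst with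
  | nil => simp
  | cons a t ih =>
    rw [List.map_cons, List.sum_cons, List.length_cons]
    have h1 := h a (by simp)
    have h2 := ih (fun x hx => h x (by simp [hx]))
    push_cast
    calc |g a + (t.map g).sum| ≤ |g a| + |(t.map g).sum| := abs_add_le _ _
      _ ≤ B + t.length * B := by linarith
      _ = (t.length + 1) * B := by ring

theorem list_sum_comm {α : Type} (lst : List α) (F : Finset ℕ) (g : α → ℕ → ℤ) (a : α → ℤ)
    (c : ℕ → ℤ) :
    ∑ p ∈ F, c p * (lst.map (fun x => a x * g x p)).sum =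
      (lst.map (fun x => a x * ∑ p ∈ F, c p * g x p)).sum := by
  induction lst with
  | nil => simp
  | cons b t ih =>
    simp only [List.map_cons, List.sum_cons]
    rw [← ih, Finset.mul_sum, ← Finset.sum_add_distrib]
    apply Finset.sum_congr rfl
    intro p _
    ring

open Classical in
/-- the contribution of one component at a sparse level -/
theorem one_comp [NeZero n] {d : Fin (n + 2) → ℕ} (h : S.IsRank d) (l : ℕ) (hl : l ≤ 2 * n)
    (hcl : d (S.L ((l : ZMod (2 * n)) - 1)) ≤ 2) (C k : ℕ) (hsp : S.Sp d C k)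
    (f : Fin (n + 2)) (hk : k < d f) (J : ℕ → Fin (n + 2) → ℤ)
    (hJ : ∀ p ∈ Pp S l, S.IsIndex (J p) (fun t => if p ≤ t.val ∧ t.val < S.pt p then 1 else 0)) :
    |∑ p ∈ (Pp S l).filter (fun p : ℕ => S.L ((p : ZMod (2 * n)) - 1) ∈ S.comp d k f),
        S.tau (p : ZMod (2 * n)) * (J p (S.gt d C k f) - J p (S.gt d C (k + 1) f))| ≤
      ((S.gap d C k + (8 * C + 3) : ℕ) : ℤ) * (Kb C : ℤ) := by
  obtain ⟨hk2, hlev⟩ := hsp
  have hgt : S.gt d C (k + 1) f = S.gate (S.comp d k f) := by
    simp only [gt]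
    rw [if_pos ⟨hk2, hlev⟩]
  obtain ⟨hg1, hg2, j, hj, hgj⟩ := h.gate_spec hk
  have hmem : S.gate (S.comp d k f) ∈ S.comp d (k - 1) f := by
    obtain ⟨k', rfl⟩ : ∃ k', k = k' + 1 := ⟨k - 1, by omega⟩
    have ho := h.out_mem hk j hj
    simp only [Nat.add_sub_cancel]
    rcases hgj with e | e
    · rw [e]; exact ho.1
    · rw [e]; exact ho.2
  obtain ⟨lst, hl1, hl2, hl3⟩ := h.descent (C := C) k f hk.le (S.gate (S.comp d k f)) hg1
    (Or.inr hmem)
  rw [hgt]
  set F := (Pp S l).filter (fun p : ℕ => S.L ((p : ZMod (2 * n)) - 1) ∈ S.comp d k f) with hF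
  have hFP : ∀ p ∈ F, p ∈ Pp S l := fun p hp => (Finset.mem_filter.1 hp).1
  have e1 : ∑ p ∈ F, S.tau (p : ZMod (2 * n)) *
        (J p (S.gt d C k f) - J p (S.gate (S.comp d k f))) =
      ∑ p ∈ F, S.tau (p : ZMod (2 * n)) * (lst.map (fun x => x.2 *
        (if p ≤ x.1.val ∧ x.1.val < S.pt p then 1 else 0))).sum := by
    apply Finset.sum_congr rfl
    intro p hp
    rw [hl3 (J p)]
    congr 2
    apply List.map_congr_left
    intro x _
    rw [hJ p (hFP p hp) x.1]
  rw [e1, list_sum_comm lst F (fun x p => if p ≤ x.1.val ∧ x.1.val < S.pt p then 1 else 0)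
    (fun x => x.2) (fun p : ℕ => S.tau (p : ZMod (2 * n)))]
  have hB : ∀ x ∈ lst, |x.2 * ∑ p ∈ F, S.tau (p : ZMod (2 * n)) *
      (if p ≤ x.1.val ∧ x.1.val < S.pt p then 1 else 0)| ≤ (Kb C : ℤ) := by
    intro x hx
    obtain ⟨hx1, hx2⟩ := hl1 x hx
    have key : |∑ p ∈ F, S.tau (p : ZMod (2 * n)) *
      (if p ≤ x.1.val ∧ x.1.val < S.pt p then 1 else 0)| ≤ (Kb C : ℤ) := by
      by_cases hel : x.1.val < l
      · have hside : S.L ((x.1.val : ℕ) : ZMod (2 * n)) ∉ S.comp d k f ∨
            S.R ((x.1.val : ℕ) : ZMod (2 * n)) ∉ S.comp d k f := by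
          rw [ZMod.natCast_zmod_val]
          rcases hx1 with h1 | h1
          · left
            intro hc
            have := h.comp_gt hk hc
            omega
          · right
            intro hc
            have := h.comp_gt hk hc
            omega
        have hs := h.sbound l hl hcl k hk2 f hk C ((h.bd_card hk).trans hlev) x.1.val hel hside
        refine le_trans (le_of_eq ?_) hs
        congr 1
        rw [hF, Pp, Finset.filter_filter, Finset.sum_filter]
        have hsub : range (x.1.val + 1) ⊆ range l := by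
          intro y hy
          simp only [mem_range] at hy ⊢
          omega
        rw [← Finset.sum_subset hsub (f := fun p : ℕ => if (p < S.pt p ∧ S.pt p < l) ∧
          S.L ((p : ZMod (2 * n)) - 1) ∈ S.comp d k f then S.tau (p : ZMod (2 * n)) *
            (if p ≤ x.1.val ∧ x.1.val < S.pt p then 1 else 0) else 0)]
        · apply Finset.sum_congr rfl
          intro p hp
          have hpe := Finset.mem_range.1 hp
          by_cases h2 : x.1.val < S.pt p ∧ S.pt p < l ∧
              S.L ((p : ZMod (2 * n)) - 1) ∈ S.comp d k f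
          · rw [if_pos h2, if_pos ⟨⟨by omega, h2.2.1⟩, h2.2.2⟩, if_pos ⟨by omega, h2.1⟩, mul_one]
          · rw [if_neg h2]
            by_cases h3 : (p < S.pt p ∧ S.pt p < l) ∧ S.L ((p : ZMod (2 * n)) - 1) ∈ S.comp d k f
            · rw [if_pos h3, if_neg (fun h4 => h2 ⟨h4.2, h3.1.2, h3.2⟩), mul_zero]
            · rw [if_neg h3]
        · intro p _ hp
          by_cases h3 : (p < S.pt p ∧ S.pt p < l) ∧ S.L ((p : ZMod (2 * n)) - 1) ∈ S.comp d k f
          · rw [if_pos h3, if_neg (fun h4 => hp (Finset.mem_range.2 (by omega))), mul_zero]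
          · rw [if_neg h3]
      · have hz : ∑ p ∈ F, S.tau (p : ZMod (2 * n)) *
            (if p ≤ x.1.val ∧ x.1.val < S.pt p then (1 : ℤ) else 0) = 0 := by
          apply Finset.sum_eq_zero
          intro p hp
          have hp' := hFP p hp
          simp only [Pp, mem_filter, mem_range] at hp'
          rw [if_neg (by omega), mul_zero]
        rw [hz, abs_zero]
        positivity
    rw [abs_mul]
    calc |x.2| * _ ≤ 1 * _ := mul_le_mul_of_nonneg_right hx2 (abs_nonneg _)
      _ ≤ (Kb C : ℤ) := by rw [one_mul]; exact key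
  refine (list_bound lst _ (Kb C : ℤ) hB).trans ?_
  apply mul_le_mul_of_nonneg_right _ (by positivity)
  exact_mod_cast hl2

open Classical in
/-- the contribution of one sparse level -/
theorem one_level [NeZero n] {d : Fin (n + 2) → ℕ} (h : S.IsRank d) (l : ℕ) (hl : l ≤ 2 * n)
    (hcl : d (S.L ((l : ZMod (2 * n)) - 1)) ≤ 2) (C k : ℕ) (J : ℕ → Fin (n + 2) → ℤ)
    (hJ : ∀ p ∈ Pp S l, S.IsIndex (J p) (fun t => if p ≤ t.val ∧ t.val < S.pt p then 1 else 0)) :
    |∑ p ∈ Pp S l, S.tau (p : ZMod (2 * n)) *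
        (if k < d (S.L ((p : ZMod (2 * n)) - 1)) then
          J p (S.gt d C k (S.L ((p : ZMod (2 * n)) - 1))) -
            J p (S.gt d C (k + 1) (S.L ((p : ZMod (2 * n)) - 1))) else 0)| ≤
      if S.Sp d C k then (C : ℤ) * (((S.gap d C k + (8 * C + 3) : ℕ) : ℤ) * (Kb C : ℤ)) else 0 := by
  by_cases hsp : S.Sp d C k
  · rw [if_pos hsp]
    set U : Finset (Set (Fin (n + 2))) :=
      (Set.toFinite {U : Set (Fin (n + 2)) | ∃ f, k < d f ∧ U = S.comp d k f}).toFinset with hU
    have hUc : U.card ≤ C := by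
      have := h.card_comp k
      rw [Set.ncard_eq_toFinset_card _ (Set.toFinite _)] at this
      exact this.trans hsp.2
    set P' := (Pp S l).filter (fun p : ℕ => k < d (S.L ((p : ZMod (2 * n)) - 1))) with hP'
    have e1 : ∑ p ∈ Pp S l, S.tau (p : ZMod (2 * n)) *
        (if k < d (S.L ((p : ZMod (2 * n)) - 1)) then
          J p (S.gt d C k (S.L ((p : ZMod (2 * n)) - 1))) -
            J p (S.gt d C (k + 1) (S.L ((p : ZMod (2 * n)) - 1))) else 0) =
        ∑ p ∈ P', S.tau (p : ZMod (2 * n)) *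
          (J p (S.gt d C k (S.L ((p : ZMod (2 * n)) - 1))) -
            J p (S.gt d C (k + 1) (S.L ((p : ZMod (2 * n)) - 1)))) := by
      rw [hP', Finset.sum_filter]
      apply Finset.sum_congr rfl
      intro p _
      split_ifs <;> simp
    rw [e1, ← Finset.sum_fiberwise_of_maps_to (t := U)
      (g := fun p : ℕ => S.comp d k (S.L ((p : ZMod (2 * n)) - 1)))]
    · refine (Finset.abs_sum_le_sum_abs _ _).trans ?_
      have hb : ∀ u ∈ U, |∑ p ∈ P'.filter
          (fun p : ℕ => S.comp d k (S.L ((p : ZMod (2 * n)) - 1)) = u),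
            S.tau (p : ZMod (2 * n)) *
          (J p (S.gt d C k (S.L ((p : ZMod (2 * n)) - 1))) -
            J p (S.gt d C (k + 1) (S.L ((p : ZMod (2 * n)) - 1))))| ≤
            ((S.gap d C k + (8 * C + 3) : ℕ) : ℤ) * (Kb C : ℤ) := by
        intro u hu
        rw [hU, Set.Finite.mem_toFinset] at hu
        obtain ⟨f, hf, rfl⟩ := hu
        refine le_trans (le_of_eq ?_) (one_comp h l hl hcl C k hsp f hf J hJ)
        congr 1
        have e2 : P'.filter (fun p : ℕ => S.comp d k (S.L ((p : ZMod (2 * n)) - 1)) =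
            S.comp d k f) =
            (Pp S l).filter (fun p : ℕ => S.L ((p : ZMod (2 * n)) - 1) ∈ S.comp d k f) := by
          ext p
          rw [hP', Finset.filter_filter, Finset.mem_filter, Finset.mem_filter]
          constructor
          · rintro ⟨h1, _, h3⟩
            refine ⟨h1, ?_⟩
            rw [← h3]
            exact IsRank.comp_self _ _
          · rintro ⟨h1, h2⟩
            exact ⟨h1, h.comp_gt hf h2, h.comp_eq hf h2⟩
        rw [e2]
        apply Finset.sum_congr rfl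
        intro p hp
        have hp2 := (Finset.mem_filter.1 hp).2
        obtain ⟨g1, g2⟩ := h.gt_comp (C := C) k f (S.L ((p : ZMod (2 * n)) - 1)) hf hp2
        rw [g1, g2]
      refine (Finset.sum_le_card_nsmul U _ _ hb).trans ?_
      rw [nsmul_eq_mul]
      apply mul_le_mul_of_nonneg_right _ (by positivity)
      exact_mod_cast hUc
    · intro p hp
      rw [hU]
      rw [Set.Finite.mem_toFinset]
      exact ⟨_, (Finset.mem_filter.1 hp).2, rfl⟩
  · rw [if_neg hsp]
    have hz : ∑ p ∈ Pp S l, S.tau (p : ZMod (2 * n)) *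
        (if k < d (S.L ((p : ZMod (2 * n)) - 1)) then
          J p (S.gt d C k (S.L ((p : ZMod (2 * n)) - 1))) -
            J p (S.gt d C (k + 1) (S.L ((p : ZMod (2 * n)) - 1))) else 0) = 0 := by
      apply Finset.sum_eq_zero
      intro p _
      have : S.gt d C (k + 1) (S.L ((p : ZMod (2 * n)) - 1)) =
          S.gt d C k (S.L ((p : ZMod (2 * n)) - 1)) := by
        rw [gt, if_neg hsp]
      rw [this, sub_self, ite_self, mul_zero]
    rw [hz, abs_zero]

end AsmAux

open AsmAux LoopAux in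
open Classical in
theorem asm [NeZero n] (l : ℕ) (hl : l ≤ 2 * n) (hcl : S.Closed l) (C : ℕ) :
    |(S.Wl l : ℝ)| ≤ 2 * (n : ℝ) ^ 2 / ((C : ℝ) + 1) + Kc C * (n : ℝ) := by
  obtain ⟨d, h⟩ := S.exists_rank
  have hn1 : 1 ≤ n := Nat.pos_of_ne_zero (NeZero.ne n)
  have hcl2 : d (S.L ((l : ZMod (2 * n)) - 1)) ≤ 2 := by
    have h1 := hcl (fun f => (d f : ℤ)) (fun j => by
      have a := h.lipL j
      have b := h.lipR j
      rw [abs_le]
      constructor <;> omega)
    have h0 : d (S.L (-1)) = 0 := (h.zero _).2 rfl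
    rw [abs_le, h0] at h1
    have h2 := h1.2
    push_cast at h2
    omega
  -- index functions
  have hex : ∀ p, p < S.pt p → ∃ I : Fin (n + 2) → ℤ,
      S.IsIndex I (fun t => if p ≤ t.val ∧ t.val < S.pt p then 1 else 0) ∧
      Rr S p = I (S.L (-1)) - I (S.L ((p : ZMod (2 * n)) - 1)) := fun p hp =>
    S.loop_index p (S.pt p) hp (pt_lt S p) rfl
  choose! J hJ1 hJ2 using hex
  have hJ : ∀ p ∈ Pp S l,
      S.IsIndex (J p) (fun t => if p ≤ t.val ∧ t.val < S.pt p then 1 else 0) := by
    intro p hp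
    simp only [Pp, mem_filter] at hp
    exact hJ1 p hp.2.1
  -- decomposition
  have hdec : S.Wl l = (∑ k ∈ range (n + 1), ∑ p ∈ Pp S l, S.tau (p : ZMod (2 * n)) *
        (if k < d (S.L ((p : ZMod (2 * n)) - 1)) then
          J p (S.gt d C k (S.L ((p : ZMod (2 * n)) - 1))) -
            J p (S.gt d C (k + 1) (S.L ((p : ZMod (2 * n)) - 1))) else 0)) +
      ∑ p ∈ Pp S l, S.tau (p : ZMod (2 * n)) *
        (J p (S.gt d C (d (S.L ((p : ZMod (2 * n)) - 1))) (S.L ((p : ZMod (2 * n)) - 1))) -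
          J p (S.L ((p : ZMod (2 * n)) - 1))) := by
    rw [Wl_eq, Finset.sum_comm, ← Finset.sum_add_distrib]
    apply Finset.sum_congr rfl
    intro p hp
    simp only [Pp, mem_filter] at hp
    rw [← Finset.mul_sum, ← mul_add]
    congr 1
    rw [hJ2 p hp.2.1]
    generalize S.L ((p : ZMod (2 * n)) - 1) = f
    have hdf : d f ≤ n + 1 := h.le f
    have e1 : ∑ k ∈ range (n + 1), (if k < d f then
        J p (S.gt d C k f) - J p (S.gt d C (k + 1) f) else 0) =
        ∑ k ∈ range (d f), (J p (S.gt d C k f) - J p (S.gt d C (k + 1) f)) := by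
      rw [← Finset.sum_filter]
      congr 1
      ext k
      simp only [mem_filter, mem_range]
      omega
    rw [e1, Finset.sum_range_sub' (fun k => J p (S.gt d C k f)) (d f)]
    have e2 : S.gt d C 0 f = S.L (-1) := rfl
    rw [e2]
    ring
  -- first part
  have hA : |∑ k ∈ range (n + 1), ∑ p ∈ Pp S l, S.tau (p : ZMod (2 * n)) *
        (if k < d (S.L ((p : ZMod (2 * n)) - 1)) then
          J p (S.gt d C k (S.L ((p : ZMod (2 * n)) - 1))) -
            J p (S.gt d C (k + 1) (S.L ((p : ZMod (2 * n)) - 1))) else 0)| ≤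
      (C : ℤ) * (Kb C : ℤ) * (((n : ℤ) + 1) * (8 * C + 4)) := by
    refine (Finset.abs_sum_le_sum_abs _ _).trans ?_
    refine (Finset.sum_le_sum (fun k _ => one_level h l hl hcl2 C k J hJ)).trans ?_
    have hg := (gap_sum (S := S) (d := d) (C := C) (n + 1)).1
    have e3 : ∑ k ∈ range (n + 1), (if S.Sp d C k then
        (C : ℤ) * (((S.gap d C k + (8 * C + 3) : ℕ) : ℤ) * (Kb C : ℤ)) else 0) =
        (C : ℤ) * (Kb C : ℤ) * ∑ k ∈ range (n + 1), (if S.Sp d C k then
          ((S.gap d C k : ℤ) + (8 * C + 3)) else 0) := by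
      rw [Finset.mul_sum]
      apply Finset.sum_congr rfl
      intro k _
      split_ifs
      · push_cast; ring
      · ring
    rw [e3]
    apply mul_le_mul_of_nonneg_left _ (by positivity)
    have e4 : ∑ k ∈ range (n + 1), (if S.Sp d C k then
          ((S.gap d C k : ℤ) + (8 * C + 3)) else 0) ≤
        (∑ k ∈ range (n + 1), (if S.Sp d C k then (S.gap d C k : ℤ) else 0)) +
          ∑ k ∈ range (n + 1), ((8 * C + 3 : ℤ)) := by
      rw [← Finset.sum_add_distrib]
      apply Finset.sum_le_sum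
      intro k _
      split_ifs
      · linarith
      · positivity
    have e5 : (∑ k ∈ range (n + 1), (if S.Sp d C k then (S.gap d C k : ℤ) else 0)) ≤ n + 1 := by
      have : ((∑ k ∈ range (n + 1), (if S.Sp d C k then S.gap d C k else 0) : ℕ) : ℤ) ≤
          ((n + 1 : ℕ) : ℤ) := by
        exact_mod_cast (Nat.le_add_right _ _).trans hg
      push_cast at this
      exact this
    rw [Finset.sum_const, Finset.card_range, nsmul_eq_mul] at e4
    push_cast at e4
    nlinarith
  -- second part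
  have hB : |((∑ p ∈ Pp S l, S.tau (p : ZMod (2 * n)) *
        (J p (S.gt d C (d (S.L ((p : ZMod (2 * n)) - 1))) (S.L ((p : ZMod (2 * n)) - 1))) -
          J p (S.L ((p : ZMod (2 * n)) - 1))) : ℤ) : ℝ)| ≤
      (n : ℝ) * (2 * n / ((C : ℝ) + 1) + (8 * C + 5)) := by
    push_cast
    refine (Finset.abs_sum_le_sum_abs _ _).trans ?_
    have hterm : ∀ p ∈ Pp S l, |(S.tau (p : ZMod (2 * n)) : ℝ) *
        ((J p (S.gt d C (d (S.L ((p : ZMod (2 * n)) - 1))) (S.L ((p : ZMod (2 * n)) - 1))) : ℝ) -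
          (J p (S.L ((p : ZMod (2 * n)) - 1)) : ℝ))| ≤
          2 * n / ((C : ℝ) + 1) + (8 * C + 5) := by
      intro p hp
      have hI := hJ p hp
      have htau : |(S.tau (p : ZMod (2 * n)) : ℝ)| = 1 := by
        rcases S.tau_pm (p : ZMod (2 * n)) with ht | ht <;> rw [ht] <;> simp
      rw [abs_mul, htau, one_mul]
      generalize S.L ((p : ZMod (2 * n)) - 1) = f
      have hpath := h.descent (C := C) (d f) f le_rfl f rfl (by
        by_cases h0 : d f = 0
        · exact Or.inl h0
        · exact Or.inr (IsRank.comp_self _ _))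
      have hb := hpath.bound (J p) _ hI 1 zero_le_one (fun j _ => by
        split_ifs <;> simp)
      rw [mul_one] at hb
      have hb2 : |((J p (S.gt d C (d f) f) : ℝ)) - (J p f : ℝ)| ≤
          ((S.gap d C (d f) + (8 * C + 3) : ℕ) : ℝ) := by
        exact_mod_cast hb
      refine hb2.trans ?_
      have hg := (gap_sum (S := S) (d := d) (C := C) (d f)).2
      have hg2 : (S.gap d C (d f) : ℝ) * ((C : ℝ) + 1) ≤ 2 * n + 2 * ((C : ℝ) + 1) := by
        exact_mod_cast hg
      have hC : (0 : ℝ) < (C : ℝ) + 1 := by positivity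
      have hg3 : (S.gap d C (d f) : ℝ) ≤ 2 * n / ((C : ℝ) + 1) + 2 := by
        rw [div_add' _ _ _ hC.ne', le_div_iff₀ hC]
        exact hg2
      push_cast
      linarith
    refine (Finset.sum_le_card_nsmul _ _ _ hterm).trans ?_
    rw [nsmul_eq_mul]
    apply mul_le_mul_of_nonneg_right _ (by positivity)
    exact_mod_cast Pp_card S hl
  rw [hdec]
  push_cast at hB ⊢
  refine (abs_add_le _ _).trans ?_
  have hA2 : |((∑ k ∈ range (n + 1), ∑ p ∈ Pp S l, S.tau (p : ZMod (2 * n)) *
        (if k < d (S.L ((p : ZMod (2 * n)) - 1)) then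
          J p (S.gt d C k (S.L ((p : ZMod (2 * n)) - 1))) -
            J p (S.gt d C (k + 1) (S.L ((p : ZMod (2 * n)) - 1))) else 0) : ℤ) : ℝ)| ≤
      (C : ℝ) * (Kb C : ℝ) * (((n : ℝ) + 1) * (8 * C + 4)) := by
    exact_mod_cast hA
  push_cast at hA2
  have hfin : (C : ℝ) * (Kb C : ℝ) * (((n : ℝ) + 1) * (8 * C + 4)) +
      (n : ℝ) * (2 * n / ((C : ℝ) + 1) + (8 * C + 5)) ≤
      2 * (n : ℝ) ^ 2 / ((C : ℝ) + 1) + Kc C * (n : ℝ) := by
    have e6 : (Kc C : ℝ) = (8 * (C : ℝ) + 5) + C * Kb C * (3 * (8 * C + 4)) := by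
      unfold Kc
      push_cast
      ring
    rw [e6]
    have hn1' : (1 : ℝ) ≤ n := by exact_mod_cast hn1
    have e7 : (C : ℝ) * (Kb C : ℝ) * (((n : ℝ) + 1) * (8 * C + 4)) ≤
        (C : ℝ) * (Kb C : ℝ) * ((3 * n) * (8 * C + 4)) := by
      apply mul_le_mul_of_nonneg_left _ (by positivity)
      apply mul_le_mul_of_nonneg_right _ (by positivity)
      linarith
    have e8 : (n : ℝ) * (2 * n / ((C : ℝ) + 1) + (8 * C + 5)) =
        2 * (n : ℝ) ^ 2 / ((C : ℝ) + 1) + n * (8 * C + 5) := by ring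
    rw [e8]
    linarith
  linarith

end Shadow

end Pool.H3F
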