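import Pool.Agent.H3F.Comp

/-! The boundary of a component is connected. -/

namespace Pool.H3F

open Finset

namespace Shadow

variable {n : ℕ} {S : Shadow n} {d : Fin (n + 2) → ℕ}

/-- Walks along the boundary of `U`: from the passage `i` to the passage `j` in `N` steps. -/
inductive BWalk (S : Shadow n) (U : Set (Fin (n + 2))) : ℕ → ZMod (2 * n) → ZMod (2 * n) → Prop
  | nil (i : ZMod (2 * n)) : BWalk S U 0 i i
  | star (N : ℕ) (i j : ZMod (2 * n)) : BWalk S U N i j → BWalk S U (N + 1) i (S.star j)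
  | fwd (N : ℕ) (i j : ZMod (2 * n)) : j ∈ S.bd U → BWalk S U N i j → BWalk S U (N + 1) i (j + 1)
  | bwd (N : ℕ) (i j : ZMod (2 * n)) : j - 1 ∈ S.bd U → BWalk S U N i j →
      BWalk S U (N + 1) i (j - 1)

end Shadow

namespace BdcAux

open Shadow Classical

variable {n : ℕ} {S : Shadow n} {d : Fin (n + 2) → ℕ} {U : Set (Fin (n + 2))}

/-- indicator of `U` -/
noncomputable def iu (U : Set (Fin (n + 2))) (g : Fin (n + 2)) : ℤ := if g ∈ U then 1 else 0

/-- reachable passages -/
def RK (S : Shadow n) (U : Set (Fin (n + 2))) (i : ZMod (2 * n)) : Set (ZMod (2 * n)) :=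
  {t | ∃ N, BWalk S U N i t}

theorem walk_bv {i : ZMod (2 * n)} (hi : i ∈ S.bv U) {N : ℕ} {t : ZMod (2 * n)}
    (h : BWalk S U N i t) : t ∈ S.bv U := by
  induction h with
  | nil => exact hi
  | star N i j h ih => exact (bv_star U j).2 (ih hi)
  | fwd N i j hj h ih => exact (bd_bv U j hj).2
  | bwd N i j hj h ih => exact (bd_bv U _ hj).1

theorem rk_star {i t : ZMod (2 * n)} (h : t ∈ RK S U i) : S.star t ∈ RK S U i := by
  obtain ⟨N, h⟩ := h
  exact ⟨_, BWalk.star N i t h⟩

theorem rk_star' {i t : ZMod (2 * n)} (h : S.star t ∈ RK S U i) : t ∈ RK S U i := by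
  have := rk_star h
  rwa [S.star_star] at this

theorem rk_fwd {i t : ZMod (2 * n)} (h : t - 1 ∈ RK S U i) (hb : t - 1 ∈ S.bd U) :
    t ∈ RK S U i := by
  obtain ⟨N, h⟩ := h
  have := BWalk.fwd N i (t - 1) hb h
  rw [sub_add_cancel] at this
  exact ⟨_, this⟩

theorem rk_bwd {i t : ZMod (2 * n)} (h : t ∈ RK S U i) (hb : t - 1 ∈ S.bd U) :
    t - 1 ∈ RK S U i := by
  obtain ⟨N, h⟩ := h
  exact ⟨_, BWalk.bwd N i t hb h⟩

theorem iu_eq {t : ZMod (2 * n)} (h : t ∉ S.bd U) : iu U (S.L t) - iu U (S.R t) = 0 := by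
  unfold iu
  by_cases hL : S.L t ∈ U
  · by_cases hR : S.R t ∈ U
    · simp [hL, hR]
    · exact absurd (Or.inl ⟨hL, hR⟩) h
  · by_cases hR : S.R t ∈ U
    · exact absurd (Or.inr ⟨hL, hR⟩) h
    · simp [hL, hR]

theorem iu_ne {t : ZMod (2 * n)} (h : t ∈ S.bd U) : iu U (S.L t) - iu U (S.R t) ≠ 0 := by
  unfold iu
  rcases h with ⟨h1, h2⟩ | ⟨h1, h2⟩ <;> simp [h1, h2]

/-- the divergence of a difference vanishes -/
theorem circ_delta (I : Fin (n + 2) → ℤ) : S.Circ (fun t => I (S.L t) - I (S.R t)) := by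
  intro j
  show I (S.L j) - I (S.R j) + (I (S.L (S.star j)) - I (S.R (S.star j))) =
    I (S.L (j - 1)) - I (S.R (j - 1)) + (I (S.L (S.star j - 1)) - I (S.R (S.star j - 1)))
  rcases S.tau_pm j with h | h
  · obtain ⟨h1, h2, h3, h4⟩ := S.corner j h
    rw [h1, h2, h3, h4]; ring
  · have h' : S.tau (S.star j) = 1 := by rw [S.tau_star, h]; rfl
    obtain ⟨h1, h2, h3, h4⟩ := S.corner _ h'
    rw [S.star_star] at h1 h2 h3 h4
    rw [h1, h2, h3, h4]; ring

/-- the circulation supported on the reachable part of the boundary -/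
noncomputable def zz (S : Shadow n) (U : Set (Fin (n + 2))) (i t : ZMod (2 * n)) : ℤ :=
  if t ∈ RK S U i then iu U (S.L t) - iu U (S.R t) else 0

theorem circ_zz (i : ZMod (2 * n)) : S.Circ (zz S U i) := by
  intro j
  by_cases hj : j ∈ RK S U i
  · have hs := rk_star hj
    have key : ∀ t, t ∈ RK S U i → zz S U i (t - 1) = iu U (S.L (t - 1)) - iu U (S.R (t - 1)) := by
      intro t ht
      unfold zz
      split_ifs with h
      · rfl
      · symm
        apply iu_eq
        intro hb
        exact h (rk_bwd ht hb)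
    rw [key j hj, key _ hs]
    unfold zz
    rw [if_pos hj, if_pos hs]
    exact circ_delta (iu U) j
  · have hs : S.star j ∉ RK S U i := fun h => hj (rk_star' h)
    have key : ∀ t, t ∉ RK S U i → zz S U i (t - 1) = 0 := by
      intro t ht
      unfold zz
      split_ifs with h
      · apply iu_eq
        intro hb
        exact ht (rk_fwd h hb)
      · rfl
    rw [key j hj, key _ hs]
    unfold zz
    rw [if_neg hj, if_neg hs]

theorem zz_eq_zero {i t : ZMod (2 * n)} (h : t ∉ S.bd U) : zz S U i t = 0 := by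
  unfold zz
  rw [iu_eq h]
  simp

/-- every boundary passage is reachable -/
theorem reach [NeZero n] (h : S.IsRank d) {k : ℕ} {f : Fin (n + 2)} (hk : k < d f)
    (i j : ZMod (2 * n)) (hi : i ∈ S.bv (S.comp d k f)) (hj : j ∈ S.bv (S.comp d k f)) :
    j ∈ RK S (S.comp d k f) i := by
  set U := S.comp d k f with hU
  obtain ⟨I, hI⟩ := S.exists_index _ (circ_zz (S := S) (U := U) i)
  have hin : ∀ g g', g ∈ U → g' ∈ U → I g = I g' := by
    intro g g' hg hg'
    refine h.comp_const hk I ?_ hg hg'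
    intro t h1 h2
    have h3 : t ∉ S.bd U := by
      rintro (⟨_, h4⟩ | ⟨h4, _⟩)
      · exact h4 h2
      · exact h4 h1
    have := hI t
    rw [zz_eq_zero h3] at this
    linarith
  have hout : ∀ g g', g ∉ U → g' ∉ U → I g = I g' := by
    intro g g' hg hg'
    refine h.compl_const hk I ?_ hg hg'
    intro t h1 h2
    have h3 : t ∉ S.bd U := by
      rintro (⟨h4, _⟩ | ⟨_, h4⟩)
      · exact h1 h4
      · exact h2 h4
    have := hI t
    rw [zz_eq_zero h3] at this
    linarith
  have hself : i ∈ RK S U i := ⟨0, BWalk.nil i⟩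
  -- the values inside and outside differ
  have hne : ∀ g g', g ∈ U → g' ∉ U → I g ≠ I g' := by
    have main : ∃ t, t ∈ S.bd U ∧ t ∈ RK S U i := by
      rcases bv_edge U i hi with h1 | h1 | h1 | h1
      · exact ⟨_, h1, hself⟩
      · exact ⟨_, h1, rk_bwd hself h1⟩
      · exact ⟨_, h1, rk_star hself⟩
      · exact ⟨_, h1, rk_bwd (rk_star hself) h1⟩
    obtain ⟨t, ht1, ht2⟩ := main
    have h1 : zz S U i t ≠ 0 := by
      unfold zz
      rw [if_pos ht2]
      exact iu_ne ht1
    have h2 : I (S.L t) ≠ I (S.R t) := by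
      intro h3
      apply h1
      have := hI t
      rw [h3, sub_self] at this
      exact this.symm
    intro g g' hg hg' heq
    apply h2
    rcases ht1 with ⟨h3, h4⟩ | ⟨h3, h4⟩
    · rw [hin _ _ h3 hg, heq, hout _ _ hg' h4]
    · rw [hin _ _ h4 hg, heq, hout _ _ h3 hg']
  have hall : ∀ t, t ∈ S.bd U → t ∈ RK S U i := by
    intro t ht
    by_contra hcon
    have h1 : zz S U i t = 0 := by
      unfold zz
      rw [if_neg hcon]
    have h2 := hI t
    rw [h1] at h2
    rcases ht with ⟨h3, h4⟩ | ⟨h3, h4⟩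
    · exact hne _ _ h3 h4 (by linarith)
    · exact hne _ _ h4 h3 (by linarith)
  rcases bv_edge U j hj with h1 | h1 | h1 | h1
  · exact hall _ h1
  · exact rk_fwd (hall _ h1) h1
  · exact rk_star' (hall _ h1)
  · exact rk_star' (rk_fwd (hall _ h1) h1)

/-- a shortest walk passes through all smaller distances -/
theorem shortest {i t : ZMod (2 * n)} {N : ℕ} (h : BWalk S U N i t)
    (hi : i ∈ S.bv U) (hmin : ∀ M < N, ¬ BWalk S U M i t) :
    ∀ m ≤ N, ∃ s, s ∈ S.bv U ∧ BWalk S U m i s ∧ ∀ M < m, ¬ BWalk S U M i s := by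
  induction h with
  | nil i =>
    intro m hm
    have : m = 0 := by omega
    subst this
    exact ⟨i, hi, BWalk.nil i, by intro M hM; omega⟩
  | star N i j h ih =>
    intro m hm
    rcases Nat.lt_or_ge N m with hlt | hle
    · have : m = N + 1 := by omega
      subst this
      exact ⟨_, walk_bv hi (BWalk.star N i j h), BWalk.star N i j h, hmin⟩
    · exact ih hi (fun M hM hw => hmin (M + 1) (by omega) (BWalk.star M i j hw)) m hle
  | fwd N i j hj h ih =>
    intro m hm
    rcases Nat.lt_or_ge N m with hlt | hle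
    · have : m = N + 1 := by omega
      subst this
      exact ⟨_, walk_bv hi (BWalk.fwd N i j hj h), BWalk.fwd N i j hj h, hmin⟩
    · exact ih hi (fun M hM hw => hmin (M + 1) (by omega) (BWalk.fwd M i j hj hw)) m hle
  | bwd N i j hj h ih =>
    intro m hm
    rcases Nat.lt_or_ge N m with hlt | hle
    · have : m = N + 1 := by omega
      subst this
      exact ⟨_, walk_bv hi (BWalk.bwd N i j hj h), BWalk.bwd N i j hj h, hmin⟩
    · exact ih hi (fun M hM hw => hmin (M + 1) (by omega) (BWalk.bwd M i j hj hw)) m hle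

theorem short [NeZero n] {i t : ZMod (2 * n)} (hi : i ∈ S.bv U) (ht : t ∈ RK S U i) :
    ∃ N, N ≤ (S.bv U).ncard ∧ BWalk S U N i t := by
  have hex : ∃ N, BWalk S U N i t := ht
  set N := Nat.find hex with hN
  have h1 : BWalk S U N i t := Nat.find_spec hex
  have hmin : ∀ M < N, ¬ BWalk S U M i t := fun M hM => Nat.find_min hex hM
  refine ⟨N, ?_, h1⟩
  have hs := shortest h1 hi hmin
  choose! s hs1 hs2 hs3 using hs
  have hinj : Set.InjOn s (Finset.range (N + 1) : Set ℕ) := by
    intro a ha b hb hab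
    have ha' : a ≤ N := by
      have := Finset.mem_range.1 (Finset.mem_coe.1 ha); omega
    have hb' : b ≤ N := by
      have := Finset.mem_range.1 (Finset.mem_coe.1 hb); omega
    rcases lt_trichotomy a b with hlt | heq | hgt
    · exfalso
      apply hs3 b hb' a hlt
      rw [← hab]; exact hs2 a ha'
    · exact heq
    · exfalso
      apply hs3 a ha' b hgt
      rw [hab]; exact hs2 b hb'
  have h2 : (Finset.range (N + 1) : Set ℕ).ncard ≤ (S.bv U).ncard := by
    refine Set.ncard_le_ncard_of_injOn s ?_ hinj (Set.toFinite _)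
    intro a ha
    have ha' : a ≤ N := by
      have := Finset.mem_range.1 (Finset.mem_coe.1 ha); omega
    exact hs1 a ha'
  rw [Set.ncard_coe_finset, Finset.card_range] at h2
  omega

end BdcAux

namespace Shadow

variable {n : ℕ} {S : Shadow n} {d : Fin (n + 2) → ℕ}

theorem IsRank.bwalk [NeZero n] (h : S.IsRank d) {k : ℕ} {f : Fin (n + 2)} (hk : k < d f)
    (i j : ZMod (2 * n)) (hi : i ∈ S.bv (S.comp d k f)) (hj : j ∈ S.bv (S.comp d k f)) :
    ∃ N, N ≤ 4 * (S.bd (S.comp d k f)).ncard ∧ BWalk S (S.comp d k f) N i j := by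
  obtain ⟨N, h1, h2⟩ := BdcAux.short hi (BdcAux.reach h hk i j hi hj)
  exact ⟨N, h1.trans (bv_card _), h2⟩

end Shadow

end Pool.H3F
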