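import Pool.Agent.H3F.Walk

/-! The arcs at a crossing are nearly closed. -/

namespace Pool.H3F

namespace CloAux

variable {n : ℕ} (S : Shadow n)

theorem stepL (d : Fin (n + 2) → ℤ) (hd : ∀ j, |d (S.L j) - d (S.R j)| ≤ 1)
    (j : ZMod (2 * n)) : |d (S.L j) - d (S.L (j - 1))| ≤ 1 := by
  rcases S.consecL j with ⟨_, h2, h3⟩ | ⟨_, h2, h3⟩
  · rw [h2, h3, abs_sub_comm]; exact hd _
  · rw [h2, h3]; exact hd _

theorem stepR (d : Fin (n + 2) → ℤ) (hd : ∀ j, |d (S.L j) - d (S.R j)| ≤ 1)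
    (j : ZMod (2 * n)) : |d (S.R j) - d (S.R (j - 1))| ≤ 1 := by
  rcases S.consecR j with ⟨_, h2, h3⟩ | ⟨_, h2, h3⟩
  · rw [h2, h3, abs_sub_comm]; exact hd _
  · rw [h2, h3]; exact hd _

theorem cast_last [NeZero n] : ((2 * n - 1 : ℕ) : ZMod (2 * n)) = -1 := by
  have h1 : 1 ≤ 2 * n := by have := NeZero.pos n; omega
  rw [Nat.cast_sub h1, ZMod.natCast_self]
  simp

theorem star_last [NeZero n] (m : ℕ) (h : S.pt (2 * n - 1) = m) :
    S.star (-1) = (m : ZMod (2 * n)) := by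
  have h0 : NeZero (2 * n) := ⟨by have := NeZero.ne n; omega⟩
  unfold Shadow.pt at h
  rw [cast_last] at h
  rw [← h, ZMod.natCast_zmod_val]

end CloAux

namespace Shadow

variable {n : ℕ} (S : Shadow n)

/-- Any two of the four corners at a crossing are at distance at most two. -/
theorem corners_close (d : Fin (n + 2) → ℤ) (hd : ∀ j, |d (S.L j) - d (S.R j)| ≤ 1)
    (j : ZMod (2 * n)) (f g : Fin (n + 2))
    (hf : f = S.L j ∨ f = S.R j ∨ f = S.L (j - 1) ∨ f = S.R (j - 1))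
    (hg : g = S.L j ∨ g = S.R j ∨ g = S.L (j - 1) ∨ g = S.R (j - 1)) :
    |d f - d g| ≤ 2 := by
  have h1 := abs_le.1 (hd j)
  have h2 := abs_le.1 (hd (j - 1))
  have h3 := abs_le.1 (CloAux.stepL S d hd j)
  have h4 := abs_le.1 (CloAux.stepR S d hd j)
  rw [abs_le]
  rcases hf with rfl | rfl | rfl | rfl <;> rcases hg with rfl | rfl | rfl | rfl <;>
    constructor <;> omega

theorem closed_all : S.Closed (2 * n) := by
  intro d _
  have h1 : ((2 * n : ℕ) : ZMod (2 * n)) - 1 = -1 := by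
    rw [ZMod.natCast_self]; ring
  rw [h1]
  simp

theorem closed_cut [NeZero n] : S.Closed (2 * n - 1) := by
  intro d hd
  rw [CloAux.cast_last]
  exact S.corners_close d hd (-1) _ _ (Or.inr (Or.inr (Or.inl rfl))) (Or.inl rfl)

theorem closed_fst [NeZero n] (m : ℕ) (hm : m < 2 * n - 1) (h : S.pt (2 * n - 1) = m) :
    S.Closed m := by
  intro d hd
  have h1 := CloAux.star_last S m h
  have h2 := (S.corners_star (fun f => S.L (-1) = f) (-1)).1.1 (Or.inl rfl)
  rw [h1] at h2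
  exact S.corners_close d hd m _ _ (Or.inr (Or.inr (Or.inl rfl))) h2

theorem closed_snd [NeZero n] (m : ℕ) (hm : m < 2 * n - 1) (h : S.pt (2 * n - 1) = m) :
    (S.rot (((m + 1 : ℕ)) : ZMod (2 * n))).Closed (2 * n - 2 - m) := by
  intro d hd
  have h1 := CloAux.star_last S m h
  have hd' : ∀ j, |d (S.L j) - d (S.R j)| ≤ 1 := by
    intro j
    have h3 := hd (j - ((m + 1 : ℕ) : ZMod (2 * n)))
    simp only [rot, sub_add_cancel] at h3
    exact h3
  have h2 := (S.corners_star (fun f => S.L (S.star (-1)) = f) (-1)).1.2 (Or.inl rfl)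
  rw [h1] at h2
  simp only [rot]
  have e1 : ((2 * n - 2 - m : ℕ) : ZMod (2 * n)) - 1 + ((m + 1 : ℕ) : ZMod (2 * n)) = -1 - 1 := by
    have e3 : (((2 * n - 2 - m) + 1 + (m + 1) : ℕ) : ZMod (2 * n)) = 0 := by
      have e4 : (2 * n - 2 - m) + 1 + (m + 1) = 2 * n := by omega
      rw [e4, ZMod.natCast_self]
    push_cast at e3 ⊢
    linear_combination e3
  have e2 : (-1 : ZMod (2 * n)) + ((m + 1 : ℕ) : ZMod (2 * n)) = (m : ZMod (2 * n)) := by
    push_cast
    ring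
  rw [e1, e2]
  exact S.corners_close d hd' (-1) _ _ (Or.inr (Or.inr (Or.inl rfl))) h2

end Shadow

end Pool.H3F
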