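import Pool.Agent.H3F.Bdc
import Pool.Agent.H3F.Clo

/-! Consequences of boundary walks: flows and dual paths. -/

namespace Pool.H3F

open Finset

namespace Shadow

variable {n : ℕ} {S : Shadow n}

theorem Path.refl (P : ZMod (2 * n) → Prop) (f : Fin (n + 2)) : S.Path P 0 f f :=
  ⟨[], by simp, by simp, by simp⟩

theorem Path.trans {P : ZMod (2 * n) → Prop} {M N : ℕ} {f g e : Fin (n + 2)}
    (h1 : S.Path P M f g) (h2 : S.Path P N g e) : S.Path P (M + N) f e := by
  obtain ⟨l1, a1, b1, c1⟩ := h1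
  obtain ⟨l2, a2, b2, c2⟩ := h2
  refine ⟨l1 ++ l2, ?_, ?_, ?_⟩
  · intro x hx
    rcases List.mem_append.mp hx with h | h
    · exact a1 x h
    · exact a2 x h
  · rw [List.length_append]; omega
  · intro I
    rw [List.map_append, List.sum_append, ← c1 I, ← c2 I]
    ring

theorem Path.mono {P Q : ZMod (2 * n) → Prop} {M N : ℕ} {f g : Fin (n + 2)}
    (hPQ : ∀ j, P j → Q j) (hMN : M ≤ N) (h : S.Path P M f g) : S.Path Q N f g := by
  obtain ⟨l, a, b, c⟩ := h
  exact ⟨l, fun x hx => ⟨hPQ _ (a x hx).1, (a x hx).2⟩, b.trans hMN, c⟩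

theorem Path.edge {P : ZMod (2 * n) → Prop} (j : ZMod (2 * n)) (hj : P j) :
    S.Path P 1 (S.L j) (S.R j) ∧ S.Path P 1 (S.R j) (S.L j) := by
  constructor
  · refine ⟨[(j, -1)], ?_, by simp, ?_⟩
    · intro x hx
      rw [List.mem_singleton] at hx
      subst hx
      exact ⟨hj, by simp⟩
    · intro I; simp
  · refine ⟨[(j, 1)], ?_, by simp, ?_⟩
    · intro x hx
      rw [List.mem_singleton] at hx
      subst hx
      exact ⟨hj, by simp⟩
    · intro I; simp

/-- A path bounds the difference of the values of an index function. -/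
theorem Path.bound {P : ZMod (2 * n) → Prop} {N : ℕ} {f g : Fin (n + 2)} (h : S.Path P N f g)
    (I : Fin (n + 2) → ℤ) (z : ZMod (2 * n) → ℤ) (hI : S.IsIndex I z) (B : ℤ) (hB : 0 ≤ B)
    (hz : ∀ j, P j → |z j| ≤ B) : |I g - I f| ≤ N * B := by
  obtain ⟨l, a, b, c⟩ := h
  rw [c I]
  have key : ∀ l : List (ZMod (2 * n) × ℤ), (∀ x ∈ l, P x.1 ∧ |x.2| ≤ 1) →
      |(l.map fun x => x.2 * (I (S.L x.1) - I (S.R x.1))).sum| ≤ (l.length : ℤ) * B := by
    intro l
    induction l with
    | nil => intro _; simp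
    | cons x l ih =>
      intro hl
      have h1 := ih fun y hy => hl y (List.mem_cons_of_mem _ hy)
      have h2 := hl x List.mem_cons_self
      rw [List.map_cons, List.sum_cons, List.length_cons]
      have h3 : |x.2 * (I (S.L x.1) - I (S.R x.1))| ≤ 1 * B := by
        rw [abs_mul, hI x.1]
        exact mul_le_mul h2.2 (hz _ h2.1) (abs_nonneg _) (by norm_num)
      refine (abs_add_le _ _).trans ?_
      push_cast
      linarith
  refine (key l a).trans ?_
  have : (l.length : ℤ) ≤ N := by exact_mod_cast b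
  exact mul_le_mul_of_nonneg_right this hB

/-- Two corners at the same crossing are joined by a path of length at most two. -/
theorem Path.corners (j : ZMod (2 * n)) (f g : Fin (n + 2))
    (hf : f = S.L j ∨ f = S.R j ∨ f = S.L (j - 1) ∨ f = S.R (j - 1))
    (hg : g = S.L j ∨ g = S.R j ∨ g = S.L (j - 1) ∨ g = S.R (j - 1)) :
    S.Path (fun t => t = j ∨ t = j - 1 ∨ t = S.star j ∨ t = S.star j - 1) 2 f g := by
  set P : ZMod (2 * n) → Prop := fun t => t = j ∨ t = j - 1 ∨ t = S.star j ∨ t = S.star j - 1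
    with hP
  have p1 : P j := Or.inl rfl
  have p2 : P (j - 1) := Or.inr (Or.inl rfl)
  have p3 : P (S.star j) := Or.inr (Or.inr (Or.inl rfl))
  have p4 : P (S.star j - 1) := Or.inr (Or.inr (Or.inr rfl))
  have e1 := Path.edge (S := S) j p1
  have e2 := Path.edge (S := S) (j - 1) p2
  have e3 : S.Path P 1 (S.L j) (S.L (j - 1)) ∧ S.Path P 1 (S.L (j - 1)) (S.L j) := by
    rcases S.consecL j with ⟨_, h1, h2⟩ | ⟨_, h1, h2⟩
    · rw [h1, h2]; exact (Path.edge (S := S) (S.star j) p3).symm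
    · rw [h1, h2]; exact Path.edge (S := S) (S.star j - 1) p4
  have e4 : S.Path P 1 (S.R j) (S.R (j - 1)) ∧ S.Path P 1 (S.R (j - 1)) (S.R j) := by
    rcases S.consecR j with ⟨_, h1, h2⟩ | ⟨_, h1, h2⟩
    · rw [h1, h2]; exact (Path.edge (S := S) (S.star j - 1) p4).symm
    · rw [h1, h2]; exact Path.edge (S := S) (S.star j) p3
  have m1 : ∀ {f g : Fin (n + 2)}, S.Path P 1 f g → S.Path P 2 f g :=
    fun h => h.mono (fun _ h => h) (by norm_num)
  have m0 : ∀ f : Fin (n + 2), S.Path P 2 f f :=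
    fun f => (Path.refl P f).mono (fun _ h => h) (by norm_num)
  rcases hf with rfl | rfl | rfl | rfl <;> rcases hg with rfl | rfl | rfl | rfl
  · exact m0 _
  · exact m1 e1.1
  · exact m1 e3.1
  · exact e1.1.trans e4.1
  · exact m1 e1.2
  · exact m0 _
  · exact e1.2.trans e3.1
  · exact m1 e4.1
  · exact m1 e3.2
  · exact e3.2.trans e1.1
  · exact m0 _
  · exact m1 e2.1
  · exact e4.2.trans e1.2
  · exact m1 e4.2
  · exact m1 e2.2
  · exact m0 _

namespace BdwAux

theorem cornersU {U : Set (Fin (n + 2))} {j : ZMod (2 * n)} (hj : j ∈ S.bv U)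
    (f g : Fin (n + 2))
    (hf : f = S.L j ∨ f = S.R j ∨ f = S.L (j - 1) ∨ f = S.R (j - 1))
    (hg : g = S.L j ∨ g = S.R j ∨ g = S.L (j - 1) ∨ g = S.R (j - 1)) :
    S.Path (fun t => t ∈ S.bv U ∨ t + 1 ∈ S.bv U) 2 f g := by
  refine (Path.corners j f g hf hg).mono ?_ le_rfl
  have hs : S.star j ∈ S.bv U := (bv_star U j).mpr hj
  rintro t (rfl | rfl | rfl | rfl)
  · exact Or.inl hj
  · right; rw [sub_add_cancel]; exact hj
  · exact Or.inl hs
  · right; rw [sub_add_cancel]; exact hs

theorem path {U : Set (Fin (n + 2))} {N : ℕ} {i j : ZMod (2 * n)}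
    (hw : BWalk S U N i j) (hi : i ∈ S.bv U) (f : Fin (n + 2))
    (hf : f = S.L i ∨ f = S.R i ∨ f = S.L (i - 1) ∨ f = S.R (i - 1)) :
    j ∈ S.bv U ∧ ∀ g : Fin (n + 2),
      (g = S.L j ∨ g = S.R j ∨ g = S.L (j - 1) ∨ g = S.R (j - 1)) →
      S.Path (fun t => t ∈ S.bv U ∨ t + 1 ∈ S.bv U) (2 * (N + 1)) f g := by
  induction hw with
  | nil i => exact ⟨hi, fun g hg => cornersU hi f g hf hg⟩
  | star N i j hw ih =>
    obtain ⟨h1, h2⟩ := ih hi hf
    refine ⟨(bv_star U j).mpr h1, fun g hg => ?_⟩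
    have hg' := ((S.corners_star (fun x => g = x) j).1).mpr hg
    exact (h2 g hg').mono (fun _ h => h) (by omega)
  | fwd N i j hj hw ih =>
    obtain ⟨h1, h2⟩ := ih hi hf
    have hb := (bd_bv U j hj).2
    refine ⟨hb, fun g hg => ?_⟩
    have a1 := h2 (S.L j) (Or.inl rfl)
    have a2 := cornersU hb (S.L j) g (by right; right; left; rw [add_sub_cancel_right]) hg
    exact (a1.trans a2).mono (fun _ h => h) (by omega)
  | bwd N i j hj hw ih =>
    obtain ⟨h1, h2⟩ := ih hi hf
    have hb := (bd_bv U (j - 1) hj).1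
    refine ⟨hb, fun g hg => ?_⟩
    have a1 := h2 (S.L (j - 1)) (Or.inr (Or.inr (Or.inl rfl)))
    have a2 := cornersU hb (S.L (j - 1)) g (Or.inl rfl) hg
    exact (a1.trans a2).mono (fun _ h => h) (by omega)

open Classical in
/-- divergence of the indicator of an edge -/
theorem div_edge (j t : ZMod (2 * n)) :
    ((if t = j then (1 : ℤ) else 0) + (if S.star t = j then 1 else 0)
      - (if t - 1 = j then 1 else 0) - (if S.star t - 1 = j then 1 else 0)) =
      (if t = j ∨ t = S.star j then 1 else 0)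
        - (if t = j + 1 ∨ t = S.star (j + 1) then 1 else 0) := by
  have aux : ∀ k : ZMod (2 * n), (if t = k then (1 : ℤ) else 0) + (if S.star t = k then 1 else 0)
      = if t = k ∨ t = S.star k then 1 else 0 := by
    intro k
    have hs : S.star t = k ↔ t = S.star k := by
      constructor
      · intro h; rw [← h, S.star_star]
      · intro h; rw [h, S.star_star]
    by_cases h1 : t = k
    · have h2 : ¬ S.star t = k := fun h => S.star_ne t (h.trans h1.symm)
      rw [if_pos h1, if_neg h2, if_pos (Or.inl h1)]; norm_num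
    · by_cases h2 : S.star t = k
      · rw [if_neg h1, if_pos h2, if_pos (Or.inr (hs.mp h2))]; norm_num
      · rw [if_neg h1, if_neg h2, if_neg]
        · norm_num
        · rintro (h | h)
          · exact h1 h
          · exact h2 (hs.mpr h)
  have e1 : (t - 1 = j) = (t = j + 1) := by rw [sub_eq_iff_eq_add]
  have e2 : (S.star t - 1 = j) = (S.star t = j + 1) := by rw [sub_eq_iff_eq_add]
  simp only [e1, e2]
  rw [← aux j, ← aux (j + 1)]
  ring

end BdwAux

theorem BWalk.path {U : Set (Fin (n + 2))} {N : ℕ} {i j : ZMod (2 * n)}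
    (hw : BWalk S U N i j) (hi : i ∈ S.bv U) (f g : Fin (n + 2))
    (hf : f = S.L i ∨ f = S.R i ∨ f = S.L (i - 1) ∨ f = S.R (i - 1))
    (hg : g = S.L j ∨ g = S.R j ∨ g = S.L (j - 1) ∨ g = S.R (j - 1)) :
    S.Path (fun t => t ∈ S.bv U ∨ t + 1 ∈ S.bv U) (2 * (N + 1)) f g :=
  (BdwAux.path hw hi f hf).2 g hg

open Classical in
theorem BWalk.flow {U : Set (Fin (n + 2))} {N : ℕ} {i j : ZMod (2 * n)}
    (hw : BWalk S U N i j) :
    ∃ ρ : ZMod (2 * n) → ℤ, (∀ t, ρ t ≠ 0 → t ∈ S.bd U) ∧ (∀ t, |ρ t| ≤ N) ∧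
      ∀ t, ρ t + ρ (S.star t) - ρ (t - 1) - ρ (S.star t - 1) =
        (if t = i ∨ t = S.star i then 1 else 0) - (if t = j ∨ t = S.star j then 1 else 0) := by
  induction hw with
  | nil i => exact ⟨fun _ => 0, by simp, by simp, by simp⟩
  | star N i j hw ih =>
    obtain ⟨ρ, h1, h2, h3⟩ := ih
    refine ⟨ρ, h1, fun t => (h2 t).trans (by push_cast; linarith), fun t => ?_⟩
    rw [h3 t, S.star_star]
    congr 1
    simp only [or_comm]
  | fwd N i j hj hw ih =>
    obtain ⟨ρ, h1, h2, h3⟩ := ih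
    refine ⟨fun t => ρ t + (if t = j then 1 else 0), ?_, ?_, ?_⟩
    · intro t ht
      by_cases h : t = j
      · rw [h]; exact hj
      · simp only [if_neg h, add_zero] at ht
        exact h1 t ht
    · intro t
      refine (abs_add_le _ _).trans ?_
      have h4 := h2 t
      have h5 : |(if t = j then (1 : ℤ) else 0)| ≤ 1 := by split_ifs <;> simp
      push_cast
      linarith
    · intro t
      have h4 := h3 t
      have h5 := BdwAux.div_edge (S := S) j t
      linarith
  | bwd N i j hj hw ih =>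
    obtain ⟨ρ, h1, h2, h3⟩ := ih
    refine ⟨fun t => ρ t - (if t = j - 1 then 1 else 0), ?_, ?_, ?_⟩
    · intro t ht
      by_cases h : t = j - 1
      · rw [h]; exact hj
      · simp only [if_neg h, sub_zero] at ht
        exact h1 t ht
    · intro t
      refine (abs_sub _ _).trans ?_
      have h4 := h2 t
      have h5 : |(if t = j - 1 then (1 : ℤ) else 0)| ≤ 1 := by split_ifs <;> simp
      push_cast
      linarith
    · intro t
      have h4 := h3 t
      have h5 := BdwAux.div_edge (S := S) (j - 1) t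
      rw [sub_add_cancel] at h5
      linarith

end Shadow

end Pool.H3F
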