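import Pool.Agent.H3F.FEDefs

/-! CLOE: the set of the points below the families is closed. -/

namespace Pool.H3F

private theorem CLOE_V : IsCompact {z : ℝ × ℝ | FamV z.1 z.2} := by
  have hS : IsCompact {s : ℝ × ℝ | 0 ≤ s.1 ∧ 0 ≤ s.2 ∧ s.1 + s.2 ≤ 1 ∧
      0 ≤ (1 - s.1) ^ 2 - s.2 ^ 2 - s.1 * s.2} := by
    refine IsCompact.of_isClosed_subset
      ((isCompact_Icc (a := (0 : ℝ)) (b := 1)).prod (isCompact_Icc (a := (0 : ℝ)) (b := 1))) ?_ ?_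
    · have c1 : IsClosed {s : ℝ × ℝ | 0 ≤ s.1} := isClosed_le (by fun_prop) (by fun_prop)
      have c2 : IsClosed {s : ℝ × ℝ | 0 ≤ s.2} := isClosed_le (by fun_prop) (by fun_prop)
      have c3 : IsClosed {s : ℝ × ℝ | s.1 + s.2 ≤ 1} := isClosed_le (by fun_prop) (by fun_prop)
      have c4 : IsClosed {s : ℝ × ℝ | 0 ≤ (1 - s.1) ^ 2 - s.2 ^ 2 - s.1 * s.2} :=
        isClosed_le (by fun_prop) (by fun_prop)
      exact c1.inter (c2.inter (c3.inter c4))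
    · rintro ⟨y, H⟩ ⟨h1, h2, h3, _⟩
      simp only at h1 h2 h3
      exact ⟨⟨h1, by simp only; linarith⟩, ⟨h2, by simp only; linarith⟩⟩
  have hf : Continuous (fun s : ℝ × ℝ => (((1 - s.1) ^ 2 - s.2 ^ 2 - s.1 * s.2,
      2 * (1 - s.1) ^ 3 - 3 * (1 - s.1) * (s.2 ^ 2 + s.1 * s.2) + s.2 ^ 3 +
        (9 / 4) * s.1 * s.2 ^ 2 + (3 / 2) * s.1 ^ 2 * s.2) : ℝ × ℝ)) := by fun_prop
  have himg := hS.image hf
  refine (congrArg IsCompact ?_).mp himg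
  ext ⟨a, b⟩
  constructor
  · rintro ⟨⟨y, H⟩, ⟨h1, h2, h3, h4⟩, h5⟩
    obtain ⟨rfl, rfl⟩ := Prod.mk.inj h5
    exact ⟨y, H, h1, h2, h3, h4, rfl, rfl⟩
  · rintro ⟨y, H, h1, h2, h3, h4, h5, h6⟩
    refine ⟨(y, H), ⟨h1, h2, h3, ?_⟩, ?_⟩
    · simp only at h4 h5 ⊢
      rw [← h5]
      exact h4
    · simp only at h5 h6 ⊢
      rw [h5, h6]

private theorem CLOE_W : IsCompact {z : ℝ × ℝ | FamW z.1 z.2} := by
  have hS : IsCompact {s : ℝ × ℝ × ℝ | 0 ≤ s.1 ∧ 0 ≤ s.2.1 ∧ 0 ≤ s.2.2 ∧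
      s.1 + s.2.1 + s.2.2 = 1 ∧ 0 ≤ s.1 ^ 2 - 2 * s.2.1 * s.2.2} := by
    refine IsCompact.of_isClosed_subset
      ((isCompact_Icc (a := (0 : ℝ)) (b := 1)).prod
        ((isCompact_Icc (a := (0 : ℝ)) (b := 1)).prod (isCompact_Icc (a := (0 : ℝ)) (b := 1))))
      ?_ ?_
    · have c1 : IsClosed {s : ℝ × ℝ × ℝ | 0 ≤ s.1} := isClosed_le (by fun_prop) (by fun_prop)
      have c2 : IsClosed {s : ℝ × ℝ × ℝ | 0 ≤ s.2.1} := isClosed_le (by fun_prop) (by fun_prop)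
      have c3 : IsClosed {s : ℝ × ℝ × ℝ | 0 ≤ s.2.2} := isClosed_le (by fun_prop) (by fun_prop)
      have c4 : IsClosed {s : ℝ × ℝ × ℝ | s.1 + s.2.1 + s.2.2 = 1} :=
        isClosed_eq (by fun_prop) (by fun_prop)
      have c5 : IsClosed {s : ℝ × ℝ × ℝ | 0 ≤ s.1 ^ 2 - 2 * s.2.1 * s.2.2} :=
        isClosed_le (by fun_prop) (by fun_prop)
      exact c1.inter (c2.inter (c3.inter (c4.inter c5)))
    · rintro ⟨p, x, y⟩ ⟨h1, h2, h3, h4, _⟩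
      simp only at h1 h2 h3 h4
      exact ⟨⟨h1, by simp only; linarith⟩, ⟨h2, by simp only; linarith⟩,
        ⟨h3, by simp only; linarith⟩⟩
  have hf : Continuous (fun s : ℝ × ℝ × ℝ => ((s.1 ^ 2 - 2 * s.2.1 * s.2.2,
      2 * s.1 ^ 3 + 3 * s.2.1 * s.2.2 ^ 2 - 3 * s.2.1 ^ 2 * s.2.2) : ℝ × ℝ)) := by fun_prop
  have himg := hS.image hf
  refine (congrArg IsCompact ?_).mp himg
  ext ⟨a, b⟩
  constructor
  · rintro ⟨⟨p, x, y⟩, ⟨h1, h2, h3, h4, h5⟩, h6⟩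
    obtain ⟨rfl, rfl⟩ := Prod.mk.inj h6
    exact ⟨p, x, y, h1, h2, h3, h4, h5, rfl, rfl⟩
  · rintro ⟨p, x, y, h1, h2, h3, h4, h5, h6, h7⟩
    refine ⟨(p, x, y), ⟨h1, h2, h3, h4, ?_⟩, ?_⟩
    · simp only at h5 h6 ⊢
      rw [← h6]
      exact h5
    · simp only at h6 h7 ⊢
      rw [h6, h7]

private theorem CLOE_K : IsCompact {κ : ℝ | κ = 0 ∨ ∃ k : ℕ, 1 ≤ k ∧ κ = 1 / k} := by
  have h := (tendsto_one_div_add_atTop_nhds_zero_nat (𝕜 := ℝ)).isCompact_insert_range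
  refine (congrArg IsCompact ?_).mp h
  ext κ
  constructor
  · rintro (rfl | ⟨n, rfl⟩)
    · exact Or.inl rfl
    · exact Or.inr ⟨n + 1, by omega, by push_cast; rfl⟩
  · rintro (rfl | ⟨k, hk, rfl⟩)
    · exact Or.inl rfl
    · refine Or.inr ⟨k - 1, ?_⟩
      obtain ⟨m, rfl⟩ := Nat.exists_eq_add_of_le hk
      simp only [Nat.add_sub_cancel_left]
      push_cast
      rw [add_comm]

private theorem CLOE_C : IsCompact {z : ℝ × ℝ | FamC z.1 z.2} := by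
  have hT : IsCompact {s : ℝ × ℝ | 0 ≤ s.1 ∧ s.1 ≤ s.2 ∧ s.1 + s.2 = 1} := by
    refine IsCompact.of_isClosed_subset
      ((isCompact_Icc (a := (0 : ℝ)) (b := 1)).prod (isCompact_Icc (a := (0 : ℝ)) (b := 1))) ?_ ?_
    · have c1 : IsClosed {s : ℝ × ℝ | 0 ≤ s.1} := isClosed_le (by fun_prop) (by fun_prop)
      have c2 : IsClosed {s : ℝ × ℝ | s.1 ≤ s.2} := isClosed_le (by fun_prop) (by fun_prop)
      have c3 : IsClosed {s : ℝ × ℝ | s.1 + s.2 = 1} := isClosed_eq (by fun_prop) (by fun_prop)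
      exact c1.inter (c2.inter c3)
    · rintro ⟨x, y⟩ ⟨h1, h2, h3⟩
      simp only at h1 h2 h3
      exact ⟨⟨h1, by simp only; linarith⟩, ⟨by simp only; linarith, by simp only; linarith⟩⟩
  have hf : Continuous (fun s : ℝ × ℝ × ℝ => ((-2 * s.2.1 * s.2.2 + s.1 * s.2.2 ^ 2,
      3 * s.2.1 * s.2.2 ^ 2 * (1 + s.1) - 3 * s.2.1 ^ 2 * s.2.2 - 2 * s.1 ^ 2 * s.2.2 ^ 3) :
        ℝ × ℝ)) := by fun_prop
  have himg := (CLOE_K.prod hT).image hf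
  refine (congrArg IsCompact ?_).mp himg
  ext ⟨a, b⟩
  constructor
  · rintro ⟨⟨κ, x, y⟩, ⟨h1, h2, h3, h4⟩, h5⟩
    obtain ⟨rfl, rfl⟩ := Prod.mk.inj h5
    exact ⟨κ, x, y, h1, h2, h3, h4, rfl, rfl⟩
  · rintro ⟨κ, x, y, h1, h2, h3, h4, h5, h6⟩
    refine ⟨(κ, x, y), ⟨h1, h2, h3, h4⟩, ?_⟩
    simp only at h5 h6 ⊢
    rw [h5, h6]

theorem env_compact : IsCompact {z : ℝ × ℝ | Env z.1 z.2} := by
  have h := CLOE_V.union (CLOE_W.union CLOE_C)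
  exact h

theorem below_closed : IsClosed {z : ℝ × ℝ | Below z.1 z.2} := by
  have hC : IsClosed (({0} : Set ℝ) ×ˢ Set.Iic (0 : ℝ)) := isClosed_singleton.prod isClosed_Iic
  have h := hC.add_left_of_isCompact env_compact
  refine (congrArg IsClosed ?_).mp h
  ext ⟨a, b⟩
  rw [Set.mem_add]
  constructor
  · rintro ⟨⟨a', c⟩, hE, ⟨z, u⟩, ⟨hz, hu⟩, heq⟩
    obtain ⟨h1, h2⟩ := Prod.mk.inj heq
    simp only [Set.mem_singleton_iff] at hz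
    simp only [Set.mem_Iic] at hu
    simp only at h1 h2
    subst hz
    refine ⟨c, ?_, ?_⟩
    · simp only
      rw [← h1, add_zero]
      exact hE
    · simp only
      linarith
  · rintro ⟨c, hE, hle⟩
    simp only at hE hle
    refine ⟨(a, c), hE, (0, b - c), ⟨rfl, ?_⟩, ?_⟩
    · rw [Set.mem_Iic]
      simp only
      linarith
    · rw [Prod.mk_add_mk, add_zero]
      congr 1
      ring

end Pool.H3F
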