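import Mathlib

/-! The curves that bound the region of the limit points. -/

namespace Pool.H3F

/-- First curve. -/
def CurT (a c : ℝ) : Prop := 0 ≤ a ∧ a ≤ 1 ∧ c = 3 * a - 1 + √(1 - a) ^ 3

/-- Second curve, parameter `u`. -/
def CurV (a c : ℝ) : Prop :=
  ∃ u : ℝ, 4 / 5 ≤ u ∧ u ≤ 1 ∧ 0 ≤ a ∧
    a = (1 - 2 * u) ^ 2 - (2 - u) * √(5 * u ^ 2 - 4 * u) ∧
    c = 2 - 24 * u + 39 * u ^ 2 - 14 * u ^ 3 - 3 * (3 * u ^ 2 - 4 * u + 2) * √(5 * u ^ 2 - 4 * u)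

/-- Third curve, parameter `p`; `d` is the positive root of a quadratic equation. -/
def CurW (a c : ℝ) : Prop :=
  ∃ p d : ℝ, 0 ≤ p ∧ p ≤ 1 ∧ 0 ≤ d ∧ (1 + 5 * p) * d ^ 2 + 8 * p ^ 2 * d = (1 + p) * (1 - p) ^ 2 ∧
    0 ≤ a ∧ a = p ^ 2 - ((1 - p) ^ 2 - d ^ 2) / 2 ∧
    c = 2 * p ^ 3 + (3 / 4) * ((1 - p) ^ 2 - d ^ 2) * d

/-- The other curves, parameter `y`; `κ = 1 / k` or `κ = 0`. -/
def CurC (κ a c : ℝ) : Prop :=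
  ∃ y : ℝ, 1 / 2 ≤ y ∧ y ≤ 1 ∧ a = -2 * y * (1 - y) + κ * y ^ 2 ∧
    c = 3 * y * (1 - y) * (2 * y - 1) + 3 * κ * (1 - y) * y ^ 2 - 2 * κ ^ 2 * y ^ 3

/-- A point of one of the curves. -/
def Cur (a c : ℝ) : Prop :=
  CurT a c ∨ CurV a c ∨ CurW a c ∨ CurC 0 a c ∨ ∃ k : ℕ, 1 ≤ k ∧ CurC (1 / k) a c

end Pool.H3F
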