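import Pool.Agent.H3F.FEDefs
import Pool.Agent.H3F.CURDefs

/-! CUR: the upper boundary in terms of curves with one parameter. -/

namespace Pool.H3F

/-- `2 s ^ 3` lies below the first curve. -/
theorem CUR_T (a s : ℝ) (hs : 0 ≤ s) (hs1 : s ≤ 1) (ha : a = s ^ 2) :
    2 * s ^ 3 ≤ 3 * a - 1 + √(1 - a) ^ 3 := by
  obtain ⟨c, hc⟩ : ∃ c, c = √(1 - a) := ⟨_, rfl⟩
  have hc0 : 0 ≤ c := hc ▸ Real.sqrt_nonneg _
  have hc2 : c ^ 2 = 1 - a := by
    rw [hc]
    exact Real.sq_sqrt (by nlinarith)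
  have hc1 : c ≤ 1 := by nlinarith
  rw [← hc]
  have h1 : 0 ≤ (1 - s) * (1 - c) * (1 + 2 * c - s) :=
    mul_nonneg (mul_nonneg (by linarith) (by linarith)) (by linarith)
  subst ha
  have h2 : s ^ 2 = 1 - c ^ 2 := by linarith
  nlinarith [mul_nonneg hs hc0]

namespace CURAux

/-- `H` as a function of `y = r` for fixed `a`. -/
noncomputable def hh (a r : ℝ) : ℝ := (-r + √(r ^ 2 + 4 * ((1 - r) ^ 2 - a))) / 2

/-- The value of the first family. -/
noncomputable def bV (a r : ℝ) : ℝ :=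
  2 * (1 - r) ^ 3 - 3 * (1 - r) * (hh a r ^ 2 + r * hh a r) + hh a r ^ 3 +
    (9 / 4) * r * hh a r ^ 2 + (3 / 2) * r ^ 2 * hh a r

theorem hh_cont (a : ℝ) : Continuous (hh a) := by
  unfold hh
  have h1 : Continuous (fun r : ℝ => √(r ^ 2 + 4 * ((1 - r) ^ 2 - a))) := by
    apply Real.continuous_sqrt.comp
    fun_prop
  fun_prop

theorem bV_cont (a : ℝ) : Continuous (bV a) := by
  have h := hh_cont a
  unfold bV
  fun_prop

theorem hh_eq (a r : ℝ) (h : 0 ≤ r ^ 2 + 4 * ((1 - r) ^ 2 - a)) :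
    hh a r ^ 2 + r * hh a r = (1 - r) ^ 2 - a := by
  have hs := Real.sq_sqrt h
  unfold hh
  nlinarith

theorem hh_nonneg (a r : ℝ) (h : a ≤ (1 - r) ^ 2) : 0 ≤ hh a r := by
  have h1 : r ≤ √(r ^ 2 + 4 * ((1 - r) ^ 2 - a)) := by
    apply Real.le_sqrt_of_sq_le
    linarith
  unfold hh
  linarith

theorem hh_unique (a r H : ℝ) (hr : 0 ≤ r) (hH : 0 ≤ H) (e : a = (1 - r) ^ 2 - H ^ 2 - r * H) :
    hh a r = H := by
  unfold hh
  have h1 : r ^ 2 + 4 * ((1 - r) ^ 2 - a) = (2 * H + r) ^ 2 := by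
    rw [e]
    ring
  rw [h1, Real.sqrt_sq (by linarith)]
  ring

theorem hh_deriv (a r : ℝ) (h : 0 < r ^ 2 + 4 * ((1 - r) ^ 2 - a)) :
    HasDerivAt (hh a) (-(2 * (1 - r) + hh a r) / (2 * hh a r + r)) r := by
  have h0 : √(r ^ 2 + 4 * ((1 - r) ^ 2 - a)) ≠ 0 := (Real.sqrt_pos.2 h).ne'
  have h1 : HasDerivAt (fun r : ℝ => r ^ 2 + 4 * ((1 - r) ^ 2 - a))
      (2 * r + 4 * (2 * (1 - r) * (-1))) r := by
    have e1 : HasDerivAt (fun r : ℝ => r ^ 2) (2 * r) r := by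
      simpa using hasDerivAt_pow 2 r
    have e2 : HasDerivAt (fun r : ℝ => 1 - r) (-1) r := by
      simpa using (hasDerivAt_id r).const_sub 1
    have e3 : HasDerivAt (fun r : ℝ => (1 - r) ^ 2) (2 * (1 - r) * (-1)) r := by
      simpa using e2.fun_pow 2
    exact e1.add ((e3.sub_const a).const_mul 4)
  have h2 := h1.sqrt h.ne'
  have h3 : HasDerivAt (hh a) ((-1 + (2 * r + 4 * (2 * (1 - r) * (-1))) /
      (2 * √(r ^ 2 + 4 * ((1 - r) ^ 2 - a)))) / 2) r := by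
    unfold hh
    exact ((hasDerivAt_id r).neg.add h2).div_const 2
  convert h3 using 1
  have e4 : 2 * hh a r + r = √(r ^ 2 + 4 * ((1 - r) ^ 2 - a)) := by
    unfold hh
    ring
  have e5 : hh a r = (√(r ^ 2 + 4 * ((1 - r) ^ 2 - a)) - r) / 2 := by
    unfold hh
    ring
  rw [e4, e5]
  field_simp
  ring

theorem bV_deriv (a r : ℝ) (h : 0 < r ^ 2 + 4 * ((1 - r) ^ 2 - a)) :
    HasDerivAt (bV a) ((3 / 4) * (5 * (r + hh a r) ^ 2 - r ^ 2 - 4 * (r + hh a r))) r := by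
  have hH := hh_deriv a r h
  obtain ⟨H', hH'⟩ : ∃ H', H' = -(2 * (1 - r) + hh a r) / (2 * hh a r + r) := ⟨_, rfl⟩
  rw [← hH'] at hH
  have hne : 2 * hh a r + r ≠ 0 := by
    have e4 : 2 * hh a r + r = √(r ^ 2 + 4 * ((1 - r) ^ 2 - a)) := by
      unfold hh
      ring
    rw [e4]
    exact (Real.sqrt_pos.2 h).ne'
  have hH2 : H' * (2 * hh a r + r) = -(2 * (1 - r) + hh a r) := by
    rw [hH']
    field_simp
  have e2 : HasDerivAt (fun r : ℝ => 1 - r) (-1) r := by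
    simpa using (hasDerivAt_id r).const_sub 1
  have e0 : HasDerivAt (fun r : ℝ => r) 1 r := hasDerivAt_id r
  have d1 := (e2.fun_pow 3).const_mul 2
  have d2 := (e2.const_mul 3).mul ((hH.fun_pow 2).add (e0.mul hH))
  have d3 := hH.fun_pow 3
  have d4 := (e0.const_mul (9 / 4)).mul (hH.fun_pow 2)
  have d5 := ((e0.fun_pow 2).const_mul (3 / 2)).mul hH
  have d := (((d1.sub d2).add d3).add d4).add d5
  have hd : HasDerivAt (bV a) _ r := d
  convert hd using 1
  simp only [Nat.cast_ofNat, Nat.add_one_sub_one, pow_one]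
  simp only [Pi.add_apply, Pi.mul_apply]
  linear_combination (3 * (1 - r) - (3 / 2) * (r + hh a r)) * hH2

end CURAux

open CURAux in
/-- The first family lies below the curves. -/
theorem CUR_V (a b : ℝ) (h : FamV a b) : ∃ c, (CurT a c ∨ CurV a c) ∧ b ≤ c := by
  obtain ⟨y, H, hy, hH, hyH, ha, ea, eb⟩ := h
  have hH1 : hh a y = H := hh_unique a y H hy hH ea
  have hb : b = bV a y := by
    unfold bV
    rw [hH1]
    exact eb
  obtain ⟨s, hs⟩ : ∃ s, s = √a := ⟨_, rfl⟩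
  have hs0 : 0 ≤ s := hs ▸ Real.sqrt_nonneg _
  have hsa : s ^ 2 = a := by
    rw [hs]
    exact Real.sq_sqrt ha
  have hys : s ≤ 1 - y := by
    have : s ^ 2 ≤ (1 - y) ^ 2 := by nlinarith [mul_nonneg hy hH]
    nlinarith
  have hs1 : s ≤ 1 := by linarith
  have ha1 : a ≤ 1 := by nlinarith
  obtain ⟨z, hz, hmax⟩ := (isCompact_Icc (a := (0 : ℝ)) (b := 1 - s)).exists_isMaxOn
    ⟨0, by constructor <;> linarith⟩ (bV_cont a).continuousOn
  have hbz : b ≤ bV a z := by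
    rw [hb]
    exact hmax ⟨hy, by linarith⟩
  have hT0 : bV a 0 = 3 * a - 1 + √(1 - a) ^ 3 := by
    have h1 : hh a 0 = √(1 - a) := by
      apply hh_unique a 0 _ le_rfl (Real.sqrt_nonneg _)
      have := Real.sq_sqrt (show (0 : ℝ) ≤ 1 - a by linarith)
      nlinarith
    unfold bV
    rw [h1]
    have := Real.sq_sqrt (show (0 : ℝ) ≤ 1 - a by linarith)
    nlinarith
  have hT : ∀ c, c ≤ 3 * a - 1 + √(1 - a) ^ 3 → ∃ c', (CurT a c' ∨ CurV a c') ∧ c ≤ c' :=
    fun c hc => ⟨_, Or.inl ⟨ha, ha1, rfl⟩, hc⟩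
  rcases hz.1.lt_or_eq with hz0 | hz0
  swap
  · rw [← hz0, hT0] at hbz
    exact hT b hbz
  rcases hz.2.lt_or_eq with hz1 | hz1
  swap
  · -- the end `H = 0`
    have h1 : hh a z = 0 := by
      apply hh_unique a z 0 hz.1 le_rfl
      rw [← hsa, hz1]
      ring
    have h2 : bV a z = 2 * s ^ 3 := by
      unfold bV
      rw [h1, hz1]
      ring
    rw [h2] at hbz
    exact hT b (hbz.trans (CUR_T a s hs0 hs1 hsa.symm))
  · have hsz : s < 1 - z := by linarith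
    have h1 : a < (1 - z) ^ 2 := by nlinarith
    have hD : 0 < z ^ 2 + 4 * ((1 - z) ^ 2 - a) := by nlinarith
    have hloc : IsLocalMax (bV a) z := hmax.isLocalMax (Icc_mem_nhds hz0 hz1)
    have hd := hloc.hasDerivAt_eq_zero (bV_deriv a z hD)
    have hH0 := hh_nonneg a z h1.le
    have he := hh_eq a z hD.le
    obtain ⟨K, hK⟩ : ∃ K, K = hh a z := ⟨_, rfl⟩
    rw [← hK] at hd hH0 he
    obtain ⟨u, hu⟩ : ∃ u, u = z + K := ⟨_, rfl⟩
    have hq : z ^ 2 = 5 * u ^ 2 - 4 * u := by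
      rw [hu]
      linarith
    have hzu : z = √(5 * u ^ 2 - 4 * u) := by
      rw [← hq, Real.sqrt_sq hz.1]
    have hu0 : 0 < u := by linarith
    have hu1 : u ≤ 1 := by
      have h5 : z ^ 2 ≤ u ^ 2 := by
        apply pow_le_pow_left₀ hz.1
        linarith
      by_contra hc
      push Not at hc
      have h6 := mul_pos hu0 (sub_pos.2 hc)
      rw [hq] at h5
      linarith
    have hu2 : 4 / 5 ≤ u := by
      by_contra hc
      push Not at hc
      have h6 := mul_pos hu0 (sub_pos.2 hc)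
      have h5 := sq_nonneg z
      rw [hq] at h5
      linarith
    have hKu : K = u - z := by linarith
    refine ⟨_, Or.inr ⟨u, hu2, hu1, ha, ?_, rfl⟩, hbz.trans (le_of_eq ?_)⟩
    · rw [← hzu]
      have : a = (1 - z) ^ 2 - (K ^ 2 + z * K) := by linarith
      rw [this, hKu]
      linear_combination hq
    · rw [← hzu]
      unfold bV
      rw [← hK, hKu]
      linear_combination (-(9 / 4) * z - 3 * u + 6) * hq

end Pool.H3F
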