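import Pool.Agent.H3F.CUR

/-! CUR2: the second family and the equivalence of the two descriptions. -/

namespace Pool.H3F

namespace CURAux

/-- `p` as a function of `d` for fixed `a`. -/
noncomputable def pw (a d : ℝ) : ℝ := √(2 + 2 * a - d ^ 2) - 1

/-- The value of the second family. -/
noncomputable def bW (a d : ℝ) : ℝ := 2 * pw a d ^ 3 + (3 / 2) * (pw a d ^ 2 - a) * d

theorem pw_cont (a : ℝ) : Continuous (pw a) := by
  unfold pw
  have h1 : Continuous (fun d : ℝ => √(2 + 2 * a - d ^ 2)) := by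
    apply Real.continuous_sqrt.comp
    fun_prop
  fun_prop

theorem bW_cont (a : ℝ) : Continuous (bW a) := by
  have h := pw_cont a
  unfold bW
  fun_prop

theorem pw_eq (a d p : ℝ) (hp : 0 ≤ p) (e : (1 + p) ^ 2 = 2 + 2 * a - d ^ 2) : pw a d = p := by
  unfold pw
  rw [← e, Real.sqrt_sq (by linarith)]
  ring

theorem pw_sq (a d : ℝ) (h : 0 ≤ 2 + 2 * a - d ^ 2) : (1 + pw a d) ^ 2 = 2 + 2 * a - d ^ 2 := by
  unfold pw
  have := Real.sq_sqrt h
  nlinarith

theorem pw_deriv (a d : ℝ) (h : 0 < 2 + 2 * a - d ^ 2) :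
    HasDerivAt (pw a) (-d / (1 + pw a d)) d := by
  have h0 : √(2 + 2 * a - d ^ 2) ≠ 0 := (Real.sqrt_pos.2 h).ne'
  have h1 : HasDerivAt (fun d : ℝ => 2 + 2 * a - d ^ 2) (-(2 * d)) d := by
    have e1 : HasDerivAt (fun d : ℝ => d ^ 2) (2 * d) d := by
      simpa using hasDerivAt_pow 2 d
    exact e1.const_sub (2 + 2 * a)
  have h2 := h1.sqrt h.ne'
  have h3 : HasDerivAt (pw a) (-(2 * d) / (2 * √(2 + 2 * a - d ^ 2))) d := by
    unfold pw
    exact h2.sub_const 1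
  convert h3 using 1
  have e4 : 1 + pw a d = √(2 + 2 * a - d ^ 2) := by
    unfold pw
    ring
  rw [e4]
  field_simp

theorem bW_deriv (a d : ℝ) (h : 0 < 2 + 2 * a - d ^ 2) :
    HasDerivAt (bW a) (6 * pw a d ^ 2 * (-d / (1 + pw a d)) +
      (3 / 2) * (2 * pw a d * (-d / (1 + pw a d)) * d + (pw a d ^ 2 - a))) d := by
  have hH := pw_deriv a d h
  obtain ⟨H', hH'⟩ : ∃ H', H' = -d / (1 + pw a d) := ⟨_, rfl⟩
  rw [← hH'] at hH ⊢
  have e0 : HasDerivAt (fun r : ℝ => r) 1 d := hasDerivAt_id d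
  have d1 := (hH.fun_pow 3).const_mul 2
  have d2 := (((hH.fun_pow 2).sub_const a).const_mul (3 / 2)).mul e0
  have hd : HasDerivAt (bW a) _ d := d1.add d2
  convert hd using 1
  simp only [Nat.cast_ofNat, Nat.add_one_sub_one, pow_one]
  ring

end CURAux

open CURAux in
/-- The second family lies below the curves. -/
theorem CUR_W (a b : ℝ) (h : FamW a b) : ∃ c, (CurT a c ∨ CurW a c) ∧ b ≤ c := by
  obtain ⟨p, x, y, hp, hx, hy, hs1, ha, ea, eb⟩ := h
  obtain ⟨s, hs⟩ : ∃ s, s = √a := ⟨_, rfl⟩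
  have hs0 : 0 ≤ s := hs ▸ Real.sqrt_nonneg _
  have hsa : s ^ 2 = a := by
    rw [hs]
    exact Real.sq_sqrt ha
  have hxy : 0 ≤ x * y := mul_nonneg hx hy
  have hsp : s ≤ p := by
    have h1 : s ^ 2 ≤ p ^ 2 := by linarith
    exact (pow_le_pow_iff_left₀ hs0 hp (by norm_num)).1 h1
  have hs1' : s ≤ 1 := by linarith
  have ha1 : a ≤ 1 := by
    rw [← hsa]
    exact pow_le_one₀ hs0 hs1'
  obtain ⟨d, hd⟩ : ∃ d, d = |y - x| := ⟨_, rfl⟩
  have hd0 : 0 ≤ d := hd ▸ abs_nonneg _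
  have hd2 : d ^ 2 = (y - x) ^ 2 := by
    rw [hd, sq_abs]
  have hds : d ≤ 1 - s := by
    have : d ≤ x + y := by
      rw [hd, abs_le]
      constructor <;> linarith
    linarith
  have hpd : pw a d = p := by
    apply pw_eq a d p hp
    rw [hd2, ea]
    have : x = 1 - p - y := by linarith
    rw [this]
    ring
  have hb : b ≤ bW a d := by
    unfold bW
    rw [hpd]
    have h1 : y - x ≤ d := hd ▸ le_abs_self _
    have h2 : x * y * (y - x) ≤ x * y * d := mul_le_mul_of_nonneg_left h1 hxy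
    have h3 : p ^ 2 - a = 2 * (x * y) := by linarith
    rw [h3, eb]
    linarith
  have hR : ∀ t, -(1 - s) ≤ t → t ≤ 1 - s → (1 + s) ^ 2 ≤ 2 + 2 * a - t ^ 2 := by
    intro t h1 h2
    have h3 : 0 ≤ (1 - s - t) * (1 - s + t) := mul_nonneg (by linarith) (by linarith)
    rw [← hsa]
    linarith
  have hpos : ∀ t, -(1 - s) ≤ t → t ≤ 1 - s → 0 < 2 + 2 * a - t ^ 2 := by
    intro t h1 h2
    have h3 : 0 < (1 + s) ^ 2 := by positivity
    exact h3.trans_le (hR t h1 h2)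
  have hps : ∀ t, -(1 - s) ≤ t → t ≤ 1 - s → s ≤ pw a t := by
    intro t h1 h2
    have h3 : 1 + s ≤ √(2 + 2 * a - t ^ 2) := Real.le_sqrt_of_sq_le (hR t h1 h2)
    unfold pw
    linarith
  obtain ⟨z, hz, hmax⟩ := (isCompact_Icc (a := -(1 - s)) (b := 1 - s)).exists_isMaxOn
    ⟨0, by constructor <;> linarith⟩ (bW_cont a).continuousOn
  have hbz : b ≤ bW a z := hb.trans (hmax ⟨by linarith, hds⟩)
  -- replace `z` by its absolute value
  obtain ⟨t, ht⟩ : ∃ t, t = |z| := ⟨_, rfl⟩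
  have ht0 : 0 ≤ t := ht ▸ abs_nonneg _
  have ht1 : t ≤ 1 - s := by
    rw [ht, abs_le]
    exact hz
  have htz : bW a z ≤ bW a t := by
    have h1 : pw a t = pw a z := by
      unfold pw
      rw [ht, sq_abs]
    unfold bW
    rw [h1]
    have h2 : 0 ≤ pw a z ^ 2 - a := by
      have h3 := hps z hz.1 hz.2
      have h4 : s ^ 2 ≤ pw a z ^ 2 := pow_le_pow_left₀ hs0 h3 2
      linarith
    have h3 : z ≤ t := ht ▸ le_abs_self _
    have := mul_le_mul_of_nonneg_left h3 h2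
    linarith
  have hmaxt : IsMaxOn (bW a) (Set.Icc (-(1 - s)) (1 - s)) t := by
    intro r hr
    exact (hmax hr).trans htz
  rcases ht1.lt_or_eq with h1 | h1
  swap
  · have h2 : pw a t = s := by
      apply pw_eq a t s hs0
      rw [h1, ← hsa]
      ring
    have h3 : bW a t = 2 * s ^ 3 := by
      unfold bW
      rw [h2, ← hsa]
      ring
    refine ⟨_, Or.inl ⟨ha, ha1, rfl⟩, (hbz.trans htz).trans ?_⟩
    rw [h3]
    exact CUR_T a s hs0 hs1' hsa.symm
  · have h2 : -(1 - s) < t := by linarith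
    have hloc : IsLocalMax (bW a) t := hmaxt.isLocalMax (Icc_mem_nhds h2 h1)
    have hD := hpos t h2.le h1.le
    have hdz := hloc.hasDerivAt_eq_zero (bW_deriv a t hD)
    have hsq := pw_sq a t hD.le
    have hP := hps t h2.le h1.le
    have hbt : bW a t = 2 * pw a t ^ 3 + (3 / 2) * (pw a t ^ 2 - a) * t := rfl
    obtain ⟨P, hPe⟩ : ∃ P, P = pw a t := ⟨_, rfl⟩
    rw [← hPe] at hdz hsq hP hbt
    have hP0 : 0 ≤ P := hs0.trans hP
    have hne : 1 + P ≠ 0 := by positivity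
    have hP1 : P ≤ 1 := by
      by_contra hc
      push Not at hc
      have h3 : (2 : ℝ) ^ 2 < (1 + P) ^ 2 :=
        pow_lt_pow_left₀ (by linarith) (by norm_num) (by norm_num)
      have := sq_nonneg t
      linarith
    have hcub : (1 + 5 * P) * t ^ 2 + 8 * P ^ 2 * t = (1 + P) * (1 - P) ^ 2 := by
      have h3 : -6 * P ^ 2 * t - 3 * P * t ^ 2 + (3 / 2) * (P ^ 2 - a) * (1 + P) = 0 := by
        have h4 : (6 * P ^ 2 * (-t / (1 + P)) + 3 / 2 * (2 * P * (-t / (1 + P)) * t +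
            (P ^ 2 - a))) * (1 + P) = 0 := by rw [hdz, zero_mul]
        rw [← h4]
        field_simp
        ring
      linear_combination (-(4 / 3)) * h3 + (1 + P) * hsq
    refine ⟨_, Or.inr ⟨P, t, hP0, hP1, ht0, hcub, ha, ?_, rfl⟩, (hbz.trans htz).trans (le_of_eq ?_)⟩
    · linear_combination (-(1 / 2)) * hsq
    · rw [hbt]
      linear_combination (3 / 4) * t * hsq

theorem CUR_below (a b : ℝ) (h : Below a b) : ∃ c, Cur a c ∧ b ≤ c := by
  obtain ⟨d, hd, hbd⟩ := h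
  rcases hd with hd | hd | hd
  · obtain ⟨c, hc, hdc⟩ := CUR_V a d hd
    exact ⟨c, hc.elim Or.inl fun h => Or.inr (Or.inl h), hbd.trans hdc⟩
  · obtain ⟨c, hc, hdc⟩ := CUR_W a d hd
    exact ⟨c, hc.elim Or.inl fun h => Or.inr (Or.inr (Or.inl h)), hbd.trans hdc⟩
  · refine ⟨d, Or.inr (Or.inr (Or.inr ?_)), hbd⟩
    obtain ⟨κ, x, y, hκ, hx, hxy, hs, ea, ec⟩ := hd
    have hxe : x = 1 - y := by linarith
    subst hxe
    have hC : CurC κ a d := by
      refine ⟨y, by linarith, by linarith, ?_, ?_⟩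
      · rw [ea]
        ring
      · rw [ec]
        ring
    rcases hκ with hκ | ⟨k, hk, hκ⟩
    · left
      rw [← hκ]
      exact hC
    · right
      refine ⟨k, hk, ?_⟩
      rw [← hκ]
      exact hC

theorem CUR_C (κ a c : ℝ) (hκ : κ = 0 ∨ ∃ k : ℕ, 1 ≤ k ∧ κ = 1 / k) (h : CurC κ a c) :
    FamC a c := by
  obtain ⟨y, hy, hy1, ea, ec⟩ := h
  refine ⟨κ, 1 - y, y, hκ, by linarith, by linarith, by ring, ?_, ?_⟩
  · rw [ea]
    ring
  · rw [ec]
    ring

theorem CUR_env (a c : ℝ) (h : Cur a c) : Env a c := by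
  rcases h with h | h | h | h | ⟨k, hk, h⟩
  · obtain ⟨ha, ha1, ec⟩ := h
    have h3 : √(1 - a) ^ 2 = 1 - a := Real.sq_sqrt (by linarith)
    have h4 : 0 ≤ √(1 - a) := Real.sqrt_nonneg _
    refine Or.inl ⟨0, √(1 - a), le_rfl, h4, ?_, ha, ?_, ?_⟩
    · rw [zero_add]
      exact Real.sqrt_le_one.2 (by linarith)
    · linarith
    · rw [ec]
      linear_combination 3 * h3
  · obtain ⟨u, hu, hu1, ha, ea, ec⟩ := h
    have h1 : 0 ≤ 5 * u ^ 2 - 4 * u := by nlinarith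
    obtain ⟨y, hy⟩ : ∃ y, y = √(5 * u ^ 2 - 4 * u) := ⟨_, rfl⟩
    have hy0 : 0 ≤ y := hy ▸ Real.sqrt_nonneg _
    have hy2 : y ^ 2 = 5 * u ^ 2 - 4 * u := by
      rw [hy]
      exact Real.sq_sqrt h1
    rw [← hy] at ea ec
    have hyu : y ≤ u := by
      have h5 : y ^ 2 ≤ u ^ 2 := by nlinarith
      nlinarith
    refine Or.inl ⟨y, u - y, hy0, by linarith, by linarith, ha, ?_, ?_⟩
    · rw [ea]
      linear_combination (-1) * hy2
    · rw [ec]
      linear_combination ((9 / 4) * y + 3 * u - 6) * hy2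
  · obtain ⟨p, d, hp, hp1, hd, hcub, ha, ea, ec⟩ := h
    have hdp : d ≤ 1 - p := by
      by_contra hc
      push Not at hc
      have h1 : (1 - p) ^ 2 < d ^ 2 := pow_lt_pow_left₀ hc (by linarith) (by norm_num)
      have h2 : (1 + 5 * p) * (1 - p) ^ 2 ≤ (1 + 5 * p) * d ^ 2 :=
        mul_le_mul_of_nonneg_left h1.le (by linarith)
      have h3 : 0 < (1 + 5 * p) * (d ^ 2 - (1 - p) ^ 2) := mul_pos (by linarith) (by linarith)
      have h4 : 0 ≤ 8 * p ^ 2 * d := by positivity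
      have h5 : 0 ≤ p * (1 - p) ^ 2 := by positivity
      linarith
    refine Or.inr (Or.inl ⟨p, (1 - p - d) / 2, (1 - p + d) / 2, hp, by linarith, by linarith,
      by ring, ha, ?_, ?_⟩)
    · rw [ea]
      ring
    · rw [ec]
      ring
  · exact Or.inr (Or.inr (CUR_C 0 a c (Or.inl rfl) h))
  · exact Or.inr (Or.inr (CUR_C _ a c (Or.inr ⟨k, hk, rfl⟩) h))

theorem below_iff_cur (a b : ℝ) : Below a b ↔ ∃ c, Cur a c ∧ b ≤ c :=
  ⟨CUR_below a b, fun ⟨c, hc, hbc⟩ => ⟨c, CUR_env a c hc, hbc⟩⟩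

end Pool.H3F
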