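import Pool.Agent.H3F.ES1

/-! ES2: supporting lines from the first two families and the polygon. -/

namespace Pool.H3F

private theorem es2_mono {a b b' : ℝ} (h : Below a b) (hb : b' ≤ b) : Below a b' := by
  obtain ⟨c, hc, hbc⟩ := h
  exact ⟨c, hc, hb.trans hbc⟩

/-- Tangent of the second family. -/
theorem es_W (a β x p lam : ℝ) (hβ : 0 ≤ β) (hx : 0 ≤ x) (hp : p = 1 - β - x) (hp0 : 0 ≤ p)
    (hx1 : x < 1) (hlam : lam * (2 * (1 - x)) = 6 * p ^ 2 - 3 * β ^ 2 + 6 * β * x)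
    (ha : 0 ≤ a) (ha1 : a ≤ (1 - β) ^ 2)
    (hT : ∀ x', 0 ≤ x' → x' ≤ 1 - β → a = (1 - β - x') ^ 2 - 2 * x' * β →
      lam ≤ 6 * (1 - β) - 3 * β - 4 * x - 2 * x') :
    Below a (2 * p ^ 3 + 3 * x * β ^ 2 - 3 * x ^ 2 * β + lam * (a - (p ^ 2 - 2 * x * β))) := by
  have h1β : 0 ≤ 1 - β := by linarith
  have hcont : ContinuousOn (fun t : ℝ => (1 - β - t) ^ 2 - 2 * t * β) (Set.Icc 0 (1 - β)) := by
    fun_prop
  have hmem : a ∈ Set.Icc ((fun t : ℝ => (1 - β - t) ^ 2 - 2 * t * β) (1 - β))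
      ((fun t : ℝ => (1 - β - t) ^ 2 - 2 * t * β) 0) := by
    constructor
    · simp only
      nlinarith [mul_nonneg h1β hβ]
    · simp only
      nlinarith
  obtain ⟨x', ⟨hx'0, hx'1⟩, hx'⟩ := intermediate_value_Icc' h1β hcont hmem
  simp only at hx'
  have hT' := hT x' hx'0 hx'1 hx'.symm
  refine ⟨2 * (1 - β - x') ^ 3 + 3 * x' * β ^ 2 - 3 * x' ^ 2 * β, ?_, ?_⟩
  · right
    left
    exact ⟨1 - β - x', x', β, by linarith, hx'0, hβ, by ring, ha, hx'.symm, rfl⟩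
  · subst hp
    have key : 2 * (1 - β - x') ^ 3 + 3 * x' * β ^ 2 - 3 * x' ^ 2 * β -
        (2 * (1 - β - x) ^ 3 + 3 * x * β ^ 2 - 3 * x ^ 2 * β +
          lam * (a - ((1 - β - x) ^ 2 - 2 * x * β))) =
        (x' - x) ^ 2 * (6 * (1 - β) - 3 * β - 4 * x - 2 * x' - lam) := by
      rw [← hx']
      linear_combination (x' - x) * hlam
    have : 0 ≤ (x' - x) ^ 2 * (6 * (1 - β) - 3 * β - 4 * x - 2 * x' - lam) :=
      mul_nonneg (sq_nonneg _) (by linarith)
    linarith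

/-- Tangent of the first family. -/
theorem es_V (a β s : ℝ) (hβ : 0 ≤ β) (hs : 0 ≤ s) (hs1 : s ≤ 1 - β) (ha : 0 ≤ a)
    (ha1 : a ≤ (1 - β) ^ 2) :
    Below a (2 * (1 - β) ^ 3 - 3 * (1 - β) * s ^ 2 + (3 / 4) * β * s ^ 2 + s ^ 3 +
      (3 * (1 - β) - (3 / 2) * (β + s)) * (a - (1 - β) ^ 2 + s ^ 2)) := by
  have h1β : 0 ≤ 1 - β := by linarith
  have hcont : ContinuousOn (fun t : ℝ => (1 - β) ^ 2 - t ^ 2 - β * t) (Set.Icc 0 (1 - β)) := by
    fun_prop
  have hmem : a ∈ Set.Icc ((fun t : ℝ => (1 - β) ^ 2 - t ^ 2 - β * t) (1 - β))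
      ((fun t : ℝ => (1 - β) ^ 2 - t ^ 2 - β * t) 0) := by
    constructor
    · simp only
      nlinarith [mul_nonneg hβ h1β]
    · simp only
      nlinarith
  obtain ⟨H, ⟨hH0, hH1⟩, hH⟩ := intermediate_value_Icc' h1β hcont hmem
  simp only at hH
  refine ⟨2 * (1 - β) ^ 3 - 3 * (1 - β) * (H ^ 2 + β * H) + H ^ 3 + (9 / 4) * β * H ^ 2 +
      (3 / 2) * β ^ 2 * H, ?_, ?_⟩
  · left
    exact ⟨β, H, hβ, hH0, by linarith, ha, hH.symm, rfl⟩
  · have key : 2 * (1 - β) ^ 3 - 3 * (1 - β) * (H ^ 2 + β * H) + H ^ 3 + (9 / 4) * β * H ^ 2 +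
        (3 / 2) * β ^ 2 * H - (2 * (1 - β) ^ 3 - 3 * (1 - β) * s ^ 2 + (3 / 4) * β * s ^ 2 + s ^ 3 +
        (3 * (1 - β) - (3 / 2) * (β + s)) * (a - (1 - β) ^ 2 + s ^ 2)) =
        (H - s) ^ 2 * (H + s / 2 + (3 / 4) * β) := by
      rw [← hH]
      ring
    have : 0 ≤ (H - s) ^ 2 * (H + s / 2 + (3 / 4) * β) :=
      mul_nonneg (sq_nonneg _) (by positivity)
    linarith

theorem es_1 (a : ℝ) (h1 : 1 / 30 ≤ a) (h2 : a ≤ 9 / 25) :
    Below a (12231 / 62500 + (1263 / 2050) * (a - 81 / 2500)) := by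
  have h := es_W a (2 / 5) (9 / 50) (21 / 50) (1263 / 2050) (by norm_num) (by norm_num)
    (by norm_num) (by norm_num) (by norm_num) (by norm_num) (by linarith) (by norm_num; linarith)
    (by
      intro x' h0 h1' hx
      nlinarith)
  refine es2_mono h (le_of_eq ?_)
  ring

theorem es_2 (a : ℝ) (h1 : 1 / 30 ≤ a) (h2 : a ≤ 9 / 25) :
    Below a (174229 / 500000 + (9327 / 8300) * (a - 2073 / 10000)) := by
  have h := es_W a (7 / 25) (17 / 100) (11 / 20) (9327 / 8300) (by norm_num) (by norm_num)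
    (by norm_num) (by norm_num) (by norm_num) (by norm_num) (by linarith) (by norm_num; linarith)
    (by
      intro x' h0 h1' hx
      linarith)
  refine es2_mono h (le_of_eq ?_)
  ring

theorem es_3 (a : ℝ) (h1 : 1 / 30 ≤ a) (h2 : a ≤ 9 / 25) :
    Below a (176993 / 500000 + (69 / 50) * (a - 529 / 2500)) := by
  have h := es_V a (7 / 50) (33 / 50) (by norm_num) (by norm_num) (by norm_num)
    (by linarith) (by norm_num; linarith)
  refine es2_mono h (le_of_eq ?_)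
  ring

theorem es_4 (a : ℝ) (h1 : 1 / 30 ≤ a) (h2 : a ≤ 9 / 25) :
    Below a (14918147 / 32000000 + (321 / 200) * (a - 11449 / 40000)) := by
  have h := es_V a (13 / 200) (147 / 200) (by norm_num) (by norm_num) (by norm_num)
    (by linarith) (by norm_num; linarith)
  refine es2_mono h (le_of_eq ?_)
  ring

theorem es_5 (a : ℝ) (h1 : 1 / 30 ≤ a) (h2 : a ≤ 9 / 25) :
    Below a (74 / 125 + (9 / 5) * (a - 9 / 25)) := by
  have h := es_V a 0 (4 / 5) (by norm_num) (by norm_num) (by norm_num)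
    (by linarith) (by norm_num; linarith)
  refine es2_mono h (le_of_eq ?_)
  ring

/-- A line below the vertices of the polygon lies below the envelope. -/
theorem es_poly (a c lam : ℝ) (h1 : 1 - √2 ≤ a) (h2 : a ≤ 9 / 25) (hlam : 0 ≤ lam)
    (p0 : c + lam * (1 / 30) ≤ 49 / 250) (p1 : c + lam * (593 / 5000) ≤ 2487 / 10000)
    (p2 : c + lam * (2089 / 10000) ≤ 1751 / 5000) (p3 : c + lam * (613 / 2500) ≤ 4003 / 10000)
    (p4 : c + lam * (161 / 500) ≤ 1309 / 2500) (p5 : c + lam * (9 / 25) ≤ 74 / 125) :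
    Below a (c + lam * a) := by
  rcases le_total a (1 / 30) with ha | ha
  · refine es2_mono (es_0 a h1 ha) ?_
    nlinarith [mul_nonneg hlam (sub_nonneg.mpr ha)]
  rcases le_total a (593 / 5000) with hb | hb
  · refine es2_mono (es_1 a ha h2) ?_
    have q0 : 0 ≤ 12231 / 62500 + (1263 / 2050) * (1 / 30 - 81 / 2500) -
      (c + lam * (1 / 30)) := by linarith
    have q1 : 0 ≤ 12231 / 62500 + (1263 / 2050) * (593 / 5000 - 81 / 2500) -
      (c + lam * (593 / 5000)) := by linarith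
    nlinarith [mul_nonneg (sub_nonneg.mpr hb) q0, mul_nonneg (sub_nonneg.mpr ha) q1]
  rcases le_total a (2089 / 10000) with hc | hc
  · refine es2_mono (es_2 a ha h2) ?_
    have q0 : 0 ≤ 174229 / 500000 + (9327 / 8300) * (593 / 5000 - 2073 / 10000) -
      (c + lam * (593 / 5000)) := by linarith
    have q1 : 0 ≤ 174229 / 500000 + (9327 / 8300) * (2089 / 10000 - 2073 / 10000) -
      (c + lam * (2089 / 10000)) := by linarith
    nlinarith [mul_nonneg (sub_nonneg.mpr hc) q0, mul_nonneg (sub_nonneg.mpr hb) q1]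
  rcases le_total a (613 / 2500) with hd | hd
  · refine es2_mono (es_3 a ha h2) ?_
    have q0 : 0 ≤ 176993 / 500000 + (69 / 50) * (2089 / 10000 - 529 / 2500) -
      (c + lam * (2089 / 10000)) := by linarith
    have q1 : 0 ≤ 176993 / 500000 + (69 / 50) * (613 / 2500 - 529 / 2500) -
      (c + lam * (613 / 2500)) := by linarith
    nlinarith [mul_nonneg (sub_nonneg.mpr hd) q0, mul_nonneg (sub_nonneg.mpr hc) q1]
  rcases le_total a (161 / 500) with he | he
  · refine es2_mono (es_4 a ha h2) ?_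
    have q0 : 0 ≤ 14918147 / 32000000 + (321 / 200) * (613 / 2500 - 11449 / 40000) -
      (c + lam * (613 / 2500)) := by linarith
    have q1 : 0 ≤ 14918147 / 32000000 + (321 / 200) * (161 / 500 - 11449 / 40000) -
      (c + lam * (161 / 500)) := by linarith
    nlinarith [mul_nonneg (sub_nonneg.mpr he) q0, mul_nonneg (sub_nonneg.mpr hd) q1]
  · refine es2_mono (es_5 a ha h2) ?_
    have q0 : 0 ≤ 74 / 125 + (9 / 5) * (161 / 500 - 9 / 25) -
      (c + lam * (161 / 500)) := by linarith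
    have q1 : 0 ≤ 74 / 125 + (9 / 5) * (9 / 25 - 9 / 25) -
      (c + lam * (9 / 25)) := by linarith
    nlinarith [mul_nonneg (sub_nonneg.mpr h2) q0, mul_nonneg (sub_nonneg.mpr he) q1]

/-- A line of small slope. -/
theorem es_flat (a c lam : ℝ) (h1 : 1 - √2 ≤ a) (h2 : a ≤ 9 / 25) (hlam : -(13 / 100) ≤ lam)
    (hlam1 : lam ≤ 3 / 5) (p0 : c + lam * (1 / 30) ≤ 49 / 250) : Below a (c + lam * a) := by
  rcases le_total a (1 / 30) with ha | ha
  · refine es2_mono (es_0 a h1 ha) ?_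
    nlinarith [mul_nonneg (by linarith : (0:ℝ) ≤ lam + 13 / 100) (sub_nonneg.mpr ha)]
  · refine es2_mono (es_1 a ha h2) ?_
    nlinarith [mul_nonneg (by linarith : (0:ℝ) ≤ 3 / 5 - lam) (sub_nonneg.mpr ha)]

end Pool.H3F
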