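import Pool.Agent.H3F.XA

/-! The left end. -/

namespace Pool.H3F

open Finset

namespace XLAux

variable {V : Type} [Fintype V] {ρ : V → ℝ} {I : V → V → ℝ}

theorem dg_nonneg (h : IsSys ρ I) {x : V → ℝ} (hx : ∀ i, 0 ≤ x i) (k : V) : 0 ≤ dg x I k := by
  unfold dg
  refine Finset.sum_nonneg fun j _ => mul_nonneg (hx j) ?_
  rcases h.zo k j with h0 | h0 <;> rw [h0] <;> norm_num

theorem dg_le (h : IsSys ρ I) {x : V → ℝ} (hx : ∀ i, 0 ≤ x i) (k : V) : dg x I k ≤ tot x := by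
  unfold dg tot
  refine Finset.sum_le_sum fun j _ => ?_
  rcases h.zo k j with h0 | h0 <;> rw [h0]
  · rw [mul_zero]; exact hx j
  · rw [mul_one]

theorem q2_eq (x y : V → ℝ) : q2 x y I = ∑ i, x i * dg y I i := by
  unfold q2 dg
  refine Finset.sum_congr rfl fun i _ => ?_
  rw [Finset.mul_sum]
  refine Finset.sum_congr rfl fun j _ => ?_
  ring

theorem q2_eq' (h : IsSys ρ I) (x y : V → ℝ) : q2 x y I = ∑ j, y j * dg x I j := by
  unfold q2 dg
  rw [Finset.sum_comm]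
  refine Finset.sum_congr rfl fun j _ => ?_
  rw [Finset.mul_sum]
  refine Finset.sum_congr rfl fun i _ => ?_
  rw [h.sym j i]
  ring

theorem s1 (x y z : V → ℝ) :
    ∑ i, ∑ j, ∑ k, x i * y j * z k * (I i j * I i k) = ∑ i, x i * (dg y I i * dg z I i) := by
  unfold dg
  refine Finset.sum_congr rfl fun i _ => ?_
  rw [Finset.sum_mul_sum, Finset.mul_sum]
  refine Finset.sum_congr rfl fun j _ => ?_
  rw [Finset.mul_sum]
  refine Finset.sum_congr rfl fun k _ => ?_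
  ring

theorem s2 (h : IsSys ρ I) (x y z : V → ℝ) :
    ∑ i, ∑ j, ∑ k, x i * y j * z k * (I i j * I j k) = ∑ j, y j * (dg x I j * dg z I j) := by
  unfold dg
  rw [Finset.sum_comm]
  refine Finset.sum_congr rfl fun j _ => ?_
  rw [Finset.sum_mul_sum, Finset.mul_sum]
  refine Finset.sum_congr rfl fun i _ => ?_
  rw [Finset.mul_sum]
  refine Finset.sum_congr rfl fun k _ => ?_
  rw [h.sym i j]
  ring

theorem s3 (h : IsSys ρ I) (x y z : V → ℝ) :
    ∑ i, ∑ j, ∑ k, x i * y j * z k * (I j k * I i k) = ∑ k, z k * (dg x I k * dg y I k) := by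
  unfold dg
  have e : ∑ i, ∑ j, ∑ k, x i * y j * z k * (I j k * I i k) =
      ∑ k, ∑ i, ∑ j, x i * y j * z k * (I j k * I i k) := by
    have e1 : ∀ i, ∑ j, ∑ k, x i * y j * z k * (I j k * I i k) =
        ∑ k, ∑ j, x i * y j * z k * (I j k * I i k) := fun i => Finset.sum_comm
    rw [Finset.sum_congr rfl fun i _ => e1 i, Finset.sum_comm]
  rw [e]
  refine Finset.sum_congr rfl fun k _ => ?_
  rw [Finset.sum_mul_sum, Finset.mul_sum]
  refine Finset.sum_congr rfl fun i _ => ?_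
  rw [Finset.mul_sum]
  refine Finset.sum_congr rfl fun j _ => ?_
  rw [h.sym k i, h.sym k j]
  ring

theorem s4 (x y z : V → ℝ) :
    ∑ i, ∑ j, ∑ k, x i * y j * z k * I j k = tot x * q2 y z I := by
  unfold tot q2
  rw [Finset.sum_mul]
  refine Finset.sum_congr rfl fun i _ => ?_
  rw [Finset.mul_sum]
  refine Finset.sum_congr rfl fun j _ => ?_
  rw [Finset.mul_sum]
  refine Finset.sum_congr rfl fun k _ => ?_
  ring

/-- Comparison of trilinear forms. -/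
theorem tri_mono {x y z : V → ℝ} (hx : ∀ i, 0 ≤ x i) (hy : ∀ i, 0 ≤ y i) (hz : ∀ i, 0 ≤ z i)
    {F G : V → V → V → ℝ} (hFG : ∀ i j k, F i j k ≤ G i j k) :
    ∑ i, ∑ j, ∑ k, x i * y j * z k * F i j k ≤ ∑ i, ∑ j, ∑ k, x i * y j * z k * G i j k := by
  refine Finset.sum_le_sum fun i _ => Finset.sum_le_sum fun j _ => Finset.sum_le_sum fun k _ => ?_
  exact mul_le_mul_of_nonneg_left (hFG i j k) (mul_nonneg (mul_nonneg (hx i) (hy j)) (hz k))

theorem tri_ppp (h : IsSys ρ I) {x : V → ℝ} (hx : ∀ i, 0 ≤ x i) :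
    tri x x x I ≤ 3 * ∑ k, x k * (dg x I k * dg x I k) := by
  have h1 : tri x x x I ≤ ∑ i, ∑ j, ∑ k, x i * x j * x k *
      (I i j * I i k + I i j * I j k + I j k * I i k) := by
    unfold tri
    refine tri_mono hx hx hx fun i j k => ?_
    unfold phi
    rcases h.zo i j with h0 | h0 <;> rcases h.zo i k with h1 | h1 <;>
      rcases h.zo j k with h2 | h2 <;> rw [h0, h1, h2] <;> norm_num
  refine h1.trans_eq ?_
  have e : ∀ i j k, x i * x j * x k * (I i j * I i k + I i j * I j k + I j k * I i k) =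
      x i * x j * x k * (I i j * I i k) + x i * x j * x k * (I i j * I j k) +
        x i * x j * x k * (I j k * I i k) := fun i j k => by ring
  simp only [e, Finset.sum_add_distrib]
  rw [s1, s2 h, s3 h]
  ring

theorem tri_mmm (h : IsSys ρ I) {x : V → ℝ} (hx : ∀ i, 0 ≤ x i) :
    2 * ∑ k, x k * (dg x I k * dg x I k) ≤ tri x x x I := by
  have h1 : ∑ i, ∑ j, ∑ k, x i * x j * x k *
      (2 / 3 * (I i j * I i k + I i j * I j k + I j k * I i k)) ≤ tri x x x I := by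
    unfold tri
    refine tri_mono hx hx hx fun i j k => ?_
    unfold phi
    rcases h.zo i j with h0 | h0 <;> rcases h.zo i k with h1 | h1 <;>
      rcases h.zo j k with h2 | h2 <;> rw [h0, h1, h2] <;> norm_num
  refine le_trans (le_of_eq ?_) h1
  have e : ∀ i j k, x i * x j * x k *
      (2 / 3 * (I i j * I i k + I i j * I j k + I j k * I i k)) =
      2 / 3 * (x i * x j * x k * (I i j * I i k)) + 2 / 3 * (x i * x j * x k * (I i j * I j k)) +
        2 / 3 * (x i * x j * x k * (I j k * I i k)) := fun i j k => by ring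
  simp only [e, Finset.sum_add_distrib, ← Finset.mul_sum]
  rw [s1, s2 h, s3 h]
  ring

theorem tri_mpp (h : IsSys ρ I) {x y : V → ℝ} (hx : ∀ i, 0 ≤ x i) (hy : ∀ i, 0 ≤ y i) :
    ∑ i, y i * (dg x I i * dg x I i) + ∑ k, x k * (dg x I k * dg y I k) ≤ tri y x x I := by
  have h1 : ∑ i, ∑ j, ∑ k, y i * x j * x k *
      (I i j * I i k + 1 / 2 * (I i j * I j k + I j k * I i k)) ≤ tri y x x I := by
    unfold tri
    refine tri_mono hy hx hx fun i j k => ?_
    unfold phi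
    rcases h.zo i j with h0 | h0 <;> rcases h.zo i k with h1 | h1 <;>
      rcases h.zo j k with h2 | h2 <;> rw [h0, h1, h2] <;> norm_num
  refine le_trans (le_of_eq ?_) h1
  have e : ∀ i j k, y i * x j * x k *
      (I i j * I i k + 1 / 2 * (I i j * I j k + I j k * I i k)) =
      y i * x j * x k * (I i j * I i k) + 1 / 2 * (y i * x j * x k * (I i j * I j k)) +
        1 / 2 * (y i * x j * x k * (I j k * I i k)) := fun i j k => by ring
  simp only [e, Finset.sum_add_distrib, ← Finset.mul_sum]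
  rw [s1, s2 h, s3 h]
  have e2 : ∑ k, x k * (dg y I k * dg x I k) = ∑ k, x k * (dg x I k * dg y I k) :=
    Finset.sum_congr rfl fun k _ => by ring
  rw [e2]
  ring

theorem tri_pmm (h : IsSys ρ I) {x y : V → ℝ} (hx : ∀ i, 0 ≤ x i) (hy : ∀ i, 0 ≤ y i) :
    tri x y y I ≤ ∑ i, x i * (dg y I i * dg y I i) + tot x * q2 y y I := by
  have h1 : tri x y y I ≤ ∑ i, ∑ j, ∑ k, x i * y j * y k * (I i j * I i k + I j k) := by
    unfold tri
    refine tri_mono hx hy hy fun i j k => ?_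
    unfold phi
    rcases h.zo i j with h0 | h0 <;> rcases h.zo i k with h1 | h1 <;>
      rcases h.zo j k with h2 | h2 <;> rw [h0, h1, h2] <;> norm_num
  refine h1.trans_eq ?_
  have e : ∀ i j k, x i * y j * y k * (I i j * I i k + I j k) =
      x i * y j * y k * (I i j * I i k) + x i * y j * y k * I j k := fun i j k => by ring
  simp only [e, Finset.sum_add_distrib]
  rw [s1, s4]

/-- Cauchy-Schwarz. -/
theorem cs {x f : V → ℝ} (hx : ∀ i, 0 ≤ x i) :
    (∑ i, x i * f i) ^ 2 ≤ tot x * ∑ i, x i * (f i * f i) := by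
  have h1 := Finset.sum_mul_sq_le_sq_mul_sq (Finset.univ : Finset V) (fun i => Real.sqrt (x i))
    (fun i => Real.sqrt (x i) * f i)
  have e1 : ∀ i, Real.sqrt (x i) * (Real.sqrt (x i) * f i) = x i * f i := fun i => by
    rw [← mul_assoc, Real.mul_self_sqrt (hx i)]
  have e2 : ∀ i, Real.sqrt (x i) ^ 2 = x i := fun i => Real.sq_sqrt (hx i)
  have e3 : ∀ i, (Real.sqrt (x i) * f i) ^ 2 = x i * (f i * f i) := fun i => by
    rw [mul_pow, Real.sq_sqrt (hx i)]; ring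
  simp only [e1, e2, e3] at h1
  exact h1

end XLAux

section

variable {V : Type} [Fintype V] {ρ : V → ℝ} {I : V → V → ℝ}

/-- The bound in terms of the two masses. -/
theorem IsSys.left_pre (h : IsSys ρ I) (hm : 0 < tot (mm ρ)) :
    bOf ρ I ≤ 3 * tot (mm ρ) * q2 (mm ρ) (pp ρ) I - 3 * q2 (mm ρ) (pp ρ) I ^ 2 / tot (mm ρ) +
      3 * tot (pp ρ) * q2 (mm ρ) (mm ρ) I - 2 * q2 (mm ρ) (mm ρ) I ^ 2 / tot (mm ρ) +
      3 * min (tot (pp ρ) * q2 (pp ρ) (pp ρ) I)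
        ((tot (pp ρ) - tot (mm ρ)) * q2 (pp ρ) (pp ρ) I +
          tot (pp ρ) * (tot (pp ρ) * tot (mm ρ) - q2 (mm ρ) (pp ρ) I)) := by
  have hp := pp_nonneg ρ
  have hn := mm_nonneg ρ
  have hb := h.b_eq
  have k1 := XLAux.tri_ppp h hp
  have k2 := XLAux.tri_mpp h hp hn
  have k3 := XLAux.tri_pmm h hp hn
  have k4 := XLAux.tri_mmm h hn
  -- the square terms
  have c1 : q2 (mm ρ) (pp ρ) I ^ 2 / tot (mm ρ) ≤
      ∑ i, mm ρ i * (dg (pp ρ) I i * dg (pp ρ) I i) := by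
    rw [div_le_iff₀ hm, XLAux.q2_eq, mul_comm]
    exact XLAux.cs hn
  have c2 : q2 (mm ρ) (mm ρ) I ^ 2 / tot (mm ρ) ≤
      ∑ i, mm ρ i * (dg (mm ρ) I i * dg (mm ρ) I i) := by
    rw [div_le_iff₀ hm, XLAux.q2_eq, mul_comm]
    exact XLAux.cs hn
  have c3 : ∑ i, pp ρ i * (dg (mm ρ) I i * dg (mm ρ) I i) ≤
      tot (mm ρ) * q2 (mm ρ) (pp ρ) I := by
    rw [XLAux.q2_eq' h, Finset.mul_sum]
    refine Finset.sum_le_sum fun i _ => ?_
    have d1 := XLAux.dg_nonneg h hn i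
    have d2 := XLAux.dg_le h hn i
    have d3 := hp i
    nlinarith [mul_nonneg (mul_nonneg d3 d1) (sub_nonneg.2 d2)]
  have c4 : ∑ i, pp ρ i * (dg (pp ρ) I i * dg (pp ρ) I i) ≤
      tot (pp ρ) * q2 (pp ρ) (pp ρ) I := by
    rw [XLAux.q2_eq' h, Finset.mul_sum]
    refine Finset.sum_le_sum fun i _ => ?_
    have d1 := XLAux.dg_nonneg h hp i
    have d2 := XLAux.dg_le h hp i
    have d3 := hp i
    nlinarith [mul_nonneg (mul_nonneg d3 d1) (sub_nonneg.2 d2)]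
  have c5 : 0 ≤ ∑ k, pp ρ k * (dg (pp ρ) I k * dg (mm ρ) I k) :=
    Finset.sum_nonneg fun k _ => mul_nonneg (hp k)
      (mul_nonneg (XLAux.dg_nonneg h hp k) (XLAux.dg_nonneg h hn k))
  have c6 : tot (mm ρ) * q2 (pp ρ) (pp ρ) I -
      tot (pp ρ) * (tot (pp ρ) * tot (mm ρ) - q2 (mm ρ) (pp ρ) I) ≤
      ∑ k, pp ρ k * (dg (pp ρ) I k * dg (mm ρ) I k) := by
    have e1 : tot (pp ρ) * (tot (pp ρ) * tot (mm ρ) - q2 (mm ρ) (pp ρ) I) =
        ∑ k, tot (pp ρ) * (pp ρ k * (tot (mm ρ) - dg (mm ρ) I k)) := by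
      rw [← Finset.mul_sum, XLAux.q2_eq' h]
      congr 1
      simp only [mul_sub, Finset.sum_sub_distrib]
      rw [← Finset.sum_mul]
      rfl
    rw [e1, XLAux.q2_eq, Finset.mul_sum, ← Finset.sum_sub_distrib]
    refine Finset.sum_le_sum fun k _ => ?_
    have d1 := XLAux.dg_nonneg h hn k
    have d2 := XLAux.dg_le h hn k
    have d3 := hp k
    have d4 := XLAux.dg_nonneg h hp k
    have d5 := XLAux.dg_le h hp k
    nlinarith [mul_nonneg d3 (mul_nonneg (sub_nonneg.2 d2) (sub_nonneg.2 d5))]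
  have hmin : ∑ k, pp ρ k * (dg (pp ρ) I k * dg (pp ρ) I k) -
      ∑ k, pp ρ k * (dg (pp ρ) I k * dg (mm ρ) I k) ≤
      min (tot (pp ρ) * q2 (pp ρ) (pp ρ) I)
        ((tot (pp ρ) - tot (mm ρ)) * q2 (pp ρ) (pp ρ) I +
          tot (pp ρ) * (tot (pp ρ) * tot (mm ρ) - q2 (mm ρ) (pp ρ) I)) := by
    refine le_min ?_ ?_
    · linarith
    · have : (tot (pp ρ) - tot (mm ρ)) * q2 (pp ρ) (pp ρ) I =
        tot (pp ρ) * q2 (pp ρ) (pp ρ) I - tot (mm ρ) * q2 (pp ρ) (pp ρ) I := by ring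
      rw [this]
      linarith
  have e3 : 3 * q2 (mm ρ) (pp ρ) I ^ 2 / tot (mm ρ) =
      3 * (q2 (mm ρ) (pp ρ) I ^ 2 / tot (mm ρ)) := by ring
  have e4 : 2 * q2 (mm ρ) (mm ρ) I ^ 2 / tot (mm ρ) =
      2 * (q2 (mm ρ) (mm ρ) I ^ 2 / tot (mm ρ)) := by ring
  have e5 : 3 * tot (mm ρ) * q2 (mm ρ) (pp ρ) I = 3 * (tot (mm ρ) * q2 (mm ρ) (pp ρ) I) := by ring
  have e6 : 3 * tot (pp ρ) * q2 (mm ρ) (mm ρ) I = 3 * (tot (pp ρ) * q2 (mm ρ) (mm ρ) I) := by ring
  rw [hb, e3, e4, e5, e6]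
  linarith

/-- Range of the quantities. -/
theorem IsSys.left_rng (h : IsSys ρ I) :
    0 ≤ q2 (pp ρ) (pp ρ) I ∧ 0 ≤ q2 (mm ρ) (mm ρ) I ∧ 0 ≤ q2 (mm ρ) (pp ρ) I ∧
      q2 (mm ρ) (pp ρ) I ≤ tot (mm ρ) * tot (pp ρ) := by
  have hp := pp_nonneg ρ
  have hn := mm_nonneg ρ
  refine ⟨?_, ?_, ?_, ?_⟩
  · rw [XLAux.q2_eq]
    exact Finset.sum_nonneg fun i _ => mul_nonneg (hp i) (XLAux.dg_nonneg h hp i)
  · rw [XLAux.q2_eq]
    exact Finset.sum_nonneg fun i _ => mul_nonneg (hn i) (XLAux.dg_nonneg h hn i)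
  · rw [XLAux.q2_eq]
    exact Finset.sum_nonneg fun i _ => mul_nonneg (hn i) (XLAux.dg_nonneg h hp i)
  · rw [XLAux.q2_eq]
    have e : tot (mm ρ) * tot (pp ρ) = ∑ i, mm ρ i * tot (pp ρ) := by
      rw [← Finset.sum_mul]
      rfl
    rw [e]
    exact Finset.sum_le_sum fun i _ => mul_le_mul_of_nonneg_left (XLAux.dg_le h hp i) (hn i)

end

end Pool.H3F
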