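import Pool.Agent.H3F.RZ7
import Pool.Agent.H3F.XL

/-! RZ8: consequences for the cubic form of the negative part. -/

namespace Pool.H3F

open Finset

section

variable {V : Type} [Fintype V] {ρ : V → ℝ} {I : V → V → ℝ}

theorem RZ8_ker (h : IsSys ρ I) {x : V → ℝ} (hx : ∀ i, 0 ≤ x i) : IsKer x (co I) := by
  refine ⟨fun i j => ?_, fun i j => ?_, fun i j => ?_, hx⟩
  · unfold co
    rw [h.sym i j]
  · unfold co
    rcases h.zo i j with h0 | h0 <;> rw [h0] <;> norm_num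
  · unfold co
    rcases h.zo i j with h0 | h0 <;> rw [h0] <;> norm_num

/-- The cubic form of the negative part is at least the one of `k` complete parts of mass `b`
and one of mass `s`. -/
theorem mmm_raz (h : IsSys ρ I) (k : ℕ) (b s : ℝ) (hs0 : 0 ≤ s) (hs : s ≤ b)
    (h1 : tot (mm ρ) = k * b + s) (h2 : q2 (mm ρ) (mm ρ) I = k * b ^ 2 + s ^ 2) :
    2 * (k * b ^ 3 + s ^ 3) ≤ tri (mm ρ) (mm ρ) (mm ρ) I := by
  have e1 : kM (mm ρ) = tot (mm ρ) := rfl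
  have e2 : kE (mm ρ) (co I) = q2 (mm ρ) (mm ρ) (co I) := rfl
  have e3 : kT (mm ρ) (co I) = q3 (mm ρ) (mm ρ) (mm ρ) (co I) (co I) (co I) := rfl
  have hu := IsSys.u_eq (mm ρ) I
  have hR := raz k V (mm ρ) (co I) (RZ8_ker h (mm_nonneg ρ)) b s hs0 hs (by rw [e1, h1])
    (by rw [e2, hu, e1, h2])
  have ht := h.tri_same (mm ρ)
  rw [e1, e3] at hR
  rw [hu] at ht
  rw [ht]
  rw [h2]
  nlinarith [hR]

/-- Goodman's bound. -/
theorem mmm_good (h : IsSys ρ I) :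
    2 * ∑ y, mm ρ y * dg (mm ρ) I y ^ 2 ≤ tri (mm ρ) (mm ρ) (mm ρ) I := by
  have e := XLAux.tri_mmm h (mm_nonneg ρ)
  have e1 : ∑ y, mm ρ y * dg (mm ρ) I y ^ 2 = ∑ k, mm ρ k * (dg (mm ρ) I k * dg (mm ρ) I k) :=
    Finset.sum_congr rfl fun k _ => by ring
  rw [e1]
  exact e

/-- The mixed bound on the second scallop. -/
theorem mmm_mix (h : IsSys ρ I) (β δ D : ℝ) (hβ : β = tot (mm ρ)) (hβ0 : 0 < β)
    (hδ : δ = q2 (mm ρ) (mm ρ) I) (hD : D * β = δ) :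
    (5 * β * δ - β ^ 3) / 3 + (2 / 3) * ∑ y, mm ρ y * (dg (mm ρ) I y - D) ^ 2 ≤
      tri (mm ρ) (mm ρ) (mm ρ) I := by
  have hg := mmm_good h
  have hV0 : 0 ≤ ∑ y, mm ρ y * (dg (mm ρ) I y - D) ^ 2 :=
    Finset.sum_nonneg fun y _ => mul_nonneg (mm_nonneg ρ y) (sq_nonneg _)
  have hV : ∑ y, mm ρ y * (dg (mm ρ) I y - D) ^ 2 =
      ∑ y, mm ρ y * dg (mm ρ) I y ^ 2 - D * δ := by
    have e : ∀ y, mm ρ y * (dg (mm ρ) I y - D) ^ 2 =
        mm ρ y * dg (mm ρ) I y ^ 2 - (2 * D) * (mm ρ y * dg (mm ρ) I y) + D ^ 2 * mm ρ y :=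
      fun y => by ring
    rw [Finset.sum_congr rfl fun y _ => e y, Finset.sum_add_distrib, Finset.sum_sub_distrib,
      ← Finset.mul_sum, ← Finset.mul_sum, ← XLAux.q2_eq, ← hδ]
    have e2 : ∑ y, mm ρ y = β := hβ.symm
    rw [e2, ← hD]
    ring
  have hDe : D = δ / β := by rw [← hD]; field_simp
  have hDD : D * δ = δ ^ 2 / β := by rw [hDe]; ring
  rw [hDD] at hV
  set S := ∑ y, mm ρ y * dg (mm ρ) I y ^ 2 with hS
  set Vv := ∑ y, mm ρ y * (dg (mm ρ) I y - D) ^ 2 with hVv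
  set T := tri (mm ρ) (mm ρ) (mm ρ) I with hT
  by_cases hin : β ^ 2 / 3 ≤ δ ∧ δ ≤ β ^ 2 / 2
  · obtain ⟨hi1, hi2⟩ := hin
    set R := √(6 * δ - 2 * β ^ 2) with hR
    have hR0 : 0 ≤ R := Real.sqrt_nonneg _
    have hRR : R ^ 2 = 6 * δ - 2 * β ^ 2 := Real.sq_sqrt (by linarith)
    have hRb : R ≤ β := by
      refine le_of_sq_le_sq ?_ hβ0.le
      nlinarith
    have hδe : δ = (R ^ 2 + 2 * β ^ 2) / 6 := by linarith
    have hz := mmm_raz h 2 ((2 * β + R) / 6) ((β - R) / 3) (by linarith) (by linarith)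
      (by rw [← hβ]; push_cast; ring) (by rw [← hδ, hδe]; push_cast; ring)
    push_cast at hz
    have hQ : (5 * β * δ - β ^ 3) / 3 + (δ - β ^ 2 / 3) * (β ^ 2 / 2 - δ) / β ≤ T := by
      refine le_trans ?_ hz
      have e : 2 * (2 * ((2 * β + R) / 6) ^ 3 + ((β - R) / 3) ^ 3) -
          ((5 * β * δ - β ^ 3) / 3 + (δ - β ^ 2 / 3) * (β ^ 2 / 2 - δ) / β) =
          R ^ 2 * (β - R) ^ 2 / (36 * β) := by
        rw [hδe]
        field_simp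
        ring
      have e2 : 0 ≤ R ^ 2 * (β - R) ^ 2 / (36 * β) := by positivity
      linarith
    have e3 : (2 / 3) * ((5 * β * δ - β ^ 3) / 3 + (δ - β ^ 2 / 3) * (β ^ 2 / 2 - δ) / β) +
        (2 / 3) * (δ ^ 2 / β) = (5 * β * δ - β ^ 3) / 3 := by
      field_simp
      ring
    linarith
  · have e4 : (2 : ℝ) * (δ ^ 2 / β) - (5 * β * δ - β ^ 3) / 3 =
        2 * ((δ - β ^ 2 / 2) * (δ - β ^ 2 / 3)) / β := by
      field_simp
      ring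
    have e5 : 0 ≤ 2 * ((δ - β ^ 2 / 2) * (δ - β ^ 2 / 3)) / β := by
      refine div_nonneg (mul_nonneg zero_le_two ?_) hβ0.le
      have hb2 : 0 < β ^ 2 := by positivity
      by_cases hc : β ^ 2 / 3 ≤ δ
      · have hd : β ^ 2 / 2 < δ := by
          by_contra hcon
          exact hin ⟨hc, not_lt.1 hcon⟩
        exact mul_nonneg (by linarith) (by linarith)
      · have hd : δ < β ^ 2 / 3 := not_le.1 hc
        exact mul_nonneg_of_nonpos_of_nonpos (by linarith) (by linarith)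
    linarith

end

/-- Existence of the parts. -/
theorem raz_parts (β δ : ℝ) (hβ : 0 < β) (hδ : 0 < δ) (hδ1 : δ ≤ β ^ 2) :
    ∃ (k : ℕ) (b s : ℝ), 1 ≤ k ∧ 0 ≤ s ∧ s ≤ b ∧ β = k * b + s ∧ δ = k * b ^ 2 + s ^ 2 := by
  have h0 : (1 : ℝ) ≤ β ^ 2 / δ := (one_le_div hδ).2 hδ1
  set k : ℕ := ⌊β ^ 2 / δ⌋₊ with hk
  have hk1 : 1 ≤ k := Nat.le_floor (by exact_mod_cast h0)
  have hk2 : (k : ℝ) ≤ β ^ 2 / δ := Nat.floor_le (by linarith)
  have hk3 : β ^ 2 / δ < (k : ℝ) + 1 := Nat.lt_floor_add_one _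
  have hkR : (1 : ℝ) ≤ (k : ℝ) := by exact_mod_cast hk1
  have hk4 : (k : ℝ) * δ ≤ β ^ 2 := (le_div_iff₀ hδ).1 hk2
  have hk5 : β ^ 2 < ((k : ℝ) + 1) * δ := (div_lt_iff₀ hδ).1 hk3
  set K : ℝ := (k : ℝ) with hK
  have hK0 : 0 < K := by linarith
  set R := √(K * ((K + 1) * δ - β ^ 2)) with hR
  have hR0 : 0 ≤ R := Real.sqrt_nonneg _
  have hRR : R ^ 2 = K * ((K + 1) * δ - β ^ 2) :=
    Real.sq_sqrt (mul_nonneg hK0.le (by linarith))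
  have hRb : R ≤ β := by
    refine le_of_sq_le_sq ?_ hβ.le
    rw [hRR]
    nlinarith
  refine ⟨k, (K * β + R) / (K * (K + 1)), (β - R) / (K + 1), hk1, ?_, ?_, ?_, ?_⟩
  · exact div_nonneg (by linarith) (by linarith)
  · rw [div_le_div_iff₀ (by linarith) (by positivity)]
    have : (K * β + R) * (K + 1) - (β - R) * (K * (K + 1)) = R * (K + 1) ^ 2 := by ring
    nlinarith [mul_nonneg hR0 (sq_nonneg (K + 1))]
  · rw [← hK]
    field_simp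
    ring
  · rw [← hK]
    have e : δ = (β ^ 2 + R ^ 2 / K) / (K + 1) := by
      rw [hRR]
      field_simp
      ring
    rw [e]
    field_simp
    ring

theorem RZ8_same (β K b0 s0 b1 s1 : ℝ) (hK : 3 ≤ K)
    (hs0 : 0 ≤ s0) (hsb0 : s0 ≤ b0) (hs1 : 0 ≤ s1) (hsb1 : s1 ≤ b1)
    (e0 : β = K * b0 + s0) (e1 : β = K * b1 + s1)
    (hle : K * b1 ^ 2 + s1 ^ 2 ≤ K * b0 ^ 2 + s0 ^ 2) :
    2 * (K * b0 ^ 3 + s0 ^ 3) - 2 * (K * b1 ^ 3 + s1 ^ 3) ≤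
      (3 / 2) * β * ((K * b0 ^ 2 + s0 ^ 2) - (K * b1 ^ 2 + s1 ^ 2)) := by
  have hs1e : s1 = s0 + K * (b0 - b1) := by linarith
  have hd : (K * b0 ^ 2 + s0 ^ 2) - (K * b1 ^ 2 + s1 ^ 2) =
      K * (b0 - b1) * ((b0 + b1) - (s0 + s1)) := by
    have : s1 = s0 + K * (b0 - b1) := hs1e
    rw [this]
    ring
  have hc : 2 * (K * b0 ^ 3 + s0 ^ 3) - 2 * (K * b1 ^ 3 + s1 ^ 3) =
      2 * (K * (b0 - b1)) * ((3 / 4) * ((b0 + b1) ^ 2 - (s0 + s1) ^ 2) +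
        (1 / 4) * (1 - K ^ 2) * (b0 - b1) ^ 2) := by
    rw [hs1e]
    ring
  have hκ : 0 ≤ b0 - b1 := by
    by_contra hcon
    have hcon' : b0 - b1 < 0 := not_le.1 hcon
    have h2 : 0 ≤ K * (b0 - b1) * ((b0 + b1) - (s0 + s1)) := by rw [← hd]; linarith
    have h3 : 0 ≤ (b0 + b1) - (s0 + s1) := by linarith
    rcases h3.lt_or_eq with h4 | h4
    · have : K * (b0 - b1) * ((b0 + b1) - (s0 + s1)) < 0 :=
        mul_neg_of_neg_of_pos (mul_neg_of_pos_of_neg (by linarith) hcon') h4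
      linarith
    · have h5 : s0 = b0 := by linarith
      have h6 : s1 = b1 := by linarith
      rw [h5] at e0
      rw [h6] at e1
      have : (K + 1) * (b0 - b1) = 0 := by linarith
      rcases mul_eq_zero.1 this with h7 | h7 <;> linarith
  have hBS : 0 ≤ (b0 + b1) - (s0 + s1) := by linarith
  have hb0 : 0 ≤ b0 := hs0.trans hsb0
  have hb1 : 0 ≤ b1 := hs1.trans hsb1
  have hβ2 : (b0 + b1) + (s0 + s1) ≤ β := by
    have h7 : 3 * b0 ≤ K * b0 := mul_le_mul_of_nonneg_right hK hb0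
    have h8 : 3 * b1 ≤ K * b1 := mul_le_mul_of_nonneg_right hK hb1
    linarith
  rw [hd, hc]
  have hκ' : 0 ≤ K * (b0 - b1) := mul_nonneg (by linarith) hκ
  have h9 : (1 / 4) * (1 - K ^ 2) * (b0 - b1) ^ 2 ≤ 0 := by
    refine mul_nonpos_of_nonpos_of_nonneg ?_ (sq_nonneg _)
    nlinarith
  have h10 : (b0 + b1) ^ 2 - (s0 + s1) ^ 2 ≤ β * ((b0 + b1) - (s0 + s1)) := by
    have := mul_le_mul_of_nonneg_right hβ2 hBS
    nlinarith
  have h11 : (3 / 4) * ((b0 + b1) ^ 2 - (s0 + s1) ^ 2) + (1 / 4) * (1 - K ^ 2) * (b0 - b1) ^ 2 ≤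
      (3 / 4) * (β * ((b0 + b1) - (s0 + s1))) := by linarith
  have h12 := mul_le_mul_of_nonneg_left h11 hκ'
  nlinarith [h12]

theorem RZ8_chain (β : ℝ) (hβ : 0 < β) (n : ℕ) : ∀ (k0 : ℕ) (b0 s0 b1 s1 : ℝ), 3 ≤ k0 →
    0 ≤ s0 → s0 ≤ b0 → 0 ≤ s1 → s1 ≤ b1 →
    β = k0 * b0 + s0 → β = (k0 + n : ℕ) * b1 + s1 →
    (k0 + n : ℕ) * b1 ^ 2 + s1 ^ 2 ≤ k0 * b0 ^ 2 + s0 ^ 2 →
    2 * (k0 * b0 ^ 3 + s0 ^ 3) - 2 * ((k0 + n : ℕ) * b1 ^ 3 + s1 ^ 3) ≤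
      (3 / 2) * β * ((k0 * b0 ^ 2 + s0 ^ 2) - ((k0 + n : ℕ) * b1 ^ 2 + s1 ^ 2)) := by
  induction n with
  | zero =>
    intro k0 b0 s0 b1 s1 hk hs0 hsb0 hs1 hsb1 e0 e1 hle
    rw [Nat.add_zero] at e1 hle ⊢
    exact RZ8_same β k0 b0 s0 b1 s1 (by exact_mod_cast hk) hs0 hsb0 hs1 hsb1 e0 e1 hle
  | succ n ih =>
    intro k0 b0 s0 b1 s1 hk hs0 hsb0 hs1 hsb1 e0 e1 hle
    have hkR : (3 : ℝ) ≤ (k0 : ℝ) := by exact_mod_cast hk
    have hcast : k0 + (n + 1) = (k0 + 1) + n := by ring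
    rw [hcast] at e1 hle ⊢
    set c : ℝ := β / ((k0 : ℝ) + 1) with hc
    have hk1 : (0 : ℝ) < (k0 : ℝ) + 1 := by linarith
    have hcβ : β = ((k0 : ℝ) + 1) * c := by rw [hc]; field_simp
    have hc0 : 0 < c := div_pos hβ hk1
    -- lower end of the scallop
    have hlow : (k0 : ℝ) * c ^ 2 + c ^ 2 ≤ k0 * b0 ^ 2 + s0 ^ 2 := by
      have h1 : ((k0 : ℝ) + 1) * (k0 * b0 ^ 2 + s0 ^ 2) - ((k0 : ℝ) * b0 + s0) ^ 2 =
          k0 * (b0 - s0) ^ 2 := by ring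
      have h2 : 0 ≤ (k0 : ℝ) * (b0 - s0) ^ 2 := mul_nonneg (by linarith) (sq_nonneg _)
      rw [← e0] at h1
      have h3 : ((k0 : ℝ) + 1) * ((k0 : ℝ) * c ^ 2 + c ^ 2) = β ^ 2 := by rw [hcβ]; ring
      have h4 : ((k0 : ℝ) + 1) * ((k0 : ℝ) * c ^ 2 + c ^ 2) ≤
          ((k0 : ℝ) + 1) * (k0 * b0 ^ 2 + s0 ^ 2) := by linarith
      exact le_of_mul_le_mul_left h4 hk1
    have hA := RZ8_same β k0 b0 s0 c c hkR hs0 hsb0 hc0.le le_rfl e0 (by rw [hcβ]; ring) hlow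
    have hhigh : ((k0 + 1 + n : ℕ) : ℝ) * b1 ^ 2 + s1 ^ 2 ≤ ((k0 + 1 : ℕ) : ℝ) * c ^ 2 + 0 ^ 2 := by
      have hm : ((k0 : ℝ) + 1) ≤ ((k0 + 1 + n : ℕ) : ℝ) := by push_cast; linarith [Nat.cast_nonneg (α := ℝ) n]
      set m : ℝ := ((k0 + 1 + n : ℕ) : ℝ) with hmd
      have hb1 : 0 ≤ b1 := hs1.trans hsb1
      have h1 : (m * b1 + s1) ^ 2 - m * (m * b1 ^ 2 + s1 ^ 2) =
          s1 * (m * (b1 - s1) + (m * b1 + s1)) := by ring
      have hm0 : 0 < m := by linarith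
      have h2 : 0 ≤ s1 * (m * (b1 - s1) + (m * b1 + s1)) := by
        refine mul_nonneg hs1 (add_nonneg (mul_nonneg hm0.le (by linarith)) ?_)
        rw [← e1]
        exact hβ.le
      rw [← e1] at h1 h2
      have h3 : m * (m * b1 ^ 2 + s1 ^ 2) ≤ β ^ 2 := by linarith
      have h4 : ((k0 : ℝ) + 1) * (m * b1 ^ 2 + s1 ^ 2) ≤ β ^ 2 := by
        refine le_trans (mul_le_mul_of_nonneg_right hm ?_) h3
        positivity
      have h5 : ((k0 : ℝ) + 1) * (((k0 + 1 : ℕ) : ℝ) * c ^ 2 + 0 ^ 2) = β ^ 2 := by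
        rw [hcβ]; push_cast; ring
      rw [← h5] at h4
      exact le_of_mul_le_mul_left h4 hk1
    have hB := ih (k0 + 1) c 0 b1 s1 (by omega) le_rfl hc0.le hs1 hsb1
      (by rw [hcβ]; push_cast; ring) e1 hhigh
    have e5 : 2 * (((k0 + 1 : ℕ) : ℝ) * c ^ 3 + 0 ^ 3) = 2 * ((k0 : ℝ) * c ^ 3 + c ^ 3) := by
      push_cast; ring
    have e6 : ((k0 + 1 : ℕ) : ℝ) * c ^ 2 + 0 ^ 2 = (k0 : ℝ) * c ^ 2 + c ^ 2 := by
      push_cast; ring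
    rw [e5, e6] at hB
    linarith

/-- The bound grows at rate at most `3 β / 2` on the scallops with at least three parts. -/
theorem raz_slope (β : ℝ) (hβ : 0 < β) (k0 k1 : ℕ) (b0 s0 b1 s1 : ℝ) (hk : 3 ≤ k0)
    (hs0 : 0 ≤ s0) (hsb0 : s0 ≤ b0) (hs1 : 0 ≤ s1) (hsb1 : s1 ≤ b1)
    (e0 : β = k0 * b0 + s0) (e1 : β = k1 * b1 + s1)
    (hle : k1 * b1 ^ 2 + s1 ^ 2 ≤ k0 * b0 ^ 2 + s0 ^ 2) :
    2 * (k0 * b0 ^ 3 + s0 ^ 3) - 2 * (k1 * b1 ^ 3 + s1 ^ 3) ≤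
      (3 / 2) * β * ((k0 * b0 ^ 2 + s0 ^ 2) - (k1 * b1 ^ 2 + s1 ^ 2)) := by
  by_cases hkk : k0 ≤ k1
  · obtain ⟨n, rfl⟩ := Nat.exists_eq_add_of_le hkk
    exact RZ8_chain β hβ n k0 b0 s0 b1 s1 hk hs0 hsb0 hs1 hsb1 e0 e1 hle
  · have hkk' : k1 + 1 ≤ k0 := by omega
    have hk0R : (3 : ℝ) ≤ (k0 : ℝ) := by exact_mod_cast hk
    have hkR : (k1 : ℝ) + 1 ≤ (k0 : ℝ) := by exact_mod_cast hkk'
    have hk1n : (0 : ℝ) ≤ (k1 : ℝ) := Nat.cast_nonneg _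
    set K0 : ℝ := (k0 : ℝ) with hK0
    set K1 : ℝ := (k1 : ℝ) with hK1
    have h1 : (K1 + 1) * (K1 * b1 ^ 2 + s1 ^ 2) = β ^ 2 + K1 * (b1 - s1) ^ 2 := by
      rw [e1]; ring
    have h2 : K0 * (K0 * b0 ^ 2 + s0 ^ 2) = β ^ 2 - s0 * (K0 * (b0 - s0) + β) := by
      have : s0 * (K0 * (b0 - s0) + β) = s0 * (K0 * (b0 - s0) + (K0 * b0 + s0)) := by rw [← e0]
      rw [this, e0]
      ring
    have h3 : 0 ≤ s0 * (K0 * (b0 - s0) + β) :=
      mul_nonneg hs0 (add_nonneg (mul_nonneg (by linarith) (by linarith)) hβ.le)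
    have h4 : 0 ≤ K1 * (b1 - s1) ^ 2 := mul_nonneg hk1n (sq_nonneg _)
    have hb0 : 0 ≤ b0 := hs0.trans hsb0
    have hb1 : 0 ≤ b1 := hs1.trans hsb1
    set d0 : ℝ := K0 * b0 ^ 2 + s0 ^ 2 with hd0
    set d1 : ℝ := K1 * b1 ^ 2 + s1 ^ 2 with hd1
    have hd00 : 0 ≤ d0 := by positivity
    have h5 : (K1 + 1) * d1 ≤ (K1 + 1) * d0 := mul_le_mul_of_nonneg_left hle (by linarith)
    have h6 : (K1 + 1) * d0 ≤ K0 * d0 := mul_le_mul_of_nonneg_right hkR hd00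
    have h7 : s0 * (K0 * (b0 - s0) + β) = 0 := by linarith
    have h8 : K1 * (b1 - s1) ^ 2 = 0 := by linarith
    have h9 : s0 = 0 := by
      rcases mul_eq_zero.1 h7 with h | h
      · exact h
      · exfalso
        have : 0 ≤ K0 * (b0 - s0) := mul_nonneg (by linarith) (by linarith)
        linarith
    have h10 : (K1 + 1) * d0 = K0 * d0 := by linarith
    have hd0p : 0 < d0 := by
      rcases hd00.lt_or_eq with h | h
      · exact h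
      · exfalso
        rw [← h] at h2
        have : 0 < β ^ 2 := by positivity
        linarith
    have h11 : K1 + 1 = K0 := mul_right_cancel₀ hd0p.ne' h10
    have h12 : (K1 + 1) * d1 = (K1 + 1) * d0 := by linarith
    have h13 : d1 = d0 := mul_left_cancel₀ (by linarith) h12
    have h14 : b1 = s1 := by
      rcases mul_eq_zero.1 h8 with h | h
      · exfalso; linarith
      · have := pow_eq_zero_iff (two_ne_zero) |>.1 h
        linarith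
    have h15 : b0 = b1 := by
      rw [h9, add_zero] at e0
      have e1' : β = K0 * b1 := by rw [e1, ← h14, ← h11]; ring
      have : K0 * b0 = K0 * b1 := by rw [← e0, ← e1']
      exact mul_left_cancel₀ (by linarith) this
    rw [h13, sub_self, mul_zero, h9, ← h14, ← h15]
    have : K0 * b0 ^ 3 = K1 * b0 ^ 3 + b0 ^ 3 := by rw [← h11]; ring
    nlinarith [this]

end Pool.H3F
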