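import Pool.Agent.H3F.GDefs
import Pool.Agent.H3F.RZ8
import Pool.Agent.H3F.ES2

/-! CZ1: the zone `13 / 20 ≤ β` with at least three parts. -/

namespace Pool.H3F

/-- The value of the configuration with `k` parts of mass `c` and one of mass `s`, as a function
of `t = β` for fixed `a`. -/
noncomputable def czf (k a t : ℝ) : ℝ :=
  3 * (1 - t) * t * (2 * t - 1) + 3 * (1 - t) * (a + 2 * (1 - t) * t) -
    2 * (k * ((k * t + √(k * ((k + 1) * (a + 2 * (1 - t) * t) - t ^ 2))) / (k * (k + 1))) ^ 3 +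
      ((t - √(k * ((k + 1) * (a + 2 * (1 - t) * t) - t ^ 2))) / (k + 1)) ^ 3)

/-- The sign of the second derivative. -/
theorem cz1_sign (c s e : ℝ) (hs : 0 ≤ s) (hsc : s ≤ c) (hc : c ≤ (1 + e) / 6)
    (he : 9 / 40 ≤ e) (he1 : e ≤ 1) :
    0 ≤ (c + e) ^ 2 - (e + s) ^ 2 / 3 - (c - s) * (1 - 2 * (c + s)) := by
  have _ := hc
  have _ := he1
  have hQ0 : 0 ≤ 3 * c ^ 2 + (2 * e - 1) * c + (2 / 3) * e ^ 2 := by
    nlinarith [sq_nonneg (6 * c + (2 * e - 1)), mul_nonneg (sub_nonneg.mpr he) (sub_nonneg.mpr he)]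
  have hc0 : 0 ≤ c := hs.trans hsc
  rcases hc0.lt_or_eq with hcp | hcz
  · have h1 : 0 ≤ (c - s) * (3 * c ^ 2 + (2 * e - 1) * c + (2 / 3) * e ^ 2) :=
      mul_nonneg (by linarith) hQ0
    have h2 : 0 ≤ s * ((2 / 3) * (c + e) ^ 2) := by positivity
    have h3 : 0 ≤ c * ((7 / 3) * s * (c - s)) := by
      have : 0 ≤ c - s := by linarith
      positivity
    have h4 : c * ((c + e) ^ 2 - (e + s) ^ 2 / 3 - (c - s) * (1 - 2 * (c + s))) =
        (c - s) * (3 * c ^ 2 + (2 * e - 1) * c + (2 / 3) * e ^ 2) +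
          s * ((2 / 3) * (c + e) ^ 2) + c * ((7 / 3) * s * (c - s)) := by ring
    have h5 : 0 ≤ c * ((c + e) ^ 2 - (e + s) ^ 2 / 3 - (c - s) * (1 - 2 * (c + s))) := by
      rw [h4]; linarith
    exact nonneg_of_mul_nonneg_right h5 hcp
  · have hs0 : s = 0 := by linarith
    rw [← hcz, hs0]
    nlinarith [sq_nonneg e]

/-- The radicand. -/
private noncomputable def cq (k a t : ℝ) : ℝ := k * ((k + 1) * (a + 2 * (1 - t) * t) - t ^ 2)

/-- The square root. -/
private noncomputable def cR (k a t : ℝ) : ℝ := √(cq k a t)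

/-- The big part. -/
private noncomputable def cC (k a t : ℝ) : ℝ := (k * t + cR k a t) / (k * (k + 1))

/-- The small part. -/
private noncomputable def cS (k a t : ℝ) : ℝ := (t - cR k a t) / (k + 1)

/-- The first derivative. -/
private noncomputable def cF1 (k a t : ℝ) : ℝ :=
  3 * (-6 * t ^ 2 + 6 * t - 1) + 3 * (-(a + 2 * (1 - t) * t) + (1 - t) * (2 - 4 * t)) +
    6 * ((2 * t - 1) * (cC k a t + cS k a t) + cC k a t * cS k a t)

private theorem cz1_dR {k a t : ℝ} (hq : 0 < cq k a t) :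
    HasDerivAt (cR k a) (-(k * ((k + 1) * (2 * t - 1) + t)) / cR k a t) t := by
  have h1 : HasDerivAt (cq k a) (k * ((k + 1) * (2 - 4 * t) - 2 * t)) t := by
    unfold cq
    have h2 : HasDerivAt (fun t : ℝ => a + 2 * (1 - t) * t) (2 - 4 * t) t := by
      have h3 := ((((hasDerivAt_id t).const_sub 1).const_mul 2).mul (hasDerivAt_id t)).const_add a
      refine h3.congr_deriv ?_
      simp only [id]
      ring
    have h4 := ((h2.const_mul (k + 1)).sub (hasDerivAt_pow 2 t)).const_mul k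
    refine h4.congr_deriv ?_
    norm_num
  have h5 := h1.sqrt hq.ne'
  refine h5.congr_deriv ?_
  unfold cR
  have h6 : √(cq k a t) ≠ 0 := (Real.sqrt_pos.mpr hq).ne'
  field_simp
  ring

private theorem cz1_dC {k a t : ℝ} (hk : 0 < k) (hq : 0 < cq k a t) :
    HasDerivAt (cC k a) (-((2 * t - 1 + cS k a t) / cR k a t)) t := by
  have h1 := ((((hasDerivAt_id t).const_mul k).add (cz1_dR hq)).div_const (k * (k + 1)))
  refine h1.congr_deriv ?_
  have h6 : cR k a t ≠ 0 := (Real.sqrt_pos.mpr hq).ne'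
  unfold cS
  field_simp
  ring

private theorem cz1_dS {k a t : ℝ} (hk : 0 < k) (hq : 0 < cq k a t) :
    HasDerivAt (cS k a) (k * (2 * t - 1 + cC k a t) / cR k a t) t := by
  have h1 := (((hasDerivAt_id t).sub (cz1_dR hq)).div_const (k + 1))
  refine h1.congr_deriv ?_
  have h6 : cR k a t ≠ 0 := (Real.sqrt_pos.mpr hq).ne'
  unfold cC
  field_simp
  ring

private theorem cz1_diff {k a t : ℝ} (hk : 0 < k) : cC k a t - cS k a t = cR k a t / k := by
  unfold cC cS
  field_simp
  ring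

private theorem cz1_dF {k a t : ℝ} (hk : 0 < k) (hq : 0 < cq k a t) :
    HasDerivAt (czf k a) (cF1 k a t) t := by
  have e : czf k a = fun t => 3 * (1 - t) * t * (2 * t - 1) + 3 * (1 - t) *
      (a + 2 * (1 - t) * t) - 2 * (k * cC k a t ^ 3 + cS k a t ^ 3) := rfl
  rw [e]
  have hd := cz1_diff (a := a) (t := t) hk
  have h6 : cR k a t ≠ 0 := (Real.sqrt_pos.mpr hq).ne'
  have h1 : HasDerivAt (fun t : ℝ => 3 * (1 - t) * t * (2 * t - 1))
      (3 * (-6 * t ^ 2 + 6 * t - 1)) t := by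
    have h2 := ((((hasDerivAt_id t).const_sub 1).const_mul 3).mul (hasDerivAt_id t)).mul
      (((hasDerivAt_id t).const_mul 2).sub_const 1)
    refine h2.congr_deriv ?_
    simp only [id, Pi.mul_apply]
    ring
  have h3 : HasDerivAt (fun t : ℝ => 3 * (1 - t) * (a + 2 * (1 - t) * t))
      (3 * (-(a + 2 * (1 - t) * t) + (1 - t) * (2 - 4 * t))) t := by
    have h2 := (((hasDerivAt_id t).const_sub 1).const_mul 3).mul
      (((((hasDerivAt_id t).const_sub 1).const_mul 2).mul (hasDerivAt_id t)).const_add a)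
    refine h2.congr_deriv ?_
    simp only [id, Pi.mul_apply]
    ring
  have h4 := (((cz1_dC hk hq).pow 3).const_mul k).add ((cz1_dS hk hq).pow 3)
  have h5 := (h1.add h3).sub (h4.const_mul 2)
  refine h5.congr_deriv ?_
  unfold cF1
  have hC : cC k a t = cS k a t + cR k a t / k := by linarith
  rw [hC]
  push_cast
  field_simp
  ring

private theorem cz1_dF1 {k a t : ℝ} (hk : 0 < k) (hq : 0 < cq k a t) :
    HasDerivAt (cF1 k a) ((6 / (cC k a t - cS k a t)) * ((cC k a t + (2 * t - 1)) ^ 2 -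
      ((2 * t - 1) + cS k a t) ^ 2 / k -
      (cC k a t - cS k a t) * (1 - 2 * (cC k a t + cS k a t)))) t := by
  have hd := cz1_diff (a := a) (t := t) hk
  have h6 : cR k a t ≠ 0 := (Real.sqrt_pos.mpr hq).ne'
  have h1 : HasDerivAt (fun t : ℝ => 3 * (-6 * t ^ 2 + 6 * t - 1)) (3 * (-12 * t + 6)) t := by
    have h2 := ((((hasDerivAt_pow 2 t).const_mul (-6)).add
      ((hasDerivAt_id t).const_mul 6)).sub_const 1).const_mul 3
    refine h2.congr_deriv ?_
    norm_num
    ring
  have h3 : HasDerivAt (fun t : ℝ => 3 * (-(a + 2 * (1 - t) * t) + (1 - t) * (2 - 4 * t)))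
      (3 * (12 * t - 8)) t := by
    have h2 := ((((((hasDerivAt_id t).const_sub 1).const_mul 2).mul
      (hasDerivAt_id t)).const_add a).neg.add (((hasDerivAt_id t).const_sub 1).mul
      (((hasDerivAt_id t).const_mul 4).const_sub 2))).const_mul 3
    refine h2.congr_deriv ?_
    simp only [id, Pi.mul_apply]
    ring
  have hC' := cz1_dC hk hq
  have hS' := cz1_dS hk hq
  have h4 := (((((hasDerivAt_id t).const_mul 2).sub_const 1).mul (hC'.add hS')).add
    (hC'.mul hS')).const_mul 6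
  have h5 := (h1.add h3).add h4
  have e : cF1 k a = fun t => 3 * (-6 * t ^ 2 + 6 * t - 1) +
      3 * (-(a + 2 * (1 - t) * t) + (1 - t) * (2 - 4 * t)) +
      6 * ((2 * t - 1) * (cC k a t + cS k a t) + cC k a t * cS k a t) := rfl
  rw [e]
  refine h5.congr_deriv ?_
  rw [hd]
  have hC : cC k a t = cS k a t + cR k a t / k := by linarith
  simp only [id, Pi.add_apply, Pi.mul_apply]
  rw [hC]
  field_simp
  ring

/-- The function is convex between the two ends of the scallop. -/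
theorem cz1_convex (k a t1 t2 : ℝ) (hk : 3 ≤ k) (h1 : 49 / 80 ≤ t1) (h12 : t1 ≤ t2)
    (h2 : t2 ≤ 1) (e1 : a + 2 * (1 - t1) * t1 = t1 ^ 2 / k)
    (e2 : t2 ^ 2 / (k + 1) ≤ a + 2 * (1 - t2) * t2) :
    ConvexOn ℝ (Set.Icc t1 t2) (czf k a) := by
  have hk0 : 0 < k := by linarith
  have e2' : t2 ^ 2 ≤ (k + 1) * (a + 2 * (1 - t2) * t2) := by
    rw [div_le_iff₀ (by linarith)] at e2
    linarith
  have e1' : k * (a + 2 * (1 - t1) * t1) = t1 ^ 2 := by
    rw [e1]; field_simp
  have hqpos : ∀ t, t1 ≤ t → t < t2 → 0 < cq k a t := by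
    intro t ht1 ht2
    unfold cq
    refine mul_pos hk0 ?_
    have : (k + 1) * (a + 2 * (1 - t) * t) - t ^ 2 - ((k + 1) * (a + 2 * (1 - t2) * t2) - t2 ^ 2) =
        (t2 - t) * ((k + 1) * (2 * (t + t2) - 2) + (t + t2)) := by ring
    have h3 : 0 < (t2 - t) * ((k + 1) * (2 * (t + t2) - 2) + (t + t2)) := by
      refine mul_pos (by linarith) ?_
      have : 0 ≤ (k + 1) * (2 * (t + t2) - 2) := mul_nonneg (by linarith) (by linarith)
      linarith
    linarith
  refine convexOn_of_hasDerivWithinAt2_nonneg (convex_Icc t1 t2) (f' := cF1 k a)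
    (f'' := fun t => (6 / (cC k a t - cS k a t)) * ((cC k a t + (2 * t - 1)) ^ 2 -
      ((2 * t - 1) + cS k a t) ^ 2 / k -
      (cC k a t - cS k a t) * (1 - 2 * (cC k a t + cS k a t)))) ?_ ?_ ?_ ?_
  · unfold czf
    fun_prop
  · intro t ht
    rw [interior_Icc] at ht
    exact (cz1_dF hk0 (hqpos t ht.1.le ht.2)).hasDerivWithinAt
  · intro t ht
    rw [interior_Icc] at ht
    exact (cz1_dF1 hk0 (hqpos t ht.1.le ht.2)).hasDerivWithinAt
  · intro t ht
    rw [interior_Icc] at ht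
    have hq := hqpos t ht.1.le ht.2
    have hR : 0 < cR k a t := Real.sqrt_pos.mpr hq
    have hRR : cR k a t ^ 2 = cq k a t := Real.sq_sqrt hq.le
    have hd := cz1_diff (a := a) (t := t) hk0
    have hRk : 0 < cR k a t / k := div_pos hR hk0
    have ht1 : 49 / 80 ≤ t := by linarith [ht.1]
    have hRt : cR k a t ≤ t := by
      refine le_of_sq_le_sq ?_ (by linarith)
      rw [hRR]
      unfold cq
      have h4 : (k + 1) * (k * (a + 2 * (1 - t) * t)) ≤ (k + 1) * t ^ 2 := by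
        refine mul_le_mul_of_nonneg_left ?_ (by linarith)
        have h5 : t ^ 2 - k * (a + 2 * (1 - t) * t) -
            (t1 ^ 2 - k * (a + 2 * (1 - t1) * t1)) =
            (t - t1) * ((t + t1) + k * (2 * (t + t1) - 2)) := by ring
        have h6 : 0 ≤ (t - t1) * ((t + t1) + k * (2 * (t + t1) - 2)) := by
          refine mul_nonneg (by linarith [ht.1]) ?_
          have : 0 ≤ k * (2 * (t + t1) - 2) := mul_nonneg (by linarith) (by linarith)
          linarith
        linarith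
      nlinarith [h4]
    have hS0 : 0 ≤ cS k a t := by
      unfold cS
      exact div_nonneg (by linarith) (by linarith)
    have hSC : cS k a t ≤ cC k a t := by linarith
    have hCt : cC k a t ≤ (1 + (2 * t - 1)) / 6 := by
      unfold cC
      rw [div_le_div_iff₀ (by positivity) (by norm_num)]
      have h7 : 0 ≤ (k - 3) * t := mul_nonneg (by linarith) (by linarith)
      nlinarith [mul_nonneg (by linarith : (0 : ℝ) ≤ k + 1) h7]
    have hsign := cz1_sign (cC k a t) (cS k a t) (2 * t - 1) hS0 hSC hCt (by linarith)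
      (by linarith [ht.2])
    rw [hd] at hsign ⊢
    refine mul_nonneg (div_nonneg (by norm_num) hRk.le) ?_
    have h8 : (2 * t - 1 + cS k a t) ^ 2 / k ≤ (2 * t - 1 + cS k a t) ^ 2 / 3 :=
      div_le_div_of_nonneg_left (sq_nonneg _) (by norm_num) hk
    linarith

/-- The value at the end with `k` equal parts. -/
private theorem cz1_end (k : ℕ) (hk : 1 ≤ k) (a t : ℝ) (ht : 1 / 2 ≤ t) (ht1 : t ≤ 1)
    (e : a + 2 * (1 - t) * t = t ^ 2 / k) (c : ℝ)
    (hc : c = 3 * (1 - t) * t * (2 * t - 1) + 3 * (1 - t) * (t ^ 2 / k) -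
      2 * (k * (t / k) ^ 3)) : Env a c := by
  refine Or.inr (Or.inr ⟨1 / k, 1 - t, t, Or.inr ⟨k, hk, rfl⟩, by linarith, by linarith,
    by ring, ?_, ?_⟩)
  · have : a = t ^ 2 / k - 2 * (1 - t) * t := by linarith
    rw [this]
    ring
  · rw [hc]
    have hk0 : (k : ℝ) ≠ 0 := by positivity
    field_simp
    ring

private theorem cz1_root (κ a : ℝ) (hκ : 0 < κ) (hD : 0 ≤ 1 + κ * a) :
    a + 2 * ((1 + √(1 + κ * a)) / κ) - κ * ((1 + √(1 + κ * a)) / κ) ^ 2 = 0 := by
  have h1 : √(1 + κ * a) ^ 2 = 1 + κ * a := Real.sq_sqrt hD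
  set r := √(1 + κ * a)
  have h2 : a = (r ^ 2 - 1) / κ := by rw [h1]; field_simp; ring
  rw [h2]
  field_simp
  ring

theorem zone_C1 (α β a b : ℝ) (h : α + β = 1) (hα : 0 < α) (h1 : 13 / 20 ≤ β)
    (hG : CI2 α β a b) (h3 : 1 - √2 ≤ a) (h4 : a + 2 * α * β ≤ β ^ 2 / 3) (h5 : a ≤ 9 / 25) :
    Below a b := by
  obtain ⟨g0, g1, g2⟩ := hG
  have hαe : α = 1 - β := by linarith
  have hβ0 : 0 < β := by linarith
  have hs2 : √2 ≤ 1415 / 1000 := by
    rw [Real.sqrt_le_left (by norm_num)]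
    norm_num
  rcases g0.lt_or_eq with hδ | hδ
  · -- the number of parts
    set δ := a + 2 * α * β with hδd
    set k : ℕ := ⌊β ^ 2 / δ⌋₊ with hkd
    have hk3 : 3 ≤ k := by
      refine Nat.le_floor ?_
      rw [Nat.cast_ofNat, le_div_iff₀ hδ]
      linarith
    have hk1 : (k : ℝ) ≤ β ^ 2 / δ := Nat.floor_le (by positivity)
    have hk2 : β ^ 2 / δ < (k : ℝ) + 1 := Nat.lt_floor_add_one _
    have hkR : (3 : ℝ) ≤ (k : ℝ) := by exact_mod_cast hk3
    have hkδ : (k : ℝ) * δ ≤ β ^ 2 := (le_div_iff₀ hδ).1 hk1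
    have hkδ1 : β ^ 2 < ((k : ℝ) + 1) * δ := (div_lt_iff₀ hδ).1 hk2
    have hk0 : (0 : ℝ) < (k : ℝ) := by linarith
    have hδe : δ = a + 2 * (1 - β) * β := by rw [hδd, hαe]
    have hval : b ≤ czf k a β := by
      set R := √((k : ℝ) * (((k : ℝ) + 1) * (a + 2 * (1 - β) * β) - β ^ 2)) with hR
      have hR0 : 0 ≤ R := Real.sqrt_nonneg _
      have hRR : R ^ 2 = (k : ℝ) * (((k : ℝ) + 1) * δ - β ^ 2) := by
        rw [hδe]
        refine Real.sq_sqrt (mul_nonneg hk0.le ?_)
        rw [← hδe]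
        linarith
      have hRb : R ≤ β := by
        refine le_of_sq_le_sq ?_ hβ0.le
        rw [hRR]
        nlinarith
      have hg := g2 k (((k : ℝ) * β + R) / ((k : ℝ) * ((k : ℝ) + 1))) ((β - R) / ((k : ℝ) + 1))
        hk3 (div_nonneg (by linarith) (by linarith)) (by
          rw [div_le_div_iff₀ (by linarith) (by positivity)]
          have : ((k : ℝ) * β + R) * ((k : ℝ) + 1) - (β - R) * ((k : ℝ) * ((k : ℝ) + 1)) =
            R * ((k : ℝ) + 1) ^ 2 := by ring
          nlinarith [mul_nonneg hR0 (sq_nonneg ((k : ℝ) + 1))]) (by field_simp; ring) (by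
          have e : δ = (β ^ 2 + R ^ 2 / (k : ℝ)) / ((k : ℝ) + 1) := by
            rw [hRR]; field_simp; ring
          rw [e]; field_simp; ring)
      have e3 : (k : ℝ) * (((k : ℝ) * β + R) / ((k : ℝ) * ((k : ℝ) + 1))) ^ 2 +
          ((β - R) / ((k : ℝ) + 1)) ^ 2 = δ := by
        have e : δ = (β ^ 2 + R ^ 2 / (k : ℝ)) / ((k : ℝ) + 1) := by
          rw [hRR]; field_simp; ring
        rw [e]; field_simp; ring
      rw [e3] at hg
      refine hg.trans (le_of_eq ?_)
      unfold czf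
      rw [← hR, ← hδe, hαe]
      ring
    -- lower end
    set κ : ℝ := 2 + 1 / (k : ℝ) with hκ
    have hκ0 : 0 < κ := by positivity
    have hik : 1 / (k : ℝ) ≤ 1 / 3 := one_div_le_one_div_of_le (by norm_num) hkR
    have hik0 : 0 < 1 / (k : ℝ) := by positivity
    have hD1 : 0 ≤ 1 + κ * a := by
      have ha : -(415 / 1000) ≤ a := by linarith
      nlinarith [mul_nonneg hκ0.le (by linarith : (0 : ℝ) ≤ a + 415 / 1000)]
    set t1 : ℝ := (1 + √(1 + κ * a)) / κ with ht1
    have hroot1 := cz1_root κ a hκ0 hD1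
    rw [← ht1] at hroot1
    have hsq1 : 0 ≤ √(1 + κ * a) := Real.sqrt_nonneg _
    have ht1κ : 1 ≤ κ * t1 := by
      rw [ht1]
      field_simp
      linarith
    have hβκ : 1 ≤ κ * β := by nlinarith
    have hphiβ : a + 2 * β - κ * β ^ 2 ≤ 0 := by
      have : κ * β ^ 2 = 2 * β ^ 2 + β ^ 2 / (k : ℝ) := by rw [hκ]; ring
      have h7 : δ ≤ β ^ 2 / (k : ℝ) := by
        rw [le_div_iff₀ hk0]; linarith
      rw [hδe] at h7
      linarith
    have ht1β : t1 ≤ β := by
      by_contra hcon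
      have hcon' : β < t1 := not_le.mp hcon
      have : (a + 2 * β - κ * β ^ 2) - (a + 2 * t1 - κ * t1 ^ 2) =
          (t1 - β) * (κ * (t1 + β) - 2) := by ring
      have h8 : 0 < (t1 - β) * (κ * (t1 + β) - 2) := by
        refine mul_pos (by linarith) ?_
        have : κ * β < κ * t1 := mul_lt_mul_of_pos_left hcon' hκ0
        linarith
      linarith
    have h49 : 0 ≤ a + 2 * (49 / 80) - κ * (49 / 80) ^ 2 := by
      -- a ≥ -2β + (2 + 1/(k+1)) β² and the function is increasing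
      have h9 : -(2 * β) + (2 + 1 / ((k : ℝ) + 1)) * β ^ 2 ≤ a := by
        have h10 : β ^ 2 / ((k : ℝ) + 1) ≤ δ := by
          rw [div_le_iff₀ (by linarith)]; linarith
        rw [hδe] at h10
        have : (2 + 1 / ((k : ℝ) + 1)) * β ^ 2 = 2 * β ^ 2 + β ^ 2 / ((k : ℝ) + 1) := by ring
        linarith
      have h11 : 0 < 1 / ((k : ℝ) + 1) := by positivity
      have h12 : -(13 / 10) + (2 + 1 / ((k : ℝ) + 1)) * (13 / 20) ^ 2 ≤
          -(2 * β) + (2 + 1 / ((k : ℝ) + 1)) * β ^ 2 := by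
        have : -(2 * β) + (2 + 1 / ((k : ℝ) + 1)) * β ^ 2 -
            (-(13 / 10) + (2 + 1 / ((k : ℝ) + 1)) * (13 / 20) ^ 2) =
            (β - 13 / 20) * ((2 + 1 / ((k : ℝ) + 1)) * (β + 13 / 20) - 2) := by ring
        have h13 : 0 ≤ (β - 13 / 20) * ((2 + 1 / ((k : ℝ) + 1)) * (β + 13 / 20) - 2) := by
          refine mul_nonneg (by linarith) ?_
          nlinarith
        linarith
      have h14 : 0 ≤ -(13 / 10) + (2 + 1 / ((k : ℝ) + 1)) * (13 / 20) ^ 2 + 2 * (49 / 80) -
          (2 + 1 / (k : ℝ)) * (49 / 80 : ℝ) ^ 2 := by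
        have e : -(13 / 10) + (2 + 1 / ((k : ℝ) + 1)) * (13 / 20) ^ 2 + 2 * (49 / 80) -
            (2 + 1 / (k : ℝ)) * (49 / 80 : ℝ) ^ 2 =
            ((63 / 3200) * (k : ℝ) ^ 2 + (63 / 3200 + 303 / 6400) * k - 2401 / 6400) /
              ((k : ℝ) * ((k : ℝ) + 1)) := by
          field_simp
          ring
        rw [e]
        refine div_nonneg ?_ (by positivity)
        nlinarith
      rw [hκ]
      linarith
    have ht149 : 49 / 80 ≤ t1 := by
      by_contra hcon
      have hcon' : t1 < 49 / 80 := not_le.mp hcon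
      have : (a + 2 * t1 - κ * t1 ^ 2) - (a + 2 * (49 / 80) - κ * (49 / 80) ^ 2) =
          (49 / 80 - t1) * (κ * (49 / 80 + t1) - 2) := by ring
      have h8 : 0 < (49 / 80 - t1) * (κ * (49 / 80 + t1) - 2) := by
        refine mul_pos (by linarith) ?_
        have : κ * t1 < κ * (49 / 80) := mul_lt_mul_of_pos_left hcon' hκ0
        nlinarith
      linarith
    have e1 : a + 2 * (1 - t1) * t1 = t1 ^ 2 / (k : ℝ) := by
      have : κ * t1 ^ 2 = 2 * t1 ^ 2 + t1 ^ 2 / (k : ℝ) := by rw [hκ]; ring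
      linarith
    have hE1 : Env a (czf k a t1) := by
      refine cz1_end k (by omega) a t1 (by linarith) (by linarith) e1 _ ?_
      unfold czf
      rw [e1]
      have e5 : (k : ℝ) * (((k : ℝ) + 1) * (t1 ^ 2 / (k : ℝ)) - t1 ^ 2) = t1 ^ 2 := by
        field_simp
        ring
      rw [e5, Real.sqrt_sq (by linarith)]
      field_simp
      ring
    -- upper end
    set κ' : ℝ := 2 + 1 / ((k : ℝ) + 1) with hκ'
    have hκ'0 : 0 < κ' := by positivity
    have hphiβ' : 0 ≤ a + 2 * β - κ' * β ^ 2 := by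
      have : κ' * β ^ 2 = 2 * β ^ 2 + β ^ 2 / ((k : ℝ) + 1) := by rw [hκ']; ring
      have h7 : β ^ 2 / ((k : ℝ) + 1) ≤ δ := by
        rw [div_le_iff₀ (by linarith)]; linarith
      rw [hδe] at h7
      linarith
    have hik1 : 0 < 1 / ((k : ℝ) + 1) := by positivity
    have hkey : ∃ t2, β ≤ t2 ∧ t2 ≤ 1 ∧ t2 ^ 2 / ((k : ℝ) + 1) ≤ a + 2 * (1 - t2) * t2 ∧
        Below a (czf k a t2) := by
      by_cases h1κ : a ≤ 1 / ((k : ℝ) + 1)
      · have hD2 : 0 ≤ 1 + κ' * a := by
          have h15 : 0 ≤ κ' * (a + 2 * β - κ' * β ^ 2) := mul_nonneg hκ'0.le hphiβ'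
          nlinarith [sq_nonneg (κ' * β - 1)]
        set t2 : ℝ := (1 + √(1 + κ' * a)) / κ' with ht2
        have hroot2 := cz1_root κ' a hκ'0 hD2
        rw [← ht2] at hroot2
        have hsq2 : 0 ≤ √(1 + κ' * a) := Real.sqrt_nonneg _
        have ht2κ : 1 ≤ κ' * t2 := by
          rw [ht2]
          field_simp
          linarith
        have hβκ' : 1 ≤ κ' * β := by nlinarith
        have hβt2 : β ≤ t2 := by
          by_contra hcon
          have hcon' : t2 < β := not_le.mp hcon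
          have : (a + 2 * t2 - κ' * t2 ^ 2) - (a + 2 * β - κ' * β ^ 2) =
              (β - t2) * (κ' * (β + t2) - 2) := by ring
          have h8 : 0 < (β - t2) * (κ' * (β + t2) - 2) := by
            refine mul_pos (by linarith) ?_
            have : κ' * t2 < κ' * β := mul_lt_mul_of_pos_left hcon' hκ'0
            linarith
          linarith
        have ht21 : t2 ≤ 1 := by
          by_contra hcon
          have hcon' : 1 < t2 := not_le.mp hcon
          have h16 : a + 2 * 1 - κ' * 1 ^ 2 ≤ 0 := by rw [hκ']; linarith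
          have : (a + 2 * 1 - κ' * 1 ^ 2) - (a + 2 * t2 - κ' * t2 ^ 2) =
              (t2 - 1) * (κ' * (t2 + 1) - 2) := by ring
          have h8 : 0 < (t2 - 1) * (κ' * (t2 + 1) - 2) := by
            refine mul_pos (by linarith) ?_
            nlinarith
          linarith
        have e6 : a + 2 * (1 - t2) * t2 = t2 ^ 2 / ((k : ℝ) + 1) := by
          have : κ' * t2 ^ 2 = 2 * t2 ^ 2 + t2 ^ 2 / ((k : ℝ) + 1) := by rw [hκ']; ring
          linarith
        refine ⟨t2, hβt2, ht21, e6.symm.le, czf k a t2, ?_, le_rfl⟩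
        refine cz1_end (k + 1) (by omega) a t2 (by linarith) ht21 (by push_cast; exact e6) _ ?_
        unfold czf
        rw [e6]
        have e7 : (k : ℝ) * (((k : ℝ) + 1) * (t2 ^ 2 / ((k : ℝ) + 1)) - t2 ^ 2) = 0 := by
          field_simp
          ring
        rw [e7, Real.sqrt_zero]
        push_cast
        field_simp
        ring
      · have h1κ' : 1 / ((k : ℝ) + 1) < a := not_le.mp h1κ
        refine ⟨1, by linarith, le_rfl, by linarith, ?_⟩
        have hneg : czf k a 1 ≤ 0 := by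
          unfold czf
          have e8 : (k : ℝ) * (((k : ℝ) + 1) * (a + 2 * (1 - 1) * 1) - 1 ^ 2) =
              (k : ℝ) * (((k : ℝ) + 1) * a - 1) := by ring
          rw [e8]
          set R := √((k : ℝ) * (((k : ℝ) + 1) * a - 1)) with hR
          have hR0 : 0 ≤ R := Real.sqrt_nonneg _
          have hR1 : R ≤ 1 := by
            rw [hR]
            refine Real.sqrt_le_one.mpr ?_
            have h17 : (k : ℝ) * (a + 2 * α * β) ≤ β ^ 2 := hkδ
            have h18 : 0 ≤ α * β := mul_nonneg hα.le hβ0.le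
            have h19 : (k : ℝ) * a ≤ 1 - 2 * (k : ℝ) * (α * β) - (1 - β ^ 2) := by nlinarith
            have h20 : 0 ≤ (k : ℝ) * (α * β) := mul_nonneg hk0.le h18
            have h21 : (k : ℝ) * a ≤ 1 := by nlinarith
            nlinarith
          have h22 : 0 ≤ ((k : ℝ) * 1 + R) / ((k : ℝ) * ((k : ℝ) + 1)) := by positivity
          have h23 : 0 ≤ (1 - R) / ((k : ℝ) + 1) := div_nonneg (by linarith) (by linarith)
          have h24 : 0 ≤ (k : ℝ) * (((k : ℝ) * 1 + R) / ((k : ℝ) * ((k : ℝ) + 1))) ^ 3 +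
              ((1 - R) / ((k : ℝ) + 1)) ^ 3 := by positivity
          nlinarith
        by_cases ha30 : a ≤ 1 / 30
        · obtain ⟨c, hc1, hc2⟩ := es_0 a h3 ha30
          exact ⟨c, hc1, by linarith⟩
        · obtain ⟨c, hc1, hc2⟩ := es_1 a (not_le.mp ha30).le h5
          exact ⟨c, hc1, by linarith [not_le.mp ha30]⟩
    obtain ⟨t2, hβt2, ht21, e2, hB2⟩ := hkey
    have hconv := cz1_convex k a t1 t2 hkR ht149 (ht1β.trans hβt2) ht21 e1 e2
    have hmax := hconv.le_max_of_mem_Icc (x := t1) (y := t2) (z := β)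
      (Set.left_mem_Icc.mpr (ht1β.trans hβt2)) (Set.right_mem_Icc.mpr (ht1β.trans hβt2))
      ⟨ht1β, hβt2⟩
    rcases le_max_iff.mp (hval.trans hmax) with h25 | h25
    · exact ⟨_, hE1, h25⟩
    · obtain ⟨c, hc1, hc2⟩ := hB2
      exact ⟨c, hc1, h25.trans hc2⟩
  · have hb := g1 hδ.symm
    refine ⟨3 * α * β * (β - α), Or.inr (Or.inr ⟨0, α, β, Or.inl rfl, hα.le, by linarith, h,
      ?_, ?_⟩), hb⟩
    · linarith
    · ring

end Pool.H3F
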