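import Pool.Agent.H3F.GDefs
import Pool.Agent.H3F.ES2

/-! CZ2: the zone `13 / 20 ≤ β` with two to three parts. -/

namespace Pool.H3F

namespace CZ2Aux

/-- The right side of the fourth general inequality as a polynomial. -/
theorem base_eq (a t : ℝ) :
    3 * (1 - t) * t * (t - (1 - t)) + 3 * (1 - t) * (a + 2 * (1 - t) * t) -
      (5 * t * (a + 2 * (1 - t) * t) - t ^ 3) / 3 =
    3 * a - 14 / 3 * a * t + 3 * t - 19 / 3 * t ^ 2 + 11 / 3 * t ^ 3 := by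
  ring

/-- Convexity of the cubic. -/
theorem conv (a u t v : ℝ) (h1 : u ≤ t) (h2 : t ≤ v) (h3 : 19 / 11 ≤ u + t + v)
    (huv : u < v)
    (e1 : 3 * a - 14 / 3 * a * u + 3 * u - 19 / 3 * u ^ 2 + 11 / 3 * u ^ 3 <
      3 * a - 14 / 3 * a * t + 3 * t - 19 / 3 * t ^ 2 + 11 / 3 * t ^ 3)
    (e2 : 3 * a - 14 / 3 * a * v + 3 * v - 19 / 3 * v ^ 2 + 11 / 3 * v ^ 3 <
      3 * a - 14 / 3 * a * t + 3 * t - 19 / 3 * t ^ 2 + 11 / 3 * t ^ 3) : False := by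
  have k1 : 0 ≤ (v - t) * (t - u) * (v - u) * (11 / 3 * (u + t + v) - 19 / 3) := by
    have := sub_nonneg.2 h1
    have := sub_nonneg.2 h2
    have := sub_pos.2 huv
    have : 0 ≤ 11 / 3 * (u + t + v) - 19 / 3 := by linarith
    positivity
  have k2 : 0 ≤ (v - t) * ((3 * a - 14 / 3 * a * t + 3 * t - 19 / 3 * t ^ 2 + 11 / 3 * t ^ 3) -
      (3 * a - 14 / 3 * a * u + 3 * u - 19 / 3 * u ^ 2 + 11 / 3 * u ^ 3)) :=
    mul_nonneg (sub_nonneg.2 h2) (sub_pos.2 e1).le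
  have k3 : 0 ≤ (t - u) * ((3 * a - 14 / 3 * a * t + 3 * t - 19 / 3 * t ^ 2 + 11 / 3 * t ^ 3) -
      (3 * a - 14 / 3 * a * v + 3 * v - 19 / 3 * v ^ 2 + 11 / 3 * v ^ 3)) :=
    mul_nonneg (sub_nonneg.2 h1) (sub_pos.2 e2).le
  have k4 : (v - t) * (t - u) * (v - u) * (11 / 3 * (u + t + v) - 19 / 3) =
      -((v - t) * ((3 * a - 14 / 3 * a * t + 3 * t - 19 / 3 * t ^ 2 + 11 / 3 * t ^ 3) -
      (3 * a - 14 / 3 * a * u + 3 * u - 19 / 3 * u ^ 2 + 11 / 3 * u ^ 3))) -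
      ((t - u) * ((3 * a - 14 / 3 * a * t + 3 * t - 19 / 3 * t ^ 2 + 11 / 3 * t ^ 3) -
      (3 * a - 14 / 3 * a * v + 3 * v - 19 / 3 * v ^ 2 + 11 / 3 * v ^ 3))) := by
    ring
  rcases eq_or_lt_of_le h2 with h | h
  · subst h
    exact lt_irrefl _ e2
  · have k5 : 0 < (v - t) * ((3 * a - 14 / 3 * a * t + 3 * t - 19 / 3 * t ^ 2 + 11 / 3 * t ^ 3) -
      (3 * a - 14 / 3 * a * u + 3 * u - 19 / 3 * u ^ 2 + 11 / 3 * u ^ 3)) :=
      mul_pos (sub_pos.2 h) (sub_pos.2 e1)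
    linarith

end CZ2Aux

theorem zone_C2 (α β a b : ℝ) (h : α + β = 1) (hα : 0 < α) (h1 : 13 / 20 ≤ β)
    (hG : CI3 α β a b) (h3 : β ^ 2 / 3 ≤ a + 2 * α * β)
    (h4 : a + 2 * α * β ≤ β ^ 2 / 2) (h5 : a ≤ 9 / 25) : Below a b := by
  have hα' : α = 1 - β := by linarith
  subst hα'
  have hβ1 : β < 1 := by linarith
  unfold CI3 at hG
  rw [show 3 * (1 - β) * β * (β - (1 - β)) + 3 * (1 - β) * (a + 2 * (1 - β) * β) -
      (5 * β * (a + 2 * (1 - β) * β) - β ^ 3) / 3 =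
    3 * a - 14 / 3 * a * β + 3 * β - 19 / 3 * β ^ 2 + 11 / 3 * β ^ 3 from
      CZ2Aux.base_eq a β] at hG
  -- lower bound of `a`
  have hq : 0 ≤ (β - 13 / 20) * (7 / 3 * (β + 13 / 20) - 2) :=
    mul_nonneg (by linarith) (by linarith)
  have ha : -(315 / 1000) ≤ a := by linarith
  -- the root for two parts
  have hr2 : 0 ≤ 1 + 5 / 2 * a := by linarith
  set r2 := √(1 + 5 / 2 * a) with hr2def
  have hr2s : r2 ^ 2 = 1 + 5 / 2 * a := Real.sq_sqrt hr2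
  have hr20 : 0 ≤ r2 := Real.sqrt_nonneg _
  have hr2l : 46 / 100 ≤ r2 := by
    apply Real.le_sqrt_of_sq_le
    linarith
  have hy2 : 2 / 5 * (1 + r2) ≤ β := by
    have : r2 ≤ 5 / 2 * β - 1 := by
      apply Real.sqrt_le_iff.2
      constructor
      · linarith
      · linarith
    linarith
  -- the root for three parts
  have hr3 : 0 ≤ 1 + 7 / 3 * a := by linarith
  set r3 := √(1 + 7 / 3 * a) with hr3def
  have hr3s : r3 ^ 2 = 1 + 7 / 3 * a := Real.sq_sqrt hr3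
  have hr30 : 0 ≤ r3 := Real.sqrt_nonneg _
  have hy3 : β ≤ 3 / 7 * (1 + r3) := by
    have : 7 / 3 * β - 1 ≤ r3 := by
      apply Real.le_sqrt_of_sq_le
      linarith
    linarith
  -- comparison at the left end
  by_cases e1 : 3 * a - 14 / 3 * a * β + 3 * β - 19 / 3 * β ^ 2 + 11 / 3 * β ^ 3 ≤
      3 * a - 14 / 3 * a * (2 / 5 * (1 + r2)) + 3 * (2 / 5 * (1 + r2)) -
        19 / 3 * (2 / 5 * (1 + r2)) ^ 2 + 11 / 3 * (2 / 5 * (1 + r2)) ^ 3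
  · refine ⟨_, Or.inr (Or.inr ?_), hG.trans e1⟩
    refine ⟨1 / 2, 1 - 2 / 5 * (1 + r2), 2 / 5 * (1 + r2), Or.inr ⟨2, by norm_num, by norm_num⟩,
      by linarith, by linarith, by ring, ?_, ?_⟩
    · linear_combination (-(2 / 5)) * hr2s
    · have ha2 : a = 2 / 5 * (r2 ^ 2 - 1) := by rw [hr2s]; ring
      rw [ha2]
      ring
  push Not at e1
  by_cases ha3 : a ≤ 1 / 3
  · have hr31 : r3 ≤ 4 / 3 := by
      apply Real.sqrt_le_iff.2
      constructor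
      · norm_num
      · linarith
    by_cases e2 : 3 * a - 14 / 3 * a * β + 3 * β - 19 / 3 * β ^ 2 + 11 / 3 * β ^ 3 ≤
      3 * a - 14 / 3 * a * (3 / 7 * (1 + r3)) + 3 * (3 / 7 * (1 + r3)) -
        19 / 3 * (3 / 7 * (1 + r3)) ^ 2 + 11 / 3 * (3 / 7 * (1 + r3)) ^ 3
    · refine ⟨_, Or.inr (Or.inr ?_), hG.trans e2⟩
      refine ⟨1 / 3, 1 - 3 / 7 * (1 + r3), 3 / 7 * (1 + r3), Or.inr ⟨3, by norm_num, by norm_num⟩,
        by linarith, by linarith, by ring, ?_, ?_⟩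
      · linear_combination (-(3 / 7)) * hr3s
      · have ha2 : a = 3 / 7 * (r3 ^ 2 - 1) := by rw [hr3s]; ring
        rw [ha2]
        ring
    push Not at e2
    exfalso
    rcases eq_or_lt_of_le hy3 with hh | hh
    · rw [← hh] at e2
      exact lt_irrefl _ e2
    · exact CZ2Aux.conv a _ β _ hy2 hy3 (by linarith) (by linarith) e1 e2
  · push Not at ha3
    obtain ⟨c, hc, hc'⟩ := es_1 a (by linarith) h5
    refine ⟨c, hc, hG.trans (le_trans ?_ hc')⟩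
    by_contra hcon
    push Not at hcon
    refine CZ2Aux.conv a _ β 1 hy2 hβ1.le (by linarith) (by linarith) e1 ?_
    refine lt_trans ?_ hcon
    have : 3 * a - 14 / 3 * a * 1 + 3 * 1 - 19 / 3 * 1 ^ 2 + 11 / 3 * 1 ^ 3 = (1 - 5 * a) / 3 := by
      ring
    rw [this]
    linarith

end Pool.H3F
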