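import Pool.Agent.H3F.GDefs
import Pool.Agent.H3F.ES2

/-! CZ3: the zones `13 / 20 ≤ β` with at most two parts. -/

namespace Pool.H3F

/-- The second inequality for multipliers up to `47 β / 20`. -/
theorem cz3_mu (α β a b μ : ℝ) (h : α + β = 1) (hα : 0 < α) (h1 : 13 / 20 ≤ β)
    (hG : CI1 α β a b) (hμ : (3 / 2) * α ≤ μ) (hμ1 : μ ≤ (47 / 20) * β) :
    b ≤ α * β * (3 - 2 * μ) + (3 * α - μ) * a + β * μ ^ 2 / 8 := by
  refine hG μ (β * μ ^ 2 / 8) hμ (by linarith) ?_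
  intro v hv hv1
  have hβ : 0 ≤ β := by linarith
  have hmax : (max (μ - 3 * v) 0) ^ 2 ≤ (μ - 3 * v) ^ 2 := by
    rcases le_total (μ - 3 * v) 0 with h2 | h2
    · rw [max_eq_right h2]; nlinarith [sq_nonneg (μ - 3 * v)]
    · rw [max_eq_left h2]
  have hm2 := mul_le_mul_of_nonneg_left hmax hβ
  have hv4 : v ^ 4 / (2 * α) ≤ α * v ^ 2 / 2 := by
    rw [div_le_div_iff₀ (by positivity) (by norm_num)]
    have : v ^ 2 ≤ α ^ 2 := by nlinarith
    nlinarith [mul_le_mul_of_nonneg_left this (sq_nonneg v)]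
  have hi0 : β * ((5 / 4) * μ - 3 * β) ≤ 0 := by nlinarith
  have hi1 : β * ((5 / 4) * μ - 3 * β) + (μ - α - (15 / 8) * β) * α ≤ 0 := by
    nlinarith [mul_nonneg hβ (sub_nonneg.2 hμ1), mul_nonneg hα.le (sub_nonneg.2 hμ1),
      sq_nonneg (α - (19 / 80) * β), sq_nonneg β]
  have hin : (β * ((5 / 4) * μ - 3 * β) + (μ - α - (15 / 8) * β) * v) * α ≤ 0 := by
    nlinarith [mul_nonneg (sub_nonneg.2 hv1) (neg_nonneg.2 hi0), mul_nonneg hv (neg_nonneg.2 hi1)]
  have hin2 : β * ((5 / 4) * μ - 3 * β) + (μ - α - (15 / 8) * β) * v ≤ 0 := by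
    by_contra hc
    push Not at hc
    exact absurd hin (not_le.2 (mul_pos hc hα))
  have hin3 := mul_nonneg hv (neg_nonneg.2 hin2)
  nlinarith [hin3, hm2, hv4]

theorem zone_C3 (α β a b : ℝ) (h : α + β = 1) (hα : 0 < α) (h1 : 13 / 20 ≤ β)
    (hG : CI1 α β a b) (h3 : β ^ 2 / 2 ≤ a + 2 * α * β)
    (h4 : a + 2 * α * β ≤ (47 / 80) * β ^ 2) (h5 : a ≤ 9 / 25) : Below a b := by
  have hβ : 0 < β := by linarith
  obtain rfl : α = 1 - β := by linarith
  have hb := cz3_mu (1 - β) β a b (4 * (a + 2 * (1 - β) * β) / β) h hα h1 hG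
    (by rw [le_div_iff₀ hβ]; nlinarith) (by rw [div_le_iff₀ hβ]; nlinarith)
  -- the point of the family with two parts
  obtain ⟨y, hy1, hy2, hya⟩ : ∃ y, β ≤ y ∧ y ≤ 1 ∧ -2 * y + (5 / 2) * y ^ 2 = a := by
    have hc : ContinuousOn (fun y : ℝ => -2 * y + (5 / 2) * y ^ 2) (Set.Icc β 1) := by
      fun_prop
    obtain ⟨y, hy, hya⟩ := intermediate_value_Icc (by linarith) hc
      (show a ∈ Set.Icc (-2 * β + (5 / 2) * β ^ 2) (-2 * 1 + (5 / 2) * 1 ^ 2) from
        ⟨by nlinarith, by linarith⟩)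
    exact ⟨y, hy.1, hy.2, hya⟩
  have hy0 : 0 < y := by linarith
  refine ⟨3 * (1 - y) * y ^ 2 * (1 + 1 / 2) - 3 * (1 - y) ^ 2 * y - 2 * (1 / 2) ^ 2 * y ^ 3,
    Or.inr (Or.inr ⟨1 / 2, 1 - y, y, Or.inr ⟨2, by norm_num, by norm_num⟩, by linarith,
      by linarith, by ring, by rw [← hya]; ring, rfl⟩), ?_⟩
  have hbr : 0 ≤ (y + β - 1) * (4 * y ^ 2 - 3 * β) + β * (6 * y - (15 / 2) * y ^ 2) +
      y ^ 3 / 2 + 8 * (y - β) * (y + β - 1) ^ 2 := by
    have hu : 0 ≤ y - β := sub_nonneg.2 hy1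
    have e : (y + β - 1) * (4 * y ^ 2 - 3 * β) + β * (6 * y - (15 / 2) * y ^ 2) +
        y ^ 3 / 2 + 8 * (y - β) * (y + β - 1) ^ 2 =
        β * (1 - β) * (3 - β) + (y - β) * ((77 / 2) * β ^ 2 - 37 * β + 8) +
        (y - β) ^ 2 * (42 * β - 20) + (25 / 2) * (y - β) ^ 3 := by ring
    have q1 : 0 ≤ β * (1 - β) * (3 - β) :=
      mul_nonneg (mul_nonneg hβ.le (by linarith)) (by linarith)
    have q2 : 0 ≤ (y - β) * ((77 / 2) * β ^ 2 - 37 * β + 8) :=
      mul_nonneg hu (by nlinarith)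
    have q3 : 0 ≤ (y - β) ^ 2 * (42 * β - 20) := mul_nonneg (sq_nonneg _) (by linarith)
    have q4 : 0 ≤ (25 / 2) * (y - β) ^ 3 := by positivity
    rw [e]
    linarith
  have hkey : β * b ≤ β * (3 * (1 - y) * y ^ 2 * (1 + 1 / 2) - 3 * (1 - y) ^ 2 * y -
      2 * (1 / 2) ^ 2 * y ^ 3) := by
    have e1 : (1 - β) * β * (3 - 2 * (4 * (a + 2 * (1 - β) * β) / β)) +
        (3 * (1 - β) - 4 * (a + 2 * (1 - β) * β) / β) * a +
        β * (4 * (a + 2 * (1 - β) * β) / β) ^ 2 / 8 =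
        3 * (1 - β) * β + 3 * (1 - β) * a - 2 * (a + 2 * (1 - β) * β) ^ 2 / β := by
      field_simp
      ring
    rw [e1] at hb
    have e2 : β * b ≤ β * (3 * (1 - β) * β + 3 * (1 - β) * a) -
        2 * (a + 2 * (1 - β) * β) ^ 2 := by
      have := mul_le_mul_of_nonneg_left hb hβ.le
      have e3 : β * (3 * (1 - β) * β + 3 * (1 - β) * a - 2 * (a + 2 * (1 - β) * β) ^ 2 / β) =
        β * (3 * (1 - β) * β + 3 * (1 - β) * a) - 2 * (a + 2 * (1 - β) * β) ^ 2 := by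
        field_simp
      rw [e3] at this
      exact this
    have e4 := mul_nonneg (sub_nonneg.2 hy1) hbr
    rw [← hya] at e2
    nlinarith [e4, e2]
  exact le_of_mul_le_mul_left hkey hβ

theorem zone_C4 (α β a b : ℝ) (h : α + β = 1) (hα : 0 < α) (h1 : 13 / 20 ≤ β)
    (hG : CI1 α β a b) (h3 : (47 / 80) * β ^ 2 ≤ a + 2 * α * β) (h4 : a ≤ 9 / 25) :
    Below a b := by
  obtain rfl : α = 1 - β := by linarith
  have hb := cz3_mu (1 - β) β a b ((47 / 20) * β) h hα h1 hG (by linarith) le_rfl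
  have hβ : 0 < β := by linarith
  have hβ1 : β < 1 := by linarith
  have hs : 0 ≤ (107 / 20) * β - 3 := by linarith
  -- the lowest possible value of `a`
  obtain ⟨a₀, ha₀⟩ : ∃ a₀, a₀ = (47 / 80) * β ^ 2 - 2 * (1 - β) * β := ⟨_, rfl⟩
  have haa : a₀ ≤ a := by rw [ha₀]; linarith
  have hB : ∀ t, t ≤ a → b ≤ (1 - β) * β * (3 - (47 / 10) * β) + (3 - (107 / 20) * β) * t +
      (2209 / 3200) * β ^ 3 := by
    intro t ht
    have := mul_nonneg hs (sub_nonneg.2 ht)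
    nlinarith [hb, this]
  have hup : -(21 / 100) ≤ a₀ := by rw [ha₀]; nlinarith
  have hβ13 : 0 ≤ β - 13 / 20 := by linarith
  have ha30 : a₀ ≤ 1 / 30 → (1 - β) * β * (3 - (47 / 10) * β) +
      (3 - (107 / 20) * β) * (1 / 30) + (2209 / 3200) * β ^ 3 ≤ 49 / 250 := by
    intro hc
    rw [ha₀] at hc
    have h79 : β ≤ 79 / 100 := by nlinarith
    nlinarith [mul_nonneg hβ13 (sub_nonneg.2 h79),
      mul_nonneg (mul_nonneg hβ13 (sub_nonneg.2 h79)) hβ.le]
  have hBa₀ : b ≤ -3 * β + (861 / 80) * β ^ 2 - (27049 / 3200) * β ^ 3 := by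
    have := hB a₀ haa
    rw [ha₀] at this
    nlinarith [this]
  rcases le_total a (1 / 30) with h30 | h30
  · have h31 := ha30 (haa.trans h30)
    rcases le_total a (-(2 / 25)) with h8 | h8
    · obtain ⟨c, hc, hc1⟩ := es_d1 a (by linarith) h8
      refine ⟨c, hc, le_trans ?_ hc1⟩
      have h9 := hB a le_rfl
      have h731 : β ≤ 731 / 1000 := by
        have := haa.trans h8
        rw [ha₀] at this
        nlinarith
      have h10 : -3 * β + (861 / 80) * β ^ 2 - (27049 / 3200) * β ^ 3 ≤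
          1437 / 5000 - (1619 / 5000) * (a₀ + 2 / 25) := by
        rw [ha₀]
        nlinarith [mul_nonneg hβ13 (sub_nonneg.2 h731),
          mul_nonneg (mul_nonneg hβ13 (sub_nonneg.2 h731)) hβ.le]
      have h11 : (1 - β) * β * (3 - (47 / 10) * β) + (3 - (107 / 20) * β) * a₀ +
        (2209 / 3200) * β ^ 3 = -3 * β + (861 / 80) * β ^ 2 - (27049 / 3200) * β ^ 3 := by
        rw [ha₀]; ring
      have h12 : 0 ≤ ((107 / 20) * β - 3 - 1619 / 5000) * (a - a₀) :=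
        mul_nonneg (by linarith) (sub_nonneg.2 haa)
      nlinarith [h9, h10, h11, h12]
    · obtain ⟨c, hc, hc1⟩ := es_d2 a h8 h30
      refine ⟨c, hc, le_trans ?_ hc1⟩
      have h9 := hB a le_rfl
      rcases lt_or_ge a₀ (1 / 30) with h6 | h6
      swap
      · have h7 : a = 1 / 30 := by linarith
        rw [h7] at h9 ⊢
        linarith
      -- a lower point `t` where the line is above
      obtain ⟨t, ht, ht1, ht2⟩ : ∃ t, t ≤ a ∧ t < 1 / 30 ∧
          (1 - β) * β * (3 - (47 / 10) * β) + (3 - (107 / 20) * β) * t + (2209 / 3200) * β ^ 3 ≤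
            49 / 250 - (1613 / 2000) * (t - 1 / 30) := by
        rcases le_total a₀ (-(2 / 25)) with h5 | h5
        · refine ⟨-(2 / 25), h8, by norm_num, ?_⟩
          have h731 : β ≤ 731 / 1000 := by
            rw [ha₀] at h5
            nlinarith
          nlinarith [mul_nonneg hβ13 (sub_nonneg.2 h731),
            mul_nonneg (mul_nonneg hβ13 (sub_nonneg.2 h731)) hβ.le]
        · refine ⟨a₀, haa, h6, ?_⟩
          rw [ha₀] at h5 h6 ⊢
          have h73 : 73 / 100 ≤ β := by nlinarith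
          have h79 : β ≤ 79 / 100 := by nlinarith
          nlinarith [mul_nonneg (sub_nonneg.2 h73) (sub_nonneg.2 h79),
            mul_nonneg (mul_nonneg (sub_nonneg.2 h73) (sub_nonneg.2 h79)) hβ.le]
      have hd : 0 < 1 / 30 - t := by linarith
      refine le_of_mul_le_mul_left ?_ hd
      have k1 := mul_le_mul_of_nonneg_left ht2 (sub_nonneg.2 h30)
      have k2 := mul_le_mul_of_nonneg_left h31 (sub_nonneg.2 ht)
      have k3 := mul_le_mul_of_nonneg_left h9 hd.le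
      linarith
  · obtain ⟨c, hc, hc1⟩ := es_1 a h30 h4
    refine ⟨c, hc, le_trans ?_ hc1⟩
    have : b ≤ 49 / 250 := by
      rcases le_total a₀ (1 / 30) with h5 | h5
      · exact (hB (1 / 30) h30).trans (ha30 h5)
      · refine hBa₀.trans ?_
        rw [ha₀] at h5
        have h78 : 78 / 100 ≤ β := by nlinarith
        nlinarith [mul_nonneg (sub_nonneg.2 h78) (sub_nonneg.2 hβ1.le),
              mul_nonneg (mul_nonneg (sub_nonneg.2 h78) (sub_nonneg.2 hβ1.le)) hβ.le]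
    linarith

end Pool.H3F
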