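import Pool.Agent.H3F.GDefs
import Pool.Agent.H3F.ES2

/-! CZ5: the zone `14 / 25 ≤ β ≤ 13 / 20`. -/

namespace Pool.H3F

private theorem cz5_mono {a b b' : ℝ} (h : Below a b) (hb : b' ≤ b) : Below a b' := by
  obtain ⟨c, hc, hbc⟩ := h
  exact ⟨c, hc, hb.trans hbc⟩

private theorem cz5_gen (α β a b μ S : ℝ) (hα : 0 < α) (hβ : 0 ≤ β) (hG : CI1 α β a b)
    (hμ : (3 / 2) * α ≤ μ) (hμ1 : μ ≤ α / 2 + 3 * β)
    (hS : ∀ v, 0 ≤ v → v ≤ α →
      v * (β * ((5 / 4) * μ - 3 * β) + (μ - (3 / 2) * α - (15 / 8) * β) * v + v ^ 2 / 2) ≤ S) :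
    b ≤ α * β * (3 - 2 * μ) + (3 * α - μ) * a + (β * μ ^ 2 / 8 + S) := by
  refine hG μ _ hμ hμ1 ?_
  intro v hv hvα
  have h1 : (max (μ - 3 * v) 0) ^ 2 ≤ (μ - 3 * v) ^ 2 := by
    rcases le_total (μ - 3 * v) 0 with h | h
    · rw [max_eq_right h]
      nlinarith [sq_nonneg (μ - 3 * v)]
    · rw [max_eq_left h]
  have h2 : v ^ 4 / (2 * α) ≤ v ^ 3 / 2 := by
    rw [div_le_iff₀ (by positivity)]
    have h3 : v ^ 4 ≤ v ^ 3 * α := by
      have : v ^ 4 = v ^ 3 * v := by ring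
      rw [this]
      exact mul_le_mul_of_nonneg_left hvα (by positivity)
    linarith
  have h3 := hS v hv hvα
  have h4 : β * (max (μ - 3 * v) 0) ^ 2 / 8 ≤ β * (μ - 3 * v) ^ 2 / 8 := by
    have := mul_le_mul_of_nonneg_left h1 hβ
    linarith
  have h5 : β * (μ - 3 * v) ^ 2 / 8 + β * (2 * μ - 3 * β) * v +
      (μ - (3 / 2) * α - 3 * β) * v ^ 2 + v ^ 3 / 2 = β * μ ^ 2 / 8 +
      v * (β * ((5 / 4) * μ - 3 * β) + (μ - (3 / 2) * α - (15 / 8) * β) * v + v ^ 2 / 2) := by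
    ring
  linarith

/-- Interpolation between two values. -/
private theorem cz5_lin (a l u c0 c1 d0 d1 : ℝ) (h1 : l ≤ a) (h2 : a ≤ u) (hlu : l < u)
    (hl : c0 + c1 * l ≤ d0 + d1 * l) (hu : c0 + c1 * u ≤ d0 + d1 * u) :
    c0 + c1 * a ≤ d0 + d1 * a := by
  have e1 := mul_nonneg (sub_nonneg.mpr h2) (sub_nonneg.mpr hl)
  have e2 := mul_nonneg (sub_nonneg.mpr h1) (sub_nonneg.mpr hu)
  have e3 : 0 ≤ (u - l) * ((d0 + d1 * a) - (c0 + c1 * a)) := by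
    linarith
  have e4 : 0 < u - l := by linarith
  have := nonneg_of_mul_nonneg_right e3 e4
  linarith

/-- A cubic with nonnegative Bernstein coefficients. -/
private theorem cz5_bern (l u t p0 p1 p2 p3 : ℝ) (h1 : l ≤ t) (h2 : t ≤ u)
    (h0 : 0 ≤ p0) (h3 : 0 ≤ p1) (h4 : 0 ≤ p2) (h5 : 0 ≤ p3) :
    0 ≤ p0 * (u - t) ^ 3 + p1 * ((u - t) ^ 2 * (t - l)) + p2 * ((u - t) * (t - l) ^ 2) +
      p3 * (t - l) ^ 3 := by
  have k1 : 0 ≤ t - l := by linarith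
  have k2 : 0 ≤ u - t := by linarith
  positivity

private theorem cz5_pos (l u t : ℝ) (h1 : l ≤ t) (h2 : t ≤ u) :
    0 ≤ (u - t) ^ 3 ∧ 0 ≤ (u - t) ^ 2 * (t - l) ∧ 0 ≤ (u - t) * (t - l) ^ 2 ∧
      0 ≤ (t - l) ^ 3 := by
  have k1 : 0 ≤ t - l := by linarith
  have k2 : 0 ≤ u - t := by linarith
  refine ⟨by positivity, by positivity, by positivity, by positivity⟩

private theorem cz5_a1 (β : ℝ) (h1 : 14 / 25 ≤ β) (h2 : β ≤ 13 / 20) :
    3 * (1 - β) * β ^ 2 - (27 / 50) * (1 - β) + (9 / 32) * (1 - β) ^ 2 * β ≤ 571 / 2000 := by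
  obtain ⟨b1, b2, b3, b4⟩ := cz5_pos _ _ _ h1 h2
  linarith

private theorem cz5_b1 (β : ℝ) (h1 : 14 / 25 ≤ β) (h2 : β ≤ 13 / 20) :
    (3 * (1 - β) ^ 2 * β + (9 / 32) * β ^ 3) + (3 * (1 - β) - (3 / 2) * β) * (-(9 / 25)) ≤
      (1477 / 5000 + (7 / 20) * (9 / 25)) + (7 / 20) * (-(9 / 25)) := by
  obtain ⟨b1, b2, b3, b4⟩ := cz5_pos _ _ _ h1 h2
  linarith

private theorem cz5_b2 (β : ℝ) (h1 : 14 / 25 ≤ β) (h2 : β ≤ 13 / 20) :
    (3 * (1 - β) ^ 2 * β + (9 / 32) * β ^ 3) + (3 * (1 - β) - (3 / 2) * β) * (-(7 / 25)) ≤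
      (1477 / 5000 + (7 / 20) * (9 / 25)) + (7 / 20) * (-(7 / 25)) := by
  obtain ⟨b1, b2, b3, b4⟩ := cz5_pos _ _ _ h1 h2
  linarith

private theorem cz5_b3 (β : ℝ) (h1 : 14 / 25 ≤ β) (h2 : β ≤ 13 / 20) :
    (3 * (1 - β) ^ 2 * β + (9 / 32) * β ^ 3) + (3 * (1 - β) - (3 / 2) * β) * (-(7 / 25)) ≤
      63 / 200 + 0 * (-(7 / 25)) := by
  obtain ⟨b1, b2, b3, b4⟩ := cz5_pos _ _ _ h1 h2
  linarith

private theorem cz5_b4 (β : ℝ) (h1 : 14 / 25 ≤ β) (h2 : β ≤ 13 / 20) :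
    (3 * (1 - β) ^ 2 * β + (9 / 32) * β ^ 3) + (3 * (1 - β) - (3 / 2) * β) * (-(4 / 25)) ≤
      63 / 200 + 0 * (-(4 / 25)) := by
  obtain ⟨b1, b2, b3, b4⟩ := cz5_pos _ _ _ h1 h2
  linarith

private theorem cz5_c1 (β : ℝ) (h1 : 14 / 25 ≤ β) (h2 : β ≤ 23 / 40) :
    ((1 - β) * β * (3 - 5 * β) + (25 / 32) * β ^ 3 + 1 / 125) +
      (3 * (1 - β) - (5 / 2) * β) * (-(4 / 25)) ≤
      (1437 / 5000 - (1619 / 5000) * (2 / 25)) + (-(1619 / 5000)) * (-(4 / 25)) := by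
  obtain ⟨b1, b2, b3, b4⟩ := cz5_pos _ _ _ h1 h2
  linarith

private theorem cz5_c2 (β : ℝ) (h1 : 14 / 25 ≤ β) (h2 : β ≤ 23 / 40) :
    ((1 - β) * β * (3 - 5 * β) + (25 / 32) * β ^ 3 + 1 / 125) +
      (3 * (1 - β) - (5 / 2) * β) * (-(2 / 25)) ≤ 287 / 1000 := by
  obtain ⟨b1, b2, b3, b4⟩ := cz5_pos _ _ _ h1 h2
  linarith

private theorem cz5_c3 (β : ℝ) (h1 : 14 / 25 ≤ β) (h2 : β ≤ 23 / 40) :
    ((1 - β) * β * (3 - 5 * β) + (25 / 32) * β ^ 3 + 1 / 125) +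
      (3 * (1 - β) - (5 / 2) * β) * (1 / 30) ≤ 49 / 250 := by
  obtain ⟨b1, b2, b3, b4⟩ := cz5_pos _ _ _ h1 h2
  linarith

private theorem cz5_d1 (β : ℝ) (h1 : 23 / 40 ≤ β) (h2 : β ≤ 13 / 20) :
    ((1 - β) * β * (3 - (24 / 5) * β) + (18 / 25) * β ^ 3) +
      (3 * (1 - β) - (12 / 5) * β) * (-(4 / 25)) ≤
      (1437 / 5000 - (1619 / 5000) * (2 / 25)) + (-(1619 / 5000)) * (-(4 / 25)) := by
  obtain ⟨b1, b2, b3, b4⟩ := cz5_pos _ _ _ h1 h2
  linarith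

private theorem cz5_d2 (β : ℝ) (h1 : 23 / 40 ≤ β) (h2 : β ≤ 13 / 20) :
    ((1 - β) * β * (3 - (24 / 5) * β) + (18 / 25) * β ^ 3) +
      (3 * (1 - β) - (12 / 5) * β) * (-(2 / 25)) ≤ 287 / 1000 := by
  obtain ⟨b1, b2, b3, b4⟩ := cz5_pos _ _ _ h1 h2
  linarith

private theorem cz5_d3 (β : ℝ) (h1 : 23 / 40 ≤ β) (h2 : β ≤ 13 / 20) :
    ((1 - β) * β * (3 - (24 / 5) * β) + (18 / 25) * β ^ 3) +
      (3 * (1 - β) - (12 / 5) * β) * (1 / 30) ≤ 49 / 250 := by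
  obtain ⟨b1, b2, b3, b4⟩ := cz5_pos _ _ _ h1 h2
  linarith

private theorem cz5_v (v : ℝ) (hv : 0 ≤ v) (hv1 : v ≤ 11 / 25) :
    v * (1323 / 32000) - (89 / 320) * v ^ 2 + v ^ 3 / 2 ≤ 1 / 125 := by
  rcases le_total v (1 / 5) with h | h
  · obtain ⟨b1, b2, b3, b4⟩ := cz5_pos _ _ _ hv h
    linarith
  · obtain ⟨b1, b2, b3, b4⟩ := cz5_pos _ _ _ h hv1
    linarith

/-- The end of the argument for the two large multipliers. -/
private theorem cz5_end (a b c0 c1 : ℝ) (h1 : -(4 / 25) ≤ a) (h4 : a ≤ 9 / 25) (hc1 : c1 ≤ 0)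
    (hb : b ≤ c0 + c1 * a)
    (e1 : c0 + c1 * (-(4 / 25)) ≤
      (1437 / 5000 - (1619 / 5000) * (2 / 25)) + (-(1619 / 5000)) * (-(4 / 25)))
    (e2 : c0 + c1 * (-(2 / 25)) ≤ 287 / 1000)
    (e3 : c0 + c1 * (1 / 30) ≤ 49 / 250) : Below a b := by
  rcases le_total a (-(2 / 25)) with hc | hc
  · refine cz5_mono (es_d1 a (by linarith) hc) (hb.trans ?_)
    have := cz5_lin a (-(4 / 25)) (-(2 / 25)) c0 c1
      (1437 / 5000 - (1619 / 5000) * (2 / 25)) (-(1619 / 5000)) h1 hc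
      (by norm_num) e1 (by linarith)
    linarith
  rcases le_total a (1 / 30) with hd | hd
  · refine cz5_mono (es_d2 a hc hd) (hb.trans ?_)
    have := cz5_lin a (-(2 / 25)) (1 / 30) c0 c1
      (49 / 250 + (1613 / 2000) * (1 / 30)) (-(1613 / 2000)) hc hd
      (by norm_num) (by linarith) (by linarith)
    linarith
  · refine cz5_mono (es_1 a hd h4) (hb.trans ?_)
    have e2 : 0 ≤ -c1 * (a - 1 / 30) := mul_nonneg (by linarith) (by linarith)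
    linarith

theorem zone_C5 (α β a b : ℝ) (h : α + β = 1) (h1 : 14 / 25 ≤ β) (h2 : β ≤ 13 / 20)
    (hG : CI1 α β a b) (h3 : 1 - √2 ≤ a) (h4 : a ≤ 9 / 25) : Below a b := by
  obtain rfl : α = 1 - β := by linarith
  have hα : 0 < 1 - β := by linarith
  have hβ : 0 ≤ β := by linarith
  rcases le_total a (-(9 / 25)) with ha | ha
  · -- first range
    have hb := cz5_gen (1 - β) β a b ((3 / 2) * (1 - β)) 0 hα hβ hG le_rfl (by linarith) (by
      intro v hv hvα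
      have : β * ((5 / 4) * ((3 / 2) * (1 - β)) - 3 * β) +
          ((3 / 2) * (1 - β) - (3 / 2) * (1 - β) - (15 / 8) * β) * v + v ^ 2 / 2 ≤ 0 := by
        have f1 : 0 ≤ β * (3 * β - (15 / 8) * (1 - β)) := mul_nonneg hβ (by linarith)
        have f2 : 0 ≤ v * ((15 / 8) * β - v / 2) := mul_nonneg hv (by linarith)
        linarith
      exact mul_nonpos_of_nonneg_of_nonpos hv this)
    refine cz5_mono (es_a a h3 ha) (hb.trans ?_)
    have e1 := cz5_a1 β h1 h2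
    have e2 : 0 ≤ ((3 / 2) * (1 - β) - 13 / 25) * (-(9 / 25) - a) :=
      mul_nonneg (by linarith) (by linarith)
    linarith
  rcases le_total a (-(4 / 25)) with ha' | ha'
  · -- second range
    have hb := cz5_gen (1 - β) β a b ((3 / 2) * β) 0 hα hβ hG (by linarith) (by linarith) (by
      intro v hv hvα
      have : β * ((5 / 4) * ((3 / 2) * β) - 3 * β) +
          ((3 / 2) * β - (3 / 2) * (1 - β) - (15 / 8) * β) * v + v ^ 2 / 2 ≤ 0 := by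
        have f1 : 0 ≤ β * β := mul_nonneg hβ hβ
        have f2 : 0 ≤ v * ((3 / 2) * (1 - β) + (3 / 8) * β - v / 2) :=
          mul_nonneg hv (by linarith)
        linarith
      exact mul_nonpos_of_nonneg_of_nonpos hv this)
    have hb' : b ≤ (3 * (1 - β) ^ 2 * β + (9 / 32) * β ^ 3) + (3 * (1 - β) - (3 / 2) * β) * a := by
      linarith
    rcases le_total a (-(7 / 25)) with hc | hc
    · refine cz5_mono (es_b a ha hc) (hb'.trans ?_)
      have := cz5_lin a (-(9 / 25)) (-(7 / 25)) (3 * (1 - β) ^ 2 * β + (9 / 32) * β ^ 3)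
        (3 * (1 - β) - (3 / 2) * β) (1477 / 5000 + (7 / 20) * (9 / 25)) (7 / 20) ha hc
        (by norm_num) (cz5_b1 β h1 h2) (cz5_b2 β h1 h2)
      linarith
    · refine cz5_mono (es_c a hc ha') (hb'.trans ?_)
      have := cz5_lin a (-(7 / 25)) (-(4 / 25)) (3 * (1 - β) ^ 2 * β + (9 / 32) * β ^ 3)
        (3 * (1 - β) - (3 / 2) * β) (63 / 200) 0 hc ha'
        (by norm_num) (cz5_b3 β h1 h2) (cz5_b4 β h1 h2)
      linarith
  rcases le_total β (23 / 40) with hβ1 | hβ1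
  · -- multiplier `5 β / 2`
    have hb := cz5_gen (1 - β) β a b ((5 / 2) * β) (1 / 125) hα hβ hG (by linarith) (by linarith)
      (by
        intro v hv hvα
        have e1 : v * (β * ((5 / 4) * ((5 / 2) * β) - 3 * β)) ≤ v * (1323 / 32000) := by
          refine mul_le_mul_of_nonneg_left ?_ hv
          have : 0 ≤ (23 / 40 - β) * (23 / 40 + β) := mul_nonneg (by linarith) (by linarith)
          linarith
        have e2 : v ^ 2 * ((5 / 2) * β - (3 / 2) * (1 - β) - (15 / 8) * β) ≤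
            v ^ 2 * (-(89 / 320)) :=
          mul_le_mul_of_nonneg_left (by linarith) (by positivity)
        have e3 := cz5_v v hv (by linarith)
        linarith)
    refine cz5_end a b ((1 - β) * β * (3 - 5 * β) + (25 / 32) * β ^ 3 + 1 / 125)
      (3 * (1 - β) - (5 / 2) * β) ha' h4 (by linarith) (by linarith) (cz5_c1 β h1 hβ1)
      (cz5_c2 β h1 hβ1) (cz5_c3 β h1 hβ1)
  · -- multiplier `12 β / 5`
    have hb := cz5_gen (1 - β) β a b ((12 / 5) * β) 0 hα hβ hG (by linarith) (by linarith)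
      (by
        intro v hv hvα
        have : β * ((5 / 4) * ((12 / 5) * β) - 3 * β) +
            ((12 / 5) * β - (3 / 2) * (1 - β) - (15 / 8) * β) * v + v ^ 2 / 2 ≤ 0 := by
          have f2 : 0 ≤ v * ((3 / 2) * (1 - β) - (21 / 40) * β - v / 2) :=
            mul_nonneg hv (by linarith)
          linarith
        exact mul_nonpos_of_nonneg_of_nonpos hv this)
    refine cz5_end a b ((1 - β) * β * (3 - (24 / 5) * β) + (18 / 25) * β ^ 3)
      (3 * (1 - β) - (12 / 5) * β) ha' h4 (by linarith) (by linarith) (cz5_d1 β hβ1 h2)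
      (cz5_d2 β hβ1 h2) (cz5_d3 β hβ1 h2)

end Pool.H3F
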