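import Pool.Agent.H3F.Rank

/-! Components of `{d > k}`. -/

namespace Pool.H3F

open Finset

namespace CompAux

open Shadow

variable {n : ℕ} {S : Shadow n} {d : Fin (n + 2) → ℕ}

theorem adjK_symm {k : ℕ} {f g : Fin (n + 2)} (h : S.AdjK d k f g) : S.AdjK d k g f := by
  obtain ⟨h1, h2, j, h3⟩ := h
  exact ⟨h2, h1, j, h3.symm⟩

theorem comp_symm {k : ℕ} {f g : Fin (n + 2)} (h : g ∈ S.comp d k f) : f ∈ S.comp d k g := by
  have h' : Relation.ReflTransGen (S.AdjK d k) f g := h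
  show Relation.ReflTransGen (S.AdjK d k) g f
  induction h' with
  | refl => exact .refl
  | tail _ h2 ih => exact Relation.ReflTransGen.head (adjK_symm h2) (ih (by assumption))

end CompAux

namespace Shadow

variable {n : ℕ} {S : Shadow n} {d : Fin (n + 2) → ℕ}

theorem IsRank.comp_self (f : Fin (n + 2)) (k : ℕ) : f ∈ S.comp d k f :=
  Relation.ReflTransGen.refl

theorem IsRank.comp_gt (h : S.IsRank d) {k : ℕ} {f g : Fin (n + 2)} (hk : k < d f)
    (hg : g ∈ S.comp d k f) : k < d g := by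
  have hg' : Relation.ReflTransGen (S.AdjK d k) f g := hg
  cases hg' with
  | refl => exact hk
  | tail _ h2 => exact h2.2.1

theorem IsRank.comp_eq (h : S.IsRank d) {k : ℕ} {f g : Fin (n + 2)} (hk : k < d f)
    (hg : g ∈ S.comp d k f) : S.comp d k g = S.comp d k f := by
  ext x
  constructor
  · intro hx
    exact Relation.ReflTransGen.trans hg hx
  · intro hx
    exact Relation.ReflTransGen.trans (CompAux.comp_symm hg) hx

/-- Components for a higher level are smaller. -/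
theorem IsRank.comp_anti (h : S.IsRank d) {k k' : ℕ} {f : Fin (n + 2)} (hkk : k ≤ k')
    (hk : k' < d f) : S.comp d k' f ⊆ S.comp d k f := by
  intro x hx
  refine Relation.ReflTransGen.mono ?_ _ _ hx
  rintro a b ⟨h1, h2, h3⟩
  exact ⟨lt_of_le_of_lt hkk h1, lt_of_le_of_lt hkk h2, h3⟩

/-- An edge with a side in the component whose other side is above level `k` stays inside. -/
theorem IsRank.comp_adj (h : S.IsRank d) {k : ℕ} {f : Fin (n + 2)} (hk : k < d f)
    (j : ZMod (2 * n)) : (S.L j ∈ S.comp d k f → k < d (S.R j) → S.R j ∈ S.comp d k f) ∧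
      (S.R j ∈ S.comp d k f → k < d (S.L j) → S.L j ∈ S.comp d k f) := by
  constructor
  · intro h1 h2
    exact Relation.ReflTransGen.tail h1 ⟨h.comp_gt hk h1, h2, j, Or.inl ⟨rfl, rfl⟩⟩
  · intro h1 h2
    exact Relation.ReflTransGen.tail h1 ⟨h.comp_gt hk h1, h2, j, Or.inr ⟨rfl, rfl⟩⟩

theorem IsRank.comp_const {α : Type} (h : S.IsRank d) {k : ℕ} {f : Fin (n + 2)} (hk : k < d f)
    (I : Fin (n + 2) → α)
    (hI : ∀ j, S.L j ∈ S.comp d k f → S.R j ∈ S.comp d k f → I (S.L j) = I (S.R j))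
    {g g' : Fin (n + 2)} (hg : g ∈ S.comp d k f) (hg' : g' ∈ S.comp d k f) : I g = I g' := by
  have key : ∀ x, Relation.ReflTransGen (S.AdjK d k) f x → I x = I f := by
    intro x hx
    induction hx with
    | refl => rfl
    | @tail b c h1 h2 ih =>
      obtain ⟨h3, h4, j, ⟨rfl, rfl⟩ | ⟨rfl, rfl⟩⟩ := h2
      · rw [← ih]
        exact (hI j h1 (Relation.ReflTransGen.tail h1 ⟨h3, h4, j, Or.inl ⟨rfl, rfl⟩⟩)).symm
      · rw [← ih]
        exact hI j (Relation.ReflTransGen.tail h1 ⟨h3, h4, j, Or.inr ⟨rfl, rfl⟩⟩) h1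
  rw [key g hg, key g' hg']

theorem IsRank.compl_const {α : Type} (h : S.IsRank d) {k : ℕ} {f : Fin (n + 2)}
    (hk : k < d f) (I : Fin (n + 2) → α)
    (hI : ∀ j, S.L j ∉ S.comp d k f → S.R j ∉ S.comp d k f → I (S.L j) = I (S.R j))
    {g g' : Fin (n + 2)} (hg : g ∉ S.comp d k f) (hg' : g' ∉ S.comp d k f) : I g = I g' := by
  have key : ∀ m, ∀ x, d x = m → x ∉ S.comp d k f → I x = I (S.L (-1)) := by
    intro m
    induction m using Nat.strong_induction_on with
    | _ m ih =>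
      intro x hx hxU
      by_cases h0 : d x = 0
      · rw [(h.zero x).1 h0]
      · obtain ⟨j, ⟨rfl, h2⟩ | ⟨rfl, h2⟩⟩ := h.desc x h0
        · have hR : S.R j ∉ S.comp d k f := by
            intro hR
            have := h.comp_gt hk hR
            exact hxU ((h.comp_adj hk j).2 hR (by omega))
          rw [hI j hxU hR]
          exact ih _ (by omega) _ rfl hR
        · have hL : S.L j ∉ S.comp d k f := by
            intro hL
            have := h.comp_gt hk hL
            exact hxU ((h.comp_adj hk j).1 hL (by omega))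
          rw [← hI j hL hxU]
          exact ih _ (by omega) _ rfl hL
  rw [key _ g rfl hg, key _ g' rfl hg']

/-- The two sides of a boundary edge are at levels `k + 1` (inside) and `k` (outside). -/
theorem IsRank.bd_lev (h : S.IsRank d) {k : ℕ} {f : Fin (n + 2)} (hk : k < d f)
    (j : ZMod (2 * n)) (hj : j ∈ S.bd (S.comp d k f)) :
    (S.L j ∈ S.comp d k f ∧ d (S.L j) = k + 1 ∧ d (S.R j) = k) ∨
      (S.R j ∈ S.comp d k f ∧ d (S.R j) = k + 1 ∧ d (S.L j) = k) := by
  rcases hj with ⟨h1, h2⟩ | ⟨h1, h2⟩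
  · left
    have h3 := h.comp_gt hk h1
    have h4 : ¬ k < d (S.R j) := fun h5 => h2 ((h.comp_adj hk j).1 h1 h5)
    have h5 := h.lipL j
    exact ⟨h1, by omega, by omega⟩
  · right
    have h3 := h.comp_gt hk h2
    have h4 : ¬ k < d (S.L j) := fun h5 => h1 ((h.comp_adj hk j).2 h2 h5)
    have h5 := h.lipR j
    exact ⟨h2, by omega, by omega⟩

theorem IsRank.bd_nonempty [NeZero n] (h : S.IsRank d) {k : ℕ} {f : Fin (n + 2)}
    (hk : k < d f) : (S.bd (S.comp d k f)).Nonempty := by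
  have key : ∀ m, ∀ x, d x = m → x ∈ S.comp d k f → (S.bd (S.comp d k f)).Nonempty := by
    intro m
    induction m using Nat.strong_induction_on with
    | _ m ih =>
      intro x hx hxU
      have hgt := h.comp_gt hk hxU
      obtain ⟨j, ⟨rfl, h2⟩ | ⟨rfl, h2⟩⟩ := h.desc x (by omega)
      · by_cases hR : S.R j ∈ S.comp d k f
        · exact ih _ (by omega) _ rfl hR
        · exact ⟨j, Or.inl ⟨hxU, hR⟩⟩
      · by_cases hL : S.L j ∈ S.comp d k f
        · exact ih _ (by omega) _ rfl hL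
        · exact ⟨j, Or.inr ⟨hL, hxU⟩⟩
  exact key _ f rfl (IsRank.comp_self f k)

theorem IsRank.bd_card [NeZero n] (h : S.IsRank d) {k : ℕ} {f : Fin (n + 2)} (hk : k < d f) :
    (S.bd (S.comp d k f)).ncard ≤ S.lev d k := by
  unfold lev
  refine Set.ncard_le_ncard ?_ (Set.toFinite _)
  intro j hj
  rcases h.bd_lev hk j hj with ⟨_, h2, h3⟩ | ⟨_, h2, h3⟩
  · exact Or.inr ⟨h2, h3⟩
  · exact Or.inl ⟨h3, h2⟩

open Classical in
/-- There are at most `lev d k` components of `{d > k}`. -/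
theorem IsRank.card_comp [NeZero n] (h : S.IsRank d) (k : ℕ) :
    {U : Set (Fin (n + 2)) | ∃ f, k < d f ∧ U = S.comp d k f}.ncard ≤ S.lev d k := by
  unfold lev
  refine Set.ncard_le_ncard_of_injOn
    (fun U => if hU : (S.bd U).Nonempty then hU.some else 0) ?_ ?_ (Set.toFinite _)
  · rintro U ⟨f, hf, rfl⟩
    have hne := h.bd_nonempty hf
    simp only [hne, dif_pos]
    rcases h.bd_lev hf _ hne.some_mem with ⟨_, h2, h3⟩ | ⟨_, h2, h3⟩
    · exact Or.inr ⟨h2, h3⟩
    · exact Or.inl ⟨h3, h2⟩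
  · rintro U ⟨f, hf, rfl⟩ V ⟨g, hg, rfl⟩ hUV
    have hne := h.bd_nonempty hf
    have hne' := h.bd_nonempty hg
    simp only [hne, hne', dif_pos] at hUV
    have h1 := h.bd_lev hf _ hne.some_mem
    have h2 := h.bd_lev hg _ hne'.some_mem
    rw [← hUV] at h2
    rcases h1 with ⟨a1, a2, a3⟩ | ⟨a1, a2, a3⟩ <;> rcases h2 with ⟨b1, b2, b3⟩ | ⟨b1, b2, b3⟩
    · rw [← h.comp_eq hf a1, ← h.comp_eq hg b1]
    · omega
    · omega
    · rw [← h.comp_eq hf a1, ← h.comp_eq hg b1]

/-- A boundary passage is incident to a boundary edge. -/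
theorem bv_edge (U : Set (Fin (n + 2))) (j : ZMod (2 * n)) (hj : j ∈ S.bv U) :
    j ∈ S.bd U ∨ j - 1 ∈ S.bd U ∨ S.star j ∈ S.bd U ∨ S.star j - 1 ∈ S.bd U := by
  by_contra hcon
  push Not at hcon
  obtain ⟨h1, h2, h3, h4⟩ := hcon
  have key : ∀ t : ZMod (2 * n), t ∉ S.bd U → (S.L t ∈ U ↔ S.R t ∈ U) := by
    intro t ht
    by_cases hL : S.L t ∈ U
    · by_cases hR : S.R t ∈ U
      · exact ⟨fun _ => hR, fun _ => hL⟩
      · exact absurd (Or.inl ⟨hL, hR⟩) ht
    · by_cases hR : S.R t ∈ U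
      · exact absurd (Or.inr ⟨hL, hR⟩) ht
      · exact ⟨fun h => absurd h hL, fun h => absurd h hR⟩
  have e1 := key _ h1
  have e2 := key _ h2
  have e3 := key _ h3
  have e4 := key _ h4
  have e5 : S.L (j - 1) ∈ U ↔ S.L j ∈ U := by
    rcases S.consecL j with ⟨_, h5, h6⟩ | ⟨_, h5, h6⟩
    · rw [h5, h6]; exact e3
    · rw [h5, h6]; exact e4.symm
  obtain ⟨h7, h8⟩ := hj
  tauto

theorem bv_star (U : Set (Fin (n + 2))) (j : ZMod (2 * n)) :
    S.star j ∈ S.bv U ↔ j ∈ S.bv U := by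
  have h := S.corners_star (· ∈ U) j
  exact (and_congr h.1 (not_congr h.2)).symm

theorem iv_star (U : Set (Fin (n + 2))) (j : ZMod (2 * n)) :
    S.star j ∈ S.iv U ↔ j ∈ S.iv U :=
  (S.corners_star (· ∈ U) j).2.symm

/-- Passages on the boundary: there are at most four times as many as boundary edges. -/
theorem bv_card [NeZero n] (U : Set (Fin (n + 2))) : (S.bv U).ncard ≤ 4 * (S.bd U).ncard := by
  have hsub : S.bv U ⊆ ((S.bd U ∪ (· + 1) '' S.bd U) ∪ S.star '' S.bd U) ∪
      S.star '' ((· + 1) '' S.bd U) := by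
    intro j hj
    rcases bv_edge U j hj with h | h | h | h
    · exact Or.inl (Or.inl (Or.inl h))
    · exact Or.inl (Or.inl (Or.inr ⟨j - 1, h, by simp⟩))
    · exact Or.inl (Or.inr ⟨_, h, S.star_star j⟩)
    · exact Or.inr ⟨S.star j, ⟨_, h, by simp⟩, S.star_star j⟩
  have h1 := Set.ncard_le_ncard hsub (Set.toFinite _)
  have h2 := Set.ncard_union_le ((S.bd U ∪ (· + 1) '' S.bd U) ∪ S.star '' S.bd U)
    (S.star '' ((· + 1) '' S.bd U))
  have h3 := Set.ncard_union_le (S.bd U ∪ (· + 1) '' S.bd U) (S.star '' S.bd U)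
  have h4 := Set.ncard_union_le (S.bd U) ((· + 1) '' S.bd U)
  have h5 := Set.ncard_image_le (f := (· + 1)) (Set.toFinite (S.bd U))
  have h6 := Set.ncard_image_le (f := S.star) (Set.toFinite (S.bd U))
  have h7 := Set.ncard_image_le (f := S.star) (Set.toFinite ((· + 1) '' S.bd U))
  omega

/-- The end points of a boundary edge are boundary passages. -/
theorem bd_bv (U : Set (Fin (n + 2))) (j : ZMod (2 * n)) (hj : j ∈ S.bd U) :
    j ∈ S.bv U ∧ j + 1 ∈ S.bv U := by
  have e : j + 1 - 1 = j := by ring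
  unfold bv bd at *
  simp only [Set.mem_ofPred_eq, e] at *
  tauto

end Shadow

end Pool.H3F
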