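import Mathlib

/-! Definitions for the region of the normalised Vassiliev invariants of degree 2 and 3.

A planar knot diagram with `n` crossings is recorded by its Gauss code, the signs of the
crossings and a labelling of the two sides of every edge by faces. -/

namespace Pool.H3F

open Finset

/-- A diagram, with `n` crossings, of an oriented knot in the plane (or sphere).  The `2 n`
passages through crossings are numbered by `ZMod (2 n)` in the order in which they are met when
one travels along the knot; crossing `c` is met at time `ov c` on the upper strand and at time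
`un c` on the lower strand.  `sgn c` is the sign of the crossing.  The edge `j` leads from
passage `j` to passage `j + 1`; `left j` and `right j` are the faces of the diagram on its left
and on its right.  `corner` says that the four corners at a crossing lie in the faces they have
to lie in: if `p` and `q` are the two passages, in the order for which the strand at `q` crosses
the strand at `p` from right to left, then the corners are `left p = right q`,
`left (p - 1) = left q`, `right (p - 1) = left (q - 1)` and `right p = right (q - 1)`.  Since all
`n + 2` face labels are used, the surface obtained by glueing discs has Euler characteristic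
`n - 2 n + (n + 2) = 2`: the diagram is planar. -/
structure KnotDiagram (n : ℕ) where
  ov : Fin n → ZMod (2 * n)
  un : Fin n → ZMod (2 * n)
  bij : Function.Bijective (Sum.elim ov un)
  sgn : Fin n → ℤ
  sgn_pm : ∀ c, sgn c = 1 ∨ sgn c = -1
  left : ZMod (2 * n) → Fin (n + 2)
  right : ZMod (2 * n) → Fin (n + 2)
  surj : ∀ f, ∃ j, left j = f ∨ right j = f
  corner : ∀ c p q, (sgn c = 1 ∧ p = ov c ∧ q = un c) ∨
      (sgn c = -1 ∧ p = un c ∧ q = ov c) →
    left p = right q ∧ left (p - 1) = left q ∧ right (p - 1) = left (q - 1) ∧
      right p = right (q - 1)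

namespace KnotDiagram

variable {n : ℕ} (D : KnotDiagram n)

/-- Time of the first passage through crossing `c` (the base point is on the edge that leads
from passage `2 n - 1` to passage `0`). -/
def fst (c : Fin n) : ℕ := min (D.ov c).val (D.un c).val

/-- Time of the second passage through crossing `c`. -/
def snd (c : Fin n) : ℕ := max (D.ov c).val (D.un c).val

/-- The first passage through `c` is the overpass. -/
def OverFirst (c : Fin n) : Prop := (D.ov c).val < (D.un c).val

/-- The chords of `c` and `d` are interleaved, and `c` is met first. -/
def Cr (c d : Fin n) : Prop := D.fst c < D.fst d ∧ D.fst d < D.snd c ∧ D.snd c < D.snd d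

/-- The chords of `c` and `d` are interleaved. -/
def Inter (c d : Fin n) : Prop := D.Cr c d ∨ D.Cr d c

/-- One of the chords lies inside the other. -/
def Nested (c d : Fin n) : Prop :=
  (D.fst c < D.fst d ∧ D.snd d < D.snd c) ∨ (D.fst d < D.fst c ∧ D.snd c < D.snd d)

open Classical in
/-- The Vassiliev invariant of degree 2: the average of the two Polyak-Viro formulas (sum of
`sgn c * sgn d` over interleaved pairs met for the first time on the upper strand at `c` and on
the lower strand at `d`, or the other way round). -/
noncomputable def v2 : ℝ :=
  (1 / 2) * ∑ c, ∑ d,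
    if D.Cr c d ∧ (D.OverFirst c ↔ ¬ D.OverFirst d) then (D.sgn c : ℝ) * D.sgn d else 0

open Classical in
/-- The Vassiliev invariant of degree 3: the average of the two Polyak-Viro formulas. -/
noncomputable def v3 : ℝ :=
  (∑ c, ∑ d, ∑ e,
    if D.Cr c d ∧ D.Cr c e ∧ D.Cr d e ∧ (D.OverFirst c ↔ ¬ D.OverFirst d) ∧
        (D.OverFirst d ↔ ¬ D.OverFirst e)
      then (D.sgn c : ℝ) * D.sgn d * D.sgn e else 0) +
  (1 / 8) * ∑ a, ∑ b, ∑ c,
    if a ≠ b ∧ ¬ D.Inter a b ∧ D.Inter a c ∧ D.Inter b c ∧
        (D.Nested a b ↔ ¬ (D.OverFirst a ↔ D.OverFirst b))
      then (D.sgn a : ℝ) * D.sgn b * D.sgn c else 0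

end KnotDiagram

/-- The set `S` of the problem. -/
def fishSet : Set (ℝ × ℝ) :=
  {x | ∃ (n : ℕ) (D : KnotDiagram n), x = (D.v2 / (n : ℝ) ^ 2, D.v3 / (n : ℝ) ^ 3)}

/-- The limits of points of `S` that belong to diagrams whose number of crossings tends to
infinity. -/
def fishLimits : Set (ℝ × ℝ) :=
  {x | ∃ (m : ℕ → ℕ) (D : ∀ i, KnotDiagram (m i)), Filter.Tendsto m Filter.atTop Filter.atTop ∧
    Filter.Tendsto (fun i => ((D i).v2 / (m i : ℝ) ^ 2, (D i).v3 / (m i : ℝ) ^ 3))
      Filter.atTop (nhds x)}

end Pool.H3F
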