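import Pool.Agent.H3F.Defs

/-! Auxiliary definitions: the cubic form of a signed graph, the shadow of a diagram. -/

namespace Pool.H3F

open Finset

open Classical in
/-- Indicator of a proposition, as a real number. -/
noncomputable def ind (p : Prop) : ℝ := if p then 1 else 0

/-- Weight of a triple of chords whose three pairs have interlacement indicators `x`, `y`, `z`. -/
def phi (x y z : ℝ) : ℝ := x * y + y * z + x * z - x * y * z

section Sys

variable {V : Type} [Fintype V]

/-- Quadratic form of a weighted graph. -/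
def aOf (ρ : V → ℝ) (I : V → V → ℝ) : ℝ := ∑ i, ∑ j, ρ i * ρ j * I i j

/-- Cubic form of a weighted graph. -/
def bOf (ρ : V → ℝ) (I : V → V → ℝ) : ℝ :=
  ∑ i, ∑ j, ∑ k, ρ i * ρ j * ρ k * phi (I i j) (I j k) (I i k)

/-- A signed weighted graph of total mass one (loops are allowed). -/
structure IsSys (ρ : V → ℝ) (I : V → V → ℝ) : Prop where
  sym : ∀ i j, I i j = I j i
  zo : ∀ i j, I i j = 0 ∨ I i j = 1
  mass : ∑ i, |ρ i| = 1

end Sys

namespace KnotDiagram

variable {n : ℕ} (D : KnotDiagram n)

/-- The sign of a crossing as a real number. -/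
noncomputable def sg (c : Fin n) : ℝ := (D.sgn c : ℝ)

/-- Interlacement indicator. -/
noncomputable def I (c d : Fin n) : ℝ := ind (D.Inter c d)

open Classical in
/-- Orientation of (first strand, second strand) at a crossing: a planar quantity. -/
noncomputable def tau (c : Fin n) : ℝ := if D.OverFirst c then (D.sgn c : ℝ) else -(D.sgn c : ℝ)

open Classical in
/-- The defect sum of the curve. -/
noncomputable def W : ℝ := ∑ c, ∑ d, if D.Cr c d then D.tau c * D.tau d else 0

open Classical in
/-- Orientation at the crossing `a`, seen from the arc that leads from the first to the second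
passage through `c`; zero when `a` and `c` are not interleaved. -/
noncomputable def theta (c a : Fin n) : ℝ :=
  if D.Cr a c then -D.tau a else if D.Cr c a then D.tau a else 0

open Classical in
/-- The defect sum of the two arcs at the crossing `c`. -/
noncomputable def Wc (c : Fin n) : ℝ :=
  ∑ a, ∑ b, if D.Cr a b then D.theta c a * D.theta c b else 0

end KnotDiagram

/-- The curve underlying a diagram: the `2 n` passages, the involution `star` that exchanges the
two passages through a crossing, the orientation `tau j` of (strand at `j`, strand at `star j`),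
and the faces `L j`, `R j` to the left and right of the edge from passage `j` to `j + 1`. -/
structure Shadow (n : ℕ) where
  star : ZMod (2 * n) → ZMod (2 * n)
  star_star : ∀ j, star (star j) = j
  tau : ZMod (2 * n) → ℤ
  tau_pm : ∀ j, tau j = 1 ∨ tau j = -1
  tau_star : ∀ j, tau (star j) = -tau j
  L : ZMod (2 * n) → Fin (n + 2)
  R : ZMod (2 * n) → Fin (n + 2)
  surj : ∀ f, ∃ j, L j = f ∨ R j = f
  corner : ∀ j, tau j = 1 →
    L j = R (star j) ∧ L (j - 1) = L (star j) ∧ R (j - 1) = L (star j - 1) ∧
      R j = R (star j - 1)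

namespace Shadow

variable {n : ℕ} (S : Shadow n)

/-- Change of base point. -/
def rot (r : ZMod (2 * n)) : Shadow n where
  star j := S.star (j + r) - r
  star_star j := by simp [S.star_star]
  tau j := S.tau (j + r)
  tau_pm j := S.tau_pm _
  tau_star j := by simp [S.tau_star]
  L j := S.L (j + r)
  R j := S.R (j + r)
  surj f := by
    obtain ⟨j, hj⟩ := S.surj f
    exact ⟨j - r, by simpa using hj⟩
  corner j hj := by
    have h := S.corner (j + r) hj
    have e1 : j - 1 + r = j + r - 1 := by ring
    have e2 : S.star (j + r) - r - 1 + r = S.star (j + r) - 1 := by ring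
    have e3 : S.star (j + r) - r + r = S.star (j + r) := by ring
    rw [e1, e2, e3]
    exact h

/-- Partner of the passage number `j`, as a natural number. -/
def pt (j : ℕ) : ℕ := (S.star (j : ZMod (2 * n))).val

/-- The defect sum of the part of the curve that consists of the passages `0, ..., l - 1`. -/
def Wl (l : ℕ) : ℤ :=
  ∑ p ∈ range l, ∑ q ∈ range l,
    if p < q ∧ q < S.pt p ∧ S.pt p < S.pt q ∧ S.pt q < l
      then S.tau (p : ZMod (2 * n)) * S.tau (q : ZMod (2 * n)) else 0

/-- The part of the curve that consists of the passages `0, ..., l - 1` is nearly closed: the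
face on the left of its last edge is close to the face on the left of its first edge. -/
def Closed (l : ℕ) : Prop :=
  ∀ d : Fin (n + 2) → ℤ, (∀ j, |d (S.L j) - d (S.R j)| ≤ 1) →
    |d (S.L ((l : ZMod (2 * n)) - 1)) - d (S.L (-1))| ≤ 2

/-- Conservation law at every crossing. -/
def Circ (z : ZMod (2 * n) → ℤ) : Prop :=
  ∀ j, z j + z (S.star j) = z (j - 1) + z (S.star j - 1)

/-- `I` is an index function of `z`. -/
def IsIndex (I : Fin (n + 2) → ℤ) (z : ZMod (2 * n) → ℤ) : Prop :=
  ∀ j, I (S.L j) - I (S.R j) = z j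

/-- `d` is the distance to the face `L (-1)` in the dual graph. -/
structure IsRank (d : Fin (n + 2) → ℕ) : Prop where
  zero : ∀ f, d f = 0 ↔ f = S.L (-1)
  lipL : ∀ j, d (S.L j) ≤ d (S.R j) + 1
  lipR : ∀ j, d (S.R j) ≤ d (S.L j) + 1
  desc : ∀ f, d f ≠ 0 →
    ∃ j, (S.L j = f ∧ d (S.R j) + 1 = d f) ∨ (S.R j = f ∧ d (S.L j) + 1 = d f)

/-- Adjacency of faces inside `{d > k}`. -/
def AdjK (d : Fin (n + 2) → ℕ) (k : ℕ) (f g : Fin (n + 2)) : Prop :=
  k < d f ∧ k < d g ∧ ∃ j, (S.L j = f ∧ S.R j = g) ∨ (S.L j = g ∧ S.R j = f)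

/-- The connected component of `f` in `{d > k}`. -/
def comp (d : Fin (n + 2) → ℕ) (k : ℕ) (f : Fin (n + 2)) : Set (Fin (n + 2)) :=
  {g | Relation.ReflTransGen (S.AdjK d k) f g}

/-- Edges with exactly one side in `U`. -/
def bd (U : Set (Fin (n + 2))) : Set (ZMod (2 * n)) :=
  {j | (S.L j ∈ U ∧ S.R j ∉ U) ∨ (S.L j ∉ U ∧ S.R j ∈ U)}

/-- Passages through crossings that lie on the boundary of `U`: some but not all of the four
corners belong to `U`. -/
def bv (U : Set (Fin (n + 2))) : Set (ZMod (2 * n)) :=
  {j | (S.L j ∈ U ∨ S.R j ∈ U ∨ S.L (j - 1) ∈ U ∨ S.R (j - 1) ∈ U) ∧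
    ¬ (S.L j ∈ U ∧ S.R j ∈ U ∧ S.L (j - 1) ∈ U ∧ S.R (j - 1) ∈ U)}

/-- Passages through crossings in the interior of `U`. -/
def iv (U : Set (Fin (n + 2))) : Set (ZMod (2 * n)) :=
  {j | S.L j ∈ U ∧ S.R j ∈ U ∧ S.L (j - 1) ∈ U ∧ S.R (j - 1) ∈ U}

/-- Number of edges between the levels `k` and `k + 1`. -/
noncomputable def lev (d : Fin (n + 2) → ℕ) (k : ℕ) : ℕ :=
  Set.ncard {j : ZMod (2 * n) | (d (S.L j) = k ∧ d (S.R j) = k + 1) ∨
    (d (S.L j) = k + 1 ∧ d (S.R j) = k)}

/-- There is a path in the dual graph from `f` to `g`, recorded by the algebraic number of times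
`c j` it crosses each edge; it crosses only edges that satisfy `P`, at most `N` times in all. -/
def Path (P : ZMod (2 * n) → Prop) (N : ℕ) (f g : Fin (n + 2)) : Prop :=
  ∃ l : List (ZMod (2 * n) × ℤ), (∀ x ∈ l, P x.1 ∧ |x.2| ≤ 1) ∧ l.length ≤ N ∧
    ∀ I : Fin (n + 2) → ℤ, I g - I f = (l.map fun x => x.2 * (I (S.L x.1) - I (S.R x.1))).sum

end Shadow

end Pool.H3F
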