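import Pool.Agent.H3F.FEDefs

/-! ES1: lower bounds for the envelope from the third family. -/

namespace Pool.H3F

/-- The point of the curve with parameter `κ` over `a`. -/
theorem es1_pt (κ a : ℝ) (hκ : κ = 0 ∨ ∃ k : ℕ, 1 ≤ k ∧ κ = 1 / k) (h0 : 0 ≤ κ)
    (h1 : (κ - 2) / 4 ≤ a) (h2 : a ≤ κ) :
    ∃ y : ℝ, 1 / 2 ≤ y ∧ y ≤ 1 ∧ a = -2 * y + (2 + κ) * y ^ 2 ∧
      Env a (3 * (1 - y) * y ^ 2 * (1 + κ) - 3 * (1 - y) ^ 2 * y - 2 * κ ^ 2 * y ^ 3) := by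
  have hc : 0 < 2 + κ := by linarith
  have hD : (κ / 2) ^ 2 ≤ 1 + (2 + κ) * a := by nlinarith
  have hD2 : 1 + (2 + κ) * a ≤ (1 + κ) ^ 2 := by nlinarith
  set s := √(1 + (2 + κ) * a) with hs
  have hs0 : 0 ≤ s := Real.sqrt_nonneg _
  have hsq : s ^ 2 = 1 + (2 + κ) * a := Real.sq_sqrt (le_trans (sq_nonneg _) hD)
  have hs1 : κ / 2 ≤ s := Real.le_sqrt_of_sq_le hD
  have hs2 : s ≤ 1 + κ := by
    rw [hs]
    exact Real.sqrt_le_iff.mpr ⟨by linarith, hD2⟩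
  have hy1 : 1 / 2 ≤ (1 + s) / (2 + κ) := by
    rw [le_div_iff₀ hc]; linarith
  have hy2 : (1 + s) / (2 + κ) ≤ 1 := by
    rw [div_le_iff₀ hc]; linarith
  have hya : a = -2 * ((1 + s) / (2 + κ)) + (2 + κ) * ((1 + s) / (2 + κ)) ^ 2 := by
    field_simp
    nlinarith
  refine ⟨(1 + s) / (2 + κ), hy1, hy2, hya, ?_⟩
  generalize (1 + s) / (2 + κ) = y at hy1 hy2 hya
  refine Or.inr (Or.inr ⟨κ, 1 - y, y, hκ, by linarith, by linarith, by ring, ?_, by ring⟩)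
  rw [hya]; ring

theorem es_a (a : ℝ) (h1 : 1 - √2 ≤ a) (h2 : a ≤ -(9 / 25)) :
    Below a (571 / 2000 + (13 / 25) * (a + 9 / 25)) := by
  have hr : √2 < 14143 / 10000 := by
    rw [Real.sqrt_lt' (by norm_num)]; norm_num
  obtain ⟨y, y1, y2, hy, hE⟩ := es1_pt 0 a (Or.inl rfl) le_rfl (by linarith) (by linarith)
  refine ⟨_, hE, ?_⟩
  have hl : (7070 : ℝ) / 10000 ≤ y := by
    by_contra hcon
    push Not at hcon
    nlinarith
  have hu : y ≤ 7647 / 10000 := by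
    by_contra hcon
    push Not at hcon
    nlinarith
  rw [hy]
  nlinarith [mul_nonneg (sub_nonneg.mpr hl) (sub_nonneg.mpr hu),
    mul_nonneg (mul_nonneg (sub_nonneg.mpr hl) (sub_nonneg.mpr hu)) (by linarith : (0:ℝ) ≤ y)]

theorem es_b (a : ℝ) (h1 : -(9 / 25) ≤ a) (h2 : a ≤ -(7 / 25)) :
    Below a (1477 / 5000 + (7 / 20) * (a + 9 / 25)) := by
  obtain ⟨y, y1, y2, hy, hE⟩ := es1_pt (1 / 8) a (Or.inr ⟨8, by norm_num, by norm_num⟩)
    (by norm_num) (by linarith) (by linarith)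
  refine ⟨_, hE, ?_⟩
  have hl : (6987 : ℝ) / 10000 ≤ y := by
    by_contra hcon
    push Not at hcon
    nlinarith
  have hu : y ≤ 7701 / 10000 := by
    by_contra hcon
    push Not at hcon
    nlinarith
  rw [hy]
  nlinarith [mul_nonneg (sub_nonneg.mpr hl) (sub_nonneg.mpr hu),
    mul_nonneg (mul_nonneg (sub_nonneg.mpr hl) (sub_nonneg.mpr hu)) (by linarith : (0:ℝ) ≤ y)]

theorem es_c (a : ℝ) (h1 : -(7 / 25) ≤ a) (h2 : a ≤ -(4 / 25)) : Below a (63 / 200) := by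
  obtain ⟨y, y1, y2, hy, hE⟩ := es1_pt (1 / 4) a (Or.inr ⟨4, by norm_num, by norm_num⟩)
    (by norm_num) (by linarith) (by linarith)
  refine ⟨_, hE, ?_⟩
  have hl : (7147 : ℝ) / 10000 ≤ y := by
    by_contra hcon
    push Not at hcon
    nlinarith
  have hu : y ≤ 8001 / 10000 := by
    by_contra hcon
    push Not at hcon
    nlinarith
  nlinarith [mul_nonneg (sub_nonneg.mpr hl) (sub_nonneg.mpr hu),
    mul_nonneg (mul_nonneg (sub_nonneg.mpr hl) (sub_nonneg.mpr hu)) (by linarith : (0:ℝ) ≤ y)]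

theorem es_d1 (a : ℝ) (h1 : -(21 / 100) ≤ a) (h2 : a ≤ -(2 / 25)) :
    Below a (1437 / 5000 - (1619 / 5000) * (a + 2 / 25)) := by
  obtain ⟨y, y1, y2, hy, hE⟩ := es1_pt (1 / 3) a (Or.inr ⟨3, by norm_num, by norm_num⟩)
    (by norm_num) (by linarith) (by linarith)
  refine ⟨_, hE, ?_⟩
  have hl : (7346 : ℝ) / 10000 ≤ y := by
    by_contra hcon
    push Not at hcon
    nlinarith
  have hu : y ≤ 8151 / 10000 := by
    by_contra hcon
    push Not at hcon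
    nlinarith
  rw [hy]
  nlinarith [mul_nonneg (sub_nonneg.mpr hl) (sub_nonneg.mpr hu),
    mul_nonneg (mul_nonneg (sub_nonneg.mpr hl) (sub_nonneg.mpr hu)) (by linarith : (0:ℝ) ≤ y)]

theorem es_d2 (a : ℝ) (h1 : -(2 / 25) ≤ a) (h2 : a ≤ 1 / 30) :
    Below a (49 / 250 - (1613 / 2000) * (a - 1 / 30)) := by
  obtain ⟨y, y1, y2, hy, hE⟩ := es1_pt (1 / 3) a (Or.inr ⟨3, by norm_num, by norm_num⟩)
    (by norm_num) (by linarith) (by linarith)
  refine ⟨_, hE, ?_⟩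
  have hl : (8150 : ℝ) / 10000 ≤ y := by
    by_contra hcon
    push Not at hcon
    nlinarith
  have hu : y ≤ 87351 / 100000 := by
    by_contra hcon
    push Not at hcon
    nlinarith
  rw [hy]
  nlinarith [mul_nonneg (sub_nonneg.mpr hl) (sub_nonneg.mpr hu),
    mul_nonneg (mul_nonneg (sub_nonneg.mpr hl) (sub_nonneg.mpr hu)) (by linarith : (0:ℝ) ≤ y)]

/-- Weaker bound on the whole left part. -/
theorem es_0 (a : ℝ) (h1 : 1 - √2 ≤ a) (h2 : a ≤ 1 / 30) :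
    Below a (49 / 250 - (13 / 100) * (a - 1 / 30)) := by
  have mono : ∀ b c : ℝ, b ≤ c → Below a c → Below a b := fun b c hbc ⟨d, hd, hcd⟩ =>
    ⟨d, hd, hbc.trans hcd⟩
  have hr : √2 < 14143 / 10000 := by
    rw [Real.sqrt_lt' (by norm_num)]; norm_num
  rcases le_total a (-(9 / 25)) with h | h
  · exact mono _ _ (by linarith) (es_a a h1 h)
  rcases le_total a (-(7 / 25)) with h' | h'
  · exact mono _ _ (by linarith) (es_b a h h')
  rcases le_total a (-(4 / 25)) with h3 | h3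
  · exact mono _ _ (by linarith) (es_c a h' h3)
  rcases le_total a (-(2 / 25)) with h4 | h4
  · exact mono _ _ (by linarith) (es_d1 a (by linarith) h4)
  · exact mono _ _ (by linarith) (es_d2 a h4 h2)

end Pool.H3F
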