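import Pool.Agent.H3F.FFin

/-! FISO: all but finitely many points of `S` are close to the limit points. -/

namespace Pool.H3F

open Filter Topology

/-- The points of diagrams with many crossings are bounded. -/
theorem FISO_bdd {m : ℕ → ℕ} {D : ∀ i, KnotDiagram (m i)} (hm : Tendsto m atTop atTop) :
    ∀ᶠ i in atTop, ((D i).v2 / (m i : ℝ) ^ 2, (D i).v3 / (m i : ℝ) ^ 3) ∈
      Metric.closedBall (0 : ℝ × ℝ) 1 := by
  obtain ⟨n0, hn0⟩ := top 1 one_pos
  filter_upwards [hm.eventually_ge_atTop n0, hm.eventually_gt_atTop 0] with i hi hi0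
  obtain ⟨h1, h2⟩ := hn0 (m i) hi (D i)
  obtain ⟨h3, h4, h5⟩ := (isSys_diagram (D i) hi0).ext0
  rw [abs_le] at h1 h2 h3
  rw [mem_closedBall_zero_iff, Prod.norm_def]
  apply max_le
  · rw [Real.norm_eq_abs, abs_le]
    constructor <;> linarith [h1.1, h1.2]
  · rw [Real.norm_eq_abs, abs_le]
    constructor <;> linarith [h2.1, h2.2]

theorem far_finite (ε : ℝ) (hε : 0 < ε) :
    {x : ℝ × ℝ | x ∈ fishSet ∧ ∀ y ∈ fishLimits, ε ≤ dist x y}.Finite := by
  by_contra hinf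
  have h1 : ∀ N : ℕ, ∃ (x : ℝ × ℝ) (n : ℕ) (D : KnotDiagram n), N ≤ n ∧
      x = (D.v2 / (n : ℝ) ^ 2, D.v3 / (n : ℝ) ^ 3) ∧ ∀ y ∈ fishLimits, ε ≤ dist x y := by
    intro N
    by_contra hN
    push Not at hN
    apply hinf
    have hfin : (⋃ n ∈ Set.Iio N, {x : ℝ × ℝ | ∃ D : KnotDiagram n,
        x = (D.v2 / (n : ℝ) ^ 2, D.v3 / (n : ℝ) ^ 3)}).Finite :=
      (Set.finite_Iio N).biUnion fun n _ => finite_values n
    refine hfin.subset ?_
    rintro x ⟨⟨n, D, hD⟩, hx⟩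
    simp only [Set.mem_iUnion]
    by_cases hn : n < N
    · exact ⟨n, hn, D, hD⟩
    · obtain ⟨y, hy, hlt⟩ := hN x n D (not_lt.1 hn) hD
      exact absurd (hx y hy) (not_le.2 hlt)
  choose x m D hm hx hfar using h1
  have hmt : Tendsto m atTop atTop := tendsto_atTop_mono hm tendsto_id
  have hb := FISO_bdd (D := D) hmt
  have hb' : ∃ᶠ i in atTop, x i ∈ Metric.closedBall (0 : ℝ × ℝ) 1 := by
    refine (hb.mono fun i hi => ?_).frequently
    rw [hx i]
    exact hi
  obtain ⟨y, -, φ, hφ, hlim⟩ :=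
    tendsto_subseq_of_frequently_bounded Metric.isBounded_closedBall hb'
  have hy : y ∈ fishLimits := by
    refine ⟨fun i => m (φ i), fun i => D (φ i), hmt.comp hφ.tendsto_atTop, ?_⟩
    have : (fun i => ((D (φ i)).v2 / (m (φ i) : ℝ) ^ 2, (D (φ i)).v3 / (m (φ i) : ℝ) ^ 3)) =
        x ∘ φ := by
      funext i
      exact (hx (φ i)).symm
    rw [this]
    exact hlim
  have h2 : Tendsto (fun i => dist (x (φ i)) y) atTop (𝓝 0) := by
    have := tendsto_iff_dist_tendsto_zero.1 hlim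
    exact this
  have h3 := ge_of_tendsto' h2 fun i => hfar (φ i) y hy
  linarith

end Pool.H3F
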