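import Pool.Agent.H3F.FFUL
import Pool.Agent.H3F.CUR2
import Pool.Agent.H3F.FISO

/-! FANS: the answer in terms of curves with one parameter. -/

namespace Pool.H3F

theorem fish_answer :
    closure fishSet = fishSet ∪ fishLimits ∧
    (∀ ε : ℝ, 0 < ε → {x : ℝ × ℝ | x ∈ fishSet ∧ ∀ y ∈ fishLimits, ε ≤ dist x y}.Finite) ∧
    (∀ x : ℝ × ℝ, x ∈ fishLimits ↔ -(1 / 2) ≤ 8 * x.1 ∧ 8 * x.1 ≤ 1 ∧
      (∃ c : ℝ, Cur (8 * x.1) c ∧ |48 * x.2| ≤ c) ∧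
      (1 / 2 ≤ 8 * x.1 → √(2 * (8 * x.1) - 1) * (1 + 8 * x.1) ≤ |48 * x.2|)) := by
  refine ⟨closure_fishSet, far_finite, fun x => ?_⟩
  rw [fish_full.1]
  unfold fishRegion
  rw [Set.mem_ofPred_eq, below_iff_cur]

end Pool.H3F
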