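import Pool.Agent.H3F.FMk

/-! The forms of a diagram whose chords come in blocks. -/

namespace Pool.H3F

open Finset

theorem FBLK_fib {n B : ℕ} (ty : Fin n → Fin B) (x : Fin B → ℝ)
    (hx : ∀ i, x i = ((univ.filter fun c => ty c = i).card : ℝ) / n) (g : Fin B → ℝ) :
    ∑ c, (1 / (n : ℝ)) * g (ty c) = ∑ i, x i * g i := by
  rw [← Finset.sum_fiberwise (s := univ) (g := ty)]
  apply Finset.sum_congr rfl
  intro i _
  have h1 : ∀ c ∈ univ.filter (fun c => ty c = i), (1 / (n : ℝ)) * g (ty c) = (1 / (n : ℝ)) * g i := by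
    intro c hc
    rw [(Finset.mem_filter.1 hc).2]
  rw [Finset.sum_congr rfl h1, Finset.sum_const, hx, nsmul_eq_mul]
  ring

theorem FBLK_phi {x y z : ℝ} (hx : x = 0 ∨ x = 1) (hy : y = 0 ∨ y = 1) (hz : z = 0 ∨ z = 1) :
    0 ≤ phi x y z ∧ phi x y z ≤ 2 := by
  unfold phi
  rcases hx with rfl | rfl <;> rcases hy with rfl | rfl <;> rcases hz with rfl | rfl <;>
    constructor <;> norm_num

theorem FBLK_ind (p : Prop) : ind p = 0 ∨ ind p = 1 := by
  unfold ind
  split_ifs
  · right; rfl
  · left; rfl

/-- Diagrams whose chords come in blocks `0, ..., B - 1`: different chords of blocks `i` and `j`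
are interleaved iff `E i j = 1`, all chords of block `i` have sign `e i`. -/
theorem block_forms {n B : ℕ} (hn : 0 < n) (D : KnotDiagram n) (ty : Fin n → Fin B)
    (E : Fin B → Fin B → ℝ) (hE : ∀ i j, E i j = 0 ∨ E i j = 1) (e : Fin B → ℝ)
    (he : ∀ i, e i = 1 ∨ e i = -1) (hsg : ∀ c, D.sg c = e (ty c))
    (hI : ∀ c d, c ≠ d → (D.Inter c d ↔ E (ty c) (ty d) = 1)) (x : Fin B → ℝ)
    (hx : ∀ i, x i = ((univ.filter fun c => ty c = i).card : ℝ) / n) :
    |aOf (fun c => D.sg c / n) D.I - aOf (fun i => e i * x i) E| ≤ 1 / n ∧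
      |bOf (fun c => D.sg c / n) D.I - bOf (fun i => e i * x i) E| ≤ 12 / n := by
  have hn' : (0 : ℝ) < n := by exact_mod_cast hn
  have h01 : ∀ c d, D.I c d = 0 ∨ D.I c d = 1 := fun c d => FBLK_ind _
  have hIE : ∀ c d, c ≠ d → D.I c d = E (ty c) (ty d) := by
    intro c d hcd
    show ind (D.Inter c d) = _
    unfold ind
    split_ifs with h
    · exact ((hI c d hcd).1 h).symm
    · rcases hE (ty c) (ty d) with h1 | h1
      · exact h1.symm
      · exact absurd ((hI c d hcd).2 h1) h
  have hsg1 : ∀ c, |D.sg c / n| = 1 / (n : ℝ) := by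
    intro c
    rw [hsg, abs_div, abs_of_pos hn']
    rcases he (ty c) with h | h <;> rw [h] <;> simp
  have hA : aOf (fun i => e i * x i) E =
      aOf (fun c => D.sg c / n) (fun c d => E (ty c) (ty d)) := by
    unfold aOf
    have h1 : ∀ c, ∑ d, D.sg c / n * (D.sg d / n) * E (ty c) (ty d) =
        (1 / (n : ℝ)) * (e (ty c) * ∑ j, x j * (e j * E (ty c) j)) := by
      intro c
      rw [← FBLK_fib ty x hx (fun j => e j * E (ty c) j), Finset.mul_sum, Finset.mul_sum]
      apply Finset.sum_congr rfl
      intro d _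
      rw [hsg, hsg]
      ring
    rw [Finset.sum_congr rfl (fun c _ => h1 c),
      FBLK_fib ty x hx (fun i => e i * ∑ j, x j * (e j * E i j))]
    apply Finset.sum_congr rfl
    intro i _
    rw [Finset.mul_sum, Finset.mul_sum]
    apply Finset.sum_congr rfl
    intro j _
    ring
  have hB : bOf (fun i => e i * x i) E =
      bOf (fun c => D.sg c / n) (fun c d => E (ty c) (ty d)) := by
    unfold bOf
    have h0 : ∀ c d, ∑ k, D.sg c / n * (D.sg d / n) * (D.sg k / n) *
        phi (E (ty c) (ty d)) (E (ty d) (ty k)) (E (ty c) (ty k)) =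
        (1 / (n : ℝ)) * (e (ty d) * ((1 / (n : ℝ)) * (e (ty c) *
          ∑ k, x k * (e k * phi (E (ty c) (ty d)) (E (ty d) k) (E (ty c) k))))) := by
      intro c d
      rw [← FBLK_fib ty x hx (fun k => e k * phi (E (ty c) (ty d)) (E (ty d) k) (E (ty c) k)),
        Finset.mul_sum, Finset.mul_sum, Finset.mul_sum, Finset.mul_sum]
      apply Finset.sum_congr rfl
      intro k _
      rw [hsg, hsg, hsg]
      ring
    have h1 : ∀ c, ∑ d, ∑ k, D.sg c / n * (D.sg d / n) * (D.sg k / n) *
        phi (E (ty c) (ty d)) (E (ty d) (ty k)) (E (ty c) (ty k)) =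
        (1 / (n : ℝ)) * (e (ty c) * ∑ j, x j * (e j *
          ∑ k, x k * (e k * phi (E (ty c) j) (E j k) (E (ty c) k)))) := by
      intro c
      rw [← FBLK_fib ty x hx (fun j => e j *
          ∑ k, x k * (e k * phi (E (ty c) j) (E j k) (E (ty c) k))),
        Finset.sum_congr rfl (fun d _ => h0 c d), Finset.mul_sum, Finset.mul_sum]
      apply Finset.sum_congr rfl
      intro d _
      ring
    rw [Finset.sum_congr rfl (fun c _ => h1 c),
      FBLK_fib ty x hx (fun i => e i * ∑ j, x j * (e j *
          ∑ k, x k * (e k * phi (E i j) (E j k) (E i k))))]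
    apply Finset.sum_congr rfl
    intro i _
    rw [Finset.mul_sum, Finset.mul_sum]
    apply Finset.sum_congr rfl
    intro j _
    rw [Finset.mul_sum, Finset.mul_sum, Finset.mul_sum, Finset.mul_sum]
    apply Finset.sum_congr rfl
    intro k _
    ring
  constructor
  · rw [hA]
    unfold aOf
    rw [← Finset.sum_sub_distrib]
    refine (Finset.abs_sum_le_sum_abs _ _).trans ?_
    have h2 : ∀ c ∈ (univ : Finset (Fin n)),
        |∑ d, D.sg c / n * (D.sg d / n) * D.I c d -
          ∑ d, D.sg c / n * (D.sg d / n) * E (ty c) (ty d)| ≤ 1 / (n : ℝ) ^ 2 := by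
      intro c _
      rw [← Finset.sum_sub_distrib]
      refine (Finset.abs_sum_le_sum_abs _ _).trans ?_
      have h3 : ∀ d ∈ (univ : Finset (Fin n)), |D.sg c / n * (D.sg d / n) * D.I c d -
          D.sg c / n * (D.sg d / n) * E (ty c) (ty d)| ≤ if c = d then 1 / (n : ℝ) ^ 2 else 0 := by
        intro d _
        rw [← mul_sub, abs_mul, abs_mul, hsg1, hsg1]
        split_ifs with h
        · have h4 : |D.I c d - E (ty c) (ty d)| ≤ 1 := by
            rcases h01 c d with h5 | h5 <;> rcases hE (ty c) (ty d) with h6 | h6 <;>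
              rw [h5, h6] <;> norm_num
          calc 1 / (n : ℝ) * (1 / n) * |D.I c d - E (ty c) (ty d)| ≤ 1 / (n : ℝ) * (1 / n) * 1 := by
                gcongr
            _ = 1 / (n : ℝ) ^ 2 := by field_simp
        · rw [hIE c d h, sub_self, abs_zero, mul_zero]
      refine (Finset.sum_le_sum h3).trans ?_
      rw [Finset.sum_ite_eq, if_pos (Finset.mem_univ c)]
    refine (Finset.sum_le_sum h2).trans ?_
    rw [Finset.sum_const, Finset.card_univ, Fintype.card_fin, nsmul_eq_mul]
    apply le_of_eq
    field_simp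
  · rw [hB]
    unfold bOf
    rw [← Finset.sum_sub_distrib]
    refine (Finset.abs_sum_le_sum_abs _ _).trans ?_
    have h2 : ∀ c ∈ (univ : Finset (Fin n)),
        |∑ d, ∑ k, D.sg c / n * (D.sg d / n) * (D.sg k / n) *
            phi (D.I c d) (D.I d k) (D.I c k) -
          ∑ d, ∑ k, D.sg c / n * (D.sg d / n) * (D.sg k / n) *
            phi (E (ty c) (ty d)) (E (ty d) (ty k)) (E (ty c) (ty k))| ≤
          ∑ d : Fin n, ∑ k : Fin n, (2 / (n : ℝ) ^ 3) * ((if c = d then 1 else 0) +
            (if d = k then 1 else 0) + (if c = k then 1 else 0)) := by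
      intro c _
      rw [← Finset.sum_sub_distrib]
      refine (Finset.abs_sum_le_sum_abs _ _).trans (Finset.sum_le_sum fun d _ => ?_)
      rw [← Finset.sum_sub_distrib]
      refine (Finset.abs_sum_le_sum_abs _ _).trans (Finset.sum_le_sum fun k _ => ?_)
      rw [← mul_sub, abs_mul, abs_mul, abs_mul, hsg1, hsg1, hsg1]
      have hp1 := FBLK_phi (h01 c d) (h01 d k) (h01 c k)
      have hp2 := FBLK_phi (hE (ty c) (ty d)) (hE (ty d) (ty k)) (hE (ty c) (ty k))
      have h4 : |phi (D.I c d) (D.I d k) (D.I c k) -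
          phi (E (ty c) (ty d)) (E (ty d) (ty k)) (E (ty c) (ty k))| ≤ 2 * ((if c = d then 1 else 0) +
            (if d = k then 1 else 0) + (if c = k then 1 else 0)) := by
        by_cases h1 : c = d
        · rw [if_pos h1]
          have : (0 : ℝ) ≤ (if d = k then 1 else 0) + (if c = k then 1 else 0) := by
            split_ifs <;> norm_num
          rw [abs_le]
          constructor <;> linarith [hp1.1, hp1.2, hp2.1, hp2.2]
        · by_cases h2 : d = k
          · rw [if_neg h1, if_pos h2]
            have : (0 : ℝ) ≤ (if c = k then 1 else 0) := by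
              split_ifs <;> norm_num
            rw [abs_le]
            constructor <;> linarith [hp1.1, hp1.2, hp2.1, hp2.2]
          · by_cases h3 : c = k
            · rw [if_neg h1, if_neg h2, if_pos h3]
              rw [abs_le]
              constructor <;> linarith [hp1.1, hp1.2, hp2.1, hp2.2]
            · rw [hIE c d h1, hIE d k h2, hIE c k h3, sub_self, abs_zero, if_neg h1, if_neg h2,
                if_neg h3]
              norm_num
      calc 1 / (n : ℝ) * (1 / n) * (1 / n) * |phi (D.I c d) (D.I d k) (D.I c k) -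
          phi (E (ty c) (ty d)) (E (ty d) (ty k)) (E (ty c) (ty k))| ≤
          1 / (n : ℝ) * (1 / n) * (1 / n) * (2 * ((if c = d then 1 else 0) +
            (if d = k then 1 else 0) + (if c = k then 1 else 0))) := by gcongr
        _ = _ := by field_simp
    refine (Finset.sum_le_sum h2).trans ?_
    simp only [← Finset.mul_sum, Finset.sum_add_distrib, Finset.sum_const, Finset.card_univ,
      Fintype.card_fin, Finset.sum_ite_eq, Finset.mem_univ, if_true, nsmul_eq_mul, smul_eq_mul,
      mul_one, mul_ite, mul_zero]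
    rw [div_mul_eq_mul_div, div_le_div_iff₀ (by positivity) hn']
    have : (0 : ℝ) < (n : ℝ) ^ 3 := by positivity
    nlinarith
end Pool.H3F
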