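import Pool.Agent.H3F.Defs2

/-! The closure of `S`. -/

namespace Pool.H3F

open Filter

theorem FCLO_finite (n : ℕ) (hn : 0 < n) : Finite (KnotDiagram n) := by
  haveI : NeZero (2 * n) := ⟨by omega⟩
  let g : KnotDiagram n → (Fin n → ZMod (2 * n)) × (Fin n → ZMod (2 * n)) × (Fin n → Bool) ×
      (ZMod (2 * n) → Fin (n + 2)) × (ZMod (2 * n) → Fin (n + 2)) := fun D =>
    (D.ov, D.un, fun c => decide (D.sgn c = 1), D.left, D.right)
  apply Finite.of_injective g
  intro D D' h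
  simp only [g, Prod.mk.injEq] at h
  obtain ⟨h1, h2, h3, h4, h5⟩ := h
  have h6 : D.sgn = D'.sgn := by
    funext c
    have h7 := congrFun h3 c
    simp only [decide_eq_decide] at h7
    rcases D.sgn_pm c with h8 | h8
    · rw [h8, h7.1 h8]
    · rcases D'.sgn_pm c with h9 | h9
      · rw [h7.2 h9, h9]
      · rw [h8, h9]
  cases D
  cases D'
  simp only at h1 h2 h4 h5 h6
  subst h1 h2 h4 h5 h6
  rfl

theorem finite_values (n : ℕ) :
    {x : ℝ × ℝ | ∃ D : KnotDiagram n, x = (D.v2 / (n : ℝ) ^ 2, D.v3 / (n : ℝ) ^ 3)}.Finite := by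
  rcases Nat.eq_zero_or_pos n with hn | hn
  · subst hn
    have : {x : ℝ × ℝ | ∃ D : KnotDiagram 0, x = (D.v2 / ((0 : ℕ) : ℝ) ^ 2,
        D.v3 / ((0 : ℕ) : ℝ) ^ 3)} = ∅ := by
      rw [Set.eq_empty_iff_forall_notMem]
      rintro x ⟨D, -⟩
      obtain ⟨a, -⟩ := D.bij.2 0
      rcases a with a | a
      · exact a.elim0
      · exact a.elim0
    rw [this]
    exact Set.finite_empty
  · haveI := FCLO_finite n hn
    refine (Set.finite_range fun D : KnotDiagram n =>
      (D.v2 / (n : ℝ) ^ 2, D.v3 / (n : ℝ) ^ 3)).subset ?_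
    rintro x ⟨D, rfl⟩
    exact ⟨D, rfl⟩

theorem closure_fishSet : closure fishSet = fishSet ∪ fishLimits := by
  apply Set.Subset.antisymm
  · intro x hx
    obtain ⟨u, hu, hlim⟩ := mem_closure_iff_seq_limit.1 hx
    choose m D hD using hu
    by_cases hm : Tendsto m atTop atTop
    · right
      refine ⟨m, D, hm, ?_⟩
      have : (fun i => ((D i).v2 / (m i : ℝ) ^ 2, (D i).v3 / (m i : ℝ) ^ 3)) = u := by
        funext i
        exact (hD i).symm
      rw [this]
      exact hlim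
    · left
      rw [tendsto_atTop] at hm
      push Not at hm
      obtain ⟨N, hN⟩ := hm
      have hfin : (⋃ n ∈ Set.Iio N, {x : ℝ × ℝ | ∃ D : KnotDiagram n,
          x = (D.v2 / (n : ℝ) ^ 2, D.v3 / (n : ℝ) ^ 3)}).Finite :=
        (Set.finite_Iio N).biUnion fun n _ => finite_values n
      have hcl := mem_closure_of_frequently_of_tendsto (s := ⋃ n ∈ Set.Iio N, {x : ℝ × ℝ |
          ∃ D : KnotDiagram n, x = (D.v2 / (n : ℝ) ^ 2, D.v3 / (n : ℝ) ^ 3)}) ?_ hlim
      · rw [hfin.isClosed.closure_eq] at hcl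
        simp only [Set.mem_iUnion] at hcl
        obtain ⟨n, -, D', hD'⟩ := hcl
        exact ⟨n, D', hD'⟩
      · refine hN.mono fun i hi => ?_
        simp only [Set.mem_iUnion]
        exact ⟨m i, hi, D i, hD i⟩
  · rintro x (hx | ⟨m, D, -, hlim⟩)
    · exact subset_closure hx
    · exact mem_closure_of_tendsto hlim (Eventually.of_forall fun i => ⟨m i, D i, rfl⟩)

end Pool.H3F
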