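import Pool.Agent.H3F.Defs2

/-! Planar Gauss codes in terms of natural numbers. -/

namespace Pool.H3F

open Finset

/-- Cyclic predecessor among `0, ..., 2 n - 1`. -/
def prd (n j : ℕ) : ℕ := if j = 0 then 2 * n - 1 else j - 1

/-- A planar curve with `n` double points: first and second passage `f`, `s`; `t c` is true if
the second strand crosses the first one from right to left; `l j`, `r j` are the faces to the
left and right of the edge from passage `j` to the next one. -/
structure PCode (n : ℕ) where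
  f : Fin n → ℕ
  s : Fin n → ℕ
  t : Fin n → Bool
  l : ℕ → ℕ
  r : ℕ → ℕ
  lt : ∀ c, f c < s c
  lt2 : ∀ c, s c < 2 * n
  injf : ∀ c d, f c = f d → c = d
  injs : ∀ c d, s c = s d → c = d
  ne : ∀ c d, f c ≠ s d
  l_lt : ∀ j < 2 * n, l j < n + 2
  r_lt : ∀ j < 2 * n, r j < n + 2
  surj : ∀ x < n + 2, ∃ j < 2 * n, l j = x ∨ r j = x
  cornerP : ∀ c, t c = true → l (f c) = r (s c) ∧ l (prd n (f c)) = l (s c) ∧
    r (prd n (f c)) = l (prd n (s c)) ∧ r (f c) = r (prd n (s c))
  cornerN : ∀ c, t c = false → l (s c) = r (f c) ∧ l (prd n (s c)) = l (f c) ∧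
    r (prd n (s c)) = l (prd n (f c)) ∧ r (s c) = r (prd n (f c))

/-- Interlacement of the chords of a code. -/
def PCode.Int {n : ℕ} (C : PCode n) (c d : Fin n) : Prop :=
  (C.f c < C.f d ∧ C.f d < C.s c ∧ C.s c < C.s d) ∨
    (C.f d < C.f c ∧ C.f c < C.s d ∧ C.s d < C.s c)

/-- Sign `1` or `-1`. -/
def sgb (b : Bool) : ℤ := if b then 1 else -1

end Pool.H3F
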