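import Pool.Agent.H3F.Defs2

/-! The families of curves whose upper envelope bounds the region of the limit points. -/

namespace Pool.H3F

/-- First family: parameters `y`, `H`. -/
def FamV (a b : ℝ) : Prop :=
  ∃ y H : ℝ, 0 ≤ y ∧ 0 ≤ H ∧ y + H ≤ 1 ∧ 0 ≤ a ∧ a = (1 - y) ^ 2 - H ^ 2 - y * H ∧
    b = 2 * (1 - y) ^ 3 - 3 * (1 - y) * (H ^ 2 + y * H) + H ^ 3 + (9 / 4) * y * H ^ 2 +
      (3 / 2) * y ^ 2 * H

/-- Second family: parameters `p`, `x`, `y` with sum one. -/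
def FamW (a b : ℝ) : Prop :=
  ∃ p x y : ℝ, 0 ≤ p ∧ 0 ≤ x ∧ 0 ≤ y ∧ p + x + y = 1 ∧ 0 ≤ a ∧ a = p ^ 2 - 2 * x * y ∧
    b = 2 * p ^ 3 + 3 * x * y ^ 2 - 3 * x ^ 2 * y

/-- Third family: curves, one for `κ = 0` and one for every `κ = 1 / k`, `k = 1, 2, 3, ...`. -/
def FamC (a b : ℝ) : Prop :=
  ∃ κ x y : ℝ, (κ = 0 ∨ ∃ k : ℕ, 1 ≤ k ∧ κ = 1 / k) ∧ 0 ≤ x ∧ x ≤ y ∧ x + y = 1 ∧
    a = -2 * x * y + κ * y ^ 2 ∧
    b = 3 * x * y ^ 2 * (1 + κ) - 3 * x ^ 2 * y - 2 * κ ^ 2 * y ^ 3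

/-- The three families together. -/
def Env (a b : ℝ) : Prop := FamV a b ∨ FamW a b ∨ FamC a b

/-- `b` lies below some point of the families over `a`. -/
def Below (a b : ℝ) : Prop := ∃ c : ℝ, Env a c ∧ b ≤ c

/-- The region, in the coordinates `a = 8 x`, `b = 48 y`. -/
def fishRegion : Set (ℝ × ℝ) :=
  {z | -(1 / 2) ≤ 8 * z.1 ∧ 8 * z.1 ≤ 1 ∧ Below (8 * z.1) |48 * z.2| ∧
    (1 / 2 ≤ 8 * z.1 → √(2 * (8 * z.1) - 1) * (1 + 8 * z.1) ≤ |48 * z.2|)}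

end Pool.H3F
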