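import Pool.Agent.H3F.XA

/-! The lower curve of the tail. -/

namespace Pool.H3F

open Finset

section

variable {V : Type} [Fintype V] {ρ : V → ℝ} {I : V → V → ℝ}

theorem xc_calc {al be e h g : ℝ} (hs : al + be = 1) (he : al - be = e) (h0 : 0 ≤ h)
    (heh : h ≤ e) (he1 : e ≤ 1) (hg : g ≤ (al ^ 2 + be ^ 2) - (1 + h ^ 2) / 2) (h3 : 0 ≤ al) :
    h * (3 + h ^ 2) / 2 ≤ 2 * al ^ 3 - 2 * be ^ 3 - 3 * al * g := by
  have ha : al = (1 + e) / 2 := by linarith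
  have hb : be = (1 - e) / 2 := by linarith
  have h1 : 3 * al * g ≤ 3 * al * ((al ^ 2 + be ^ 2) - (1 + h ^ 2) / 2) :=
    mul_le_mul_of_nonneg_left hg (by linarith)
  have h2 : h * (3 + h ^ 2) / 2 ≤ 2 * al ^ 3 - 2 * be ^ 3 -
      3 * al * ((al ^ 2 + be ^ 2) - (1 + h ^ 2) / 2) := by
    rw [ha, hb]
    have h4 : 0 ≤ (e - h) * (6 - e ^ 2 - e * h + 2 * h ^ 2 - 3 * e - 3 * h) := by
      apply mul_nonneg (by linarith)
      nlinarith [mul_nonneg (sub_nonneg.2 heh) h0, mul_nonneg (sub_nonneg.2 he1) (sub_nonneg.2 he1),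
        sq_nonneg (1 - h), mul_nonneg (sub_nonneg.2 he1) h0]
    nlinarith [h4]
  linarith

theorem xc_q2_co_nonneg (h : IsSys ρ I) (x y : V → ℝ) (hx : ∀ i, 0 ≤ x i) (hy : ∀ i, 0 ≤ y i) :
    0 ≤ q2 x y (co I) := by
  unfold q2
  refine Finset.sum_nonneg fun i _ => Finset.sum_nonneg fun j _ => ?_
  have : 0 ≤ co I i j := by
    unfold co
    rcases h.zo i j with h1 | h1 <;> rw [h1] <;> norm_num
  have := mul_nonneg (hx i) (hy j)
  positivity

theorem xc_co01 (h : IsSys ρ I) (i j : V) : 0 ≤ co I i j ∧ co I i j ≤ 1 := by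
  unfold co
  rcases h.zo i j with h1 | h1 <;> rw [h1] <;> norm_num

theorem xc_q3_nonneg (h : IsSys ρ I) (x : V → ℝ) (hx : ∀ i, 0 ≤ x i) :
    0 ≤ q3 x x x (co I) (co I) (co I) := by
  unfold q3
  refine Finset.sum_nonneg fun i _ => Finset.sum_nonneg fun j _ => Finset.sum_nonneg fun k _ => ?_
  have h1 := (xc_co01 h i j).1
  have h2 := (xc_co01 h j k).1
  have h3 := (xc_co01 h i k).1
  have h4 := hx i
  have h5 := hx j
  have h6 := hx k
  positivity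

theorem xc_q3_le (h : IsSys ρ I) (x : V → ℝ) (hx : ∀ i, 0 ≤ x i) :
    q3 x x x (co I) (co I) (co I) ≤ tot x * q2 x x (co I) := by
  rw [← xa_s12]
  unfold q3
  refine Finset.sum_le_sum fun i _ => Finset.sum_le_sum fun j _ => Finset.sum_le_sum fun k _ => ?_
  have h1 := xc_co01 h i j
  have h2 := xc_co01 h j k
  have h3 := xc_co01 h i k
  have h4 : 0 ≤ x i * x j * x k := mul_nonneg (mul_nonneg (hx i) (hx j)) (hx k)
  apply mul_le_mul_of_nonneg_left _ h4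
  have h5 : co I i j * co I j k ≤ co I i j := mul_le_of_le_one_right h1.1 h2.2
  have h6 : co I i j * co I j k * co I i k ≤ co I i j * co I j k :=
    mul_le_of_le_one_right (mul_nonneg h1.1 h2.1) h3.2
  linarith

theorem xc_jn_le (h : IsSys ρ I) (x : V → ℝ) (hx : ∀ i, 0 ≤ x i) (y : V) :
    jn x I y ≤ q2 x x (co I) := by
  unfold jn q2
  refine Finset.sum_le_sum fun k _ => Finset.sum_le_sum fun l _ => ?_
  have h1 := xc_co01 h y k
  have h2 := xc_co01 h y l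
  have h3 := xc_co01 h k l
  have h4 : 0 ≤ x k * x l := mul_nonneg (hx k) (hx l)
  apply mul_le_mul_of_nonneg_left _ h4
  have h5 : co I y k * co I y l ≤ 1 := mul_le_one₀ h1.2 h2.1 h2.2
  exact mul_le_of_le_one_left h3.1 h5

theorem xc_tri_nonneg (h : IsSys ρ I) (x y z : V → ℝ) (hx : ∀ i, 0 ≤ x i) (hy : ∀ i, 0 ≤ y i)
    (hz : ∀ i, 0 ≤ z i) : 0 ≤ tri x y z I := by
  unfold tri
  refine Finset.sum_nonneg fun i _ => Finset.sum_nonneg fun j _ => Finset.sum_nonneg fun k _ => ?_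
  exact mul_nonneg (mul_nonneg (mul_nonneg (hx i) (hy j)) (hz k)) (xa_phi h i j j k i k).1

/-- Lower bound when the positive mass is the larger one. -/
theorem IsSys.tail_pos (h : IsSys ρ I) (hσ : tot (mm ρ) ≤ tot (pp ρ)) (ha : 1 / 2 ≤ aOf ρ I) :
    √(2 * aOf ρ I - 1) * (1 + aOf ρ I) ≤ bOf ρ I := by
  have hb := h.b_eq
  rw [h.tri_same, h.tri_same, h.tri_mixed (pp ρ) (mm ρ)] at hb
  have h1 := h.a_eq
  have h2 := IsSys.u_eq (pp ρ) I
  have h3 := IsSys.u_eq (mm ρ) I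
  have h4 := xc_q2_co_nonneg h (pp ρ) (pp ρ) (pp_nonneg ρ) (pp_nonneg ρ)
  have h5 := xc_q2_co_nonneg h (mm ρ) (mm ρ) (mm_nonneg ρ) (mm_nonneg ρ)
  have h6 := xc_q3_nonneg h (pp ρ) (pp_nonneg ρ)
  have h7 := xc_q3_le h (mm ρ) (mm_nonneg ρ)
  have h8 := xc_tri_nonneg h (pp ρ) (mm ρ) (mm ρ) (pp_nonneg ρ) (mm_nonneg ρ) (mm_nonneg ρ)
  have h9 := h.tot_add
  have h10 := xa_q2_nonneg h (mm ρ) (pp ρ) (mm_nonneg ρ) (pp_nonneg ρ)
  have h11 : ∑ i, mm ρ i * jn (pp ρ) I i ≤ tot (mm ρ) * q2 (pp ρ) (pp ρ) (co I) := by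
    unfold tot
    rw [Finset.sum_mul]
    exact Finset.sum_le_sum fun i _ =>
      mul_le_mul_of_nonneg_left (xc_jn_le h _ (pp_nonneg ρ) i) (mm_nonneg ρ i)
  have h12 : 0 ≤ tot (pp ρ) := Finset.sum_nonneg fun i _ => pp_nonneg ρ i
  have h13 : 0 ≤ tot (mm ρ) := Finset.sum_nonneg fun i _ => mm_nonneg ρ i
  set al := tot (pp ρ)
  set be := tot (mm ρ)
  set u := q2 (pp ρ) (pp ρ) (co I)
  set g := q2 (mm ρ) (mm ρ) (co I)
  set i := q2 (mm ρ) (pp ρ) I
  set t := q3 (pp ρ) (pp ρ) (pp ρ) (co I) (co I) (co I)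
  set tM := q3 (mm ρ) (mm ρ) (mm ρ) (co I) (co I) (co I)
  set s := ∑ i, mm ρ i * jn (pp ρ) I i
  set a := aOf ρ I with haa
  set r := √(2 * a - 1) with hr
  have h14 : r ^ 2 = 2 * a - 1 := Real.sq_sqrt (by linarith)
  have h15 : 0 ≤ r := Real.sqrt_nonneg _
  have h16 : a = (1 + r ^ 2) / 2 := by linarith
  have h17 : u + 2 * i + g = al ^ 2 + be ^ 2 - a := by linarith
  have h18 : r ≤ al - be := by
    apply abs_le_of_sq_le_sq' _ (by linarith) |>.2
    nlinarith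
  have h19 := xc_calc (al := al) (be := be) (e := al - be) (h := r) (g := u + 2 * i) h9 rfl h15 h18
    (by linarith) (by rw [← h16]; linarith) h12
  have h20 : r * (1 + a) = r * (3 + r ^ 2) / 2 := by rw [h16]; ring
  rw [h20]
  refine h19.trans ?_
  rw [hb]
  have h21 : be * g * 3 - tM ≥ 0 := by nlinarith [mul_nonneg h13 h5]
  nlinarith [mul_nonneg h13 h4, mul_nonneg h13 h5]

theorem IsSys.tail (h : IsSys ρ I) (ha : 1 / 2 ≤ aOf ρ I) :
    √(2 * aOf ρ I - 1) * (1 + aOf ρ I) ≤ |bOf ρ I| := by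
  rcases le_total (tot (mm ρ)) (tot (pp ρ)) with h1 | h1
  · exact (h.tail_pos h1 ha).trans (le_abs_self _)
  · have h2 : tot (mm fun i => -ρ i) ≤ tot (pp fun i => -ρ i) := by
      have e1 : (mm fun i => -ρ i) = pp ρ := by
        funext i
        unfold mm pp
        rw [neg_neg]
      have e2 : (pp fun i => -ρ i) = mm ρ := by
        funext i
        unfold mm pp
        rfl
      rw [e1, e2]
      exact h1
    have h3 := h.neg.tail_pos h2 (by rw [aOf_neg]; exact ha)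
    rw [aOf_neg, bOf_neg] at h3
    exact h3.trans (neg_le_abs _)

end

end Pool.H3F
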