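import Pool.Agent.H3F.XL

/-! The left end: conclusion. -/

namespace Pool.H3F

open Finset

theorem XM_e0 (e0 : ℝ) (he : 0 ≤ e0) (h : e0 ^ 2 ≤ 3 - 2 * √2) : e0 ^ 2 + 2 * e0 ≤ 1 := by
  have h2 : √2 ^ 2 = 2 := Real.sq_sqrt (by norm_num)
  have h3 : (1 : ℝ) ≤ √2 := by
    rw [show (1 : ℝ) = √1 by simp]
    exact Real.sqrt_le_sqrt (by norm_num)
  have h4 : e0 ^ 2 ≤ (√2 - 1) ^ 2 := by nlinarith
  have h5 : e0 ≤ √2 - 1 := by
    have := abs_le_of_sq_le_sq h4 (by linarith)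
    exact le_trans (le_abs_self _) this
  nlinarith

/-- The case of small positive mass. -/
theorem XM_case1 (α β i π δ c e0 b : ℝ) (hα : 0 ≤ α) (hβ : 0 < β) (hαβ : α + β = 1)
    (hle : α ≤ β) (hi : i ≤ β * α) (hπ : 0 ≤ π) (hδ : 0 ≤ δ) (hc : c = 2 * i - π - δ)
    (hc1 : 2 / 5 ≤ c) (he0 : 0 ≤ e0) (he1 : e0 ^ 2 = 1 - 2 * c) (he2 : e0 ^ 2 + 2 * e0 ≤ 1)
    (hb : b ≤ 3 * β * i - 3 * i ^ 2 / β + 3 * α * δ - 2 * δ ^ 2 / β +
      3 * min (α * π) ((α - β) * π + α * (α * β - i))) : b ≤ 3 / 2 * c * e0 := by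
  have hab4 : 4 * (α * β) ≤ 1 := by nlinarith [sq_nonneg (α - β)]
  -- the minimum
  have hmin : min (α * π) ((α - β) * π + α * (α * β - i)) ≤ α ^ 2 * (α * β - i) / β := by
    rw [le_div_iff₀ hβ]
    have h1 := min_le_left (α * π) ((α - β) * π + α * (α * β - i))
    have h2 := min_le_right (α * π) ((α - β) * π + α * (α * β - i))
    have h3 := mul_le_mul_of_nonneg_left h1 (sub_nonneg.2 hle)
    have h4 := mul_le_mul_of_nonneg_left h2 hα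
    nlinarith
  obtain ⟨h, hh⟩ : ∃ h, h = α * β - i := ⟨_, rfl⟩
  have hh0 : 0 ≤ h := by rw [hh]; linarith
  rw [← hh] at hmin hb
  obtain ⟨d1, hd1⟩ : ∃ d1, d1 = 2 * (α * β) - 2 * h - c := ⟨_, rfl⟩
  have hd2 : δ ≤ d1 := by rw [hd1, hh, hc]; linarith
  have hd3 : 4 * d1 ≤ 3 * (α * β) := by rw [hd1]; linarith
  have hdel : 3 * α * δ - 2 * δ ^ 2 / β ≤ 3 * α * d1 - 2 * d1 ^ 2 / β := by
    have e : (3 * α * d1 - 2 * d1 ^ 2 / β) - (3 * α * δ - 2 * δ ^ 2 / β) =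
        (d1 - δ) * (3 * (α * β) - 2 * (d1 + δ)) / β := by
      field_simp
      ring
    have h5 : 0 ≤ (d1 - δ) * (3 * (α * β) - 2 * (d1 + δ)) / β := by
      apply div_nonneg _ hβ.le
      apply mul_nonneg
      · linarith
      · linarith
    linarith
  have hi2 : i = α * β - h := by rw [hh]; ring
  rw [hi2] at hb
  -- the final identity
  obtain ⟨e, he⟩ : ∃ e, e = β - α := ⟨_, rfl⟩
  have heα : α = (1 - e) / 2 := by rw [he]; linarith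
  have heβ : β = (1 + e) / 2 := by rw [he]; linarith
  have he0' : 0 ≤ e := by rw [he]; linarith
  have hcc : c = (1 - e0 ^ 2) / 2 := by rw [he1]; ring
  have h1e : 0 < 1 + e := by linarith
  have hD : 0 ≤ e0 ^ 2 - e ^ 2 - 4 * h := by
    have h6 : 0 ≤ d1 := le_trans hδ hd2
    rw [hd1, hcc, heα, heβ] at h6
    nlinarith
  have hee : e ≤ e0 := by
    have : e ^ 2 ≤ e0 ^ 2 := by linarith
    exact le_trans (le_abs_self _) (abs_le_of_sq_le_sq this he0)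
  have hid : 3 / 2 * c * e0 - (3 * β * (α * β - h) - 3 * (α * β - h) ^ 2 / β +
      (3 * α * d1 - 2 * d1 ^ 2 / β) + 3 * (α ^ 2 * h / β)) =
      3 / 4 * ((e0 - e) * (1 - e0 ^ 2 - e0 - e)) +
      ((e0 ^ 2 - e ^ 2 - 4 * h) ^ 2 + 6 * h ^ 2 + 6 * (e * h)) / (1 + e) := by
    rw [hd1, hcc, heα, heβ]
    field_simp
    ring
  have h7 : 0 ≤ (e0 - e) * (1 - e0 ^ 2 - e0 - e) :=
    mul_nonneg (by linarith) (by linarith)
  have h8 : 0 ≤ ((e0 ^ 2 - e ^ 2 - 4 * h) ^ 2 + 6 * h ^ 2 + 6 * (e * h)) / (1 + e) := by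
    positivity
  linarith

/-- The case of large positive mass. -/
theorem XM_case2 (α β i π δ c e0 b : ℝ) (hβ : 0 < β) (hαβ : α + β = 1)
    (hle : β ≤ α) (hi : i ≤ β * α) (hδ : 0 ≤ δ) (hc : c = 2 * i - π - δ)
    (he0 : 0 ≤ e0) (he1 : e0 ^ 2 = 1 - 2 * c) (he2 : e0 ^ 2 + 2 * e0 ≤ 1)
    (hb : b ≤ 3 * β * i - 3 * i ^ 2 / β + 3 * α * δ - 2 * δ ^ 2 / β +
      3 * min (α * π) ((α - β) * π + α * (α * β - i))) : b ≤ 3 / 2 * c * e0 := by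
  have hmin := min_le_left (α * π) ((α - β) * π + α * (α * β - i))
  have hδ2 : 0 ≤ 2 * δ ^ 2 / β := by positivity
  have hb1 : b ≤ 3 * β * i - 3 * i ^ 2 / β + 3 * α * (2 * i - c) := by
    have : π + δ = 2 * i - c := by rw [hc]; ring
    nlinarith
  obtain ⟨h, hh⟩ : ∃ h, h = α * β - i := ⟨_, rfl⟩
  have hh0 : 0 ≤ h := by rw [hh]; linarith
  have hi2 : i = α * β - h := by rw [hh]; ring
  rw [hi2] at hb1
  obtain ⟨e, he⟩ : ∃ e, e = α - β := ⟨_, rfl⟩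
  have heα : α = (1 + e) / 2 := by rw [he]; linarith
  have heβ : β = (1 - e) / 2 := by rw [he]; linarith
  have he0' : 0 ≤ e := by rw [he]; linarith
  have hcc : c = (1 - e0 ^ 2) / 2 := by rw [he1]; ring
  have h3 : 3 * β * (α * β - h) - 3 * (α * β - h) ^ 2 / β + 3 * α * (2 * (α * β - h) - c) =
      3 / 4 * (1 + e) * (e0 ^ 2 - e) - 3 * β * h - 3 * h ^ 2 / β := by
    have e1 : 3 * β * (α * β - h) - 3 * (α * β - h) ^ 2 / β + 3 * α * (2 * (α * β - h) - c) =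
        3 * β * (α * β) - 3 * α ^ 2 * β + 3 * α * (2 * (α * β) - c) - 3 * β * h -
          3 * h ^ 2 / β := by
      field_simp
      ring
    rw [e1, hcc, heα, heβ]
    ring
  have h4 : 0 ≤ 3 * β * h := by positivity
  have h5 : 0 ≤ 3 * h ^ 2 / β := by positivity
  have h6 : (1 + e) * (e0 ^ 2 - e) ≤ e0 ^ 2 := by
    have : 0 ≤ e * (1 - e0 ^ 2) := mul_nonneg he0' (by linarith)
    nlinarith
  have h7 : 3 / 4 * e0 ^ 2 ≤ 3 / 2 * c * e0 := by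
    rw [hcc]
    have : 0 ≤ e0 * (1 - e0 ^ 2 - e0) := mul_nonneg he0 (by linarith)
    nlinarith
  linarith

/-- The real inequality. `α`, `β` masses, `i` cross term, `π`, `δ` inner terms. -/
theorem left_calc (α β i π δ b : ℝ) (hα : 0 ≤ α) (hβ : 0 < β) (hαβ : α + β = 1) (hi : i ≤ β * α)
    (hπ : 0 ≤ π) (hδ : 0 ≤ δ) (hc : √2 - 1 ≤ 2 * i - π - δ)
    (hb : b ≤ 3 * β * i - 3 * i ^ 2 / β + 3 * α * δ - 2 * δ ^ 2 / β +
      3 * min (α * π) ((α - β) * π + α * (α * β - i))) :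
    b ≤ 3 / 2 * (2 * i - π - δ) * √(1 - 2 * (2 * i - π - δ)) := by
  obtain ⟨c, hcd⟩ : ∃ c, c = 2 * i - π - δ := ⟨_, rfl⟩
  rw [← hcd] at hc ⊢
  have hab4 : 4 * (α * β) ≤ 1 := by nlinarith [sq_nonneg (α - β)]
  have hc2 : 0 ≤ 1 - 2 * c := by rw [hcd]; nlinarith
  obtain ⟨e0, he⟩ : ∃ e0, e0 = √(1 - 2 * c) := ⟨_, rfl⟩
  rw [← he]
  have he0 : 0 ≤ e0 := by rw [he]; exact Real.sqrt_nonneg _
  have he1 : e0 ^ 2 = 1 - 2 * c := by rw [he]; exact Real.sq_sqrt hc2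
  have he2 : e0 ^ 2 + 2 * e0 ≤ 1 := XM_e0 e0 he0 (by linarith)
  have h14 : (7 / 5 : ℝ) ≤ √2 := by
    apply Real.le_sqrt_of_sq_le
    norm_num
  rcases le_total α β with h | h
  · exact XM_case1 α β i π δ c e0 b hα hβ hαβ h hi hπ hδ hcd (by linarith) he0 he1 he2 hb
  · exact XM_case2 α β i π δ c e0 b hβ hαβ h hi hδ hcd he0 he1 he2 hb

section

variable {V : Type} [Fintype V] {ρ : V → ℝ} {I : V → V → ℝ}

theorem XM_one (h : IsSys ρ I) (ha : aOf ρ I ≤ 1 - √2) :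
    bOf ρ I ≤ -(3 / 2) * aOf ρ I * √(1 + 2 * aOf ρ I) := by
  obtain ⟨r1, r2, r3, r4⟩ := h.left_rng
  have hae := h.a_eq
  have hta := h.tot_add
  have h1 : (1 : ℝ) < √2 := by
    rw [show (1 : ℝ) = √1 by simp]
    exact Real.sqrt_lt_sqrt (by norm_num) (by norm_num)
  have hm0 : 0 ≤ tot (mm ρ) := Finset.sum_nonneg fun i _ => mm_nonneg ρ i
  have hp0 : 0 ≤ tot (pp ρ) := Finset.sum_nonneg fun i _ => pp_nonneg ρ i
  have hm : 0 < tot (mm ρ) := by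
    rcases hm0.eq_or_lt with h0 | h0
    · exfalso
      rw [← h0, zero_mul] at r4
      linarith
    · exact h0
  have key := left_calc (tot (pp ρ)) (tot (mm ρ)) (q2 (mm ρ) (pp ρ) I) (q2 (pp ρ) (pp ρ) I)
    (q2 (mm ρ) (mm ρ) I) (bOf ρ I) hp0 hm hta r4 r1 r2 (by rw [hae] at ha; linarith)
    (h.left_pre hm)
  have e1 : 2 * q2 (mm ρ) (pp ρ) I - q2 (pp ρ) (pp ρ) I - q2 (mm ρ) (mm ρ) I = -aOf ρ I := by
    rw [hae]; ring
  rw [e1] at key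
  have e2 : 1 - 2 * -aOf ρ I = 1 + 2 * aOf ρ I := by ring
  rw [e2] at key
  linarith

theorem IsSys.left (h : IsSys ρ I) (ha : aOf ρ I ≤ 1 - √2) :
    |bOf ρ I| ≤ -(3 / 2) * aOf ρ I * √(1 + 2 * aOf ρ I) := by
  rw [abs_le]
  constructor
  · have h1 := XM_one h.neg (by rw [aOf_neg]; exact ha)
    rw [aOf_neg, bOf_neg] at h1
    linarith
  · exact XM_one h ha

end

end Pool.H3F
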