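import Mathlib

/-! Real inequality 2 for the upper curve. -/

namespace Pool.H3F

theorem XR2_box1 (β x : ℝ) (h1 : 3 / 20 ≤ β) (h2 : β ≤ 9 / 40) (h3 : 0 ≤ x)
    (h4 : x ≤ 3 / 25) : 0 ≤ - (x * (32 / 25 - 4 * β + 2 * β ^ 2) - (64 / 125 - 96 / 25 * β + 9 * β ^ 2 - 4 * β ^ 3) - 4 * β * x ^ 2) := by
  obtain ⟨u, hu⟩ : ∃ u, u = β - 3 / 20 := ⟨_, rfl⟩
  obtain ⟨v, hv⟩ : ∃ v, v = 9 / 40 - β := ⟨_, rfl⟩
  obtain ⟨w, hw⟩ : ∃ w, w = x - 0 := ⟨_, rfl⟩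
  obtain ⟨z, hz⟩ : ∃ z, z = 3 / 25 - x := ⟨_, rfl⟩
  have hu0 : 0 ≤ u := by linarith
  have hv0 : 0 ≤ v := by linarith
  have hw0 : 0 ≤ w := by linarith
  have hz0 : 0 ≤ z := by linarith
  have e : - (x * (32 / 25 - 4 * β + 2 * β ^ 2) - (64 / 125 - 96 / 25 * β + 9 * β ^ 2 - 4 * β ^ 3) - 4 * β * x ^ 2) =
        5000000 / 243 * (v ^ 3 * z ^ 2) +
        6520000 / 243 * (v ^ 3 * w * z) +
        1865600 / 243 * (v ^ 3 * w ^ 2) +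
        3590000 / 81 * (u * v ^ 2 * z ^ 2) +
        4108000 / 81 * (u * v ^ 2 * w * z) +
        921200 / 81 * (u * v ^ 2 * w ^ 2) +
        2720000 / 81 * (u ^ 2 * v * z ^ 2) +
        2758000 / 81 * (u ^ 2 * v * w * z) +
        498800 / 81 * (u ^ 2 * v * w ^ 2) +
        2322500 / 243 * (u ^ 3 * z ^ 2) +
        2335000 / 243 * (u ^ 3 * w * z) +
        530900 / 243 * (u ^ 3 * w ^ 2) := by
    rw [hu, hv, hw, hz]; ring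
  rw [e]; positivity

theorem XR2_box2 (β x : ℝ) (h1 : 3 / 20 ≤ β) (h2 : β ≤ 3 / 16) (h3 : 3 / 25 ≤ x)
    (h4 : x ≤ 9 / 50) : 0 ≤ x ^ 3 - (x * (32 / 25 - 4 * β + 2 * β ^ 2) - (64 / 125 - 96 / 25 * β + 9 * β ^ 2 - 4 * β ^ 3) - 4 * β * x ^ 2) := by
  obtain ⟨u, hu⟩ : ∃ u, u = β - 3 / 20 := ⟨_, rfl⟩
  obtain ⟨v, hv⟩ : ∃ v, v = 3 / 16 - β := ⟨_, rfl⟩
  obtain ⟨w, hw⟩ : ∃ w, w = x - 3 / 25 := ⟨_, rfl⟩
  obtain ⟨z, hz⟩ : ∃ z, z = 9 / 50 - x := ⟨_, rfl⟩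
  have hu0 : 0 ≤ u := by linarith
  have hv0 : 0 ≤ v := by linarith
  have hw0 : 0 ≤ w := by linarith
  have hz0 : 0 ≤ z := by linarith
  have e : x ^ 3 - (x * (32 / 25 - 4 * β + 2 * β ^ 2) - (64 / 125 - 96 / 25 * β + 9 * β ^ 2 - 4 * β ^ 3) - 4 * β * x ^ 2) =
        3095552000 / 729 * (v ^ 3 * z ^ 3) +
        2407168000 / 243 * (v ^ 3 * w * z ^ 2) +
        199168000 / 27 * (v ^ 3 * w ^ 2 * z) +
        1265408000 / 729 * (v ^ 3 * w ^ 3) +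
        2340032000 / 243 * (u * v ^ 2 * z ^ 3) +
        1721408000 / 81 * (u * v ^ 2 * w * z ^ 2) +
        1180352000 / 81 * (u * v ^ 2 * w ^ 2 * z) +
        730688000 / 243 * (u * v ^ 2 * w ^ 3) +
        1793312000 / 243 * (u ^ 2 * v * z ^ 3) +
        414416000 / 27 * (u ^ 2 * v * w * z ^ 2) +
        774592000 / 81 * (u ^ 2 * v * w ^ 2 * z) +
        401168000 / 243 * (u ^ 2 * v * w ^ 3) +
        1441892000 / 729 * (u ^ 3 * z ^ 3) +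
        959188000 / 243 * (u ^ 3 * w * z ^ 2) +
        187244000 / 81 * (u ^ 3 * w ^ 2 * z) +
        263348000 / 729 * (u ^ 3 * w ^ 3) := by
    rw [hu, hv, hw, hz]; ring
  rw [e]; positivity

theorem XR2_box3 (β x : ℝ) (h1 : 3 / 20 ≤ β) (h2 : β ≤ 3 / 16) (h3 : 9 / 50 ≤ x)
    (h4 : x ≤ 6 / 25) : 0 ≤ x ^ 4 * (16 / 25 - 2 * β - 2 * β * x + β ^ 2) - (x * (32 / 25 - 4 * β + 2 * β ^ 2) - (64 / 125 - 96 / 25 * β + 9 * β ^ 2 - 4 * β ^ 3) - 4 * β * x ^ 2) ^ 2 := by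
  obtain ⟨u, hu⟩ : ∃ u, u = β - 3 / 20 := ⟨_, rfl⟩
  obtain ⟨v, hv⟩ : ∃ v, v = 3 / 16 - β := ⟨_, rfl⟩
  obtain ⟨w, hw⟩ : ∃ w, w = x - 9 / 50 := ⟨_, rfl⟩
  obtain ⟨z, hz⟩ : ∃ z, z = 6 / 25 - x := ⟨_, rfl⟩
  have hu0 : 0 ≤ u := by linarith
  have hv0 : 0 ≤ v := by linarith
  have hw0 : 0 ≤ w := by linarith
  have hz0 : 0 ≤ z := by linarith
  have e : x ^ 4 * (16 / 25 - 2 * β - 2 * β * x + β ^ 2) - (x * (32 / 25 - 4 * β + 2 * β ^ 2) - (64 / 125 - 96 / 25 * β + 9 * β ^ 2 - 4 * β ^ 3) - 4 * β * x ^ 2) ^ 2 =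
        10610881331200000 / 177147 * (v ^ 6 * z ^ 5) +
        156630843392000000 / 177147 * (v ^ 6 * w * z ^ 4) +
        454697844736000000 / 177147 * (v ^ 6 * w ^ 2 * z ^ 3) +
        544123617280000000 / 177147 * (v ^ 6 * w ^ 3 * z ^ 2) +
        297338667008000000 / 177147 * (v ^ 6 * w ^ 4 * z) +
        61873822105600000 / 177147 * (v ^ 6 * w ^ 5) +
        38089588736000000 / 59049 * (u * v ^ 5 * z ^ 5) +
        344422924288000000 / 59049 * (u * v ^ 5 * w * z ^ 4) +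
        884423131136000000 / 59049 * (u * v ^ 5 * w ^ 2 * z ^ 3) +
        994242363392000000 / 59049 * (u * v ^ 5 * w ^ 3 * z ^ 2) +
        521780936704000000 / 59049 * (u * v ^ 5 * w ^ 4 * z) +
        105588555776000000 / 59049 * (u * v ^ 5 * w ^ 5) +
        112955469824000000 / 59049 * (u ^ 2 * v ^ 4 * z ^ 5) +
        847902453760000000 / 59049 * (u ^ 2 * v ^ 4 * w * z ^ 4) +
        2024886886400000000 / 59049 * (u ^ 2 * v ^ 4 * w ^ 2 * z ^ 3) +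
        2181046845440000000 / 59049 * (u ^ 2 * v ^ 4 * w ^ 3 * z ^ 2) +
        1112287283200000000 / 59049 * (u ^ 2 * v ^ 4 * w ^ 4 * z) +
        221076826112000000 / 59049 * (u ^ 2 * v ^ 4 * w ^ 5) +
        464978204672000000 / 177147 * (u ^ 3 * v ^ 3 * z ^ 5) +
        3155761192960000000 / 177147 * (u ^ 3 * v ^ 3 * w * z ^ 4) +
        7183614740480000000 / 177147 * (u ^ 3 * v ^ 3 * w ^ 2 * z ^ 3) +
        7512716318720000000 / 177147 * (u ^ 3 * v ^ 3 * w ^ 3 * z ^ 2) +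
        3763668090880000000 / 177147 * (u ^ 3 * v ^ 3 * w ^ 4 * z) +
        743353542656000000 / 177147 * (u ^ 3 * v ^ 3 * w ^ 5) +
        112271695232000000 / 59049 * (u ^ 4 * v ^ 2 * z ^ 5) +
        715559739520000000 / 59049 * (u ^ 4 * v ^ 2 * w * z ^ 4) +
        1577745637760000000 / 59049 * (u ^ 4 * v ^ 2 * w ^ 2 * z ^ 3) +
        1621390006400000000 / 59049 * (u ^ 4 * v ^ 2 * w ^ 3 * z ^ 2) +
        807857294080000000 / 59049 * (u ^ 4 * v ^ 2 * w ^ 4 * z) +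
        160813404416000000 / 59049 * (u ^ 4 * v ^ 2 * w ^ 5) +
        42271692070400000 / 59049 * (u ^ 5 * v * z ^ 5) +
        258667262464000000 / 59049 * (u ^ 5 * v * w * z ^ 4) +
        559804418432000000 / 59049 * (u ^ 5 * v * w ^ 2 * z ^ 3) +
        572382909440000000 / 59049 * (u ^ 5 * v * w ^ 3 * z ^ 2) +
        287514544576000000 / 59049 * (u ^ 5 * v * w ^ 4 * z) +
        58494299955200000 / 59049 * (u ^ 5 * v * w ^ 5) +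
        19766025592000000 / 177147 * (u ^ 6 * z ^ 5) +
        117996104984000000 / 177147 * (u ^ 6 * w * z ^ 4) +
        253665521968000000 / 177147 * (u ^ 6 * w ^ 2 * z ^ 3) +
        261121514416000000 / 177147 * (u ^ 6 * w ^ 3 * z ^ 2) +
        133763910872000000 / 177147 * (u ^ 6 * w ^ 4 * z) +
        28053951160000000 / 177147 * (u ^ 6 * w ^ 5) := by
    rw [hu, hv, hw, hz]; ring
  rw [e]; positivity

theorem XR2_box4 (β x : ℝ) (h1 : 3 / 16 ≤ β) (h2 : β ≤ 9 / 40) (h3 : 3 / 25 ≤ x)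
    (h4 : x ≤ 9 / 50) : 0 ≤ x ^ 3 - (x * (32 / 25 - 4 * β + 2 * β ^ 2) - (64 / 125 - 96 / 25 * β + 9 * β ^ 2 - 4 * β ^ 3) - 4 * β * x ^ 2) := by
  obtain ⟨u, hu⟩ : ∃ u, u = β - 3 / 16 := ⟨_, rfl⟩
  obtain ⟨v, hv⟩ : ∃ v, v = 9 / 40 - β := ⟨_, rfl⟩
  obtain ⟨w, hw⟩ : ∃ w, w = x - 3 / 25 := ⟨_, rfl⟩
  obtain ⟨z, hz⟩ : ∃ z, z = 9 / 50 - x := ⟨_, rfl⟩
  have hu0 : 0 ≤ u := by linarith
  have hv0 : 0 ≤ v := by linarith
  have hw0 : 0 ≤ w := by linarith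
  have hz0 : 0 ≤ z := by linarith
  have e : x ^ 3 - (x * (32 / 25 - 4 * β + 2 * β ^ 2) - (64 / 125 - 96 / 25 * β + 9 * β ^ 2 - 4 * β ^ 3) - 4 * β * x ^ 2) =
        1441892000 / 729 * (v ^ 3 * z ^ 3) +
        959188000 / 243 * (v ^ 3 * w * z ^ 2) +
        187244000 / 81 * (v ^ 3 * w ^ 2 * z) +
        263348000 / 729 * (v ^ 3 * w ^ 3) +
        1090472000 / 243 * (u * v ^ 2 * z ^ 3) +
        675128000 / 81 * (u * v ^ 2 * w * z ^ 2) +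
        348872000 / 81 * (u * v ^ 2 * w ^ 2 * z) +
        125528000 / 243 * (u * v ^ 2 * w ^ 3) +
        934352000 / 243 * (u ^ 2 * v * z ^ 3) +
        195056000 / 27 * (u ^ 2 * v * w * z ^ 2) +
        328912000 / 81 * (u ^ 2 * v * w ^ 2 * z) +
        179408000 / 243 * (u ^ 2 * v * w ^ 3) +
        960032000 / 729 * (u ^ 3 * z ^ 3) +
        675808000 / 243 * (u ^ 3 * w * z ^ 2) +
        162784000 / 81 * (u ^ 3 * w ^ 2 * z) +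
        411488000 / 729 * (u ^ 3 * w ^ 3) := by
    rw [hu, hv, hw, hz]; ring
  rw [e]; positivity

theorem XR2_box5 (β x : ℝ) (h1 : 3 / 16 ≤ β) (h2 : β ≤ 9 / 40) (h3 : 9 / 50 ≤ x)
    (h4 : x ≤ 6 / 25) : 0 ≤ x ^ 4 * (16 / 25 - 2 * β - 2 * β * x + β ^ 2) - (x * (32 / 25 - 4 * β + 2 * β ^ 2) - (64 / 125 - 96 / 25 * β + 9 * β ^ 2 - 4 * β ^ 3) - 4 * β * x ^ 2) ^ 2 := by
  obtain ⟨u, hu⟩ : ∃ u, u = β - 3 / 16 := ⟨_, rfl⟩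
  obtain ⟨v, hv⟩ : ∃ v, v = 9 / 40 - β := ⟨_, rfl⟩
  obtain ⟨w, hw⟩ : ∃ w, w = x - 9 / 50 := ⟨_, rfl⟩
  obtain ⟨z, hz⟩ : ∃ z, z = 6 / 25 - x := ⟨_, rfl⟩
  have hu0 : 0 ≤ u := by linarith
  have hv0 : 0 ≤ v := by linarith
  have hw0 : 0 ≤ w := by linarith
  have hz0 : 0 ≤ z := by linarith
  have e : x ^ 4 * (16 / 25 - 2 * β - 2 * β * x + β ^ 2) - (x * (32 / 25 - 4 * β + 2 * β ^ 2) - (64 / 125 - 96 / 25 * β + 9 * β ^ 2 - 4 * β ^ 3) - 4 * β * x ^ 2) ^ 2 =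
        19766025592000000 / 177147 * (v ^ 6 * z ^ 5) +
        117996104984000000 / 177147 * (v ^ 6 * w * z ^ 4) +
        253665521968000000 / 177147 * (v ^ 6 * w ^ 2 * z ^ 3) +
        261121514416000000 / 177147 * (v ^ 6 * w ^ 3 * z ^ 2) +
        133763910872000000 / 177147 * (v ^ 6 * w ^ 4 * z) +
        28053951160000000 / 177147 * (v ^ 6 * w ^ 5) +
        36792410297600000 / 59049 * (u * v ^ 5 * z ^ 5) +
        213317157472000000 / 59049 * (u * v ^ 5 * w * z ^ 4) +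
        454857669440000000 / 59049 * (u * v ^ 5 * w ^ 2 * z ^ 3) +
        472103148224000000 / 59049 * (u * v ^ 5 * w ^ 3 * z ^ 2) +
        247541098912000000 / 59049 * (u * v ^ 5 * w ^ 4 * z) +
        53721504684800000 / 59049 * (u * v ^ 5 * w ^ 5) +
        84875286368000000 / 59049 * (u ^ 2 * v ^ 4 * z ^ 5) +
        488809214560000000 / 59049 * (u ^ 2 * v ^ 4 * w * z ^ 4) +
        1053011892800000000 / 59049 * (u ^ 2 * v ^ 4 * w ^ 2 * z ^ 3) +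
        1119991200320000000 / 59049 * (u ^ 2 * v ^ 4 * w ^ 3 * z ^ 2) +
        607990065760000000 / 59049 * (u ^ 2 * v ^ 4 * w ^ 4 * z) +
        136949428064000000 / 59049 * (u ^ 2 * v ^ 4 * w ^ 5) +
        319503527168000000 / 177147 * (u ^ 3 * v ^ 3 * z ^ 5) +
        1856977857280000000 / 177147 * (u ^ 3 * v ^ 3 * w * z ^ 4) +
        4092233868800000000 / 177147 * (u ^ 3 * v ^ 3 * w ^ 2 * z ^ 3) +
        4494137008640000000 / 177147 * (u ^ 3 * v ^ 3 * w ^ 3 * z ^ 2) +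
        2525387357440000000 / 177147 * (u ^ 3 * v ^ 3 * w ^ 4 * z) +
        585484354304000000 / 177147 * (u ^ 3 * v ^ 3 * w ^ 5) +
        77066427776000000 / 59049 * (u ^ 4 * v ^ 2 * z ^ 5) +
        456121217920000000 / 59049 * (u ^ 4 * v ^ 2 * w * z ^ 4) +
        1032440994560000000 / 59049 * (u ^ 4 * v ^ 2 * w ^ 2 * z ^ 3) +
        1168062759680000000 / 59049 * (u ^ 4 * v ^ 2 * w ^ 3 * z ^ 2) +
        673475463040000000 / 59049 * (u ^ 4 * v ^ 2 * w ^ 4 * z) +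
        158663543168000000 / 59049 * (u ^ 4 * v ^ 2 * w ^ 5) +
        29803991552000000 / 59049 * (u ^ 5 * v * z ^ 5) +
        180423505408000000 / 59049 * (u ^ 5 * v * w * z ^ 4) +
        418765792256000000 / 59049 * (u ^ 5 * v * w ^ 2 * z ^ 3) +
        484704115712000000 / 59049 * (u ^ 5 * v * w ^ 3 * z ^ 2) +
        283855972864000000 / 59049 * (u ^ 5 * v * w ^ 4 * z) +
        67242397184000000 / 59049 * (u ^ 5 * v * w ^ 5) +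
        13697919692800000 / 177147 * (u ^ 6 * z ^ 5) +
        85394218496000000 / 177147 * (u ^ 6 * w * z ^ 4) +
        203043619840000000 / 177147 * (u ^ 6 * w ^ 2 * z ^ 3) +
        239238956032000000 / 177147 * (u ^ 6 * w ^ 3 * z ^ 2) +
        141399850496000000 / 177147 * (u ^ 6 * w ^ 4 * z) +
        33479550054400000 / 177147 * (u ^ 6 * w ^ 5) := by
    rw [hu, hv, hw, hz]; ring
  rw [e]; positivity

theorem XR2_box6 (β x : ℝ) (h1 : 9 / 40 ≤ β) (h2 : β ≤ 3 / 10) (h3 : 0 ≤ x)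
    (h4 : x ≤ 3 / 25) : 0 ≤ - (x * (32 / 25 - 4 * β + 2 * β ^ 2) - (64 / 125 - 96 / 25 * β + 9 * β ^ 2 - 4 * β ^ 3) - 4 * β * x ^ 2) := by
  obtain ⟨u, hu⟩ : ∃ u, u = β - 9 / 40 := ⟨_, rfl⟩
  obtain ⟨v, hv⟩ : ∃ v, v = 3 / 10 - β := ⟨_, rfl⟩
  obtain ⟨w, hw⟩ : ∃ w, w = x - 0 := ⟨_, rfl⟩
  obtain ⟨z, hz⟩ : ∃ z, z = 3 / 25 - x := ⟨_, rfl⟩
  have hu0 : 0 ≤ u := by linarith
  have hv0 : 0 ≤ v := by linarith
  have hw0 : 0 ≤ w := by linarith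
  have hz0 : 0 ≤ z := by linarith
  have e : - (x * (32 / 25 - 4 * β + 2 * β ^ 2) - (64 / 125 - 96 / 25 * β + 9 * β ^ 2 - 4 * β ^ 3) - 4 * β * x ^ 2) =
        2322500 / 243 * (v ^ 3 * z ^ 2) +
        2335000 / 243 * (v ^ 3 * w * z) +
        530900 / 243 * (v ^ 3 * w ^ 2) +
        1925000 / 81 * (u * v ^ 2 * z ^ 2) +
        1912000 / 81 * (u * v ^ 2 * w * z) +
        563000 / 81 * (u * v ^ 2 * w ^ 2) +
        2000000 / 81 * (u ^ 2 * v * z ^ 2) +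
        2416000 / 81 * (u ^ 2 * v * w * z) +
        1049600 / 81 * (u ^ 2 * v * w ^ 2) +
        2480000 / 243 * (u ^ 3 * z ^ 2) +
        3712000 / 243 * (u ^ 3 * w * z) +
        1923200 / 243 * (u ^ 3 * w ^ 2) := by
    rw [hu, hv, hw, hz]; ring
  rw [e]; positivity

theorem XR2_box7 (β x : ℝ) (h1 : 9 / 40 ≤ β) (h2 : β ≤ 3 / 10) (h3 : 3 / 25 ≤ x)
    (h4 : x ≤ 6 / 25) : 0 ≤ x ^ 3 - (x * (32 / 25 - 4 * β + 2 * β ^ 2) - (64 / 125 - 96 / 25 * β + 9 * β ^ 2 - 4 * β ^ 3) - 4 * β * x ^ 2) := by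
  obtain ⟨u, hu⟩ : ∃ u, u = β - 9 / 40 := ⟨_, rfl⟩
  obtain ⟨v, hv⟩ : ∃ v, v = 3 / 10 - β := ⟨_, rfl⟩
  obtain ⟨w, hw⟩ : ∃ w, w = x - 3 / 25 := ⟨_, rfl⟩
  obtain ⟨z, hz⟩ : ∃ z, z = 6 / 25 - x := ⟨_, rfl⟩
  have hu0 : 0 ≤ u := by linarith
  have hv0 : 0 ≤ v := by linarith
  have hw0 : 0 ≤ w := by linarith
  have hz0 : 0 ≤ z := by linarith
  have e : x ^ 3 - (x * (32 / 25 - 4 * β + 2 * β ^ 2) - (64 / 125 - 96 / 25 * β + 9 * β ^ 2 - 4 * β ^ 3) - 4 * β * x ^ 2) =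
        15000500 / 729 * (v ^ 3 * z ^ 3) +
        2039500 / 81 * (v ^ 3 * w * z ^ 2) +
        3284500 / 243 * (v ^ 3 * w ^ 2 * z) +
        8226500 / 729 * (v ^ 3 * w ^ 3) +
        15803000 / 243 * (u * v ^ 2 * z ^ 3) +
        10981000 / 81 * (u * v ^ 2 * w * z ^ 2) +
        4229000 / 27 * (u * v ^ 2 * w ^ 2 * z) +
        22649000 / 243 * (u * v ^ 2 * w ^ 3) +
        27968000 / 243 * (u ^ 2 * v * z ^ 3) +
        27056000 / 81 * (u ^ 2 * v * w * z ^ 2) +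
        33152000 / 81 * (u ^ 2 * v * w ^ 2 * z) +
        47984000 / 243 * (u ^ 2 * v * w ^ 3) +
        49808000 / 729 * (u ^ 3 * z ^ 3) +
        17552000 / 81 * (u ^ 3 * w * z ^ 2) +
        62992000 / 243 * (u ^ 3 * w ^ 2 * z) +
        82544000 / 729 * (u ^ 3 * w ^ 3) := by
    rw [hu, hv, hw, hz]; ring
  rw [e]; positivity

theorem XR2_box8 (β x : ℝ) (h1 : 3 / 20 ≤ β) (h2 : β ≤ 9 / 40) (h3 : 6 / 25 ≤ x)
    (h4 : x ≤ 12 / 25) : 0 ≤ x ^ 4 * (16 / 25 - 2 * β - 2 * β * x + β ^ 2) - (x * (32 / 25 - 4 * β + 2 * β ^ 2) - (64 / 125 - 96 / 25 * β + 9 * β ^ 2 - 4 * β ^ 3) - 4 * β * x ^ 2) ^ 2 := by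
  obtain ⟨u, hu⟩ : ∃ u, u = β - 3 / 20 := ⟨_, rfl⟩
  obtain ⟨v, hv⟩ : ∃ v, v = 9 / 40 - β := ⟨_, rfl⟩
  obtain ⟨w, hw⟩ : ∃ w, w = x - 6 / 25 := ⟨_, rfl⟩
  obtain ⟨z, hz⟩ : ∃ z, z = 12 / 25 - x := ⟨_, rfl⟩
  have hu0 : 0 ≤ u := by linarith
  have hv0 : 0 ≤ v := by linarith
  have hw0 : 0 ≤ w := by linarith
  have hz0 : 0 ≤ z := by linarith
  have e : x ^ 4 * (16 / 25 - 2 * β - 2 * β * x + β ^ 2) - (x * (32 / 25 - 4 * β + 2 * β ^ 2) - (64 / 125 - 96 / 25 * β + 9 * β ^ 2 - 4 * β ^ 3) - 4 * β * x ^ 2) ^ 2 =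
        944119600000 / 177147 * (v ^ 6 * z ^ 5) +
        5454878000000 / 177147 * (v ^ 6 * w * z ^ 4) +
        5910340000000 / 177147 * (v ^ 6 * w ^ 2 * z ^ 3) +
        6532036000000 / 177147 * (v ^ 6 * w ^ 3 * z ^ 2) +
        10949342000000 / 177147 * (v ^ 6 * w ^ 4 * z) +
        5518289200000 / 177147 * (v ^ 6 * w ^ 5) +
        1334067800000 / 59049 * (u * v ^ 5 * z ^ 5) +
        5953957000000 / 59049 * (u * v ^ 5 * w * z ^ 4) +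
        5346734000000 / 59049 * (u * v ^ 5 * w ^ 2 * z ^ 3) +
        15385010000000 / 59049 * (u * v ^ 5 * w ^ 3 * z ^ 2) +
        27987307000000 / 59049 * (u * v ^ 5 * w ^ 4 * z) +
        12682178600000 / 59049 * (u * v ^ 5 * w ^ 5) +
        2102521625000 / 59049 * (u ^ 2 * v ^ 4 * z ^ 5) +
        8737778125000 / 59049 * (u ^ 2 * v ^ 4 * w * z ^ 4) +
        15917596250000 / 59049 * (u ^ 2 * v ^ 4 * w ^ 2 * z ^ 3) +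
        63275176250000 / 59049 * (u ^ 2 * v ^ 4 * w ^ 3 * z ^ 2) +
        91092548125000 / 59049 * (u ^ 2 * v ^ 4 * w ^ 4 * z) +
        35357887625000 / 59049 * (u ^ 2 * v ^ 4 * w ^ 5) +
        6606713750000 / 177147 * (u ^ 3 * v ^ 3 * z ^ 5) +
        38236813750000 / 177147 * (u ^ 3 * v ^ 3 * w * z ^ 4) +
        134432697500000 / 177147 * (u ^ 3 * v ^ 3 * w ^ 2 * z ^ 3) +
        393092667500000 / 177147 * (u ^ 3 * v ^ 3 * w ^ 3 * z ^ 2) +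
        444066208750000 / 177147 * (u ^ 3 * v ^ 3 * w ^ 4 * z) +
        146311178750000 / 177147 * (u ^ 3 * v ^ 3 * w ^ 5) +
        1977965562500 / 59049 * (u ^ 4 * v ^ 2 * z ^ 5) +
        15126545312500 / 59049 * (u ^ 4 * v ^ 2 * w * z ^ 4) +
        57405888125000 / 59049 * (u ^ 4 * v ^ 2 * w ^ 2 * z ^ 3) +
        129676608125000 / 59049 * (u ^ 4 * v ^ 2 * w ^ 3 * z ^ 2) +
        120411425312500 / 59049 * (u ^ 4 * v ^ 2 * w ^ 4 * z) +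
        33001469562500 / 59049 * (u ^ 4 * v ^ 2 * w ^ 5) +
        1030360325000 / 59049 * (u ^ 5 * v * z ^ 5) +
        8369344750000 / 59049 * (u ^ 5 * v * w * z ^ 4) +
        29652848750000 / 59049 * (u ^ 5 * v * w ^ 2 * z ^ 3) +
        56009057000000 / 59049 * (u ^ 5 * v * w ^ 3 * z ^ 2) +
        43339577125000 / 59049 * (u ^ 5 * v * w ^ 4 * z) +
        8798355650000 / 59049 * (u ^ 5 * v * w ^ 5) +
        1021714784375 / 354294 * (u ^ 6 * z ^ 5) +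
        8282145671875 / 354294 * (u ^ 6 * w * z ^ 4) +
        13515056921875 / 177147 * (u ^ 6 * w ^ 2 * z ^ 3) +
        21851883671875 / 177147 * (u ^ 6 * w ^ 3 * z ^ 2) +
        25135601921875 / 354294 * (u ^ 6 * w ^ 4 * z) +
        305722334375 / 354294 * (u ^ 6 * w ^ 5) := by
    rw [hu, hv, hw, hz]; ring
  rw [e]; positivity

theorem XR2_box9 (β x : ℝ) (h1 : 9 / 40 ≤ β) (h2 : β ≤ 3 / 10) (h3 : 6 / 25 ≤ x)
    (h4 : x ≤ 12 / 25) : 0 ≤ x ^ 3 - (x * (32 / 25 - 4 * β + 2 * β ^ 2) - (64 / 125 - 96 / 25 * β + 9 * β ^ 2 - 4 * β ^ 3) - 4 * β * x ^ 2) := by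
  obtain ⟨u, hu⟩ : ∃ u, u = β - 9 / 40 := ⟨_, rfl⟩
  obtain ⟨v, hv⟩ : ∃ v, v = 3 / 10 - β := ⟨_, rfl⟩
  obtain ⟨w, hw⟩ : ∃ w, w = x - 6 / 25 := ⟨_, rfl⟩
  obtain ⟨z, hz⟩ : ∃ z, z = 12 / 25 - x := ⟨_, rfl⟩
  have hu0 : 0 ≤ u := by linarith
  have hv0 : 0 ≤ v := by linarith
  have hw0 : 0 ≤ w := by linarith
  have hz0 : 0 ≤ z := by linarith
  have e : x ^ 3 - (x * (32 / 25 - 4 * β + 2 * β ^ 2) - (64 / 125 - 96 / 25 * β + 9 * β ^ 2 - 4 * β ^ 3) - 4 * β * x ^ 2) =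
        2056625 / 1458 * (v ^ 3 * z ^ 3) +
        4527625 / 486 * (v ^ 3 * w * z ^ 2) +
        1641625 / 54 * (v ^ 3 * w ^ 2 * z) +
        36253625 / 1458 * (v ^ 3 * w ^ 3) +
        2831125 / 243 * (u * v ^ 2 * z ^ 3) +
        1773875 / 27 * (u * v ^ 2 * w * z ^ 2) +
        11940125 / 81 * (u * v ^ 2 * w ^ 2 * z) +
        24414625 / 243 * (u * v ^ 2 * w ^ 3) +
        5998000 / 243 * (u ^ 2 * v * z ^ 3) +
        9706000 / 81 * (u ^ 2 * v * w * z ^ 2) +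
        17782000 / 81 * (u ^ 2 * v * w ^ 2 * z) +
        31954000 / 243 * (u ^ 2 * v * w ^ 3) +
        10318000 / 729 * (u ^ 3 * z ^ 3) +
        15206000 / 243 * (u ^ 3 * w * z ^ 2) +
        8234000 / 81 * (u ^ 3 * w ^ 2 * z) +
        40534000 / 729 * (u ^ 3 * w ^ 3) := by
    rw [hu, hv, hw, hz]; ring
  rw [e]; positivity

theorem XR2_R1 (p t : ℝ) (h1 : 1 ≤ p) (h2 : p ≤ 2) (h3 : 0 ≤ t)
    (h4 : t ≤ 1) : 0 ≤ 9 * (1 + p) ^ 2 * (p ^ 2 + 2 * (p * t) - 1) + 6 * (1 + p) * (6 * p ^ 2 + 6 * (p * t) + 15 / 2 * p + 5 - 3 * p * (p * t) - p * (p - p * t) ^ 2) - 16 / 25 * (6 * p ^ 2 + 6 * (p * t) + 15 / 2 * p + 5 - 3 * p * (p * t) - p * (p - p * t) ^ 2) ^ 2 := by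
  obtain ⟨u, hu⟩ : ∃ u, u = p - 1 := ⟨_, rfl⟩
  obtain ⟨v, hv⟩ : ∃ v, v = 2 - p := ⟨_, rfl⟩
  obtain ⟨w, hw⟩ : ∃ w, w = t - 0 := ⟨_, rfl⟩
  obtain ⟨z, hz⟩ : ∃ z, z = 1 - t := ⟨_, rfl⟩
  have hu0 : 0 ≤ u := by linarith
  have hv0 : 0 ≤ v := by linarith
  have hw0 : 0 ≤ w := by linarith
  have hz0 : 0 ≤ z := by linarith
  have e : 9 * (1 + p) ^ 2 * (p ^ 2 + 2 * (p * t) - 1) + 6 * (1 + p) * (6 * p ^ 2 + 6 * (p * t) + 15 / 2 * p + 5 - 3 * p * (p * t) - p * (p - p * t) ^ 2) - 16 / 25 * (6 * p ^ 2 + 6 * (p * t) + 15 / 2 * p + 5 - 3 * p * (p * t) - p * (p - p * t) ^ 2) ^ 2 =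
        14 * (v ^ 6 * z ^ 4) +
        76 * (v ^ 6 * w * z ^ 3) +
        692 / 5 * (v ^ 6 * w ^ 2 * z ^ 2) +
        556 / 5 * (v ^ 6 * w ^ 3 * z) +
        854 / 25 * (v ^ 6 * w ^ 4) +
        447 / 5 * (u * v ^ 5 * z ^ 4) +
        2418 / 5 * (u * v ^ 5 * w * z ^ 3) +
        22218 / 25 * (u * v ^ 5 * w ^ 2 * z ^ 2) +
        18738 / 25 * (u * v ^ 5 * w ^ 3 * z) +
        6183 / 25 * (u * v ^ 5 * w ^ 4) +
        5964 / 25 * (u ^ 2 * v ^ 4 * z ^ 4) +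
        30828 / 25 * (u ^ 2 * v ^ 4 * w * z ^ 3) +
        56544 / 25 * (u ^ 2 * v ^ 4 * w ^ 2 * z ^ 2) +
        51372 / 25 * (u ^ 2 * v ^ 4 * w ^ 3 * z) +
        18732 / 25 * (u ^ 2 * v ^ 4 * w ^ 4) +
        8982 / 25 * (u ^ 3 * v ^ 3 * z ^ 4) +
        40696 / 25 * (u ^ 3 * v ^ 3 * w * z ^ 3) +
        71946 / 25 * (u ^ 3 * v ^ 3 * w ^ 2 * z ^ 2) +
        73348 / 25 * (u ^ 3 * v ^ 3 * w ^ 3 * z) +
        30556 / 25 * (u ^ 3 * v ^ 3 * w ^ 4) +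
        8721 / 25 * (u ^ 4 * v ^ 2 * z ^ 4) +
        30504 / 25 * (u ^ 4 * v ^ 2 * w * z ^ 3) +
        47094 / 25 * (u ^ 4 * v ^ 2 * w ^ 2 * z ^ 2) +
        57528 / 25 * (u ^ 4 * v ^ 2 * w ^ 3 * z) +
        28377 / 25 * (u ^ 4 * v ^ 2 * w ^ 4) +
        5373 / 25 * (u ^ 5 * v * z ^ 4) +
        2694 / 5 * (u ^ 5 * v * w * z ^ 3) +
        14292 / 25 * (u ^ 5 * v * w ^ 2 * z ^ 2) +
        4698 / 5 * (u ^ 5 * v * w ^ 3 * z) +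
        14223 / 25 * (u ^ 5 * v * w ^ 4) +
        1539 / 25 * (u ^ 6 * z ^ 4) +
        3024 / 25 * (u ^ 6 * w * z ^ 3) +
        1358 / 25 * (u ^ 6 * w ^ 2 * z ^ 2) +
        3896 / 25 * (u ^ 6 * w ^ 3 * z) +
        2999 / 25 * (u ^ 6 * w ^ 4) := by
    rw [hu, hv, hw, hz]; ring
  rw [e]; positivity

theorem XR2_R2 (p t : ℝ) (h1 : 2 ≤ p) (h2 : p ≤ 3) (h3 : 0 ≤ t)
    (h4 : t ≤ 1 / 2) : 0 ≤ 9 * (1 + p) ^ 2 * (p ^ 2 + 2 * (p * t) - 1) + 6 * (1 + p) * (6 * p ^ 2 + 6 * (p * t) + 15 / 2 * p + 5 - 3 * p * (p * t) - p * (p - p * t) ^ 2) - 16 / 25 * (6 * p ^ 2 + 6 * (p * t) + 15 / 2 * p + 5 - 3 * p * (p * t) - p * (p - p * t) ^ 2) ^ 2 := by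
  obtain ⟨u, hu⟩ : ∃ u, u = p - 2 := ⟨_, rfl⟩
  obtain ⟨v, hv⟩ : ∃ v, v = 3 - p := ⟨_, rfl⟩
  obtain ⟨w, hw⟩ : ∃ w, w = t - 0 := ⟨_, rfl⟩
  obtain ⟨z, hz⟩ : ∃ z, z = 1 / 2 - t := ⟨_, rfl⟩
  have hu0 : 0 ≤ u := by linarith
  have hv0 : 0 ≤ v := by linarith
  have hw0 : 0 ≤ w := by linarith
  have hz0 : 0 ≤ z := by linarith
  have e : 9 * (1 + p) ^ 2 * (p ^ 2 + 2 * (p * t) - 1) + 6 * (1 + p) * (6 * p ^ 2 + 6 * (p * t) + 15 / 2 * p + 5 - 3 * p * (p * t) - p * (p - p * t) ^ 2) - 16 / 25 * (6 * p ^ 2 + 6 * (p * t) + 15 / 2 * p + 5 - 3 * p * (p * t) - p * (p - p * t) ^ 2) ^ 2 =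
        24624 / 25 * (v ^ 6 * z ^ 4) +
        14688 / 5 * (v ^ 6 * w * z ^ 3) +
        78656 / 25 * (v ^ 6 * w ^ 2 * z ^ 2) +
        8736 / 5 * (v ^ 6 * w ^ 3 * z) +
        12816 / 25 * (v ^ 6 * w ^ 4) +
        41904 / 5 * (u * v ^ 5 * z ^ 4) +
        601584 / 25 * (u * v ^ 5 * w * z ^ 3) +
        596112 / 25 * (u * v ^ 5 * w ^ 2 * z ^ 2) +
        296208 / 25 * (u * v ^ 5 * w ^ 3 * z) +
        82944 / 25 * (u * v ^ 5 * w ^ 4) +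
        757296 / 25 * (u ^ 2 * v ^ 4 * z ^ 4) +
        2132544 / 25 * (u ^ 2 * v ^ 4 * w * z ^ 3) +
        2005488 / 25 * (u ^ 2 * v ^ 4 * w ^ 2 * z ^ 2) +
        897504 / 25 * (u ^ 2 * v ^ 4 * w ^ 3 * z) +
        232704 / 25 * (u ^ 2 * v ^ 4 * w ^ 4) +
        1473696 / 25 * (u ^ 3 * v ^ 3 * z ^ 4) +
        165376 * (u ^ 3 * v ^ 3 * w * z ^ 3) +
        758536 / 5 * (u ^ 3 * v ^ 3 * w ^ 2 * z ^ 2) +
        62800 * (u ^ 3 * v ^ 3 * w ^ 3 * z) +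
        368904 / 25 * (u ^ 3 * v ^ 3 * w ^ 4) +
        1614336 / 25 * (u ^ 4 * v ^ 2 * z ^ 4) +
        4563936 / 25 * (u ^ 4 * v ^ 2 * w * z ^ 3) +
        4175136 / 25 * (u ^ 4 * v ^ 2 * w ^ 2 * z ^ 2) +
        1654944 / 25 * (u ^ 4 * v ^ 2 * w ^ 3 * z) +
        351648 / 25 * (u ^ 4 * v ^ 2 * w ^ 4) +
        936912 / 25 * (u ^ 5 * v * z ^ 4) +
        2689872 / 25 * (u ^ 5 * v * w * z ^ 3) +
        99576 * (u ^ 5 * v * w ^ 2 * z ^ 2) +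
        973056 / 25 * (u ^ 5 * v * w ^ 3 * z) +
        37992 / 5 * (u ^ 5 * v * w ^ 4) +
        223616 / 25 * (u ^ 6 * z ^ 4) +
        655424 / 25 * (u ^ 6 * w * z ^ 3) +
        618528 / 25 * (u ^ 6 * w ^ 2 * z ^ 2) +
        243008 / 25 * (u ^ 6 * w ^ 3 * z) +
        44624 / 25 * (u ^ 6 * w ^ 4) := by
    rw [hu, hv, hw, hz]; ring
  rw [e]; positivity

theorem XR2_R3 (p t : ℝ) (h1 : 2 ≤ p) (h2 : p ≤ 3) (h3 : 1 / 2 ≤ t)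
    (h4 : t ≤ 1) : 0 ≤ 9 * (1 + p) ^ 2 * (p ^ 2 + 2 * (p * t) - 1) + 6 * (1 + p) * (6 * p ^ 2 + 6 * (p * t) + 15 / 2 * p + 5 - 3 * p * (p * t) - p * (p - p * t) ^ 2) - 16 / 25 * (6 * p ^ 2 + 6 * (p * t) + 15 / 2 * p + 5 - 3 * p * (p * t) - p * (p - p * t) ^ 2) ^ 2 := by
  obtain ⟨u, hu⟩ : ∃ u, u = p - 2 := ⟨_, rfl⟩
  obtain ⟨v, hv⟩ : ∃ v, v = 3 - p := ⟨_, rfl⟩
  obtain ⟨w, hw⟩ : ∃ w, w = t - 1 / 2 := ⟨_, rfl⟩
  obtain ⟨z, hz⟩ : ∃ z, z = 1 - t := ⟨_, rfl⟩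
  have hu0 : 0 ≤ u := by linarith
  have hv0 : 0 ≤ v := by linarith
  have hw0 : 0 ≤ w := by linarith
  have hz0 : 0 ≤ z := by linarith
  have e : 9 * (1 + p) ^ 2 * (p ^ 2 + 2 * (p * t) - 1) + 6 * (1 + p) * (6 * p ^ 2 + 6 * (p * t) + 15 / 2 * p + 5 - 3 * p * (p * t) - p * (p - p * t) ^ 2) - 16 / 25 * (6 * p ^ 2 + 6 * (p * t) + 15 / 2 * p + 5 - 3 * p * (p * t) - p * (p - p * t) ^ 2) ^ 2 =
        12816 / 25 * (v ^ 6 * z ^ 4) +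
        58848 / 25 * (v ^ 6 * w * z ^ 3) +
        24832 / 5 * (v ^ 6 * w ^ 2 * z ^ 2) +
        127136 / 25 * (v ^ 6 * w ^ 3 * z) +
        47984 / 25 * (v ^ 6 * w ^ 4) +
        82944 / 25 * (u * v ^ 5 * z ^ 4) +
        367344 / 25 * (u * v ^ 5 * w * z ^ 3) +
        161904 / 5 * (u * v ^ 5 * w ^ 2 * z ^ 2) +
        882576 / 25 * (u * v ^ 5 * w ^ 3 * z) +
        69648 / 5 * (u * v ^ 5 * w ^ 4) +
        232704 / 25 * (u ^ 2 * v ^ 4 * z ^ 4) +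
        964128 / 25 * (u ^ 2 * v ^ 4 * w * z ^ 3) +
        441072 / 5 * (u ^ 2 * v ^ 4 * w ^ 2 * z ^ 2) +
        2565888 / 25 * (u ^ 2 * v ^ 4 * w ^ 3 * z) +
        1057392 / 25 * (u ^ 2 * v ^ 4 * w ^ 4) +
        368904 / 25 * (u ^ 3 * v ^ 3 * z ^ 4) +
        1381232 / 25 * (u ^ 3 * v ^ 3 * w * z ^ 3) +
        3226376 / 25 * (u ^ 3 * v ^ 3 * w ^ 2 * z ^ 2) +
        4001248 / 25 * (u ^ 3 * v ^ 3 * w ^ 3 * z) +
        343616 / 5 * (u ^ 3 * v ^ 3 * w ^ 4) +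
        351648 / 25 * (u ^ 4 * v ^ 2 * z ^ 4) +
        231648 / 5 * (u ^ 4 * v ^ 2 * w * z ^ 3) +
        2685024 / 25 * (u ^ 4 * v ^ 2 * w ^ 2 * z ^ 2) +
        3530016 / 25 * (u ^ 4 * v ^ 2 * w ^ 3 * z) +
        1573824 / 25 * (u ^ 4 * v ^ 2 * w ^ 4) +
        37992 / 5 * (u ^ 5 * v * z ^ 4) +
        546624 / 25 * (u ^ 5 * v * w * z ^ 3) +
        1210104 / 25 * (u ^ 5 * v * w ^ 2 * z ^ 2) +
        1669776 / 25 * (u ^ 5 * v * w ^ 3 * z) +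
        153936 / 5 * (u ^ 5 * v * w ^ 4) +
        44624 / 25 * (u ^ 6 * z ^ 4) +
        113984 / 25 * (u ^ 6 * w * z ^ 3) +
        231456 / 25 * (u ^ 6 * w ^ 2 * z ^ 2) +
        66112 / 5 * (u ^ 6 * w ^ 3 * z) +
        6272 * (u ^ 6 * w ^ 4) := by
    rw [hu, hv, hw, hz]; ring
  rw [e]; positivity

theorem XR2_S (p t : ℝ) (h1 : 0 ≤ p) (h2 : p ≤ 1) (h3 : 0 ≤ t)
    (h4 : t ≤ 1) : 0 ≤ 3 * (1 + p) * (17 / 10 + 1 / 2 * (p ^ 2 + 2 * (p * t))) - (16 / 25 + 1 / 16 * (p ^ 2 + 2 * (p * t))) * (6 * p ^ 2 + 6 * (p * t) + 15 / 2 * p + 5 - 3 * p * (p * t) - p * (p - p * t) ^ 2) := by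
  obtain ⟨u, hu⟩ : ∃ u, u = p - 0 := ⟨_, rfl⟩
  obtain ⟨v, hv⟩ : ∃ v, v = 1 - p := ⟨_, rfl⟩
  obtain ⟨w, hw⟩ : ∃ w, w = t - 0 := ⟨_, rfl⟩
  obtain ⟨z, hz⟩ : ∃ z, z = 1 - t := ⟨_, rfl⟩
  have hu0 : 0 ≤ u := by linarith
  have hv0 : 0 ≤ v := by linarith
  have hw0 : 0 ≤ w := by linarith
  have hz0 : 0 ≤ z := by linarith
  have e : 3 * (1 + p) * (17 / 10 + 1 / 2 * (p ^ 2 + 2 * (p * t))) - (16 / 25 + 1 / 16 * (p ^ 2 + 2 * (p * t))) * (6 * p ^ 2 + 6 * (p * t) + 15 / 2 * p + 5 - 3 * p * (p * t) - p * (p - p * t) ^ 2) =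
        19 / 10 * (v ^ 5 * z ^ 3) +
        57 / 10 * (v ^ 5 * w * z ^ 2) +
        57 / 10 * (v ^ 5 * w ^ 2 * z) +
        19 / 10 * (v ^ 5 * w ^ 3) +
        49 / 5 * (u * v ^ 4 * z ^ 3) +
        5587 / 200 * (u * v ^ 4 * w * z ^ 2) +
        2647 / 100 * (u * v ^ 4 * w ^ 2 * z) +
        1667 / 200 * (u * v ^ 4 * w ^ 3) +
        7019 / 400 * (u ^ 2 * v ^ 3 * z ^ 3) +
        10153 / 200 * (u ^ 2 * v ^ 3 * w * z ^ 2) +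
        3851 / 80 * (u ^ 2 * v ^ 3 * w ^ 2 * z) +
        373 / 25 * (u ^ 2 * v ^ 3 * w ^ 3) +
        11611 / 800 * (u ^ 3 * v ^ 2 * z ^ 3) +
        7087 / 160 * (u ^ 3 * v ^ 2 * w * z ^ 2) +
        35049 / 800 * (u ^ 3 * v ^ 2 * w ^ 2 * z) +
        449 / 32 * (u ^ 3 * v ^ 2 * w ^ 3) +
        571 / 100 * (u ^ 4 * v * z ^ 3) +
        468 / 25 * (u ^ 4 * v * w * z ^ 2) +
        496 / 25 * (u ^ 4 * v * w ^ 2 * z) +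
        1391 / 200 * (u ^ 4 * v * w ^ 3) +
        29 / 32 * (u ^ 5 * z ^ 3) +
        483 / 160 * (u ^ 5 * w * z ^ 2) +
        2717 / 800 * (u ^ 5 * w ^ 2 * z) +
        1127 / 800 * (u ^ 5 * w ^ 3) := by
    rw [hu, hv, hw, hz]; ring
  rw [e]; positivity

theorem XR2_P1 (p t : ℝ) (h1 : 0 ≤ p) (h2 : p ≤ 3) (h3 : 0 ≤ t)
    (h4 : t ≤ 1) : 0 ≤ (6 * p ^ 2 + 6 * (p * t) + 15 / 2 * p + 5 - 3 * p * (p * t) - p * (p - p * t) ^ 2) := by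
  obtain ⟨u, hu⟩ : ∃ u, u = p - 0 := ⟨_, rfl⟩
  obtain ⟨v, hv⟩ : ∃ v, v = 3 - p := ⟨_, rfl⟩
  obtain ⟨w, hw⟩ : ∃ w, w = t - 0 := ⟨_, rfl⟩
  obtain ⟨z, hz⟩ : ∃ z, z = 1 - t := ⟨_, rfl⟩
  have hu0 : 0 ≤ u := by linarith
  have hv0 : 0 ≤ v := by linarith
  have hw0 : 0 ≤ w := by linarith
  have hz0 : 0 ≤ z := by linarith
  have e : (6 * p ^ 2 + 6 * (p * t) + 15 / 2 * p + 5 - 3 * p * (p * t) - p * (p - p * t) ^ 2) =
        5 / 27 * (v ^ 3 * z ^ 2) +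
        10 / 27 * (v ^ 3 * w * z) +
        5 / 27 * (v ^ 3 * w ^ 2) +
        25 / 18 * (u * v ^ 2 * z ^ 2) +
        31 / 9 * (u * v ^ 2 * w * z) +
        37 / 18 * (u * v ^ 2 * w ^ 2) +
        38 / 9 * (u ^ 2 * v * z ^ 2) +
        79 / 9 * (u ^ 2 * v * w * z) +
        41 / 9 * (u ^ 2 * v * w ^ 2) +
        109 / 54 * (u ^ 3 * z ^ 2) +
        154 / 27 * (u ^ 3 * w * z) +
        145 / 54 * (u ^ 3 * w ^ 2) := by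
    rw [hu, hv, hw, hz]; ring
  rw [e]; positivity

theorem XR2_D (β x s : ℝ) (hs : 0 ≤ s) (hxs : x ≤ s)
    (hn : 16 / 25 - 2 * β - 2 * β * x + β ^ 2 ≤ s ^ 2)
    (h : 0 ≤ - (x * (32 / 25 - 4 * β + 2 * β ^ 2) - (64 / 125 - 96 / 25 * β + 9 * β ^ 2 - 4 * β ^ 3) -
        4 * β * x ^ 2) ∨
      0 ≤ x ^ 3 - (x * (32 / 25 - 4 * β + 2 * β ^ 2) -
        (64 / 125 - 96 / 25 * β + 9 * β ^ 2 - 4 * β ^ 3) - 4 * β * x ^ 2) ∨
      0 ≤ x ^ 4 * (16 / 25 - 2 * β - 2 * β * x + β ^ 2) - (x * (32 / 25 - 4 * β + 2 * β ^ 2) -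
        (64 / 125 - 96 / 25 * β + 9 * β ^ 2 - 4 * β ^ 3) - 4 * β * x ^ 2) ^ 2) :
    x * (32 / 25 - 4 * β + 2 * β ^ 2) - (64 / 125 - 96 / 25 * β + 9 * β ^ 2 - 4 * β ^ 3) -
        4 * β * x ^ 2 ≤ x ^ 2 * s := by
  obtain ⟨E, hE⟩ : ∃ E, E = x * (32 / 25 - 4 * β + 2 * β ^ 2) -
    (64 / 125 - 96 / 25 * β + 9 * β ^ 2 - 4 * β ^ 3) - 4 * β * x ^ 2 := ⟨_, rfl⟩
  rw [← hE] at h ⊢
  have h0 : 0 ≤ x ^ 2 * s := mul_nonneg (sq_nonneg x) hs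
  rcases h with h | h | h
  · linarith
  · have h1 : x ^ 2 * x ≤ x ^ 2 * s := mul_le_mul_of_nonneg_left hxs (sq_nonneg x)
    have h2 : x ^ 2 * x = x ^ 3 := by ring
    linarith
  · have h1 : x ^ 4 * (16 / 25 - 2 * β - 2 * β * x + β ^ 2) ≤ x ^ 4 * s ^ 2 :=
      mul_le_mul_of_nonneg_left hn (by positivity)
    have h2 : x ^ 4 * s ^ 2 = (x ^ 2 * s) ^ 2 := by ring
    have h3 : E ^ 2 ≤ (x ^ 2 * s) ^ 2 := by linarith
    exact le_trans (le_abs_self E) (abs_le_of_sq_le_sq h3 h0)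

theorem XR2_cases (β x : ℝ) (hβ1 : 3 / 20 ≤ β) (hβ2 : β ≤ 3 / 10) (hx : 0 ≤ x)
    (hx2 : x ≤ 12 / 25) :
    0 ≤ - (x * (32 / 25 - 4 * β + 2 * β ^ 2) - (64 / 125 - 96 / 25 * β + 9 * β ^ 2 - 4 * β ^ 3) -
        4 * β * x ^ 2) ∨
      0 ≤ x ^ 3 - (x * (32 / 25 - 4 * β + 2 * β ^ 2) -
        (64 / 125 - 96 / 25 * β + 9 * β ^ 2 - 4 * β ^ 3) - 4 * β * x ^ 2) ∨
      0 ≤ x ^ 4 * (16 / 25 - 2 * β - 2 * β * x + β ^ 2) - (x * (32 / 25 - 4 * β + 2 * β ^ 2) -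
        (64 / 125 - 96 / 25 * β + 9 * β ^ 2 - 4 * β ^ 3) - 4 * β * x ^ 2) ^ 2 := by
  rcases le_total β (9 / 40) with a | a
  · rcases le_total x (3 / 25) with b | b
    · exact Or.inl (XR2_box1 β x hβ1 a hx b)
    · rcases le_total x (6 / 25) with c | c
      · rcases le_total β (3 / 16) with e | e
        · rcases le_total x (9 / 50) with f | f
          · exact Or.inr (Or.inl (XR2_box2 β x hβ1 e b f))
          · exact Or.inr (Or.inr (XR2_box3 β x hβ1 e f c))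
        · rcases le_total x (9 / 50) with f | f
          · exact Or.inr (Or.inl (XR2_box4 β x e a b f))
          · exact Or.inr (Or.inr (XR2_box5 β x e a f c))
      · exact Or.inr (Or.inr (XR2_box8 β x hβ1 a c hx2))
  · rcases le_total x (3 / 25) with b | b
    · exact Or.inl (XR2_box6 β x a hβ2 hx b)
    · rcases le_total x (6 / 25) with c | c
      · exact Or.inr (Or.inl (XR2_box7 β x a hβ2 b c))
      · exact Or.inr (Or.inl (XR2_box9 β x a hβ2 c hx2))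

theorem XR2_Pnn (p t : ℝ) (hp : 0 ≤ p) (hp3 : p ≤ 3) (ht : 0 ≤ t) (ht1 : t ≤ 1) :
    0 ≤ (6 * p ^ 2 + 6 * (p * t) + 15 / 2 * p + 5 - 3 * p * (p * t) - p * (p - p * t) ^ 2) :=
  XR2_P1 p t hp hp3 ht ht1

theorem XR2_Rnn (p t : ℝ) (hp : 1 ≤ p) (hp3 : p ≤ 3) (ht : 0 ≤ t) (ht1 : t ≤ 1) :
    0 ≤ 9 * (1 + p) ^ 2 * (p ^ 2 + 2 * (p * t) - 1) +
      6 * (1 + p) * (6 * p ^ 2 + 6 * (p * t) + 15 / 2 * p + 5 - 3 * p * (p * t) -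
        p * (p - p * t) ^ 2) - 16 / 25 * (6 * p ^ 2 + 6 * (p * t) + 15 / 2 * p + 5 -
        3 * p * (p * t) - p * (p - p * t) ^ 2) ^ 2 := by
  rcases le_total p 2 with a | a
  · exact XR2_R1 p t hp a ht ht1
  · rcases le_total t (1 / 2) with b | b
    · exact XR2_R2 p t a hp3 ht b
    · exact XR2_R3 p t a hp3 b ht1

theorem XR2_gam (β p t : ℝ) (hβ : 0 < β) (hβ3 : β ≤ 3 / 10) (hp : 0 ≤ p) (hp3 : p ≤ 3)
    (ht : 0 ≤ t) (ht1 : t ≤ 1)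
    (hc : β ^ 2 * (p ^ 2 + 2 * (p * t) - 1) + 2 * β ≤ 16 / 25) :
    0 ≤ 3 * (1 + p) - β * (6 * p ^ 2 + 6 * (p * t) + 15 / 2 * p + 5 - 3 * p * (p * t) -
        p * (p - p * t) ^ 2) := by
  have hP := XR2_Pnn p t hp hp3 ht ht1
  have hpt : 0 ≤ p * t := mul_nonneg hp ht
  rcases le_total 1 p with h1 | h1
  · have hR := XR2_Rnn p t h1 hp3 ht ht1
    obtain ⟨Φ, hΦ⟩ : ∃ Φ, Φ = 6 * p ^ 2 + 6 * (p * t) + 15 / 2 * p + 5 - 3 * p * (p * t) -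
        p * (p - p * t) ^ 2 := ⟨_, rfl⟩
    rw [← hΦ] at hP hR ⊢
    obtain ⟨a, ha⟩ : ∃ a, a = p ^ 2 + 2 * (p * t) - 1 := ⟨_, rfl⟩
    rw [← ha] at hR hc
    have ha0 : 0 ≤ a := by rw [ha]; nlinarith
    by_contra hneg
    push Not at hneg
    have hK : 0 < 3 * (1 + p) := by linarith
    have hlt : 3 * (1 + p) < β * Φ := by linarith
    have hΦ0 : 0 < Φ := by
      by_contra h0
      have : Φ = 0 := le_antisymm (not_lt.1 h0) hP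
      rw [this] at hlt
      linarith
    have h2 : (3 * (1 + p)) ^ 2 ≤ (β * Φ) ^ 2 := by
      apply pow_le_pow_left₀ hK.le hlt.le
    have h3 : (3 * (1 + p)) ^ 2 * a ≤ (β * Φ) ^ 2 * a := mul_le_mul_of_nonneg_right h2 ha0
    have h4 : 3 * (1 + p) * Φ < β * Φ * Φ := mul_lt_mul_of_pos_right hlt hΦ0
    have h5 : Φ ^ 2 * (β ^ 2 * a + 2 * β) ≤ Φ ^ 2 * (16 / 25) :=
      mul_le_mul_of_nonneg_left hc (sq_nonneg Φ)
    nlinarith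
  · have hS := XR2_S p t hp h1 ht ht1
    obtain ⟨Φ, hΦ⟩ : ∃ Φ, Φ = 6 * p ^ 2 + 6 * (p * t) + 15 / 2 * p + 5 - 3 * p * (p * t) -
        p * (p - p * t) ^ 2 := ⟨_, rfl⟩
    rw [← hΦ] at hP hS ⊢
    obtain ⟨a, ha⟩ : ∃ a, a = p ^ 2 + 2 * (p * t) := ⟨_, rfl⟩
    rw [← ha] at hS hc
    have ha0 : 0 ≤ a := by rw [ha]; positivity
    have hb : β * (17 / 10 + 1 / 2 * a) ≤ 16 / 25 + 1 / 16 * a := by
      have h1 : 0 ≤ (β - 1 / 4) ^ 2 * a := mul_nonneg (sq_nonneg _) ha0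
      have h2 : 0 ≤ β * (3 / 10 - β) := mul_nonneg hβ.le (by linarith)
      nlinarith
    have h2 : β * (17 / 10 + 1 / 2 * a) * Φ ≤ (16 / 25 + 1 / 16 * a) * Φ :=
      mul_le_mul_of_nonneg_right hb hP
    have h3 : 0 < 17 / 10 + 1 / 2 * a := by linarith
    have h4 : 0 ≤ (17 / 10 + 1 / 2 * a) * (3 * (1 + p) - β * Φ) := by nlinarith
    exact nonneg_of_mul_nonneg_right h4 h3

theorem XR2_Gam (s β x : ℝ) (hβ : 0 < β) (hβ3 : β ≤ 3 / 10) (hs0 : 0 ≤ s) (hs : s ≤ 3 * β)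
    (hx : 0 ≤ x) (hxs : x ≤ s) (hN : s ^ 2 + 2 * β - β ^ 2 + 2 * β * x ≤ 16 / 25) :
    0 ≤ s * (s - x) ^ 2 + 3 * β * s * (1 + x) - 6 * β * s ^ 2 +
      β ^ 2 * (3 - 6 * x - 15 / 2 * s) - 5 * β ^ 3 := by
  obtain ⟨p, hp⟩ : ∃ p, s = β * p := ⟨s / β, by field_simp⟩
  have hp0 : 0 ≤ p := by
    by_contra h
    push Not at h
    have := mul_neg_of_pos_of_neg hβ h
    linarith
  have hp3 : p ≤ 3 := by
    by_contra h
    push Not at h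
    have := mul_lt_mul_of_pos_left h hβ
    linarith
  obtain ⟨t, ht0, ht1, htx⟩ : ∃ t, 0 ≤ t ∧ t ≤ 1 ∧ x = β * (p * t) := by
    rcases hs0.eq_or_lt with h | h
    · refine ⟨0, le_refl _, zero_le_one, ?_⟩
      have : x = 0 := by linarith
      rw [this]; ring
    · refine ⟨x / s, div_nonneg hx hs0, (div_le_one h).2 hxs, ?_⟩
      rw [← mul_assoc, ← hp]
      field_simp
  have h := XR2_gam β p t hβ hβ3 hp0 hp3 ht0 ht1 (by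
    have e : β ^ 2 * (p ^ 2 + 2 * (p * t) - 1) + 2 * β =
        s ^ 2 + 2 * β - β ^ 2 + 2 * β * x := by rw [hp, htx]; ring
    rw [e]; exact hN)
  have h2 := mul_nonneg (sq_nonneg β) h
  refine le_of_le_of_eq h2 ?_
  rw [hp, htx]; ring

theorem calcR2 (s β x δ ν : ℝ) (hβ : 0 < β) (hβ3 : β ≤ 3 / 10) (hs0 : 0 ≤ s) (hs : s ≤ 3 * β)
    (hx : 0 ≤ x) (hxs : x ≤ s) (hδ : 0 ≤ δ) (hδβ : δ ≤ β ^ 2) (hν : 0 ≤ ν)
    (hν2 : ν ^ 2 ≤ 16 / 25) (hN : ν ^ 2 = s ^ 2 + 2 * β - β ^ 2 + 2 * β * x - δ) :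
    0 ≤ ν ^ 3 - s ^ 3 - 6 * β * ν ^ 2 + 9 * β ^ 2 - 4 * β ^ 3 + s * (s - x) ^ 2 +
      3 * (1 - 2 * β) * δ := by
  rcases le_total (s ^ 2 + 2 * β - β ^ 2 + 2 * β * x) (16 / 25) with h | h
  · have hG := XR2_Gam s β x hβ hβ3 hs0 hs hx hxs h
    -- tangent at y = s + 2 β
    have h1 : 0 ≤ (ν - (s + 2 * β)) ^ 2 * (ν + (s + 2 * β) / 2) :=
      mul_nonneg (sq_nonneg _) (by linarith)
    have h2 : 0 ≤ (3 - 3 / 2 * (s + 2 * β)) * δ := mul_nonneg (by linarith) hδ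
    have e : ν ^ 3 - s ^ 3 - 6 * β * ν ^ 2 + 9 * β ^ 2 - 4 * β ^ 3 + s * (s - x) ^ 2 +
        3 * (1 - 2 * β) * δ = (ν - (s + 2 * β)) ^ 2 * (ν + (s + 2 * β) / 2) +
        (3 - 3 / 2 * (s + 2 * β)) * δ + (s * (s - x) ^ 2 + 3 * β * s * (1 + x) -
        6 * β * s ^ 2 + β ^ 2 * (3 - 6 * x - 15 / 2 * s) - 5 * β ^ 3) := by
      have e2 : δ = s ^ 2 + 2 * β - β ^ 2 + 2 * β * x - ν ^ 2 := by linarith
      rw [e2]; ring
    rw [e]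
    linarith
  · have hν1 : ν ≤ 4 / 5 := by nlinarith
    have hβ1 : 3 / 20 ≤ β := by
      nlinarith [mul_nonneg hβ.le (sub_nonneg.2 hxs),
        mul_nonneg hβ.le (sub_nonneg.2 hs), mul_nonneg hs0 (sub_nonneg.2 hs)]
    have hN1 : s ^ 2 + 2 * β - β ^ 2 + 2 * β * x ≤ 16 / 25 + β ^ 2 := by linarith
    have hx2 : x ≤ 12 / 25 := by
      rcases le_total β (4 / 25) with h3 | h3
      · linarith
      · by_contra hc
        push Not at hc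
        have h4 : (12 / 25) ^ 2 ≤ x ^ 2 := by nlinarith
        have h5 : x ^ 2 ≤ s ^ 2 := by nlinarith
        nlinarith [mul_nonneg hβ.le (sub_nonneg.2 hc.le)]
    have hD := XR2_D β x s hs0 hxs (by linarith) (XR2_cases β x hβ1 hβ3 hx hx2)
    have hcoef : 0 ≤ 3 - 6 * β - 2 * x := by
      rcases le_total β (1 / 4) with h3 | h3
      · linarith
      · have h5 : x ^ 2 ≤ s ^ 2 := by nlinarith
        nlinarith [mul_nonneg hβ.le hx]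
    have h6 : 0 ≤ (s ^ 2 + 2 * β - β ^ 2 + 2 * β * x - 16 / 25) * (3 - 6 * β - 2 * x) :=
      mul_nonneg (by linarith) hcoef
    have h7 : 0 ≤ (4 / 5 - ν) * (3 * (4 / 5 + ν) - (16 / 25 + 4 / 5 * ν + ν ^ 2)) := by
      apply mul_nonneg (by linarith)
      nlinarith
    have e : ν ^ 3 - s ^ 3 - 6 * β * ν ^ 2 + 9 * β ^ 2 - 4 * β ^ 3 + s * (s - x) ^ 2 +
        3 * (1 - 2 * β) * δ =
        (4 / 5 - ν) * (3 * (4 / 5 + ν) - (16 / 25 + 4 / 5 * ν + ν ^ 2)) +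
        (s ^ 2 + 2 * β - β ^ 2 + 2 * β * x - 16 / 25) * (3 - 6 * β - 2 * x) +
        (x ^ 2 * s - (x * (32 / 25 - 4 * β + 2 * β ^ 2) -
          (64 / 125 - 96 / 25 * β + 9 * β ^ 2 - 4 * β ^ 3) - 4 * β * x ^ 2)) := by
      have e2 : δ = s ^ 2 + 2 * β - β ^ 2 + 2 * β * x - ν ^ 2 := by linarith
      rw [e2]; ring
    rw [e]
    linarith

end Pool.H3F
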