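import Mathlib

/-! Real inequality 3 for the upper curve. -/

namespace Pool.H3F

private theorem r3_poly (β : ℝ) (hβ : 0 ≤ β) (hβ3 : β ≤ 3 / 10) :
    (16 / 25 - 13 / 8 * β + β ^ 2 / 4 - 5 / 8 * β ^ 3) ^ 2 ≤
      (16 / 25 - 2 * β + 2 * β ^ 2) * (1 - 2 * β) ^ 2 := by
  have key : (16 / 25 - 2 * β + 2 * β ^ 2) * (1 - 2 * β) ^ 2
      - (16 / 25 - 13 / 8 * β + β ^ 2 / 4 - 5 / 8 * β ^ 3) ^ 2 ≥ 0 := by
    nlinarith [mul_nonneg hβ (sub_nonneg.2 hβ3), mul_nonneg (mul_nonneg hβ hβ) (sub_nonneg.2 hβ3),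
      sq_nonneg (β - 23 / 100), sq_nonneg (β ^ 2 - 23 / 100 * β), sq_nonneg (β ^ 2),
      mul_nonneg hβ (sq_nonneg (β - 23 / 100)), sq_nonneg (β ^ 3),
      mul_nonneg (mul_nonneg hβ (mul_nonneg hβ hβ)) (sub_nonneg.2 hβ3)]
  linarith

private theorem r3_main (w β ν : ℝ) (hβ : 0 < β) (hβ3 : β ≤ 3 / 10) (hw : β ≤ w)
    (hν : 0 ≤ ν) (hν2 : ν ^ 2 ≤ 16 / 25) (hE : ν ^ 2 = w ^ 2 + 2 * β * (1 - β)) :
    0 ≤ ν ^ 3 - (w - β) ^ 3 - 6 * β * ν ^ 2 + 9 * β ^ 2 - 4 * β ^ 3 := by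
  have hw0 : 0 ≤ w := hβ.le.trans hw
  have hE0 : 0 ≤ 2 * β * (1 - β) := by nlinarith
  have hwν : w ≤ ν := by nlinarith
  have hν8 : ν ≤ 4 / 5 := by nlinarith
  -- the cubic
  have h1 : ν ^ 3 = w ^ 3 + 3 / 2 * w * (2 * β * (1 - β)) + (ν - w) ^ 2 * (ν + w / 2) := by
    have : 2 * β * (1 - β) = ν ^ 2 - w ^ 2 := by linarith
    rw [this]; ring
  have h2 : 3 / 8 * (ν + w) ^ 2 ≤ ν * (ν + w / 2) := by
    nlinarith [mul_nonneg (sub_nonneg.2 hwν) (by linarith : (0 : ℝ) ≤ 5 * ν + 3 * w)]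
  have h3 : 15 / 32 * (ν + w) ^ 2 ≤ ν + w / 2 := by
    nlinarith [mul_nonneg (sub_nonneg.2 hν8) (by linarith : (0 : ℝ) ≤ ν + w / 2)]
  have h4 : 15 / 32 * (2 * β * (1 - β)) ^ 2 ≤ (ν - w) ^ 2 * (ν + w / 2) := by
    have : 2 * β * (1 - β) = (ν - w) * (ν + w) := by nlinarith
    rw [this]
    nlinarith [mul_le_mul_of_nonneg_left h3 (sq_nonneg (ν - w))]
  -- the remaining quadratic in `w`
  have hm0 : 0 ≤ 16 / 25 - 2 * β + 2 * β ^ 2 := by nlinarith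
  obtain ⟨m, hm, hm2⟩ : ∃ m : ℝ, 0 ≤ m ∧ m ^ 2 = 16 / 25 - 2 * β + 2 * β ^ 2 :=
    ⟨√(16 / 25 - 2 * β + 2 * β ^ 2), Real.sqrt_nonneg _, Real.sq_sqrt hm0⟩
  have hwm : w ≤ m := by nlinarith
  have hfβ : 0 ≤ β * (1 - 2 * β - β) - 3 / 8 * β + 7 / 4 * β ^ 2 + 5 / 8 * β ^ 3 := by
    have : 0 ≤ β * (5 / 8 - 5 / 4 * β + 5 / 8 * β ^ 2) := by
      refine mul_nonneg hβ.le ?_
      nlinarith [sq_nonneg β]
    nlinarith
  have hfm : 0 ≤ m * (1 - 2 * β - m) - 3 / 8 * β + 7 / 4 * β ^ 2 + 5 / 8 * β ^ 3 := by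
    have hp := r3_poly β hβ.le hβ3
    rw [← hm2, ← mul_pow] at hp
    have h5 : 16 / 25 - 13 / 8 * β + β ^ 2 / 4 - 5 / 8 * β ^ 3 ≤ m * (1 - 2 * β) :=
      le_of_sq_le_sq hp (by
        refine mul_nonneg hm ?_
        linarith)
    nlinarith
  have hf : 0 ≤ w * (1 - 2 * β - w) - 3 / 8 * β + 7 / 4 * β ^ 2 + 5 / 8 * β ^ 3 := by
    rcases eq_or_lt_of_le (hw.trans hwm) with h | h
    · have : w = β := le_antisymm (by linarith) hw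
      rw [this]; exact hfβ
    · have h6 : 0 ≤ (w * (1 - 2 * β - w) - 3 / 8 * β + 7 / 4 * β ^ 2 + 5 / 8 * β ^ 3) *
          (m - β) := by
        have h7 : (w * (1 - 2 * β - w) - 3 / 8 * β + 7 / 4 * β ^ 2 + 5 / 8 * β ^ 3) * (m - β) =
            (β * (1 - 2 * β - β) - 3 / 8 * β + 7 / 4 * β ^ 2 + 5 / 8 * β ^ 3) * (m - w) +
            (m * (1 - 2 * β - m) - 3 / 8 * β + 7 / 4 * β ^ 2 + 5 / 8 * β ^ 3) * (w - β) +
            (w - β) * (m - w) * (m - β) := by ring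
        rw [h7]
        have e1 := mul_nonneg hfβ (sub_nonneg.2 hwm)
        have e2 := mul_nonneg hfm (sub_nonneg.2 hw)
        have e3 := mul_nonneg (mul_nonneg (sub_nonneg.2 hw) (sub_nonneg.2 hwm)) (sub_pos.2 h).le
        linarith
      exact nonneg_of_mul_nonneg_left h6 (sub_pos.2 h)
  have h8 : ν ^ 3 - (w - β) ^ 3 - 6 * β * ν ^ 2 + 9 * β ^ 2 - 4 * β ^ 3 =
      ((ν - w) ^ 2 * (ν + w / 2) - 15 / 32 * (2 * β * (1 - β)) ^ 2) +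
      3 * β * (w * (1 - 2 * β - w) - 3 / 8 * β + 7 / 4 * β ^ 2 + 5 / 8 * β ^ 3) := by
    rw [h1, hE]; ring
  rw [h8]
  have h9 := mul_nonneg hβ.le hf
  linarith

theorem calcR3 (s β δ ν : ℝ) (hβ : 0 < β) (hβ3 : β ≤ 3 / 10) (hs0 : 0 ≤ s)
    (hδ : 0 ≤ δ) (hδβ : δ ≤ β ^ 2) (hν : 0 ≤ ν) (hν2 : ν ^ 2 ≤ 16 / 25)
    (hN : s ^ 2 + 2 * β * s ≤ ν ^ 2 - 2 * β + β ^ 2 + δ) :
    0 ≤ ν ^ 3 - s ^ 3 - 6 * β * ν ^ 2 + 9 * β ^ 2 - 4 * β ^ 3 + 3 * (1 - 2 * β) * δ := by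
  have hs8 : s ≤ 4 / 5 := by nlinarith
  rcases le_or_gt (2 * β - β ^ 2) (ν ^ 2) with hA | hB
  · -- case A
    obtain ⟨w, hw, hw2⟩ : ∃ w : ℝ, 0 ≤ w ∧ w ^ 2 = ν ^ 2 - 2 * β + 2 * β ^ 2 :=
      ⟨√(ν ^ 2 - 2 * β + 2 * β ^ 2), Real.sqrt_nonneg _, Real.sq_sqrt (by nlinarith)⟩
    have hwβ : β ≤ w := by nlinarith
    have h1 := r3_main w β ν hβ hβ3 hwβ hν hν2 (by rw [hw2]; ring)
    -- `s ^ 3 - (w - β) ^ 3 ≤ 3 (1 - 2 β) δ`
    have h2 : s ^ 3 - (w - β) ^ 3 ≤ 3 * (1 - 2 * β) * δ := by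
      rcases le_or_gt s (w - β) with h | h
      · have h3 : s ^ 3 ≤ (w - β) ^ 3 := pow_le_pow_left₀ hs0 h 3
        have h4 : 0 ≤ 3 * (1 - 2 * β) * δ := by
          refine mul_nonneg ?_ hδ
          linarith
        linarith
      · obtain ⟨x, hx⟩ : ∃ x, x = w - β := ⟨_, rfl⟩
        rw [← hx] at h ⊢
        have hx0 : 0 ≤ x := by rw [hx]; linarith
        have hsx : (s - x) * (s + x + 2 * β) ≤ δ := by
          have : w = x + β := by linarith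
          rw [this] at hw2
          nlinarith
        have hsx0 : 0 < s - x := by linarith
        have h5 : (s - x) * (s + x) ≤ δ := by nlinarith
        have h6 : s ^ 2 + s * x + x ^ 2 ≤ 3 / 2 * s * (s + x) := by nlinarith
        have h7 : s ^ 3 - x ^ 3 ≤ 3 / 2 * s * ((s - x) * (s + x)) := by
          have := mul_le_mul_of_nonneg_left h6 hsx0.le
          nlinarith
        have h8 : 3 / 2 * s * ((s - x) * (s + x)) ≤ 3 / 2 * s * δ :=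
          mul_le_mul_of_nonneg_left h5 (by linarith)
        have h9 : 3 / 2 * s * δ ≤ 3 * (1 - 2 * β) * δ :=
          mul_le_mul_of_nonneg_right (by linarith) hδ
        linarith
    linarith
  · -- case B
    have hε : 0 ≤ ν ^ 2 - 2 * β + β ^ 2 + δ := le_trans (by positivity) hN
    have hsβ : s ≤ β / 2 := by nlinarith
    have hs3 : s ^ 3 ≤ 3 * (1 - 2 * β) * (s ^ 2 + 2 * β * s) := by
      have e1 : s ^ 3 ≤ s ^ 2 * (3 * (1 - 2 * β)) := by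
        have : s ^ 3 = s ^ 2 * s := by ring
        rw [this]
        exact mul_le_mul_of_nonneg_left (by linarith) (sq_nonneg s)
      have e2 : 0 ≤ 3 * (1 - 2 * β) * (2 * β * s) := by
        refine mul_nonneg (by linarith) (by positivity)
      linarith
    have h1 : s ^ 3 ≤ 3 * (1 - 2 * β) * (ν ^ 2 - 2 * β + β ^ 2 + δ) :=
      hs3.trans (mul_le_mul_of_nonneg_left hN (by linarith))
    have hν3 : 2 * β - 2 * β ^ 2 ≤ ν ^ 2 := by linarith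
    have h2 : 3 * β - 2 * β ^ 2 ≤ ν * (2 - 2 * β) := by
      refine le_of_sq_le_sq ?_ (mul_nonneg hν (by linarith))
      have h3 : (2 * β - 2 * β ^ 2) * (2 - 2 * β) ^ 2 ≤ ν ^ 2 * (2 - 2 * β) ^ 2 :=
        mul_le_mul_of_nonneg_right hν3 (sq_nonneg _)
      have h4 : (3 * β - 2 * β ^ 2) ^ 2 ≤ (2 * β - 2 * β ^ 2) * (2 - 2 * β) ^ 2 := by
        have h5 : 0 ≤ β * (8 * (1 - β) ^ 3 - β * (3 - 2 * β) ^ 2) := by
          refine mul_nonneg hβ.le ?_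
          nlinarith [mul_nonneg hβ.le (sub_nonneg.2 hβ3), sq_nonneg β,
            mul_nonneg (mul_nonneg hβ.le hβ.le) (sub_nonneg.2 hβ3)]
        nlinarith
      rw [mul_pow]
      exact h4.trans h3
    have h3 : 3 * β ^ 2 - 2 * β ^ 3 ≤ ν ^ 3 := by
      have e1 : ν * (2 * β - 2 * β ^ 2) ≤ ν * ν ^ 2 := mul_le_mul_of_nonneg_left hν3 hν
      have e2 : β * (3 * β - 2 * β ^ 2) ≤ β * (ν * (2 - 2 * β)) :=
        mul_le_mul_of_nonneg_left h2 hβ.le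
      nlinarith
    nlinarith

end Pool.H3F
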