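import Mathlib

/-! Real inequality 4 for the upper curve. -/

namespace Pool.H3F

theorem XR4_mono (β ν : ℝ) (hβ : 3 / 10 ≤ β) (hν : 0 ≤ ν) (hν1 : ν ≤ 4 / 5) :
    64 / 125 - 6 * β * (16 / 25) ≤ ν ^ 3 - 6 * β * ν ^ 2 := by
  have h1 : 0 ≤ 4 / 5 - ν := by linarith
  have h2 : ν ^ 3 - 6 * β * ν ^ 2 - (64 / 125 - 6 * β * (16 / 25)) =
      (4 / 5 - ν) * (6 * β * (4 / 5 + ν) - (16 / 25 + 4 / 5 * ν + ν ^ 2)) := by ring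
  have h3 : 0 ≤ 6 * β * (4 / 5 + ν) - (16 / 25 + 4 / 5 * ν + ν ^ 2) := by
    nlinarith [mul_nonneg hν h1]
  have h4 := mul_nonneg h1 h3
  linarith

theorem calcR4 (s β δ ν : ℝ) (hβ : 3 / 10 ≤ β) (hβ2 : β ≤ 1 / 2) (hs0 : 0 ≤ s)
    (hδ : 0 ≤ δ) (hδβ : δ ≤ β ^ 2) (hν : 0 ≤ ν) (hν2 : ν ^ 2 ≤ 16 / 25)
    (hN : s ^ 2 ≤ ν ^ 2 - 2 * β + β ^ 2 + δ) :
    0 ≤ ν ^ 3 - s ^ 3 - 6 * β * ν ^ 2 + 9 * β ^ 2 - 4 * β ^ 3 + 3 * (1 - 2 * β) * δ := by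
  have hν1 : ν ≤ 4 / 5 := by nlinarith
  have h1 := XR4_mono β ν hβ hν hν1
  have hS : s ^ 2 ≤ 16 / 25 - 2 * β + β ^ 2 + δ := by linarith
  obtain ⟨S, hSd⟩ : ∃ S, S = 16 / 25 - 2 * β + β ^ 2 + δ := ⟨_, rfl⟩
  rw [← hSd] at hS
  have hS0 : 0 ≤ S := le_trans (sq_nonneg s) hS
  -- s^3 ≤ S (S + c^2) / (2c), c = 9/25
  have h2 : s ≤ (S + (9 / 25) ^ 2) / (18 / 25) := by
    rw [le_div_iff₀ (by norm_num)]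
    nlinarith [sq_nonneg (s - 9 / 25)]
  have h3 : s ^ 3 ≤ S * ((S + (9 / 25) ^ 2) / (18 / 25)) := by
    have : s ^ 3 = s ^ 2 * s := by ring
    rw [this]
    exact mul_le_mul hS h2 hs0 hS0
  have h4 : 0 ≤ 64 / 125 - 6 * β * (16 / 25) + 9 * β ^ 2 - 4 * β ^ 3 + 3 * (1 - 2 * β) * δ -
      S * ((S + (9 / 25) ^ 2) / (18 / 25)) := by
    have e : δ = S - 16 / 25 + 2 * β - β ^ 2 := by linarith
    subst e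
    have hb1 : 0 ≤ β - 3 / 10 := by linarith
    have hb2 : 0 ≤ 1 / 2 - β := by linarith
    nlinarith [mul_nonneg hb1 hb2, mul_nonneg hS0 hb1, mul_nonneg hS0 hb2, mul_nonneg hδ hS0,
      mul_nonneg (sub_nonneg.2 hδβ) hS0, mul_nonneg hδ hb1, mul_nonneg hδ hb2,
      mul_nonneg (sub_nonneg.2 hδβ) hb1, mul_nonneg (sub_nonneg.2 hδβ) hb2,
      mul_nonneg (mul_nonneg hb1 hb2) hb1, mul_nonneg (mul_nonneg hb1 hb2) hb2,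
      mul_nonneg (mul_nonneg hS0 hb1) hb2]
  linarith

end Pool.H3F
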