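import Pool.Agent.H3F.XR1
import Pool.Agent.H3F.XR2
import Pool.Agent.H3F.XR3
import Pool.Agent.H3F.XR4

/-! Real inequalities for the upper curve. -/
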