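import Pool.Agent.H3F.XW

/-! Robust version of the triangle bound. -/

namespace Pool.H3F

open Finset

section

variable {V : Type} [Fintype V]

theorem XT_q2_add_left (a b c : V → ℝ) (A : V → V → ℝ) :
    q2 (fun i => a i + b i) c A = q2 a c A + q2 b c A := by
  unfold q2
  rw [← Finset.sum_add_distrib]
  refine Finset.sum_congr rfl fun i _ => ?_
  rw [← Finset.sum_add_distrib]
  refine Finset.sum_congr rfl fun j _ => ?_
  ring

theorem XT_q2_add_right (a b c : V → ℝ) (A : V → V → ℝ) :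
    q2 c (fun i => a i + b i) A = q2 c a A + q2 c b A := by
  unfold q2
  rw [← Finset.sum_add_distrib]
  refine Finset.sum_congr rfl fun i _ => ?_
  rw [← Finset.sum_add_distrib]
  refine Finset.sum_congr rfl fun j _ => ?_
  ring

theorem XT_q2_comm (a b : V → ℝ) {A : V → V → ℝ} (hs : ∀ i j, A i j = A j i) :
    q2 a b A = q2 b a A := by
  unfold q2
  rw [Finset.sum_comm]
  refine Finset.sum_congr rfl fun i _ => Finset.sum_congr rfl fun j _ => ?_
  rw [hs j i]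
  ring

theorem XT_q3_add1 (a b c e : V → ℝ) (A B C : V → V → ℝ) :
    q3 (fun i => a i + b i) c e A B C = q3 a c e A B C + q3 b c e A B C := by
  unfold q3
  rw [← Finset.sum_add_distrib]
  refine Finset.sum_congr rfl fun i _ => ?_
  rw [← Finset.sum_add_distrib]
  refine Finset.sum_congr rfl fun j _ => ?_
  rw [← Finset.sum_add_distrib]
  refine Finset.sum_congr rfl fun k _ => ?_
  ring

theorem XT_q3_swap12 (a b c : V → ℝ) {A : V → V → ℝ} (hs : ∀ i j, A i j = A j i) :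
    q3 a b c A A A = q3 b a c A A A := by
  unfold q3
  rw [Finset.sum_comm]
  refine Finset.sum_congr rfl fun i _ => Finset.sum_congr rfl fun j _ =>
    Finset.sum_congr rfl fun k _ => ?_
  rw [hs j i]
  ring

theorem XT_q3_swap23 (a b c : V → ℝ) {A : V → V → ℝ} (hs : ∀ i j, A i j = A j i) :
    q3 a b c A A A = q3 a c b A A A := by
  unfold q3
  refine Finset.sum_congr rfl fun i _ => ?_
  rw [Finset.sum_comm]
  refine Finset.sum_congr rfl fun j _ => Finset.sum_congr rfl fun k _ => ?_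
  rw [hs k j]
  ring

theorem XT_q3_add2 (a b c e : V → ℝ) {A : V → V → ℝ} (hs : ∀ i j, A i j = A j i) :
    q3 c (fun i => a i + b i) e A A A = q3 c a e A A A + q3 c b e A A A := by
  rw [XT_q3_swap12 _ _ _ hs, XT_q3_add1, XT_q3_swap12 a _ _ hs, XT_q3_swap12 b _ _ hs]

theorem XT_q3_add3 (a b c e : V → ℝ) {A : V → V → ℝ} (hs : ∀ i j, A i j = A j i) :
    q3 c e (fun i => a i + b i) A A A = q3 c e a A A A + q3 c e b A A A := by
  rw [XT_q3_swap23 _ _ _ hs, XT_q3_add2 _ _ _ _ hs, XT_q3_swap23 _ a _ hs,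
    XT_q3_swap23 _ b _ hs]

/-- cubic expansion -/
theorem XT_q3_expand (a b : V → ℝ) {A : V → V → ℝ} (hs : ∀ i j, A i j = A j i) :
    q3 (fun i => a i + b i) (fun i => a i + b i) (fun i => a i + b i) A A A =
      q3 b b b A A A + 3 * q3 a b b A A A + 3 * q3 a a b A A A + q3 a a a A A A := by
  rw [XT_q3_add1, XT_q3_add2 _ _ _ _ hs, XT_q3_add2 _ _ _ _ hs, XT_q3_add3 _ _ _ _ hs,
    XT_q3_add3 _ _ _ _ hs, XT_q3_add3 _ _ _ _ hs, XT_q3_add3 _ _ _ _ hs]
  rw [XT_q3_swap12 b a b hs, XT_q3_swap12 b a a hs, XT_q3_swap23 b b a hs,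
    XT_q3_swap12 b a b hs, XT_q3_swap23 a b a hs]
  ring

/-- the numerical inequality, second case -/
theorem XT_num {s w z yy e T β θ : ℝ} (hz : 0 ≤ z) (hw : 0 ≤ w) (hyy : 0 ≤ yy) (hyw : yy ≤ w)
    (hlt : z + w < s) (hθ1 : θ ≤ 3 * β) (hθ2 : θ ≤ s)
    (hu : s ^ 2 = z ^ 2 + 2 * e + yy ^ 2)
    (hT : T ≤ z ^ 3 + 3 * (w * z ^ 2) + 3 * (yy * e) + yy ^ 3) :
    T - 3 * β * z ^ 2 ≤ s ^ 3 - θ * (s - w) ^ 2 := by
  have he : e = (s ^ 2 - z ^ 2 - yy ^ 2) / 2 := by linarith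
  subst he
  -- monotonicity in yy
  have hU : w ^ 2 ≤ s ^ 2 - z ^ 2 := by nlinarith
  have h1 : 3 * (yy * ((s ^ 2 - z ^ 2 - yy ^ 2) / 2)) + yy ^ 3 ≤
      (3 / 2) * (s ^ 2 - z ^ 2) * w - w ^ 3 / 2 := by
    have h2 : (3 / 2) * (s ^ 2 - z ^ 2) * w - w ^ 3 / 2 -
        (3 * (yy * ((s ^ 2 - z ^ 2 - yy ^ 2) / 2)) + yy ^ 3) =
        (w - yy) / 2 * (3 * (s ^ 2 - z ^ 2) - (w ^ 2 + w * yy + yy ^ 2)) := by ring
    have h3 : 0 ≤ (w - yy) / 2 * (3 * (s ^ 2 - z ^ 2) - (w ^ 2 + w * yy + yy ^ 2)) := by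
      apply mul_nonneg (by linarith)
      nlinarith
    linarith
  obtain ⟨r, hr⟩ : ∃ r, r = s - w := ⟨_, rfl⟩
  obtain ⟨c, hc⟩ : ∃ c, c = (3 / 2) * (s - r) - θ := ⟨_, rfl⟩
  have hrz : z < r := by linarith
  have hrs : r ≤ s := by linarith
  have h4 : 0 ≤ r + c := by
    rw [hc]; linarith
  have h5 : z ^ 2 * (z + c) ≤ r ^ 2 * (r + c) := by
    rcases le_total (z + c) 0 with h | h
    · have a1 : z ^ 2 * (z + c) ≤ 0 := mul_nonpos_of_nonneg_of_nonpos (sq_nonneg _) h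
      have a2 : 0 ≤ r ^ 2 * (r + c) := mul_nonneg (sq_nonneg _) h4
      linarith
    · exact mul_le_mul (pow_le_pow_left₀ hz hrz.le 2) (by linarith) h (sq_nonneg _)
  have h6 : θ * z ^ 2 ≤ 3 * β * z ^ 2 := mul_le_mul_of_nonneg_right hθ1 (sq_nonneg _)
  have h7 : w = s - r := by linarith
  have h8 : s - w = r := hr.symm
  rw [h8]
  have h9 : s ^ 3 - θ * r ^ 2 - (z ^ 3 + 3 * (w * z ^ 2) + ((3 / 2) * (s ^ 2 - z ^ 2) * w - w ^ 3 / 2))
      + θ * z ^ 2 = r ^ 2 * (r + c) - z ^ 2 * (z + c) := by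
    rw [h7, hc]; ring
  linarith

theorem XT_le_of_sq {q a : ℝ} (ha : 0 ≤ a) (h : q ^ 2 ≤ a ^ 2) : q ≤ a :=
  (le_abs_self q).trans ((sq_le_sq₀ (abs_nonneg q) ha).1 (by rwa [sq_abs]))

theorem robust (x : V → ℝ) (hx : ∀ i, 0 ≤ x i) (I : V → V → ℝ) (hs : ∀ i j, I i j = I j i)
    (hI : ∀ i j, I i j = 0 ∨ I i j = 1) (β : ℝ) (hβ : 0 ≤ β) (y : V) :
    q3 x x x (co I) (co I) (co I) - 3 * β * jn x I y ≤
      √(q2 x x (co I)) ^ 3 - min (3 * β) (√(q2 x x (co I))) *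
        max (√(q2 x x (co I)) - dg x I y) 0 ^ 2 := by
  obtain ⟨J, hJ⟩ : ∃ J, J = co I := ⟨_, rfl⟩
  have hJs : ∀ i j, J i j = J j i := by
    intro i j
    rw [hJ]
    unfold co
    rw [hs]
  have hJ01 : ∀ i j, J i j = 0 ∨ J i j = 1 := by
    intro i j
    rw [hJ]
    unfold co
    rcases hI i j with h | h <;> rw [h] <;> norm_num
  have J0 : ∀ i j, 0 ≤ J i j := by
    intro i j
    rcases hJ01 i j with h | h <;> rw [h]
    exact zero_le_one
  have J1 : ∀ i j, J i j ≤ 1 := by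
    intro i j
    rcases hJ01 i j with h | h <;> rw [h]
    exact zero_le_one
  have I0 : ∀ i j, 0 ≤ I i j := by
    intro i j
    rcases hI i j with h | h <;> rw [h]
    exact zero_le_one
  rw [← hJ]
  obtain ⟨X, hX⟩ : ∃ X : V → ℝ, ∀ k, X k = x k * I y k := ⟨_, fun _ => rfl⟩
  obtain ⟨Y, hY⟩ : ∃ Y : V → ℝ, ∀ k, Y k = x k * J y k := ⟨_, fun _ => rfl⟩
  have X0 : ∀ k, 0 ≤ X k := fun k => by rw [hX]; exact mul_nonneg (hx _) (I0 _ _)
  have Y0 : ∀ k, 0 ≤ Y k := fun k => by rw [hY]; exact mul_nonneg (hx _) (J0 _ _)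
  have hxXY : x = fun k => X k + Y k := by
    funext k
    rw [hX, hY, hJ]
    unfold co
    ring
  -- the quantities
  obtain ⟨w, hw⟩ : ∃ w, w = dg x I y := ⟨_, rfl⟩
  have hwX : w = ∑ k, X k := by
    rw [hw]
    unfold dg
    exact Finset.sum_congr rfl fun k _ => (hX k).symm
  have w0 : 0 ≤ w := by rw [hwX]; exact Finset.sum_nonneg fun k _ => X0 k
  have hZ : jn x I y = q2 Y Y J := by
    unfold jn q2
    refine Finset.sum_congr rfl fun k _ => Finset.sum_congr rfl fun l _ => ?_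
    rw [hY, hY, hJ]
    ring
  have q20 : ∀ a b : V → ℝ, (∀ i, 0 ≤ a i) → (∀ i, 0 ≤ b i) → 0 ≤ q2 a b J := by
    intro a b ha hb
    exact Finset.sum_nonneg fun i _ => Finset.sum_nonneg fun j _ =>
      mul_nonneg (mul_nonneg (ha _) (hb _)) (J0 _ _)
  have hx' : ∀ i, 0 ≤ x i := hx
  have Z0 := q20 Y Y Y0 Y0
  have E0 := q20 X Y X0 Y0
  have Y20 := q20 X X X0 X0
  have u0 := q20 x x hx hx
  have hu : q2 x x J = q2 Y Y J + 2 * q2 X Y J + q2 X X J := by
    conv_lhs => rw [hxXY]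
    rw [XT_q2_add_left, XT_q2_add_right, XT_q2_add_right, XT_q2_comm Y X hJs]
    ring
  have hY2w : q2 X X J ≤ w ^ 2 := by
    have : w ^ 2 = ∑ i, ∑ j, X i * X j := by
      rw [sq, hwX, Finset.sum_mul_sum]
    rw [this]
    apply Finset.sum_le_sum
    intro i _
    apply Finset.sum_le_sum
    intro j _
    exact mul_le_of_le_one_right (mul_nonneg (X0 _) (X0 _)) (J1 _ _)
  obtain ⟨s, hsd⟩ : ∃ s, s = √(q2 x x J) := ⟨_, rfl⟩
  obtain ⟨z, hzd⟩ : ∃ z, z = √(q2 Y Y J) := ⟨_, rfl⟩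
  obtain ⟨yy, hyyd⟩ : ∃ yy, yy = √(q2 X X J) := ⟨_, rfl⟩
  have s0 : 0 ≤ s := by rw [hsd]; exact Real.sqrt_nonneg _
  have z0 : 0 ≤ z := by rw [hzd]; exact Real.sqrt_nonneg _
  have yy0 : 0 ≤ yy := by rw [hyyd]; exact Real.sqrt_nonneg _
  have s2 : s ^ 2 = q2 x x J := by rw [hsd]; exact Real.sq_sqrt u0
  have z2 : z ^ 2 = q2 Y Y J := by rw [hzd]; exact Real.sq_sqrt Z0
  have yy2 : yy ^ 2 = q2 X X J := by rw [hyyd]; exact Real.sq_sqrt Y20
  have hT1 : q3 x x x J J J ≤ s ^ 3 := by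
    apply XT_le_of_sq (by positivity)
    refine (q3_sq_le x x x hx hx hx J J J hJ01 hJ01 hJ01).trans (le_of_eq ?_)
    rw [← s2]; ring
  have hyw : yy ≤ w := by
    apply XT_le_of_sq w0
    rw [yy2]
    exact hY2w
  rw [← hsd, ← hw, hZ, ← z2]
  rcases le_or_gt s (z + w) with hA | hB
  · -- case A
    have h1 : max (s - w) 0 ≤ z := max_le (by linarith) z0
    have h2 : max (s - w) 0 ^ 2 ≤ z ^ 2 := pow_le_pow_left₀ (le_max_right _ _) h1 2
    have h3 : min (3 * β) s * max (s - w) 0 ^ 2 ≤ 3 * β * z ^ 2 :=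
      mul_le_mul (min_le_left _ _) h2 (sq_nonneg _) (by positivity)
    linarith
  · have h1 : max (s - w) 0 = s - w := max_eq_left (by linarith)
    rw [h1]
    apply XT_num z0 w0 yy0 hyw hB (min_le_left _ _) (min_le_right _ _) (e := q2 X Y J)
    · rw [s2, z2, yy2, hu]
    · -- bound of the cubic form
      have e1 : q3 x x x J J J =
          q3 Y Y Y J J J + 3 * q3 X Y Y J J J + 3 * q3 X X Y J J J + q3 X X X J J J := by
        conv_lhs => rw [hxXY]
        exact XT_q3_expand X Y hJs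
      have b1 : q3 Y Y Y J J J ≤ z ^ 3 := by
        apply XT_le_of_sq (by positivity)
        refine (q3_sq_le Y Y Y Y0 Y0 Y0 J J J hJ01 hJ01 hJ01).trans (le_of_eq ?_)
        rw [← z2]; ring
      have b2 : q3 X X X J J J ≤ yy ^ 3 := by
        apply XT_le_of_sq (by positivity)
        refine (q3_sq_le X X X X0 X0 X0 J J J hJ01 hJ01 hJ01).trans (le_of_eq ?_)
        rw [← yy2]; ring
      have b3 : q3 X X Y J J J ≤ yy * q2 X Y J := by
        apply XT_le_of_sq (mul_nonneg yy0 E0)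
        refine (q3_sq_le X X Y X0 X0 Y0 J J J hJ01 hJ01 hJ01).trans (le_of_eq ?_)
        rw [← yy2]; ring
      have b4 : q3 X Y Y J J J ≤ w * z ^ 2 := by
        have h5 : w * z ^ 2 = ∑ i, ∑ j, ∑ k, X i * (Y j * Y k * J j k) := by
          rw [z2, hwX, Finset.sum_mul]
          refine Finset.sum_congr rfl fun i _ => ?_
          unfold q2
          rw [Finset.mul_sum]
          refine Finset.sum_congr rfl fun j _ => ?_
          rw [Finset.mul_sum]
        rw [h5]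
        unfold q3
        apply Finset.sum_le_sum
        intro i _
        apply Finset.sum_le_sum
        intro j _
        apply Finset.sum_le_sum
        intro k _
        have h6 : J i j * J i k ≤ 1 := mul_le_one₀ (J1 _ _) (J0 _ _) (J1 _ _)
        have h7 : 0 ≤ X i * (Y j * Y k * J j k) :=
          mul_nonneg (X0 _) (mul_nonneg (mul_nonneg (Y0 _) (Y0 _)) (J0 _ _))
        calc X i * Y j * Y k * (J i j * J j k * J i k) =
              (X i * (Y j * Y k * J j k)) * (J i j * J i k) := by ring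
          _ ≤ (X i * (Y j * Y k * J j k)) * 1 := mul_le_mul_of_nonneg_left h6 h7
          _ = _ := mul_one _
      rw [e1]
      linarith

end

end Pool.H3F
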