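import Pool.Agent.H3F.XB
import Pool.Agent.H3F.XT
import Pool.Agent.H3F.XR

/-! The upper curve. -/

namespace Pool.H3F

open Finset

section

variable {V : Type} [Fintype V] {ρ : V → ℝ} {I : V → V → ℝ}

private theorem q2_dg (x y : V → ℝ) (A : V → V → ℝ) : q2 x y A = ∑ i, x i * dg y A i := by
  simp only [q2, dg, mul_sum, mul_assoc]

private theorem zo01 (h : IsSys ρ I) (i j : V) : 0 ≤ I i j ∧ I i j ≤ 1 := by
  rcases h.zo i j with h1 | h1 <;> rw [h1] <;> norm_num

private theorem dg_nonneg (h : IsSys ρ I) {x : V → ℝ} (hx : ∀ i, 0 ≤ x i) (y : V) :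
    0 ≤ dg x I y :=
  sum_nonneg fun j _ => mul_nonneg (hx j) (zo01 h y j).1

private theorem dg_le (h : IsSys ρ I) {x : V → ℝ} (hx : ∀ i, 0 ≤ x i) (y : V) :
    dg x I y ≤ tot x :=
  sum_le_sum fun j _ => mul_le_of_le_one_right (hx j) (zo01 h y j).2

private theorem jensen {m f : V → ℝ} (hm : ∀ i, 0 ≤ m i) :
    (∑ i, m i * f i) ^ 2 ≤ tot m * ∑ i, m i * f i ^ 2 := by
  refine Finset.sum_sq_le_sum_mul_sum_of_sq_le_mul univ (fun i _ => hm i)
    (fun i _ => mul_nonneg (hm i) (sq_nonneg _)) (fun i _ => le_of_eq ?_)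
  ring

/-- comparison of `ν ^ 3 - 6 β ν ^ 2` at two values -/
private theorem cube_mono {β ν ν' : ℝ} (hβ : 0 ≤ β) (h1 : 4 * β ≤ ν') (h2 : ν' ≤ ν) :
    ν' ^ 3 - 6 * β * ν' ^ 2 ≤ ν ^ 3 - 6 * β * ν ^ 2 := by
  have h3 : 0 ≤ (ν - ν') * (ν ^ 2 + ν * ν' + ν' ^ 2 - 6 * β * (ν + ν')) := by
    refine mul_nonneg (by linarith) ?_
    have h4 : 0 ≤ ν' := by linarith
    have h5 : 6 * β * (ν + ν') ≤ 3 / 2 * ν' * (ν + ν') :=
      mul_le_mul_of_nonneg_right (by linarith) (by linarith)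
    nlinarith
  nlinarith

theorem IsSys.up_pos (h : IsSys ρ I) (hσ : tot (mm ρ) ≤ 1 / 2) (ha : 9 / 25 ≤ aOf ρ I) :
    bOf ρ I ≤ 3 * aOf ρ I - 1 + √(1 - aOf ρ I) ^ 3 := by
  have hp : ∀ i, 0 ≤ pp ρ i := pp_nonneg ρ
  have hm : ∀ i, 0 ≤ mm ρ i := mm_nonneg ρ
  have hup := h.upper
  have huv := h.u_val
  obtain ⟨-, ha1, -⟩ := h.ext0
  have hrob := fun y => robust (pp ρ) hp I h.sym h.zo (tot (mm ρ)) (sum_nonneg fun i _ => hm i) y
  have hν2 : √(1 - aOf ρ I) ^ 2 = 1 - aOf ρ I := Real.sq_sqrt (by linarith)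
  have hν : 0 ≤ √(1 - aOf ρ I) := Real.sqrt_nonneg _
  have hu0 : 0 ≤ q2 (pp ρ) (pp ρ) (co I) := by
    refine sum_nonneg fun i _ => sum_nonneg fun j _ => mul_nonneg (mul_nonneg (hp i) (hp j)) ?_
    have := (zo01 h i j).2
    simp only [co]; linarith
  have hs2 : √(q2 (pp ρ) (pp ρ) (co I)) ^ 2 = q2 (pp ρ) (pp ρ) (co I) := Real.sq_sqrt hu0
  have hs : 0 ≤ √(q2 (pp ρ) (pp ρ) (co I)) := Real.sqrt_nonneg _
  have hδe : q2 (mm ρ) (mm ρ) I = ∑ y, mm ρ y * dg (mm ρ) I y := q2_dg _ _ _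
  have hie : q2 (mm ρ) (pp ρ) I = ∑ y, mm ρ y * dg (pp ρ) I y := q2_dg _ _ _
  have hd0 : ∀ y, 0 ≤ dg (mm ρ) I y := dg_nonneg h hm
  have hd1 : ∀ y, dg (mm ρ) I y ≤ tot (mm ρ) := dg_le h hm
  have hi0 : ∀ y, 0 ≤ dg (pp ρ) I y := dg_nonneg h hp
  have hβ0 : 0 ≤ tot (mm ρ) := sum_nonneg fun i _ => hm i
  have hV : Nonempty V := by
    by_contra hV
    rw [not_nonempty_iff] at hV
    have := h.mass
    simp at this
  generalize hβ : tot (mm ρ) = β at *
  generalize hνν : √(1 - aOf ρ I) = ν at *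
  generalize hss : √(q2 (pp ρ) (pp ρ) (co I)) = s at *
  generalize huu : q2 (pp ρ) (pp ρ) (co I) = u at *
  generalize hdd : q2 (mm ρ) (mm ρ) I = δ at *
  generalize hii : q2 (mm ρ) (pp ρ) I = ii at *
  generalize htt : q3 (pp ρ) (pp ρ) (pp ρ) (co I) (co I) (co I) = t at *
  generalize haa : aOf ρ I = a at *
  generalize hbb : bOf ρ I = b at *
  have hβs : ∑ y, mm ρ y = β := hβ
  generalize hmm : mm ρ = m at *
  generalize hId : dg (pp ρ) I = i at *
  generalize hDd : dg m I = d at *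
  generalize hJd : jn (pp ρ) I = j at *
  have hδ0 : 0 ≤ δ := by rw [hδe]; exact sum_nonneg fun y _ => mul_nonneg (hm y) (hd0 y)
  have hδβ : δ ≤ β ^ 2 := by
    rw [hδe]
    calc ∑ y, m y * d y ≤ ∑ y, m y * β :=
          sum_le_sum fun y _ => mul_le_mul_of_nonneg_left (hd1 y) (hm y)
      _ = β ^ 2 := by rw [← sum_mul, hβs]; ring
  have hii0 : 0 ≤ ii := by rw [hie]; exact sum_nonneg fun y _ => mul_nonneg (hm y) (hi0 y)
  have hN : ν ^ 2 = s ^ 2 + 2 * β - β ^ 2 + 2 * ii - δ := by rw [hν2, hs2]; linarith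
  have hN2 : ν ^ 2 ≤ 16 / 25 := by rw [hν2]; linarith
  rcases eq_or_lt_of_le hβ0 with hβz | hβpos
  · -- no negative part
    have hmz : ∀ y, m y = 0 := by
      have h1 : ∑ y, m y = 0 := by rw [hβs]; exact hβz.symm
      intro y
      exact (sum_eq_zero_iff_of_nonneg (fun i _ => hm i)).1 h1 y (mem_univ y)
    have hδz : δ = 0 := by rw [hδe]; simp [hmz]
    have hiz : ii = 0 := by rw [hie]; simp [hmz]
    have hj1 : ∑ y, m y * j y = 0 := by simp [hmz]
    have hj2 : ∑ y, m y * (i y * d y) = 0 := by simp [hmz]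
    have hν : ν = s := by
      have h1 : ν ^ 2 = s ^ 2 := by rw [hN, hδz, hiz, ← hβz]; ring
      exact (pow_left_inj₀ hν hs two_ne_zero).1 h1
    obtain ⟨y⟩ := hV
    have h1 := hrob y
    rw [← hβz] at h1
    have h2 : min (3 * (0 : ℝ)) s = 0 := by rw [mul_zero]; exact min_eq_left hs
    rw [h2] at h1
    rw [hj1, hj2, hδz, hiz, ← hβz] at hup
    rw [hν]
    linarith
  · have hc : ∀ c : ℝ, β * c = ∑ y, m y * c := fun c => by rw [← hβs, sum_mul]
    -- average of the robust bounds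
    have havg : t - 3 * ∑ y, m y * j y ≤
        s ^ 3 - min (3 * β) s / β * ∑ y, m y * max (s - i y) 0 ^ 2 := by
      have h1 : ∑ y, m y * (t - 3 * β * j y) ≤
          ∑ y, m y * (s ^ 3 - min (3 * β) s * max (s - i y) 0 ^ 2) :=
        sum_le_sum fun y _ => mul_le_mul_of_nonneg_left (hrob y) (hm y)
      have h2 : ∑ y, m y * (t - 3 * β * j y) = β * (t - 3 * ∑ y, m y * j y) := by
        rw [mul_sub, hc t, mul_sum, mul_sum, ← sum_sub_distrib]
        refine sum_congr rfl fun y _ => ?_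
        ring
      have h3 : ∑ y, m y * (s ^ 3 - min (3 * β) s * max (s - i y) 0 ^ 2) =
          β * (s ^ 3 - min (3 * β) s / β * ∑ y, m y * max (s - i y) 0 ^ 2) := by
        have e1 : β * (s ^ 3 - min (3 * β) s / β * ∑ y, m y * max (s - i y) 0 ^ 2) =
            β * s ^ 3 - min (3 * β) s * ∑ y, m y * max (s - i y) 0 ^ 2 := by
          field_simp
        rw [e1, hc (s ^ 3), mul_sum, ← sum_sub_distrib]
        refine sum_congr rfl fun y _ => ?_
        ring
      rw [h2, h3] at h1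
      exact le_of_mul_le_mul_left h1 hβpos
    have hlast : 0 ≤ β * ii - ∑ y, m y * (i y * d y) := by
      rw [hie, mul_sum, ← sum_sub_distrib]
      refine sum_nonneg fun y _ => ?_
      have : β * (m y * i y) - m y * (i y * d y) = m y * i y * (β - d y) := by ring
      rw [this]
      exact mul_nonneg (mul_nonneg (hm y) (hi0 y)) (sub_nonneg.2 (hd1 y))
    rcases le_or_gt (3 * β) s with hs3 | hs3
    · -- `s ≥ 3 β`
      have hmin : min (3 * β) s / β = 3 := by
        rw [min_eq_left hs3]; field_simp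
      rw [hmin] at havg
      set X : V → ℝ := fun y => min (i y) s with hX
      have hmax : ∀ y, max (s - i y) 0 = s - X y := by
        intro y
        rcases le_total (i y) s with h1 | h1
        · rw [hX]; simp only [min_eq_left h1]; exact max_eq_left (by linarith)
        · rw [hX]; simp only [min_eq_right h1]; rw [sub_self]; exact max_eq_right (by linarith)
      have hX0 : ∀ y, 0 ≤ X y := fun y => le_min (hi0 y) hs
      have hXs : ∀ y, X y ≤ s := fun y => min_le_right _ _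
      have hXi : ∀ y, X y ≤ i y := fun y => min_le_left _ _
      obtain ⟨x, hx⟩ : ∃ x, β * x = ∑ y, m y * X y :=
        ⟨(∑ y, m y * X y) / β, by field_simp⟩
      have hx0 : 0 ≤ x := by
        have h1 : 0 ≤ β * x := by
          rw [hx]; exact sum_nonneg fun y _ => mul_nonneg (hm y) (hX0 y)
        exact nonneg_of_mul_nonneg_right h1 hβpos
      have hxs : x ≤ s := by
        have h1 : β * x ≤ β * s := by
          rw [hx, hc s]
          exact sum_le_sum fun y _ => mul_le_mul_of_nonneg_left (hXs y) (hm y)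
        exact le_of_mul_le_mul_left h1 hβpos
      have hxi : β * x ≤ ii := by
        rw [hx, hie]
        exact sum_le_sum fun y _ => mul_le_mul_of_nonneg_left (hXi y) (hm y)
      have hjen : β * (s - x) ^ 2 ≤ ∑ y, m y * max (s - i y) 0 ^ 2 := by
        have h1 := jensen (m := m) (f := fun y => s - X y) hm
        have h2 : ∑ y, m y * (s - X y) = β * (s - x) := by
          rw [mul_sub, hx, hc s, ← sum_sub_distrib]
          exact sum_congr rfl fun y _ => by ring
        have h3 : ∑ y, m y * max (s - i y) 0 ^ 2 = ∑ y, m y * (s - X y) ^ 2 :=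
          sum_congr rfl fun y _ => by rw [hmax y]
        have h4 : tot m = β := hβ
        rw [h2, h4] at h1
        rw [h3]
        have h5 : β * (β * (s - x) ^ 2) ≤ β * ∑ y, m y * (s - X y) ^ 2 := by
          refine le_trans (le_of_eq ?_) h1
          ring
        exact le_of_mul_le_mul_left h5 hβpos
      have hterms : 2 * β ^ 2 * x + (3 - 6 * β - 2 * s) * δ ≤
          3 * (1 - 2 * β) * δ + 3 * (β * ii - ∑ y, m y * (i y * d y)) := by
        have e1 : 2 * β ^ 2 * x + (3 - 6 * β - 2 * s) * δ =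
            ∑ y, m y * (2 * X y * β + (3 - 6 * β - 2 * s) * d y) := by
          have : 2 * β ^ 2 * x = 2 * β * (β * x) := by ring
          rw [this, hx, hδe, mul_sum, mul_sum, ← sum_add_distrib]
          exact sum_congr rfl fun y _ => by ring
        have e2 : 3 * (1 - 2 * β) * δ + 3 * (β * ii - ∑ y, m y * (i y * d y)) =
            ∑ y, m y * (3 * (1 - 2 * β) * d y + 3 * (i y * (β - d y))) := by
          rw [hδe, hie, mul_sum, mul_sum, ← sum_sub_distrib, mul_sum, ← sum_add_distrib]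
          exact sum_congr rfl fun y _ => by ring
        rw [e1, e2]
        refine sum_le_sum fun y _ => mul_le_mul_of_nonneg_left ?_ (hm y)
        have f1 : X y * (β - d y) ≤ i y * (β - d y) :=
          mul_le_mul_of_nonneg_right (hXi y) (sub_nonneg.2 (hd1 y))
        have f2 : 0 ≤ X y * (β - d y) := mul_nonneg (hX0 y) (sub_nonneg.2 (hd1 y))
        have f3 : X y * d y ≤ s * d y := mul_le_mul_of_nonneg_right (hXs y) (hd0 y)
        linarith
      -- the smaller value of `ν`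
      have hβx : 0 ≤ β * x := mul_nonneg hβpos.le hx0
      have hsq : 9 * β ^ 2 ≤ s ^ 2 := by
        have := pow_le_pow_left₀ (by linarith : (0 : ℝ) ≤ 3 * β) hs3 2
        linarith
      have hβ2 : 0 ≤ β ^ 2 := sq_nonneg β
      have hN'0 : 0 ≤ s ^ 2 + 2 * β - β ^ 2 + 2 * β * x - δ := by linarith
      obtain ⟨ν', hν'0, hν'2⟩ : ∃ ν' : ℝ, 0 ≤ ν' ∧
          ν' ^ 2 = s ^ 2 + 2 * β - β ^ 2 + 2 * β * x - δ :=
        ⟨√(s ^ 2 + 2 * β - β ^ 2 + 2 * β * x - δ), Real.sqrt_nonneg _, Real.sq_sqrt hN'0⟩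
      have hνν' : ν' ≤ ν := by
        refine le_of_sq_le_sq ?_ hν
        rw [hν'2, hN]; linarith
      have hν'25 : ν' ^ 2 ≤ 16 / 25 := by rw [hν'2]; linarith
      have hlow : 7 * β ^ 2 + 2 * β ≤ ν' ^ 2 := by rw [hν'2]; linarith
      have hβ29 : β ≤ 2 / 9 := by
        by_contra hcon
        push Not at hcon
        have e1 : (2 / 9) * (2 / 9) ≤ β * β := mul_self_le_mul_self (by norm_num) hcon.le
        linarith
      have h4β : 4 * β ≤ ν' := by
        refine le_of_sq_le_sq ?_ hν'0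
        have e1 : 9 * β * β ≤ 2 * β := mul_le_mul_of_nonneg_right (by linarith) hβpos.le
        linarith
      have hR := calcR1 s β x δ ν' hβpos.le hs3 hx0 hxs hδ0 hδβ hν'0 hν'25 hν'2
      have hmono := cube_mono hβpos.le h4β hνν'
      rw [hν2] at hmono
      linarith
    · -- `s < 3 β`
      have hmin : min (3 * β) s / β = s / β := by rw [min_eq_right hs3.le]
      rw [hmin] at havg
      obtain ⟨x, hx⟩ : ∃ x, β * x = ii := ⟨ii / β, by field_simp⟩
      have hx0 : 0 ≤ x := by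
        have h1 : 0 ≤ β * x := by rw [hx]; exact hii0
        exact nonneg_of_mul_nonneg_right h1 hβpos
      have hS0 : 0 ≤ ∑ y, m y * max (s - i y) 0 ^ 2 :=
        sum_nonneg fun y _ => mul_nonneg (hm y) (sq_nonneg _)
      have hN' : ν ^ 2 = s ^ 2 + 2 * β - β ^ 2 + 2 * β * x - δ := by
        rw [hN, ← hx]; ring
      have hβx : 0 ≤ β * x := mul_nonneg hβpos.le hx0
      have hdrop : 0 ≤ s / β * ∑ y, m y * max (s - i y) 0 ^ 2 :=
        mul_nonneg (div_nonneg hs hβpos.le) hS0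
      rcases le_or_gt (3 / 10) β with hβ3 | hβ3
      · have hR := calcR4 s β δ ν hβ3 hσ hs hδ0 hδβ hν hN2 (by linarith)
        rw [hν2] at hR
        linarith
      · rcases le_or_gt s x with hxs | hxs
        · have hsx : β * s ≤ β * x := mul_le_mul_of_nonneg_left hxs hβpos.le
          have hR := calcR3 s β δ ν hβpos hβ3.le hs hδ0 hδβ hν hN2 (by linarith)
          rw [hν2] at hR
          linarith
        · have hR := calcR2 s β x δ ν hβpos hβ3.le hs hs3.le hx0 hxs.le hδ0 hδβ hν hN2 hN'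
          have hjen : β * (s - x) ^ 2 ≤ ∑ y, m y * max (s - i y) 0 ^ 2 := by
            have h1 := jensen (m := m) (f := fun y => max (s - i y) 0) hm
            have h2 : β * (s - x) ≤ ∑ y, m y * max (s - i y) 0 := by
              have e1 : β * (s - x) = ∑ y, m y * (s - i y) := by
                rw [mul_sub, hx, hie, hc s, ← sum_sub_distrib]
                exact sum_congr rfl fun y _ => by ring
              rw [e1]
              exact sum_le_sum fun y _ => mul_le_mul_of_nonneg_left (le_max_left _ _) (hm y)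
            have h3 : (β * (s - x)) ^ 2 ≤ (∑ y, m y * max (s - i y) 0) ^ 2 :=
              pow_le_pow_left₀ (mul_nonneg hβpos.le (by linarith)) h2 2
            have h4 : tot m = β := hβ
            rw [h4] at h1
            have h5 : β * (β * (s - x) ^ 2) ≤ β * ∑ y, m y * max (s - i y) 0 ^ 2 := by
              refine le_trans (le_of_eq ?_) (h3.trans h1)
              ring
            exact le_of_mul_le_mul_left h5 hβpos
          have hterm : s * (s - x) ^ 2 ≤ s / β * ∑ y, m y * max (s - i y) 0 ^ 2 := by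
            have h1 := mul_le_mul_of_nonneg_left hjen (div_nonneg hs hβpos.le)
            refine le_trans (le_of_eq ?_) h1
            field_simp
          rw [hν2] at hR
          linarith

/-- Negative total weight: crude bound. -/
theorem IsSys.up_neg (h : IsSys ρ I) (hσ : 1 / 2 ≤ tot (mm ρ)) (ha : 9 / 25 ≤ aOf ρ I) :
    bOf ρ I ≤ 3 * aOf ρ I - 1 + √(1 - aOf ρ I) ^ 3 := by
  obtain ⟨-, ha1, -⟩ := h.ext0
  have hν2 : √(1 - aOf ρ I) ^ 2 = 1 - aOf ρ I := Real.sq_sqrt (by linarith)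
  have hν : 0 ≤ √(1 - aOf ρ I) := Real.sqrt_nonneg _
  have hts := h.tri_same ρ
  have hue := IsSys.u_eq ρ I
  have hb : tri ρ ρ ρ I = bOf ρ I := rfl
  have hq : q2 ρ ρ I = aOf ρ I := rfl
  rw [hb, hue, hq] at hts
  have hτ : tot ρ = tot (pp ρ) - tot (mm ρ) := IsSys.tot_sub ρ
  have hadd := h.tot_add
  have hτ0 : tot ρ ≤ 0 := by linarith
  have hp0 : 0 ≤ tot (pp ρ) := sum_nonneg fun i _ => pp_nonneg ρ i
  have hτ1 : -1 ≤ tot ρ := by linarith
  -- the cubic term
  have hT : q3 ρ ρ ρ (co I) (co I) (co I) ≤ (1 + tot ρ ^ 3) / 2 := by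
    have h1 : q3 ρ ρ ρ (co I) (co I) (co I) ≤
        ∑ i, ∑ j, ∑ k, (|ρ i| * |ρ j| * |ρ k| + ρ i * ρ j * ρ k) / 2 := by
      refine sum_le_sum fun i _ => sum_le_sum fun j _ => sum_le_sum fun k _ => ?_
      have h2 : co I i j * co I j k * co I i k = 0 ∨ co I i j * co I j k * co I i k = 1 := by
        simp only [co]
        rcases h.zo i j with h1 | h1 <;> rcases h.zo j k with h2 | h2 <;>
          rcases h.zo i k with h3 | h3 <;> rw [h1, h2, h3] <;> norm_num
      have h3 : |ρ i| * |ρ j| * |ρ k| = |ρ i * ρ j * ρ k| := by rw [abs_mul, abs_mul]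
      rw [h3]
      rcases h2 with h2 | h2
      · rw [h2, mul_zero]
        linarith [neg_abs_le (ρ i * ρ j * ρ k)]
      · rw [h2, mul_one]
        linarith [le_abs_self (ρ i * ρ j * ρ k)]
    refine h1.trans (le_of_eq ?_)
    have hcube : ∀ f : V → ℝ, ∑ i, ∑ j, ∑ k, f i * f j * f k = (∑ i, f i) ^ 3 := by
      intro f
      rw [pow_three, sum_mul_sum, sum_mul_sum]
      refine sum_congr rfl fun i _ => sum_congr rfl fun j _ => ?_
      rw [mul_sum]
      exact sum_congr rfl fun k _ => by ring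
    have e1 := hcube (fun i => |ρ i|)
    have e2 := hcube ρ
    rw [h.mass] at e1
    have e3 : ∑ i, ∑ j, ∑ k, (|ρ i| * |ρ j| * |ρ k| + ρ i * ρ j * ρ k) / 2 =
        (∑ i, ∑ j, ∑ k, |ρ i| * |ρ j| * |ρ k| + ∑ i, ∑ j, ∑ k, ρ i * ρ j * ρ k) / 2 := by
      simp only [← sum_add_distrib, sum_div]
    rw [e3, e1, e2, tot]
    norm_num
  set τ := tot ρ with hτd
  set a := aOf ρ I with had
  set ν := √(1 - a) with hνd
  have hν8 : ν ≤ 4 / 5 := by nlinarith
  have h1 : τ * (3 * a - τ ^ 2) ≤ 0 := by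
    refine mul_nonpos_of_nonpos_of_nonneg hτ0 ?_
    nlinarith
  have h2 : τ ^ 3 ≤ 0 := by
    have : τ ^ 3 = τ * τ ^ 2 := by ring
    rw [this]
    exact mul_nonpos_of_nonpos_of_nonneg hτ0 (sq_nonneg _)
  have h3 : bOf ρ I ≤ 1 / 2 := by nlinarith
  have h4 : 1 / 2 ≤ 2 - 3 * ν ^ 2 + ν ^ 3 := by
    nlinarith [mul_nonneg hν (sub_nonneg.2 hν8)]
  rw [hν2] at h4
  linarith

theorem IsSys.up (h : IsSys ρ I) (ha : 9 / 25 ≤ aOf ρ I) :
    |bOf ρ I| ≤ 3 * aOf ρ I - 1 + √(1 - aOf ρ I) ^ 3 := by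
  have key : ∀ {ρ' : V → ℝ}, IsSys ρ' I → 9 / 25 ≤ aOf ρ' I →
      bOf ρ' I ≤ 3 * aOf ρ' I - 1 + √(1 - aOf ρ' I) ^ 3 := by
    intro ρ' h' ha'
    rcases le_total (tot (mm ρ')) (1 / 2) with h1 | h1
    · exact h'.up_pos h1 ha'
    · exact h'.up_neg h1 ha'
  rw [abs_le]
  refine ⟨?_, key h ha⟩
  have h2 := key h.neg (by rw [aOf_neg]; exact ha)
  rw [aOf_neg, bOf_neg] at h2
  linarith

end

end Pool.H3F
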