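import Pool.Agent.H3F.FFill
import Pool.Agent.H3F.FClo
import Pool.Agent.H3F.XU
import Pool.Agent.H3F.XM
import Pool.Agent.H3F.XC

/-! The final statement. -/

namespace Pool.H3F

open Filter Topology

/-- The forms of the diagrams of a sequence converge. -/
theorem FFinAux.forms_tendsto {x : ℝ × ℝ} {m : ℕ → ℕ} {D : ∀ i, KnotDiagram (m i)}
    (hm : Tendsto m atTop atTop)
    (hx : Tendsto (fun i => ((D i).v2 / (m i : ℝ) ^ 2, (D i).v3 / (m i : ℝ) ^ 3)) atTop (𝓝 x)) :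
    Tendsto (fun i => aOf (D i).rho (D i).I) atTop (𝓝 (8 * x.1)) ∧
      Tendsto (fun i => bOf (D i).rho (D i).I) atTop (𝓝 (48 * x.2)) := by
  have h1 : Tendsto (fun i => 8 * ((D i).v2 / (m i : ℝ) ^ 2)) atTop (𝓝 (8 * x.1)) :=
    ((continuous_fst.tendsto x).comp hx).const_mul 8
  have h2 : Tendsto (fun i => 48 * ((D i).v3 / (m i : ℝ) ^ 3)) atTop (𝓝 (48 * x.2)) :=
    ((continuous_snd.tendsto x).comp hx).const_mul 48
  have key : ∀ η : ℝ, 0 < η → ∀ᶠ i in atTop,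
      |8 * ((D i).v2 / (m i : ℝ) ^ 2) - aOf (D i).rho (D i).I| ≤ η ∧
      |48 * ((D i).v3 / (m i : ℝ) ^ 3) - bOf (D i).rho (D i).I| ≤ η := by
    intro η hη
    obtain ⟨n0, hn0⟩ := top η hη
    filter_upwards [hm.eventually_ge_atTop n0] with i hi
    exact hn0 (m i) hi (D i)
  have h3 : Tendsto (fun i => 8 * ((D i).v2 / (m i : ℝ) ^ 2) - aOf (D i).rho (D i).I) atTop
      (𝓝 0) := by
    rw [Metric.tendsto_nhds]
    intro ε hε
    filter_upwards [key (ε / 2) (by positivity)] with i hi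
    rw [Real.dist_eq, sub_zero]
    linarith [hi.1]
  have h4 : Tendsto (fun i => 48 * ((D i).v3 / (m i : ℝ) ^ 3) - bOf (D i).rho (D i).I) atTop
      (𝓝 0) := by
    rw [Metric.tendsto_nhds]
    intro ε hε
    filter_upwards [key (ε / 2) (by positivity)] with i hi
    rw [Real.dist_eq, sub_zero]
    linarith [hi.2]
  constructor
  · have := h1.sub h3
    simpa using this
  · have := h2.sub h4
    simpa using this

/-- Limit points satisfy the inequalities of the extremal problem. -/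
theorem limit_ineq (x : ℝ × ℝ) (hx : x ∈ fishLimits) :
    |48 * x.2| ≤ 2 ∧ 8 * x.1 ≤ 1 ∧ -(1 / 2) ≤ 8 * x.1 ∧
      (9 / 25 < 8 * x.1 → |48 * x.2| ≤ 3 * (8 * x.1) - 1 + √(1 - 8 * x.1) ^ 3) ∧
      (1 / 2 ≤ 8 * x.1 → √(2 * (8 * x.1) - 1) * (1 + 8 * x.1) ≤ |48 * x.2|) ∧
      (8 * x.1 < 1 - √2 → |48 * x.2| ≤ -(3 / 2) * (8 * x.1) * √(1 + 2 * (8 * x.1))) := by
  obtain ⟨m, D, hm, hD⟩ := hx
  obtain ⟨ha, hb⟩ := FFinAux.forms_tendsto hm hD
  have hsys : ∀ᶠ i in atTop, IsSys (D i).rho (D i).I := by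
    filter_upwards [hm.eventually_gt_atTop 0] with i hi
    exact isSys_diagram (D i) hi
  have hbabs := hb.abs
  refine ⟨?_, ?_, ?_, ?_, ?_, ?_⟩
  · exact le_of_tendsto hbabs (hsys.mono fun i hi => hi.ext0.1)
  · exact le_of_tendsto ha (hsys.mono fun i hi => hi.ext0.2.1)
  · exact ge_of_tendsto ha (hsys.mono fun i hi => hi.ext0.2.2)
  · intro h
    have h1 : Tendsto (fun i => 3 * aOf (D i).rho (D i).I - 1 +
        √(1 - aOf (D i).rho (D i).I) ^ 3) atTop (𝓝 (3 * (8 * x.1) - 1 + √(1 - 8 * x.1) ^ 3)) := by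
      have hc : Continuous fun a : ℝ => 3 * a - 1 + √(1 - a) ^ 3 := by fun_prop
      exact (hc.tendsto _).comp ha
    refine le_of_tendsto_of_tendsto hbabs h1 ?_
    filter_upwards [hsys, ha.eventually (lt_mem_nhds h)] with i hi hi2
    exact hi.up hi2.le
  · intro _
    have h1 : Tendsto (fun i => √(2 * aOf (D i).rho (D i).I - 1) * (1 + aOf (D i).rho (D i).I))
        atTop (𝓝 (√(2 * (8 * x.1) - 1) * (1 + 8 * x.1))) := by
      have hc : Continuous fun a : ℝ => √(2 * a - 1) * (1 + a) := by fun_prop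
      exact (hc.tendsto _).comp ha
    refine le_of_tendsto_of_tendsto h1 hbabs ?_
    filter_upwards [hsys] with i hi
    rcases le_or_gt (1 / 2) (aOf (D i).rho (D i).I) with h | h
    · exact hi.tail h
    · rw [Real.sqrt_eq_zero_of_nonpos (by linarith), zero_mul]
      exact abs_nonneg _
  · intro h
    have h1 : Tendsto (fun i => -(3 / 2) * aOf (D i).rho (D i).I *
        √(1 + 2 * aOf (D i).rho (D i).I)) atTop
        (𝓝 (-(3 / 2) * (8 * x.1) * √(1 + 2 * (8 * x.1)))) := by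
      have hc : Continuous fun a : ℝ => -(3 / 2) * a * √(1 + 2 * a) := by fun_prop
      exact (hc.tendsto _).comp ha
    refine le_of_tendsto_of_tendsto hbabs h1 ?_
    filter_upwards [hsys, ha.eventually (gt_mem_nhds h)] with i hi hi2
    exact hi.left hi2.le

theorem FFinAux.pt (x : ℝ × ℝ) : ((8 * x.1) / 8, (48 * x.2) / 48) = x := by
  ext <;> simp

theorem fish_ends :
    closure fishSet = fishSet ∪ fishLimits ∧
    (∀ x ∈ fishLimits, |48 * x.2| ≤ 2) ∧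
    (∀ x : ℝ × ℝ, 9 / 25 < 8 * x.1 → (x ∈ fishLimits ↔
      8 * x.1 ≤ 1 ∧ |48 * x.2| ≤ 3 * (8 * x.1) - 1 + √(1 - 8 * x.1) ^ 3 ∧
        (1 / 2 ≤ 8 * x.1 → √(2 * (8 * x.1) - 1) * (1 + 8 * x.1) ≤ |48 * x.2|))) ∧
    (∀ x : ℝ × ℝ, 8 * x.1 < 1 - √2 → (x ∈ fishLimits ↔
      -(1 / 2) ≤ 8 * x.1 ∧ |48 * x.2| ≤ -(3 / 2) * (8 * x.1) * √(1 + 2 * (8 * x.1)))) ∧
    (∀ ε : ℝ, 0 < ε → ∃ x ∈ fishLimits, 9 / 25 - ε < 8 * x.1 ∧ 8 * x.1 < 9 / 25 ∧
      3 * (8 * x.1) - 1 + √(1 - 8 * x.1) ^ 3 < 48 * x.2) := by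
  refine ⟨closure_fishSet, fun x hx => (limit_ineq x hx).1, ?_, ?_, ?_⟩
  · intro x h
    constructor
    · intro hx
      obtain ⟨-, h1, -, h2, h3, -⟩ := limit_ineq x hx
      exact ⟨h1, h2 h, h3⟩
    · rintro ⟨h1, h2, h3⟩
      have := tail_fill (8 * x.1) (48 * x.2) h.le h1 h2 h3
      rwa [FFinAux.pt] at this
  · intro x h
    constructor
    · intro hx
      obtain ⟨-, -, h1, -, -, h2⟩ := limit_ineq x hx
      exact ⟨h1, h2 h⟩
    · rintro ⟨h1, h2⟩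
      have := left_fill (8 * x.1) (48 * x.2) h.le h1 h2
      rwa [FFinAux.pt] at this
  · intro ε hε
    obtain ⟨a, b, h1, h2, h3, h4⟩ := beyond ε hε
    refine ⟨_, h4, ?_⟩
    have e1 : 8 * (a / 8) = a := by ring
    have e2 : 48 * (b / 48) = b := by ring
    simp only [e1, e2]
    exact ⟨h1, h2, h3⟩

end Pool.H3F
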