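import Pool.Agent.H3F.INF2

/-! INF3: the points of the three families. -/

namespace Pool.H3F

open Finset

theorem v_point (y H : ℝ) (hy : 0 ≤ y) (hH : 0 ≤ H) (h : y + H ≤ 1) :
    (((1 - y) ^ 2 - H ^ 2 - y * H) / 8,
      (2 * (1 - y) ^ 3 - 3 * (1 - y) * (H ^ 2 + y * H) + H ^ 3 + (9 / 4) * y * H ^ 2 +
        (3 / 2) * y ^ 2 * H) / 48) ∈ fishLimits := by
  have key := four_point (1 - y - H) y (H / 2) (H / 2) (by linarith) hy (by positivity)
    (by positivity) (by ring)
  have ea : aOf ![1 - y - H, -y, H / 2, H / 2] fourE = (1 - y) ^ 2 - H ^ 2 - y * H := by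
    simp [aOf, fourE, Fin.sum_univ_four]
    ring
  have eb : bOf ![1 - y - H, -y, H / 2, H / 2] fourE =
      2 * (1 - y) ^ 3 - 3 * (1 - y) * (H ^ 2 + y * H) + H ^ 3 + (9 / 4) * y * H ^ 2 +
        (3 / 2) * y ^ 2 * H := by
    simp [bOf, fourE, phi, Fin.sum_univ_four]
    ring
  rw [ea, eb] at key
  exact key

/-- Interlacement matrix of the second family. -/
def inf3E : Fin 3 → Fin 3 → ℝ := ![![0, 1, 0], ![1, 0, 0], ![0, 0, 1]]

theorem w_point (p x y : ℝ) (hp : 0 ≤ p) (hx : 0 ≤ x) (hy : 0 ≤ y) (h : p + x + y = 1) :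
    ((p ^ 2 - 2 * x * y) / 8, (2 * p ^ 3 + 3 * x * y ^ 2 - 3 * x ^ 2 * y) / 48) ∈
      fishLimits := by
  obtain ⟨C, hC⟩ := exists_left 2 2 1 (by norm_num) (by decide) (by norm_num) (by decide)
  have key := limit_of_base (leftTy 2 2 1) inf3E (by
      intro i j
      fin_cases i <;> fin_cases j <;> simp [inf3E]) (by
      intro i j
      fin_cases i <;> fin_cases j <;> simp [inf3E]) (by
      intro i
      fin_cases i
      · exact ⟨0, rfl⟩
      · exact ⟨2, rfl⟩
      · exact ⟨4, rfl⟩) C (by
      intro c d hcd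
      rw [hC c d hcd]
      fin_cases c <;> fin_cases d <;> simp [leftTy, leftE, inf3E] at hcd ⊢)
    ![1, -1, 1] (by
      intro i
      fin_cases i <;> simp) ![x, y, p] (by
      intro i
      fin_cases i <;> simp <;> assumption) (by
      simp [Fin.sum_univ_three]
      linarith)
  have ea : aOf (fun i => ![1, -1, 1] i * ![x, y, p] i) inf3E = p ^ 2 - 2 * x * y := by
    simp [aOf, inf3E, Fin.sum_univ_three]
    ring
  have eb : bOf (fun i => ![1, -1, 1] i * ![x, y, p] i) inf3E =
      2 * p ^ 3 + 3 * x * y ^ 2 - 3 * x ^ 2 * y := by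
    simp [bOf, inf3E, phi, Fin.sum_univ_three]
    ring
  rw [ea, eb] at key
  exact key

/-- Types of the crossings of the base code of the third family. -/
def inf3Ty (k n : ℕ) (c : Fin n) : Fin (k + 2) :=
  if c.val < 2 then 0 else if h : c.val < k + 2 then ⟨c.val - 1, by omega⟩ else
    ⟨k + 1, by omega⟩

/-- Interlacement matrix of the third family. -/
def inf3C (k : ℕ) (i j : Fin (k + 2)) : ℝ :=
  if i.val = 0 then (if j.val = 0 then 0 else 1) else if j.val = 0 then 1 else
    if i.val = j.val ∧ i.val ≤ k then 1 else 0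

/-- Signs of the third family. -/
def inf3e (k : ℕ) (i : Fin (k + 2)) : ℝ := if i.val = 0 then 1 else -1

/-- Weights of the third family. -/
noncomputable def inf3x (k : ℕ) (x t u : ℝ) (i : Fin (k + 2)) : ℝ :=
  if i.val = 0 then x else if i.val ≤ k then t / k else u

theorem inf3_sum (k : ℕ) (f : Fin (k + 2) → ℝ) :
    ∑ i, f i = f 0 + ((∑ i : Fin k, f i.castSucc.succ) + f (Fin.last k).succ) := by
  rw [Fin.sum_univ_succ, Fin.sum_univ_castSucc]

section

variable (k : ℕ) (x t u : ℝ) (i j : Fin k)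

theorem inf3C_00 : inf3C k 0 0 = 0 := by simp [inf3C]
theorem inf3C_0s (j : Fin (k + 1)) : inf3C k 0 j.succ = 1 := by simp [inf3C]
theorem inf3C_s0 (j : Fin (k + 1)) : inf3C k j.succ 0 = 1 := by simp [inf3C]
theorem inf3C_ll : inf3C k (Fin.last k).succ (Fin.last k).succ = 0 := by simp [inf3C]
theorem inf3C_li : inf3C k (Fin.last k).succ i.castSucc.succ = 0 := by
  have := i.isLt
  simp [inf3C]
theorem inf3C_il : inf3C k i.castSucc.succ (Fin.last k).succ = 0 := by
  have := i.isLt
  have h : i.val ≠ k := by omega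
  simp [inf3C, h]
theorem inf3C_ij : inf3C k i.castSucc.succ j.castSucc.succ = if i = j then 1 else 0 := by
  have := i.isLt
  have := j.isLt
  have h : i.val + 1 ≤ k := by omega
  simp [inf3C, Fin.ext_iff, h]

/-- Signed weights of the third family. -/
theorem inf3r_0 : inf3e k 0 * inf3x k x t u 0 = x := by simp [inf3e, inf3x]
theorem inf3r_l : inf3e k (Fin.last k).succ * inf3x k x t u (Fin.last k).succ = -u := by
  simp [inf3e, inf3x]
theorem inf3r_i : inf3e k i.castSucc.succ * inf3x k x t u i.castSucc.succ = -(t / k) := by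
  have := i.isLt
  have h : i.val + 1 ≤ k := by omega
  simp [inf3e, inf3x, h]

end

theorem inf3_a (k : ℕ) (hk : 1 ≤ k) (x t u : ℝ) :
    aOf (fun i => inf3e k i * inf3x k x t u i) (inf3C k) = -2 * x * (t + u) + t ^ 2 / k := by
  have hk0 : (k : ℝ) ≠ 0 := by positivity
  unfold aOf
  simp only [inf3_sum, inf3C_00, inf3C_0s, inf3C_s0, inf3C_ll, inf3C_li, inf3C_il, inf3C_ij,
    inf3r_0, inf3r_l, inf3r_i, mul_ite, mul_one, mul_zero, Finset.sum_ite_eq, Finset.mem_univ,
    if_true, Finset.sum_const, Finset.card_univ, Fintype.card_fin, nsmul_eq_mul, add_zero,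
    zero_add, Finset.sum_add_distrib]
  field_simp
  ring

theorem inf3_b (k : ℕ) (hk : 1 ≤ k) (x t u : ℝ) :
    bOf (fun i => inf3e k i * inf3x k x t u i) (inf3C k) =
      3 * x * (t + u) ^ 2 - 3 * x ^ 2 * (t + u) + 3 * x * t ^ 2 / k - 2 * t ^ 3 / k ^ 2 := by
  have hk0 : (k : ℝ) ≠ 0 := by positivity
  unfold bOf
  simp only [phi, inf3_sum, inf3C_00, inf3C_0s, inf3C_s0, inf3C_ll, inf3C_li, inf3C_il, inf3C_ij,
    inf3r_0, inf3r_l, inf3r_i, mul_ite, ite_mul, mul_one, one_mul, mul_zero, zero_mul, add_zero,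
    zero_add, mul_add, mul_sub, Finset.sum_add_distrib, Finset.sum_sub_distrib,
    Finset.sum_ite_eq, Finset.mem_univ, if_true, Finset.sum_const, Finset.card_univ,
    Fintype.card_fin, nsmul_eq_mul]
  field_simp
  ring

/-- `x`: antiparallel twist; `t`: `k` parallel twists of negative sign, all of them interlaced
with `x`; `u`: antiparallel twist of negative sign, interlaced with `x`. -/
theorem c_point (k : ℕ) (hk : 1 ≤ k) (x t u : ℝ) (hx : 0 ≤ x) (ht : 0 ≤ t) (hu : 0 ≤ u)
    (h : x + t + u = 1) :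
    ((-2 * x * (t + u) + t ^ 2 / k) / 8,
      (3 * x * (t + u) ^ 2 - 3 * x ^ 2 * (t + u) + 3 * x * t ^ 2 / k - 2 * t ^ 3 / k ^ 2) / 48) ∈
      fishLimits := by
  have hk0 : (k : ℝ) ≠ 0 := by positivity
  obtain ⟨C, hC⟩ := exists_left 2 (2 * (k / 2 + 1)) 0 (by norm_num) (by decide) (by positivity)
    ⟨k / 2 + 1, by ring⟩
  have key := limit_of_base (inf3Ty k (2 + 2 * (k / 2 + 1) + 0)) (inf3C k) (by
      intro i j
      unfold inf3C
      split_ifs <;> simp) (by
      intro i j
      unfold inf3C
      split_ifs <;> first | rfl | omega) (by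
      intro i
      have hi := i.isLt
      by_cases h0 : i.val = 0
      · exact ⟨⟨0, by omega⟩, by ext; simp [inf3Ty, h0]⟩
      · refine ⟨⟨i.val + 1, by omega⟩, ?_⟩
        ext
        unfold inf3Ty
        simp only
        split_ifs with h1 h2
        · omega
        · simp
        · simp; omega) C (by
      intro c d hcd
      have hcd' : c.val ≠ d.val := fun h => hcd (Fin.ext h)
      have hc := c.isLt
      have hd := d.isLt
      rw [hC c d hcd]
      have hE : leftE (leftTy 2 (2 * (k / 2 + 1)) 0 c) (leftTy 2 (2 * (k / 2 + 1)) 0 d) = 1 ↔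
          ((c.val < 2 ∧ 2 ≤ d.val) ∨ (d.val < 2 ∧ 2 ≤ c.val)) := by
        unfold leftTy
        split_ifs with h1 h2 h3 h4 h5 h6 h7 <;> simp [leftE] <;> omega
      rw [hE]
      have hv : ∀ c : Fin (2 + 2 * (k / 2 + 1) + 0), (c.val < 2 ∧ (inf3Ty k _ c).val = 0) ∨
          (2 ≤ c.val ∧ c.val < k + 2 ∧ (inf3Ty k _ c).val + 1 = c.val) ∨
          (k + 2 ≤ c.val ∧ (inf3Ty k _ c).val = k + 1) := by
        intro c
        by_cases h1 : c.val < 2
        · left
          refine ⟨h1, ?_⟩
          unfold inf3Ty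
          rw [if_pos h1]
          rfl
        · right
          by_cases h2 : c.val < k + 2
          · left
            refine ⟨by omega, h2, ?_⟩
            unfold inf3Ty
            rw [if_neg h1, dif_pos h2]
            simp only
            omega
          · right
            refine ⟨by omega, ?_⟩
            unfold inf3Ty
            rw [if_neg h1, dif_neg h2]
      have hvc := hv c
      have hvd := hv d
      unfold inf3C
      generalize (inf3Ty k _ c).val = p at hvc ⊢
      generalize (inf3Ty k _ d).val = q at hvd ⊢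
      split_ifs <;> simp <;> omega)
    (inf3e k) (by
      intro i
      unfold inf3e
      split_ifs <;> simp) (inf3x k x t u) (by
      intro i
      unfold inf3x
      split_ifs
      · exact hx
      · positivity
      · exact hu) (by
      rw [inf3_sum]
      have h1 : ∀ i : Fin k, inf3x k x t u i.castSucc.succ = t / k := by
        intro i
        have := i.isLt
        have h : i.val + 1 ≤ k := by omega
        simp [inf3x, h]
      have h2 : inf3x k x t u (Fin.last k).succ = u := by simp [inf3x]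
      have h3 : inf3x k x t u 0 = x := by simp [inf3x]
      rw [h2, h3, Finset.sum_congr rfl (fun i _ => h1 i)]
      simp only [Finset.sum_const, Finset.card_univ, Fintype.card_fin, nsmul_eq_mul]
      field_simp
      linarith)
  rw [inf3_a k hk, inf3_b k hk] at key
  exact key

end Pool.H3F
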