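import Pool.Agent.H3F.FIL1
import Pool.Agent.H3F.INF3
import Pool.Agent.H3F.FEDefs

/-! FIL2: the region below the first two families is filled. -/

namespace Pool.H3F

namespace FIL2Aux

/-- nonnegative root of `H ^ 2 + r H = (1 - r) ^ 2 - a` -/
noncomputable def hh (a r : ℝ) : ℝ := (-r + √(r ^ 2 + 4 * ((1 - r) ^ 2 - a))) / 2

/-- value on the first family -/
noncomputable def bV (a r : ℝ) : ℝ :=
  2 * (1 - r) ^ 3 - 3 * (1 - r) * (hh a r ^ 2 + r * hh a r) + hh a r ^ 3 +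
    (9 / 4) * r * hh a r ^ 2 + (3 / 2) * r ^ 2 * hh a r

theorem hh_cont (a : ℝ) : Continuous (hh a) := by
  unfold hh
  have h1 : Continuous (fun r : ℝ => √(r ^ 2 + 4 * ((1 - r) ^ 2 - a))) := by
    apply Real.continuous_sqrt.comp
    fun_prop
  fun_prop

theorem bV_cont (a : ℝ) : Continuous (bV a) := by
  have h := hh_cont a
  unfold bV
  fun_prop

theorem hh_eq (a r : ℝ) (h : 0 ≤ r ^ 2 + 4 * ((1 - r) ^ 2 - a)) :
    hh a r ^ 2 + r * hh a r = (1 - r) ^ 2 - a := by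
  have hs := Real.sq_sqrt h
  unfold hh
  nlinarith

theorem v_mem (a r : ℝ) (ha : 0 ≤ a) (hr : 0 ≤ r) (hr1 : r ≤ 1) (h : a ≤ (1 - r) ^ 2) :
    (a / 8, bV a r / 48) ∈ fishLimits := by
  have hD : 0 ≤ r ^ 2 + 4 * ((1 - r) ^ 2 - a) := by nlinarith [sq_nonneg r]
  have he := hh_eq a r hD
  have h0 : 0 ≤ hh a r := by
    have : r ≤ √(r ^ 2 + 4 * ((1 - r) ^ 2 - a)) := by
      apply Real.le_sqrt_of_sq_le
      linarith
    unfold hh
    linarith
  have h1 : r + hh a r ≤ 1 := by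
    by_contra hc
    push Not at hc
    have h2 : 1 - r < hh a r := by linarith
    nlinarith [mul_nonneg hr (sub_nonneg.2 hr1)]
  have key := v_point r (hh a r) hr h0 h1
  have e1 : (1 - r) ^ 2 - hh a r ^ 2 - r * hh a r = a := by linarith
  rw [e1] at key
  exact key

end FIL2Aux

theorem fill_V (a b c : ℝ) (h : FamV a c) (hb0 : 0 ≤ b) (hb : b ≤ c) (ha1 : a ≤ 1)
    (hb2 : 1 / 2 ≤ a → √(2 * a - 1) * (1 + a) ≤ b) : (a / 8, b / 48) ∈ fishLimits := by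
  obtain ⟨y, H, hy, hH, hyH, ha, ea, ec⟩ := h
  by_cases hc : b ≤ 3 * a - 1 + √(1 - a) ^ 3
  · apply tail_fill0 a b ha ha1
    · rwa [abs_of_nonneg hb0]
    · rwa [abs_of_nonneg hb0]
  push Not at hc
  have hb0' : FIL2Aux.bV a 0 = 3 * a - 1 + √(1 - a) ^ 3 := by
    have e : FIL2Aux.hh a 0 = √(1 - a) := by
      unfold FIL2Aux.hh
      have e1 : (0 : ℝ) ^ 2 + 4 * ((1 - 0) ^ 2 - a) = 2 ^ 2 * (1 - a) := by ring
      rw [e1, Real.sqrt_mul (by norm_num), Real.sqrt_sq (by norm_num)]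
      ring
    have hs := Real.sq_sqrt (show 0 ≤ 1 - a by linarith)
    unfold FIL2Aux.bV
    rw [e, hs]
    ring
  have hby : FIL2Aux.bV a y = c := by
    have e : FIL2Aux.hh a y = H := by
      unfold FIL2Aux.hh
      have e1 : y ^ 2 + 4 * ((1 - y) ^ 2 - a) = (2 * H + y) ^ 2 := by
        rw [ea]
        ring
      rw [e1, Real.sqrt_sq (by linarith)]
      ring
    unfold FIL2Aux.bV
    rw [e, ec]
  have hmem : b ∈ Set.Icc (FIL2Aux.bV a 0) (FIL2Aux.bV a y) := by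
    rw [hb0', hby]
    exact ⟨hc.le, hb⟩
  obtain ⟨r, hr, hbr⟩ := intermediate_value_Icc hy (FIL2Aux.bV_cont a).continuousOn hmem
  have key := FIL2Aux.v_mem a r ha hr.1 (by linarith [hr.2]) (by
    have h1 : a ≤ (1 - y) ^ 2 := by rw [ea]; nlinarith [mul_nonneg hy hH]
    have h2 : 0 ≤ 1 - y := by linarith
    have h3 : 1 - y ≤ 1 - r := by linarith [hr.2]
    exact h1.trans (pow_le_pow_left₀ h2 h3 2))
  rw [hbr] at key
  exact key

theorem fill_W (a b c : ℝ) (h : FamW a c) (hb0 : 0 ≤ b) (hb : b ≤ c) (ha1 : a ≤ 1)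
    (hb2 : 1 / 2 ≤ a → √(2 * a - 1) * (1 + a) ≤ b) : (a / 8, b / 48) ∈ fishLimits := by
  obtain ⟨p, x, y, hp, hx, hy, hs, ha, ea, ec⟩ := h
  have hsa := Real.sq_sqrt ha
  have hsa0 := Real.sqrt_nonneg a
  set s := √a with hs'
  by_cases hc : b ≤ 2 * s ^ 3
  · apply tail_fill0 a b ha ha1
    · rw [abs_of_nonneg hb0]
      exact hc.trans (torus_le_up a ha ha1)
    · rwa [abs_of_nonneg hb0]
  push Not at hc
  have hp1 : p ≤ 1 := by linarith
  have hsp : s ≤ p := by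
    by_contra hcon
    push Not at hcon
    nlinarith [mul_nonneg hx hy]
  let D : ℝ → ℝ := fun q => (1 - q) ^ 2 - 2 * (q ^ 2 - a)
  let B : ℝ → ℝ := fun q => 2 * q ^ 3 + (3 / 2) * (q ^ 2 - a) * √(D q)
  have hBc : Continuous B := by
    have h1 : Continuous (fun q : ℝ => √(D q)) := by
      apply Real.continuous_sqrt.comp
      fun_prop
    show Continuous (fun q : ℝ => 2 * q ^ 3 + (3 / 2) * (q ^ 2 - a) * √(D q))
    fun_prop
  have hBs : B s = 2 * s ^ 3 := by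
    show 2 * s ^ 3 + (3 / 2) * (s ^ 2 - a) * √(D s) = 2 * s ^ 3
    rw [hsa]
    ring
  have hBp : c ≤ B p := by
    have e1 : D p = |x - y| ^ 2 := by
      rw [sq_abs]
      show (1 - p) ^ 2 - 2 * (p ^ 2 - a) = (x - y) ^ 2
      rw [ea, ← hs]
      ring
    have e2 : B p = 2 * p ^ 3 + 3 * (x * y) * |x - y| := by
      show 2 * p ^ 3 + (3 / 2) * (p ^ 2 - a) * √(D p) = _
      rw [e1, Real.sqrt_sq (abs_nonneg _), ea]
      ring
    rw [e2, ec]
    have h1 : -(x - y) ≤ |x - y| := neg_le_abs _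
    have h2 := mul_le_mul_of_nonneg_left h1 (mul_nonneg hx hy)
    have h3 : x * y * -(x - y) = x * y ^ 2 - x ^ 2 * y := by ring
    linarith
  have hmem : b ∈ Set.Icc (B s) (B p) := ⟨by rw [hBs]; exact hc.le, hb.trans hBp⟩
  obtain ⟨q, hq, hbq⟩ := intermediate_value_Icc hsp hBc.continuousOn hmem
  have hq0 : 0 ≤ q := hsa0.trans hq.1
  have hqa : a ≤ q ^ 2 := by rw [← hsa]; exact pow_le_pow_left₀ hsa0 hq.1 2
  have hD : 0 ≤ D q := by
    have h1 : 0 ≤ D p := by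
      show 0 ≤ (1 - p) ^ 2 - 2 * (p ^ 2 - a)
      have h3 : (1 - p) ^ 2 - 2 * (p ^ 2 - a) = (x - y) ^ 2 := by
        rw [ea, ← hs]
        ring
      rw [h3]
      exact sq_nonneg _
    have h2 : D p ≤ D q := by
      show (1 - p) ^ 2 - 2 * (p ^ 2 - a) ≤ (1 - q) ^ 2 - 2 * (q ^ 2 - a)
      have h3 : (1 - p) ^ 2 ≤ (1 - q) ^ 2 :=
        pow_le_pow_left₀ (by linarith) (by linarith [hq.2]) 2
      have h4 : q ^ 2 ≤ p ^ 2 := pow_le_pow_left₀ hq0 hq.2 2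
      linarith
    linarith
  have hr := Real.sq_sqrt hD
  have hr0 := Real.sqrt_nonneg (D q)
  set R := √(D q) with hR
  have hR2 : R ^ 2 = (1 - q) ^ 2 - 2 * (q ^ 2 - a) := hr
  have hR1 : R ≤ 1 - q := by
    rw [hR]
    refine Real.sqrt_le_iff.2 ⟨by linarith [hq.2], ?_⟩
    show (1 - q) ^ 2 - 2 * (q ^ 2 - a) ≤ (1 - q) ^ 2
    linarith
  have key := w_point q ((1 - q - R) / 2) ((1 - q + R) / 2) hq0 (by linarith) (by linarith [hq.2])
    (by ring)
  have exy : (1 - q - R) / 2 * ((1 - q + R) / 2) = (q ^ 2 - a) / 2 := by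
    have : (1 - q - R) / 2 * ((1 - q + R) / 2) = ((1 - q) ^ 2 - R ^ 2) / 4 := by ring
    rw [this, hR2]
    ring
  have e1 : q ^ 2 - 2 * ((1 - q - R) / 2) * ((1 - q + R) / 2) = a := by
    have : 2 * ((1 - q - R) / 2) * ((1 - q + R) / 2) =
      2 * ((1 - q - R) / 2 * ((1 - q + R) / 2)) := by ring
    rw [this, exy]
    ring
  have e2 : 2 * q ^ 3 + 3 * ((1 - q - R) / 2) * ((1 - q + R) / 2) ^ 2 -
      3 * ((1 - q - R) / 2) ^ 2 * ((1 - q + R) / 2) = b := by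
    have h1 : 3 * ((1 - q - R) / 2) * ((1 - q + R) / 2) ^ 2 -
      3 * ((1 - q - R) / 2) ^ 2 * ((1 - q + R) / 2) =
      3 * ((1 - q - R) / 2 * ((1 - q + R) / 2)) * R := by ring
    have h2 : 2 * q ^ 3 + (3 / 2) * (q ^ 2 - a) * R = b := hbq
    rw [exy] at h1
    linarith
  rw [e1, e2] at key
  exact key

end Pool.H3F
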