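import Pool.Agent.H3F.FIL1
import Pool.Agent.H3F.INF3
import Pool.Agent.H3F.FEDefs

/-! FIL3: the region below the third family is filled. -/

namespace Pool.H3F

namespace FIL3Aux

theorem c_aux (k : ℕ) (hk : 1 ≤ k) (a y b : ℝ) (t0 : ℝ) (ht0 : 0 ≤ t0) (ht0y : t0 ≤ y)
    (hy1 : 1 / 2 ≤ y)
    (ea : a = -2 * (1 - y) * y + y ^ 2 / k)
    (hb : b ≤ 3 * (1 - y) * y ^ 2 - 3 * (1 - y) ^ 2 * y + 3 * (1 - y) * y ^ 2 / k -
      2 * y ^ 3 / k ^ 2)
    (hka : ∀ t, t0 ≤ t → a ≤ t ^ 2 / k)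
    (hb0 : 3 * (1 - (1 + √(1 + 2 * a - 2 * t0 ^ 2 / k)) / 2) *
      ((1 + √(1 + 2 * a - 2 * t0 ^ 2 / k)) / 2) ^ 2 -
      3 * (1 - (1 + √(1 + 2 * a - 2 * t0 ^ 2 / k)) / 2) ^ 2 *
      ((1 + √(1 + 2 * a - 2 * t0 ^ 2 / k)) / 2) +
      3 * (1 - (1 + √(1 + 2 * a - 2 * t0 ^ 2 / k)) / 2) * t0 ^ 2 / k -
      2 * t0 ^ 3 / k ^ 2 ≤ b) : (a / 8, b / 48) ∈ fishLimits := by
  have hk0 : (0 : ℝ) < k := by exact_mod_cast hk
  let Y : ℝ → ℝ := fun t => (1 + √(1 + 2 * a - 2 * t ^ 2 / k)) / 2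
  let B : ℝ → ℝ := fun t => 3 * (1 - Y t) * Y t ^ 2 - 3 * (1 - Y t) ^ 2 * Y t +
      3 * (1 - Y t) * t ^ 2 / k - 2 * t ^ 3 / k ^ 2
  have hYc : Continuous Y := by
    have h1 : Continuous (fun t : ℝ => √(1 + 2 * a - 2 * t ^ 2 / k)) := by
      apply Real.continuous_sqrt.comp
      fun_prop
    show Continuous (fun t : ℝ => (1 + √(1 + 2 * a - 2 * t ^ 2 / k)) / 2)
    fun_prop
  have hBc : Continuous B := by
    show Continuous (fun t : ℝ => 3 * (1 - Y t) * Y t ^ 2 - 3 * (1 - Y t) ^ 2 * Y t +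
      3 * (1 - Y t) * t ^ 2 / k - 2 * t ^ 3 / k ^ 2)
    fun_prop
  have hYy : Y y = y := by
    have e1 : 1 + 2 * a - 2 * y ^ 2 / k = (2 * y - 1) ^ 2 := by
      rw [ea]
      ring
    show (1 + √(1 + 2 * a - 2 * y ^ 2 / k)) / 2 = y
    rw [e1, Real.sqrt_sq (by linarith)]
    ring
  have hBy : b ≤ B y := by
    show b ≤ 3 * (1 - Y y) * Y y ^ 2 - 3 * (1 - Y y) ^ 2 * Y y +
      3 * (1 - Y y) * y ^ 2 / k - 2 * y ^ 3 / k ^ 2
    rw [hYy]
    exact hb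
  have hmem : b ∈ Set.Icc (B t0) (B y) := ⟨hb0, hBy⟩
  obtain ⟨t, ht, hbt⟩ := intermediate_value_Icc ht0y hBc.continuousOn hmem
  have ht00 : 0 ≤ t := ht0.trans ht.1
  have hdiv : t ^ 2 / k ≤ y ^ 2 / k := by
    apply div_le_div_of_nonneg_right _ hk0.le
    exact pow_le_pow_left₀ ht00 ht.2 2
  have hD : (2 * y - 1) ^ 2 ≤ 1 + 2 * a - 2 * t ^ 2 / k := by
    have h1 : 2 * t ^ 2 / k = 2 * (t ^ 2 / k) := by ring
    rw [h1, ea]
    nlinarith
  have hD0 : 0 ≤ 1 + 2 * a - 2 * t ^ 2 / k := le_trans (sq_nonneg _) hD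
  have hD1 : 1 + 2 * a - 2 * t ^ 2 / k ≤ 1 := by
    have h1 : 2 * t ^ 2 / k = 2 * (t ^ 2 / k) := by ring
    have h2 := hka t ht.1
    rw [h1]
    linarith
  have hr := Real.sq_sqrt hD0
  have hr0 := Real.sqrt_nonneg (1 + 2 * a - 2 * t ^ 2 / k)
  have hr1 : √(1 + 2 * a - 2 * t ^ 2 / k) ≤ 1 := by
    rw [Real.sqrt_le_one]
    exact hD1
  have hr2 : 2 * y - 1 ≤ √(1 + 2 * a - 2 * t ^ 2 / k) := Real.le_sqrt_of_sq_le hD
  have hYt : Y t = (1 + √(1 + 2 * a - 2 * t ^ 2 / k)) / 2 := rfl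
  have hY1 : Y t ≤ 1 := by rw [hYt]; linarith
  have hY2 : y ≤ Y t := by rw [hYt]; linarith
  have key := c_point k hk (1 - Y t) t (Y t - t) (by linarith) ht00 (by linarith [ht.2]) (by ring)
  have e0 : t + (Y t - t) = Y t := by ring
  have e1 : -2 * (1 - Y t) * (t + (Y t - t)) + t ^ 2 / k = a := by
    rw [e0, hYt]
    have h3 : -2 * (1 - (1 + √(1 + 2 * a - 2 * t ^ 2 / k)) / 2) *
        ((1 + √(1 + 2 * a - 2 * t ^ 2 / k)) / 2) =
        (√(1 + 2 * a - 2 * t ^ 2 / k) ^ 2 - 1) / 2 := by ring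
    rw [h3, hr]
    ring
  rw [e1, e0] at key
  have e2 : 3 * (1 - Y t) * Y t ^ 2 - 3 * (1 - Y t) ^ 2 * Y t +
      3 * (1 - Y t) * t ^ 2 / k - 2 * t ^ 3 / k ^ 2 = b := hbt
  rw [e2] at key
  exact key

end FIL3Aux

theorem fill_C (a b c : ℝ) (h : FamC a c) (hb0 : 0 ≤ b) (hb : b ≤ c) :
    (a / 8, b / 48) ∈ fishLimits := by
  obtain ⟨κ, x, y, hκ, hx, hxy, hs, ea, ec⟩ := h
  have hxe : x = 1 - y := by linarith
  subst hxe
  have hy1 : 1 / 2 ≤ y := by linarith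
  have hy2 : y ≤ 1 := by linarith
  rcases hκ with hκ | ⟨k, hk, hκ⟩
  · subst hκ
    have ha : a = -2 * (1 - y) * y := by rw [ea]; ring
    have h1 : 1 + 2 * a = (2 * y - 1) ^ 2 := by rw [ha]; ring
    apply left_fill0 a b
    · rw [ha]
      nlinarith [mul_nonneg hx (show 0 ≤ y by linarith)]
    · nlinarith [sq_nonneg (2 * y - 1)]
    · rw [abs_of_nonneg hb0, h1, Real.sqrt_sq (by linarith)]
      refine hb.trans ?_
      rw [ec, ha]
      apply le_of_eq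
      ring
  · have hk0 : (0 : ℝ) < k := by exact_mod_cast hk
    have ea' : a = -2 * (1 - y) * y + y ^ 2 / k := by
      rw [ea, hκ]
      ring
    have hb' : b ≤ 3 * (1 - y) * y ^ 2 - 3 * (1 - y) ^ 2 * y + 3 * (1 - y) * y ^ 2 / k -
        2 * y ^ 3 / k ^ 2 := by
      refine hb.trans (le_of_eq ?_)
      rw [ec, hκ]
      ring
    rcases le_total a 0 with ha | ha
    · have ham : -(1 / 2) ≤ a := by
        have h1 : 0 ≤ y ^ 2 / k := by positivity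
        rw [ea']
        nlinarith [sq_nonneg (2 * y - 1)]
      by_cases hc : b ≤ -(3 / 2) * a * √(1 + 2 * a)
      · apply left_fill0 a b ha ham
        rwa [abs_of_nonneg hb0]
      push Not at hc
      refine FIL3Aux.c_aux k hk a y b 0 le_rfl (by linarith) hy1 ea' hb' ?_ ?_
      · intro t _
        exact ha.trans (by positivity)
      · have e0 : 1 + 2 * a - 2 * (0 : ℝ) ^ 2 / k = 1 + 2 * a := by ring
        rw [e0]
        have hr := Real.sq_sqrt (show 0 ≤ 1 + 2 * a by linarith)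
        have h3 : 3 * (1 - (1 + √(1 + 2 * a)) / 2) * ((1 + √(1 + 2 * a)) / 2) ^ 2 -
            3 * (1 - (1 + √(1 + 2 * a)) / 2) ^ 2 * ((1 + √(1 + 2 * a)) / 2) +
            3 * (1 - (1 + √(1 + 2 * a)) / 2) * (0 : ℝ) ^ 2 / k - 2 * (0 : ℝ) ^ 3 / k ^ 2 =
            3 / 4 * (1 - √(1 + 2 * a) ^ 2) * √(1 + 2 * a) := by ring
        rw [h3, hr]
        have h4 : 3 / 4 * (1 - (1 + 2 * a)) * √(1 + 2 * a) = -(3 / 2) * a * √(1 + 2 * a) := by
          ring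
        rw [h4]
        exact hc.le
    · have hka0 : 0 ≤ k * a := by positivity
      have hs2 := Real.sq_sqrt hka0
      have hs0 := Real.sqrt_nonneg (k * a)
      set t0 := √(k * a) with ht0
      have hkay : k * a ≤ y ^ 2 := by
        have h1 : a ≤ y ^ 2 / k := by
          rw [ea']
          nlinarith [mul_nonneg hx (show 0 ≤ y by linarith)]
        rw [le_div_iff₀ hk0] at h1
        linarith
      have ht0y : t0 ≤ y := by
        rw [ht0]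
        exact Real.sqrt_le_iff.2 ⟨by linarith, hkay⟩
      refine FIL3Aux.c_aux k hk a y b t0 hs0 ht0y hy1 ea' hb' ?_ ?_
      · intro t ht
        rw [le_div_iff₀ hk0]
        have : t0 ^ 2 ≤ t ^ 2 := pow_le_pow_left₀ hs0 ht 2
        linarith
      · have e0 : 1 + 2 * a - 2 * t0 ^ 2 / k = 1 := by
          rw [hs2]
          field_simp
          ring
        rw [e0, Real.sqrt_one]
        have h5 : 0 ≤ 2 * t0 ^ 3 / k ^ 2 := by positivity
        have h6 : 3 * (1 - (1 + (1 : ℝ)) / 2) * ((1 + 1) / 2) ^ 2 -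
            3 * (1 - (1 + 1) / 2) ^ 2 * ((1 + 1) / 2) +
            3 * (1 - (1 + 1) / 2) * t0 ^ 2 / k - 2 * t0 ^ 3 / k ^ 2 = -(2 * t0 ^ 3 / k ^ 2) := by
          ring
        rw [h6]
        linarith

end Pool.H3F
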