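import Pool.Agent.H3F.XEND
import Pool.Agent.H3F.FIL2
import Pool.Agent.H3F.FIL3
import Pool.Agent.H3F.CLOE
import Pool.Agent.H3F.FFin

/-! FFUL: the whole region. -/

namespace Pool.H3F

open Filter Topology

theorem limits_sub_region : fishLimits ⊆ fishRegion := by
  intro x hx
  obtain ⟨-, h1, h2, -, h3, -⟩ := limit_ineq x hx
  refine ⟨h2, h1, ?_, h3⟩
  obtain ⟨m, D, hm, hD⟩ := hx
  obtain ⟨ha, hb⟩ := FFinAux.forms_tendsto hm hD
  have hsys : ∀ᶠ i in atTop, IsSys (D i).rho (D i).I := by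
    filter_upwards [hm.eventually_gt_atTop 0] with i hi
    exact isSys_diagram (D i) hi
  have h4 : Tendsto (fun i => (aOf (D i).rho (D i).I, |bOf (D i).rho (D i).I|)) atTop
      (𝓝 (8 * x.1, |48 * x.2|)) := ha.prodMk_nhds hb.abs
  exact below_closed.mem_of_tendsto h4 (hsys.mono fun i hi => hi.below)

theorem FFUL_nonneg (a b : ℝ) (h1 : a ≤ 1) (h2 : Below a b) (hb : 0 ≤ b)
    (h3 : 1 / 2 ≤ a → √(2 * a - 1) * (1 + a) ≤ b) : (a / 8, b / 48) ∈ fishLimits := by
  obtain ⟨c, hc, hbc⟩ := h2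
  rcases hc with hc | hc | hc
  · exact fill_V a b c hc hb hbc h1 h3
  · exact fill_W a b c hc hb hbc h1 h3
  · exact fill_C a b c hc hb hbc

theorem region_sub_limits : fishRegion ⊆ fishLimits := by
  rintro ⟨u, v⟩ ⟨-, h1, h2, h3⟩
  simp only at h1 h2 h3
  have h4 := FFUL_nonneg (8 * u) |48 * v| h1 h2 (abs_nonneg _) h3
  have e1 : 8 * u / 8 = u := by ring
  rw [e1] at h4
  rcases le_total 0 (48 * v) with h | h
  · rw [abs_of_nonneg h] at h4
    have e2 : 48 * v / 48 = v := by ring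
    rwa [e2] at h4
  · rw [abs_of_nonpos h] at h4
    have h5 := fishLimits_mirror _ h4
    have e2 : -(-(48 * v) / 48) = v := by ring
    simp only [e2] at h5
    exact h5

theorem fish_full : fishLimits = fishRegion ∧ closure fishSet = fishSet ∪ fishRegion := by
  have h := limits_sub_region.antisymm region_sub_limits
  refine ⟨h, ?_⟩
  rw [← h]
  exact closure_fishSet

end Pool.H3F
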