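import Pool.Agent.H3F.Defs2

/-! Mirror images. -/

namespace Pool.H3F

open Finset

namespace FMirAux

variable {n : ℕ}

/-- The mirror image. -/
def mir (D : KnotDiagram n) : KnotDiagram n where
  ov := D.un
  un := D.ov
  bij := by
    have h : Sum.elim D.un D.ov = Sum.elim D.ov D.un ∘ (Equiv.sumComm (Fin n) (Fin n)) := by
      funext x
      rcases x with x | x <;> rfl
    rw [h]
    exact D.bij.comp (Equiv.bijective _)
  sgn := fun c => -D.sgn c
  sgn_pm := by
    intro c
    rcases D.sgn_pm c with h | h <;> rw [h] <;> simp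
  left := D.left
  right := D.right
  surj := D.surj
  corner := by
    intro c p q h
    apply D.corner c p q
    rcases h with ⟨h1, h2, h3⟩ | ⟨h1, h2, h3⟩
    · exact Or.inr ⟨by omega, h2, h3⟩
    · exact Or.inl ⟨by omega, h2, h3⟩

variable (D : KnotDiagram n)

theorem fst (c : Fin n) : (mir D).fst c = D.fst c := min_comm _ _

theorem snd (c : Fin n) : (mir D).snd c = D.snd c := max_comm _ _

theorem of (c : Fin n) : (mir D).OverFirst c ↔ ¬ D.OverFirst c := by
  have hn : 0 < n := c.pos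
  have : NeZero (2 * n) := ⟨by omega⟩
  have h1 : (D.ov c).val ≠ (D.un c).val := by
    intro h
    have h2 := ZMod.val_injective (2 * n) h
    have h3 : Sum.elim D.ov D.un (Sum.inl c) = Sum.elim D.ov D.un (Sum.inr c) := h2
    have h4 := D.bij.1 h3
    exact absurd h4 (by simp)
  show (D.un c).val < (D.ov c).val ↔ ¬ (D.ov c).val < (D.un c).val
  omega

theorem cr (c d : Fin n) : (mir D).Cr c d ↔ D.Cr c d := by
  unfold KnotDiagram.Cr
  rw [fst, fst, snd, snd]

theorem inter (c d : Fin n) : (mir D).Inter c d ↔ D.Inter c d := by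
  unfold KnotDiagram.Inter
  rw [cr, cr]

theorem nested (c d : Fin n) : (mir D).Nested c d ↔ D.Nested c d := by
  unfold KnotDiagram.Nested
  rw [fst, fst, snd, snd]

theorem ite_neg' {P Q : Prop} {dP : Decidable P} {dQ : Decidable Q} (h : P ↔ Q) {x y : ℝ}
    (hxy : x = -y) : (if P then x else 0) = -(if Q then y else 0) := by
  by_cases hQ : Q
  · rw [if_pos (h.2 hQ), if_pos hQ, hxy]
  · rw [if_neg (fun hP => hQ (h.1 hP)), if_neg hQ, neg_zero]

theorem ite_eq' {P Q : Prop} {dP : Decidable P} {dQ : Decidable Q} (h : P ↔ Q) {x y : ℝ}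
    (hxy : x = y) : (if P then x else 0) = (if Q then y else 0) := by
  by_cases hQ : Q
  · rw [if_pos (h.2 hQ), if_pos hQ, hxy]
  · rw [if_neg (fun hP => hQ (h.1 hP)), if_neg hQ]

end FMirAux

open FMirAux in
theorem exists_mirror {n : ℕ} (D : KnotDiagram n) :
    ∃ D' : KnotDiagram n, D'.v2 = D.v2 ∧ D'.v3 = -D.v3 := by
  refine ⟨mir D, ?_, ?_⟩
  · unfold KnotDiagram.v2
    congr 1
    refine Finset.sum_congr rfl fun c _ => Finset.sum_congr rfl fun d _ => ?_
    apply ite_eq'
    · rw [cr, of, of]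
      by_cases h2 : D.OverFirst c <;> by_cases h3 : D.OverFirst d <;> simp [h2, h3]
    · show (((-D.sgn c : ℤ)) : ℝ) * ((-D.sgn d : ℤ) : ℝ) = (D.sgn c : ℝ) * D.sgn d
      push_cast
      ring
  · unfold KnotDiagram.v3
    rw [neg_add, ← mul_neg, ← Finset.sum_neg_distrib, ← Finset.sum_neg_distrib]
    have h1 : ∀ c d e, ((mir D).sgn c : ℝ) * (mir D).sgn d * (mir D).sgn e =
        -((D.sgn c : ℝ) * D.sgn d * D.sgn e) := by
      intro c d e
      show (((-D.sgn c : ℤ)) : ℝ) * ((-D.sgn d : ℤ) : ℝ) * ((-D.sgn e : ℤ) : ℝ) = _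
      push_cast
      ring
    congr 1
    · refine Finset.sum_congr rfl fun c _ => ?_
      rw [← Finset.sum_neg_distrib]
      refine Finset.sum_congr rfl fun d _ => ?_
      rw [← Finset.sum_neg_distrib]
      refine Finset.sum_congr rfl fun e _ => ?_
      apply ite_neg' _ (h1 c d e)
      rw [cr, cr, cr, of, of, of]
      by_cases h2 : D.OverFirst c <;> by_cases h3 : D.OverFirst d <;>
        by_cases h4 : D.OverFirst e <;> simp [h2, h3, h4]
    · congr 1
      refine Finset.sum_congr rfl fun c _ => ?_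
      rw [← Finset.sum_neg_distrib]
      refine Finset.sum_congr rfl fun d _ => ?_
      rw [← Finset.sum_neg_distrib]
      refine Finset.sum_congr rfl fun e _ => ?_
      apply ite_neg' _ (h1 c d e)
      rw [inter, inter, inter, nested, of, of]
      by_cases h2 : D.OverFirst c <;> by_cases h3 : D.OverFirst d <;> simp [h2, h3]

theorem fishLimits_mirror (x : ℝ × ℝ) (hx : x ∈ fishLimits) : (x.1, -x.2) ∈ fishLimits := by
  obtain ⟨m, D, hm, hD⟩ := hx
  choose D' h2 h3 using fun i => exists_mirror (D i)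
  refine ⟨m, D', hm, ?_⟩
  have h : (fun i => ((D' i).v2 / (m i : ℝ) ^ 2, (D' i).v3 / (m i : ℝ) ^ 3)) =
      fun i => ((fun y : ℝ × ℝ => (y.1, -y.2))
        ((D i).v2 / (m i : ℝ) ^ 2, (D i).v3 / (m i : ℝ) ^ 3)) := by
    funext i
    rw [h2, h3]
    simp only [neg_div]
  rw [h]
  have hc : Continuous fun y : ℝ × ℝ => (y.1, -y.2) := by fun_prop
  exact (hc.tendsto x).comp hD

end Pool.H3F
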