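import Pool.Agent.H3F.FSeq
import Pool.Agent.H3F.FMir

/-! The regions are filled. -/

namespace Pool.H3F

namespace FFillAux

theorem tail_val (a r : ℝ) (hr0 : 0 ≤ r) (hr2 : r ≤ 1 / 2) (ha : 9 / 25 ≤ a)
    (hnn : 0 ≤ 1 - 2 * r + 2 * r ^ 2 - a) :
    (a / 8, (2 * (1 - r) ^ 3 - 3 * (1 - r) * √(1 - 2 * r + 2 * r ^ 2 - a) ^ 2 +
      √(1 - 2 * r + 2 * r ^ 2 - a) ^ 3 - 2 * r ^ 3) / 48) ∈ fishLimits := by
  set h := √(1 - 2 * r + 2 * r ^ 2 - a) with hh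
  have hsq : h ^ 2 = 1 - 2 * r + 2 * r ^ 2 - a := Real.sq_sqrt hnn
  have h0 : 0 ≤ h := Real.sqrt_nonneg _
  have hle : h ≤ 1 - r := by
    apply le_of_sq_le_sq _ (by linarith)
    rw [hsq]
    nlinarith
  have key := tail_point (1 - r - h) h r (by linarith) h0 hr0 (by ring)
  have e1 : ((1 - r - h) ^ 2 + 2 * (1 - r - h) * h + r ^ 2) / 8 = a / 8 := by
    have : (1 - r - h) ^ 2 + 2 * (1 - r - h) * h + r ^ 2 = (1 - r) ^ 2 + r ^ 2 - h ^ 2 := by ring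
    rw [this, hsq]
    ring
  have e2 : (2 * (1 - r - h) ^ 3 + 6 * (1 - r - h) ^ 2 * h + 3 * (1 - r - h) * h ^ 2 -
      2 * r ^ 3) / 48 = (2 * (1 - r) ^ 3 - 3 * (1 - r) * h ^ 2 + h ^ 3 - 2 * r ^ 3) / 48 := by
    ring
  rw [e1, e2] at key
  exact key
where
  le_of_sq_le_sq {x y : ℝ} (h : x ^ 2 ≤ y ^ 2) (hy : 0 ≤ y) : x ≤ y := by
    by_contra hc
    push Not at hc
    nlinarith

theorem tail_pos (a b : ℝ) (ha : 9 / 25 ≤ a) (ha1 : a ≤ 1) (hb0 : 0 ≤ b)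
    (hb : b ≤ 3 * a - 1 + √(1 - a) ^ 3)
    (hb2 : 1 / 2 ≤ a → √(2 * a - 1) * (1 + a) ≤ b) : (a / 8, b / 48) ∈ fishLimits := by
  let G : ℝ → ℝ := fun r => 2 * (1 - r) ^ 3 - 3 * (1 - r) * √(1 - 2 * r + 2 * r ^ 2 - a) ^ 2 +
      √(1 - 2 * r + 2 * r ^ 2 - a) ^ 3 - 2 * r ^ 3
  have hcont : Continuous G := by
    have h1 : Continuous (fun r : ℝ => √(1 - 2 * r + 2 * r ^ 2 - a)) := by
      apply Real.continuous_sqrt.comp
      fun_prop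
    have h2 : Continuous (fun r : ℝ => 2 * (1 - r) ^ 3) := by fun_prop
    have h3 : Continuous (fun r : ℝ => 3 * (1 - r)) := by fun_prop
    have h4 : Continuous (fun r : ℝ => 2 * r ^ 3) := by fun_prop
    exact ((h2.sub (h3.mul (h1.pow 2))).add (h1.pow 3)).sub h4
  have hG0 : G 0 = 3 * a - 1 + √(1 - a) ^ 3 := by
    simp only [G]
    have e : (1 - 2 * 0 + 2 * (0 : ℝ) ^ 2 - a) = 1 - a := by ring
    rw [e, Real.sq_sqrt (by linarith)]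
    ring
  -- the right end of the interval
  obtain ⟨r1, hr10, hr12, hnn, hG1⟩ : ∃ r1 : ℝ, 0 ≤ r1 ∧ r1 ≤ 1 / 2 ∧
      (∀ r, 0 ≤ r → r ≤ r1 → 0 ≤ 1 - 2 * r + 2 * r ^ 2 - a) ∧ G r1 ≤ b := by
    by_cases h : 1 / 2 ≤ a
    · have hd := Real.sq_sqrt (show 0 ≤ 2 * a - 1 by linarith)
      have hd0 := Real.sqrt_nonneg (2 * a - 1)
      set δ := √(2 * a - 1) with hδ
      have hd1 : δ ≤ 1 := by nlinarith
      refine ⟨(1 - δ) / 2, by linarith, by linarith, ?_, ?_⟩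
      · intro r h1 h2
        have h3 : δ ≤ 1 - 2 * r := by linarith
        nlinarith
      · have e : (1 - 2 * ((1 - δ) / 2) + 2 * ((1 - δ) / 2) ^ 2 - a) = 0 := by
          have : (1 - 2 * ((1 - δ) / 2) + 2 * ((1 - δ) / 2) ^ 2 - a) = (δ ^ 2 + 1) / 2 - a := by
            ring
          rw [this, hd]
          ring
        simp only [G]
        rw [e, Real.sqrt_zero]
        have e2 : 2 * (1 - (1 - δ) / 2) ^ 3 - 3 * (1 - (1 - δ) / 2) * (0 : ℝ) ^ 2 + 0 ^ 3 -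
            2 * ((1 - δ) / 2) ^ 3 = δ * (3 + δ ^ 2) / 2 := by ring
        rw [e2, hd]
        have := hb2 h
        linarith
    · push Not at h
      refine ⟨1 / 2, by norm_num, le_refl _, ?_, ?_⟩
      · intro r _ _
        nlinarith [sq_nonneg (1 - 2 * r)]
      · simp only [G]
        have e : (1 - 2 * (1 / 2) + 2 * (1 / 2 : ℝ) ^ 2 - a) = 1 / 2 - a := by ring
        rw [e]
        have hs := Real.sq_sqrt (show 0 ≤ 1 / 2 - a by linarith)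
        have hs0 := Real.sqrt_nonneg (1 / 2 - a)
        set w := √(1 / 2 - a)
        have hw1 : w ≤ 1 := by nlinarith
        have e3 : w ^ 3 = w * w ^ 2 := by ring
        have : w ^ 3 ≤ w ^ 2 := by
          rw [e3]
          nlinarith [sq_nonneg w]
        nlinarith [sq_nonneg w]
  have hmem : b ∈ Set.Icc (G r1) (G 0) := ⟨hG1, by rw [hG0]; exact hb⟩
  obtain ⟨r, hr, hGr⟩ := intermediate_value_Icc' hr10 hcont.continuousOn hmem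
  have := tail_val a r hr.1 (hr.2.trans hr12) ha (hnn r hr.1 hr.2)
  have e : 2 * (1 - r) ^ 3 - 3 * (1 - r) * √(1 - 2 * r + 2 * r ^ 2 - a) ^ 2 +
      √(1 - 2 * r + 2 * r ^ 2 - a) ^ 3 - 2 * r ^ 3 = b := hGr
  rw [e] at this
  exact this

end FFillAux

theorem tail_fill (a b : ℝ) (ha : 9 / 25 ≤ a) (ha1 : a ≤ 1)
    (hb : |b| ≤ 3 * a - 1 + √(1 - a) ^ 3)
    (hb2 : 1 / 2 ≤ a → √(2 * a - 1) * (1 + a) ≤ |b|) : (a / 8, b / 48) ∈ fishLimits := by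
  rcases le_total 0 b with h | h
  · rw [abs_of_nonneg h] at hb hb2
    exact FFillAux.tail_pos a b ha ha1 h hb hb2
  · rw [abs_of_nonpos h] at hb hb2
    have := fishLimits_mirror _ (FFillAux.tail_pos a (-b) ha ha1 (by linarith) hb hb2)
    have e : -(-b / 48) = b / 48 := by ring
    simp only [e] at this
    exact this

theorem left_fill (a b : ℝ) (ha : a ≤ 1 - √2) (ha1 : -(1 / 2) ≤ a)
    (hb : |b| ≤ -(3 / 2) * a * √(1 + 2 * a)) : (a / 8, b / 48) ∈ fishLimits := by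
  have h2 : (1 : ℝ) < √2 := by
    rw [Real.lt_sqrt (by norm_num)]
    norm_num
  have hc : 0 < -a := by linarith
  have hs := Real.sq_sqrt (show 0 ≤ 1 + 2 * a by linarith)
  have hs0 := Real.sqrt_nonneg (1 + 2 * a)
  set w := √(1 + 2 * a) with hw
  -- D
  obtain ⟨Dd, hD⟩ : ∃ D : ℝ, D * (3 * (-a)) = 2 * b :=
    ⟨2 * b / (3 * (-a)), div_mul_cancel₀ _ (ne_of_gt (by linarith))⟩
  have hDw : |Dd| ≤ w := by
    have h3 : |Dd| * (3 * (-a)) = 2 * |b| := by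
      rw [← abs_of_pos (show (0 : ℝ) < 3 * (-a) by linarith), ← abs_mul, hD, abs_mul]
      norm_num
    have h4 : |Dd| * (3 * (-a)) ≤ w * (3 * (-a)) := by
      rw [h3]
      nlinarith
    exact le_of_mul_le_mul_right h4 (by linarith)
  have hD2 : Dd ^ 2 ≤ 1 + 2 * a := by
    rw [← hs, ← sq_abs Dd]
    exact pow_le_pow_left₀ (abs_nonneg _) hDw 2
  have hSnn : 0 ≤ Dd ^ 2 + 2 * (-a) := by positivity
  have hS := Real.sq_sqrt hSnn
  have hS0 := Real.sqrt_nonneg (Dd ^ 2 + 2 * (-a))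
  set Ss := √(Dd ^ 2 + 2 * (-a)) with hSs
  have hS1 : Ss ≤ 1 := by nlinarith
  have hDS : |Dd| ≤ Ss := by
    apply Real.le_sqrt_of_sq_le
    rw [sq_abs]
    linarith
  rw [abs_le] at hDS
  have key := left_point ((Ss - Dd) / 2) ((Ss + Dd) / 2) (1 - Ss) (by linarith) (by linarith)
    (by linarith) (by ring)
  have e0 : (Ss - Dd) / 2 * ((Ss + Dd) / 2) = -a / 2 := by
    have : (Ss - Dd) / 2 * ((Ss + Dd) / 2) = (Ss ^ 2 - Dd ^ 2) / 4 := by ring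
    rw [this, hS]
    ring
  have e1 : -(2 * ((Ss - Dd) / 2) * ((Ss + Dd) / 2)) / 8 = a / 8 := by
    have : 2 * ((Ss - Dd) / 2) * ((Ss + Dd) / 2) = 2 * ((Ss - Dd) / 2 * ((Ss + Dd) / 2)) := by
      ring
    rw [this, e0]
    ring
  have e2 : (3 * ((Ss - Dd) / 2) * ((Ss + Dd) / 2) * ((Ss + Dd) / 2 - (Ss - Dd) / 2)) / 48 =
      b / 48 := by
    have : 3 * ((Ss - Dd) / 2) * ((Ss + Dd) / 2) * ((Ss + Dd) / 2 - (Ss - Dd) / 2) =
        3 * ((Ss - Dd) / 2 * ((Ss + Dd) / 2)) * Dd := by ring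
    rw [this, e0]
    have : 3 * (-a / 2) * Dd = b := by linarith
    rw [this]
  rw [e1, e2] at key
  exact key

/-- Below `9 / 25` the curve is not the boundary. -/
theorem beyond (ε : ℝ) (hε : 0 < ε) : ∃ a b : ℝ, 9 / 25 - ε < a ∧ a < 9 / 25 ∧
    3 * a - 1 + √(1 - a) ^ 3 < b ∧ (a / 8, b / 48) ∈ fishLimits := by
  obtain ⟨δ, hδ0, hδ1, hδε⟩ : ∃ δ : ℝ, 0 < δ ∧ δ ≤ 1 / 10 ∧ 5 * δ < ε := by
    refine ⟨min (1 / 10) (ε / 10), by positivity, min_le_left _ _, ?_⟩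
    have := min_le_right (1 / 10) (ε / 10)
    linarith
  have key := four_point (1 / 5 - 2 * δ) δ ((4 / 5 + δ) / 2) ((4 / 5 + δ) / 2) (by linarith)
    hδ0.le (by linarith) (by linarith) (by ring)
  have ea : aOf ![1 / 5 - 2 * δ, -δ, (4 / 5 + δ) / 2, (4 / 5 + δ) / 2] fourE =
      (1 - δ) ^ 2 - (4 / 5 + δ) ^ 2 - δ * (4 / 5 + δ) := by
    simp [aOf, fourE, Fin.sum_univ_four]
    ring
  have eb : bOf ![1 / 5 - 2 * δ, -δ, (4 / 5 + δ) / 2, (4 / 5 + δ) / 2] fourE =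
      2 * (1 - δ) ^ 3 - 3 * (1 - δ) * (4 / 5 + δ) ^ 2 + (4 / 5 + δ) ^ 3 -
        3 * δ * ((1 - δ) * (4 / 5 + δ) - 3 / 4 * (4 / 5 + δ) ^ 2) +
        3 / 2 * δ ^ 2 * (4 / 5 + δ) := by
    simp [bOf, fourE, phi, Fin.sum_univ_four]
    ring
  rw [ea, eb] at key
  refine ⟨_, _, ?_, ?_, ?_, key⟩
  · nlinarith
  · nlinarith
  · set a := (1 - δ) ^ 2 - (4 / 5 + δ) ^ 2 - δ * (4 / 5 + δ) with ha
    set b := 2 * (1 - δ) ^ 3 - 3 * (1 - δ) * (4 / 5 + δ) ^ 2 + (4 / 5 + δ) ^ 3 -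
        3 * δ * ((1 - δ) * (4 / 5 + δ) - 3 / 4 * (4 / 5 + δ) ^ 2) +
        3 / 2 * δ ^ 2 * (4 / 5 + δ) with hb
    have hN : (4 / 5 + δ) ^ 2 ≤ 1 - a := by
      rw [ha]
      nlinarith
    have hs := Real.sq_sqrt (show 0 ≤ 1 - a by nlinarith)
    have hsH : 4 / 5 + δ ≤ √(1 - a) := Real.le_sqrt_of_sq_le hN
    set s := √(1 - a) with hs'
    have h1 : 8 * (4 / 5 + δ) * s ^ 3 ≤ 3 * s ^ 4 + 6 * (4 / 5 + δ) ^ 2 * s ^ 2 -
        (4 / 5 + δ) ^ 4 := by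
      have : 3 * s ^ 4 + 6 * (4 / 5 + δ) ^ 2 * s ^ 2 - (4 / 5 + δ) ^ 4 -
          8 * (4 / 5 + δ) * s ^ 3 = (s - (4 / 5 + δ)) ^ 3 * (3 * s + (4 / 5 + δ)) := by ring
      have h2 : 0 ≤ (s - (4 / 5 + δ)) ^ 3 * (3 * s + (4 / 5 + δ)) := by
        apply mul_nonneg
        · exact pow_nonneg (by linarith) 3
        · linarith
      linarith
    have h4 : s ^ 4 = (1 - a) ^ 2 := by rw [← hs]; ring
    rw [h4, hs] at h1
    have h5 : 3 * (1 - a) ^ 2 + 6 * (4 / 5 + δ) ^ 2 * (1 - a) - (4 / 5 + δ) ^ 4 <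
        8 * (4 / 5 + δ) * (b - 3 * a + 1) := by
      rw [ha, hb]
      nlinarith [pow_pos hδ0 2, pow_pos hδ0 3, pow_pos hδ0 4, mul_pos hδ0 hδ0]
    have h6 : 8 * (4 / 5 + δ) * s ^ 3 < 8 * (4 / 5 + δ) * (b - 3 * a + 1) := by linarith
    have h7 : s ^ 3 < b - 3 * a + 1 := lt_of_mul_lt_mul_left h6 (by linarith)
    linarith

end Pool.H3F
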