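import Pool.Agent.H3F.FDefs

/-! Four blocks: word `a_0 .. a_{m-1} y_0 .. y_{l-1} b_0 .. b_{n-1} y_{l-1} .. y_0
d_0 .. d_{k-1} a_0 .. a_{m-1} d_{k-1} .. d_0 b_{n-1} .. b_0`. -/

namespace Pool.H3F

open Finset

/-- Block of a chord. -/
def fourTy (m l n k : ℕ) (c : Fin (m + l + n + k)) : Fin 4 :=
  if c.val < m then 0 else if c.val < m + l then 1 else if c.val < m + l + n then 2 else 3

/-- Interlacement matrix of the blocks. -/
def fourE : Fin 4 → Fin 4 → ℝ := ![![1, 0, 1, 1], ![0, 0, 1, 0], ![1, 1, 0, 0], ![1, 0, 0, 0]]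

namespace FFourAux

/-- Functions given on the eight blocks of positions. -/
def pick (m l n k : ℕ) (g0 g1 g2 g3 g4 g5 g6 g7 : ℕ → ℕ) (p : ℕ) : ℕ :=
  if p < m then g0 p else if p < m + l then g1 (p - m) else if p < m + l + n then g2 (p - m - l)
  else if p < m + 2 * l + n then g3 (m + 2 * l + n - 1 - p)
  else if p < m + 2 * l + n + k then g4 (p - (m + 2 * l + n))
  else if p < 2 * m + 2 * l + n + k then g5 (p - (m + 2 * l + n + k))
  else if p < 2 * m + 2 * l + n + 2 * k then g6 (2 * m + 2 * l + n + 2 * k - 1 - p)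
  else g7 (2 * m + 2 * l + 2 * n + 2 * k - 1 - p)

section

variable {m l n k : ℕ} {g0 g1 g2 g3 g4 g5 g6 g7 : ℕ → ℕ} (p i : ℕ)

theorem v0 (h : i < m) (hp : p = i) : pick m l n k g0 g1 g2 g3 g4 g5 g6 g7 p = g0 i := by
  unfold pick
  rw [if_pos (by omega), hp]

theorem v1 (h : i < l) (hp : p = m + i) : pick m l n k g0 g1 g2 g3 g4 g5 g6 g7 p = g1 i := by
  unfold pick
  rw [if_neg (by omega), if_pos (by omega)]
  congr 1
  omega

theorem v2 (h : i < n) (hp : p = m + l + i) :
    pick m l n k g0 g1 g2 g3 g4 g5 g6 g7 p = g2 i := by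
  unfold pick
  rw [if_neg (by omega), if_neg (by omega), if_pos (by omega)]
  congr 1
  omega

theorem v3 (h : i < l) (hp : p + i + 1 = m + 2 * l + n) :
    pick m l n k g0 g1 g2 g3 g4 g5 g6 g7 p = g3 i := by
  unfold pick
  rw [if_neg (by omega), if_neg (by omega), if_neg (by omega), if_pos (by omega)]
  congr 1
  omega

theorem v4 (h : i < k) (hp : p = m + 2 * l + n + i) :
    pick m l n k g0 g1 g2 g3 g4 g5 g6 g7 p = g4 i := by
  unfold pick
  rw [if_neg (by omega), if_neg (by omega), if_neg (by omega), if_neg (by omega),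
    if_pos (by omega)]
  congr 1
  omega

theorem v5 (h : i < m) (hp : p = m + 2 * l + n + k + i) :
    pick m l n k g0 g1 g2 g3 g4 g5 g6 g7 p = g5 i := by
  unfold pick
  rw [if_neg (by omega), if_neg (by omega), if_neg (by omega), if_neg (by omega),
    if_neg (by omega), if_pos (by omega)]
  congr 1
  omega

theorem v6 (h : i < k) (hp : p + i + 1 = 2 * m + 2 * l + n + 2 * k) :
    pick m l n k g0 g1 g2 g3 g4 g5 g6 g7 p = g6 i := by
  unfold pick
  rw [if_neg (by omega), if_neg (by omega), if_neg (by omega), if_neg (by omega),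
    if_neg (by omega), if_neg (by omega), if_pos (by omega)]
  congr 1
  omega

theorem v7 (h : i < n) (hp : p + i + 1 = 2 * m + 2 * l + 2 * n + 2 * k) :
    pick m l n k g0 g1 g2 g3 g4 g5 g6 g7 p = g7 i := by
  unfold pick
  rw [if_neg (by omega), if_neg (by omega), if_neg (by omega), if_neg (by omega),
    if_neg (by omega), if_neg (by omega), if_neg (by omega)]
  congr 1
  omega

end

/-- Faces to the left. -/
def L (m l n k : ℕ) : ℕ → ℕ :=
  pick m l n k
    (fun i => if i % 2 = 0 then 6 + i else 1)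
    (fun i => if i % 2 = 0 then 6 + (m - 1) + i else 1)
    (fun i => if i % 2 = 0 then 5 else if i + 1 < n then 6 + (m - 1) + (l - 1) + i else 3)
    (fun i => if i % 2 = 0 then 3 else 6 + (m - 1) + (i - 1))
    (fun i => if i % 2 = 0 then 5 else 6 + (m - 1) + (l - 1) + (n - 1) + i)
    (fun i => if i % 2 = 0 then 1 else if i + 1 < m then 6 + i else 2)
    (fun i => if i % 2 = 0 then (if i = 0 then 3 else 6 + (m - 1) + (l - 1) + (n - 1) + (i - 1))
      else 2)
    (fun i => if i % 2 = 0 then (if i = 0 then 1 else 6 + (m - 1) + (l - 1) + (i - 1)) else 4)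

/-- Faces to the right. -/
def R (m l n k : ℕ) : ℕ → ℕ :=
  pick m l n k
    (fun i => if i % 2 = 0 then 0 else if i + 1 < m then 6 + i else 2)
    (fun i => if i % 2 = 0 then 3 else if i + 1 < l then 6 + (m - 1) + i else 4)
    (fun i => if i % 2 = 0 then 6 + (m - 1) + (l - 1) + i else 4)
    (fun i => if i % 2 = 0 then (if i = 0 then 2 else 6 + (m - 1) + (i - 1)) else 1)
    (fun i => if i % 2 = 0 then (if i + 1 < k then 6 + (m - 1) + (l - 1) + (n - 1) + i else 0)
      else 2)
    (fun i => if i % 2 = 0 then 6 + i else 0)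
    (fun i => if i % 2 = 0 then 5 else 6 + (m - 1) + (l - 1) + (n - 1) + (i - 1))
    (fun i => if i % 2 = 0 then 5 else 6 + (m - 1) + (l - 1) + (i - 1))

/-- First passage. -/
def F (m l n : ℕ) (c : ℕ) : ℕ := if c < m + l + n then c else c + l

/-- Second passage. -/
def S (m l n k : ℕ) (c : ℕ) : ℕ :=
  if c < m then m + 2 * l + n + k + c
  else if c < m + l then 2 * m + 2 * l + n - 1 - c
  else if c < m + l + n then 3 * m + 3 * l + 2 * n + 2 * k - 1 - c
  else 3 * m + 3 * l + 2 * n + 2 * k - 1 - c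

/-- Orientation. -/
def T (m l n : ℕ) (c : ℕ) : Bool :=
  if c < m then decide (c % 2 = 0)
  else if c < m + l then decide ((c - m) % 2 = 1)
  else if c < m + l + n then decide ((c - m - l) % 2 = 0)
  else decide ((c - m - l - n) % 2 = 0)

variable {m l n k : ℕ}

theorem blocks (c : ℕ) (hc : c < m + l + n + k) :
    (∃ i, i < m ∧ i = c) ∨ (∃ i, i < l ∧ c = m + i) ∨ (∃ i, i < n ∧ c = m + l + i) ∨
      (∃ i, i < k ∧ c = m + l + n + i) := by
  rcases lt_or_ge c m with h | h
  · exact Or.inl ⟨c, h, rfl⟩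
  rcases lt_or_ge c (m + l) with h1 | h1
  · exact Or.inr (Or.inl ⟨c - m, by omega, by omega⟩)
  rcases lt_or_ge c (m + l + n) with h2 | h2
  · exact Or.inr (Or.inr (Or.inl ⟨c - m - l, by omega, by omega⟩))
  · exact Or.inr (Or.inr (Or.inr ⟨c - m - l - n, by omega, by omega⟩))

theorem F_a (i : ℕ) (hi : i < m) : F m l n i = i := by unfold F; rw [if_pos (by omega)]

theorem F_y (i : ℕ) (hi : i < l) : F m l n (m + i) = m + i := by
  unfold F; rw [if_pos (by omega)]

theorem F_b (i : ℕ) (hi : i < n) : F m l n (m + l + i) = m + l + i := by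
  unfold F; rw [if_pos (by omega)]

theorem F_d (i : ℕ) : F m l n (m + l + n + i) = m + 2 * l + n + i := by
  unfold F; rw [if_neg (by omega)]; omega

theorem S_a (i : ℕ) (hi : i < m) : S m l n k i = m + 2 * l + n + k + i := by
  unfold S; rw [if_pos (by omega)]

theorem S_y (i : ℕ) (hi : i < l) : S m l n k (m + i) + i + 1 = m + 2 * l + n := by
  unfold S; rw [if_neg (by omega), if_pos (by omega)]; omega

theorem S_b (i : ℕ) (hi : i < n) :
    S m l n k (m + l + i) + i + 1 = 2 * m + 2 * l + 2 * n + 2 * k := by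
  unfold S; rw [if_neg (by omega), if_neg (by omega), if_pos (by omega)]; omega

theorem S_d (i : ℕ) (hi : i < k) :
    S m l n k (m + l + n + i) + i + 1 = 2 * m + 2 * l + n + 2 * k := by
  unfold S; rw [if_neg (by omega), if_neg (by omega), if_neg (by omega)]; omega

theorem T_a (i : ℕ) (hi : i < m) : T m l n i = decide (i % 2 = 0) := by
  unfold T; rw [if_pos (by omega)]

theorem T_y (i : ℕ) (hi : i < l) : T m l n (m + i) = decide (i % 2 = 1) := by
  unfold T
  rw [if_neg (by omega), if_pos (by omega)]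
  congr 2
  rw [Nat.add_sub_cancel_left]

theorem T_b (i : ℕ) (hi : i < n) : T m l n (m + l + i) = decide (i % 2 = 0) := by
  unfold T
  rw [if_neg (by omega), if_neg (by omega), if_pos (by omega)]
  congr 2
  have : m + l + i - m - l = i := by omega
  rw [this]

theorem T_d (i : ℕ) : T m l n (m + l + n + i) = decide (i % 2 = 0) := by
  unfold T
  rw [if_neg (by omega), if_neg (by omega), if_neg (by omega)]
  congr 2
  have : m + l + n + i - m - l - n = i := by omega
  rw [this]

theorem lt (c : ℕ) (hc : c < m + l + n + k) :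
    F m l n c < S m l n k c ∧ S m l n k c < 2 * (m + l + n + k) := by
  rcases blocks c hc with ⟨i, hi, rfl⟩ | ⟨i, hi, rfl⟩ | ⟨i, hi, rfl⟩ | ⟨i, hi, rfl⟩
  · rw [F_a _ hi, S_a _ hi]; omega
  · have := S_y (m := m) (n := n) (k := k) _ hi
    rw [F_y _ hi]; omega
  · have := S_b (m := m) (l := l) (k := k) _ hi
    rw [F_b _ hi]; omega
  · have := S_d (m := m) (l := l) (n := n) _ hi
    rw [F_d]; omega

theorem injf (c d : ℕ) (h : F m l n c = F m l n d) : c = d := by
  unfold F at h
  split_ifs at h <;> omega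

theorem injs (c d : ℕ) (hc : c < m + l + n + k) (hd : d < m + l + n + k)
    (h : S m l n k c = S m l n k d) : c = d := by
  rcases blocks c hc with ⟨i, hi, rfl⟩ | ⟨i, hi, rfl⟩ | ⟨i, hi, rfl⟩ | ⟨i, hi, rfl⟩
  all_goals rcases blocks d hd with ⟨j, hj, rfl⟩ | ⟨j, hj, rfl⟩ | ⟨j, hj, rfl⟩ | ⟨j, hj, rfl⟩
  all_goals unfold S at h
  all_goals split_ifs at h <;> omega

theorem ne (c d : ℕ) (hc : c < m + l + n + k) (hd : d < m + l + n + k) :
    F m l n c ≠ S m l n k d := by
  intro h
  rcases blocks c hc with ⟨i, hi, rfl⟩ | ⟨i, hi, rfl⟩ | ⟨i, hi, rfl⟩ | ⟨i, hi, rfl⟩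
  all_goals rcases blocks d hd with ⟨j, hj, rfl⟩ | ⟨j, hj, rfl⟩ | ⟨j, hj, rfl⟩ | ⟨j, hj, rfl⟩
  all_goals unfold S F at h
  all_goals split_ifs at h <;> omega

theorem L_lt (hm0 : 0 < m) (hl0 : 0 < l) (hn0 : 0 < n) (hm : m % 2 = 0) (hl : l % 2 = 0)
    (hn : n % 2 = 0) (hk : k % 2 = 1) (p : ℕ) (hp : p < 2 * (m + l + n + k)) :
    L m l n k p < m + l + n + k + 2 := by
  unfold L pick
  split_ifs <;> first | omega | (simp only; split_ifs <;> omega)

theorem R_lt (hm0 : 0 < m) (hl0 : 0 < l) (hn0 : 0 < n) (hm : m % 2 = 0) (hl : l % 2 = 0)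
    (hn : n % 2 = 0) (hk : k % 2 = 1) (p : ℕ) (hp : p < 2 * (m + l + n + k)) :
    R m l n k p < m + l + n + k + 2 := by
  unfold R pick
  split_ifs <;> first | omega | (simp only; split_ifs <;> omega)

theorem surj (hm0 : 0 < m) (hl0 : 0 < l) (hn0 : 0 < n) (hm : m % 2 = 0) (hl : l % 2 = 0)
    (hn : n % 2 = 0) (hk : k % 2 = 1) (x : ℕ) (hx : x < m + l + n + k + 2) :
    ∃ j < 2 * (m + l + n + k), L m l n k j = x ∨ R m l n k j = x := by
  unfold L R
  by_cases h0 : x = 0
  · refine ⟨0, by omega, Or.inr ?_⟩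
    rw [v0 0 0 hm0 rfl]
    simp [h0]
  by_cases h1 : x = 1
  · refine ⟨1, by omega, Or.inl ?_⟩
    rw [v0 1 1 (by omega) rfl]
    simp [h1]
  by_cases h2 : x = 2
  · refine ⟨m - 1, by omega, Or.inr ?_⟩
    rw [v0 (m - 1) (m - 1) (by omega) rfl, if_neg (by omega), if_neg (by omega), h2]
  by_cases h3 : x = 3
  · refine ⟨m, by omega, Or.inr ?_⟩
    rw [v1 m 0 (by omega) (by omega)]
    simp [h3]
  by_cases h4 : x = 4
  · refine ⟨m + l - 1, by omega, Or.inr ?_⟩
    rw [v1 (m + l - 1) (l - 1) (by omega) (by omega), if_neg (by omega), if_neg (by omega), h4]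
  by_cases h5 : x = 5
  · refine ⟨m + l, by omega, Or.inl ?_⟩
    rw [v2 (m + l) 0 (by omega) (by omega)]
    simp [h5]
  by_cases h6 : x < 6 + (m - 1)
  · rcases Nat.mod_two_eq_zero_or_one (x - 6) with h | h
    · refine ⟨x - 6, by omega, Or.inl ?_⟩
      rw [v0 (x - 6) (x - 6) (by omega) rfl, if_pos h]
      omega
    · refine ⟨x - 6, by omega, Or.inr ?_⟩
      rw [v0 (x - 6) (x - 6) (by omega) rfl, if_neg (by omega), if_pos (by omega)]
      omega
  by_cases h7 : x < 6 + (m - 1) + (l - 1)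
  · obtain ⟨i, hi⟩ : ∃ i, x = 6 + (m - 1) + i := ⟨x - 6 - (m - 1), by omega⟩
    rcases Nat.mod_two_eq_zero_or_one i with h | h
    · refine ⟨m + i, by omega, Or.inl ?_⟩
      rw [v1 (m + i) i (by omega) rfl, if_pos h]
      omega
    · refine ⟨m + i, by omega, Or.inr ?_⟩
      rw [v1 (m + i) i (by omega) rfl, if_neg (by omega), if_pos (by omega)]
      omega
  by_cases h8 : x < 6 + (m - 1) + (l - 1) + (n - 1)
  · obtain ⟨i, hi⟩ : ∃ i, x = 6 + (m - 1) + (l - 1) + i := ⟨x - 6 - (m - 1) - (l - 1), by omega⟩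
    rcases Nat.mod_two_eq_zero_or_one i with h | h
    · refine ⟨m + l + i, by omega, Or.inr ?_⟩
      rw [v2 (m + l + i) i (by omega) rfl, if_pos h]
      omega
    · refine ⟨m + l + i, by omega, Or.inl ?_⟩
      rw [v2 (m + l + i) i (by omega) rfl, if_neg (by omega), if_pos (by omega)]
      omega
  · obtain ⟨i, hi⟩ : ∃ i, x = 6 + (m - 1) + (l - 1) + (n - 1) + i :=
      ⟨x - 6 - (m - 1) - (l - 1) - (n - 1), by omega⟩
    rcases Nat.mod_two_eq_zero_or_one i with h | h
    · refine ⟨m + 2 * l + n + i, by omega, Or.inr ?_⟩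
      rw [v4 (m + 2 * l + n + i) i (by omega) rfl, if_pos h, if_pos (by omega)]
      omega
    · refine ⟨m + 2 * l + n + i, by omega, Or.inl ?_⟩
      rw [v4 (m + 2 * l + n + i) i (by omega) rfl, if_neg (by omega)]
      omega

theorem prd0 (N : ℕ) : prd N 0 = 2 * N - 1 := rfl

theorem prds (N j : ℕ) (hj : 0 < j) : prd N j = j - 1 := by
  unfold prd; rw [if_neg (by omega)]

theorem cornerP (hm0 : 0 < m) (hl0 : 0 < l) (hn0 : 0 < n) (hm : m % 2 = 0) (hl : l % 2 = 0)
    (hn : n % 2 = 0) (hk : k % 2 = 1) (c : ℕ) (hc : c < m + l + n + k)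
    (ht : T m l n c = true) :
    L m l n k (F m l n c) = R m l n k (S m l n k c) ∧
    L m l n k (prd (m + l + n + k) (F m l n c)) = L m l n k (S m l n k c) ∧
    R m l n k (prd (m + l + n + k) (F m l n c)) =
      L m l n k (prd (m + l + n + k) (S m l n k c)) ∧
    R m l n k (F m l n c) = R m l n k (prd (m + l + n + k) (S m l n k c)) := by
  rcases blocks c hc with ⟨i, hi, rfl⟩ | ⟨i, hi, rfl⟩ | ⟨i, hi, rfl⟩ | ⟨i, hi, rfl⟩
  · rw [T_a _ hi, decide_eq_true_eq] at ht
    have hS := S_a (l := l) (n := n) (k := k) _ hi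
    generalize S m l n k i = q at hS
    rw [F_a _ hi, prds _ q (by omega)]
    unfold L R
    rw [v0 i i hi rfl, v5 q i hi hS, v0 i i hi rfl, v5 q i hi hS]
    by_cases h0 : i = 0
    · subst h0
      rw [prd0, v7 (2 * (m + l + n + k) - 1) 0 hn0 (by omega),
        v7 (2 * (m + l + n + k) - 1) 0 hn0 (by omega), v4 (q - 1) (k - 1) (by omega) (by omega),
        v4 (q - 1) (k - 1) (by omega) (by omega)]
      refine ⟨?_, ?_, ?_, ?_⟩ <;> split_ifs <;> first | omega | contradiction
    · rw [prds _ i (by omega), v0 (i - 1) (i - 1) (by omega) rfl,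
        v0 (i - 1) (i - 1) (by omega) rfl,
        v5 (q - 1) (i - 1) (by omega) (by omega), v5 (q - 1) (i - 1) (by omega) (by omega)]
      refine ⟨?_, ?_, ?_, ?_⟩ <;> split_ifs <;> first | omega | contradiction
  · rw [T_y _ hi, decide_eq_true_eq] at ht
    have hS := S_y (m := m) (n := n) (k := k) _ hi
    generalize S m l n k (m + i) = q at hS
    rw [F_y _ hi, prds _ (m + i) (by omega), prds _ q (by omega)]
    unfold L R
    rw [v1 (m + i) i hi rfl, v3 q i hi hS, v1 (m + i) i hi rfl, v3 q i hi hS,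
      v1 (m + i - 1) (i - 1) (by omega) (by omega), v1 (m + i - 1) (i - 1) (by omega) (by omega)]
    by_cases h0 : i + 1 < l
    · rw [v3 (q - 1) (i + 1) (by omega) (by omega), v3 (q - 1) (i + 1) (by omega) (by omega)]
      refine ⟨?_, ?_, ?_, ?_⟩ <;> split_ifs <;> first | omega | contradiction
    · rw [v2 (q - 1) (n - 1) (by omega) (by omega), v2 (q - 1) (n - 1) (by omega) (by omega)]
      refine ⟨?_, ?_, ?_, ?_⟩ <;> split_ifs <;> first | omega | contradiction
  · rw [T_b _ hi, decide_eq_true_eq] at ht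
    have hS := S_b (m := m) (l := l) (k := k) _ hi
    generalize S m l n k (m + l + i) = q at hS
    rw [F_b _ hi, prds _ (m + l + i) (by omega), prds _ q (by omega)]
    unfold L R
    rw [v2 (m + l + i) i hi rfl, v7 q i hi hS, v2 (m + l + i) i hi rfl, v7 q i hi hS,
      v7 (q - 1) (i + 1) (by omega) (by omega), v7 (q - 1) (i + 1) (by omega) (by omega)]
    by_cases h0 : i = 0
    · rw [v1 (m + l + i - 1) (l - 1) (by omega) (by omega),
        v1 (m + l + i - 1) (l - 1) (by omega) (by omega)]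
      refine ⟨?_, ?_, ?_, ?_⟩ <;> split_ifs <;> first | omega | contradiction
    · rw [v2 (m + l + i - 1) (i - 1) (by omega) (by omega),
        v2 (m + l + i - 1) (i - 1) (by omega) (by omega)]
      refine ⟨?_, ?_, ?_, ?_⟩ <;> split_ifs <;> first | omega | contradiction
  · rw [T_d, decide_eq_true_eq] at ht
    have hS := S_d (m := m) (l := l) (n := n) _ hi
    generalize S m l n k (m + l + n + i) = q at hS
    rw [F_d, prds _ (m + 2 * l + n + i) (by omega), prds _ q (by omega)]
    unfold L R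
    rw [v4 (m + 2 * l + n + i) i hi rfl, v6 q i hi hS, v4 (m + 2 * l + n + i) i hi rfl,
      v6 q i hi hS]
    by_cases h0 : i = 0
    · rw [v3 (m + 2 * l + n + i - 1) 0 (by omega) (by omega),
        v3 (m + 2 * l + n + i - 1) 0 (by omega) (by omega)]
      by_cases h1 : i + 1 < k
      · rw [v6 (q - 1) (i + 1) (by omega) (by omega), v6 (q - 1) (i + 1) (by omega) (by omega)]
        refine ⟨?_, ?_, ?_, ?_⟩ <;> split_ifs <;> first | omega | contradiction
      · rw [v5 (q - 1) (m - 1) (by omega) (by omega), v5 (q - 1) (m - 1) (by omega) (by omega)]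
        refine ⟨?_, ?_, ?_, ?_⟩ <;> split_ifs <;> first | omega | contradiction
    · rw [v4 (m + 2 * l + n + i - 1) (i - 1) (by omega) (by omega),
        v4 (m + 2 * l + n + i - 1) (i - 1) (by omega) (by omega)]
      by_cases h1 : i + 1 < k
      · rw [v6 (q - 1) (i + 1) (by omega) (by omega), v6 (q - 1) (i + 1) (by omega) (by omega)]
        refine ⟨?_, ?_, ?_, ?_⟩ <;> split_ifs <;> first | omega | contradiction
      · rw [v5 (q - 1) (m - 1) (by omega) (by omega), v5 (q - 1) (m - 1) (by omega) (by omega)]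
        refine ⟨?_, ?_, ?_, ?_⟩ <;> split_ifs <;> first | omega | contradiction

theorem cornerN (hm0 : 0 < m) (hn0 : 0 < n) (hm : m % 2 = 0) (hl : l % 2 = 0)
    (hn : n % 2 = 0) (hk : k % 2 = 1) (c : ℕ) (hc : c < m + l + n + k)
    (ht : T m l n c = false) :
    L m l n k (S m l n k c) = R m l n k (F m l n c) ∧
    L m l n k (prd (m + l + n + k) (S m l n k c)) = L m l n k (F m l n c) ∧
    R m l n k (prd (m + l + n + k) (S m l n k c)) =
      L m l n k (prd (m + l + n + k) (F m l n c)) ∧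
    R m l n k (S m l n k c) = R m l n k (prd (m + l + n + k) (F m l n c)) := by
  rcases blocks c hc with ⟨i, hi, rfl⟩ | ⟨i, hi, rfl⟩ | ⟨i, hi, rfl⟩ | ⟨i, hi, rfl⟩
  · rw [T_a _ hi, decide_eq_false_iff_not] at ht
    have hS := S_a (l := l) (n := n) (k := k) _ hi
    generalize S m l n k i = q at hS
    rw [F_a _ hi, prds _ q (by omega), prds _ i (by omega)]
    unfold L R
    rw [v0 i i hi rfl, v5 q i hi hS, v0 i i hi rfl,
      v5 q i hi hS, v0 (i - 1) (i - 1) (by omega) rfl,
      v0 (i - 1) (i - 1) (by omega) rfl, v5 (q - 1) (i - 1) (by omega) (by omega),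
      v5 (q - 1) (i - 1) (by omega) (by omega)]
    refine ⟨?_, ?_, ?_, ?_⟩ <;> split_ifs <;> first | omega | contradiction
  · rw [T_y _ hi, decide_eq_false_iff_not] at ht
    have hS := S_y (m := m) (n := n) (k := k) _ hi
    generalize S m l n k (m + i) = q at hS
    rw [F_y _ hi, prds _ (m + i) (by omega), prds _ q (by omega)]
    unfold L R
    rw [v1 (m + i) i hi rfl, v3 q i hi hS, v1 (m + i) i hi rfl, v3 q i hi hS,
      v3 (q - 1) (i + 1) (by omega) (by omega), v3 (q - 1) (i + 1) (by omega) (by omega)]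
    by_cases h0 : i = 0
    · rw [v0 (m + i - 1) (m - 1) (by omega) (by omega),
        v0 (m + i - 1) (m - 1) (by omega) (by omega)]
      refine ⟨?_, ?_, ?_, ?_⟩ <;> split_ifs <;> first | omega | contradiction
    · rw [v1 (m + i - 1) (i - 1) (by omega) (by omega),
        v1 (m + i - 1) (i - 1) (by omega) (by omega)]
      refine ⟨?_, ?_, ?_, ?_⟩ <;> split_ifs <;> first | omega | contradiction
  · rw [T_b _ hi, decide_eq_false_iff_not] at ht
    have hS := S_b (m := m) (l := l) (k := k) _ hi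
    generalize S m l n k (m + l + i) = q at hS
    rw [F_b _ hi, prds _ (m + l + i) (by omega), prds _ q (by omega)]
    unfold L R
    rw [v2 (m + l + i) i hi rfl, v7 q i hi hS, v2 (m + l + i) i hi rfl, v7 q i hi hS,
      v2 (m + l + i - 1) (i - 1) (by omega) (by omega),
      v2 (m + l + i - 1) (i - 1) (by omega) (by omega)]
    by_cases h0 : i + 1 < n
    · rw [v7 (q - 1) (i + 1) (by omega) (by omega), v7 (q - 1) (i + 1) (by omega) (by omega)]
      refine ⟨?_, ?_, ?_, ?_⟩ <;> split_ifs <;> first | omega | contradiction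
    · rw [v6 (q - 1) 0 (by omega) (by omega), v6 (q - 1) 0 (by omega) (by omega)]
      refine ⟨?_, ?_, ?_, ?_⟩ <;> split_ifs <;> first | omega | contradiction
  · rw [T_d, decide_eq_false_iff_not] at ht
    have hS := S_d (m := m) (l := l) (n := n) _ hi
    generalize S m l n k (m + l + n + i) = q at hS
    rw [F_d, prds _ (m + 2 * l + n + i) (by omega), prds _ q (by omega)]
    unfold L R
    rw [v4 (m + 2 * l + n + i) i hi rfl, v6 q i hi hS, v4 (m + 2 * l + n + i) i hi rfl,
      v6 q i hi hS,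
      v4 (m + 2 * l + n + i - 1) (i - 1) (by omega) (by omega),
      v4 (m + 2 * l + n + i - 1) (i - 1) (by omega) (by omega),
      v6 (q - 1) (i + 1) (by omega) (by omega), v6 (q - 1) (i + 1) (by omega) (by omega)]
    refine ⟨?_, ?_, ?_, ?_⟩ <;> split_ifs <;> first | omega | contradiction

/-- The code. -/
def code (hm0 : 0 < m) (hl0 : 0 < l) (hn0 : 0 < n) (hm : m % 2 = 0) (hl : l % 2 = 0)
    (hn : n % 2 = 0) (hk : k % 2 = 1) : PCode (m + l + n + k) where
  f c := F m l n c.val
  s c := S m l n k c.val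
  t c := T m l n c.val
  l := L m l n k
  r := R m l n k
  lt c := (lt c.val c.isLt).1
  lt2 c := (lt c.val c.isLt).2
  injf _ _ h := Fin.ext (injf _ _ h)
  injs c d h := Fin.ext (injs _ _ c.isLt d.isLt h)
  ne c d := ne _ _ c.isLt d.isLt
  l_lt j hj := L_lt hm0 hl0 hn0 hm hl hn hk j hj
  r_lt j hj := R_lt hm0 hl0 hn0 hm hl hn hk j hj
  surj x hx := surj hm0 hl0 hn0 hm hl hn hk x hx
  cornerP c h := cornerP hm0 hl0 hn0 hm hl hn hk c.val c.isLt h
  cornerN c h := cornerN hm0 hn0 hm hl hn hk c.val c.isLt h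

theorem ty_a (c : Fin (m + l + n + k)) (i : ℕ) (hi : i < m) (h : c.val = i) :
    fourTy m l n k c = 0 := by
  unfold fourTy; rw [if_pos (by omega)]

theorem ty_y (c : Fin (m + l + n + k)) (i : ℕ) (hi : i < l) (h : c.val = m + i) :
    fourTy m l n k c = 1 := by
  unfold fourTy; rw [if_neg (by omega), if_pos (by omega)]

theorem ty_b (c : Fin (m + l + n + k)) (i : ℕ) (hi : i < n) (h : c.val = m + l + i) :
    fourTy m l n k c = 2 := by
  unfold fourTy; rw [if_neg (by omega), if_neg (by omega), if_pos (by omega)]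

theorem ty_d (c : Fin (m + l + n + k)) (i : ℕ) (h : c.val = m + l + n + i) :
    fourTy m l n k c = 3 := by
  unfold fourTy; rw [if_neg (by omega), if_neg (by omega), if_neg (by omega)]

theorem int (c d : Fin (m + l + n + k)) (hcd : c.val ≠ d.val) :
    ((F m l n c < F m l n d ∧ F m l n d < S m l n k c ∧ S m l n k c < S m l n k d) ∨
      (F m l n d < F m l n c ∧ F m l n c < S m l n k d ∧ S m l n k d < S m l n k c)) ↔
      fourE (fourTy m l n k c) (fourTy m l n k d) = 1 := by
  rcases blocks c.val c.isLt with ⟨i, hi, h⟩ | ⟨i, hi, h⟩ | ⟨i, hi, h⟩ | ⟨i, hi, h⟩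
  · have h := h.symm
    have a1 := F_a (l := l) (n := n) i hi
    have a2 := S_a (l := l) (n := n) (k := k) i hi
    rw [ty_a c i hi h, h, a1]
    rcases blocks d.val d.isLt with ⟨j, hj, g⟩ | ⟨j, hj, g⟩ | ⟨j, hj, g⟩ | ⟨j, hj, g⟩
    · have g := g.symm
      have b1 := F_a (l := l) (n := n) j hj
      have b2 := S_a (l := l) (n := n) (k := k) j hj
      rw [ty_a d j hj g, g, b1]
      simp [fourE]
      omega
    · have b1 := F_y (m := m) (n := n) j hj
      have b2 := S_y (m := m) (n := n) (k := k) j hj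
      rw [ty_y d j hj g, g, b1]
      simp [fourE]
      omega
    · have b1 := F_b (m := m) (l := l) j hj
      have b2 := S_b (m := m) (l := l) (k := k) j hj
      rw [ty_b d j hj g, g, b1]
      simp [fourE]
      omega
    · have b1 := F_d (m := m) (l := l) (n := n) j
      have b2 := S_d (m := m) (l := l) (n := n) j hj
      rw [ty_d d j g, g, b1]
      simp [fourE]
      omega
  · have a1 := F_y (m := m) (n := n) i hi
    have a2 := S_y (m := m) (n := n) (k := k) i hi
    rw [ty_y c i hi h, h, a1]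
    rcases blocks d.val d.isLt with ⟨j, hj, g⟩ | ⟨j, hj, g⟩ | ⟨j, hj, g⟩ | ⟨j, hj, g⟩
    · have g := g.symm
      have b1 := F_a (l := l) (n := n) j hj
      have b2 := S_a (l := l) (n := n) (k := k) j hj
      rw [ty_a d j hj g, g, b1]
      simp [fourE]
      omega
    · have b1 := F_y (m := m) (n := n) j hj
      have b2 := S_y (m := m) (n := n) (k := k) j hj
      rw [ty_y d j hj g, g, b1]
      simp [fourE]
      omega
    · have b1 := F_b (m := m) (l := l) j hj
      have b2 := S_b (m := m) (l := l) (k := k) j hj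
      rw [ty_b d j hj g, g, b1]
      simp [fourE]
      omega
    · have b1 := F_d (m := m) (l := l) (n := n) j
      have b2 := S_d (m := m) (l := l) (n := n) j hj
      rw [ty_d d j g, g, b1]
      simp [fourE]
      omega
  · have a1 := F_b (m := m) (l := l) i hi
    have a2 := S_b (m := m) (l := l) (k := k) i hi
    rw [ty_b c i hi h, h, a1]
    rcases blocks d.val d.isLt with ⟨j, hj, g⟩ | ⟨j, hj, g⟩ | ⟨j, hj, g⟩ | ⟨j, hj, g⟩
    · have g := g.symm
      have b1 := F_a (l := l) (n := n) j hj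
      have b2 := S_a (l := l) (n := n) (k := k) j hj
      rw [ty_a d j hj g, g, b1]
      simp [fourE]
      omega
    · have b1 := F_y (m := m) (n := n) j hj
      have b2 := S_y (m := m) (n := n) (k := k) j hj
      rw [ty_y d j hj g, g, b1]
      simp [fourE]
      omega
    · have b1 := F_b (m := m) (l := l) j hj
      have b2 := S_b (m := m) (l := l) (k := k) j hj
      rw [ty_b d j hj g, g, b1]
      simp [fourE]
      omega
    · have b1 := F_d (m := m) (l := l) (n := n) j
      have b2 := S_d (m := m) (l := l) (n := n) j hj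
      rw [ty_d d j g, g, b1]
      simp [fourE]
      omega
  · have a1 := F_d (m := m) (l := l) (n := n) i
    have a2 := S_d (m := m) (l := l) (n := n) i hi
    rw [ty_d c i h, h, a1]
    rcases blocks d.val d.isLt with ⟨j, hj, g⟩ | ⟨j, hj, g⟩ | ⟨j, hj, g⟩ | ⟨j, hj, g⟩
    · have g := g.symm
      have b1 := F_a (l := l) (n := n) j hj
      have b2 := S_a (l := l) (n := n) (k := k) j hj
      rw [ty_a d j hj g, g, b1]
      simp [fourE]
      omega
    · have b1 := F_y (m := m) (n := n) j hj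
      have b2 := S_y (m := m) (n := n) (k := k) j hj
      rw [ty_y d j hj g, g, b1]
      simp [fourE]
      omega
    · have b1 := F_b (m := m) (l := l) j hj
      have b2 := S_b (m := m) (l := l) (k := k) j hj
      rw [ty_b d j hj g, g, b1]
      simp [fourE]
      omega
    · have b1 := F_d (m := m) (l := l) (n := n) j
      have b2 := S_d (m := m) (l := l) (n := n) j hj
      rw [ty_d d j g, g, b1]
      simp [fourE]
      omega

end FFourAux

theorem exists_four (m l n k : ℕ) (hm0 : 0 < m) (hm : Even m) (hl0 : 0 < l) (hl : Even l)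
    (hn0 : 0 < n) (hn : Even n) (hk : Odd k) :
    ∃ C : PCode (m + l + n + k), ∀ c d, c ≠ d →
      (C.Int c d ↔ fourE (fourTy m l n k c) (fourTy m l n k d) = 1) := by
  refine ⟨FFourAux.code hm0 hl0 hn0 (Nat.even_iff.1 hm) (Nat.even_iff.1 hl) (Nat.even_iff.1 hn)
    (Nat.odd_iff.1 hk), fun c d hcd => ?_⟩
  exact FFourAux.int c d (fun h => hcd (Fin.ext h))

end Pool.H3F
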