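import Pool.Agent.H3F.FFill

/-! FIL1: the filled regions below the outer curves, extended. -/

namespace Pool.H3F

namespace FIL1Aux

/-- The function whose values are filled by the intermediate value theorem. -/
noncomputable def G (a r : ℝ) : ℝ :=
  2 * (1 - r) ^ 3 - 3 * (1 - r) * √(1 - 2 * r + 2 * r ^ 2 - a) ^ 2 +
    √(1 - 2 * r + 2 * r ^ 2 - a) ^ 3 - 2 * r ^ 3

theorem G_cont (a : ℝ) : Continuous (G a) := by
  have h1 : Continuous (fun r : ℝ => √(1 - 2 * r + 2 * r ^ 2 - a)) := by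
    apply Real.continuous_sqrt.comp
    fun_prop
  have h2 : Continuous (fun r : ℝ => 2 * (1 - r) ^ 3) := by fun_prop
  have h3 : Continuous (fun r : ℝ => 3 * (1 - r)) := by fun_prop
  have h4 : Continuous (fun r : ℝ => 2 * r ^ 3) := by fun_prop
  exact ((h2.sub (h3.mul (h1.pow 2))).add (h1.pow 3)).sub h4

theorem G_zero (a : ℝ) (ha1 : a ≤ 1) : G a 0 = 3 * a - 1 + √(1 - a) ^ 3 := by
  simp only [G]
  have e : (1 - 2 * 0 + 2 * (0 : ℝ) ^ 2 - a) = 1 - a := by ring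
  rw [e, Real.sq_sqrt (by linarith)]
  ring

theorem val (a r : ℝ) (hr0 : 0 ≤ r) (hr1 : r ≤ 1) (hra : r ^ 2 ≤ a)
    (hnn : 0 ≤ 1 - 2 * r + 2 * r ^ 2 - a) : (a / 8, G a r / 48) ∈ fishLimits := by
  unfold G
  set h := √(1 - 2 * r + 2 * r ^ 2 - a) with hh
  have hsq : h ^ 2 = 1 - 2 * r + 2 * r ^ 2 - a := Real.sq_sqrt hnn
  have h0 : 0 ≤ h := Real.sqrt_nonneg _
  have hle : h ≤ 1 - r := by
    apply Real.sqrt_le_iff.2
    constructor
    · linarith
    · nlinarith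
  have key := tail_point (1 - r - h) h r (by linarith) h0 hr0 (by ring)
  have e1 : ((1 - r - h) ^ 2 + 2 * (1 - r - h) * h + r ^ 2) / 8 = a / 8 := by
    have : (1 - r - h) ^ 2 + 2 * (1 - r - h) * h + r ^ 2 = (1 - r) ^ 2 + r ^ 2 - h ^ 2 := by ring
    rw [this, hsq]
    ring
  have e2 : (2 * (1 - r - h) ^ 3 + 6 * (1 - r - h) ^ 2 * h + 3 * (1 - r - h) * h ^ 2 -
      2 * r ^ 3) / 48 = (2 * (1 - r) ^ 3 - 3 * (1 - r) * h ^ 2 + h ^ 3 - 2 * r ^ 3) / 48 := by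
    ring
  rw [e1, e2] at key
  exact key

theorem pos (a b : ℝ) (ha : 0 ≤ a) (ha1 : a ≤ 1) (hb0 : 0 ≤ b)
    (hb : b ≤ 3 * a - 1 + √(1 - a) ^ 3)
    (hb2 : 1 / 2 ≤ a → √(2 * a - 1) * (1 + a) ≤ b) : (a / 8, b / 48) ∈ fishLimits := by
  -- the right end of the interval
  obtain ⟨r1, hr10, hr11, hra, hnn, hG1⟩ : ∃ r1 : ℝ, 0 ≤ r1 ∧ r1 ≤ 1 ∧ r1 ^ 2 ≤ a ∧
      (∀ r, 0 ≤ r → r ≤ r1 → 0 ≤ 1 - 2 * r + 2 * r ^ 2 - a) ∧ G a r1 ≤ b := by
    by_cases h : 1 / 2 ≤ a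
    · have hd := Real.sq_sqrt (show 0 ≤ 2 * a - 1 by linarith)
      have hd0 := Real.sqrt_nonneg (2 * a - 1)
      set δ := √(2 * a - 1) with hδ
      have hd1 : δ ≤ 1 := by nlinarith
      refine ⟨(1 - δ) / 2, by linarith, by linarith, by nlinarith, ?_, ?_⟩
      · intro r h1 h2
        have h3 : δ ≤ 1 - 2 * r := by linarith
        nlinarith
      · have e : (1 - 2 * ((1 - δ) / 2) + 2 * ((1 - δ) / 2) ^ 2 - a) = 0 := by
          have : (1 - 2 * ((1 - δ) / 2) + 2 * ((1 - δ) / 2) ^ 2 - a) = (δ ^ 2 + 1) / 2 - a := by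
            ring
          rw [this, hd]
          ring
        simp only [G]
        rw [e, Real.sqrt_zero]
        have e2 : 2 * (1 - (1 - δ) / 2) ^ 3 - 3 * (1 - (1 - δ) / 2) * (0 : ℝ) ^ 2 + 0 ^ 3 -
            2 * ((1 - δ) / 2) ^ 3 = δ * (3 + δ ^ 2) / 2 := by ring
        rw [e2, hd]
        have := hb2 h
        linarith
    · push Not at h
      by_cases h4 : 1 / 4 ≤ a
      · refine ⟨1 / 2, by norm_num, by norm_num, by linarith, ?_, ?_⟩
        · intro r _ _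
          nlinarith [sq_nonneg (1 - 2 * r)]
        · simp only [G]
          have e : (1 - 2 * (1 / 2) + 2 * (1 / 2 : ℝ) ^ 2 - a) = 1 / 2 - a := by ring
          rw [e]
          have hs := Real.sq_sqrt (show 0 ≤ 1 / 2 - a by linarith)
          have hs0 := Real.sqrt_nonneg (1 / 2 - a)
          set w := √(1 / 2 - a)
          have hw1 : w ≤ 1 := by nlinarith
          have e3 : w ^ 3 = w * w ^ 2 := by ring
          have : w ^ 3 ≤ w ^ 2 := by
            rw [e3]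
            nlinarith [sq_nonneg w]
          nlinarith [sq_nonneg w]
      · push Not at h4
        have hs := Real.sq_sqrt ha
        have hs0 := Real.sqrt_nonneg a
        set s := √a with hs'
        have hs1 : s ≤ 1 / 2 := by nlinarith
        refine ⟨s, hs0, by linarith, hs.le, ?_, ?_⟩
        · intro r h1 h2
          nlinarith [sq_nonneg (1 - 2 * r), sq_nonneg r]
        · have e : (1 - 2 * s + 2 * s ^ 2 - a) = (1 - s) ^ 2 := by rw [← hs]; ring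
          simp only [G]
          rw [e, Real.sqrt_sq (by linarith)]
          have e2 : 2 * (1 - s) ^ 3 - 3 * (1 - s) * (1 - s) ^ 2 + (1 - s) ^ 3 - 2 * s ^ 3 =
              -(2 * s ^ 3) := by ring
          rw [e2]
          have : 0 ≤ s ^ 3 := pow_nonneg hs0 3
          linarith
  have hmem : b ∈ Set.Icc (G a r1) (G a 0) := ⟨hG1, by rw [G_zero a ha1]; exact hb⟩
  obtain ⟨r, hr, hGr⟩ := intermediate_value_Icc' hr10 (G_cont a).continuousOn hmem
  have hr2 : r ^ 2 ≤ r1 ^ 2 := pow_le_pow_left₀ hr.1 hr.2 2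
  have := val a r hr.1 (hr.2.trans hr11) (hr2.trans hra) (hnn r hr.1 hr.2)
  rw [hGr] at this
  exact this

end FIL1Aux

theorem tail_fill0 (a b : ℝ) (ha : 0 ≤ a) (ha1 : a ≤ 1)
    (hb : |b| ≤ 3 * a - 1 + √(1 - a) ^ 3)
    (hb2 : 1 / 2 ≤ a → √(2 * a - 1) * (1 + a) ≤ |b|) : (a / 8, b / 48) ∈ fishLimits := by
  rcases le_total 0 b with h | h
  · rw [abs_of_nonneg h] at hb hb2
    exact FIL1Aux.pos a b ha ha1 h hb hb2
  · rw [abs_of_nonpos h] at hb hb2
    have := fishLimits_mirror _ (FIL1Aux.pos a (-b) ha ha1 (by linarith) hb hb2)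
    have e : -(-b / 48) = b / 48 := by ring
    simp only [e] at this
    exact this

theorem left_fill0 (a b : ℝ) (ha : a ≤ 0) (ha1 : -(1 / 2) ≤ a)
    (hb : |b| ≤ -(3 / 2) * a * √(1 + 2 * a)) : (a / 8, b / 48) ∈ fishLimits := by
  rcases eq_or_lt_of_le ha with h0 | hc'
  · subst h0
    have hb0 : b = 0 := by
      have : |b| ≤ 0 := by simpa using hb
      exact abs_nonpos_iff.1 this
    subst hb0
    have key := left_point 0 0 1 (le_refl _) (le_refl _) (by norm_num) (by norm_num)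
    have e1 : -(2 * (0 : ℝ) * 0) / 8 = 0 / 8 := by norm_num
    have e2 : (3 * (0 : ℝ) * 0 * (0 - 0)) / 48 = 0 / 48 := by norm_num
    rw [e1, e2] at key
    exact key
  have hc : 0 < -a := by linarith
  have hs := Real.sq_sqrt (show 0 ≤ 1 + 2 * a by linarith)
  have hs0 := Real.sqrt_nonneg (1 + 2 * a)
  set w := √(1 + 2 * a) with hw
  -- D
  obtain ⟨Dd, hD⟩ : ∃ D : ℝ, D * (3 * (-a)) = 2 * b :=
    ⟨2 * b / (3 * (-a)), div_mul_cancel₀ _ (ne_of_gt (by linarith))⟩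
  have hDw : |Dd| ≤ w := by
    have h3 : |Dd| * (3 * (-a)) = 2 * |b| := by
      rw [← abs_of_pos (show (0 : ℝ) < 3 * (-a) by linarith), ← abs_mul, hD, abs_mul]
      norm_num
    have h4 : |Dd| * (3 * (-a)) ≤ w * (3 * (-a)) := by
      rw [h3]
      nlinarith
    exact le_of_mul_le_mul_right h4 (by linarith)
  have hD2 : Dd ^ 2 ≤ 1 + 2 * a := by
    rw [← hs, ← sq_abs Dd]
    exact pow_le_pow_left₀ (abs_nonneg _) hDw 2
  have hSnn : 0 ≤ Dd ^ 2 + 2 * (-a) := by positivity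
  have hS := Real.sq_sqrt hSnn
  have hS0 := Real.sqrt_nonneg (Dd ^ 2 + 2 * (-a))
  set Ss := √(Dd ^ 2 + 2 * (-a)) with hSs
  have hS1 : Ss ≤ 1 := by nlinarith
  have hDS : |Dd| ≤ Ss := by
    apply Real.le_sqrt_of_sq_le
    rw [sq_abs]
    linarith
  rw [abs_le] at hDS
  have key := left_point ((Ss - Dd) / 2) ((Ss + Dd) / 2) (1 - Ss) (by linarith) (by linarith)
    (by linarith) (by ring)
  have e0 : (Ss - Dd) / 2 * ((Ss + Dd) / 2) = -a / 2 := by
    have : (Ss - Dd) / 2 * ((Ss + Dd) / 2) = (Ss ^ 2 - Dd ^ 2) / 4 := by ring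
    rw [this, hS]
    ring
  have e1 : -(2 * ((Ss - Dd) / 2) * ((Ss + Dd) / 2)) / 8 = a / 8 := by
    have : 2 * ((Ss - Dd) / 2) * ((Ss + Dd) / 2) = 2 * ((Ss - Dd) / 2 * ((Ss + Dd) / 2)) := by
      ring
    rw [this, e0]
    ring
  have e2 : (3 * ((Ss - Dd) / 2) * ((Ss + Dd) / 2) * ((Ss + Dd) / 2 - (Ss - Dd) / 2)) / 48 =
      b / 48 := by
    have : 3 * ((Ss - Dd) / 2) * ((Ss + Dd) / 2) * ((Ss + Dd) / 2 - (Ss - Dd) / 2) =
        3 * ((Ss - Dd) / 2 * ((Ss + Dd) / 2)) * Dd := by ring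
    rw [this, e0]
    have : 3 * (-a / 2) * Dd = b := by linarith
    rw [this]
  rw [e1, e2] at key
  exact key

/-- The curve of the scaled torus knots lies below the upper curve. -/
theorem torus_le_up (a : ℝ) (ha : 0 ≤ a) (ha1 : a ≤ 1) :
    2 * √a ^ 3 ≤ 3 * a - 1 + √(1 - a) ^ 3 := by
  have hs := Real.sq_sqrt ha
  have hs0 := Real.sqrt_nonneg a
  have ht := Real.sq_sqrt (show 0 ≤ 1 - a by linarith)
  have ht0 := Real.sqrt_nonneg (1 - a)
  set s := √a with hs'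
  set t := √(1 - a) with ht'
  have hs1 : s ≤ 1 := by nlinarith
  have ht2 : t ^ 2 = (1 - s) * (1 + s) := by rw [ht, ← hs]; ring
  have e1 : 1 - 3 * a + 2 * s ^ 3 = (1 - s) ^ 2 * (1 + 2 * s) := by rw [← hs]; ring
  have h0 : 0 ≤ 1 - s := by linarith
  have key : ((1 - s) ^ 2 * (1 + 2 * s)) ^ 2 ≤ (t ^ 3) ^ 2 := by
    have e2 : (t ^ 3) ^ 2 = ((1 - s) * (1 + s)) ^ 3 := by rw [← ht2]; ring
    rw [e2]
    have e3 : ((1 - s) * (1 + s)) ^ 3 - ((1 - s) ^ 2 * (1 + 2 * s)) ^ 2 =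
        (1 - s) ^ 3 * (3 * s ^ 2 + 5 * s ^ 3) := by
      ring
    have h3 : 0 ≤ (1 - s) ^ 3 := pow_nonneg h0 3
    have h4 : 0 ≤ (1 - s) ^ 3 * (3 * s ^ 2 + 5 * s ^ 3) := by positivity
    nlinarith
  have hle := (le_abs_self _).trans (abs_le_of_sq_le_sq key (by positivity))
  linarith

end Pool.H3F
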