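import Pool.Agent.H3F.FDefs

/-! The family of the left end: word `a_0 .. a_{m-1} b_0 .. b_{n-1} a_{m-1} .. a_0
b_{n-1} .. b_0 c_0 c_0 c_1 c_1 .. c_{k-1} c_{k-1}`. -/

namespace Pool.H3F

open Finset

/-- Interlacement matrix of the blocks (`tailTy` gives the block of a chord). -/
def leftE : Fin 3 → Fin 3 → ℝ := ![![0, 1, 0], ![1, 0, 0], ![0, 0, 0]]

/-- Block of a chord. -/
def leftTy (m n k : ℕ) (c : Fin (m + n + k)) : Fin 3 :=
  if c.val < m then 0 else if c.val < m + n then 1 else 2

namespace FLeftAux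

/-- First passage. -/
def ff (m n c : ℕ) : ℕ := if c < m + n then c else 2 * c

/-- Second passage. -/
def ss (m n c : ℕ) : ℕ :=
  if c < m then 2 * m + n - 1 - c else if c < m + n then 3 * m + 2 * n - 1 - c else 2 * c + 1

/-- Type of the crossing. -/
def tt (m n c : ℕ) : Bool :=
  if c < m then decide (c % 2 = 0) else if c < m + n then decide (c % 2 = 1) else true

/-- Faces on the left. -/
def ll (m n x : ℕ) : ℕ :=
  if x < m then (if x % 2 = 0 then 0 else if x < m - 1 then 4 + x else 3)
  else if x < m + n then (if x % 2 = 0 then 3 + x else 3)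
  else if x < 2 * m + n then
    (if x % 2 = 0 then 1 else if x = 2 * m + n - 1 then 2 else 2 * m + n + 2 - x)
  else if x < 2 * m + 2 * n then (if x % 2 = 0 then 3 * m + 2 * n + 1 - x else 2)
  else (if x % 2 = 0 then 1 else 2)

/-- Faces on the right. -/
def rr (m n x : ℕ) : ℕ :=
  if x < m then (if x % 2 = 0 then 4 + x else 1)
  else if x < m + n then (if x % 2 = 0 then 2 else if x < m + n - 1 then 3 + x else 0)
  else if x < 2 * m + n then (if x % 2 = 0 then 2 * m + n + 2 - x else 0)
  else if x < 2 * m + 2 * n then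
    (if x % 2 = 0 then 3 else if x = 2 * m + 2 * n - 1 then 1 else 3 * m + 2 * n + 1 - x)
  else (if x % 2 = 0 then 2 + x / 2 else 1)

variable {m n : ℕ}

section values

variable {x : ℕ}

theorem l1 (h : x < m) (h' : x % 2 = 0) : ll m n x = 0 := by
  unfold ll; rw [if_pos h, if_pos h']

theorem l2 (h : x < m - 1) (h' : x % 2 = 1) : ll m n x = 4 + x := by
  unfold ll; rw [if_pos (by omega), if_neg (by omega), if_pos h]

theorem l3 (hm : 0 < m) (h : x = m - 1) (h' : x % 2 = 1) : ll m n x = 3 := by
  unfold ll; rw [if_pos (by omega), if_neg (by omega), if_neg (by omega)]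

theorem l4 (h : m ≤ x) (h2 : x < m + n) (h' : x % 2 = 0) : ll m n x = 3 + x := by
  unfold ll; rw [if_neg (by omega), if_pos h2, if_pos h']

theorem l5 (h : m ≤ x) (h2 : x < m + n) (h' : x % 2 = 1) : ll m n x = 3 := by
  unfold ll; rw [if_neg (by omega), if_pos h2, if_neg (by omega)]

theorem l6 (h : m + n ≤ x) (h2 : x < 2 * m + n) (h' : x % 2 = 0) : ll m n x = 1 := by
  unfold ll; rw [if_neg (by omega), if_neg (by omega), if_pos h2, if_pos h']

theorem l7 (hm : 0 < m) (h : x = 2 * m + n - 1) (h' : x % 2 = 1) : ll m n x = 2 := by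
  unfold ll
  rw [if_neg (by omega), if_neg (by omega), if_pos (by omega), if_neg (by omega), if_pos h]

theorem l8 (h : m + n ≤ x) (h2 : x < 2 * m + n - 1) (h' : x % 2 = 1) :
    ll m n x = 2 * m + n + 2 - x := by
  unfold ll
  rw [if_neg (by omega), if_neg (by omega), if_pos (by omega), if_neg (by omega),
    if_neg (by omega)]

theorem l9 (h : 2 * m + n ≤ x) (h2 : x < 2 * m + 2 * n) (h' : x % 2 = 0) :
    ll m n x = 3 * m + 2 * n + 1 - x := by
  unfold ll
  rw [if_neg (by omega), if_neg (by omega), if_neg (by omega), if_pos h2, if_pos h']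

theorem l10 (h : 2 * m + n ≤ x) (h2 : x < 2 * m + 2 * n) (h' : x % 2 = 1) :
    ll m n x = 2 := by
  unfold ll
  rw [if_neg (by omega), if_neg (by omega), if_neg (by omega), if_pos h2, if_neg (by omega)]

theorem l11 (h : 2 * m + 2 * n ≤ x) (h' : x % 2 = 0) : ll m n x = 1 := by
  unfold ll
  rw [if_neg (by omega), if_neg (by omega), if_neg (by omega), if_neg (by omega), if_pos h']

theorem l12 (h : 2 * m + 2 * n ≤ x) (h' : x % 2 = 1) : ll m n x = 2 := by
  unfold ll
  rw [if_neg (by omega), if_neg (by omega), if_neg (by omega), if_neg (by omega),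
    if_neg (by omega)]

theorem r1 (h : x < m) (h' : x % 2 = 0) : rr m n x = 4 + x := by
  unfold rr; rw [if_pos h, if_pos h']

theorem r2 (h : x < m) (h' : x % 2 = 1) : rr m n x = 1 := by
  unfold rr; rw [if_pos h, if_neg (by omega)]

theorem r3 (h : m ≤ x) (h2 : x < m + n) (h' : x % 2 = 0) : rr m n x = 2 := by
  unfold rr; rw [if_neg (by omega), if_pos h2, if_pos h']

theorem r4 (h : m ≤ x) (h2 : x < m + n - 1) (h' : x % 2 = 1) : rr m n x = 3 + x := by
  unfold rr; rw [if_neg (by omega), if_pos (by omega), if_neg (by omega), if_pos h2]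

theorem r5 (h : m ≤ x) (hn : 0 < n) (h2 : x = m + n - 1) (h' : x % 2 = 1) : rr m n x = 0 := by
  unfold rr; rw [if_neg (by omega), if_pos (by omega), if_neg (by omega), if_neg (by omega)]

theorem r6 (h : m + n ≤ x) (h2 : x < 2 * m + n) (h' : x % 2 = 0) :
    rr m n x = 2 * m + n + 2 - x := by
  unfold rr; rw [if_neg (by omega), if_neg (by omega), if_pos h2, if_pos h']

theorem r7 (h : m + n ≤ x) (h2 : x < 2 * m + n) (h' : x % 2 = 1) : rr m n x = 0 := by
  unfold rr; rw [if_neg (by omega), if_neg (by omega), if_pos h2, if_neg (by omega)]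

theorem r8 (h : 2 * m + n ≤ x) (h2 : x < 2 * m + 2 * n) (h' : x % 2 = 0) : rr m n x = 3 := by
  unfold rr
  rw [if_neg (by omega), if_neg (by omega), if_neg (by omega), if_pos h2, if_pos h']

theorem r9 (hn : 0 < n) (h2 : x = 2 * m + 2 * n - 1) (h' : x % 2 = 1) : rr m n x = 1 := by
  unfold rr
  rw [if_neg (by omega), if_neg (by omega), if_neg (by omega), if_pos (by omega),
    if_neg (by omega), if_pos h2]

theorem r10 (h : 2 * m + n ≤ x) (h2 : x < 2 * m + 2 * n - 1) (h' : x % 2 = 1) :
    rr m n x = 3 * m + 2 * n + 1 - x := by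
  unfold rr
  rw [if_neg (by omega), if_neg (by omega), if_neg (by omega), if_pos (by omega),
    if_neg (by omega), if_neg (by omega)]

theorem r11 (h : 2 * m + 2 * n ≤ x) (h' : x % 2 = 0) : rr m n x = 2 + x / 2 := by
  unfold rr
  rw [if_neg (by omega), if_neg (by omega), if_neg (by omega), if_neg (by omega), if_pos h']

theorem r12 (h : 2 * m + 2 * n ≤ x) (h' : x % 2 = 1) : rr m n x = 1 := by
  unfold rr
  rw [if_neg (by omega), if_neg (by omega), if_neg (by omega), if_neg (by omega),
    if_neg (by omega)]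

end values

theorem prd_zero (N : ℕ) : prd N 0 = 2 * N - 1 := if_pos rfl

theorem prd_pos {N x : ℕ} (h : 0 < x) : prd N x = x - 1 := if_neg (by omega)

theorem c1 (hm : 0 < m) (hm2 : m % 2 = 0) (hn0 : 0 < n) (hn : n % 2 = 0) (N c q : ℕ)
    (hN : m + n ≤ N) (h1 : c < m) (h2 : c % 2 = 0) (hq : q = 2 * m + n - 1 - c) :
    ll m n c = rr m n q ∧ ll m n (prd N c) = ll m n q ∧ rr m n (prd N c) = ll m n (prd N q) ∧
      rr m n c = rr m n (prd N q) := by
  have e1 : prd N q = q - 1 := prd_pos (by omega)
  rw [e1, l1 h1 h2, r7 (x := q) (by omega) (by omega) (by omega),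
    l6 (x := q - 1) (by omega) (by omega) (by omega), r1 h1 h2,
    r6 (x := q - 1) (by omega) (by omega) (by omega)]
  refine ⟨rfl, ?_, ?_, by omega⟩
  · rcases Nat.eq_zero_or_pos c with rfl | hc
    · rw [prd_zero, l7 (x := q) hm (by omega) (by omega)]
      rcases Nat.lt_or_ge (m + n) N with hN' | hN'
      · rw [l12 (by omega) (by omega)]
      · rw [l10 (by omega) (by omega) (by omega)]
    · rw [prd_pos hc, l2 (by omega) (by omega), l8 (by omega) (by omega) (by omega)]
      omega
  · rcases Nat.eq_zero_or_pos c with rfl | hc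
    · rw [prd_zero]
      rcases Nat.lt_or_ge (m + n) N with hN' | hN'
      · rw [r12 (by omega) (by omega)]
      · rw [r9 hn0 (by omega) (by omega)]
    · rw [prd_pos hc, r2 (by omega) (by omega)]

theorem c2 (hm2 : m % 2 = 0) (hn0 : 0 < n) (hn : n % 2 = 0) (N c p : ℕ)
    (h1 : c < m) (h2 : c % 2 = 1) (hp : p = 2 * m + n - 1 - c) :
    ll m n p = rr m n c ∧ ll m n (prd N p) = ll m n c ∧ rr m n (prd N p) = ll m n (prd N c) ∧
      rr m n p = rr m n (prd N c) := by
  have e1 : prd N p = p - 1 := prd_pos (by omega)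
  have e2 : prd N c = c - 1 := prd_pos (by omega)
  rw [e1, e2, l6 (x := p) (by omega) (by omega) (by omega), r2 h1 h2,
    l1 (x := c - 1) (by omega) (by omega), r6 (x := p) (by omega) (by omega) (by omega),
    r1 (x := c - 1) (by omega) (by omega)]
  refine ⟨rfl, ?_, ?_, by omega⟩
  · rcases Nat.lt_or_ge c (m - 1) with hc | hc
    · rw [l8 (by omega) (by omega) (by omega), l2 hc h2]
      omega
    · rw [l5 (by omega) (by omega) (by omega), l3 (x := c) (by omega) (by omega) (by omega)]
  · rcases Nat.lt_or_ge c (m - 1) with hc | hc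
    · rw [r7 (by omega) (by omega) (by omega)]
    · rw [r5 (by omega) hn0 (by omega) (by omega)]

theorem c3 (hm : 0 < m) (hm2 : m % 2 = 0) (hn : n % 2 = 0) (N c q : ℕ)
    (h0 : m ≤ c) (h1 : c < m + n) (h2 : c % 2 = 1) (hq : q = 3 * m + 2 * n - 1 - c) :
    ll m n c = rr m n q ∧ ll m n (prd N c) = ll m n q ∧ rr m n (prd N c) = ll m n (prd N q) ∧
      rr m n c = rr m n (prd N q) := by
  have e1 : prd N q = q - 1 := prd_pos (by omega)
  have e2 : prd N c = c - 1 := prd_pos (by omega)
  rw [e1, e2, l5 h0 h1 h2, r8 (x := q) (by omega) (by omega) (by omega),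
    l4 (x := c - 1) (by omega) (by omega) (by omega),
    l9 (x := q) (by omega) (by omega) (by omega),
    r3 (x := c - 1) (by omega) (by omega) (by omega)]
  refine ⟨rfl, by omega, ?_, ?_⟩
  · rcases Nat.lt_or_ge c (m + n - 1) with hc | hc
    · rw [l10 (by omega) (by omega) (by omega)]
    · rw [l7 hm (by omega) (by omega)]
  · rcases Nat.lt_or_ge c (m + n - 1) with hc | hc
    · rw [r4 h0 hc h2, r10 (by omega) (by omega) (by omega)]
      omega
    · rw [r5 h0 (by omega) (by omega) h2, r7 (by omega) (by omega) (by omega)]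

theorem c4 (hm : 0 < m) (hm2 : m % 2 = 0) (hn : n % 2 = 0) (N c p : ℕ)
    (h0 : m ≤ c) (h1 : c < m + n) (h2 : c % 2 = 0) (hp : p = 3 * m + 2 * n - 1 - c) :
    ll m n p = rr m n c ∧ ll m n (prd N p) = ll m n c ∧ rr m n (prd N p) = ll m n (prd N c) ∧
      rr m n p = rr m n (prd N c) := by
  have e1 : prd N p = p - 1 := prd_pos (by omega)
  have e2 : prd N c = c - 1 := prd_pos (by omega)
  rw [e1, e2, l10 (x := p) (by omega) (by omega) (by omega), r3 h0 h1 h2,
    l9 (x := p - 1) (by omega) (by omega) (by omega), l4 h0 h1 h2,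
    r8 (x := p - 1) (by omega) (by omega) (by omega)]
  refine ⟨rfl, by omega, ?_, ?_⟩
  · rcases Nat.lt_or_ge m c with hc | hc
    · rw [l5 (by omega) (by omega) (by omega)]
    · rw [l3 hm (by omega) (by omega)]
  · rcases Nat.lt_or_ge m c with hc | hc
    · rw [r10 (by omega) (by omega) (by omega), r4 (by omega) (by omega) (by omega)]
      omega
    · rw [r9 (by omega) (by omega) (by omega), r2 (by omega) (by omega)]

theorem c5 (hn0 : 0 < n) (N c : ℕ) (h0 : m + n ≤ c) :
    ll m n (2 * c) = rr m n (2 * c + 1) ∧ ll m n (prd N (2 * c)) = ll m n (2 * c + 1) ∧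
      rr m n (prd N (2 * c)) = ll m n (prd N (2 * c + 1)) ∧
      rr m n (2 * c) = rr m n (prd N (2 * c + 1)) := by
  have e1 : prd N (2 * c + 1) = 2 * c := prd_pos (by omega)
  have e2 : prd N (2 * c) = 2 * c - 1 := prd_pos (by omega)
  rw [e1, e2, l11 (x := 2 * c) (by omega) (by omega), r12 (x := 2 * c + 1) (by omega) (by omega),
    l12 (x := 2 * c + 1) (by omega) (by omega)]
  refine ⟨rfl, ?_, ?_, rfl⟩
  · rcases Nat.lt_or_ge (m + n) c with hc | hc
    · rw [l12 (by omega) (by omega)]
    · rw [l10 (by omega) (by omega) (by omega)]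
  · rcases Nat.lt_or_ge (m + n) c with hc | hc
    · rw [r12 (by omega) (by omega)]
    · rw [r9 hn0 (by omega) (by omega)]

theorem surj (hm : 0 < m) (hm2 : m % 2 = 0) (hn0 : 0 < n) (hn : n % 2 = 0) (N x : ℕ)
    (hN : m + n ≤ N) (hx : x < N + 2) : ∃ j < 2 * N, ll m n j = x ∨ rr m n j = x := by
  by_cases h0 : x = 0
  · exact ⟨0, by omega, Or.inl (by rw [l1 (by omega) (by omega), h0])⟩
  by_cases h1 : x = 1
  · exact ⟨1, by omega, Or.inr (by rw [r2 (by omega) (by omega), h1])⟩
  by_cases h2 : x = 2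
  · exact ⟨m, by omega, Or.inr (by rw [r3 (by omega) (by omega) (by omega), h2])⟩
  by_cases h3 : x = 3
  · exact ⟨m - 1, by omega, Or.inl (by rw [l3 (by omega) (by omega) (by omega), h3])⟩
  by_cases h4 : x < m + 3
  · refine ⟨x - 4, by omega, ?_⟩
    by_cases h5 : x % 2 = 0
    · exact Or.inr (by rw [r1 (by omega) (by omega)]; omega)
    · exact Or.inl (by rw [l2 (by omega) (by omega)]; omega)
  by_cases h5 : x < m + n + 2
  · refine ⟨x - 3, by omega, ?_⟩
    by_cases h6 : x % 2 = 1
    · exact Or.inl (by rw [l4 (by omega) (by omega) (by omega)]; omega)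
    · exact Or.inr (by rw [r4 (by omega) (by omega) (by omega)]; omega)
  · exact ⟨2 * (x - 2), by omega, Or.inr (by rw [r11 (by omega) (by omega)]; omega)⟩

theorem ll_lt (hm : 0 < m) (hm2 : m % 2 = 0) (hn0 : 0 < n) (hn : n % 2 = 0) (N x : ℕ)
    (hN : m + n ≤ N) (hx : x < 2 * N) : ll m n x < N + 2 := by
  unfold ll
  split_ifs <;> omega

theorem rr_lt (hm : 0 < m) (hm2 : m % 2 = 0) (hn0 : 0 < n) (hn : n % 2 = 0) (N x : ℕ)
    (hN : m + n ≤ N) (hx : x < 2 * N) : rr m n x < N + 2 := by
  unfold rr
  split_ifs <;> omega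

theorem fs1 {c : ℕ} (h : c < m) : ff m n c = c ∧ ss m n c = 2 * m + n - 1 - c := by
  unfold ff ss
  rw [if_pos (by omega), if_pos h]
  exact ⟨rfl, rfl⟩

theorem fs2 {c : ℕ} (h : m ≤ c) (h' : c < m + n) :
    ff m n c = c ∧ ss m n c = 3 * m + 2 * n - 1 - c := by
  unfold ff ss
  rw [if_pos (by omega), if_neg (by omega), if_pos h']
  exact ⟨rfl, rfl⟩

theorem fs3 {c : ℕ} (h : m + n ≤ c) : ff m n c = 2 * c ∧ ss m n c = 2 * c + 1 := by
  unfold ff ss
  rw [if_neg (by omega), if_neg (by omega), if_neg (by omega)]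
  exact ⟨rfl, rfl⟩

end FLeftAux

open FLeftAux in
theorem exists_left (m n k : ℕ) (hm : 0 < m) (hm2 : Even m) (hn0 : 0 < n) (hn : Even n) :
    ∃ C : PCode (m + n + k), ∀ c d, c ≠ d →
      (C.Int c d ↔ leftE (leftTy m n k c) (leftTy m n k d) = 1) := by
  rw [Nat.even_iff] at hm2 hn
  let C : PCode (m + n + k) :=
    { f := fun c => ff m n c.val
      s := fun c => ss m n c.val
      t := fun c => tt m n c.val
      l := ll m n
      r := rr m n
      lt := by
        intro c
        have := c.isLt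
        show ff m n c.val < ss m n c.val
        unfold ff ss; split_ifs <;> omega
      lt2 := by
        intro c
        have := c.isLt
        show ss m n c.val < 2 * (m + n + k)
        unfold ss; split_ifs <;> omega
      injf := by
        intro c d h
        have h1 : ff m n c.val = ff m n d.val := h
        ext
        unfold ff at h1; split_ifs at h1 <;> omega
      injs := by
        intro c d h
        have h1 : ss m n c.val = ss m n d.val := h
        ext
        unfold ss at h1; split_ifs at h1 <;> omega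
      ne := by
        intro c d h
        have h1 : ff m n c.val = ss m n d.val := h
        unfold ff ss at h1; split_ifs at h1 <;> omega
      l_lt := fun j hj => ll_lt hm hm2 hn0 hn _ j (by omega) hj
      r_lt := fun j hj => rr_lt hm hm2 hn0 hn _ j (by omega) hj
      surj := fun x hx => surj hm hm2 hn0 hn _ x (by omega) hx
      cornerP := by
        intro c ht
        have ht' : tt m n c.val = true := ht
        unfold tt at ht'
        show ll m n (ff m n c.val) = rr m n (ss m n c.val) ∧
          ll m n (prd _ (ff m n c.val)) = ll m n (ss m n c.val) ∧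
          rr m n (prd _ (ff m n c.val)) = ll m n (prd _ (ss m n c.val)) ∧
          rr m n (ff m n c.val) = rr m n (prd _ (ss m n c.val))
        by_cases h1 : c.val < m
        · rw [if_pos h1] at ht'
          rw [(fs1 h1).1]
          exact c1 hm hm2 hn0 hn _ _ _ (by omega) h1 (of_decide_eq_true ht') (fs1 h1).2
        · rw [if_neg h1] at ht'
          by_cases h2 : c.val < m + n
          · rw [if_pos h2] at ht'
            rw [(fs2 (not_lt.mp h1) h2).1]
            exact c3 hm hm2 hn _ _ _ (not_lt.mp h1) h2 (of_decide_eq_true ht')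
              (fs2 (not_lt.mp h1) h2).2
          · rw [(fs3 (not_lt.mp h2)).1, (fs3 (not_lt.mp h2)).2]
            exact c5 hn0 _ _ (not_lt.mp h2)
      cornerN := by
        intro c ht
        have ht' : tt m n c.val = false := ht
        unfold tt at ht'
        show ll m n (ss m n c.val) = rr m n (ff m n c.val) ∧
          ll m n (prd _ (ss m n c.val)) = ll m n (ff m n c.val) ∧
          rr m n (prd _ (ss m n c.val)) = ll m n (prd _ (ff m n c.val)) ∧
          rr m n (ss m n c.val) = rr m n (prd _ (ff m n c.val))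
        by_cases h1 : c.val < m
        · rw [if_pos h1] at ht'
          have h3 := of_decide_eq_false ht'
          rw [(fs1 h1).1]
          exact c2 hm2 hn0 hn _ _ _ h1 (by omega) (fs1 h1).2
        · rw [if_neg h1] at ht'
          by_cases h2 : c.val < m + n
          · rw [if_pos h2] at ht'
            have h3 := of_decide_eq_false ht'
            rw [(fs2 (not_lt.mp h1) h2).1]
            exact c4 hm hm2 hn _ _ _ (not_lt.mp h1) h2 (by omega) (fs2 (not_lt.mp h1) h2).2
          · rw [if_neg h2] at ht'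
            exact absurd ht' (by simp) }
  refine ⟨C, fun c d hcd => ?_⟩
  have hcd' : c.val ≠ d.val := fun h => hcd (Fin.ext h)
  have hc := c.isLt
  have hd := d.isLt
  have hI : C.Int c d ↔ ((ff m n c.val < ff m n d.val ∧ ff m n d.val < ss m n c.val ∧
      ss m n c.val < ss m n d.val) ∨ (ff m n d.val < ff m n c.val ∧ ff m n c.val < ss m n d.val ∧
      ss m n d.val < ss m n c.val)) := Iff.rfl
  rw [hI]
  have hE : leftE (leftTy m n k c) (leftTy m n k d) = 1 ↔
      ((c.val < m ∧ m ≤ d.val ∧ d.val < m + n) ∨ (d.val < m ∧ m ≤ c.val ∧ c.val < m + n)) := by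
    unfold leftTy
    split_ifs with h1 h2 h3 h4 h5 h6 h7 <;> simp [leftE] <;> omega
  rw [hE]
  unfold ff ss
  split_ifs <;> omega

end Pool.H3F
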