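import Pool.Agent.H3F.FDefs

/-! A planar code and arbitrary crossing signs give a diagram. -/

namespace Pool.H3F

open Finset

namespace FMkAux

theorem pos {n : ℕ} (C : PCode n) : 0 < n := by
  obtain ⟨j, hj, -⟩ := C.surj 0 (by omega)
  omega

theorem val_natCast {n a : ℕ} (ha : a < 2 * n) : ((a : ℕ) : ZMod (2 * n)).val = a :=
  ZMod.val_natCast_of_lt ha

theorem val_sub_one {n : ℕ} (hn : 0 < n) (p : ZMod (2 * n)) : (p - 1).val = prd n p.val := by
  have : NeZero (2 * n) := ⟨by omega⟩
  have hp := ZMod.val_lt p
  have h1 : p - 1 = ((prd n p.val : ℕ) : ZMod (2 * n)) := by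
    unfold prd
    split_ifs with h
    · have h2 : p = 0 := (ZMod.val_eq_zero p).mp h
      rw [h2, Nat.cast_sub (by omega), ZMod.natCast_self, Nat.cast_one]
    · rw [Nat.cast_sub (by omega), Nat.cast_one, ZMod.natCast_zmod_val]
  rw [h1]
  apply val_natCast
  unfold prd
  split_ifs <;> omega

end FMkAux

open FMkAux in
theorem exists_diagram {n : ℕ} (C : PCode n) (ε : Fin n → Bool) :
    ∃ D : KnotDiagram n, (∀ c, D.sgn c = sgb (ε c)) ∧ (∀ c, D.fst c = C.f c) ∧
      (∀ c, D.snd c = C.s c) ∧ ∀ c d, D.Inter c d ↔ C.Int c d := by
  have hn := pos C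
  have : NeZero (2 * n) := ⟨by omega⟩
  have hf : ∀ c, C.f c < 2 * n := fun c => (C.lt c).trans (C.lt2 c)
  set ov : Fin n → ZMod (2 * n) := fun c => if C.t c = ε c then (C.f c : ZMod (2 * n)) else
    (C.s c : ZMod (2 * n)) with hov
  set un : Fin n → ZMod (2 * n) := fun c => if C.t c = ε c then (C.s c : ZMod (2 * n)) else
    (C.f c : ZMod (2 * n)) with hun
  have vov : ∀ c, (ov c).val = if C.t c = ε c then C.f c else C.s c := by
    intro c
    simp only [hov]
    split_ifs
    · exact val_natCast (hf c)
    · exact val_natCast (C.lt2 c)
  have vun : ∀ c, (un c).val = if C.t c = ε c then C.s c else C.f c := by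
    intro c
    simp only [hun]
    split_ifs
    · exact val_natCast (C.lt2 c)
    · exact val_natCast (hf c)
  have inj : Function.Injective (Sum.elim ov un) := by
    intro a b hab
    have h1 := congrArg ZMod.val hab
    rcases a with c | c <;> rcases b with d | d <;> simp only [Sum.elim_inl, Sum.elim_inr] at h1
    · rw [vov, vov] at h1
      congr 1
      split_ifs at h1
      · exact C.injf c d h1
      · exact absurd h1 (C.ne c d)
      · exact absurd h1.symm (C.ne d c)
      · exact C.injs c d h1
    · exfalso
      rw [vov, vun] at h1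
      have h2 := C.lt c
      split_ifs at h1 with h3 h4 h4
      · exact C.ne c d h1
      · rw [C.injf c d h1] at h3
        exact h4 h3
      · rw [C.injs c d h1] at h3
        exact h3 h4
      · exact C.ne d c h1.symm
    · exfalso
      rw [vun, vov] at h1
      have h2 := C.lt c
      split_ifs at h1 with h3 h4 h4
      · exact C.ne d c h1.symm
      · rw [C.injs c d h1] at h3
        exact h4 h3
      · rw [C.injf c d h1] at h3
        exact h3 h4
      · exact C.ne c d h1
    · rw [vun, vun] at h1
      congr 1
      split_ifs at h1
      · exact C.injs c d h1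
      · exact absurd h1.symm (C.ne d c)
      · exact absurd h1 (C.ne c d)
      · exact C.injf c d h1
  let D : KnotDiagram n :=
    { ov := ov
      un := un
      bij := by
        rw [Fintype.bijective_iff_injective_and_card]
        refine ⟨inj, ?_⟩
        rw [Fintype.card_sum, Fintype.card_fin, ZMod.card]
        omega
      sgn := fun c => sgb (ε c)
      sgn_pm := by
        intro c
        unfold sgb
        cases ε c <;> simp
      left := fun j => ⟨C.l j.val, C.l_lt _ (ZMod.val_lt j)⟩
      right := fun j => ⟨C.r j.val, C.r_lt _ (ZMod.val_lt j)⟩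
      surj := by
        intro x
        obtain ⟨j, hj, h⟩ := C.surj x.val x.isLt
        refine ⟨(j : ZMod (2 * n)), ?_⟩
        rw [Fin.ext_iff, Fin.ext_iff]
        simp only [val_natCast hj]
        exact h
      corner := by
        intro c p q h
        have hpq : (C.t c = true ∧ p.val = C.f c ∧ q.val = C.s c) ∨
            (C.t c = false ∧ p.val = C.s c ∧ q.val = C.f c) := by
          rcases h with ⟨h1, rfl, rfl⟩ | ⟨h1, rfl, rfl⟩
          · have he : ε c = true := by
              by_contra hne
              rw [Bool.not_eq_true] at hne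
              rw [hne] at h1
              simp [sgb] at h1
            rw [vov, vun, he]
            rcases Bool.eq_false_or_eq_true (C.t c) with ht | ht <;> simp [ht]
          · have he : ε c = false := by
              by_contra hne
              rw [Bool.not_eq_false] at hne
              rw [hne] at h1
              simp [sgb] at h1
            rw [vov, vun, he]
            rcases Bool.eq_false_or_eq_true (C.t c) with ht | ht <;> simp [ht]
        simp only [Fin.mk.injEq, val_sub_one hn]
        rcases hpq with ⟨ht, hp, hq⟩ | ⟨ht, hp, hq⟩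
        · rw [hp, hq]
          exact C.cornerP c ht
        · rw [hp, hq]
          exact C.cornerN c ht }
  have hfst : ∀ c, D.fst c = C.f c := by
    intro c
    show min (ov c).val (un c).val = C.f c
    rw [vov, vun]
    have h2 := C.lt c
    split_ifs
    · exact min_eq_left h2.le
    · exact min_eq_right h2.le
  have hsnd : ∀ c, D.snd c = C.s c := by
    intro c
    show max (ov c).val (un c).val = C.s c
    rw [vov, vun]
    have h2 := C.lt c
    split_ifs
    · exact max_eq_right h2.le
    · exact max_eq_left h2.le
  refine ⟨D, fun c => rfl, hfst, hsnd, fun c d => ?_⟩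
  unfold KnotDiagram.Inter KnotDiagram.Cr PCode.Int
  rw [hfst, hfst, hsnd, hsnd]

end Pool.H3F
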