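import Pool.Agent.H3F.FDefs

/-! The family of the tail: word `a_0 .. a_{m-1} b_0 .. b_{n-1} a_0 .. a_{m-1} b_{n-1} .. b_0
c_0 .. c_{k-1} c_0 .. c_{k-1}`. -/

namespace Pool.H3F

open Finset

/-- Block of a chord. -/
def tailTy (m n k : ℕ) (c : Fin (m + n + k)) : Fin 3 :=
  if c.val < m then 0 else if c.val < m + n then 1 else 2

/-- Interlacement matrix of the blocks. -/
def tailE : Fin 3 → Fin 3 → ℝ := ![![1, 1, 0], ![1, 0, 0], ![0, 0, 1]]

/-- first passages -/
def ftailF (m n c : ℕ) : ℕ := if c < m + n then c else m + n + c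

/-- second passages -/
def ftailS (m n k c : ℕ) : ℕ :=
  if c < m then m + n + c else if c < m + n then 3 * m + 2 * n - 1 - c else m + n + k + c

/-- signs -/
def ftailT (m n c : ℕ) : Bool :=
  if c < m then decide (c % 2 = 0) else if c < m + n then decide ((c - m) % 2 = 0)
    else decide ((c - m - n) % 2 = 0)

/-- left faces -/
def ftailL (m n k e : ℕ) : ℕ :=
  if e < m then (if e % 2 = 0 then 5 + e else 1)
  else if e < m + n then (if (e - m) % 2 = 0 then 3 else 4 + m + (e - m))
  else if e < 2 * m + n then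
    (if (e - m - n) % 2 = 0 then 1 else if e - m - n < m - 1 then 5 + (e - m - n) else 2)
  else if e < 2 * m + 2 * n then
    (if 2 * m + 2 * n - 1 - e = 0 then 1 else if (2 * m + 2 * n - 1 - e) % 2 = 1 then 2
      else 4 + m + (2 * m + 2 * n - 1 - e - 1))
  else if e < 2 * m + 2 * n + k then
    (if (e - 2 * m - 2 * n) % 2 = 0 then
      (if e - 2 * m - 2 * n < k - 1 then 3 + m + n + (e - 2 * m - 2 * n) else 3) else 1)
  else (if (e - 2 * m - 2 * n - k) % 2 = 0 then 1 else 3 + m + n + (e - 2 * m - 2 * n - k))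

/-- right faces -/
def ftailR (m n k e : ℕ) : ℕ :=
  if e < m then (if e % 2 = 0 then 0 else if e < m - 1 then 5 + e else 2)
  else if e < m + n then
    (if e - m = n - 1 then 0 else if (e - m) % 2 = 0 then 4 + m + (e - m) else 2)
  else if e < 2 * m + n then (if (e - m - n) % 2 = 0 then 5 + (e - m - n) else 0)
  else if e < 2 * m + 2 * n then
    (if (2 * m + 2 * n - 1 - e) % 2 = 0 then 3 else 4 + m + (2 * m + 2 * n - 1 - e - 1))
  else if e < 2 * m + 2 * n + k then
    (if (e - 2 * m - 2 * n) % 2 = 0 then 4 else 3 + m + n + (e - 2 * m - 2 * n))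
  else (if (e - 2 * m - 2 * n - k) % 2 = 0 then
      (if e - 2 * m - 2 * n - k < k - 1 then 3 + m + n + (e - 2 * m - 2 * n - k) else 3) else 4)


theorem ftail_prdS (n j : ℕ) (hj : 0 < j) : prd n j = j - 1 := if_neg (by omega)

theorem ftail_a0P (m n k c : ℕ) (hm : 0 < m) (hm2 : m % 2 = 0) (hn : n % 2 = 1)
    (hk : k % 2 = 1) (hc : c < m + n + k) (h0 : c = 0) :
    ftailL m n k c = ftailR m n k (m + n + c) ∧
    ftailL m n k (2 * (m + n + k) - 1) = ftailL m n k (m + n + c) ∧
    ftailR m n k (2 * (m + n + k) - 1) = ftailL m n k (m + n + c - 1) ∧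
    ftailR m n k c = ftailR m n k (m + n + c - 1) := by
  unfold ftailL ftailR
  refine ⟨?_, ?_, ?_, ?_⟩
  all_goals simp (disch := omega) only [if_pos, if_neg]
  all_goals first | omega | (split_ifs <;> omega)

theorem ftail_aP (m n k c : ℕ) (hm : 0 < m) (hm2 : m % 2 = 0) (hn : n % 2 = 1)
    (hk : k % 2 = 1) (hc : c < m + n + k) (h0 : 0 < c) (h1 : c < m) (h2 : c % 2 = 0) :
    ftailL m n k c = ftailR m n k (m + n + c) ∧
    ftailL m n k (c - 1) = ftailL m n k (m + n + c) ∧
    ftailR m n k (c - 1) = ftailL m n k (m + n + c - 1) ∧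
    ftailR m n k c = ftailR m n k (m + n + c - 1) := by
  unfold ftailL ftailR
  refine ⟨?_, ?_, ?_, ?_⟩
  all_goals simp (disch := omega) only [if_pos, if_neg]
  all_goals first | omega | (split_ifs <;> omega)

theorem ftail_bP (m n k c : ℕ) (hm : 0 < m) (hm2 : m % 2 = 0) (hn : n % 2 = 1)
    (hk : k % 2 = 1) (hc : c < m + n + k) (h0 : m ≤ c) (h1 : c < m + n) (h2 : (c - m) % 2 = 0) :
    ftailL m n k c = ftailR m n k (3 * m + 2 * n - 1 - c) ∧
    ftailL m n k (c - 1) = ftailL m n k (3 * m + 2 * n - 1 - c) ∧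
    ftailR m n k (c - 1) = ftailL m n k (3 * m + 2 * n - 1 - c - 1) ∧
    ftailR m n k c = ftailR m n k (3 * m + 2 * n - 1 - c - 1) := by
  unfold ftailL ftailR
  refine ⟨?_, ?_, ?_, ?_⟩
  all_goals simp (disch := omega) only [if_pos, if_neg]
  all_goals first | omega | (split_ifs <;> omega)

theorem ftail_cP (m n k c : ℕ) (hm : 0 < m) (hm2 : m % 2 = 0) (hn : n % 2 = 1)
    (hk : k % 2 = 1) (hc : c < m + n + k) (h0 : m + n ≤ c) (h2 : (c - m - n) % 2 = 0) :
    ftailL m n k (m + n + c) = ftailR m n k (m + n + k + c) ∧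
    ftailL m n k (m + n + c - 1) = ftailL m n k (m + n + k + c) ∧
    ftailR m n k (m + n + c - 1) = ftailL m n k (m + n + k + c - 1) ∧
    ftailR m n k (m + n + c) = ftailR m n k (m + n + k + c - 1) := by
  unfold ftailL ftailR
  refine ⟨?_, ?_, ?_, ?_⟩
  all_goals simp (disch := omega) only [if_pos, if_neg]
  all_goals first | omega | (split_ifs <;> omega)

theorem ftail_aN (m n k c : ℕ) (hm : 0 < m) (hm2 : m % 2 = 0) (hn : n % 2 = 1)
    (hk : k % 2 = 1) (hc : c < m + n + k) (h0 : 0 < c) (h1 : c < m) (h2 : c % 2 = 1) :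
    ftailL m n k (m + n + c) = ftailR m n k c ∧
    ftailL m n k (m + n + c - 1) = ftailL m n k c ∧
    ftailR m n k (m + n + c - 1) = ftailL m n k (c - 1) ∧
    ftailR m n k (m + n + c) = ftailR m n k (c - 1) := by
  unfold ftailL ftailR
  refine ⟨?_, ?_, ?_, ?_⟩
  all_goals simp (disch := omega) only [if_pos, if_neg]
  all_goals first | omega | (split_ifs <;> omega)

theorem ftail_bN (m n k c : ℕ) (hm : 0 < m) (hm2 : m % 2 = 0) (hn : n % 2 = 1)
    (hk : k % 2 = 1) (hc : c < m + n + k) (h0 : m ≤ c) (h1 : c < m + n) (h2 : (c - m) % 2 = 1) :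
    ftailL m n k (3 * m + 2 * n - 1 - c) = ftailR m n k c ∧
    ftailL m n k (3 * m + 2 * n - 1 - c - 1) = ftailL m n k c ∧
    ftailR m n k (3 * m + 2 * n - 1 - c - 1) = ftailL m n k (c - 1) ∧
    ftailR m n k (3 * m + 2 * n - 1 - c) = ftailR m n k (c - 1) := by
  unfold ftailL ftailR
  refine ⟨?_, ?_, ?_, ?_⟩
  all_goals simp (disch := omega) only [if_pos, if_neg]
  all_goals first | omega | (split_ifs <;> omega)

theorem ftail_cN (m n k c : ℕ) (hm : 0 < m) (hm2 : m % 2 = 0) (hn : n % 2 = 1)
    (hk : k % 2 = 1) (hc : c < m + n + k) (h0 : m + n ≤ c) (h2 : (c - m - n) % 2 = 1) :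
    ftailL m n k (m + n + k + c) = ftailR m n k (m + n + c) ∧
    ftailL m n k (m + n + k + c - 1) = ftailL m n k (m + n + c) ∧
    ftailR m n k (m + n + k + c - 1) = ftailL m n k (m + n + c - 1) ∧
    ftailR m n k (m + n + k + c) = ftailR m n k (m + n + c - 1) := by
  unfold ftailL ftailR
  refine ⟨?_, ?_, ?_, ?_⟩
  all_goals simp (disch := omega) only [if_pos, if_neg]
  all_goals first | omega | (split_ifs <;> omega)


theorem ftail_surj (m n k x : ℕ) (hm : 0 < m) (hm2 : m % 2 = 0) (hn : n % 2 = 1)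
    (hk : k % 2 = 1) (hx : x < m + n + k + 2) :
    ∃ j < 2 * (m + n + k), ftailL m n k j = x ∨ ftailR m n k j = x := by
  rcases Nat.lt_or_ge x 5 with h5 | h5
  · interval_cases x
    · exact ⟨0, by omega, Or.inr (by unfold ftailR; rw [if_pos hm]; rfl)⟩
    · exact ⟨1, by omega, Or.inl (by unfold ftailL; simp (disch := omega) only [if_pos, if_neg])⟩
    · exact ⟨m - 1, by omega, Or.inr (by unfold ftailR; simp (disch := omega) only [if_pos, if_neg])⟩
    · exact ⟨m, by omega, Or.inl (by unfold ftailL; simp (disch := omega) only [if_pos, if_neg])⟩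
    · exact ⟨2 * m + 2 * n, by omega, Or.inr (by unfold ftailR; simp (disch := omega) only [if_pos, if_neg])⟩
  rcases Nat.lt_or_ge x (4 + m) with h6 | h6
  · refine ⟨x - 5, by omega, ?_⟩
    rcases Nat.mod_two_eq_zero_or_one (x - 5) with h | h
    · exact Or.inl (by unfold ftailL; simp (disch := omega) only [if_pos, if_neg]; omega)
    · exact Or.inr (by unfold ftailR; simp (disch := omega) only [if_pos, if_neg]; omega)
  rcases Nat.lt_or_ge x (3 + m + n) with h7 | h7
  · refine ⟨m + (x - 4 - m), by omega, ?_⟩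
    rcases Nat.mod_two_eq_zero_or_one (x - 4 - m) with h | h
    · exact Or.inr (by unfold ftailR; simp (disch := omega) only [if_pos, if_neg]; omega)
    · exact Or.inl (by unfold ftailL; simp (disch := omega) only [if_pos, if_neg]; omega)
  · refine ⟨2 * m + 2 * n + (x - 3 - m - n), by omega, ?_⟩
    rcases Nat.mod_two_eq_zero_or_one (x - 3 - m - n) with h | h
    · exact Or.inl (by unfold ftailL; simp (disch := omega) only [if_pos, if_neg]; omega)
    · exact Or.inr (by unfold ftailR; simp (disch := omega) only [if_pos, if_neg]; omega)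

theorem ftail_L_lt (m n k e : ℕ) (hm : 0 < m) (hm2 : m % 2 = 0) (hn : n % 2 = 1)
    (hk : k % 2 = 1) (he : e < 2 * (m + n + k)) : ftailL m n k e < m + n + k + 2 := by
  unfold ftailL
  split_ifs <;> omega

theorem ftail_R_lt (m n k e : ℕ) (hm : 0 < m) (hm2 : m % 2 = 0) (hn : n % 2 = 1)
    (hk : k % 2 = 1) (he : e < 2 * (m + n + k)) : ftailR m n k e < m + n + k + 2 := by
  unfold ftailR
  split_ifs <;> omega

theorem ftail_F_spec (m n c : ℕ) :
    (c < m + n ∧ ftailF m n c = c) ∨ (m + n ≤ c ∧ ftailF m n c = m + n + c) := by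
  unfold ftailF
  split_ifs <;> omega

theorem ftail_S_spec (m n k c : ℕ) :
    (c < m ∧ ftailS m n k c = m + n + c) ∨
      (m ≤ c ∧ c < m + n ∧ ftailS m n k c = 3 * m + 2 * n - 1 - c) ∨
      (m + n ≤ c ∧ ftailS m n k c = m + n + k + c) := by
  unfold ftailS
  split_ifs <;> omega

theorem ftail_T_true (m n c : ℕ) (h : ftailT m n c = true) :
    (c < m ∧ c % 2 = 0) ∨ (m ≤ c ∧ c < m + n ∧ (c - m) % 2 = 0) ∨
      (m + n ≤ c ∧ (c - m - n) % 2 = 0) := by
  unfold ftailT at h
  split_ifs at h <;> simp only [decide_eq_true_eq] at h <;> omega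

theorem ftail_T_false (m n c : ℕ) (h : ftailT m n c = false) :
    (c < m ∧ c % 2 = 1) ∨ (m ≤ c ∧ c < m + n ∧ (c - m) % 2 = 1) ∨
      (m + n ≤ c ∧ (c - m - n) % 2 = 1) := by
  unfold ftailT at h
  split_ifs at h <;> simp only [decide_eq_false_iff_not] at h <;> omega

theorem ftail_cornerP (m n k c : ℕ) (hm : 0 < m) (hm2 : m % 2 = 0) (hn : n % 2 = 1)
    (hk : k % 2 = 1) (hc : c < m + n + k) (ht : ftailT m n c = true) :
    ftailL m n k (ftailF m n c) = ftailR m n k (ftailS m n k c) ∧
    ftailL m n k (prd (m + n + k) (ftailF m n c)) = ftailL m n k (ftailS m n k c) ∧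
    ftailR m n k (prd (m + n + k) (ftailF m n c)) =
      ftailL m n k (prd (m + n + k) (ftailS m n k c)) ∧
    ftailR m n k (ftailF m n c) = ftailR m n k (prd (m + n + k) (ftailS m n k c)) := by
  rcases ftail_T_true m n c ht with ⟨h1, h2⟩ | ⟨h0, h1, h2⟩ | ⟨h0, h2⟩
  · have hF : ftailF m n c = c := by have := ftail_F_spec m n c; omega
    have hS : ftailS m n k c = m + n + c := by have := ftail_S_spec m n k c; omega
    rw [hF, hS, ftail_prdS _ (m + n + c) (by omega)]
    rcases Nat.eq_zero_or_pos c with h0 | h0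
    · have hp : prd (m + n + k) c = 2 * (m + n + k) - 1 := by rw [h0]; rfl
      rw [hp]
      exact ftail_a0P m n k c hm hm2 hn hk hc h0
    · rw [ftail_prdS _ c h0]
      exact ftail_aP m n k c hm hm2 hn hk hc h0 h1 h2
  · have hF : ftailF m n c = c := by have := ftail_F_spec m n c; omega
    have hS : ftailS m n k c = 3 * m + 2 * n - 1 - c := by
      have := ftail_S_spec m n k c; omega
    rw [hF, hS, ftail_prdS _ (3 * m + 2 * n - 1 - c) (by omega), ftail_prdS _ c (by omega)]
    exact ftail_bP m n k c hm hm2 hn hk hc h0 h1 h2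
  · have hF : ftailF m n c = m + n + c := by have := ftail_F_spec m n c; omega
    have hS : ftailS m n k c = m + n + k + c := by have := ftail_S_spec m n k c; omega
    rw [hF, hS, ftail_prdS _ (m + n + k + c) (by omega), ftail_prdS _ (m + n + c) (by omega)]
    exact ftail_cP m n k c hm hm2 hn hk hc h0 h2

theorem ftail_cornerN (m n k c : ℕ) (hm : 0 < m) (hm2 : m % 2 = 0) (hn : n % 2 = 1)
    (hk : k % 2 = 1) (hc : c < m + n + k) (ht : ftailT m n c = false) :
    ftailL m n k (ftailS m n k c) = ftailR m n k (ftailF m n c) ∧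
    ftailL m n k (prd (m + n + k) (ftailS m n k c)) = ftailL m n k (ftailF m n c) ∧
    ftailR m n k (prd (m + n + k) (ftailS m n k c)) =
      ftailL m n k (prd (m + n + k) (ftailF m n c)) ∧
    ftailR m n k (ftailS m n k c) = ftailR m n k (prd (m + n + k) (ftailF m n c)) := by
  rcases ftail_T_false m n c ht with ⟨h1, h2⟩ | ⟨h0, h1, h2⟩ | ⟨h0, h2⟩
  · have hF : ftailF m n c = c := by have := ftail_F_spec m n c; omega
    have hS : ftailS m n k c = m + n + c := by have := ftail_S_spec m n k c; omega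
    rw [hF, hS, ftail_prdS _ (m + n + c) (by omega), ftail_prdS _ c (by omega)]
    exact ftail_aN m n k c hm hm2 hn hk hc (by omega) h1 h2
  · have hF : ftailF m n c = c := by have := ftail_F_spec m n c; omega
    have hS : ftailS m n k c = 3 * m + 2 * n - 1 - c := by
      have := ftail_S_spec m n k c; omega
    rw [hF, hS, ftail_prdS _ (3 * m + 2 * n - 1 - c) (by omega), ftail_prdS _ c (by omega)]
    exact ftail_bN m n k c hm hm2 hn hk hc h0 h1 h2
  · have hF : ftailF m n c = m + n + c := by have := ftail_F_spec m n c; omega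
    have hS : ftailS m n k c = m + n + k + c := by have := ftail_S_spec m n k c; omega
    rw [hF, hS, ftail_prdS _ (m + n + k + c) (by omega), ftail_prdS _ (m + n + c) (by omega)]
    exact ftail_cN m n k c hm hm2 hn hk hc h0 h2

theorem exists_tail (m n k : ℕ) (hm : 0 < m) (hm2 : Even m) (hn : Odd n) (hk : Odd k) :
    ∃ C : PCode (m + n + k), ∀ c d, c ≠ d →
      (C.Int c d ↔ tailE (tailTy m n k c) (tailTy m n k d) = 1) := by
  rw [Nat.even_iff] at hm2
  rw [Nat.odd_iff] at hn hk
  refine ⟨{
    f := fun c => ftailF m n c.val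
    s := fun c => ftailS m n k c.val
    t := fun c => ftailT m n c.val
    l := ftailL m n k
    r := ftailR m n k
    lt := ?_
    lt2 := ?_
    injf := ?_
    injs := ?_
    ne := ?_
    l_lt := ?_
    r_lt := ?_
    surj := ?_
    cornerP := ?_
    cornerN := ?_ }, ?_⟩
  · intro c
    have h1 := ftail_F_spec m n c.val
    have h2 := ftail_S_spec m n k c.val
    have := c.2
    omega
  · intro c
    have h2 := ftail_S_spec m n k c.val
    have := c.2
    omega
  · intro c d h
    have h1 := ftail_F_spec m n c.val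
    have h2 := ftail_F_spec m n d.val
    ext
    have h' : ftailF m n c.val = ftailF m n d.val := h
    omega
  · intro c d h
    have h1 := ftail_S_spec m n k c.val
    have h2 := ftail_S_spec m n k d.val
    ext
    have h' : ftailS m n k c.val = ftailS m n k d.val := h
    have := c.2
    have := d.2
    omega
  · intro c d
    have h1 := ftail_F_spec m n c.val
    have h2 := ftail_S_spec m n k d.val
    have := c.2
    have := d.2
    show ftailF m n c.val ≠ ftailS m n k d.val
    omega
  · intro j hj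
    exact ftail_L_lt m n k j hm hm2 hn hk hj
  · intro j hj
    exact ftail_R_lt m n k j hm hm2 hn hk hj
  · intro x hx
    exact ftail_surj m n k x hm hm2 hn hk hx
  · intro c ht
    exact ftail_cornerP m n k c.val hm hm2 hn hk c.2 ht
  · intro c ht
    exact ftail_cornerN m n k c.val hm hm2 hn hk c.2 ht
  · intro c d hcd
    have hcd' : c.val ≠ d.val := fun h => hcd (Fin.ext h)
    have h1 := ftail_F_spec m n c.val
    have h2 := ftail_S_spec m n k c.val
    have h3 := ftail_F_spec m n d.val
    have h4 := ftail_S_spec m n k d.val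
    have hc := c.2
    have hd := d.2
    show ((ftailF m n c.val < ftailF m n d.val ∧ ftailF m n d.val < ftailS m n k c.val ∧
      ftailS m n k c.val < ftailS m n k d.val) ∨
      (ftailF m n d.val < ftailF m n c.val ∧ ftailF m n c.val < ftailS m n k d.val ∧
      ftailS m n k d.val < ftailS m n k c.val)) ↔ _
    unfold tailTy tailE
    split_ifs <;> simp <;> omega

end Pool.H3F
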