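import Pool.Agent.H3F.Defs2

namespace Pool.H3F

namespace KnotDiagram

variable {n : ℕ} (D : KnotDiagram n)

namespace Form2Aux

theorem cr_asymm {c d : Fin n} (h : D.Cr c d) : ¬ D.Cr d c := by
  rintro ⟨h1, -, -⟩
  exact absurd h.1 (not_lt.mpr h1.le)

open Classical in
theorem ind_inter (c d : Fin n) :
    D.I c d = (if D.Cr c d then 1 else 0) + (if D.Cr d c then 1 else 0) := by
  unfold I ind Inter
  by_cases h1 : D.Cr c d
  · have h2 := cr_asymm D h1
    simp [h1, h2]
  · by_cases h2 : D.Cr d c <;> simp [h1, h2]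

open Classical in
theorem aOf_eq : aOf D.sg D.I =
    ∑ c, ∑ d, 2 * (if D.Cr c d then D.sg c * D.sg d else 0) := by
  have h1 : aOf D.sg D.I = ∑ c, ∑ d, ((if D.Cr c d then D.sg c * D.sg d else 0) +
      (if D.Cr d c then D.sg c * D.sg d else 0)) := by
    unfold aOf
    refine Finset.sum_congr rfl fun c _ => Finset.sum_congr rfl fun d _ => ?_
    rw [ind_inter]
    split_ifs <;> ring
  have h2 : ∑ c, ∑ d, (if D.Cr d c then D.sg c * D.sg d else 0) =
      ∑ c, ∑ d, (if D.Cr c d then D.sg c * D.sg d else 0) := by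
    rw [Finset.sum_comm]
    refine Finset.sum_congr rfl fun c _ => Finset.sum_congr rfl fun d _ => ?_
    split_ifs <;> ring
  simp only [h1, Finset.sum_add_distrib, h2, two_mul]

end Form2Aux

open Form2Aux in
theorem form2 : 8 * D.v2 = aOf D.sg D.I - 2 * D.W := by
  classical
  rw [aOf_eq, v2, W, ← mul_assoc, Finset.mul_sum, Finset.mul_sum, ← Finset.sum_sub_distrib]
  refine Finset.sum_congr rfl fun c _ => ?_
  rw [Finset.mul_sum, Finset.mul_sum, ← Finset.sum_sub_distrib]
  refine Finset.sum_congr rfl fun d _ => ?_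
  unfold tau sg
  by_cases h : D.Cr c d
  · by_cases h1 : D.OverFirst c <;> by_cases h2 : D.OverFirst d <;> simp [h, h1, h2] <;> ring
  · simp [h]

end KnotDiagram

end Pool.H3F
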