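import Pool.Agent.H3F.Form3A

/-! The cubic formula: `48 v₃` is the cubic form minus six times the defects. -/

namespace Pool.H3F

open Finset

namespace Form3BAux

open Form3AAux

variable {n : ℕ} (D : KnotDiagram n)

theorem sg_sq (c : Fin n) : D.sg c * D.sg c = 1 := by
  unfold KnotDiagram.sg
  rcases D.sgn_pm c with h | h <;> rw [h] <;> norm_num

theorem tau_sq (c : Fin n) : D.tau c * D.tau c = 1 := by
  have h := sg_sq D c
  unfold KnotDiagram.sg at h
  unfold KnotDiagram.tau
  split_ifs
  · exact h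
  · linarith

/-- the end points of different chords are different -/
theorem ends_ne {a b : Fin n} (h : a ≠ b) :
    D.fst a ≠ D.fst b ∧ D.snd a ≠ D.snd b ∧ D.fst a ≠ D.snd b ∧ D.snd a ≠ D.fst b := by
  have hn : n ≠ 0 := fun h0 => by subst h0; exact a.elim0
  have : NeZero (2 * n) := ⟨by omega⟩
  have hi := D.bij.1
  have hv := ZMod.val_injective (2 * n)
  have h1 : (D.ov a).val ≠ (D.ov b).val := fun e => h (by
    have := @hi (Sum.inl a) (Sum.inl b) (hv e)
    exact Sum.inl.inj this)
  have h2 : (D.un a).val ≠ (D.un b).val := fun e => h (by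
    have := @hi (Sum.inr a) (Sum.inr b) (hv e)
    exact Sum.inr.inj this)
  have h3 : (D.ov a).val ≠ (D.un b).val := fun e => by
    have := @hi (Sum.inl a) (Sum.inr b) (hv e)
    exact Sum.inl_ne_inr this
  have h4 : (D.un a).val ≠ (D.ov b).val := fun e => by
    have := @hi (Sum.inr a) (Sum.inl b) (hv e)
    exact Sum.inr_ne_inl this
  unfold KnotDiagram.fst KnotDiagram.snd
  refine ⟨?_, ?_, ?_, ?_⟩ <;> omega

/-- first part of `v₃` -/
theorem partT : (∑ c, ∑ d, ∑ e, open Classical in
    if D.Cr c d ∧ D.Cr c e ∧ D.Cr d e ∧ (D.OverFirst c ↔ ¬ D.OverFirst d) ∧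
        (D.OverFirst d ↔ ¬ D.OverFirst e)
      then (D.sgn c : ℝ) * D.sgn d * D.sgn e else 0) =
    (1 / 4) * D.triSum fun c d e => D.sg c * D.sg d * D.sg e - D.tau c * D.tau d * D.sg e -
      D.sg c * D.tau d * D.tau e + D.tau c * D.sg d * D.tau e := by
  rw [← D.triSum_mul]
  unfold KnotDiagram.triSum
  refine Finset.sum_congr rfl fun c _ => Finset.sum_congr rfl fun d _ =>
    Finset.sum_congr rfl fun e _ => ?_
  unfold KnotDiagram.sg KnotDiagram.tau
  by_cases h1 : D.Cr c d ∧ D.Cr c e ∧ D.Cr d e
  · rw [if_pos h1]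
    by_cases hc : D.OverFirst c <;> by_cases hd : D.OverFirst d <;>
      by_cases he : D.OverFirst e <;> simp only [h1, hc, hd, he, not_true_eq_false,
        not_false_eq_true, and_true, and_false, iff_true, iff_false, if_true, if_false] <;> ring
  · rw [if_neg h1, if_neg fun h => h1 ⟨h.1, h.2.1, h.2.2.1⟩]

open Classical in
/-- sum over the chains `a`, `b` not interleaved, both interleaved with `c` -/
noncomputable def chS (F : Fin n → Fin n → Fin n → ℝ) : ℝ :=
  ∑ a, ∑ b, ∑ c, if a ≠ b ∧ ¬ D.Inter a b ∧ D.Inter a c ∧ D.Inter b c then F a b c else 0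

open Classical in
noncomputable def sab (a b : Fin n) : ℝ := if D.Nested a b then -1 else 1

theorem chS_add (F G : Fin n → Fin n → Fin n → ℝ) :
    chS D (fun c d e => F c d e + G c d e) = chS D F + chS D G := by
  unfold chS
  simp only [← Finset.sum_add_distrib]
  refine Finset.sum_congr rfl fun c _ => Finset.sum_congr rfl fun d _ =>
    Finset.sum_congr rfl fun e _ => ?_
  split_ifs <;> simp

/-- second part of `v₃` -/
theorem partC : (∑ a, ∑ b, ∑ c, open Classical in
    if a ≠ b ∧ ¬ D.Inter a b ∧ D.Inter a c ∧ D.Inter b c ∧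
        (D.Nested a b ↔ ¬ (D.OverFirst a ↔ D.OverFirst b))
      then (D.sgn a : ℝ) * D.sgn b * D.sgn c else 0) =
    (1 / 2) * (chS D (fun a b c => D.sg a * D.sg b * D.sg c) +
      chS D (fun a b c => sab D a b * D.tau a * D.tau b * D.sg c)) := by
  rw [← chS_add]
  unfold chS
  simp only [Finset.mul_sum]
  refine Finset.sum_congr rfl fun a _ => Finset.sum_congr rfl fun b _ =>
    Finset.sum_congr rfl fun c _ => ?_
  unfold KnotDiagram.sg KnotDiagram.tau sab
  by_cases h1 : a ≠ b ∧ ¬ D.Inter a b ∧ D.Inter a c ∧ D.Inter b c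
  · rw [if_pos h1]
    obtain ⟨g1, g2, g3, g4⟩ := h1
    by_cases hn : D.Nested a b <;> by_cases ha : D.OverFirst a <;> by_cases hb : D.OverFirst b <;>
      simp only [g1, g2, g3, g4, hn, ha, hb, ne_eq, not_true_eq_false, not_false_eq_true, and_true,
        and_false, iff_true, iff_false, if_true, if_false] <;> ring
  · rw [if_neg h1, if_neg fun h => h1 ⟨h.1, h.2.1, h.2.2.1, h.2.2.2.1⟩, mul_zero]

/-- number of chords that cross `c` -/
noncomputable def mm (c : Fin n) : ℝ := ∑ a, D.I a c

theorem sumE : (∑ a, ∑ b, ∑ c, D.sg a * D.sg b * D.sg c * (D.I a c * D.I b c)) =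
    ∑ c, D.sg c * mm D c + 6 * D.triSum (fun c d e => D.sg c * D.sg d * D.sg e) +
      chS D (fun a b c => D.sg a * D.sg b * D.sg c) := by
  classical
  have h1 : ∀ a b c : Fin n, D.sg a * D.sg b * D.sg c * (D.I a c * D.I b c) =
      (if a = b then D.sg c * D.I a c else 0) +
      (if D.Inter a b ∧ D.Inter b c ∧ D.Inter a c then D.sg a * D.sg b * D.sg c else 0) +
      (if a ≠ b ∧ ¬ D.Inter a b ∧ D.Inter a c ∧ D.Inter b c
        then D.sg a * D.sg b * D.sg c else 0) := by
    intro a b c
    unfold KnotDiagram.I ind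
    by_cases hab : a = b
    · subst hab
      have h2 := D.not_Inter_self a
      have h3 := sg_sq D a
      by_cases hac : D.Inter a c
      · simp only [hac, h2, if_true, if_false, false_and, ne_eq, not_true_eq_false]
        rw [h3]; ring
      · simp only [hac, h2, if_true, if_false, false_and, ne_eq, not_true_eq_false]
        ring
    · by_cases hi : D.Inter a b <;> by_cases hac : D.Inter a c <;> by_cases hbc : D.Inter b c <;>
        simp [hab, hi, hac, hbc]
  simp only [h1, Finset.sum_add_distrib]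
  congr 1
  · congr 1
    · have h2 : ∀ a : Fin n, (∑ b, ∑ c, if a = b then D.sg c * D.I a c else 0) =
          ∑ c, D.sg c * D.I a c := by
        intro a
        rw [Finset.sum_comm]
        refine Finset.sum_congr rfl fun c _ => ?_
        rw [Finset.sum_ite_eq, if_pos (Finset.mem_univ _)]
      simp only [h2]
      rw [Finset.sum_comm]
      unfold mm
      simp only [Finset.mul_sum]
    · have h3 := D.sum_tri fun a b c => D.sg a * D.sg b * D.sg c
      rw [← D.triSum_mul]
      refine Eq.trans ?_ (h3.trans (D.triSum_congr fun c d e _ _ _ => by ring))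
      congr!

theorem sumIII : (∑ a, ∑ b, ∑ c, D.sg a * D.sg b * D.sg c * (D.I a b * D.I b c * D.I a c)) =
    6 * D.triSum (fun c d e => D.sg c * D.sg d * D.sg e) := by
  classical
  have h3 := D.sum_tri fun a b c => D.sg a * D.sg b * D.sg c
  rw [← D.triSum_mul]
  refine Eq.trans ?_ (h3.trans (D.triSum_congr fun c d e _ _ _ => by ring))
  refine Finset.sum_congr rfl fun a _ => Finset.sum_congr rfl fun b _ =>
    Finset.sum_congr rfl fun c _ => ?_
  unfold KnotDiagram.I ind
  by_cases h1 : D.Inter a b <;> by_cases h2 : D.Inter b c <;> by_cases h4 : D.Inter a c <;>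
    simp [h1, h2, h4]

theorem bOf_eq : bOf D.sg D.I = 3 * ∑ c, D.sg c * mm D c +
    12 * D.triSum (fun c d e => D.sg c * D.sg d * D.sg e) +
      3 * chS D (fun a b c => D.sg a * D.sg b * D.sg c) := by
  have e1 := sumE D
  have e2 : (∑ a, ∑ b, ∑ c, D.sg a * D.sg b * D.sg c * (D.I a b * D.I b c)) =
      ∑ a, ∑ b, ∑ c, D.sg a * D.sg b * D.sg c * (D.I a c * D.I b c) := by
    rw [s23 fun a b c => D.sg a * D.sg b * D.sg c * (D.I a b * D.I b c)]
    refine Finset.sum_congr rfl fun a _ => Finset.sum_congr rfl fun b _ =>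
      Finset.sum_congr rfl fun c _ => ?_
    rw [D.I_symm c b]; ring
  have e3 : (∑ a, ∑ b, ∑ c, D.sg a * D.sg b * D.sg c * (D.I a b * D.I a c)) =
      ∑ a, ∑ b, ∑ c, D.sg a * D.sg b * D.sg c * (D.I a c * D.I b c) := by
    rw [s312 fun a b c => D.sg a * D.sg b * D.sg c * (D.I a b * D.I a c)]
    refine Finset.sum_congr rfl fun a _ => Finset.sum_congr rfl fun b _ =>
      Finset.sum_congr rfl fun c _ => ?_
    rw [D.I_symm c b, D.I_symm c a]; ring
  have e4 := sumIII D
  have e5 : bOf D.sg D.I =
      (∑ a, ∑ b, ∑ c, D.sg a * D.sg b * D.sg c * (D.I a b * D.I b c)) +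
      (∑ a, ∑ b, ∑ c, D.sg a * D.sg b * D.sg c * (D.I a c * D.I b c)) +
      (∑ a, ∑ b, ∑ c, D.sg a * D.sg b * D.sg c * (D.I a b * D.I a c)) -
      (∑ a, ∑ b, ∑ c, D.sg a * D.sg b * D.sg c * (D.I a b * D.I b c * D.I a c)) := by
    unfold bOf phi
    simp only [← Finset.sum_add_distrib, ← Finset.sum_sub_distrib]
    refine Finset.sum_congr rfl fun a _ => Finset.sum_congr rfl fun b _ =>
      Finset.sum_congr rfl fun c _ => ?_
    ring
  rw [e5, e2, e3, e1, e4]
  ring

theorem theta_left {a c : Fin n} (h : D.Cr a c) : D.theta c a = -D.tau a := if_pos h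

theorem theta_right {a c : Fin n} (h : D.Cr c a) : D.theta c a = D.tau a := by
  unfold KnotDiagram.theta
  rw [if_neg (D.Cr_asymm _ _ h), if_pos h]

theorem theta_zero {a c : Fin n} (h : ¬ D.Inter a c) : D.theta c a = 0 := by
  unfold KnotDiagram.theta
  rw [if_neg fun h' => h (Or.inl h'), if_neg fun h' => h (Or.inr h')]

theorem theta_sq (a c : Fin n) : D.theta c a * D.theta c a = D.I a c := by
  classical
  have h1 := tau_sq D a
  by_cases h : D.Inter a c
  · have h2 : D.I a c = 1 := if_pos h
    rw [h2]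
    rcases h with h | h
    · rw [theta_left D h]; linarith
    · rw [theta_right D h]; linarith
  · have h2 : D.I a c = 0 := if_neg h
    rw [h2, theta_zero D h, mul_zero]

/-- chains -/
theorem theta_chain {a b c : Fin n} (hab : a ≠ b) (hi : ¬ D.Inter a b) (ha : D.Inter a c)
    (hb : D.Inter b c) : D.theta c a * D.theta c b = -(sab D a b * D.tau a * D.tau b) := by
  classical
  obtain ⟨n1, n2, n3, n4⟩ := ends_ne D hab
  have h1 : ¬ D.Cr a b := fun h => hi (Or.inl h)
  have h2 : ¬ D.Cr b a := fun h => hi (Or.inr h)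
  unfold sab
  rcases ha with ha | ha <;> rcases hb with hb | hb
  · rw [theta_left D ha, theta_left D hb, if_pos]
    · ring
    · unfold KnotDiagram.Cr at h1 h2 ha hb
      unfold KnotDiagram.Nested
      omega
  · rw [theta_left D ha, theta_right D hb, if_neg]
    · ring
    · unfold KnotDiagram.Cr at h1 h2 ha hb
      unfold KnotDiagram.Nested
      omega
  · rw [theta_right D ha, theta_left D hb, if_neg]
    · ring
    · unfold KnotDiagram.Cr at h1 h2 ha hb
      unfold KnotDiagram.Nested
      omega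
  · rw [theta_right D ha, theta_right D hb, if_pos]
    · ring
    · unfold KnotDiagram.Cr at h1 h2 ha hb
      unfold KnotDiagram.Nested
      omega

/-- the square of the vanishing sum -/
theorem zero_sq (c : Fin n) (h : ∑ a, D.theta c a = 0) :
    0 = mm D c + 2 * D.Wc c - ∑ a, ∑ b, open Classical in
      if a ≠ b ∧ ¬ D.Inter a b ∧ D.Inter a c ∧ D.Inter b c
        then sab D a b * D.tau a * D.tau b else 0 := by
  classical
  have h1 : ∀ a b : Fin n, D.theta c a * D.theta c b =
      (if a = b then D.I a c else 0) + (if D.Cr a b then D.theta c a * D.theta c b else 0) +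
      (if D.Cr b a then D.theta c b * D.theta c a else 0) -
      (if a ≠ b ∧ ¬ D.Inter a b ∧ D.Inter a c ∧ D.Inter b c
        then sab D a b * D.tau a * D.tau b else 0) := by
    intro a b
    by_cases hab : a = b
    · subst hab
      have h3 : ¬ D.Cr a a := fun h => D.not_Inter_self a (Or.inl h)
      rw [if_pos rfl, if_neg h3, if_neg (fun h => h.1 rfl), theta_sq]
      ring
    · rw [if_neg hab]
      by_cases h3 : D.Cr a b
      · have h4 := D.Cr_asymm _ _ h3
        rw [if_pos h3, if_neg h4, if_neg (fun h => h.2.1 (Or.inl h3))]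
        ring
      · rw [if_neg h3]
        by_cases h4 : D.Cr b a
        · rw [if_pos h4, if_neg (fun h => h.2.1 (Or.inr h4))]
          ring
        · rw [if_neg h4]
          have h5 : ¬ D.Inter a b := fun h => h.elim h3 h4
          by_cases h6 : D.Inter a c
          · by_cases h7 : D.Inter b c
            · rw [if_pos ⟨hab, h5, h6, h7⟩, theta_chain D hab h5 h6 h7]
              ring
            · rw [if_neg (fun h => h7 h.2.2.2), theta_zero D h7]
              ring
          · rw [if_neg (fun h => h6 h.2.2.1), theta_zero D h6]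
            ring
  have h2 : (∑ a, D.theta c a) * (∑ b, D.theta c b) = ∑ a, ∑ b, D.theta c a * D.theta c b :=
    Finset.sum_mul_sum _ _ _ _
  rw [h, zero_mul] at h2
  refine h2.trans ?_
  rw [Finset.sum_congr rfl fun a _ => Finset.sum_congr rfl fun b _ => h1 a b]
  simp only [Finset.sum_add_distrib, Finset.sum_sub_distrib]
  have h3 : (∑ a : Fin n, ∑ b, if a = b then D.I a c else 0) = mm D c := by
    unfold mm
    refine Finset.sum_congr rfl fun a _ => ?_
    rw [Finset.sum_ite_eq, if_pos (Finset.mem_univ _)]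
  have h4 : (∑ a, ∑ b, if D.Cr a b then D.theta c a * D.theta c b else 0) = D.Wc c := by
    unfold KnotDiagram.Wc
    congr!
  have h5 : (∑ a, ∑ b, if D.Cr b a then D.theta c b * D.theta c a else 0) = D.Wc c := by
    rw [Finset.sum_comm]
    exact h4
  rw [h3, h4, h5]
  have h6 : ∀ x y : ℝ, x = y →
      mm D c + D.Wc c + D.Wc c - x = mm D c + 2 * D.Wc c - y := by
    intro x y hxy
    rw [hxy]; ring
  refine h6 _ _ ?_
  congr!

/-- triangles -/
theorem sumW : ∑ c, D.sg c * D.Wc c = D.triSum fun c d e =>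
    D.sg c * D.tau d * D.tau e - D.tau c * D.sg d * D.tau e + D.tau c * D.tau d * D.sg e := by
  classical
  have h1 := D.sum_center fun c a b => D.sg c * (D.theta c a * D.theta c b)
  have h2 : ∑ c, D.sg c * D.Wc c = ∑ c, ∑ a, ∑ b,
      if D.Inter a c ∧ D.Inter b c ∧ D.Cr a b then D.sg c * (D.theta c a * D.theta c b) else 0 := by
    unfold KnotDiagram.Wc
    simp only [Finset.mul_sum]
    refine Finset.sum_congr rfl fun c _ => Finset.sum_congr rfl fun a _ =>
      Finset.sum_congr rfl fun b _ => ?_
    by_cases h3 : D.Cr a b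
    · by_cases h4 : D.Inter a c
      · by_cases h5 : D.Inter b c
        · simp [h3, h4, h5]
        · simp [h3, h4, h5, theta_zero D h5]
      · simp [h3, h4, theta_zero D h4]
    · simp [h3]
  rw [h2]
  refine Eq.trans ?_ (h1.trans (D.triSum_congr fun c d e h3 h4 h5 => ?_))
  · congr!
  · rw [theta_right D h3, theta_right D h4, theta_left D h3, theta_right D h5, theta_left D h4,
      theta_left D h5]
    ring

theorem triSum_sub (F G : Fin n → Fin n → Fin n → ℝ) :
    D.triSum (fun c d e => F c d e - G c d e) = D.triSum F - D.triSum G := by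
  have h := D.triSum_add (fun c d e => F c d e - G c d e) G
  simp only [sub_add_cancel] at h
  linarith

end Form3BAux

open Form3BAux Form3AAux

namespace KnotDiagram

variable {n : ℕ} (D : KnotDiagram n)

theorem form3 (h : ∀ c, ∑ a, D.theta c a = 0) :
    48 * D.v3 = bOf D.sg D.I - 6 * ∑ c, D.sg c * D.Wc c := by
  classical
  have a1 := partT D
  have a2 := partC D
  have a3 := bOf_eq D
  have a4 := sumW D
  have a5 : 0 = ∑ c, D.sg c * mm D c + 2 * ∑ c, D.sg c * D.Wc c -
      chS D (fun a b c => sab D a b * D.tau a * D.tau b * D.sg c) := by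
    have h1 : ∀ c, 0 = D.sg c * mm D c + 2 * (D.sg c * D.Wc c) - ∑ a, ∑ b,
        if a ≠ b ∧ ¬ D.Inter a b ∧ D.Inter a c ∧ D.Inter b c
          then sab D a b * D.tau a * D.tau b * D.sg c else 0 := by
      intro c
      have h2 := zero_sq D c (h c)
      have h3 : (∑ a, ∑ b, if a ≠ b ∧ ¬ D.Inter a b ∧ D.Inter a c ∧ D.Inter b c
          then sab D a b * D.tau a * D.tau b * D.sg c else 0) = D.sg c * (∑ a, ∑ b,
          open Classical in if a ≠ b ∧ ¬ D.Inter a b ∧ D.Inter a c ∧ D.Inter b c
          then sab D a b * D.tau a * D.tau b else 0) := by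
        simp only [Finset.mul_sum]
        refine Finset.sum_congr rfl fun a _ => Finset.sum_congr rfl fun b _ => ?_
        split_ifs <;> ring
      rw [h3]
      linear_combination D.sg c * h2
    have h4 : (0 : ℝ) = ∑ c : Fin n, (D.sg c * mm D c + 2 * (D.sg c * D.Wc c) - ∑ a, ∑ b,
        if a ≠ b ∧ ¬ D.Inter a b ∧ D.Inter a c ∧ D.Inter b c
          then sab D a b * D.tau a * D.tau b * D.sg c else 0) := by
      rw [← Finset.sum_congr rfl fun c _ => h1 c, Finset.sum_const_zero]
    rw [Finset.sum_sub_distrib, Finset.sum_add_distrib, ← Finset.mul_sum] at h4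
    refine h4.trans ?_
    congr 1
    unfold chS
    refine Eq.trans (s312 fun c a b => if a ≠ b ∧ ¬ D.Inter a b ∧ D.Inter a c ∧ D.Inter b c
          then sab D a b * D.tau a * D.tau b * D.sg c else 0) ?_
    congr!
  have a6 : D.triSum (fun c d e => D.sg c * D.sg d * D.sg e - D.tau c * D.tau d * D.sg e -
      D.sg c * D.tau d * D.tau e + D.tau c * D.sg d * D.tau e) =
      D.triSum (fun c d e => D.sg c * D.sg d * D.sg e) - D.triSum fun c d e =>
    D.sg c * D.tau d * D.tau e - D.tau c * D.sg d * D.tau e + D.tau c * D.tau d * D.sg e := by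
    rw [← triSum_sub]
    exact D.triSum_congr fun c d e _ _ _ => by ring
  unfold v3
  rw [a1, a2, a3, a6, a4]
  rw [a4] at a5
  linarith

end KnotDiagram

end Pool.H3F
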