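import Pool.Agent.H3F.Shad

namespace Pool.H3F

namespace KnotDiagram

variable {n : ℕ} (D : KnotDiagram n)

namespace Link1Aux

theorem ov_ne_un (c d : Fin n) : D.ov c ≠ D.un d := by
  intro h
  have := D.bij.1 (a₁ := Sum.inl c) (a₂ := Sum.inr d) h
  simp at this

theorem ov_inj {c d : Fin n} (h : D.ov c = D.ov d) : c = d := by
  have := D.bij.1 (a₁ := Sum.inl c) (a₂ := Sum.inl d) h
  simpa using this

theorem un_inj {c d : Fin n} (h : D.un c = D.un d) : c = d := by
  have := D.bij.1 (a₁ := Sum.inr c) (a₂ := Sum.inr d) h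
  simpa using this

theorem val_ne (c : Fin n) : (D.ov c).val ≠ (D.un c).val := by
  have : NeZero (2 * n) := ⟨by have := c.2; omega⟩
  exact fun h => ov_ne_un D c c (ZMod.val_injective _ h)

theorem fst_cases (c : Fin n) :
    (D.OverFirst c ∧ D.fst c = (D.ov c).val ∧ D.snd c = (D.un c).val) ∨
      (¬ D.OverFirst c ∧ D.fst c = (D.un c).val ∧ D.snd c = (D.ov c).val) := by
  have h := val_ne D c
  unfold OverFirst fst snd
  rcases lt_or_gt_of_ne h with h | h
  · exact Or.inl ⟨h, min_eq_left h.le, max_eq_right h.le⟩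
  · exact Or.inr ⟨not_lt.mpr h.le, min_eq_right h.le, max_eq_left h.le⟩

theorem cast_val (c : Fin n) (x : ZMod (2 * n)) : ((x.val : ℕ) : ZMod (2 * n)) = x := by
  have : NeZero (2 * n) := ⟨by have := c.2; omega⟩
  exact ZMod.natCast_zmod_val x

theorem val_lt (c : Fin n) (x : ZMod (2 * n)) : x.val < 2 * n := by
  have : NeZero (2 * n) := ⟨by have := c.2; omega⟩
  exact ZMod.val_lt x

theorem fst_lt (c : Fin n) : D.fst c < 2 * n := by
  rcases fst_cases D c with ⟨-, h, -⟩ | ⟨-, h, -⟩ <;> rw [h] <;> exact val_lt c _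

theorem snd_lt (c : Fin n) : D.snd c < 2 * n := by
  rcases fst_cases D c with ⟨-, -, h⟩ | ⟨-, -, h⟩ <;> rw [h] <;> exact val_lt c _

theorem fst_lt_snd (c : Fin n) : D.fst c < D.snd c := by
  unfold fst snd
  exact min_lt_max.mpr (val_ne D c)

theorem pt_fst (c : Fin n) : D.shadow.pt (D.fst c) = D.snd c := by
  unfold Shadow.pt
  rcases fst_cases D c with ⟨-, h1, h2⟩ | ⟨-, h1, h2⟩
  · rw [h1, h2, cast_val c, shadow_star_ov]
  · rw [h1, h2, cast_val c, shadow_star_un]

theorem tau_fst (c : Fin n) : ((D.shadow.tau (D.fst c : ZMod (2 * n)) : ℤ) : ℝ) = D.tau c := by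
  unfold tau
  rcases fst_cases D c with ⟨h0, h1, h2⟩ | ⟨h0, h1, h2⟩
  · rw [h1, cast_val c, shadow_tau_ov, if_pos h0]
  · rw [h1, cast_val c, shadow_tau_un, if_neg h0]
    push_cast
    rfl

theorem fst_inj : Function.Injective D.fst := by
  intro c d h
  have h' : ((D.fst c : ℕ) : ZMod (2 * n)) = ((D.fst d : ℕ) : ZMod (2 * n)) := by rw [h]
  rcases fst_cases D c with ⟨-, h1, -⟩ | ⟨-, h1, -⟩ <;>
    rcases fst_cases D d with ⟨-, h2, -⟩ | ⟨-, h2, -⟩ <;>
    rw [h1, h2, cast_val c, cast_val c] at h'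
  · exact ov_inj D h'
  · exact absurd h' (ov_ne_un D c d)
  · exact absurd h'.symm (ov_ne_un D d c)
  · exact un_inj D h'

theorem exists_fst {p : ℕ} (hp : p < 2 * n) (h : p < D.shadow.pt p) : ∃ c, D.fst c = p := by
  obtain ⟨c, hc⟩ := D.cases_pos (p : ZMod (2 * n))
  refine ⟨c, ?_⟩
  have hv : ((p : ℕ) : ZMod (2 * n)).val = p := ZMod.val_cast_of_lt hp
  unfold Shadow.pt at h
  rcases hc with hc | hc
  · rw [hc] at hv
    rw [hc, shadow_star_ov] at h
    unfold fst
    rw [hv]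
    exact min_eq_left h.le
  · rw [hc] at hv
    rw [hc, shadow_star_un] at h
    unfold fst
    rw [hv]
    exact min_eq_right h.le

/-- sums over first passages -/
theorem sum_fst (F : ℕ → ℝ) (hF : ∀ p < 2 * n, ¬ p < D.shadow.pt p → F p = 0) :
    ∑ p ∈ Finset.range (2 * n), F p = ∑ c, F (D.fst c) := by
  classical
  have h1 : ∑ c, F (D.fst c) = ∑ p ∈ Finset.univ.image D.fst, F p :=
    (Finset.sum_image (fun c _ d _ h => fst_inj D h)).symm
  rw [h1]
  symm
  refine Finset.sum_subset ?_ ?_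
  · intro p hp
    obtain ⟨c, -, rfl⟩ := Finset.mem_image.mp hp
    exact Finset.mem_range.mpr (fst_lt D c)
  · intro p hp hp'
    refine hF p (Finset.mem_range.mp hp) fun h => hp' ?_
    obtain ⟨c, rfl⟩ := exists_fst D (Finset.mem_range.mp hp) h
    exact Finset.mem_image_of_mem _ (Finset.mem_univ c)

end Link1Aux

open Link1Aux in
theorem link1 : D.W = ((D.shadow.Wl (2 * n) : ℤ) : ℝ) := by
  classical
  unfold W Shadow.Wl
  push_cast
  rw [sum_fst D (fun p => ∑ q ∈ Finset.range (2 * n),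
    (if p < q ∧ q < D.shadow.pt p ∧ D.shadow.pt p < D.shadow.pt q ∧ D.shadow.pt q < 2 * n
      then ((D.shadow.tau (p : ZMod (2 * n)) : ℤ) : ℝ) *
        ((D.shadow.tau (q : ZMod (2 * n)) : ℤ) : ℝ) else 0))]
  · refine Finset.sum_congr rfl fun c _ => ?_
    rw [sum_fst D (fun q =>
      (if D.fst c < q ∧ q < D.shadow.pt (D.fst c) ∧ D.shadow.pt (D.fst c) < D.shadow.pt q ∧
          D.shadow.pt q < 2 * n
        then ((D.shadow.tau (D.fst c : ZMod (2 * n)) : ℤ) : ℝ) *
          ((D.shadow.tau (q : ZMod (2 * n)) : ℤ) : ℝ) else 0))]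
    · refine Finset.sum_congr rfl fun d _ => ?_
      rw [pt_fst, pt_fst, tau_fst, tau_fst]
      unfold Cr
      have := snd_lt D d
      simp [this]
    · intro q _ hq
      rw [if_neg]
      rintro ⟨-, h2, h3, -⟩
      exact hq (h2.trans h3)
  · intro p _ hp
    refine Finset.sum_eq_zero fun q _ => ?_
    rw [if_neg]
    rintro ⟨h1, h2, -, -⟩
    exact hp (h1.trans h2)

end KnotDiagram

end Pool.H3F
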