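import Pool.Agent.H3F.Loop

/-! The defect sum of the curve cut at a crossing. -/

namespace Pool.H3F

open Finset

namespace SplitAux

/-- A finite involution with signs. -/
structure Inv (N : ℕ) (pt : ℕ → ℕ) (T : ℕ → ℤ) : Prop where
  lt : ∀ j, j < N → pt j < N
  inv : ∀ j, j < N → pt (pt j) = j
  neg : ∀ j, j < N → T (pt j) = -T j

theorem sum_pt {N : ℕ} {pt : ℕ → ℕ} {T : ℕ → ℤ} (h : Inv N pt T) (f : ℕ → ℤ) :
    ∑ j ∈ range N, f (pt j) = ∑ j ∈ range N, f j := by
  refine Finset.sum_nbij' pt pt ?_ ?_ ?_ ?_ ?_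
  · intro a ha
    exact mem_range.2 (h.lt a (mem_range.1 ha))
  · intro a ha
    exact mem_range.2 (h.lt a (mem_range.1 ha))
  · intro a ha
    exact h.inv a (mem_range.1 ha)
  · intro a ha
    exact h.inv a (mem_range.1 ha)
  · intro a _
    rfl

theorem sum_range_ite {l N : ℕ} (hl : l ≤ N) (f : ℕ → ℤ) :
    ∑ p ∈ range l, f p = ∑ p ∈ range N, if p < l then f p else 0 := by
  rw [← Finset.sum_filter]
  refine Finset.sum_congr ?_ fun _ _ => rfl
  ext x
  simp only [mem_range, mem_filter]
  omega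

theorem sum_Ico_ite {a b N : ℕ} (hb : b ≤ N) (f : ℕ → ℤ) :
    ∑ p ∈ Ico a b, f p = ∑ p ∈ range N, if a ≤ p ∧ p < b then f p else 0 := by
  rw [← Finset.sum_filter]
  refine Finset.sum_congr ?_ fun _ _ => rfl
  ext x
  simp only [mem_range, mem_filter, mem_Ico]
  omega

theorem sum_Ioo_ite {a b N : ℕ} (hb : b ≤ N) (f : ℕ → ℤ) :
    ∑ p ∈ Ioo a b, f p = ∑ p ∈ range N, if a < p ∧ p < b then f p else 0 := by
  rw [← Finset.sum_filter]
  refine Finset.sum_congr ?_ fun _ _ => rfl
  ext x
  simp only [mem_range, mem_filter, mem_Ioo]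
  omega

open Classical in
/-- Double sum over pairs with a property. -/
noncomputable def S2 (N : ℕ) (T : ℕ → ℤ) (P : ℕ → ℕ → Prop) : ℤ :=
  ∑ p ∈ range N, ∑ q ∈ range N, if P p q then T p * T q else 0

theorem S2_congr {N : ℕ} {T : ℕ → ℤ} {P Q : ℕ → ℕ → Prop}
    (h : ∀ p q, p < N → q < N → (P p q ↔ Q p q)) : S2 N T P = S2 N T Q := by
  classical
  unfold S2
  refine Finset.sum_congr rfl fun p hp => Finset.sum_congr rfl fun q hq => ?_
  have := h p q (mem_range.1 hp) (mem_range.1 hq)
  simp only [this]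

theorem S2_add {N : ℕ} {T : ℕ → ℤ} {P Q R : ℕ → ℕ → Prop}
    (h : ∀ p q, p < N → q < N → (P p q ↔ (Q p q ∨ R p q)))
    (h' : ∀ p q, p < N → q < N → Q p q → R p q → False) :
    S2 N T P = S2 N T Q + S2 N T R := by
  classical
  unfold S2
  rw [← Finset.sum_add_distrib]
  refine Finset.sum_congr rfl fun p hp => ?_
  rw [← Finset.sum_add_distrib]
  refine Finset.sum_congr rfl fun q hq => ?_
  have h1 := h p q (mem_range.1 hp) (mem_range.1 hq)
  have h2 := h' p q (mem_range.1 hp) (mem_range.1 hq)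
  by_cases hQ : Q p q
  · by_cases hR : R p q
    · exact (h2 hQ hR).elim
    · simp [h1, hQ, hR]
  · by_cases hR : R p q
    · simp [h1, hQ, hR]
    · simp [h1, hQ, hR]

theorem S2_comm {N : ℕ} {T : ℕ → ℤ} {P : ℕ → ℕ → Prop} :
    S2 N T P = S2 N T (fun p q => P q p) := by
  classical
  unfold S2
  rw [Finset.sum_comm]
  refine Finset.sum_congr rfl fun p _ => Finset.sum_congr rfl fun q _ => ?_
  rw [mul_comm]

/-- Replace the second position by its partner. -/
theorem S2_flip {N : ℕ} {pt : ℕ → ℕ} {T : ℕ → ℤ} (h : Inv N pt T) (P : ℕ → ℕ → Prop) :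
    S2 N T P = -S2 N T (fun p q => P p (pt q)) := by
  classical
  unfold S2
  rw [← Finset.sum_neg_distrib]
  refine Finset.sum_congr rfl fun p _ => ?_
  rw [← sum_pt h, ← Finset.sum_neg_distrib]
  refine Finset.sum_congr rfl fun q hq => ?_
  rw [h.neg q (mem_range.1 hq)]
  by_cases hP : P p (pt q)
  · simp [hP]
  · simp [hP]

/-- Sums that vanish because the loops at the chords of the first position vanish. -/
theorem S2_loop {N : ℕ} {pt : ℕ → ℕ} {T : ℕ → ℤ} (h : Inv N pt T)
    (hl : ∀ p q, p < q → q < N → pt p = q →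
      (∑ j ∈ Ioo p q, if pt j < p ∨ q < pt j then T j else 0) = 0) (P : ℕ → Prop) :
    S2 N T (fun p q => P p ∧ p < pt p ∧ p < q ∧ q < pt p ∧ (pt q < p ∨ pt p < pt q)) = 0 := by
  classical
  unfold S2
  refine Finset.sum_eq_zero fun p hp => ?_
  by_cases hP : P p ∧ p < pt p
  · have h1 := hl p (pt p) hP.2 (h.lt p (mem_range.1 hp)) rfl
    rw [sum_Ioo_ite (h.lt p (mem_range.1 hp)).le] at h1
    calc _ = ∑ q ∈ range N, T p * (if p < q ∧ q < pt p then
          (if pt q < p ∨ pt p < pt q then T q else 0) else 0) := by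
          refine Finset.sum_congr rfl fun q _ => ?_
          by_cases h2 : p < q ∧ q < pt p
          · by_cases h3 : pt q < p ∨ pt p < pt q
            · simp [hP.1, hP.2, h2, h3]
            · simp [h3]
          · have : ¬ (P p ∧ p < pt p ∧ p < q ∧ q < pt p ∧ (pt q < p ∨ pt p < pt q)) :=
              fun h4 => h2 ⟨h4.2.2.1, h4.2.2.2.1⟩
            simp only [this, h2, if_false, mul_zero]
      _ = T p * 0 := by rw [← Finset.mul_sum, h1]
      _ = 0 := mul_zero _
  · refine Finset.sum_eq_zero fun q _ => ?_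
    rw [if_neg]
    exact fun h4 => hP ⟨h4.1, h4.2.1⟩

theorem main {n M m : ℕ} {pt : ℕ → ℕ} {T : ℕ → ℤ} (hM : M + 1 = n) (h : Inv n pt T)
    (hl : ∀ p q, p < q → q < n → pt p = q →
      (∑ j ∈ Ioo p q, if pt j < p ∨ q < pt j then T j else 0) = 0)
    (hm : m < M) (hpm : pt M = m) :
    S2 n T (fun p q => p < q ∧ q < pt p ∧ pt p < pt q ∧ pt q < M) =
      S2 n T (fun p q => p < q ∧ q < pt p ∧ pt p < pt q ∧ pt q < m) +
      S2 n T (fun p q => m < p ∧ p < q ∧ q < pt p ∧ pt p < pt q ∧ pt q < M) +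
      S2 n T (fun p q => p < q ∧ q < m ∧ m < pt p ∧ pt p < pt q) := by
  have hmM : pt m = M := by
    rw [← hpm]; exact h.inv M (by omega)
  -- positions with partner m or M
  have e1 : ∀ j, j < n → pt j = m → j = M := by
    intro j hj hj'
    rw [← h.inv j hj, hj', hmM]
  have e2 : ∀ j, j < n → pt j = M → j = m := by
    intro j hj hj'
    rw [← h.inv j hj, hj', hpm]
  -- type (d)
  have hd : S2 n T (fun p q => p < q ∧ q < pt p ∧ pt p < m ∧ m < pt q) = 0 := by
    have a0 := S2_loop h hl (fun p => pt p < m)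
    rw [S2_add (Q := fun p q => p < q ∧ q < pt p ∧ pt p < m ∧ m < pt q)
      (R := fun p q => p < q ∧ q < pt p ∧ pt p < m ∧ (pt q < p ∨ pt p < pt q ∧ pt q < m))] at a0
    rotate_left
    · intro p q hp hq
      have := e1 q hq
      constructor
      · intro h5
        by_cases h6 : pt q = m
        · have := this h6
          omega
        · omega
      · intro h5
        omega
    · intro p q hp hq h5 h6
      omega
    rw [S2_add (P := fun p q => p < q ∧ q < pt p ∧ pt p < m ∧ (pt q < p ∨ pt p < pt q ∧ pt q < m))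
      (Q := fun p q => p < q ∧ q < pt p ∧ pt p < m ∧ pt q < p)
      (R := fun p q => p < q ∧ q < pt p ∧ pt p < m ∧ pt p < pt q ∧ pt q < m)] at a0
    rotate_left
    · intro p q hp hq
      omega
    · intro p q hp hq h5 h6
      omega
    have a1 : S2 n T (fun p q => p < q ∧ q < pt p ∧ pt p < m ∧ pt q < p) =
        -S2 n T (fun p q => p < q ∧ q < pt p ∧ pt p < m ∧ pt p < pt q ∧ pt q < m) := by
      rw [S2_flip h, S2_comm]
      congr 1
      refine S2_congr fun p q hp hq => ?_
      have := h.inv p hp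
      rw [this]
      omega
    rw [a1] at a0
    linarith
  -- type (e)
  have he : S2 n T (fun p q => p < m ∧ m < q ∧ q < pt p ∧ pt p < pt q ∧ pt q < M) = 0 := by
    have a0 := S2_loop h hl (fun p => m < p ∧ pt p < M)
    rw [S2_add (Q := fun p q => m < p ∧ pt p < M ∧ p < q ∧ q < pt p ∧ pt q < m)
      (R := fun p q => m < p ∧ pt p < M ∧ p < q ∧ q < pt p ∧ (m < pt q ∧ pt q < p ∨ pt p < pt q))] at a0
    rotate_left
    · intro p q hp hq
      have := e1 q hq
      constructor
      · intro h5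
        by_cases h6 : pt q = m
        · have := this h6
          omega
        · omega
      · intro h5
        omega
    · intro p q hp hq h5 h6
      omega
    rw [S2_add (P := fun p q => m < p ∧ pt p < M ∧ p < q ∧ q < pt p ∧
          (m < pt q ∧ pt q < p ∨ pt p < pt q))
      (Q := fun p q => m < p ∧ pt p < M ∧ p < q ∧ q < pt p ∧ m < pt q ∧ pt q < p)
      (R := fun p q => m < p ∧ pt p < M ∧ p < q ∧ q < pt p ∧ pt p < pt q)] at a0
    rotate_left
    · intro p q hp hq
      omega
    · intro p q hp hq h5 h6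
      omega
    have a1 : S2 n T (fun p q => m < p ∧ pt p < M ∧ p < q ∧ q < pt p ∧ m < pt q ∧ pt q < p) =
        -S2 n T (fun p q => m < p ∧ pt p < M ∧ p < q ∧ q < pt p ∧ pt p < pt q) := by
      rw [S2_flip h, S2_comm]
      congr 1
      refine S2_congr fun p q hp hq => ?_
      have h7 := h.inv p hp
      have h8 := h.lt q hq
      have h9 := e2 q hq
      rw [h7]
      constructor
      · intro h5
        omega
      · intro h5
        have : pt q ≠ M := fun h10 => by
          have := h9 h10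
          omega
        omega
    have a2 : S2 n T (fun p q => m < p ∧ pt p < M ∧ p < q ∧ q < pt p ∧ pt q < m) =
        -S2 n T (fun p q => p < m ∧ m < q ∧ q < pt p ∧ pt p < pt q ∧ pt q < M) := by
      rw [S2_flip h, S2_comm]
      congr 1
      refine S2_congr fun p q hp hq => ?_
      have h7 := h.inv p hp
      rw [h7]
      omega
    rw [a1, a2] at a0
    linarith
  rw [S2_add (P := fun p q => p < q ∧ q < pt p ∧ pt p < pt q ∧ pt q < M)
    (Q := fun p q => p < q ∧ q < pt p ∧ pt p < pt q ∧ pt q < m)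
    (R := fun p q => p < q ∧ q < pt p ∧ pt p < pt q ∧ m < pt q ∧ pt q < M)]
  rotate_left
  · intro p q hp hq
    have := e1 q hq
    constructor
    · intro h5
      by_cases h6 : pt q = m
      · have := this h6
        omega
      · omega
    · intro h5
      omega
  · intro p q hp hq h5 h6
    omega
  rw [S2_add (P := fun p q => p < q ∧ q < pt p ∧ pt p < pt q ∧ m < pt q ∧ pt q < M)
    (Q := fun p q => m < p ∧ p < q ∧ q < pt p ∧ pt p < pt q ∧ pt q < M)
    (R := fun p q => p < m ∧ p < q ∧ q < pt p ∧ pt p < pt q ∧ m < pt q ∧ pt q < M)]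
  rotate_left
  · intro p q hp hq
    constructor
    · intro h5
      by_cases h6 : p = m
      · rw [h6] at h5
        omega
      · omega
    · intro h5
      omega
  · intro p q hp hq h5 h6
    omega
  rw [S2_add (P := fun p q => p < m ∧ p < q ∧ q < pt p ∧ pt p < pt q ∧ m < pt q ∧ pt q < M)
    (Q := fun p q => p < m ∧ m < q ∧ q < pt p ∧ pt p < pt q ∧ pt q < M)
    (R := fun p q => p < q ∧ q < m ∧ q < pt p ∧ pt p < pt q ∧ m < pt q ∧ pt q < M)]
  rotate_left
  · intro p q hp hq
    constructor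
    · intro h5
      by_cases h6 : q = m
      · rw [h6] at h5
        omega
      · omega
    · intro h5
      omega
  · intro p q hp hq h5 h6
    omega
  rw [S2_add (P := fun p q => p < q ∧ q < m ∧ q < pt p ∧ pt p < pt q ∧ m < pt q ∧ pt q < M)
    (Q := fun p q => p < q ∧ q < pt p ∧ pt p < m ∧ m < pt q)
    (R := fun p q => p < q ∧ q < m ∧ m < pt p ∧ pt p < pt q)]
  rotate_left
  · intro p q hp hq
    have h1 := e1 p hp
    have h2 := e2 q hq
    have h3 := h.lt q hq
    constructor
    · intro h5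
      by_cases h6 : pt p = m
      · have := h1 h6
        omega
      · omega
    · intro h5
      by_cases h6 : pt q = M
      · have := h2 h6
        omega
      · omega
  · intro p q hp hq h5 h6
    omega
  rw [hd, he]
  ring

end SplitAux

namespace Shadow

variable {n : ℕ} (S : Shadow n)

theorem pt_lt' [NeZero n] (j : ℕ) : S.pt j < 2 * n := by
  have : NeZero (2 * n) := ⟨by have := NeZero.ne n; omega⟩
  exact ZMod.val_lt _

theorem isInv [NeZero n] : SplitAux.Inv (2 * n) S.pt (fun j => S.tau (j : ZMod (2 * n))) := by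
  have : NeZero (2 * n) := ⟨by have := NeZero.ne n; omega⟩
  refine ⟨fun j _ => S.pt_lt' j, fun j hj => ?_, fun j _ => ?_⟩
  · unfold pt
    rw [ZMod.natCast_zmod_val, S.star_star, ZMod.val_natCast_of_lt hj]
  · unfold pt
    simp only [ZMod.natCast_zmod_val]
    exact S.tau_star _

/-- Defect sum of the passages `a, ..., b - 1`. -/
def Wi (a b : ℕ) : ℤ :=
  ∑ p ∈ Ico a b, ∑ q ∈ Ico a b,
    if p < q ∧ q < S.pt p ∧ S.pt p < S.pt q ∧ S.pt q < b
      then S.tau (p : ZMod (2 * n)) * S.tau (q : ZMod (2 * n)) else 0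

/-- Defect sum of the chords that join the two arcs at the crossing met last. -/
def Wxy (m : ℕ) : ℤ :=
  ∑ p ∈ range m, ∑ q ∈ range m,
    if p < q ∧ m < S.pt p ∧ S.pt p < S.pt q
      then S.tau (p : ZMod (2 * n)) * S.tau (q : ZMod (2 * n)) else 0

theorem rot_pt [NeZero n] (r j : ℕ) (hr : r ≤ 2 * n) :
    (S.rot (r : ZMod (2 * n))).pt j =
      if r ≤ S.pt (r + j) then S.pt (r + j) - r else S.pt (r + j) + (2 * n - r) := by
  have : NeZero (2 * n) := ⟨by have := NeZero.ne n; omega⟩
  have h0 : (S.rot (r : ZMod (2 * n))).star (j : ZMod (2 * n)) =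
      ((S.pt (r + j) : ℕ) : ZMod (2 * n)) - (r : ZMod (2 * n)) := by
    show S.star ((j : ZMod (2 * n)) + r) - r = _
    unfold pt
    rw [ZMod.natCast_zmod_val]
    congr 2
    push_cast
    ring
  have h1 := S.pt_lt' (r + j)
  show ((S.rot (r : ZMod (2 * n))).star (j : ZMod (2 * n))).val = _
  rw [h0]
  split_ifs with h2
  · rw [← Nat.cast_sub h2]
    exact ZMod.val_natCast_of_lt (by omega)
  · have h3 : ((S.pt (r + j) : ℕ) : ZMod (2 * n)) - (r : ZMod (2 * n)) =
        ((S.pt (r + j) + (2 * n - r) : ℕ) : ZMod (2 * n)) := by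
      rw [Nat.cast_add, Nat.cast_sub hr, ZMod.natCast_self]
      ring
    rw [h3]
    exact ZMod.val_natCast_of_lt (by omega)

theorem Wl_rot [NeZero n] (r l : ℕ) (h : r + l ≤ 2 * n) :
    (S.rot (r : ZMod (2 * n))).Wl l = S.Wi r (r + l) := by
  unfold Wl Wi
  have key : ∀ g : ℕ → ℤ, ∑ p ∈ Ico r (r + l), g p = ∑ p ∈ range l, g (r + p) := by
    intro g
    rw [Finset.sum_Ico_eq_sum_range]
    simp
  rw [key]
  refine Finset.sum_congr rfl fun p hp => ?_
  rw [key]
  refine Finset.sum_congr rfl fun q hq => ?_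
  rw [mem_range] at hp hq
  rw [S.rot_pt r p (by omega), S.rot_pt r q (by omega)]
  have hP := S.pt_lt' (r + p)
  have hQ := S.pt_lt' (r + q)
  have t1 : (S.rot (r : ZMod (2 * n))).tau (p : ZMod (2 * n)) =
      S.tau ((r + p : ℕ) : ZMod (2 * n)) := by
    show S.tau ((p : ZMod (2 * n)) + r) = _
    congr 1
    push_cast
    ring
  have t2 : (S.rot (r : ZMod (2 * n))).tau (q : ZMod (2 * n)) =
      S.tau ((r + q : ℕ) : ZMod (2 * n)) := by
    show S.tau ((q : ZMod (2 * n)) + r) = _
    congr 1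
    push_cast
    ring
  rw [t1, t2]
  generalize S.pt (r + p) = P at *
  generalize S.pt (r + q) = Q at *
  have : (p < q ∧ q < (if r ≤ P then P - r else P + (2 * n - r)) ∧
      (if r ≤ P then P - r else P + (2 * n - r)) < (if r ≤ Q then Q - r else Q + (2 * n - r)) ∧
      (if r ≤ Q then Q - r else Q + (2 * n - r)) < l) ↔
      (r + p < r + q ∧ r + q < P ∧ P < Q ∧ Q < r + l) := by
    split_ifs <;> omega
  by_cases hc : (r + p < r + q ∧ r + q < P ∧ P < Q ∧ Q < r + l)
  · rw [if_pos (this.2 hc), if_pos hc]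
  · rw [if_neg (fun hh => hc (this.1 hh)), if_neg hc]

theorem split [NeZero n] (m : ℕ) (hm : m < 2 * n - 1) (h : S.pt (2 * n - 1) = m) :
    S.Wl (2 * n - 1) = S.Wl m + S.Wi (m + 1) (2 * n - 1) + S.Wxy m := by
  classical
  have h0 := SplitAux.main (n := 2 * n) (M := 2 * n - 1) (m := m) (pt := S.pt)
    (T := fun j => S.tau (j : ZMod (2 * n))) (by omega) S.isInv
    (fun p q hpq hq hp => S.loop_zero p q hpq hq hp) hm h
  have hinv := S.isInv.inv
  have hlt := S.isInv.lt
  have c1 : S.Wl (2 * n - 1) = SplitAux.S2 (2 * n) (fun j => S.tau (j : ZMod (2 * n)))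
      (fun p q => p < q ∧ q < S.pt p ∧ S.pt p < S.pt q ∧ S.pt q < 2 * n - 1) := by
    unfold Wl SplitAux.S2
    rw [SplitAux.sum_range_ite (N := 2 * n) (by omega)]
    refine Finset.sum_congr rfl fun p hp => ?_
    rw [SplitAux.sum_range_ite (N := 2 * n) (by omega)]
    split_ifs with h1
    · refine Finset.sum_congr rfl fun q hq => ?_
      split_ifs <;> first | rfl | omega
    · symm
      refine Finset.sum_eq_zero fun q _ => ?_
      rw [if_neg]
      omega
  have c2 : S.Wl m = SplitAux.S2 (2 * n) (fun j => S.tau (j : ZMod (2 * n)))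
      (fun p q => p < q ∧ q < S.pt p ∧ S.pt p < S.pt q ∧ S.pt q < m) := by
    unfold Wl SplitAux.S2
    rw [SplitAux.sum_range_ite (N := 2 * n) (by omega)]
    refine Finset.sum_congr rfl fun p hp => ?_
    rw [SplitAux.sum_range_ite (N := 2 * n) (by omega)]
    split_ifs with h1
    · refine Finset.sum_congr rfl fun q hq => ?_
      split_ifs <;> first | rfl | omega
    · symm
      refine Finset.sum_eq_zero fun q _ => ?_
      rw [if_neg]
      omega
  have c3 : S.Wi (m + 1) (2 * n - 1) = SplitAux.S2 (2 * n) (fun j => S.tau (j : ZMod (2 * n)))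
      (fun p q => m < p ∧ p < q ∧ q < S.pt p ∧ S.pt p < S.pt q ∧ S.pt q < 2 * n - 1) := by
    unfold Wi SplitAux.S2
    rw [SplitAux.sum_Ico_ite (N := 2 * n) (by omega)]
    refine Finset.sum_congr rfl fun p hp => ?_
    rw [SplitAux.sum_Ico_ite (N := 2 * n) (by omega)]
    split_ifs with h1
    · refine Finset.sum_congr rfl fun q hq => ?_
      split_ifs <;> first | rfl | omega
    · symm
      refine Finset.sum_eq_zero fun q _ => ?_
      rw [if_neg]
      omega
  have c4 : S.Wxy m = SplitAux.S2 (2 * n) (fun j => S.tau (j : ZMod (2 * n)))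
      (fun p q => p < q ∧ q < m ∧ m < S.pt p ∧ S.pt p < S.pt q) := by
    unfold Wxy SplitAux.S2
    rw [SplitAux.sum_range_ite (N := 2 * n) (by omega)]
    refine Finset.sum_congr rfl fun p hp => ?_
    rw [SplitAux.sum_range_ite (N := 2 * n) (by omega)]
    split_ifs with h1
    · refine Finset.sum_congr rfl fun q hq => ?_
      split_ifs <;> first | rfl | omega
    · symm
      refine Finset.sum_eq_zero fun q _ => ?_
      rw [if_neg]
      omega
  rw [c1, c2, c3, c4]
  exact h0

theorem xy_zero [NeZero n] (m : ℕ) (hm : m < 2 * n - 1) (h : S.pt (2 * n - 1) = m) :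
    (∑ p ∈ range m, if m < S.pt p then S.tau (p : ZMod (2 * n)) else 0) = 0 := by
  have hinv := S.isInv.inv
  have hlt := S.isInv.lt
  have hneg := S.isInv.neg
  have hmM : S.pt m = 2 * n - 1 := by
    rw [← h]; exact hinv _ (by omega)
  have h1 := S.loop_zero m (2 * n - 1) hm (by omega) hmM
  rw [SplitAux.sum_Ioo_ite (N := 2 * n) (by omega), ← SplitAux.sum_pt S.isInv] at h1
  rw [SplitAux.sum_range_ite (N := 2 * n) (by omega)]
  rw [← neg_eq_zero, ← Finset.sum_neg_distrib, ← h1]
  refine Finset.sum_congr rfl fun p hp => ?_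
  rw [mem_range] at hp
  have a1 := hinv p hp
  have a2 := hlt p hp
  have a3 : S.tau ((S.pt p : ℕ) : ZMod (2 * n)) = -S.tau (p : ZMod (2 * n)) := hneg p hp
  rw [a1, a3]
  have a4 : S.pt p = 2 * n - 1 → p = m := by
    intro h5
    rw [← a1, h5, h]
  generalize S.tau (p : ZMod (2 * n)) = x
  generalize S.pt p = P at *
  by_cases hP : P = 2 * n - 1
  · have := a4 hP
    split_ifs <;> omega
  · split_ifs <;> omega

end Shadow

end Pool.H3F
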