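import Pool.Agent.H3F.Shad
import Pool.Agent.H3F.Split

/-! The two arcs at a crossing. -/

namespace Pool.H3F

open Finset

namespace KnotDiagram

variable {n : ℕ} (D : KnotDiagram n)

/-- The curve with base point just after the first passage through `c`. -/
noncomputable def shadowAt (c : Fin n) : Shadow n :=
  D.shadow.rot ((D.fst c : ZMod (2 * n)) + 1)

/-- Number of passages between the two passages through `c`. -/
noncomputable def mid (c : Fin n) : ℕ := D.snd c - D.fst c - 1

end KnotDiagram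

namespace Link2Aux

open KnotDiagram

variable {n : ℕ} (D : KnotDiagram n)

theorem npos (c : Fin n) : NeZero n := ⟨fun h => by subst h; exact Fin.elim0 c⟩

theorem ov_ne_un (a : Fin n) : D.ov a ≠ D.un a := by
  intro h
  have := D.bij.1 (a₁ := Sum.inl a) (a₂ := Sum.inr a) h
  simp at this

/-- the two positions of a crossing -/
theorem fs_cases [NeZero n] (a : Fin n) :
    D.fst a < D.snd a ∧ D.snd a < 2 * n ∧
    ((D.OverFirst a ∧ D.ov a = (D.fst a : ZMod (2 * n)) ∧ D.un a = (D.snd a : ZMod (2 * n)) ∧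
        (D.ov a).val = D.fst a ∧ (D.un a).val = D.snd a) ∨
      (¬ D.OverFirst a ∧ D.un a = (D.fst a : ZMod (2 * n)) ∧ D.ov a = (D.snd a : ZMod (2 * n)) ∧
        (D.un a).val = D.fst a ∧ (D.ov a).val = D.snd a)) := by
  have h1 : (D.ov a).val < 2 * n := ZMod.val_lt _
  have h2 : (D.un a).val < 2 * n := ZMod.val_lt _
  have h3 : (D.ov a).val ≠ (D.un a).val := fun h => ov_ne_un D a (ZMod.val_injective _ h)
  unfold KnotDiagram.fst KnotDiagram.snd KnotDiagram.OverFirst
  rcases lt_or_gt_of_ne h3 with h | h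
  · rw [min_eq_left h.le, max_eq_right h.le]
    refine ⟨h, h2, Or.inl ⟨h, ?_, ?_, rfl, rfl⟩⟩ <;> rw [ZMod.natCast_zmod_val]
  · rw [min_eq_right h.le, max_eq_left h.le]
    refine ⟨h, h1, Or.inr ⟨by omega, ?_, ?_, rfl, rfl⟩⟩ <;> rw [ZMod.natCast_zmod_val]

/-- facts about the two passages of a crossing, in natural numbers -/
theorem facts [NeZero n] (a : Fin n) :
    D.shadow.star (D.fst a : ZMod (2 * n)) = (D.snd a : ZMod (2 * n)) ∧
    D.shadow.star (D.snd a : ZMod (2 * n)) = (D.fst a : ZMod (2 * n)) ∧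
    (D.shadow.tau (D.fst a : ZMod (2 * n)) : ℝ) = D.tau a ∧
    (D.shadow.tau (D.snd a : ZMod (2 * n)) : ℝ) = -D.tau a := by
  obtain ⟨_, _, ⟨h0, h1, h2, _, _⟩ | ⟨h0, h1, h2, _, _⟩⟩ := fs_cases D a
  · rw [← h1, ← h2]
    refine ⟨D.shadow_star_ov a, D.shadow_star_un a, ?_, ?_⟩
    · rw [D.shadow_tau_ov, KnotDiagram.tau, if_pos h0]
    · rw [D.shadow_tau_un, KnotDiagram.tau, if_pos h0]; push_cast; rfl
  · rw [← h1, ← h2]
    refine ⟨D.shadow_star_un a, D.shadow_star_ov a, ?_, ?_⟩
    · rw [D.shadow_tau_un, KnotDiagram.tau, if_neg h0]; push_cast; rfl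
    · rw [D.shadow_tau_ov, KnotDiagram.tau, if_neg h0, neg_neg]

theorem pt_fst [NeZero n] (a : Fin n) : D.shadow.pt (D.fst a) = D.snd a := by
  rw [Shadow.pt, (facts D a).1, ZMod.val_natCast, Nat.mod_eq_of_lt (fs_cases D a).2.1]

theorem pt_snd [NeZero n] (a : Fin n) : D.shadow.pt (D.snd a) = D.fst a := by
  have := fs_cases D a
  rw [Shadow.pt, (facts D a).2.1, ZMod.val_natCast, Nat.mod_eq_of_lt (by omega)]

/-- sums over all positions -/
theorem sum_pos [NeZero n] (g : ℕ → ℝ) :
    ∑ p ∈ range (2 * n), g p = ∑ a, (g (D.fst a) + g (D.snd a)) := by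
  have h1 : ∑ p ∈ range (2 * n), g p = ∑ j : ZMod (2 * n), g j.val := by
    symm
    refine Finset.sum_bij (fun j _ => j.val) ?_ ?_ ?_ ?_
    · intro j _; exact Finset.mem_range.2 (ZMod.val_lt _)
    · intro j _ k _ h; exact ZMod.val_injective _ h
    · intro p hp
      refine ⟨(p : ZMod (2 * n)), Finset.mem_univ _, ?_⟩
      rw [ZMod.val_natCast, Nat.mod_eq_of_lt (Finset.mem_range.1 hp)]
    · intro j _; rfl
  rw [h1, ← D.eqv.sum_comp, Fintype.sum_sum_type, ← Finset.sum_add_distrib]
  refine Finset.sum_congr rfl fun a _ => ?_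
  rw [D.eqv_inl, D.eqv_inr]
  obtain ⟨_, _, ⟨_, _, _, h3, h4⟩ | ⟨_, _, _, h3, h4⟩⟩ := fs_cases D a
  · rw [h3, h4]
  · rw [h3, h4, add_comm]

/-- rotated position -/
def ph (n s u : ℕ) : ℕ := if s < u then u - (s + 1) else u + 2 * n - (s + 1)

theorem ph_eq [NeZero n] {s u : ℕ} (hs : s < 2 * n) (hu : u < 2 * n) :
    ((u : ZMod (2 * n)) - ((s : ZMod (2 * n)) + 1)).val = ph n s u := by
  have h1 : (u : ZMod (2 * n)) - ((s : ZMod (2 * n)) + 1) = ((ph n s u : ℕ) : ZMod (2 * n)) := by
    unfold ph
    split_ifs with h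
    · rw [Nat.cast_sub (by omega)]; push_cast; ring
    · rw [Nat.cast_sub (by omega), Nat.cast_add, ZMod.natCast_self]; push_cast; ring
  have h2 : ph n s u < 2 * n := by
    unfold ph
    split_ifs with h <;> omega
  rw [h1, ZMod.val_natCast, Nat.mod_eq_of_lt h2]

theorem at_tau (c : Fin n) (p : ℕ) : (D.shadowAt c).tau (p : ZMod (2 * n)) =
    D.shadow.tau ((p + D.fst c + 1 : ℕ) : ZMod (2 * n)) := by
  unfold KnotDiagram.shadowAt Shadow.rot
  simp only
  congr 1
  push_cast
  ring

theorem at_pt [NeZero n] (c : Fin n) (p : ℕ) : (D.shadowAt c).pt p =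
    ph n (D.fst c) (D.shadow.pt (p + D.fst c + 1)) := by
  have hc := fs_cases D c
  have hlt : D.shadow.pt (p + D.fst c + 1) < 2 * n := ZMod.val_lt _
  rw [← ph_eq (by omega) hlt]
  unfold Shadow.pt KnotDiagram.shadowAt Shadow.rot
  simp only
  rw [ZMod.natCast_zmod_val]
  congr 3
  push_cast
  ring

open Classical in
/-- position of the endpoint of `a` between the two passages of `c` -/
noncomputable def X (c a : Fin n) : ℕ := if D.Cr a c then D.snd a else D.fst a

open Classical in
/-- rotated position of the other endpoint -/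
noncomputable def Y (c a : Fin n) : ℕ :=
  ph n (D.fst c) (if D.Cr a c then D.fst a else D.snd a)

theorem distinct [NeZero n] {a c : Fin n} (h : a ≠ c) :
    D.fst a ≠ D.fst c ∧ D.fst a ≠ D.snd c ∧ D.snd a ≠ D.fst c ∧ D.snd a ≠ D.snd c := by
  have key : ∀ x y : Fin n ⊕ Fin n, x ≠ y → (D.eqv x).val ≠ (D.eqv y).val := by
    intro x y hxy h2
    exact hxy (D.eqv.injective (ZMod.val_injective _ h2))
  have k1 := key (Sum.inl a) (Sum.inl c) (by simp [h])
  have k2 := key (Sum.inl a) (Sum.inr c) (by simp)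
  have k3 := key (Sum.inr a) (Sum.inl c) (by simp)
  have k4 := key (Sum.inr a) (Sum.inr c) (by simp [h])
  simp only [D.eqv_inl, D.eqv_inr] at k1 k2 k3 k4
  obtain ⟨_, _, ⟨_, _, _, h3, h4⟩ | ⟨_, _, _, h3, h4⟩⟩ := fs_cases D a <;>
  obtain ⟨_, _, ⟨_, _, _, h5, h6⟩ | ⟨_, _, _, h5, h6⟩⟩ := fs_cases D c <;>
  refine ⟨?_, ?_, ?_, ?_⟩ <;> omega

/-- one variable lemma -/
theorem one (c : Fin n) (K : ℕ → ℕ → ℝ) :
    ∑ p ∈ range (D.mid c), (if D.mid c < (D.shadowAt c).pt p
      then ((D.shadowAt c).tau (p : ZMod (2 * n)) : ℝ) *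
        K (p + D.fst c + 1) ((D.shadowAt c).pt p) else 0) =
      ∑ a, D.theta c a * K (X D c a) (Y D c a) := by
  have := npos c
  have hc := fs_cases D c
  set s := D.fst c with hs
  set t := D.snd c with ht
  have hmid : D.mid c = t - s - 1 := rfl
  let g : ℕ → ℝ := fun x => if (s < x ∧ x < t) ∧ D.mid c < ph n s (D.shadow.pt x) then
    (D.shadow.tau (x : ZMod (2 * n)) : ℝ) * K x (ph n s (D.shadow.pt x)) else 0
  have h1 : ∑ p ∈ range (D.mid c), (if D.mid c < (D.shadowAt c).pt p
      then ((D.shadowAt c).tau (p : ZMod (2 * n)) : ℝ) *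
        K (p + s + 1) ((D.shadowAt c).pt p) else 0) = ∑ x ∈ range (2 * n), g x := by
    have h2 : ∑ x ∈ range (2 * n), g x = ∑ x ∈ Ico (s + 1) t, g x := by
      symm
      refine Finset.sum_subset ?_ ?_
      · intro x hx
        have := Finset.mem_Ico.1 hx
        exact Finset.mem_range.2 (by omega)
      · intro x _ hx
        have h3 : ¬ (s + 1 ≤ x ∧ x < t) := fun h => hx (Finset.mem_Ico.2 h)
        exact if_neg (fun h => h3 ⟨h.1.1, h.1.2⟩)
    rw [h2, Finset.sum_Ico_eq_sum_range]
    have h3 : t - (s + 1) = D.mid c := by rw [hmid]; omega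
    rw [h3]
    refine Finset.sum_congr rfl fun p hp => ?_
    have hp' := Finset.mem_range.1 hp
    have e1 : s + 1 + p = p + s + 1 := by ring
    rw [e1, at_pt, at_tau, ← hs]
    show _ = if (s < p + s + 1 ∧ p + s + 1 < t) ∧ D.mid c < ph n s (D.shadow.pt (p + s + 1)) then
      _ else _
    have h4 : (s < p + s + 1 ∧ p + s + 1 < t) := by
      rw [hmid] at hp'
      constructor <;> omega
    simp only [h4, true_and, and_self]
  rw [h1, sum_pos D]
  refine Finset.sum_congr rfl fun a _ => ?_
  have ha := fs_cases D a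
  obtain ⟨_, _, ht1, ht2⟩ := facts D a
  show (if (s < D.fst a ∧ D.fst a < t) ∧ D.mid c < ph n s (D.shadow.pt (D.fst a)) then
    (D.shadow.tau (D.fst a : ZMod (2 * n)) : ℝ) * K (D.fst a) (ph n s (D.shadow.pt (D.fst a)))
      else 0) + (if (s < D.snd a ∧ D.snd a < t) ∧ D.mid c < ph n s (D.shadow.pt (D.snd a)) then
    (D.shadow.tau (D.snd a : ZMod (2 * n)) : ℝ) * K (D.snd a) (ph n s (D.shadow.pt (D.snd a)))
      else 0) = _
  rw [pt_fst, pt_snd, ht1, ht2, hmid]
  have hcr1 : D.Cr a c ↔ D.fst a < s ∧ s < D.snd a ∧ D.snd a < t := Iff.rfl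
  have hcr2 : D.Cr c a ↔ s < D.fst a ∧ D.fst a < t ∧ t < D.snd a := Iff.rfl
  by_cases hac : a = c
  · subst hac
    rw [← hs, ← ht]
    have e1 : ¬ D.Cr a a := fun h => absurd h.1 (lt_irrefl _)
    rw [KnotDiagram.theta, if_neg e1, if_neg e1]
    rw [if_neg (by omega), if_neg (by omega)]
    ring
  have hd := distinct D hac
  rw [← hs, ← ht] at hd
  by_cases h2 : D.Cr a c
  · have h2' := hcr1.1 h2
    rw [KnotDiagram.theta, if_pos h2, X, if_pos h2, Y, if_pos h2, ← hs]
    rw [if_neg (by omega), if_pos, zero_add]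
    refine ⟨by omega, ?_⟩
    unfold ph
    split_ifs <;> omega
  · by_cases h3 : D.Cr c a
    · have h3' := hcr2.1 h3
      rw [KnotDiagram.theta, if_neg h2, if_pos h3, X, if_neg h2, Y, if_neg h2, ← hs]
      rw [if_pos, if_neg (by omega), add_zero]
      refine ⟨by omega, ?_⟩
      unfold ph
      split_ifs <;> omega
    · have h2' : ¬ (D.fst a < s ∧ s < D.snd a ∧ D.snd a < t) := fun h => h2 (hcr1.2 h)
      have h3' : ¬ (s < D.fst a ∧ D.fst a < t ∧ t < D.snd a) := fun h => h3 (hcr2.2 h)
      rw [KnotDiagram.theta, if_neg h2, if_neg h3]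
      have g1 : ¬ ((s < D.fst a ∧ D.fst a < t) ∧ t - s - 1 < ph n s (D.snd a)) := by
        unfold ph
        rintro ⟨⟨g1, g2⟩, g3⟩
        split_ifs at g3 <;> omega
      have g2 : ¬ ((s < D.snd a ∧ D.snd a < t) ∧ t - s - 1 < ph n s (D.fst a)) := by
        unfold ph
        rintro ⟨⟨g1, g2⟩, g3⟩
        split_ifs at g3 <;> omega
      rw [if_neg g1, if_neg g2]
      ring

end Link2Aux

open Link2Aux

namespace KnotDiagram

variable {n : ℕ} (D : KnotDiagram n)

theorem mid_lt (c : Fin n) : D.mid c < 2 * n - 1 := by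
  have := npos c
  have h := fs_cases D c
  unfold mid
  omega

theorem link_pt (c : Fin n) : (D.shadowAt c).pt (2 * n - 1) = D.mid c := by
  have := npos c
  have h := fs_cases D c
  have hn : 1 ≤ 2 * n := by omega
  rw [Shadow.pt]
  unfold shadowAt Shadow.rot
  simp only
  have e1 : ((2 * n - 1 : ℕ) : ZMod (2 * n)) + ((D.fst c : ZMod (2 * n)) + 1) =
      (D.fst c : ZMod (2 * n)) := by
    rw [Nat.cast_sub hn, ZMod.natCast_self]
    push_cast
    ring
  rw [e1, (facts D c).1, ph_eq (by omega) (by omega)]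
  unfold ph mid
  rw [if_pos h.1]
  omega

theorem link_theta (c : Fin n) :
    ∑ a, D.theta c a = (((∑ p ∈ range (D.mid c), if D.mid c < (D.shadowAt c).pt p
      then (D.shadowAt c).tau (p : ZMod (2 * n)) else 0 : ℤ)) : ℝ) := by
  have h := one D c (fun _ _ => 1)
  simp only [mul_one] at h
  rw [← h]
  push_cast
  rfl

theorem link_Wc (c : Fin n) : D.Wc c = (((D.shadowAt c).Wxy (D.mid c) : ℤ) : ℝ) := by
  have := npos c
  classical
  have hW : (((D.shadowAt c).Wxy (D.mid c) : ℤ) : ℝ) =
      ∑ a, ∑ b, D.theta c a * D.theta c b *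
        (if X D c a < X D c b ∧ Y D c a < Y D c b then 1 else 0) := by
    have h1 : (((D.shadowAt c).Wxy (D.mid c) : ℤ) : ℝ) =
        ∑ p ∈ range (D.mid c), (if D.mid c < (D.shadowAt c).pt p
          then ((D.shadowAt c).tau (p : ZMod (2 * n)) : ℝ) *
          (fun x y : ℕ => ∑ b, D.theta c b * (if x < X D c b ∧ y < Y D c b then 1 else 0))
            (p + D.fst c + 1) ((D.shadowAt c).pt p) else 0) := by
      unfold Shadow.Wxy
      push_cast
      refine Finset.sum_congr rfl fun p _ => ?_
      by_cases hp : D.mid c < (D.shadowAt c).pt p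
      · rw [if_pos hp]
        rw [← one D c (fun x y => if p + D.fst c + 1 < x ∧ (D.shadowAt c).pt p < y then 1 else 0),
          Finset.mul_sum]
        refine Finset.sum_congr rfl fun q _ => ?_
        by_cases hq : p < q ∧ (D.shadowAt c).pt p < (D.shadowAt c).pt q
        · rw [if_pos ⟨hq.1, hp, hq.2⟩, if_pos (lt_trans hp hq.2),
            if_pos ⟨by omega, hq.2⟩, mul_one]
        · have g1 : ¬ (p < q ∧ D.mid c < (D.shadowAt c).pt p ∧
              (D.shadowAt c).pt p < (D.shadowAt c).pt q) := fun h => hq ⟨h.1, h.2.2⟩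
          have g2 : ¬ (p + D.fst c + 1 < q + D.fst c + 1 ∧
              (D.shadowAt c).pt p < (D.shadowAt c).pt q) := fun h => hq ⟨by omega, h.2⟩
          rw [if_neg g1, if_neg g2, mul_zero, ite_self, mul_zero]
      · rw [if_neg hp]
        refine Finset.sum_eq_zero fun q _ => ?_
        rw [if_neg (fun h => hp h.2.1)]
    rw [h1]
    refine (one D c (fun x y : ℕ => ∑ b, D.theta c b *
      (if x < X D c b ∧ y < Y D c b then 1 else 0))).trans ?_
    refine Finset.sum_congr rfl fun a _ => ?_
    rw [Finset.mul_sum]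
    refine Finset.sum_congr rfl fun b _ => ?_
    ring
  rw [hW]
  -- symmetrise
  have hL : 2 * D.Wc c = ∑ a, ∑ b, D.theta c a * D.theta c b *
      ((if D.Cr a b then 1 else 0) + (if D.Cr b a then 1 else 0)) := by
    have e1 : D.Wc c = ∑ a, ∑ b, D.theta c a * D.theta c b * (if D.Cr a b then 1 else 0) := by
      unfold Wc
      refine Finset.sum_congr rfl fun a _ => Finset.sum_congr rfl fun b _ => ?_
      split_ifs <;> ring
    have e2 : D.Wc c = ∑ a, ∑ b, D.theta c a * D.theta c b * (if D.Cr b a then 1 else 0) := by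
      rw [e1, Finset.sum_comm]
      refine Finset.sum_congr rfl fun a _ => Finset.sum_congr rfl fun b _ => ?_
      ring
    rw [two_mul]
    nth_rw 1 [e1]
    rw [e2, ← Finset.sum_add_distrib]
    refine Finset.sum_congr rfl fun a _ => ?_
    rw [← Finset.sum_add_distrib]
    refine Finset.sum_congr rfl fun b _ => ?_
    ring
  have hR : 2 * ∑ a, ∑ b, D.theta c a * D.theta c b *
        (if X D c a < X D c b ∧ Y D c a < Y D c b then (1 : ℝ) else 0) =
      ∑ a, ∑ b, D.theta c a * D.theta c b *
        ((if X D c a < X D c b ∧ Y D c a < Y D c b then 1 else 0) +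
          (if X D c b < X D c a ∧ Y D c b < Y D c a then 1 else 0)) := by
    have e2 : ∑ a, ∑ b, D.theta c a * D.theta c b *
        (if X D c a < X D c b ∧ Y D c a < Y D c b then (1 : ℝ) else 0) =
        ∑ a, ∑ b, D.theta c a * D.theta c b *
        (if X D c b < X D c a ∧ Y D c b < Y D c a then (1 : ℝ) else 0) := by
      rw [Finset.sum_comm]
      refine Finset.sum_congr rfl fun a _ => Finset.sum_congr rfl fun b _ => ?_
      ring
    rw [two_mul]
    nth_rw 2 [e2]
    rw [← Finset.sum_add_distrib]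
    refine Finset.sum_congr rfl fun a _ => ?_
    rw [← Finset.sum_add_distrib]
    refine Finset.sum_congr rfl fun b _ => ?_
    ring
  have hE : ∑ a, ∑ b, D.theta c a * D.theta c b *
      ((if D.Cr a b then 1 else 0) + (if D.Cr b a then 1 else 0)) =
      ∑ a, ∑ b, D.theta c a * D.theta c b *
        ((if X D c a < X D c b ∧ Y D c a < Y D c b then 1 else 0) +
          (if X D c b < X D c a ∧ Y D c b < Y D c a then (1 : ℝ) else 0)) := by
    refine Finset.sum_congr rfl fun a _ => Finset.sum_congr rfl fun b _ => ?_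
    have hc := fs_cases D c
    have ha := fs_cases D a
    have hb := fs_cases D b
    have hcr : ∀ u v, D.Cr u v ↔ D.fst u < D.fst v ∧ D.fst v < D.snd u ∧ D.snd u < D.snd v :=
      fun _ _ => Iff.rfl
    by_cases h1 : D.Cr a c
    · by_cases h2 : D.Cr b c
      · rw [X, if_pos h1, Y, if_pos h1, X, if_pos h2, Y, if_pos h2]
        rw [hcr] at h1 h2
        simp only [hcr]
        unfold ph
        congr 2
        · congr 1
          rw [eq_iff_iff]
          split_ifs <;> omega
        · congr 1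
          rw [eq_iff_iff]
          split_ifs <;> omega
      · by_cases h3 : D.Cr c b
        · rw [X, if_pos h1, Y, if_pos h1, X, if_neg h2, Y, if_neg h2]
          rw [hcr] at h1 h2 h3
          simp only [hcr]
          unfold ph
          congr 1
          rw [add_comm]
          congr 1
          · congr 1
            rw [eq_iff_iff]
            split_ifs <;> omega
          · congr 1
            rw [eq_iff_iff]
            split_ifs <;> omega
        · have : D.theta c b = 0 := by rw [theta, if_neg h2, if_neg h3]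
          rw [this, mul_zero, zero_mul, zero_mul]
    · by_cases h1' : D.Cr c a
      · by_cases h2 : D.Cr b c
        · rw [X, if_neg h1, Y, if_neg h1, X, if_pos h2, Y, if_pos h2]
          rw [hcr] at h1 h2 h1'
          simp only [hcr]
          unfold ph
          congr 1
          rw [add_comm]
          congr 1
          · congr 1
            rw [eq_iff_iff]
            split_ifs <;> omega
          · congr 1
            rw [eq_iff_iff]
            split_ifs <;> omega
        · by_cases h3 : D.Cr c b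
          · rw [X, if_neg h1, Y, if_neg h1, X, if_neg h2, Y, if_neg h2]
            rw [hcr] at h1 h2 h3 h1'
            simp only [hcr]
            unfold ph
            congr 2
            · congr 1
              rw [eq_iff_iff]
              split_ifs <;> omega
            · congr 1
              rw [eq_iff_iff]
              split_ifs <;> omega
          · have : D.theta c b = 0 := by rw [theta, if_neg h2, if_neg h3]
            rw [this, mul_zero, zero_mul, zero_mul]
      · have : D.theta c a = 0 := by rw [theta, if_neg h1, if_neg h1']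
        rw [this, zero_mul, zero_mul, zero_mul]
  rw [hE, ← hR] at hL
  linarith

end KnotDiagram

end Pool.H3F
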