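import Pool.Agent.H3F.Asm
import Pool.Agent.H3F.Link1
import Pool.Agent.H3F.Link2
import Pool.Agent.H3F.Form2
import Pool.Agent.H3F.Form3B

/-! The Vassiliev invariants are, up to lower order terms, forms of the signed chord diagram. -/

namespace Pool.H3F

open Finset

/-- Weights `sgn / n`. -/
noncomputable def KnotDiagram.rho {n : ℕ} (D : KnotDiagram n) (c : Fin n) : ℝ := D.sg c / n

theorem planarity (η : ℝ) (hη : 0 < η) : ∃ n0 : ℕ, ∀ n : ℕ, n0 ≤ n → ∀ S : Shadow n, ∀ l : ℕ,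
    l ≤ 2 * n → S.Closed l → |(S.Wl l : ℝ)| ≤ η * (n : ℝ) ^ 2 := by
  obtain ⟨C, hC⟩ := exists_nat_ge (4 / η)
  obtain ⟨n1, hn1⟩ := exists_nat_ge (2 * (Shadow.Kc C : ℝ) / η)
  refine ⟨n1 + 1, fun n hn S l hl hcl => ?_⟩
  haveI : NeZero n := ⟨by omega⟩
  have h1 := Shadow.asm (S := S) l hl hcl C
  refine h1.trans ?_
  have hC1 : (0:ℝ) < (C : ℝ) + 1 := by positivity
  have h2 : 2 * (n : ℝ) ^ 2 / ((C : ℝ) + 1) ≤ η / 2 * (n : ℝ) ^ 2 := by
    rw [div_le_iff₀ hC1]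
    have h3 : 4 ≤ η * (C : ℝ) := by
      rw [div_le_iff₀ hη] at hC; linarith
    nlinarith [sq_nonneg (n : ℝ)]
  have h4 : (Shadow.Kc C : ℝ) * n ≤ η / 2 * (n : ℝ) ^ 2 := by
    have h5 : 2 * (Shadow.Kc C : ℝ) ≤ n * η := by
      rw [div_le_iff₀ hη] at hn1
      have : (n1 : ℝ) ≤ n := by exact_mod_cast (by omega : n1 ≤ n)
      nlinarith
    have h6 : (0:ℝ) ≤ n := Nat.cast_nonneg n
    nlinarith
  linarith

namespace TopAux

theorem aOf_rho {n : ℕ} (D : KnotDiagram n) : aOf D.rho D.I = aOf D.sg D.I / (n : ℝ) ^ 2 := by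
  unfold aOf KnotDiagram.rho
  rw [Finset.sum_div]
  refine Finset.sum_congr rfl fun i _ => ?_
  rw [Finset.sum_div]
  refine Finset.sum_congr rfl fun j _ => ?_
  rw [div_mul_div_comm, ← pow_two, div_mul_eq_mul_div]

theorem bOf_rho {n : ℕ} (D : KnotDiagram n) : bOf D.rho D.I = bOf D.sg D.I / (n : ℝ) ^ 3 := by
  unfold bOf KnotDiagram.rho
  rw [Finset.sum_div]
  refine Finset.sum_congr rfl fun i _ => ?_
  rw [Finset.sum_div]
  refine Finset.sum_congr rfl fun j _ => ?_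
  rw [Finset.sum_div]
  refine Finset.sum_congr rfl fun k _ => ?_
  rw [div_mul_div_comm, div_mul_div_comm, div_mul_eq_mul_div]
  congr 1
  ring

theorem abs_sg {n : ℕ} (D : KnotDiagram n) (c : Fin n) : |D.sg c| = 1 := by
  unfold KnotDiagram.sg
  rcases D.sgn_pm c with h | h <;> rw [h] <;> simp

theorem theta_zero {n : ℕ} [NeZero n] (D : KnotDiagram n) (c : Fin n) :
    ∑ a, D.theta c a = 0 := by
  rw [D.link_theta c]
  have h := (D.shadowAt c).xy_zero (D.mid c) (D.mid_lt c) (D.link_pt c)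
  rw [h]
  simp

theorem Wc_le {n : ℕ} [NeZero n] {η : ℝ}
    (hpl : ∀ S : Shadow n, ∀ l : ℕ, l ≤ 2 * n → S.Closed l → |(S.Wl l : ℝ)| ≤ η * (n : ℝ) ^ 2)
    (D : KnotDiagram n) (c : Fin n) : |D.Wc c| ≤ 3 * (η * (n : ℝ) ^ 2) := by
  have hm := D.mid_lt c
  have hpt := D.link_pt c
  have hs := (D.shadowAt c).split (D.mid c) hm hpt
  have hr := (D.shadowAt c).Wl_rot (D.mid c + 1) (2 * n - 2 - D.mid c) (by omega)
  have e : D.mid c + 1 + (2 * n - 2 - D.mid c) = 2 * n - 1 := by omega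
  rw [e] at hr
  have h1 := hpl (D.shadowAt c) (2 * n - 1) (by omega) (D.shadowAt c).closed_cut
  have h2 := hpl (D.shadowAt c) (D.mid c) (by omega) ((D.shadowAt c).closed_fst _ hm hpt)
  have h3 := hpl _ (2 * n - 2 - D.mid c) (by omega) ((D.shadowAt c).closed_snd _ hm hpt)
  rw [hr] at h3
  rw [D.link_Wc c]
  have hw : ((D.shadowAt c).Wxy (D.mid c) : ℝ) = ((D.shadowAt c).Wl (2 * n - 1) : ℝ) -
      ((D.shadowAt c).Wl (D.mid c) : ℝ) - ((D.shadowAt c).Wi (D.mid c + 1) (2 * n - 1) : ℝ) := by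
    rw [hs]; push_cast; ring
  rw [hw]
  rw [abs_le] at h1 h2 h3 ⊢
  constructor <;> linarith [h1.1, h1.2, h2.1, h2.2, h3.1, h3.2]

end TopAux

theorem top (η : ℝ) (hη : 0 < η) : ∃ n0 : ℕ, ∀ n : ℕ, n0 ≤ n → ∀ D : KnotDiagram n,
    |8 * (D.v2 / (n : ℝ) ^ 2) - aOf D.rho D.I| ≤ η ∧
      |48 * (D.v3 / (n : ℝ) ^ 3) - bOf D.rho D.I| ≤ η := by
  obtain ⟨n0, hn0⟩ := planarity (η / 18) (by positivity)
  refine ⟨n0 + 1, fun n hn D => ?_⟩
  haveI : NeZero n := ⟨by omega⟩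
  have hnpos : (0:ℝ) < n := by exact_mod_cast (by omega : 0 < n)
  have hpl := hn0 n (by omega)
  constructor
  · have h1 := hpl D.shadow (2 * n) le_rfl D.shadow.closed_all
    rw [← D.link1] at h1
    rw [TopAux.aOf_rho]
    have e : 8 * (D.v2 / (n : ℝ) ^ 2) - aOf D.sg D.I / (n : ℝ) ^ 2 = -(2 * D.W / (n : ℝ) ^ 2) := by
      have := D.form2
      field_simp
      linarith
    rw [e, abs_neg, abs_div, abs_mul, abs_of_pos (pow_pos hnpos 2), abs_two,
      div_le_iff₀ (pow_pos hnpos 2)]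
    have : 0 < (n : ℝ) ^ 2 := pow_pos hnpos 2
    nlinarith
  · have hth := fun c => TopAux.theta_zero D c
    rw [TopAux.bOf_rho]
    have e : 48 * (D.v3 / (n : ℝ) ^ 3) - bOf D.sg D.I / (n : ℝ) ^ 3 =
        -(6 * (∑ c, D.sg c * D.Wc c) / (n : ℝ) ^ 3) := by
      have := D.form3 hth
      field_simp
      linarith
    have hsum : |∑ c, D.sg c * D.Wc c| ≤ (n : ℝ) * (3 * (η / 18 * (n : ℝ) ^ 2)) := by
      refine (Finset.abs_sum_le_sum_abs _ _).trans ?_
      calc ∑ c, |D.sg c * D.Wc c| ≤ ∑ _c : Fin n, 3 * (η / 18 * (n : ℝ) ^ 2) := by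
            refine Finset.sum_le_sum fun c _ => ?_
            rw [abs_mul, TopAux.abs_sg, one_mul]
            exact TopAux.Wc_le hpl D c
        _ = _ := by
            rw [Finset.sum_const, Finset.card_univ, Fintype.card_fin, nsmul_eq_mul]
    rw [e, abs_neg, abs_div, abs_mul, abs_of_pos (pow_pos hnpos 3),
      abs_of_pos (by norm_num : (0:ℝ) < 6), div_le_iff₀ (pow_pos hnpos 3)]
    have : η * (n : ℝ) ^ 3 = 6 * ((n : ℝ) * (3 * (η / 18 * (n : ℝ) ^ 2))) := by ring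
    rw [this]
    linarith

theorem isSys_diagram {n : ℕ} (D : KnotDiagram n) (hn : 0 < n) : IsSys D.rho D.I := by
  have hnpos : (0:ℝ) < n := by exact_mod_cast hn
  refine ⟨?_, ?_, ?_⟩
  · intro i j
    unfold KnotDiagram.I
    have : D.Inter i j = D.Inter j i := by
      unfold KnotDiagram.Inter
      exact propext or_comm
    rw [this]
  · intro i j
    unfold KnotDiagram.I ind
    split_ifs
    · exact Or.inr rfl
    · exact Or.inl rfl
  · unfold KnotDiagram.rho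
    have : ∀ c, |D.sg c / (n : ℝ)| = 1 / n := by
      intro c
      rw [abs_div, TopAux.abs_sg, abs_of_pos hnpos]
    simp only [this, Finset.sum_const, Finset.card_univ, Fintype.card_fin, nsmul_eq_mul]
    field_simp

end Pool.H3F
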