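import Pool.Agent.H3F.FBlk
import Pool.Agent.H3F.FTail
import Pool.Agent.H3F.FLeft
import Pool.Agent.H3F.FFour
import Pool.Agent.H3F.Top

/-! Limit points that come from the families. -/

namespace Pool.H3F

open Finset

namespace FSeqAux

open Filter

theorem tendsto_zero_of_bound (u : ℕ → ℝ) (m : ℕ → ℕ) (hm : Tendsto m atTop atTop) (K : ℝ)
    (h : ∀ η : ℝ, 0 < η → ∃ n0 : ℕ, ∀ j, n0 ≤ m j → |u j| ≤ η + K / (m j : ℝ)) :
    Tendsto u atTop (nhds 0) := by
  have hK : Tendsto (fun j => K / (m j : ℝ)) atTop (nhds 0) :=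
    tendsto_const_nhds.div_atTop (tendsto_natCast_atTop_atTop.comp hm)
  rw [Metric.tendsto_nhds]
  intro ε hε
  obtain ⟨n0, hn0⟩ := h (ε / 2) (by positivity)
  have h1 : ∀ᶠ j in atTop, n0 ≤ m j := hm.eventually_ge_atTop n0
  have h2 : ∀ᶠ j in atTop, K / (m j : ℝ) < ε / 2 :=
    hK.eventually_lt_const (by positivity)
  filter_upwards [h1, h2] with j hj1 hj2
  rw [Real.dist_eq, sub_zero]
  have := hn0 j hj1
  linarith

theorem aOf_tendsto {B : ℕ} (E : Fin B → Fin B → ℝ) (e x : Fin B → ℝ) (y : ℕ → Fin B → ℝ)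
    (hy : ∀ i, Tendsto (fun j => y j i) atTop (nhds (x i))) :
    Tendsto (fun j => aOf (fun i => e i * y j i) E) atTop (nhds (aOf (fun i => e i * x i) E)) := by
  unfold aOf
  apply tendsto_finsetSum
  intro i _
  apply tendsto_finsetSum
  intro k _
  exact (((hy i).const_mul (e i)).mul ((hy k).const_mul (e k))).mul_const _

theorem bOf_tendsto {B : ℕ} (E : Fin B → Fin B → ℝ) (e x : Fin B → ℝ) (y : ℕ → Fin B → ℝ)
    (hy : ∀ i, Tendsto (fun j => y j i) atTop (nhds (x i))) :
    Tendsto (fun j => bOf (fun i => e i * y j i) E) atTop (nhds (bOf (fun i => e i * x i) E)) := by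
  unfold bOf
  apply tendsto_finsetSum
  intro i _
  apply tendsto_finsetSum
  intro k _
  apply tendsto_finsetSum
  intro l _
  exact ((((hy i).const_mul (e i)).mul ((hy k).const_mul (e k))).mul
    ((hy l).const_mul (e l))).mul_const _

end FSeqAux

/-- Diagrams with block weights tending to `x` give the limit point. -/
theorem limit_of_blocks {B : ℕ} (E : Fin B → Fin B → ℝ) (hE : ∀ i j, E i j = 0 ∨ E i j = 1)
    (e : Fin B → ℝ) (he : ∀ i, e i = 1 ∨ e i = -1) (x : Fin B → ℝ) (m : ℕ → ℕ)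
    (hm : Filter.Tendsto m Filter.atTop Filter.atTop) (D : ∀ j, KnotDiagram (m j))
    (ty : ∀ j, Fin (m j) → Fin B) (hsg : ∀ j c, (D j).sg c = e (ty j c))
    (hI : ∀ j c d, c ≠ d → ((D j).Inter c d ↔ E (ty j c) (ty j d) = 1))
    (hx : ∀ i, Filter.Tendsto (fun j => ((univ.filter fun c => ty j c = i).card : ℝ) / m j)
      Filter.atTop (nhds (x i))) :
    (aOf (fun i => e i * x i) E / 8, bOf (fun i => e i * x i) E / 48) ∈ fishLimits := by
  refine ⟨m, D, hm, ?_⟩
  have hA := FSeqAux.aOf_tendsto E e x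
    (fun j i => ((univ.filter fun c => ty j c = i).card : ℝ) / m j) hx
  have hB := FSeqAux.bOf_tendsto E e x
    (fun j i => ((univ.filter fun c => ty j c = i).card : ℝ) / m j) hx
  have hblk : ∀ j, 0 < m j →
      |aOf (D j).rho (D j).I - aOf (fun i => e i *
        (((univ.filter fun c => ty j c = i).card : ℝ) / m j)) E| ≤ 1 / m j ∧
      |bOf (D j).rho (D j).I - bOf (fun i => e i *
        (((univ.filter fun c => ty j c = i).card : ℝ) / m j)) E| ≤ 12 / m j := by
    intro j hj
    exact block_forms hj (D j) (ty j) E hE e he (hsg j) (hI j) _ (fun i => rfl)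
  have hdA : Filter.Tendsto (fun j => 8 * ((D j).v2 / (m j : ℝ) ^ 2) -
      aOf (fun i => e i * (((univ.filter fun c => ty j c = i).card : ℝ) / m j)) E)
      Filter.atTop (nhds 0) := by
    apply FSeqAux.tendsto_zero_of_bound _ m hm 1
    intro η hη
    obtain ⟨n0, hn0⟩ := top η hη
    refine ⟨max n0 1, fun j hj => ?_⟩
    have h1 := (hn0 (m j) ((le_max_left _ _).trans hj) (D j)).1
    have h2 := (hblk j (lt_of_lt_of_le Nat.one_pos ((le_max_right _ _).trans hj))).1
    calc _ = |(8 * ((D j).v2 / (m j : ℝ) ^ 2) - aOf (D j).rho (D j).I) +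
          (aOf (D j).rho (D j).I - aOf (fun i => e i *
            (((univ.filter fun c => ty j c = i).card : ℝ) / m j)) E)| := by
          congr 1; ring
      _ ≤ _ := abs_add_le _ _
      _ ≤ η + 1 / m j := add_le_add h1 h2
  have hdB : Filter.Tendsto (fun j => 48 * ((D j).v3 / (m j : ℝ) ^ 3) -
      bOf (fun i => e i * (((univ.filter fun c => ty j c = i).card : ℝ) / m j)) E)
      Filter.atTop (nhds 0) := by
    apply FSeqAux.tendsto_zero_of_bound _ m hm 12
    intro η hη
    obtain ⟨n0, hn0⟩ := top η hη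
    refine ⟨max n0 1, fun j hj => ?_⟩
    have h1 := (hn0 (m j) ((le_max_left _ _).trans hj) (D j)).2
    have h2 := (hblk j (lt_of_lt_of_le Nat.one_pos ((le_max_right _ _).trans hj))).2
    calc _ = |(48 * ((D j).v3 / (m j : ℝ) ^ 3) - bOf (D j).rho (D j).I) +
          (bOf (D j).rho (D j).I - bOf (fun i => e i *
            (((univ.filter fun c => ty j c = i).card : ℝ) / m j)) E)| := by
          congr 1; ring
      _ ≤ _ := abs_add_le _ _
      _ ≤ η + 12 / m j := add_le_add h1 h2
  have h3 := (hdA.add hA).div_const 8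
  have h4 := (hdB.add hB).div_const 48
  refine Filter.Tendsto.prodMk_nhds ?_ ?_
  · refine (h3.congr (fun j => ?_)).trans (le_of_eq ?_)
    · ring
    · rw [zero_add]
  · refine (h4.congr (fun j => ?_)).trans (le_of_eq ?_)
    · ring
    · rw [zero_add]

namespace FSeqAux

open Filter

theorem limit_of_codes {B : ℕ} (E : Fin B → Fin B → ℝ) (hE : ∀ i j, E i j = 0 ∨ E i j = 1)
    (e : Fin B → ℝ) (he : ∀ i, e i = 1 ∨ e i = -1) (x : Fin B → ℝ) (m : ℕ → ℕ)
    (hm : Filter.Tendsto m Filter.atTop Filter.atTop)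
    (ty : ∀ j, Fin (m j) → Fin B)
    (hC : ∀ j, ∃ C : PCode (m j), ∀ c d, c ≠ d → (C.Int c d ↔ E (ty j c) (ty j d) = 1))
    (hx : ∀ i, Filter.Tendsto (fun j => ((univ.filter fun c => ty j c = i).card : ℝ) / m j)
      Filter.atTop (nhds (x i))) :
    (aOf (fun i => e i * x i) E / 8, bOf (fun i => e i * x i) E / 48) ∈ fishLimits := by
  classical
  choose C hC using hC
  choose D hD1 hD2 hD3 hD4 using fun j => exists_diagram (C j) (fun c => decide (e (ty j c) = 1))
  refine limit_of_blocks E hE e he x m hm D ty ?_ ?_ hx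
  · intro j c
    unfold KnotDiagram.sg
    rw [hD1]
    unfold sgb
    rcases he (ty j c) with h | h
    · rw [h]; simp
    · rw [h]
      have : ¬ ((-1 : ℝ) = 1) := by norm_num
      simp [this]
  · intro j c d hcd
    rw [hD4]
    exact hC j c d hcd

theorem card_val {N a b : ℕ} (hab : a ≤ b) (hb : b ≤ N) (P : Fin N → Prop) [DecidablePred P]
    (hP : ∀ c, P c ↔ a ≤ c.val ∧ c.val < b) : (univ.filter P).card = b - a := by
  rw [← Nat.card_Ico a b]
  apply Finset.card_bij (fun c _ => c.val)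
  · intro c hc
    rw [Finset.mem_filter] at hc
    rw [Finset.mem_Ico]
    exact (hP c).1 hc.2
  · intro c _ d _ h
    exact Fin.ext h
  · intro y hy
    rw [Finset.mem_Ico] at hy
    refine ⟨⟨y, by omega⟩, ?_, rfl⟩
    rw [Finset.mem_filter]
    exact ⟨Finset.mem_univ _, (hP _).2 hy⟩

theorem floor_lim (p : ℝ) (hp : 0 ≤ p) (c : ℕ) :
    Tendsto (fun j : ℕ => ((2 * ⌊p * (j : ℝ)⌋₊ + c : ℕ) : ℝ) / (j : ℝ)) atTop
      (nhds (2 * p)) := by
  have h1 : Tendsto (fun j : ℕ => (⌊p * (j : ℝ)⌋₊ : ℝ) / (j : ℝ)) atTop (nhds p) :=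
    (tendsto_nat_floor_mul_div_atTop hp).comp tendsto_natCast_atTop_atTop
  have h2 : Tendsto (fun j : ℕ => (c : ℝ) / (j : ℝ)) atTop (nhds 0) :=
    tendsto_const_nhds.div_atTop tendsto_natCast_atTop_atTop
  have h3 := (h1.const_mul 2).add h2
  rw [add_zero] at h3
  refine h3.congr (fun j => ?_)
  push_cast
  ring

theorem ratio_lim (u N : ℕ → ℕ) (p : ℝ)
    (hu : Tendsto (fun j : ℕ => (u j : ℝ) / (j : ℝ)) atTop (nhds (2 * p)))
    (hN : Tendsto (fun j : ℕ => (N j : ℝ) / (j : ℝ)) atTop (nhds 2)) :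
    Tendsto (fun j : ℕ => (u j : ℝ) / (N j : ℝ)) atTop (nhds p) := by
  have h := hu.div hN (by norm_num)
  have e : 2 * p / 2 = p := by ring
  rw [e] at h
  refine h.congr' ?_
  filter_upwards [eventually_gt_atTop 0] with j hj
  have hj' : (j : ℝ) ≠ 0 := by exact_mod_cast hj.ne'
  simp only [Pi.div_apply]
  rw [div_div_div_cancel_right₀ hj']

theorem atTop_of_ratio (N : ℕ → ℕ)
    (hN : Tendsto (fun j : ℕ => (N j : ℝ) / (j : ℝ)) atTop (nhds 2)) :
    Tendsto N atTop atTop := by
  rw [← tendsto_natCast_atTop_iff (R := ℝ)]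
  have h := hN.pos_mul_atTop (by norm_num) (tendsto_natCast_atTop_atTop (R := ℝ))
  refine h.congr' ?_
  filter_upwards [eventually_gt_atTop 0] with j hj
  have hj' : (j : ℝ) ≠ 0 := by exact_mod_cast hj.ne'
  exact div_mul_cancel₀ _ hj'

theorem ty3_card (m n k : ℕ) (ty : Fin (m + n + k) → Fin 3)
    (hty : ∀ c, ty c = if c.val < m then 0 else if c.val < m + n then 1 else 2) :
    (univ.filter fun c => ty c = 0).card = m ∧ (univ.filter fun c => ty c = 1).card = n ∧
      (univ.filter fun c => ty c = 2).card = k := by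
  refine ⟨?_, ?_, ?_⟩
  · rw [card_val (Nat.zero_le m) (by omega) (fun c => ty c = 0), Nat.sub_zero]
    intro c
    rw [hty]
    split_ifs with h1 h2
    · simp [h1]
    · simp [h1]
    · simp [h1]
  · rw [card_val (Nat.le_add_right m n) (by omega) (fun c => ty c = 1), Nat.add_sub_cancel_left]
    intro c
    rw [hty]
    split_ifs with h1 h2
    · simp; omega
    · simp; omega
    · simp; omega
  · rw [card_val (Nat.le_add_right (m + n) k) le_rfl (fun c => ty c = 2),
      Nat.add_sub_cancel_left]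
    intro c
    have := c.isLt
    rw [hty]
    split_ifs with h1 h2
    · simp; omega
    · simp; omega
    · simp; omega

theorem ty4_card (m l n k : ℕ) (ty : Fin (m + l + n + k) → Fin 4)
    (hty : ∀ c, ty c = if c.val < m then 0 else if c.val < m + l then 1 else
      if c.val < m + l + n then 2 else 3) :
    (univ.filter fun c => ty c = 0).card = m ∧ (univ.filter fun c => ty c = 1).card = l ∧
      (univ.filter fun c => ty c = 2).card = n ∧ (univ.filter fun c => ty c = 3).card = k := by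
  refine ⟨?_, ?_, ?_, ?_⟩
  · rw [card_val (Nat.zero_le m) (by omega) (fun c => ty c = 0), Nat.sub_zero]
    intro c
    rw [hty]
    split_ifs with h1 h2 h3 <;> simp [h1]
  · rw [card_val (Nat.le_add_right m l) (by omega) (fun c => ty c = 1), Nat.add_sub_cancel_left]
    intro c
    rw [hty]
    split_ifs with h1 h2 h3 <;> simp <;> omega
  · rw [card_val (Nat.le_add_right (m + l) n) (by omega) (fun c => ty c = 2),
      Nat.add_sub_cancel_left]
    intro c
    rw [hty]
    split_ifs with h1 h2 h3 <;> simp <;> omega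
  · rw [card_val (Nat.le_add_right (m + l + n) k) le_rfl (fun c => ty c = 3),
      Nat.add_sub_cancel_left]
    intro c
    have := c.isLt
    rw [hty]
    split_ifs with h1 h2 h3 <;> simp <;> omega

end FSeqAux

open FSeqAux in
theorem tail_point (p h r : ℝ) (hp : 0 ≤ p) (hh : 0 ≤ h) (hr : 0 ≤ r) (hsum : p + h + r = 1) :
    ((p ^ 2 + 2 * p * h + r ^ 2) / 8,
      (2 * p ^ 3 + 6 * p ^ 2 * h + 3 * p * h ^ 2 - 2 * r ^ 3) / 48) ∈ fishLimits := by
  let u : ℕ → ℕ := fun j => 2 * ⌊p * (j : ℝ)⌋₊ + 2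
  let v : ℕ → ℕ := fun j => 2 * ⌊h * (j : ℝ)⌋₊ + 1
  let w : ℕ → ℕ := fun j => 2 * ⌊r * (j : ℝ)⌋₊ + 1
  have hu := floor_lim p hp 2
  have hv := floor_lim h hh 1
  have hw := floor_lim r hr 1
  have hN : Filter.Tendsto (fun j : ℕ => ((u j + v j + w j : ℕ) : ℝ) / (j : ℝ)) Filter.atTop
      (nhds 2) := by
    have h1 := (hu.add hv).add hw
    have e : 2 * p + 2 * h + 2 * r = 2 := by linarith
    rw [e] at h1
    refine h1.congr (fun j => ?_)
    simp only [u, v, w]
    push_cast
    ring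
  have key := limit_of_codes tailE (by
      intro i j
      fin_cases i <;> fin_cases j <;> simp [tailE]) ![1, 1, -1] (by
      intro i
      fin_cases i <;> simp) ![p, h, r] (fun j => u j + v j + w j) (atTop_of_ratio _ hN)
    (fun j => tailTy (u j) (v j) (w j)) (fun j => exists_tail (u j) (v j) (w j)
      (by simp only [u]; omega) ⟨⌊p * (j : ℝ)⌋₊ + 1, by simp only [u]; ring⟩
      ⟨⌊h * (j : ℝ)⌋₊, by simp only [v]⟩ ⟨⌊r * (j : ℝ)⌋₊, by simp only [w]⟩) (by
      intro i
      have hc := fun j => ty3_card (u j) (v j) (w j) (tailTy (u j) (v j) (w j)) (fun c => rfl)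
      fin_cases i
      · refine (ratio_lim u _ p hu hN).congr (fun j => ?_)
        simp only [Fin.zero_eta]
        rw [(hc j).1]
      · refine (ratio_lim v _ h hv hN).congr (fun j => ?_)
        simp only [Fin.mk_one]
        rw [(hc j).2.1]
      · refine (ratio_lim w _ r hw hN).congr (fun j => ?_)
        simp only [Fin.reduceFinMk]
        rw [(hc j).2.2])
  have ea : aOf (fun i => ![1, 1, -1] i * ![p, h, r] i) tailE = p ^ 2 + 2 * p * h + r ^ 2 := by
    simp [aOf, tailE, Fin.sum_univ_three]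
    ring
  have eb : bOf (fun i => ![1, 1, -1] i * ![p, h, r] i) tailE =
      2 * p ^ 3 + 6 * p ^ 2 * h + 3 * p * h ^ 2 - 2 * r ^ 3 := by
    simp [bOf, tailE, phi, Fin.sum_univ_three]
    ring
  rw [ea, eb] at key
  exact key

open FSeqAux in
theorem left_point (p q r : ℝ) (hp : 0 ≤ p) (hq : 0 ≤ q) (hr : 0 ≤ r) (hsum : p + q + r = 1) :
    (-(2 * p * q) / 8, (3 * p * q * (q - p)) / 48) ∈ fishLimits := by
  let u : ℕ → ℕ := fun j => 2 * ⌊p * (j : ℝ)⌋₊ + 2
  let v : ℕ → ℕ := fun j => 2 * ⌊q * (j : ℝ)⌋₊ + 2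
  let w : ℕ → ℕ := fun j => 2 * ⌊r * (j : ℝ)⌋₊ + 0
  have hu := floor_lim p hp 2
  have hv := floor_lim q hq 2
  have hw := floor_lim r hr 0
  have hN : Filter.Tendsto (fun j : ℕ => ((u j + v j + w j : ℕ) : ℝ) / (j : ℝ)) Filter.atTop
      (nhds 2) := by
    have h1 := (hu.add hv).add hw
    have e : 2 * p + 2 * q + 2 * r = 2 := by linarith
    rw [e] at h1
    refine h1.congr (fun j => ?_)
    simp only [u, v, w]
    push_cast
    ring
  have key := limit_of_codes leftE (by
      intro i j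
      fin_cases i <;> fin_cases j <;> simp [leftE]) ![1, -1, 1] (by
      intro i
      fin_cases i <;> simp) ![p, q, r] (fun j => u j + v j + w j) (atTop_of_ratio _ hN)
    (fun j => leftTy (u j) (v j) (w j)) (fun j => exists_left (u j) (v j) (w j)
      (by simp only [u]; omega) ⟨⌊p * (j : ℝ)⌋₊ + 1, by simp only [u]; ring⟩
      (by simp only [v]; omega) ⟨⌊q * (j : ℝ)⌋₊ + 1, by simp only [v]; ring⟩) (by
      intro i
      have hc := fun j => ty3_card (u j) (v j) (w j) (leftTy (u j) (v j) (w j)) (fun c => rfl)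
      fin_cases i
      · refine (ratio_lim u _ p hu hN).congr (fun j => ?_)
        simp only [Fin.zero_eta]
        rw [(hc j).1]
      · refine (ratio_lim v _ q hv hN).congr (fun j => ?_)
        simp only [Fin.mk_one]
        rw [(hc j).2.1]
      · refine (ratio_lim w _ r hw hN).congr (fun j => ?_)
        simp only [Fin.reduceFinMk]
        rw [(hc j).2.2])
  have ea : aOf (fun i => ![1, -1, 1] i * ![p, q, r] i) leftE = -(2 * p * q) := by
    simp [aOf, leftE, Fin.sum_univ_three]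
    ring
  have eb : bOf (fun i => ![1, -1, 1] i * ![p, q, r] i) leftE = 3 * p * q * (q - p) := by
    simp [bOf, leftE, phi, Fin.sum_univ_three]
    ring
  rw [ea, eb] at key
  exact key

open FSeqAux in
theorem four_point (p y h g : ℝ) (hp : 0 ≤ p) (hy : 0 ≤ y) (hh : 0 ≤ h) (hg : 0 ≤ g)
    (hsum : p + y + h + g = 1) :
    (aOf ![p, -y, h, g] fourE / 8, bOf ![p, -y, h, g] fourE / 48) ∈ fishLimits := by
  let u : ℕ → ℕ := fun j => 2 * ⌊p * (j : ℝ)⌋₊ + 2
  let v : ℕ → ℕ := fun j => 2 * ⌊y * (j : ℝ)⌋₊ + 2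
  let w : ℕ → ℕ := fun j => 2 * ⌊h * (j : ℝ)⌋₊ + 2
  let z : ℕ → ℕ := fun j => 2 * ⌊g * (j : ℝ)⌋₊ + 1
  have hu := floor_lim p hp 2
  have hv := floor_lim y hy 2
  have hw := floor_lim h hh 2
  have hz := floor_lim g hg 1
  have hN : Filter.Tendsto (fun j : ℕ => ((u j + v j + w j + z j : ℕ) : ℝ) / (j : ℝ))
      Filter.atTop (nhds 2) := by
    have h1 := ((hu.add hv).add hw).add hz
    have e : 2 * p + 2 * y + 2 * h + 2 * g = 2 := by linarith
    rw [e] at h1
    refine h1.congr (fun j => ?_)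
    simp only [u, v, w, z]
    push_cast
    ring
  have key := limit_of_codes fourE (by
      intro i j
      fin_cases i <;> fin_cases j <;> simp [fourE]) ![1, -1, 1, 1] (by
      intro i
      fin_cases i <;> simp) ![p, y, h, g] (fun j => u j + v j + w j + z j)
        (atTop_of_ratio _ hN)
    (fun j => fourTy (u j) (v j) (w j) (z j)) (fun j => exists_four (u j) (v j) (w j) (z j)
      (by simp only [u]; omega) ⟨⌊p * (j : ℝ)⌋₊ + 1, by simp only [u]; ring⟩
      (by simp only [v]; omega) ⟨⌊y * (j : ℝ)⌋₊ + 1, by simp only [v]; ring⟩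
      (by simp only [w]; omega) ⟨⌊h * (j : ℝ)⌋₊ + 1, by simp only [w]; ring⟩
      ⟨⌊g * (j : ℝ)⌋₊, by simp only [z]⟩) (by
      intro i
      have hc := fun j => ty4_card (u j) (v j) (w j) (z j) (fourTy (u j) (v j) (w j) (z j))
        (fun c => rfl)
      fin_cases i
      · refine (ratio_lim u _ p hu hN).congr (fun j => ?_)
        simp only [Fin.zero_eta]
        rw [(hc j).1]
      · refine (ratio_lim v _ y hv hN).congr (fun j => ?_)
        simp only [Fin.mk_one]
        rw [(hc j).2.1]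
      · refine (ratio_lim w _ h hw hN).congr (fun j => ?_)
        simp only [Fin.reduceFinMk]
        rw [(hc j).2.2.1]
      · refine (ratio_lim z _ g hz hN).congr (fun j => ?_)
        simp only [Fin.reduceFinMk]
        rw [(hc j).2.2.2])
  have e0 : (fun i => ![1, -1, 1, 1] i * ![p, y, h, g] i) = ![p, -y, h, g] := by
    ext i
    fin_cases i <;> simp
  rw [e0] at key
  exact key

end Pool.H3F
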