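import Pool.Agent.H3F.Defs2

/-! Sums over triples of pairwise interleaved chords. -/

namespace Pool.H3F

open Finset

namespace Form3AAux

variable {ι : Type*} [Fintype ι]

theorem s23 (h : ι → ι → ι → ℝ) :
    ∑ a, ∑ b, ∑ c, h a b c = ∑ a, ∑ b, ∑ c, h a c b :=
  Finset.sum_congr rfl fun _ _ => Finset.sum_comm

theorem s12 (h : ι → ι → ι → ℝ) :
    ∑ a, ∑ b, ∑ c, h a b c = ∑ a, ∑ b, ∑ c, h b a c :=
  Finset.sum_comm

/-- `(a, b, c) ↦ (b, c, a)` -/
theorem s231 (h : ι → ι → ι → ℝ) :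
    ∑ a, ∑ b, ∑ c, h a b c = ∑ a, ∑ b, ∑ c, h b c a := by
  rw [s23 h, s12 fun a b c => h a c b]

/-- `(a, b, c) ↦ (c, a, b)` -/
theorem s312 (h : ι → ι → ι → ℝ) :
    ∑ a, ∑ b, ∑ c, h a b c = ∑ a, ∑ b, ∑ c, h c a b := by
  rw [s12 h, s23 fun a b c => h b a c]

/-- `(a, b, c) ↦ (c, b, a)` -/
theorem s321 (h : ι → ι → ι → ℝ) :
    ∑ a, ∑ b, ∑ c, h a b c = ∑ a, ∑ b, ∑ c, h c b a := by
  rw [s231 h, s23 fun a b c => h b c a]

open Classical in
theorem six (P Q R p p' q q' r r' : Prop) (hP : P ↔ p ∨ p') (hQ : Q ↔ q ∨ q')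
    (hR : R ↔ r ∨ r') (h1 : ¬ (p ∧ p')) (h2 : ¬ (q ∧ q')) (h3 : ¬ (r ∧ r'))
    (h4 : ¬ (p ∧ r ∧ q')) (h5 : ¬ (q ∧ r' ∧ p')) (x : ℝ) :
    (if P ∧ R ∧ Q then x else 0) =
      (if p ∧ q ∧ r then x else 0) + (if q ∧ p ∧ r' then x else 0) +
      (if p' ∧ r ∧ q then x else 0) + (if q' ∧ r' ∧ p then x else 0) +
      (if r ∧ p' ∧ q' then x else 0) + (if r' ∧ q' ∧ p' then x else 0) := by
  by_cases p <;> by_cases p' <;> by_cases q <;> by_cases q' <;> by_cases r <;> by_cases r' <;>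
    simp_all

open Classical in
theorem three (Q R p q q' r r' : Prop) (hQ : Q ↔ q ∨ q') (hR : R ↔ r ∨ r')
    (h2 : ¬ (q ∧ q')) (h3 : ¬ (r ∧ r')) (h4 : ¬ (p ∧ r ∧ q')) (x : ℝ) :
    (if Q ∧ R ∧ p then x else 0) =
      (if q' ∧ r' ∧ p then x else 0) + (if q ∧ p ∧ r' then x else 0) +
      (if p ∧ q ∧ r then x else 0) := by
  by_cases p <;> by_cases q <;> by_cases q' <;> by_cases r <;> by_cases r' <;>
    simp_all

end Form3AAux

open Form3AAux

namespace KnotDiagram

variable {n : ℕ} (D : KnotDiagram n)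

open Classical in
/-- Sum over the triples of pairwise interleaved chords, each taken once, in the order of their
first endpoints. -/
noncomputable def triSum (F : Fin n → Fin n → Fin n → ℝ) : ℝ :=
  ∑ c, ∑ d, ∑ e, if D.Cr c d ∧ D.Cr c e ∧ D.Cr d e then F c d e else 0

theorem Inter_symm (a b : Fin n) : D.Inter a b ↔ D.Inter b a :=
  or_comm

theorem not_Inter_self (a : Fin n) : ¬ D.Inter a a := by
  rintro (h | h) <;> exact lt_irrefl _ h.1

theorem Cr_asymm (a b : Fin n) (h : D.Cr a b) : ¬ D.Cr b a := fun h' =>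
  lt_asymm h.1 h'.1

theorem I_symm (a b : Fin n) : D.I a b = D.I b a := by
  unfold I
  rw [D.Inter_symm a b]

theorem triSum_add (F G : Fin n → Fin n → Fin n → ℝ) :
    D.triSum (fun c d e => F c d e + G c d e) = D.triSum F + D.triSum G := by
  unfold triSum
  simp only [← Finset.sum_add_distrib]
  refine Finset.sum_congr rfl fun c _ => Finset.sum_congr rfl fun d _ =>
    Finset.sum_congr rfl fun e _ => ?_
  split_ifs <;> simp

theorem triSum_congr {F G : Fin n → Fin n → Fin n → ℝ}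
    (h : ∀ c d e, D.Cr c d → D.Cr c e → D.Cr d e → F c d e = G c d e) :
    D.triSum F = D.triSum G := by
  unfold triSum
  refine Finset.sum_congr rfl fun c _ => Finset.sum_congr rfl fun d _ =>
    Finset.sum_congr rfl fun e _ => ?_
  split_ifs with h1
  · exact h c d e h1.1 h1.2.1 h1.2.2
  · rfl

theorem triSum_mul (x : ℝ) (F : Fin n → Fin n → Fin n → ℝ) :
    D.triSum (fun c d e => x * F c d e) = x * D.triSum F := by
  unfold triSum
  simp only [Finset.mul_sum, mul_ite, mul_zero]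

theorem Cr_cycle (a b c : Fin n) : ¬ (D.Cr a b ∧ D.Cr b c ∧ D.Cr c a) := fun h => by
  have h1 := h.1.1
  have h2 := h.2.1.1
  have h3 := h.2.2.1
  omega

open Classical in
/-- Sum over all ordered triples of pairwise interleaved chords. -/
theorem sum_tri (F : Fin n → Fin n → Fin n → ℝ) :
    (∑ a, ∑ b, ∑ c, if D.Inter a b ∧ D.Inter b c ∧ D.Inter a c then F a b c else 0) =
      D.triSum fun c d e => F c d e + F c e d + F d c e + F d e c + F e c d + F e d c := by
  have h1 : ∀ a b c : Fin n,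
      (if D.Inter a b ∧ D.Inter b c ∧ D.Inter a c then F a b c else 0) =
      (if D.Cr a b ∧ D.Cr a c ∧ D.Cr b c then F a b c else 0) +
      (if D.Cr a c ∧ D.Cr a b ∧ D.Cr c b then F a b c else 0) +
      (if D.Cr b a ∧ D.Cr b c ∧ D.Cr a c then F a b c else 0) +
      (if D.Cr c a ∧ D.Cr c b ∧ D.Cr a b then F a b c else 0) +
      (if D.Cr b c ∧ D.Cr b a ∧ D.Cr c a then F a b c else 0) +
      (if D.Cr c b ∧ D.Cr c a ∧ D.Cr b a then F a b c else 0) := fun a b c =>
    six _ _ _ _ _ _ _ _ _ Iff.rfl Iff.rfl Iff.rfl (fun h => D.Cr_asymm _ _ h.1 h.2) (fun h => D.Cr_asymm _ _ h.1 h.2)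
      (fun h => D.Cr_asymm _ _ h.1 h.2) (fun h => D.Cr_cycle a b c h)
      (fun h => D.Cr_cycle a c b h) _
  simp only [h1, Finset.sum_add_distrib]
  rw [triSum_add, triSum_add, triSum_add, triSum_add, triSum_add]
  congr 1
  · congr 1
    · congr 1
      · congr 1
        · congr 1
          exact s23 fun a b c => if D.Cr a c ∧ D.Cr a b ∧ D.Cr c b then F a b c else 0
        · exact s12 fun a b c => if D.Cr b a ∧ D.Cr b c ∧ D.Cr a c then F a b c else 0
      · exact s231 fun a b c => if D.Cr c a ∧ D.Cr c b ∧ D.Cr a b then F a b c else 0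
    · exact s312 fun a b c => if D.Cr b c ∧ D.Cr b a ∧ D.Cr c a then F a b c else 0
  · exact s321 fun a b c => if D.Cr c b ∧ D.Cr c a ∧ D.Cr b a then F a b c else 0

open Classical in
/-- Sum over a crossing `c` and an ordered pair `a`, `b` of chords crossing it and crossing each
other, `a` first. -/
theorem sum_center (G : Fin n → Fin n → Fin n → ℝ) :
    (∑ c, ∑ a, ∑ b, if D.Inter a c ∧ D.Inter b c ∧ D.Cr a b then G c a b else 0) =
      D.triSum fun c d e => G c d e + G d c e + G e c d := by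
  have h1 : ∀ c a b : Fin n,
      (if D.Inter a c ∧ D.Inter b c ∧ D.Cr a b then G c a b else 0) =
      (if D.Cr c a ∧ D.Cr c b ∧ D.Cr a b then G c a b else 0) +
      (if D.Cr a c ∧ D.Cr a b ∧ D.Cr c b then G c a b else 0) +
      (if D.Cr a b ∧ D.Cr a c ∧ D.Cr b c then G c a b else 0) := fun c a b =>
    three _ _ _ _ _ _ _ Iff.rfl Iff.rfl (fun h => D.Cr_asymm _ _ h.1 h.2) (fun h => D.Cr_asymm _ _ h.1 h.2)
      (fun h => D.Cr_cycle a b c h) _
  simp only [h1, Finset.sum_add_distrib]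
  rw [triSum_add, triSum_add]
  congr 1
  · congr 1
    exact s12 fun c a b => if D.Cr a c ∧ D.Cr a b ∧ D.Cr c b then G c a b else 0
  · exact s312 fun c a b => if D.Cr a b ∧ D.Cr a c ∧ D.Cr b c then G c a b else 0

end KnotDiagram

end Pool.H3F
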