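import Pool.Agent.H3F.FEDefs

/-! Real functions for the upper bound of the cubic form. -/

namespace Pool.H3F

/-- Bound for the triangles of the complement on the positive part minus the penalty of a
vertex of the negative part whose degree into the positive part is `w`. -/
noncomputable def FF (α β s w : ℝ) : ℝ :=
  if s ≤ w then s ^ 3
  else if 3 * β ≤ s + w / 2 then s ^ 3 - 3 * β * (s - w) ^ 2
  else (3 / 2) * w * s ^ 2 - w ^ 3 / 2 -
    (3 * β - s - w / 2) * max 0 (s ^ 2 - 2 * w * α + w ^ 2)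

/-- The function of the degree `w` that has to be maximised. -/
noncomputable def Ph (α β s lam w : ℝ) : ℝ :=
  β * (-(6 * α - 3 * β - 2 * lam) * w + (max (3 * w - lam) 0) ^ 2 / 8) + FF α β s w

/-- General inequality for systems with masses `α`, `β`, with `s ^ 2` the mass of the
complement on the positive part. -/
def GI (α β s a b : ℝ) : Prop :=
  ∀ lam K : ℝ, (∀ w, 0 ≤ w → w ≤ α → Ph α β s lam w ≤ K) →
    b ≤ 2 * α ^ 3 - 3 * α * s ^ 2 + 3 * β * s ^ 2 + lam * (a - (α ^ 2 - s ^ 2)) + K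

/-- Second general inequality. -/
def CI1 (α β a b : ℝ) : Prop :=
  ∀ μ G : ℝ, (3 / 2) * α ≤ μ → μ ≤ α / 2 + 3 * β →
    (∀ v, 0 ≤ v → v ≤ α → β * (max (μ - 3 * v) 0) ^ 2 / 8 + β * (2 * μ - 3 * β) * v +
      (μ - (3 / 2) * α - 3 * β) * v ^ 2 + v ^ 4 / (2 * α) ≤ G) →
    b ≤ α * β * (3 - 2 * μ) + (3 * α - μ) * a + G

/-- Third general inequality (many parts). -/
def CI2 (α β a b : ℝ) : Prop :=
  0 ≤ a + 2 * α * β ∧ (a + 2 * α * β = 0 → b ≤ 3 * α * β * (β - α)) ∧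
  ∀ (k : ℕ) (c s : ℝ), 3 ≤ k → 0 ≤ s → s ≤ c → β = k * c + s →
    a + 2 * α * β = k * c ^ 2 + s ^ 2 →
    b ≤ 3 * α * β * (β - α) + 3 * α * (k * c ^ 2 + s ^ 2) - 2 * (k * c ^ 3 + s ^ 3)

/-- Fourth general inequality (two or three parts). -/
def CI3 (α β a b : ℝ) : Prop :=
  b ≤ 3 * α * β * (β - α) + 3 * α * (a + 2 * α * β) -
    (5 * β * (a + 2 * α * β) - β ^ 3) / 3

end Pool.H3F
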