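import Pool.Agent.H3F.GDefs

/-! HZ1: bound of `Ph` in the zone of large `s`. -/

namespace Pool.H3F

theorem hz1_quad (C g v R t : ℝ) (hC : 0 < C) (h : g ^ 2 ≤ 4 * C * (R - v)) :
    v + g * t - C * t ^ 2 ≤ R := by
  have h1 : 0 ≤ 4 * C * (R - (v + g * t - C * t ^ 2)) := by
    nlinarith [sq_nonneg (g - 2 * C * t)]
  have h2 : 0 ≤ R - (v + g * t - C * t ^ 2) := by
    by_contra hcon
    push Not at hcon
    have : 4 * C * (R - (v + g * t - C * t ^ 2)) < 0 :=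
      mul_neg_of_pos_of_neg (by linarith) hcon
    linarith
  linarith

theorem hz1_max (w lam : ℝ) : (max (3 * w - lam) 0) ^ 2 ≤ (3 * w - lam) ^ 2 := by
  rcases le_total 0 (3 * w - lam) with h0 | h0
  · rw [max_eq_left h0]
  · rw [max_eq_right h0]
    nlinarith [sq_nonneg (3 * w - lam)]

theorem hz1_root (α s : ℝ) (hs : 0 ≤ s) (hs1 : s ≤ α) :
    ∃ r : ℝ, 0 ≤ r ∧ r ^ 2 = α ^ 2 - s ^ 2 ∧ r ≤ α ∧ α - r ≤ s := by
  have hD : 0 ≤ α ^ 2 - s ^ 2 := by nlinarith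
  refine ⟨Real.sqrt (α ^ 2 - s ^ 2), Real.sqrt_nonneg _, Real.sq_sqrt hD, ?_, ?_⟩
  · rw [Real.sqrt_le_left (by linarith)]
    nlinarith [sq_nonneg s]
  · have h1 : α - s ≤ Real.sqrt (α ^ 2 - s ^ 2) := by
      apply Real.le_sqrt_of_sq_le
      nlinarith
    linarith

/-- psi decreases from `x` on. -/
theorem hz1_psi (α β s lam x w : ℝ)
    (hx : s ^ 2 - 2 * x * α + x ^ 2 = 0) (hxw : x ≤ w) (hwα : w ≤ α)
    (c3 : (3 * α + (9 / 4) * β) ^ 2 / 12 ≤ β * (6 * α - 3 * β - (5 / 4) * lam)) :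
    β * (-(6 * α - 3 * β - 5 / 4 * lam) * w + 9 / 8 * w ^ 2 + lam ^ 2 / 8) +
      (3 / 2) * w * s ^ 2 - w ^ 3 / 2 ≤
    β * (-(6 * α - 3 * β - 5 / 4 * lam) * x + 9 / 8 * x ^ 2 + lam ^ 2 / 8) +
      (3 / 2) * x * s ^ 2 - x ^ 3 / 2 := by
  have hs2 : s ^ 2 = 2 * x * α - x ^ 2 := by linarith
  have hbr : -(β * (6 * α - 3 * β - 5 / 4 * lam)) + 9 / 8 * β * (w + x) + (3 / 2) * s ^ 2
      - (1 / 2) * (w ^ 2 + w * x + x ^ 2) ≤ 0 := by
    have e1 : -(β * (6 * α - 3 * β - 5 / 4 * lam)) + 9 / 8 * β * (w + x) + (3 / 2) * s ^ 2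
      - (1 / 2) * (w ^ 2 + w * x + x ^ 2) =
      (-(β * (6 * α - 3 * β - 5 / 4 * lam)) + (9 / 8 * β + 3 / 2 * α) * (w + x)
        - (w ^ 2 + w * x + x ^ 2)) - (3 / 2) * ((w - x) * (α - (w + 2 * x) / 3)) := by
      rw [hs2]; ring
    have e2 : 0 ≤ (w - x) * (α - (w + 2 * x) / 3) :=
      mul_nonneg (by linarith) (by linarith)
    have e3 : -(β * (6 * α - 3 * β - 5 / 4 * lam)) + (9 / 8 * β + 3 / 2 * α) * (w + x)
        - (w ^ 2 + w * x + x ^ 2) ≤ 0 := by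
      nlinarith [sq_nonneg (w - x), sq_nonneg ((3 * α + (9 / 4) * β) - 3 * (w + x))]
    rw [e1]
    linarith
  have e4 : (β * (-(6 * α - 3 * β - 5 / 4 * lam) * w + 9 / 8 * w ^ 2 + lam ^ 2 / 8) +
      (3 / 2) * w * s ^ 2 - w ^ 3 / 2) -
    (β * (-(6 * α - 3 * β - 5 / 4 * lam) * x + 9 / 8 * x ^ 2 + lam ^ 2 / 8) +
      (3 / 2) * x * s ^ 2 - x ^ 3 / 2) = (w - x) * (-(β * (6 * α - 3 * β - 5 / 4 * lam))
      + 9 / 8 * β * (w + x) + (3 / 2) * s ^ 2 - (1 / 2) * (w ^ 2 + w * x + x ^ 2)) := by ring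
  have e5 := mul_nonpos_of_nonneg_of_nonpos (by linarith : (0 : ℝ) ≤ w - x) hbr
  linarith

/-- `R` is the allowed value; `τ` is a multiplier. -/
theorem hk (α β s lam τ R w : ℝ) (h : α + β = 1) (h1 : 1 / 4 ≤ β) (h2 : β ≤ 14 / 25)
    (hs0 : (39 / 50) * α ≤ s) (hs1 : s ≤ α) (hτ : 0 ≤ τ) (hτ1 : τ ≤ 3 / 10)
    (hlam : lam ≤ 3 / 5)
    (c1 : (3 * β ^ 2 + (5 / 4) * β * lam + 2 * s ^ 2 - 2 * α * s - 2 * α * τ) ^ 2 ≤
      4 * (α + (15 / 8) * β - s - τ) *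
        (R + (3 * β - s) * s ^ 2 - β * lam ^ 2 / 8 - τ * s ^ 2))
    (c2 : 2 * β ≤ s → β * (6 * s - 6 * α + 3 * β + (5 / 4) * lam) ^ 2 / (15 / 2) ≤
      R - s ^ 3 + 3 * β * s ^ 2 - β * lam ^ 2 / 8)
    (c3 : (3 * α + (9 / 4) * β) ^ 2 / 12 ≤ β * (6 * α - 3 * β - (5 / 4) * lam))
    (c4 : 0 ≤ (15 / 4) * α - 3 * β - (5 / 4) * lam)
    (hw : 0 ≤ w) (hwα : w ≤ α) : Ph α β s lam w ≤ R := by
  have hβ : 0 < β := by linarith
  have hα0 : 0 < α := by linarith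
  have hs : 0 < s := by nlinarith
  have hC : 0 < α + (15 / 8) * β - s - τ := by linarith
  have hm := hz1_max w lam
  have hQ : β * (-(6 * α - 3 * β - 2 * lam) * w + (max (3 * w - lam) 0) ^ 2 / 8) ≤
      β * (-(6 * α - 3 * β - 5 / 4 * lam) * w + 9 / 8 * w ^ 2 + lam ^ 2 / 8) := by
    apply mul_le_mul_of_nonneg_left _ hβ.le
    nlinarith
  have key : ∀ t : ℝ, (β * lam ^ 2 / 8 - (3 * β - s) * s ^ 2 + τ * s ^ 2) +
      (3 * β ^ 2 + (5 / 4) * β * lam + 2 * s ^ 2 - 2 * α * s - 2 * α * τ) * t -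
      (α + (15 / 8) * β - s - τ) * t ^ 2 ≤ R := by
    intro t
    apply hz1_quad _ _ _ _ _ hC
    calc _ ≤ _ := c1
      _ = _ := by ring
  -- the root
  obtain ⟨r, hr0, hr, hrα, hsr⟩ := hz1_root α s hs.le hs1
  set x : ℝ := α - r with hx
  have hx0 : 0 ≤ x := by linarith
  have hxP : s ^ 2 - 2 * x * α + x ^ 2 = 0 := by
    rw [hx]; linear_combination hr
  have hxs : x ≤ s := by linarith
  have hpx : β * (-(6 * α - 3 * β - 5 / 4 * lam) * x + 9 / 8 * x ^ 2 + lam ^ 2 / 8) +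
      (3 / 2) * x * s ^ 2 - x ^ 3 / 2 ≤ R := by
    have h3 := key x
    have e : β * (-(6 * α - 3 * β - 5 / 4 * lam) * x + 9 / 8 * x ^ 2 + lam ^ 2 / 8) +
      (3 / 2) * x * s ^ 2 - x ^ 3 / 2 = (β * lam ^ 2 / 8 - (3 * β - s) * s ^ 2 + τ * s ^ 2) +
      (3 * β ^ 2 + (5 / 4) * β * lam + 2 * s ^ 2 - 2 * α * s - 2 * α * τ) * x -
      (α + (15 / 8) * β - s - τ) * x ^ 2 +
      (3 * β - s - x / 2 - τ) * (s ^ 2 - 2 * x * α + x ^ 2) := by ring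
    rw [e, hxP]
    linarith
  have hpsi : ∀ t, x ≤ t → t ≤ α →
      β * (-(6 * α - 3 * β - 5 / 4 * lam) * t + 9 / 8 * t ^ 2 + lam ^ 2 / 8) +
      (3 / 2) * t * s ^ 2 - t ^ 3 / 2 ≤ R := fun t ht1 ht2 =>
    (hz1_psi α β s lam x t hxP ht1 ht2 c3).trans hpx
  unfold Ph FF
  split_ifs with g1 g2
  · -- s ≤ w
    have h3 := hpsi s hxs hs1
    have h4 : β * (-(6 * α - 3 * β - 5 / 4 * lam) * w + 9 / 8 * w ^ 2 + lam ^ 2 / 8) ≤
        β * (-(6 * α - 3 * β - 5 / 4 * lam) * s + 9 / 8 * s ^ 2 + lam ^ 2 / 8) := by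
      apply mul_le_mul_of_nonneg_left _ hβ.le
      have h5 : 0 ≤ (w - s) * ((6 * α - 3 * β - 5 / 4 * lam) - 9 / 8 * (w + s)) :=
        mul_nonneg (by linarith) (by linarith)
      nlinarith
    have h6 : (3 / 2) * s * s ^ 2 - s ^ 3 / 2 = s ^ 3 := by ring
    linarith
  · -- F2
    push Not at g1
    have h3 : 2 * β ≤ s := by linarith
    have h4 := c2 h3
    have h5 := hz1_quad ((15 / 8) * β) (β * (6 * s - 6 * α + 3 * β + (5 / 4) * lam))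
      (s ^ 3 - 3 * β * s ^ 2 + β * lam ^ 2 / 8) R w (by linarith) (by
        have e : (β * (6 * s - 6 * α + 3 * β + (5 / 4) * lam)) ^ 2 = (15 / 2) * β *
          (β * (6 * s - 6 * α + 3 * β + (5 / 4) * lam) ^ 2 / (15 / 2)) := by ring
        rw [e]
        have h6 := mul_le_mul_of_nonneg_left h4 (by linarith : 0 ≤ (15 / 2) * β)
        calc _ ≤ _ := h6
          _ = _ := by ring)
    have e2 : β * (-(6 * α - 3 * β - 5 / 4 * lam) * w + 9 / 8 * w ^ 2 + lam ^ 2 / 8) +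
        (s ^ 3 - 3 * β * (s - w) ^ 2) = s ^ 3 - 3 * β * s ^ 2 + β * lam ^ 2 / 8 +
        β * (6 * s - 6 * α + 3 * β + 5 / 4 * lam) * w - 15 / 8 * β * w ^ 2 := by ring
    linarith
  · push Not at g1 g2
    rcases le_total 0 (s ^ 2 - 2 * w * α + w ^ 2) with hP | hP
    · rw [max_eq_right hP]
      have h3 := key w
      have e3 : β * (-(6 * α - 3 * β - 5 / 4 * lam) * w + 9 / 8 * w ^ 2 + lam ^ 2 / 8) +
        ((3 / 2) * w * s ^ 2 - w ^ 3 / 2 -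
          (3 * β - s - w / 2) * (s ^ 2 - 2 * w * α + w ^ 2)) =
        (β * lam ^ 2 / 8 - (3 * β - s) * s ^ 2 + τ * s ^ 2) +
        (3 * β ^ 2 + (5 / 4) * β * lam + 2 * s ^ 2 - 2 * α * s - 2 * α * τ) * w -
        (α + (15 / 8) * β - s - τ) * w ^ 2 - τ * (s ^ 2 - 2 * w * α + w ^ 2) := by ring
      have h4 : 0 ≤ τ * (s ^ 2 - 2 * w * α + w ^ 2) := mul_nonneg hτ hP
      linarith
    · rw [max_eq_left hP]
      have hxw : x ≤ w := by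
        by_contra hcon
        push Not at hcon
        have h5 : r < α - w := by linarith
        have h6 : r ^ 2 < (α - w) ^ 2 := pow_lt_pow_left₀ h5 hr0 (by norm_num)
        have h7 : (α - w) ^ 2 = α ^ 2 - 2 * w * α + w ^ 2 := by ring
        linarith
      have h3 := hpsi w hxw hwα
      linarith

end Pool.H3F
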