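import Mathlib

/-! HZ2: polynomial inequalities for the zone of large `s`. -/

namespace Pool.H3F

/-- Allowed value for the slope `lam`. -/
noncomputable def HR (β s lam : ℝ) : ℝ :=
  49 / 250 - lam / 30 - (2 * (1 - β) ^ 3 - 3 * (1 - β) * s ^ 2 + 3 * β * s ^ 2) +
    lam * ((1 - β) ^ 2 - s ^ 2)

/-- The first condition of the zone of large `s`. -/
def HCond (lam τ b0 b1 : ℝ) : Prop :=
  ∀ β s : ℝ, b0 ≤ β → β ≤ b1 → (39 / 50) * (1 - β) ≤ s → s ≤ 1 - β → s ≤ (61 / 25) * β →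
    ((3 * β ^ 2 + (5 / 4) * β * lam + 2 * s ^ 2 - 2 * (1 - β) * s) - 2 * (1 - β) * τ) ^ 2 ≤
      4 * ((1 - β) + (15 / 8) * β - s - τ) *
        (HR β s lam + (3 * β - s) * s ^ 2 - β * lam ^ 2 / 8 - τ * s ^ 2)

theorem hcond_1 : HCond (3 / 5) 0 (1 / 4) (8 / 25) := by
  intro β s h0 h1 h2 h3 h4
  have u : 0 ≤ β - 1 / 4 := by linarith only [h0]
  have v : 0 ≤ 8 / 25 - β := by linarith only [h1]
  have p : 0 ≤ s - (39 / 50) * (1 - β) := by linarith only [h2]
  have q : 0 ≤ (1 - β) - s := by linarith only [h3]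
  have r : 0 ≤ (61 / 25) * β - s := by linarith only [h4]
  unfold HR
  linarith [(mul_nonneg u u), (mul_nonneg u v), (mul_nonneg u p), (mul_nonneg u q),
    (mul_nonneg u r), (mul_nonneg v v), (mul_nonneg v p), (mul_nonneg v q), (mul_nonneg v r),
    (mul_nonneg p p), (mul_nonneg p q), (mul_nonneg p r), (mul_nonneg q q), (mul_nonneg q r),
    (mul_nonneg r r), (mul_nonneg (mul_nonneg u u) u), (mul_nonneg (mul_nonneg u u) v),
    (mul_nonneg (mul_nonneg u u) p), (mul_nonneg (mul_nonneg u u) q),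
    (mul_nonneg (mul_nonneg u u) r), (mul_nonneg (mul_nonneg u v) v),
    (mul_nonneg (mul_nonneg u v) p), (mul_nonneg (mul_nonneg u v) q),
    (mul_nonneg (mul_nonneg u v) r), (mul_nonneg (mul_nonneg u p) p),
    (mul_nonneg (mul_nonneg u p) q), (mul_nonneg (mul_nonneg u p) r),
    (mul_nonneg (mul_nonneg u q) q), (mul_nonneg (mul_nonneg u q) r),
    (mul_nonneg (mul_nonneg u r) r), (mul_nonneg (mul_nonneg v v) v),
    (mul_nonneg (mul_nonneg v v) p), (mul_nonneg (mul_nonneg v v) q),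
    (mul_nonneg (mul_nonneg v v) r), (mul_nonneg (mul_nonneg v p) p),
    (mul_nonneg (mul_nonneg v p) q), (mul_nonneg (mul_nonneg v p) r),
    (mul_nonneg (mul_nonneg v q) q), (mul_nonneg (mul_nonneg v q) r),
    (mul_nonneg (mul_nonneg v r) r), (mul_nonneg (mul_nonneg p p) p),
    (mul_nonneg (mul_nonneg p p) q), (mul_nonneg (mul_nonneg p p) r),
    (mul_nonneg (mul_nonneg p q) q), (mul_nonneg (mul_nonneg p q) r),
    (mul_nonneg (mul_nonneg p r) r), (mul_nonneg (mul_nonneg q q) q),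
    (mul_nonneg (mul_nonneg q q) r), (mul_nonneg (mul_nonneg q r) r),
    (mul_nonneg (mul_nonneg r r) r), (mul_nonneg (mul_nonneg (mul_nonneg u u) u) u),
    (mul_nonneg (mul_nonneg (mul_nonneg u u) u) v),
    (mul_nonneg (mul_nonneg (mul_nonneg u u) u) p),
    (mul_nonneg (mul_nonneg (mul_nonneg u u) u) q),
    (mul_nonneg (mul_nonneg (mul_nonneg u u) u) r),
    (mul_nonneg (mul_nonneg (mul_nonneg u u) v) v),
    (mul_nonneg (mul_nonneg (mul_nonneg u u) v) p),
    (mul_nonneg (mul_nonneg (mul_nonneg u u) v) q),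
    (mul_nonneg (mul_nonneg (mul_nonneg u u) v) r),
    (mul_nonneg (mul_nonneg (mul_nonneg u u) p) p),
    (mul_nonneg (mul_nonneg (mul_nonneg u u) p) q),
    (mul_nonneg (mul_nonneg (mul_nonneg u u) p) r),
    (mul_nonneg (mul_nonneg (mul_nonneg u u) q) q),
    (mul_nonneg (mul_nonneg (mul_nonneg u u) q) r),
    (mul_nonneg (mul_nonneg (mul_nonneg u u) r) r),
    (mul_nonneg (mul_nonneg (mul_nonneg u v) v) v),
    (mul_nonneg (mul_nonneg (mul_nonneg u v) v) p),
    (mul_nonneg (mul_nonneg (mul_nonneg u v) v) q),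
    (mul_nonneg (mul_nonneg (mul_nonneg u v) v) r),
    (mul_nonneg (mul_nonneg (mul_nonneg u v) p) p),
    (mul_nonneg (mul_nonneg (mul_nonneg u v) p) q),
    (mul_nonneg (mul_nonneg (mul_nonneg u v) p) r),
    (mul_nonneg (mul_nonneg (mul_nonneg u v) q) q),
    (mul_nonneg (mul_nonneg (mul_nonneg u v) q) r),
    (mul_nonneg (mul_nonneg (mul_nonneg u v) r) r),
    (mul_nonneg (mul_nonneg (mul_nonneg u p) p) p),
    (mul_nonneg (mul_nonneg (mul_nonneg u p) p) q),
    (mul_nonneg (mul_nonneg (mul_nonneg u p) p) r),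
    (mul_nonneg (mul_nonneg (mul_nonneg u p) q) q),
    (mul_nonneg (mul_nonneg (mul_nonneg u p) q) r),
    (mul_nonneg (mul_nonneg (mul_nonneg u p) r) r),
    (mul_nonneg (mul_nonneg (mul_nonneg u q) q) q),
    (mul_nonneg (mul_nonneg (mul_nonneg u q) q) r),
    (mul_nonneg (mul_nonneg (mul_nonneg u q) r) r),
    (mul_nonneg (mul_nonneg (mul_nonneg u r) r) r),
    (mul_nonneg (mul_nonneg (mul_nonneg v v) v) v),
    (mul_nonneg (mul_nonneg (mul_nonneg v v) v) p),
    (mul_nonneg (mul_nonneg (mul_nonneg v v) v) q),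
    (mul_nonneg (mul_nonneg (mul_nonneg v v) v) r),
    (mul_nonneg (mul_nonneg (mul_nonneg v v) p) p),
    (mul_nonneg (mul_nonneg (mul_nonneg v v) p) q),
    (mul_nonneg (mul_nonneg (mul_nonneg v v) p) r),
    (mul_nonneg (mul_nonneg (mul_nonneg v v) q) q),
    (mul_nonneg (mul_nonneg (mul_nonneg v v) q) r),
    (mul_nonneg (mul_nonneg (mul_nonneg v v) r) r),
    (mul_nonneg (mul_nonneg (mul_nonneg v p) p) p),
    (mul_nonneg (mul_nonneg (mul_nonneg v p) p) q),
    (mul_nonneg (mul_nonneg (mul_nonneg v p) p) r),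
    (mul_nonneg (mul_nonneg (mul_nonneg v p) q) q),
    (mul_nonneg (mul_nonneg (mul_nonneg v p) q) r),
    (mul_nonneg (mul_nonneg (mul_nonneg v p) r) r),
    (mul_nonneg (mul_nonneg (mul_nonneg v q) q) q),
    (mul_nonneg (mul_nonneg (mul_nonneg v q) q) r),
    (mul_nonneg (mul_nonneg (mul_nonneg v q) r) r),
    (mul_nonneg (mul_nonneg (mul_nonneg v r) r) r),
    (mul_nonneg (mul_nonneg (mul_nonneg p p) p) p),
    (mul_nonneg (mul_nonneg (mul_nonneg p p) p) q),
    (mul_nonneg (mul_nonneg (mul_nonneg p p) p) r),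
    (mul_nonneg (mul_nonneg (mul_nonneg p p) q) q),
    (mul_nonneg (mul_nonneg (mul_nonneg p p) q) r),
    (mul_nonneg (mul_nonneg (mul_nonneg p p) r) r),
    (mul_nonneg (mul_nonneg (mul_nonneg p q) q) q),
    (mul_nonneg (mul_nonneg (mul_nonneg p q) q) r),
    (mul_nonneg (mul_nonneg (mul_nonneg p q) r) r),
    (mul_nonneg (mul_nonneg (mul_nonneg p r) r) r),
    (mul_nonneg (mul_nonneg (mul_nonneg q q) q) q),
    (mul_nonneg (mul_nonneg (mul_nonneg q q) q) r),
    (mul_nonneg (mul_nonneg (mul_nonneg q q) r) r),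
    (mul_nonneg (mul_nonneg (mul_nonneg q r) r) r),
    (mul_nonneg (mul_nonneg (mul_nonneg r r) r) r)]

theorem hcond_2 : HCond (2 / 5) 0 (8 / 25) (37 / 100) := by
  intro β s h0 h1 h2 h3 h4
  have u : 0 ≤ β - 8 / 25 := by linarith only [h0]
  have v : 0 ≤ 37 / 100 - β := by linarith only [h1]
  have p : 0 ≤ s - (39 / 50) * (1 - β) := by linarith only [h2]
  have q : 0 ≤ (1 - β) - s := by linarith only [h3]
  have r : 0 ≤ (61 / 25) * β - s := by linarith only [h4]
  unfold HR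
  linarith [(mul_nonneg u u), (mul_nonneg u v), (mul_nonneg u p), (mul_nonneg u q),
    (mul_nonneg u r), (mul_nonneg v v), (mul_nonneg v p), (mul_nonneg v q), (mul_nonneg v r),
    (mul_nonneg p p), (mul_nonneg p q), (mul_nonneg p r), (mul_nonneg q q), (mul_nonneg q r),
    (mul_nonneg r r), (mul_nonneg (mul_nonneg u u) u), (mul_nonneg (mul_nonneg u u) v),
    (mul_nonneg (mul_nonneg u u) p), (mul_nonneg (mul_nonneg u u) q),
    (mul_nonneg (mul_nonneg u u) r), (mul_nonneg (mul_nonneg u v) v),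
    (mul_nonneg (mul_nonneg u v) p), (mul_nonneg (mul_nonneg u v) q),
    (mul_nonneg (mul_nonneg u v) r), (mul_nonneg (mul_nonneg u p) p),
    (mul_nonneg (mul_nonneg u p) q), (mul_nonneg (mul_nonneg u p) r),
    (mul_nonneg (mul_nonneg u q) q), (mul_nonneg (mul_nonneg u q) r),
    (mul_nonneg (mul_nonneg u r) r), (mul_nonneg (mul_nonneg v v) v),
    (mul_nonneg (mul_nonneg v v) p), (mul_nonneg (mul_nonneg v v) q),
    (mul_nonneg (mul_nonneg v v) r), (mul_nonneg (mul_nonneg v p) p),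
    (mul_nonneg (mul_nonneg v p) q), (mul_nonneg (mul_nonneg v p) r),
    (mul_nonneg (mul_nonneg v q) q), (mul_nonneg (mul_nonneg v q) r),
    (mul_nonneg (mul_nonneg v r) r), (mul_nonneg (mul_nonneg p p) p),
    (mul_nonneg (mul_nonneg p p) q), (mul_nonneg (mul_nonneg p p) r),
    (mul_nonneg (mul_nonneg p q) q), (mul_nonneg (mul_nonneg p q) r),
    (mul_nonneg (mul_nonneg p r) r), (mul_nonneg (mul_nonneg q q) q),
    (mul_nonneg (mul_nonneg q q) r), (mul_nonneg (mul_nonneg q r) r),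
    (mul_nonneg (mul_nonneg r r) r), (mul_nonneg (mul_nonneg (mul_nonneg u u) u) u),
    (mul_nonneg (mul_nonneg (mul_nonneg u u) u) v),
    (mul_nonneg (mul_nonneg (mul_nonneg u u) u) p),
    (mul_nonneg (mul_nonneg (mul_nonneg u u) u) q),
    (mul_nonneg (mul_nonneg (mul_nonneg u u) u) r),
    (mul_nonneg (mul_nonneg (mul_nonneg u u) v) v),
    (mul_nonneg (mul_nonneg (mul_nonneg u u) v) p),
    (mul_nonneg (mul_nonneg (mul_nonneg u u) v) q),
    (mul_nonneg (mul_nonneg (mul_nonneg u u) v) r),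
    (mul_nonneg (mul_nonneg (mul_nonneg u u) p) p),
    (mul_nonneg (mul_nonneg (mul_nonneg u u) p) q),
    (mul_nonneg (mul_nonneg (mul_nonneg u u) p) r),
    (mul_nonneg (mul_nonneg (mul_nonneg u u) q) q),
    (mul_nonneg (mul_nonneg (mul_nonneg u u) q) r),
    (mul_nonneg (mul_nonneg (mul_nonneg u u) r) r),
    (mul_nonneg (mul_nonneg (mul_nonneg u v) v) v),
    (mul_nonneg (mul_nonneg (mul_nonneg u v) v) p),
    (mul_nonneg (mul_nonneg (mul_nonneg u v) v) q),
    (mul_nonneg (mul_nonneg (mul_nonneg u v) v) r),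
    (mul_nonneg (mul_nonneg (mul_nonneg u v) p) p),
    (mul_nonneg (mul_nonneg (mul_nonneg u v) p) q),
    (mul_nonneg (mul_nonneg (mul_nonneg u v) p) r),
    (mul_nonneg (mul_nonneg (mul_nonneg u v) q) q),
    (mul_nonneg (mul_nonneg (mul_nonneg u v) q) r),
    (mul_nonneg (mul_nonneg (mul_nonneg u v) r) r),
    (mul_nonneg (mul_nonneg (mul_nonneg u p) p) p),
    (mul_nonneg (mul_nonneg (mul_nonneg u p) p) q),
    (mul_nonneg (mul_nonneg (mul_nonneg u p) p) r),
    (mul_nonneg (mul_nonneg (mul_nonneg u p) q) q),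
    (mul_nonneg (mul_nonneg (mul_nonneg u p) q) r),
    (mul_nonneg (mul_nonneg (mul_nonneg u p) r) r),
    (mul_nonneg (mul_nonneg (mul_nonneg u q) q) q),
    (mul_nonneg (mul_nonneg (mul_nonneg u q) q) r),
    (mul_nonneg (mul_nonneg (mul_nonneg u q) r) r),
    (mul_nonneg (mul_nonneg (mul_nonneg u r) r) r),
    (mul_nonneg (mul_nonneg (mul_nonneg v v) v) v),
    (mul_nonneg (mul_nonneg (mul_nonneg v v) v) p),
    (mul_nonneg (mul_nonneg (mul_nonneg v v) v) q),
    (mul_nonneg (mul_nonneg (mul_nonneg v v) v) r),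
    (mul_nonneg (mul_nonneg (mul_nonneg v v) p) p),
    (mul_nonneg (mul_nonneg (mul_nonneg v v) p) q),
    (mul_nonneg (mul_nonneg (mul_nonneg v v) p) r),
    (mul_nonneg (mul_nonneg (mul_nonneg v v) q) q),
    (mul_nonneg (mul_nonneg (mul_nonneg v v) q) r),
    (mul_nonneg (mul_nonneg (mul_nonneg v v) r) r),
    (mul_nonneg (mul_nonneg (mul_nonneg v p) p) p),
    (mul_nonneg (mul_nonneg (mul_nonneg v p) p) q),
    (mul_nonneg (mul_nonneg (mul_nonneg v p) p) r),
    (mul_nonneg (mul_nonneg (mul_nonneg v p) q) q),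
    (mul_nonneg (mul_nonneg (mul_nonneg v p) q) r),
    (mul_nonneg (mul_nonneg (mul_nonneg v p) r) r),
    (mul_nonneg (mul_nonneg (mul_nonneg v q) q) q),
    (mul_nonneg (mul_nonneg (mul_nonneg v q) q) r),
    (mul_nonneg (mul_nonneg (mul_nonneg v q) r) r),
    (mul_nonneg (mul_nonneg (mul_nonneg v r) r) r),
    (mul_nonneg (mul_nonneg (mul_nonneg p p) p) p),
    (mul_nonneg (mul_nonneg (mul_nonneg p p) p) q),
    (mul_nonneg (mul_nonneg (mul_nonneg p p) p) r),
    (mul_nonneg (mul_nonneg (mul_nonneg p p) q) q),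
    (mul_nonneg (mul_nonneg (mul_nonneg p p) q) r),
    (mul_nonneg (mul_nonneg (mul_nonneg p p) r) r),
    (mul_nonneg (mul_nonneg (mul_nonneg p q) q) q),
    (mul_nonneg (mul_nonneg (mul_nonneg p q) q) r),
    (mul_nonneg (mul_nonneg (mul_nonneg p q) r) r),
    (mul_nonneg (mul_nonneg (mul_nonneg p r) r) r),
    (mul_nonneg (mul_nonneg (mul_nonneg q q) q) q),
    (mul_nonneg (mul_nonneg (mul_nonneg q q) q) r),
    (mul_nonneg (mul_nonneg (mul_nonneg q q) r) r),
    (mul_nonneg (mul_nonneg (mul_nonneg q r) r) r),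
    (mul_nonneg (mul_nonneg (mul_nonneg r r) r) r)]

theorem hcond_3 : HCond (1 / 10) 0 (37 / 100) (21 / 50) := by
  intro β s h0 h1 h2 h3 h4
  have u : 0 ≤ β - 37 / 100 := by linarith only [h0]
  have v : 0 ≤ 21 / 50 - β := by linarith only [h1]
  have p : 0 ≤ s - (39 / 50) * (1 - β) := by linarith only [h2]
  have q : 0 ≤ (1 - β) - s := by linarith only [h3]
  have r : 0 ≤ (61 / 25) * β - s := by linarith only [h4]
  unfold HR
  linarith [(mul_nonneg u u), (mul_nonneg u v), (mul_nonneg u p), (mul_nonneg u q),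
    (mul_nonneg u r), (mul_nonneg v v), (mul_nonneg v p), (mul_nonneg v q), (mul_nonneg v r),
    (mul_nonneg p p), (mul_nonneg p q), (mul_nonneg p r), (mul_nonneg q q), (mul_nonneg q r),
    (mul_nonneg r r), (mul_nonneg (mul_nonneg u u) u), (mul_nonneg (mul_nonneg u u) v),
    (mul_nonneg (mul_nonneg u u) p), (mul_nonneg (mul_nonneg u u) q),
    (mul_nonneg (mul_nonneg u u) r), (mul_nonneg (mul_nonneg u v) v),
    (mul_nonneg (mul_nonneg u v) p), (mul_nonneg (mul_nonneg u v) q),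
    (mul_nonneg (mul_nonneg u v) r), (mul_nonneg (mul_nonneg u p) p),
    (mul_nonneg (mul_nonneg u p) q), (mul_nonneg (mul_nonneg u p) r),
    (mul_nonneg (mul_nonneg u q) q), (mul_nonneg (mul_nonneg u q) r),
    (mul_nonneg (mul_nonneg u r) r), (mul_nonneg (mul_nonneg v v) v),
    (mul_nonneg (mul_nonneg v v) p), (mul_nonneg (mul_nonneg v v) q),
    (mul_nonneg (mul_nonneg v v) r), (mul_nonneg (mul_nonneg v p) p),
    (mul_nonneg (mul_nonneg v p) q), (mul_nonneg (mul_nonneg v p) r),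
    (mul_nonneg (mul_nonneg v q) q), (mul_nonneg (mul_nonneg v q) r),
    (mul_nonneg (mul_nonneg v r) r), (mul_nonneg (mul_nonneg p p) p),
    (mul_nonneg (mul_nonneg p p) q), (mul_nonneg (mul_nonneg p p) r),
    (mul_nonneg (mul_nonneg p q) q), (mul_nonneg (mul_nonneg p q) r),
    (mul_nonneg (mul_nonneg p r) r), (mul_nonneg (mul_nonneg q q) q),
    (mul_nonneg (mul_nonneg q q) r), (mul_nonneg (mul_nonneg q r) r),
    (mul_nonneg (mul_nonneg r r) r), (mul_nonneg (mul_nonneg (mul_nonneg u u) u) u),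
    (mul_nonneg (mul_nonneg (mul_nonneg u u) u) v),
    (mul_nonneg (mul_nonneg (mul_nonneg u u) u) p),
    (mul_nonneg (mul_nonneg (mul_nonneg u u) u) q),
    (mul_nonneg (mul_nonneg (mul_nonneg u u) u) r),
    (mul_nonneg (mul_nonneg (mul_nonneg u u) v) v),
    (mul_nonneg (mul_nonneg (mul_nonneg u u) v) p),
    (mul_nonneg (mul_nonneg (mul_nonneg u u) v) q),
    (mul_nonneg (mul_nonneg (mul_nonneg u u) v) r),
    (mul_nonneg (mul_nonneg (mul_nonneg u u) p) p),
    (mul_nonneg (mul_nonneg (mul_nonneg u u) p) q),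
    (mul_nonneg (mul_nonneg (mul_nonneg u u) p) r),
    (mul_nonneg (mul_nonneg (mul_nonneg u u) q) q),
    (mul_nonneg (mul_nonneg (mul_nonneg u u) q) r),
    (mul_nonneg (mul_nonneg (mul_nonneg u u) r) r),
    (mul_nonneg (mul_nonneg (mul_nonneg u v) v) v),
    (mul_nonneg (mul_nonneg (mul_nonneg u v) v) p),
    (mul_nonneg (mul_nonneg (mul_nonneg u v) v) q),
    (mul_nonneg (mul_nonneg (mul_nonneg u v) v) r),
    (mul_nonneg (mul_nonneg (mul_nonneg u v) p) p),
    (mul_nonneg (mul_nonneg (mul_nonneg u v) p) q),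
    (mul_nonneg (mul_nonneg (mul_nonneg u v) p) r),
    (mul_nonneg (mul_nonneg (mul_nonneg u v) q) q),
    (mul_nonneg (mul_nonneg (mul_nonneg u v) q) r),
    (mul_nonneg (mul_nonneg (mul_nonneg u v) r) r),
    (mul_nonneg (mul_nonneg (mul_nonneg u p) p) p),
    (mul_nonneg (mul_nonneg (mul_nonneg u p) p) q),
    (mul_nonneg (mul_nonneg (mul_nonneg u p) p) r),
    (mul_nonneg (mul_nonneg (mul_nonneg u p) q) q),
    (mul_nonneg (mul_nonneg (mul_nonneg u p) q) r),
    (mul_nonneg (mul_nonneg (mul_nonneg u p) r) r),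
    (mul_nonneg (mul_nonneg (mul_nonneg u q) q) q),
    (mul_nonneg (mul_nonneg (mul_nonneg u q) q) r),
    (mul_nonneg (mul_nonneg (mul_nonneg u q) r) r),
    (mul_nonneg (mul_nonneg (mul_nonneg u r) r) r),
    (mul_nonneg (mul_nonneg (mul_nonneg v v) v) v),
    (mul_nonneg (mul_nonneg (mul_nonneg v v) v) p),
    (mul_nonneg (mul_nonneg (mul_nonneg v v) v) q),
    (mul_nonneg (mul_nonneg (mul_nonneg v v) v) r),
    (mul_nonneg (mul_nonneg (mul_nonneg v v) p) p),
    (mul_nonneg (mul_nonneg (mul_nonneg v v) p) q),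
    (mul_nonneg (mul_nonneg (mul_nonneg v v) p) r),
    (mul_nonneg (mul_nonneg (mul_nonneg v v) q) q),
    (mul_nonneg (mul_nonneg (mul_nonneg v v) q) r),
    (mul_nonneg (mul_nonneg (mul_nonneg v v) r) r),
    (mul_nonneg (mul_nonneg (mul_nonneg v p) p) p),
    (mul_nonneg (mul_nonneg (mul_nonneg v p) p) q),
    (mul_nonneg (mul_nonneg (mul_nonneg v p) p) r),
    (mul_nonneg (mul_nonneg (mul_nonneg v p) q) q),
    (mul_nonneg (mul_nonneg (mul_nonneg v p) q) r),
    (mul_nonneg (mul_nonneg (mul_nonneg v p) r) r),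
    (mul_nonneg (mul_nonneg (mul_nonneg v q) q) q),
    (mul_nonneg (mul_nonneg (mul_nonneg v q) q) r),
    (mul_nonneg (mul_nonneg (mul_nonneg v q) r) r),
    (mul_nonneg (mul_nonneg (mul_nonneg v r) r) r),
    (mul_nonneg (mul_nonneg (mul_nonneg p p) p) p),
    (mul_nonneg (mul_nonneg (mul_nonneg p p) p) q),
    (mul_nonneg (mul_nonneg (mul_nonneg p p) p) r),
    (mul_nonneg (mul_nonneg (mul_nonneg p p) q) q),
    (mul_nonneg (mul_nonneg (mul_nonneg p p) q) r),
    (mul_nonneg (mul_nonneg (mul_nonneg p p) r) r),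
    (mul_nonneg (mul_nonneg (mul_nonneg p q) q) q),
    (mul_nonneg (mul_nonneg (mul_nonneg p q) q) r),
    (mul_nonneg (mul_nonneg (mul_nonneg p q) r) r),
    (mul_nonneg (mul_nonneg (mul_nonneg p r) r) r),
    (mul_nonneg (mul_nonneg (mul_nonneg q q) q) q),
    (mul_nonneg (mul_nonneg (mul_nonneg q q) q) r),
    (mul_nonneg (mul_nonneg (mul_nonneg q q) r) r),
    (mul_nonneg (mul_nonneg (mul_nonneg q r) r) r),
    (mul_nonneg (mul_nonneg (mul_nonneg r r) r) r)]

end Pool.H3F
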