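import Pool.Agent.H3F.HZ2

/-! HZ3: polynomial inequalities for the zone of large `s`, continued. -/

namespace Pool.H3F

theorem hz3_aux4 (p q r w : ℝ) (hp : 0 ≤ p) (hq : 0 ≤ q) (hr : 0 ≤ r) (hw : 0 ≤ w) :
    0 ≤ (24679254555437500 / 7888207437) * q ^ 4 * w ^ 3 +
      (196446507317187500 / 7888207437) * q ^ 4 * r * w ^ 2 +
      (298635823632812500 / 7888207437) * q ^ 4 * r ^ 2 * w +
      (13534513671875000 / 876467493) * q ^ 4 * r ^ 3 +
      (117548461254062500 / 7888207437) * p * q ^ 3 * w ^ 3 +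
      (816748605967062500 / 7888207437) * p * q ^ 3 * r * w ^ 2 +
      (1201539362012500000 / 7888207437) * p * q ^ 3 * r ^ 2 * w +
      (160708561914062500 / 2629402479) * p * q ^ 3 * r ^ 3 +
      (65013178673187500 / 2629402479) * p ^ 2 * q ^ 2 * w ^ 3 +
      (414084312019750000 / 2629402479) * p ^ 2 * q ^ 2 * r * w ^ 2 +
      (594097091894562500 / 2629402479) * p ^ 2 * q ^ 2 * r ^ 2 * w +
      (78309440879687500 / 876467493) * p ^ 2 * q ^ 2 * r ^ 3 +
      (134879886194125000 / 7888207437) * p ^ 3 * q * w ^ 3 +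
      (816413305363437500 / 7888207437) * p ^ 3 * q * r * w ^ 2 +
      (1151054664529562500 / 7888207437) * p ^ 3 * q * r ^ 2 * w +
      (16642379010437500 / 292155831) * p ^ 3 * q * r ^ 3 +
      (32699077969000000 / 7888207437) * p ^ 4 * w ^ 3 +
      (194431031241500000 / 7888207437) * p ^ 4 * r * w ^ 2 +
      (271635490513000000 / 7888207437) * p ^ 4 * r ^ 2 * w +
      (34954616385250000 / 2629402479) * p ^ 4 * r ^ 3 := by
  positivity

theorem hz3_aux5 (p q r w : ℝ) (hp : 0 ≤ p) (hq : 0 ≤ q) (hr : 0 ≤ r) (hw : 0 ≤ w) :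
    0 ≤ (194242141203125 / 140361936) * q ^ 4 * w ^ 3 +
      (1893101802734375 / 280723872) * q ^ 4 * r * w ^ 2 +
      (1214101806640625 / 140361936) * q ^ 4 * r ^ 2 * w +
      (294428955078125 / 93574624) * q ^ 4 * r ^ 3 +
      (173182746578125 / 25520352) * p * q ^ 3 * w ^ 3 +
      (1488986782953125 / 51040704) * p * q ^ 3 * r * w ^ 2 +
      (81634181640625 / 2320032) * p * q ^ 3 * r ^ 2 * w +
      (624072021484375 / 51040704) * p * q ^ 3 * r ^ 3 +
      (250051681328125 / 23393656) * p ^ 2 * q ^ 2 * w ^ 3 +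
      (8040288092515625 / 187149248) * p ^ 2 * q ^ 2 * r * w ^ 2 +
      (1158784452671875 / 23393656) * p ^ 2 * q ^ 2 * r ^ 2 * w +
      (3069752357421875 / 187149248) * p ^ 2 * q ^ 2 * r ^ 3 +
      (1779396531109375 / 280723872) * p ^ 3 * q * w ^ 3 +
      (13897410216390625 / 561447744) * p ^ 3 * q * r * w ^ 2 +
      (7720115398515625 / 280723872) * p ^ 3 * q * r ^ 2 * w +
      (1593621562515625 / 187149248) * p ^ 3 * q * r ^ 3 +
      (36848101046875 / 35090484) * p ^ 4 * w ^ 3 +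
      (2366092085359375 / 561447744) * p ^ 4 * r * w ^ 2 +
      (315670475359375 / 70180968) * p ^ 4 * r ^ 2 * w +
      (668791167640625 / 561447744) * p ^ 4 * r ^ 3 := by
  positivity

theorem hz3_aux6 (p q r w : ℝ) (hp : 0 ≤ p) (hq : 0 ≤ q) (hr : 0 ≤ r) (hw : 0 ≤ w) :
    0 ≤ (114397000000 / 12326391) * q ^ 3 * w ^ 3 +
      (422320000000 / 4108797) * q ^ 3 * r * w ^ 2 +
      (635500000000 / 4108797) * q ^ 3 * r ^ 2 * w +
      (718000000000 / 12326391) * q ^ 3 * r ^ 3 +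
      (210862880000 / 4108797) * p * q ^ 2 * w ^ 3 +
      (458313160000 / 1369599) * p * q ^ 2 * r * w ^ 2 +
      (200590400000 / 456533) * p * q ^ 2 * r ^ 2 * w +
      (605300000000 / 4108797) * p * q ^ 2 * r ^ 3 +
      (25045683200 / 373527) * p ^ 2 * q * w ^ 3 +
      (41778572800 / 124509) * p ^ 2 * q * r * w ^ 2 +
      (16072260800 / 41503) * p ^ 2 * q * r ^ 2 * w +
      (41093312000 / 373527) * p ^ 2 * q * r ^ 3 +
      (303269777408 / 12326391) * p ^ 3 * w ^ 3 +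
      (421027294208 / 4108797) * p ^ 3 * r * w ^ 2 +
      (416294091008 / 4108797) * p ^ 3 * r ^ 2 * w +
      (253133167808 / 12326391) * p ^ 3 * r ^ 3 := by
  positivity

theorem hz3_aux7 (p q r w : ℝ) (hp : 0 ≤ p) (hq : 0 ≤ q) (hr : 0 ≤ r) (hw : 0 ≤ w) :
    0 ≤ (25563609703125 / 6539203) * q ^ 3 * w ^ 3 +
      (151611125625000 / 6539203) * q ^ 3 * r * w ^ 2 +
      (199106437500000 / 6539203) * q ^ 3 * r ^ 2 * w +
      (70300195312500 / 6539203) * q ^ 3 * r ^ 3 +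
      (81285916406250 / 6539203) * p * q ^ 2 * w ^ 3 +
      (458148853546875 / 6539203) * p * q ^ 2 * r * w ^ 2 +
      (588822522187500 / 6539203) * p * q ^ 2 * r ^ 2 * w +
      (203683406250000 / 6539203) * p * q ^ 2 * r ^ 3 +
      (7772578125000 / 594473) * p ^ 2 * q * w ^ 3 +
      (41838862500000 / 594473) * p ^ 2 * q * r * w ^ 2 +
      (4785123796875 / 54043) * p ^ 2 * q * r ^ 2 * w +
      (17817697500000 / 594473) * p ^ 2 * q * r ^ 3 +
      (29772460937500 / 6539203) * p ^ 3 * w ^ 3 +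
      (153678984375000 / 6539203) * p ^ 3 * r * w ^ 2 +
      (189273119531250 / 6539203) * p ^ 3 * r ^ 2 * w +
      (62607869828125 / 6539203) * p ^ 3 * r ^ 3 := by
  positivity

theorem hcond_4 : HCond (-(13 / 100)) 0 (21 / 50) (12 / 25) := by
  intro β s h1 h2 h3 h4 h5
  unfold HR
  have hv' : 0 ≤ (319 / 2500) - (s - 39 / 50 * (1 - β)) := by linarith
  have key := hz3_aux4 (β - (21 / 50)) ((12 / 25) - β) (s - 39 / 50 * (1 - β)) ((319 / 2500) - (s - 39 / 50 * (1 - β)))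
    (by linarith) (by linarith) (by linarith) hv'
  nlinarith [key]

theorem hcond_5 : HCond (-(13 / 100)) (3 / 10) (12 / 25) (14 / 25) := by
  intro β s h1 h2 h3 h4 h5
  unfold HR
  have hv' : 0 ≤ (143 / 1250) - (s - 39 / 50 * (1 - β)) := by linarith
  have key := hz3_aux5 (β - (12 / 25)) ((14 / 25) - β) (s - 39 / 50 * (1 - β)) ((143 / 1250) - (s - 39 / 50 * (1 - β)))
    (by linarith) (by linarith) (by linarith) hv'
  nlinarith [key]

/-- The second condition. -/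
theorem hcond2_1 (β s : ℝ) (h1 : 1 / 4 ≤ β) (h2 : β ≤ 8 / 25) (h3 : (39 / 50) * (1 - β) ≤ s)
    (h4 : s ≤ 1 - β) (h5 : s ≤ (61 / 25) * β) (h6 : 2 * β ≤ s) :
    β * (6 * s - 6 * (1 - β) + 3 * β + (5 / 4) * (3 / 5)) ^ 2 / (15 / 2) ≤
      HR β s (3 / 5) - s ^ 3 + 3 * β * s ^ 2 - β * (3 / 5) ^ 2 / 8 := by
  unfold HR
  have hv' : 0 ≤ (33 / 200) - (s - 39 / 50 * (1 - β)) := by linarith
  have key := hz3_aux6 (β - (1 / 4)) ((8 / 25) - β) (s - 39 / 50 * (1 - β)) ((33 / 200) - (s - 39 / 50 * (1 - β)))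
    (by linarith) (by linarith) (by linarith) hv'
  nlinarith [key]

theorem hcond2_2 (β s : ℝ) (h1 : 8 / 25 ≤ β) (h2 : β ≤ 37 / 100) (h3 : (39 / 50) * (1 - β) ≤ s)
    (h4 : s ≤ 1 - β) (h6 : 2 * β ≤ s) :
    β * (6 * s - 6 * (1 - β) + 3 * β + (5 / 4) * (2 / 5)) ^ 2 / (15 / 2) ≤
      HR β s (2 / 5) - s ^ 3 + 3 * β * s ^ 2 - β * (2 / 5) ^ 2 / 8 := by
  unfold HR
  have hv' : 0 ≤ (187 / 1250) - (s - 39 / 50 * (1 - β)) := by linarith
  have key := hz3_aux7 (β - (8 / 25)) ((1 / 3) - β) (s - 39 / 50 * (1 - β)) ((187 / 1250) - (s - 39 / 50 * (1 - β)))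
    (by linarith) (by linarith) (by linarith) hv'
  nlinarith [key]

end Pool.H3F
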