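import Pool.Agent.H3F.HZ1
import Pool.Agent.H3F.HZ3
import Pool.Agent.H3F.ES2

/-! HZ4: the zone of large `s`. -/

namespace Pool.H3F

/-- One range of `β`. -/
theorem HZ4_one (α β s a b lam τ b0 b1 : ℝ) (hH : HCond lam τ b0 b1) (h0 : b0 ≤ β)
    (h0' : β ≤ b1) (hl : -(13 / 100) ≤ lam) (hl1 : lam ≤ 3 / 5) (hτ : 0 ≤ τ) (hτ1 : τ ≤ 3 / 10)
    (h : α + β = 1) (h1 : 1 / 4 ≤ β) (h2 : β ≤ 14 / 25)
    (hs0 : (39 / 50) * α ≤ s) (hs1 : s ≤ α) (hs2 : s ≤ (61 / 25) * β)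
    (c2 : 2 * β ≤ s → β * (6 * s - 6 * α + 3 * β + (5 / 4) * lam) ^ 2 / (15 / 2) ≤
      HR β s lam - s ^ 3 + 3 * β * s ^ 2 - β * lam ^ 2 / 8)
    (c3 : (3 * α + (9 / 4) * β) ^ 2 / 12 ≤ β * (6 * α - 3 * β - (5 / 4) * lam))
    (c4 : 0 ≤ (15 / 4) * α - 3 * β - (5 / 4) * lam)
    (hG : GI α β s a b) (h3 : 1 - √2 ≤ a) (h4 : a ≤ 9 / 25) : Below a b := by
  have hα : α = 1 - β := by linarith
  have c1 := hH β s h0 h0' (by rw [← hα]; exact hs0) (by rw [← hα]; exact hs1) hs2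
  rw [← hα] at c1
  have hK := hG lam (HR β s lam) (fun w hw hw1 => hk α β s lam τ _ w h h1 h2 hs0 hs1 hτ hτ1 hl1
    c1 c2 c3 c4 hw hw1)
  obtain ⟨c, hc⟩ : ∃ c, c = 49 / 250 - lam / 30 := ⟨_, rfl⟩
  have e0 : c + lam * (1 / 30) ≤ 49 / 250 := by
    rw [hc]
    linarith
  obtain ⟨d, hd, hd1⟩ := es_flat a c lam h3 h4 hl hl1 e0
  refine ⟨d, hd, le_trans ?_ hd1⟩
  rw [hc]
  unfold HR at hK
  rw [← hα] at hK
  linarith

theorem zone_H (α β s a b : ℝ) (h : α + β = 1) (h1 : 1 / 4 ≤ β) (h2 : β ≤ 14 / 25)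
    (hs0 : (39 / 50) * α ≤ s) (hs1 : s ≤ α) (hs2 : s ≤ (61 / 25) * β) (hG : GI α β s a b)
    (h3 : 1 - √2 ≤ a) (h4 : a ≤ 9 / 25) : Below a b := by
  have hα : α = 1 - β := by linarith
  rcases le_total β (8 / 25) with h5 | h5
  · refine HZ4_one α β s a b _ _ _ _ hcond_1 h1 h5 (by norm_num) (by norm_num) (by norm_num)
      (by norm_num) h h1 h2 hs0 hs1 hs2 (fun h6 => ?_) ?_ ?_ hG h3 h4
    · have := hcond2_1 β s h1 h5 (by rw [← hα]; exact hs0) (by rw [← hα]; exact hs1) hs2 h6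
      rw [← hα] at this
      exact this
    · rw [hα]
      nlinarith
    · rw [hα]
      linarith
  rcases le_total β (37 / 100) with h6 | h6
  · refine HZ4_one α β s a b _ _ _ _ hcond_2 h5 h6 (by norm_num) (by norm_num) (by norm_num)
      (by norm_num) h h1 h2 hs0 hs1 hs2 (fun h7 => ?_) ?_ ?_ hG h3 h4
    · have := hcond2_2 β s h5 h6 (by rw [← hα]; exact hs0) (by rw [← hα]; exact hs1) h7
      rw [← hα] at this
      exact this
    · rw [hα]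
      nlinarith
    · rw [hα]
      linarith
  rcases le_total β (21 / 50) with h7 | h7
  · refine HZ4_one α β s a b _ _ _ _ hcond_3 h6 h7 (by norm_num) (by norm_num) (by norm_num)
      (by norm_num) h h1 h2 hs0 hs1 hs2 (fun h8 => ?_) ?_ ?_ hG h3 h4
    · linarith
    · rw [hα]
      nlinarith
    · rw [hα]
      linarith
  rcases le_total β (12 / 25) with h8 | h8
  · refine HZ4_one α β s a b _ _ _ _ hcond_4 h7 h8 (by norm_num) (by norm_num) (by norm_num)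
      (by norm_num) h h1 h2 hs0 hs1 hs2 (fun h9 => ?_) ?_ ?_ hG h3 h4
    · linarith
    · rw [hα]
      nlinarith
    · rw [hα]
      linarith
  · refine HZ4_one α β s a b _ _ _ _ hcond_5 h8 h2 (by norm_num) (by norm_num) (by norm_num)
      (by norm_num) h h1 h2 hs0 hs1 hs2 (fun h9 => ?_) ?_ ?_ hG h3 h4
    · linarith
    · rw [hα]
      nlinarith
    · rw [hα]
      linarith

end Pool.H3F
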