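import Pool.Agent.H3F.FDefs

/-! INF1: a crossing of a planar code is replaced by three crossings in a row. -/

namespace Pool.H3F

open Finset

namespace INF1Aux

/-- New position of an old passage. -/
def sh (F S p : ℕ) : ℕ := if p ≤ F then p else if p ≤ S then p + 2 else p + 4

/-- New labels of the edges. -/
def lab (F S a1 a2 b1 b2 : ℕ) (l : ℕ → ℕ) (j : ℕ) : ℕ :=
  if j < F then l j else if j = F then a1 else if j = F + 1 then a2 else
    if j < S + 2 then l (j - 2) else if j = S + 2 then b1 else if j = S + 3 then b2 else l (j - 4)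

/-- The corner conditions. -/
def cor (N : ℕ) (l r : ℕ → ℕ) (p q : ℕ) : Prop :=
  l p = r q ∧ l (prd N p) = l q ∧ r (prd N p) = l (prd N q) ∧ r p = r (prd N q)

section
variable {F S a1 a2 b1 b2 n : ℕ} {l : ℕ → ℕ}

theorem lab_F (_h : F < S) : lab F S a1 a2 b1 b2 l F = a1 := by
  unfold lab; simp

theorem lab_F1 (_h : F < S) : lab F S a1 a2 b1 b2 l (F + 1) = a2 := by
  unfold lab
  rw [if_neg (by omega), if_neg (by omega), if_pos rfl]

theorem lab_F2 (h : F < S) : lab F S a1 a2 b1 b2 l (F + 2) = l F := by
  unfold lab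
  rw [if_neg (by omega), if_neg (by omega), if_neg (by omega), if_pos (by omega)]
  rfl

theorem lab_S1 (h : F < S) : lab F S a1 a2 b1 b2 l (S + 1) = l (S - 1) := by
  unfold lab
  rw [if_neg (by omega), if_neg (by omega), if_neg (by omega), if_pos (by omega)]
  congr 1

theorem lab_S2 (h : F < S) : lab F S a1 a2 b1 b2 l (S + 2) = b1 := by
  unfold lab
  rw [if_neg (by omega), if_neg (by omega), if_neg (by omega), if_neg (by omega), if_pos rfl]

theorem lab_S3 (h : F < S) : lab F S a1 a2 b1 b2 l (S + 3) = b2 := by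
  unfold lab
  rw [if_neg (by omega), if_neg (by omega), if_neg (by omega), if_neg (by omega),
    if_neg (by omega), if_pos rfl]

theorem lab_big (h : F < S) {j : ℕ} (hj : S ≤ j) : lab F S a1 a2 b1 b2 l (j + 4) = l j := by
  unfold lab
  rw [if_neg (by omega), if_neg (by omega), if_neg (by omega), if_neg (by omega),
    if_neg (by omega), if_neg (by omega)]
  rfl

theorem lab_mid (h : F < S) {j : ℕ} (h1 : F ≤ j) (h2 : j < S) :
    lab F S a1 a2 b1 b2 l (j + 2) = l j := by
  unfold lab
  rw [if_neg (by omega), if_neg (by omega), if_neg (by omega), if_pos (by omega)]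
  rfl

theorem lab_small {j : ℕ} (h1 : j < F) : lab F S a1 a2 b1 b2 l j = l j := by
  unfold lab
  rw [if_pos h1]

theorem lab_sh (h : F < S) {p : ℕ} (h1 : p ≠ F) (h2 : p ≠ S) :
    lab F S a1 a2 b1 b2 l (sh F S p) = l p := by
  unfold sh
  split_ifs with h3 h4
  · exact lab_small (by omega)
  · exact lab_mid h (by omega) (by omega)
  · exact lab_big h (by omega)

theorem prd_sh (h : F < S) (hS : S < 2 * n) {p : ℕ} (hp : p < 2 * n) (h1 : p ≠ F) (h2 : p ≠ S) :
    lab F S a1 a2 b1 b2 l (prd (n + 2) (sh F S p)) = l (prd n p) := by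
  unfold prd
  by_cases h0 : p = 0
  · have h3 : sh F S p = 0 := by
      unfold sh; rw [if_pos (by omega)]; exact h0
    rw [h3, if_pos rfl, if_pos h0]
    have e : 2 * (n + 2) - 1 = (2 * n - 1) + 4 := by omega
    rw [e]
    exact lab_big h (by omega)
  · have h3 : sh F S p ≠ 0 := by
      unfold sh; split_ifs <;> omega
    rw [if_neg h3, if_neg h0]
    unfold sh
    split_ifs with h4 h5
    · exact lab_small (by omega)
    · have e : p + 2 - 1 = (p - 1) + 2 := by omega
      rw [e]
      exact lab_mid h (by omega) (by omega)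
    · have e : p + 4 - 1 = (p - 1) + 4 := by omega
      rw [e]
      exact lab_big h (by omega)

theorem prd_F (h : F < S) (hS : S < 2 * n) :
    lab F S a1 a2 b1 b2 l (prd (n + 2) F) = l (prd n F) := by
  unfold prd
  by_cases h0 : F = 0
  · rw [if_pos h0, if_pos h0]
    have e : 2 * (n + 2) - 1 = (2 * n - 1) + 4 := by omega
    rw [e]
    exact lab_big h (by omega)
  · rw [if_neg h0, if_neg h0]
    exact lab_small (by omega)

theorem prd_succ (N j : ℕ) : prd N (j + 1) = j := by
  unfold prd
  rw [if_neg (by omega)]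
  rfl

theorem prd_S (h : F < S) : prd n S = S - 1 := by
  unfold prd
  rw [if_neg (by omega)]

end

theorem three {n : ℕ} (P : Fin (n + 2) → Prop) (h1 : ∀ j : Fin n, P j.castSucc.castSucc)
    (h2 : P (Fin.last n).castSucc) (h3 : P (Fin.last (n + 1))) : ∀ i, P i := by
  intro i
  refine Fin.lastCases h3 (fun j => ?_) i
  exact Fin.lastCases h2 h1 j

/-- Extension of a function by two values. -/
def ex {α : Type} {n : ℕ} (g : Fin n → α) (a b : α) : Fin (n + 2) → α :=
  Fin.snoc (α := fun _ => α) (Fin.snoc (α := fun _ => α) g a) b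

section
variable {α : Type} {n : ℕ} (g : Fin n → α) (a b : α)

theorem ex_old (j : Fin n) : ex g a b j.castSucc.castSucc = g j := by
  unfold ex
  rw [Fin.snoc_castSucc, Fin.snoc_castSucc]

theorem ex_a : ex g a b (Fin.last n).castSucc = a := by
  unfold ex
  rw [Fin.snoc_castSucc, Fin.snoc_last]

theorem ex_b : ex g a b (Fin.last (n + 1)) = b := by
  unfold ex
  rw [Fin.snoc_last]

end

/-- New second passages of the old crossings. -/
def so {n : ℕ} (C : PCode n) (c : Fin n) (P : Bool) (j : Fin n) : ℕ :=
  if j = c then (if P then C.s c + 2 else C.s c + 4) else sh (C.f c) (C.s c) (C.s j)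

theorem old_facts {n : ℕ} (C : PCode n) (c j : Fin n) (h : j ≠ c) :
    C.f j ≠ C.f c ∧ C.f j ≠ C.s c ∧ C.s j ≠ C.f c ∧ C.s j ≠ C.s c :=
  ⟨fun e => h (C.injf _ _ e), C.ne j c, fun e => C.ne c j e.symm, fun e => h (C.injs _ _ e)⟩

theorem build {n : ℕ} (C : PCode n) (c : Fin n) (P : Bool) (l1 l2 l3 l4 r1 r2 r3 r4 : ℕ)
    (b : l1 < n + 4 ∧ l2 < n + 4 ∧ l3 < n + 4 ∧ l4 < n + 4 ∧ r1 < n + 4 ∧ r2 < n + 4 ∧
      r3 < n + 4 ∧ r4 < n + 4)
    (hN : ∀ x, x = n + 2 ∨ x = n + 3 → l1 = x ∨ r1 = x ∨ l2 = x ∨ r2 = x)
    (hP : C.t c = true →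
      cor (n + 2) (lab (C.f c) (C.s c) l1 l2 l3 l4 C.l) (lab (C.f c) (C.s c) r1 r2 r3 r4 C.r)
        (C.f c) (if P then C.s c + 2 else C.s c + 4) ∧
      cor (n + 2) (lab (C.f c) (C.s c) l1 l2 l3 l4 C.l) (lab (C.f c) (C.s c) r1 r2 r3 r4 C.r)
        (C.s c + 3) (C.f c + 1) ∧
      cor (n + 2) (lab (C.f c) (C.s c) l1 l2 l3 l4 C.l) (lab (C.f c) (C.s c) r1 r2 r3 r4 C.r)
        (C.f c + 2) (if P then C.s c + 4 else C.s c + 2))
    (hM : C.t c = false →
      cor (n + 2) (lab (C.f c) (C.s c) l1 l2 l3 l4 C.l) (lab (C.f c) (C.s c) r1 r2 r3 r4 C.r)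
        (if P then C.s c + 2 else C.s c + 4) (C.f c) ∧
      cor (n + 2) (lab (C.f c) (C.s c) l1 l2 l3 l4 C.l) (lab (C.f c) (C.s c) r1 r2 r3 r4 C.r)
        (C.f c + 1) (C.s c + 3) ∧
      cor (n + 2) (lab (C.f c) (C.s c) l1 l2 l3 l4 C.l) (lab (C.f c) (C.s c) r1 r2 r3 r4 C.r)
        (if P then C.s c + 4 else C.s c + 2) (C.f c + 2)) :
    ∃ C' : PCode (n + 2),
      C'.f = ex (fun j => sh (C.f c) (C.s c) (C.f j)) (C.f c + 1) (C.f c + 2) ∧
      C'.s = ex (so C c P) (C.s c + 3) (if P then C.s c + 4 else C.s c + 2) := by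
  have hFS := C.lt c
  have hS := C.lt2 c
  set F := C.f c with hF
  set S := C.s c with hSd
  have cP : ∀ j, C.t j = true → cor n C.l C.r (C.f j) (C.s j) := C.cornerP
  have cN : ∀ j, C.t j = false → cor n C.l C.r (C.s j) (C.f j) := C.cornerN
  have old : ∀ (p q : ℕ), p < 2 * n → q < 2 * n → p ≠ F → p ≠ S → q ≠ F → q ≠ S →
      cor n C.l C.r p q → cor (n + 2) (lab F S l1 l2 l3 l4 C.l) (lab F S r1 r2 r3 r4 C.r)
        (sh F S p) (sh F S q) := by
    intro p q hp hq h1 h2 h3 h4 h
    unfold cor
    rw [lab_sh hFS h1 h2, lab_sh hFS h3 h4, lab_sh hFS h3 h4, lab_sh hFS h1 h2,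
      prd_sh hFS hS hp h1 h2, prd_sh hFS hS hp h1 h2, prd_sh hFS hS hq h3 h4,
      prd_sh hFS hS hq h3 h4]
    exact h
  refine ⟨{
    f := ex (fun j => sh F S (C.f j)) (F + 1) (F + 2)
    s := ex (so C c P) (S + 3) (if P then S + 4 else S + 2)
    t := ex C.t (!(C.t c)) (C.t c)
    l := lab F S l1 l2 l3 l4 C.l
    r := lab F S r1 r2 r3 r4 C.r
    lt := ?_, lt2 := ?_, injf := ?_, injs := ?_, ne := ?_, l_lt := ?_, r_lt := ?_, surj := ?_,
    cornerP := ?_, cornerN := ?_ }, rfl, rfl⟩
  · refine three _ (fun j => ?_) ?_ ?_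
    · rw [ex_old, ex_old]
      have h1 := C.lt j
      unfold so sh
      by_cases hj : j = c
      · rw [if_pos hj]
        subst hj
        split_ifs <;> omega
      · rw [if_neg hj]
        obtain ⟨e1, e2, e3, e4⟩ := old_facts C c j hj
        split_ifs <;> omega
    · rw [ex_a, ex_a]; omega
    · rw [ex_b, ex_b]; split_ifs <;> omega
  · refine three _ (fun j => ?_) ?_ ?_
    · rw [ex_old]
      have h1 := C.lt2 j
      unfold so sh
      by_cases hj : j = c
      · rw [if_pos hj]
        split_ifs <;> omega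
      · rw [if_neg hj]
        split_ifs <;> omega
    · rw [ex_a]; omega
    · rw [ex_b]; split_ifs <;> omega
  · refine three _ (fun i => three _ (fun j => ?_) ?_ ?_) (three _ (fun j => ?_) ?_ ?_)
      (three _ (fun j => ?_) ?_ ?_)
    · rw [ex_old, ex_old]
      intro h
      have : C.f i = C.f j := by
        unfold sh at h
        split_ifs at h <;> omega
      rw [C.injf i j this]
    · rw [ex_old, ex_a]
      intro h
      exfalso
      unfold sh at h
      split_ifs at h <;> omega
    · rw [ex_old, ex_b]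
      intro h
      exfalso
      unfold sh at h
      split_ifs at h <;> omega
    · rw [ex_old, ex_a]
      intro h
      exfalso
      unfold sh at h
      split_ifs at h <;> omega
    · intro _; rfl
    · rw [ex_a, ex_b]; intro h; omega
    · rw [ex_old, ex_b]
      intro h
      exfalso
      unfold sh at h
      split_ifs at h <;> omega
    · rw [ex_a, ex_b]; intro h; omega
    · intro _; rfl
  · refine three _ (fun i => three _ (fun j => ?_) ?_ ?_) (three _ (fun j => ?_) ?_ ?_)
      (three _ (fun j => ?_) ?_ ?_)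
    · rw [ex_old, ex_old]
      intro h
      by_cases hi : i = c <;> by_cases hj : j = c
      · rw [hi, hj]
      · exfalso
        obtain ⟨e1, e2, e3, e4⟩ := old_facts C c j hj
        unfold so sh at h
        rw [if_pos hi, if_neg hj] at h
        split_ifs at h <;> omega
      · exfalso
        obtain ⟨e1, e2, e3, e4⟩ := old_facts C c i hi
        unfold so sh at h
        rw [if_neg hi, if_pos hj] at h
        split_ifs at h <;> omega
      · have : C.s i = C.s j := by
          unfold so sh at h
          rw [if_neg hi, if_neg hj] at h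
          split_ifs at h <;> omega
        rw [C.injs i j this]
    · rw [ex_old, ex_a]
      intro h
      exfalso
      unfold so sh at h
      by_cases hi : i = c
      · rw [if_pos hi] at h
        split_ifs at h <;> omega
      · rw [if_neg hi] at h
        obtain ⟨e1, e2, e3, e4⟩ := old_facts C c i hi
        split_ifs at h <;> omega
    · rw [ex_old, ex_b]
      intro h
      exfalso
      unfold so sh at h
      by_cases hi : i = c
      · rw [if_pos hi] at h
        split_ifs at h <;> omega
      · rw [if_neg hi] at h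
        obtain ⟨e1, e2, e3, e4⟩ := old_facts C c i hi
        split_ifs at h <;> omega
    · rw [ex_old, ex_a]
      intro h
      exfalso
      unfold so sh at h
      by_cases hi : j = c
      · rw [if_pos hi] at h
        split_ifs at h <;> omega
      · rw [if_neg hi] at h
        obtain ⟨e1, e2, e3, e4⟩ := old_facts C c j hi
        split_ifs at h <;> omega
    · intro _; rfl
    · rw [ex_a, ex_b]; intro h; exfalso; split_ifs at h <;> omega
    · rw [ex_old, ex_b]
      intro h
      exfalso
      unfold so sh at h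
      by_cases hi : j = c
      · rw [if_pos hi] at h
        split_ifs at h <;> omega
      · rw [if_neg hi] at h
        obtain ⟨e1, e2, e3, e4⟩ := old_facts C c j hi
        split_ifs at h <;> omega
    · rw [ex_a, ex_b]; intro h; exfalso; split_ifs at h <;> omega
    · intro _; rfl
  · have key : ∀ (p : ℕ) (j : Fin n), (p = F + 1 ∨ p = F + 2 ∨ ∃ i, p = sh F S (C.f i)) →
        p ≠ so C c P j := by
      intro p j hp h
      unfold so at h
      by_cases hj : j = c
      · rw [if_pos hj] at h
        rcases hp with hp | hp | ⟨i, hp⟩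
        · split_ifs at h <;> omega
        · split_ifs at h <;> omega
        · have h5 := C.ne i c
          unfold sh at hp
          split_ifs at h hp <;> omega
      · rw [if_neg hj] at h
        obtain ⟨e1, e2, e3, e4⟩ := old_facts C c j hj
        unfold sh at h
        rcases hp with hp | hp | ⟨i, hp⟩
        · split_ifs at h <;> omega
        · split_ifs at h <;> omega
        · have h5 := C.ne i j
          unfold sh at hp
          split_ifs at h hp <;> omega
    have key2 : ∀ (p : ℕ) (q : ℕ), (p = F + 1 ∨ p = F + 2 ∨ ∃ i, p = sh F S (C.f i)) →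
        (q = S + 3 ∨ q = if P then S + 4 else S + 2) → p ≠ q := by
      intro p q hp hq h
      rcases hp with hp | hp | ⟨i, hp⟩
      · rcases hq with hq | hq
        · omega
        · split_ifs at hq <;> omega
      · rcases hq with hq | hq
        · omega
        · split_ifs at hq <;> omega
      · have h5 : C.f i ≠ S := C.ne i c
        unfold sh at hp
        rcases hq with hq | hq
        · split_ifs at hp <;> omega
        · split_ifs at hp hq <;> omega
    refine three _ (fun i => three _ (fun j => ?_) ?_ ?_) (three _ (fun j => ?_) ?_ ?_)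
      (three _ (fun j => ?_) ?_ ?_)
    · rw [ex_old, ex_old]; exact key _ _ (Or.inr (Or.inr ⟨i, rfl⟩))
    · rw [ex_old, ex_a]; exact key2 _ _ (Or.inr (Or.inr ⟨i, rfl⟩)) (Or.inl rfl)
    · rw [ex_old, ex_b]; exact key2 _ _ (Or.inr (Or.inr ⟨i, rfl⟩)) (Or.inr rfl)
    · rw [ex_a, ex_old]; exact key _ _ (Or.inl rfl)
    · rw [ex_a, ex_a]; exact key2 _ _ (Or.inl rfl) (Or.inl rfl)
    · rw [ex_a, ex_b]; exact key2 _ _ (Or.inl rfl) (Or.inr rfl)
    · rw [ex_b, ex_old]; exact key _ _ (Or.inr (Or.inl rfl))
    · rw [ex_b, ex_a]; exact key2 _ _ (Or.inr (Or.inl rfl)) (Or.inl rfl)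
    · rw [ex_b, ex_b]; exact key2 _ _ (Or.inr (Or.inl rfl)) (Or.inr rfl)
  · intro j hj
    obtain ⟨b1, b2, b3, b4, b5, b6, b7, b8⟩ := b
    unfold lab
    split_ifs with h1 h2 h3 h4 h5 h6
    · have := C.l_lt j (by omega); omega
    · omega
    · omega
    · have := C.l_lt (j - 2) (by omega); omega
    · omega
    · omega
    · have := C.l_lt (j - 4) (by omega); omega
  · intro j hj
    obtain ⟨b1, b2, b3, b4, b5, b6, b7, b8⟩ := b
    unfold lab
    split_ifs with h1 h2 h3 h4 h5 h6
    · have := C.r_lt j (by omega); omega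
    · omega
    · omega
    · have := C.r_lt (j - 2) (by omega); omega
    · omega
    · omega
    · have := C.r_lt (j - 4) (by omega); omega
  · intro x hx
    by_cases hx2 : x < n + 2
    · obtain ⟨j, hj, h⟩ := C.surj x hx2
      by_cases h1 : j < F
      · exact ⟨j, by omega, by rw [lab_small h1, lab_small h1]; exact h⟩
      · by_cases h2 : j < S
        · exact ⟨j + 2, by omega, by
            rw [lab_mid hFS (by omega) h2, lab_mid hFS (by omega) h2]; exact h⟩
        · exact ⟨j + 4, by omega, by
            rw [lab_big hFS (by omega), lab_big hFS (by omega)]; exact h⟩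
    · rcases hN x (by omega) with h | h | h | h
      · exact ⟨F, by omega, Or.inl (by rw [lab_F hFS]; exact h)⟩
      · exact ⟨F, by omega, Or.inr (by rw [lab_F hFS]; exact h)⟩
      · exact ⟨F + 1, by omega, Or.inl (by rw [lab_F1 hFS]; exact h)⟩
      · exact ⟨F + 1, by omega, Or.inr (by rw [lab_F1 hFS]; exact h)⟩
  · refine three _ (fun j => ?_) ?_ ?_
    · rw [ex_old, ex_old, ex_old]
      intro ht
      by_cases hj : j = c
      · subst hj
        have h1 := (hP ht).1
        have e : sh F S (C.f j) = F := by unfold sh; rw [if_pos le_rfl]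
        have e2 : so C j P j = if P then S + 2 else S + 4 := by unfold so; rw [if_pos rfl]
        rw [e, e2]
        exact h1
      · obtain ⟨e1, e2, e3, e4⟩ := old_facts C c j hj
        have e5 : so C c P j = sh F S (C.s j) := by unfold so; rw [if_neg hj]
        rw [e5]
        exact old _ _ ((C.lt j).trans (C.lt2 j)) (C.lt2 j) e1 e2 e3 e4 (cP j ht)
    · rw [ex_a, ex_a, ex_a]
      intro ht
      exact (hM (by simpa using ht)).2.1
    · rw [ex_b, ex_b, ex_b]
      intro ht
      exact (hP ht).2.2
  · refine three _ (fun j => ?_) ?_ ?_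
    · rw [ex_old, ex_old, ex_old]
      intro ht
      by_cases hj : j = c
      · subst hj
        have h1 := (hM ht).1
        have e : sh F S (C.f j) = F := by unfold sh; rw [if_pos le_rfl]
        have e2 : so C j P j = if P then S + 2 else S + 4 := by unfold so; rw [if_pos rfl]
        rw [e, e2]
        exact h1
      · obtain ⟨e1, e2, e3, e4⟩ := old_facts C c j hj
        have e5 : so C c P j = sh F S (C.s j) := by unfold so; rw [if_neg hj]
        rw [e5]
        exact old _ _ (C.lt2 j) ((C.lt j).trans (C.lt2 j)) e3 e4 e1 e2 (cN j ht)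
    · rw [ex_a, ex_a, ex_a]
      intro ht
      exact (hP (by simpa using ht)).2.1
    · rw [ex_b, ex_b, ex_b]
      intro ht
      exact (hM ht).2.2

theorem exists_code {n : ℕ} (C : PCode n) (c : Fin n) (P : Bool) :
    ∃ C' : PCode (n + 2),
      C'.f = ex (fun j => sh (C.f c) (C.s c) (C.f j)) (C.f c + 1) (C.f c + 2) ∧
      C'.s = ex (so C c P) (C.s c + 3) (if P then C.s c + 4 else C.s c + 2) := by
  have hFS := C.lt c
  have hS := C.lt2 c
  have hp1 : prd n (C.f c) < 2 * n := by unfold prd; split_ifs <;> omega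
  have hp2 : prd n (C.s c) < 2 * n := by unfold prd; split_ifs <;> omega
  have bA := C.l_lt _ hp1
  have bB := C.r_lt _ hp1
  have bC := C.l_lt (C.f c) (by omega)
  have bD := C.r_lt (C.f c) (by omega)
  have bA' := C.l_lt _ hp2
  have bB' := C.r_lt _ hp2
  have bC' := C.l_lt (C.s c) hS
  have bD' := C.r_lt (C.s c) hS
  have pF1 : prd (n + 2) (C.f c + 1) = C.f c := prd_succ _ _
  have pF2 : prd (n + 2) (C.f c + 2) = C.f c + 1 := prd_succ _ _
  have pS2 : prd (n + 2) (C.s c + 2) = C.s c + 1 := prd_succ _ _
  have pS3 : prd (n + 2) (C.s c + 3) = C.s c + 2 := prd_succ _ _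
  have pS4 : prd (n + 2) (C.s c + 4) = C.s c + 3 := prd_succ _ _
  have pS : prd n (C.s c) = C.s c - 1 := prd_S hFS
  rcases Bool.eq_false_or_eq_true (C.t c) with ht | ht <;>
  rcases Bool.eq_false_or_eq_true P with hPP | hPP
  · -- positive, parallel
    obtain ⟨k1, k2, k3, k4⟩ := C.cornerP c ht
    refine build C c P (n + 2) (C.l (prd n (C.f c))) (C.l (prd n (C.f c))) (n + 3)
      (C.r (C.f c)) (n + 3) (n + 2) (C.r (C.f c)) ⟨by omega, by omega, by omega, by omega,
        by omega, by omega, by omega, by omega⟩ (by intro x hx; omega) (fun _ => ?_)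
        (fun h => by rw [ht] at h; exact absurd h (by simp))
    subst hPP
    unfold cor
    simp only [if_true, pF1, pF2, pS2, pS3, pS4, lab_F hFS, lab_F1 hFS, lab_F2 hFS,
      lab_S1 hFS, lab_S2 hFS, lab_S3 hFS, lab_big hFS le_rfl, prd_F hFS hS]
    rw [pS] at k3 k4
    simp [k1, k2, k3, k4]
  · -- positive, antiparallel
    obtain ⟨k1, k2, k3, k4⟩ := C.cornerP c ht
    refine build C c P (C.l (C.f c)) (n + 3) (n + 3) (C.r (prd n (C.f c)))
      (n + 2) (C.r (prd n (C.f c))) (C.l (C.f c)) (n + 2) ⟨by omega, by omega, by omega, by omega,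
        by omega, by omega, by omega, by omega⟩ (by intro x hx; omega) (fun _ => ?_)
        (fun h => by rw [ht] at h; exact absurd h (by simp))
    subst hPP
    unfold cor
    simp only [Bool.false_eq_true, if_false, pF1, pF2, pS2, pS3, pS4, lab_F hFS, lab_F1 hFS,
      lab_F2 hFS, lab_S1 hFS, lab_S2 hFS, lab_S3 hFS, lab_big hFS le_rfl, prd_F hFS hS]
    rw [pS] at k3 k4
    simp [k1, k2, k3, k4]
  · -- negative, parallel
    obtain ⟨k1, k2, k3, k4⟩ := C.cornerN c ht
    refine build C c P (C.l (prd n (C.s c))) (n + 3) (n + 2) (C.l (prd n (C.s c)))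
      (n + 2) (C.r (C.s c)) (C.r (C.s c)) (n + 3) ⟨by omega, by omega, by omega, by omega,
        by omega, by omega, by omega, by omega⟩ (by intro x hx; omega)
        (fun h => by rw [ht] at h; exact absurd h (by simp)) (fun _ => ?_)
    subst hPP
    unfold cor
    simp only [if_true, pF1, pF2, pS2, pS3, pS4, lab_F hFS, lab_F1 hFS, lab_F2 hFS,
      lab_S1 hFS, lab_S2 hFS, lab_S3 hFS, lab_big hFS le_rfl, prd_F hFS hS]
    rw [pS] at k2 k3 ⊢
    simp [k1, k2, k3, k4]
  · -- negative, antiparallel
    obtain ⟨k1, k2, k3, k4⟩ := C.cornerN c ht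
    refine build C c P (n + 3) (C.r (prd n (C.s c))) (C.l (C.s c)) (n + 3)
      (C.l (C.s c)) (n + 2) (n + 2) (C.r (prd n (C.s c))) ⟨by omega, by omega, by omega,
        by omega, by omega, by omega, by omega, by omega⟩ (by intro x hx; omega)
        (fun h => by rw [ht] at h; exact absurd h (by simp)) (fun _ => ?_)
    subst hPP
    unfold cor
    simp only [Bool.false_eq_true, if_false, pF1, pF2, pS2, pS3, pS4, lab_F hFS, lab_F1 hFS,
      lab_F2 hFS, lab_S1 hFS, lab_S2 hFS, lab_S3 hFS, lab_big hFS le_rfl, prd_F hFS hS]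
    rw [pS] at k2 k3 ⊢
    simp [k1, k2, k3, k4]

end INF1Aux

open INF1Aux

/-- `E (ty c) (ty c) = 1`: the two strands of the new twist run in the same direction;
`E (ty c) (ty c) = 0`: they run in opposite directions. -/
theorem inflate {n B : ℕ} (ty : Fin n → Fin B) (E : Fin B → Fin B → ℝ)
    (hE : ∀ i j, E i j = 0 ∨ E i j = 1) (hs : ∀ i j, E i j = E j i) (C : PCode n)
    (hC : ∀ c d, c ≠ d → (C.Int c d ↔ E (ty c) (ty d) = 1)) (c : Fin n) :
    ∃ (C' : PCode (n + 2)) (ty' : Fin (n + 2) → Fin B),
      (∀ d e, d ≠ e → (C'.Int d e ↔ E (ty' d) (ty' e) = 1)) ∧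
      ∀ i, (univ.filter fun d => ty' d = i).card =
        (univ.filter fun d => ty d = i).card + if i = ty c then 2 else 0 := by
  classical
  obtain ⟨C', hf, hsn⟩ := exists_code C c (decide (E (ty c) (ty c) = 1))
  refine ⟨C', ex ty (ty c) (ty c), ?_, ?_⟩
  · have hFS := C.lt c
    have hcc : (E (ty c) (ty c) = 1) ∨ ¬ (E (ty c) (ty c) = 1) := em _
    -- values
    have sym : ∀ d e, C'.Int d e ↔ C'.Int e d := by
      intro d e
      unfold PCode.Int
      tauto
    have A : ∀ i j : Fin n, i ≠ j →
        (C'.Int i.castSucc.castSucc j.castSucc.castSucc ↔ E (ty i) (ty j) = 1) := by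
      intro i j hij
      rw [← hC i j hij]
      unfold PCode.Int
      rw [hf, hsn, ex_old, ex_old, ex_old, ex_old]
      have h1 := C.lt i
      have h2 := C.lt j
      have h3 := C.ne i j
      have h4 := C.ne j i
      unfold so sh
      by_cases hi : i = c
      · have hj : j ≠ c := fun h => hij (hi.trans h.symm)
        obtain ⟨e1, e2, e3, e4⟩ := old_facts C c j hj
        rw [if_pos hi, if_neg hj, hi]
        split_ifs <;> omega
      · by_cases hj : j = c
        · obtain ⟨e1, e2, e3, e4⟩ := old_facts C c i hi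
          rw [if_neg hi, if_pos hj, hj]
          split_ifs <;> omega
        · obtain ⟨e1, e2, e3, e4⟩ := old_facts C c j hj
          obtain ⟨e5, e6, e7, e8⟩ := old_facts C c i hi
          rw [if_neg hi, if_neg hj]
          split_ifs <;> omega
    have A1 : ∀ j : Fin n, (C'.Int (Fin.last n).castSucc j.castSucc.castSucc ↔
        E (ty c) (ty j) = 1) := by
      intro j
      unfold PCode.Int
      rw [hf, hsn, ex_old, ex_old, ex_a, ex_a]
      have h2 := C.lt j
      by_cases hj : j = c
      · subst hj
        unfold so sh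
        rw [if_pos rfl]
        rcases hcc with h | h
        · rw [decide_eq_true h]
          simp only [if_true, h, iff_true]
          split_ifs <;> omega
        · rw [decide_eq_false h]
          simp only [Bool.false_eq_true, if_false, h, iff_false]
          split_ifs <;> omega
      · obtain ⟨e1, e2, e3, e4⟩ := old_facts C c j hj
        rw [← hC c j (Ne.symm hj)]
        unfold PCode.Int so sh
        rw [if_neg hj]
        split_ifs <;> omega
    have A2 : ∀ j : Fin n, (C'.Int (Fin.last (n + 1)) j.castSucc.castSucc ↔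
        E (ty c) (ty j) = 1) := by
      intro j
      unfold PCode.Int
      rw [hf, hsn, ex_old, ex_old, ex_b, ex_b]
      have h2 := C.lt j
      by_cases hj : j = c
      · subst hj
        unfold so sh
        rw [if_pos rfl]
        rcases hcc with h | h
        · rw [decide_eq_true h]
          simp only [if_true, h, iff_true]
          split_ifs <;> omega
        · rw [decide_eq_false h]
          simp only [Bool.false_eq_true, if_false, h, iff_false]
          split_ifs <;> omega
      · obtain ⟨e1, e2, e3, e4⟩ := old_facts C c j hj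
        rw [← hC c j (Ne.symm hj)]
        unfold PCode.Int so sh
        rw [if_neg hj]
        split_ifs <;> omega
    have A3 : C'.Int (Fin.last n).castSucc (Fin.last (n + 1)) ↔ E (ty c) (ty c) = 1 := by
      unfold PCode.Int
      rw [hf, hsn, ex_a, ex_a, ex_b, ex_b]
      rcases hcc with h | h
      · rw [decide_eq_true h]
        simp only [if_true, h, iff_true]
        omega
      · rw [decide_eq_false h]
        simp only [Bool.false_eq_true, if_false, h, iff_false]
        omega
    refine three _ (fun i => three _ (fun j => ?_) ?_ ?_) (three _ (fun j => ?_) ?_ ?_)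
      (three _ (fun j => ?_) ?_ ?_)
    · intro h
      rw [ex_old, ex_old]
      exact A i j (fun e => h (by rw [e]))
    · intro _
      rw [ex_old, ex_a, sym, A1, hs]
    · intro _
      rw [ex_old, ex_b, sym, A2, hs]
    · intro _
      rw [ex_old, ex_a]
      exact A1 j
    · intro h; exact absurd rfl h
    · intro _
      rw [ex_a, ex_b]
      exact A3
    · intro _
      rw [ex_old, ex_b]
      exact A2 j
    · intro _
      rw [ex_a, ex_b, sym]
      exact A3
    · intro h; exact absurd rfl h
  · intro i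
    rw [Finset.card_filter, Finset.card_filter, Fin.sum_univ_castSucc, Fin.sum_univ_castSucc]
    simp only [ex_old, ex_a, ex_b]
    by_cases h : ty c = i
    · rw [if_pos h, if_pos h.symm]
    · rw [if_neg h, if_neg (Ne.symm h)]

end Pool.H3F
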