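import Pool.Agent.H3F.INF1
import Pool.Agent.H3F.FSeq

/-! INF2: every weighting of a base code gives a limit point. -/

namespace Pool.H3F

open Finset

theorem inflate_many {B : ℕ} (E : Fin B → Fin B → ℝ)
    (hE : ∀ i j, E i j = 0 ∨ E i j = 1) (hs : ∀ i j, E i j = E j i) (r : Fin B → ℕ) {n : ℕ}
    (ty : Fin n → Fin B) (hsurj : ∀ i, ∃ c, ty c = i) (C : PCode n)
    (hC : ∀ c d, c ≠ d → (C.Int c d ↔ E (ty c) (ty d) = 1)) :
    ∃ (N : ℕ) (ty' : Fin N → Fin B) (C' : PCode N), N = n + 2 * ∑ i, r i ∧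
      (∀ d e, d ≠ e → (C'.Int d e ↔ E (ty' d) (ty' e) = 1)) ∧
      ∀ i, (univ.filter fun d => ty' d = i).card =
        (univ.filter fun d => ty d = i).card + 2 * r i := by
  classical
  obtain ⟨k, hk⟩ : ∃ k, k = ∑ i, r i := ⟨_, rfl⟩
  induction k generalizing r n with
  | zero =>
    have h0 : ∀ i, r i = 0 := fun i => (Finset.sum_eq_zero_iff.1 hk.symm) i (mem_univ i)
    refine ⟨n, ty, C, ?_, hC, fun i => ?_⟩
    · rw [← hk, mul_zero, add_zero]
    · rw [h0 i, mul_zero, add_zero]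
  | succ k ih =>
    obtain ⟨i, hi⟩ : ∃ i, r i ≠ 0 := by
      by_contra hcon
      push Not at hcon
      have : ∑ i, r i = 0 := Finset.sum_eq_zero fun i _ => hcon i
      omega
    obtain ⟨c, hc⟩ := hsurj i
    obtain ⟨C1, ty1, h1, h2⟩ := inflate ty E hE hs C hC c
    have hsum : ∑ j, Function.update r i (r i - 1) j = k := by
      have e1 : ∑ j, Function.update r i (r i - 1) j = (r i - 1) + ∑ j ∈ univ \ {i}, r j :=
        Finset.sum_update_of_mem (mem_univ i) r (r i - 1)
      have e2 : ∑ j, r j = r i + ∑ j ∈ univ \ {i}, r j := by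
        have := Finset.sum_update_of_mem (mem_univ i) r (r i)
        rw [Function.update_eq_self] at this
        exact this
      omega
    have hsurj1 : ∀ i, ∃ c, ty1 c = i := by
      intro j
      obtain ⟨d, hd⟩ := hsurj j
      have h3 : 0 < (univ.filter fun d => ty d = j).card :=
        Finset.card_pos.2 ⟨d, by simp [hd]⟩
      have h4 : 0 < (univ.filter fun d => ty1 d = j).card := by
        rw [h2 j]; omega
      obtain ⟨d', hd'⟩ := Finset.card_pos.1 h4
      exact ⟨d', (Finset.mem_filter.1 hd').2⟩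
    obtain ⟨N, ty', C', h5, h6, h7⟩ := ih (Function.update r i (r i - 1)) ty1 hsurj1 C1 h1
      hsum.symm
    refine ⟨N, ty', C', ?_, h6, fun j => ?_⟩
    · rw [h5, hsum, ← hk]; ring
    · rw [h7 j, h2 j]
      by_cases hj : j = i
      · rw [hj, Function.update_self, if_pos hc.symm]
        omega
      · rw [Function.update_of_ne hj, if_neg (fun h => hj (h.trans hc))]
        omega

open FSeqAux in
theorem limit_of_base {n B : ℕ} (ty : Fin n → Fin B) (E : Fin B → Fin B → ℝ)
    (hE : ∀ i j, E i j = 0 ∨ E i j = 1) (hs : ∀ i j, E i j = E j i)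
    (hsurj : ∀ i, ∃ c, ty c = i) (C : PCode n)
    (hC : ∀ c d, c ≠ d → (C.Int c d ↔ E (ty c) (ty d) = 1))
    (e : Fin B → ℝ) (he : ∀ i, e i = 1 ∨ e i = -1) (x : Fin B → ℝ) (hx : ∀ i, 0 ≤ x i)
    (hx1 : ∑ i, x i = 1) :
    (aOf (fun i => e i * x i) E / 8, bOf (fun i => e i * x i) E / 48) ∈ fishLimits := by
  classical
  choose N ty' C' hN hInt hcard using fun j : ℕ =>
    inflate_many E hE hs (fun i => ⌊x i * (j : ℝ)⌋₊) ty hsurj C hC
  have hlim : ∀ i, Filter.Tendsto
      (fun j : ℕ => ((2 * ⌊x i * (j : ℝ)⌋₊ + (univ.filter fun d => ty d = i).card : ℕ) : ℝ) /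
        (j : ℝ)) Filter.atTop (nhds (2 * x i)) := fun i => floor_lim (x i) (hx i) _
  have hNs : ∀ j, N j = ∑ i, (2 * ⌊x i * (j : ℝ)⌋₊ + (univ.filter fun d => ty d = i).card) := by
    intro j
    rw [hN j, Finset.sum_add_distrib, ← Finset.mul_sum]
    have h1 : ∑ i, (univ.filter fun d => ty d = i).card = n := by
      have := Finset.card_eq_sum_card_fiberwise (s := (univ : Finset (Fin n)))
        (t := (univ : Finset (Fin B))) (f := ty) (fun _ _ => by simp)
      rw [Finset.card_univ, Fintype.card_fin] at this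
      exact this.symm
    rw [h1]
    ring
  have hNr : Filter.Tendsto (fun j : ℕ => ((N j : ℕ) : ℝ) / (j : ℝ)) Filter.atTop (nhds 2) := by
    have h1 := tendsto_finsetSum (univ : Finset (Fin B)) (fun i _ => hlim i)
    have e1 : ∑ i, 2 * x i = 2 := by rw [← Finset.mul_sum, hx1, mul_one]
    rw [e1] at h1
    refine h1.congr (fun j => ?_)
    rw [hNs j, Nat.cast_sum, Finset.sum_div]
  refine limit_of_codes E hE e he x N (atTop_of_ratio N hNr) ty' (fun j => ⟨C' j, hInt j⟩) ?_
  intro i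
  refine (ratio_lim _ N (x i) (hlim i) hNr).congr (fun j => ?_)
  rw [hcard j i, Nat.add_comm]

end Pool.H3F
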