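import Pool.Agent.H3F.Walk

/-! Existence of index functions (this is where planarity is used). -/

namespace Pool.H3F

namespace IdxAux

variable {n : ℕ} (S : Shadow n)

/-- the side difference, over the rationals -/
noncomputable def del : (Fin (n + 2) → ℚ) →ₗ[ℚ] (ZMod (2 * n) → ℚ) where
  toFun I j := I (S.L j) - I (S.R j)
  map_add' I J := by funext j; simp only [Pi.add_apply]; ring
  map_smul' c I := by funext j; simp only [Pi.smul_apply, smul_eq_mul, RingHom.id_apply]; ring

/-- circulations -/
def circ : Submodule ℚ (ZMod (2 * n) → ℚ) where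
  carrier := {z | ∀ j, z j + z (S.star j) = z (j - 1) + z (S.star j - 1)}
  zero_mem' := by intro j; simp
  add_mem' := by
    intro a b ha hb j
    have h1 := ha j
    have h2 := hb j
    simp only [Pi.add_apply]
    linarith
  smul_mem' := by
    intro c a ha j
    have h1 := ha j
    simp only [Pi.smul_apply, smul_eq_mul]
    rw [← mul_add, ← mul_add, h1]

/-- antisymmetric functions -/
def anti : Submodule ℚ (ZMod (2 * n) → ℚ) where
  carrier := {w | ∀ j, w (S.star j) = -w j}
  zero_mem' := by intro j; simp
  add_mem' := by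
    intro a b ha hb j
    have h1 := ha j
    have h2 := hb j
    simp only [Pi.add_apply]
    linarith
  smul_mem' := by
    intro c a ha j
    have h1 := ha j
    simp only [Pi.smul_apply, smul_eq_mul]
    rw [h1, mul_neg]

/-- symmetric functions -/
def symm : Submodule ℚ (ZMod (2 * n) → ℚ) where
  carrier := {w | ∀ j, w (S.star j) = w j}
  zero_mem' := by intro j; simp
  add_mem' := by
    intro a b ha hb j
    have h1 := ha j
    have h2 := hb j
    simp only [Pi.add_apply]
    linarith
  smul_mem' := by
    intro c a ha j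
    have h1 := ha j
    simp only [Pi.smul_apply, smul_eq_mul]
    rw [h1]

theorem tau_sq (j : ZMod (2 * n)) : ((S.tau j : ℤ) : ℚ) * (S.tau j : ℚ) = 1 := by
  rcases S.tau_pm j with h | h <;> rw [h] <;> norm_num

/-- multiplication by the signs -/
noncomputable def mulTau : (ZMod (2 * n) → ℚ) →ₗ[ℚ] (ZMod (2 * n) → ℚ) where
  toFun w j := (S.tau j : ℚ) * w j
  map_add' I J := by funext j; simp only [Pi.add_apply]; ring
  map_smul' c I := by funext j; simp only [Pi.smul_apply, smul_eq_mul, RingHom.id_apply]; ring

theorem mulTau_inj : Function.Injective (mulTau S) := by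
  intro a b h
  funext j
  have h1 : (S.tau j : ℚ) * a j = (S.tau j : ℚ) * b j := congrFun h j
  have h2 : (S.tau j : ℚ) ≠ 0 := by
    intro h0
    have := tau_sq S j
    rw [h0] at this
    norm_num at this
  exact mul_left_cancel₀ h2 h1

theorem mulTau_anti {w : ZMod (2 * n) → ℚ} (hw : w ∈ anti S) : mulTau S w ∈ symm S := by
  intro j
  have h1 : w (S.star j) = -w j := hw j
  show (S.tau (S.star j) : ℚ) * w (S.star j) = (S.tau j : ℚ) * w j
  rw [S.tau_star, h1]
  push_cast
  ring

theorem finrank_anti [NeZero n] : Module.finrank ℚ (anti S) ≤ n := by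
  have : NeZero (2 * n) := ⟨by have := NeZero.ne n; omega⟩
  have h1 : Module.finrank ℚ (anti S) ≤ Module.finrank ℚ (symm S) := by
    let f : anti S →ₗ[ℚ] symm S :=
      ((mulTau S).comp (anti S).subtype).codRestrict (symm S) (fun w => mulTau_anti S w.2)
    refine LinearMap.finrank_le_finrank_of_injective (f := f) ?_
    intro a b h
    have h2 : mulTau S a.1 = mulTau S b.1 := congrArg Subtype.val h
    exact Subtype.ext (mulTau_inj S h2)
  have h2 : anti S ⊓ symm S = ⊥ := by
    rw [eq_bot_iff]
    intro w hw
    have ha : ∀ j, w (S.star j) = -w j := hw.1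
    have hs : ∀ j, w (S.star j) = w j := hw.2
    rw [Submodule.mem_bot]
    funext j
    have := ha j
    rw [hs j] at this
    simp only [Pi.zero_apply]
    linarith
  have h3 := Submodule.finrank_sup_add_finrank_inf_eq (anti S) (symm S)
  rw [h2, finrank_bot] at h3
  have h4 : Module.finrank ℚ ↥(anti S ⊔ symm S) ≤ 2 * n := by
    have := Submodule.finrank_le (anti S ⊔ symm S)
    rwa [Module.finrank_fintype_fun_eq_card, ZMod.card] at this
  omega

theorem const_aux [NeZero n] {α : Type} (g : ZMod (2 * n) → α) (h : ∀ j, g j = g (j - 1))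
    (j : ZMod (2 * n)) : g j = g 0 := by
  have : NeZero (2 * n) := ⟨by have := NeZero.ne n; omega⟩
  have h1 : ∀ k : ℕ, g (k : ZMod (2 * n)) = g 0 := by
    intro k
    induction k with
    | zero => simp
    | succ k ih =>
      rw [h, ← ih]
      congr 1
      push_cast
      ring
  have := h1 j.val
  rwa [ZMod.natCast_zmod_val] at this

theorem finrank_circ [NeZero n] : Module.finrank ℚ (circ S) ≤ n + 1 := by
  have : NeZero (2 * n) := ⟨by have := NeZero.ne n; omega⟩
  let d : (ZMod (2 * n) → ℚ) →ₗ[ℚ] (ZMod (2 * n) → ℚ) :=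
    { toFun := fun z j => z j - z (j - 1)
      map_add' := fun I J => by funext j; simp only [Pi.add_apply]; ring
      map_smul' := fun c I => by
        funext j; simp only [Pi.smul_apply, smul_eq_mul, RingHom.id_apply]; ring }
  have hd : ∀ z : circ S, d z.1 ∈ anti S := by
    intro z j
    have hz : z.1 j + z.1 (S.star j) = z.1 (j - 1) + z.1 (S.star j - 1) := z.2 j
    show z.1 (S.star j) - z.1 (S.star j - 1) = -(z.1 j - z.1 (j - 1))
    linarith
  let e : (ZMod (2 * n) → ℚ) →ₗ[ℚ] ℚ := LinearMap.proj 0
  let f : circ S →ₗ[ℚ] ℚ × anti S :=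
    (e.comp (circ S).subtype).prod ((d.comp (circ S).subtype).codRestrict (anti S) hd)
  have hf : Function.Injective f := by
    rw [injective_iff_map_eq_zero]
    intro z hz
    have h0 : z.1 0 = 0 := congrArg Prod.fst hz
    have h1 : ∀ j, z.1 j = z.1 (j - 1) := by
      intro j
      have := congrArg Prod.snd hz
      have h2 : d z.1 = 0 := congrArg Subtype.val this
      have h3 : z.1 j - z.1 (j - 1) = 0 := congrFun h2 j
      linarith
    apply Subtype.ext
    funext j
    rw [const_aux z.1 h1 j, h0]
    rfl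
  have h1 := LinearMap.finrank_le_finrank_of_injective hf
  rw [Module.finrank_prod, Module.finrank_self] at h1
  have h2 := finrank_anti S
  omega

theorem del_circ (I : Fin (n + 2) → ℚ) : del S I ∈ circ S := by
  have key : ∀ j, S.tau j = 1 → del S I j + del S I (S.star j) =
      del S I (j - 1) + del S I (S.star j - 1) := by
    intro j hj
    obtain ⟨h1, h2, h3, h4⟩ := S.corner j hj
    show (I (S.L j) - I (S.R j)) + (I (S.L (S.star j)) - I (S.R (S.star j))) =
      (I (S.L (j - 1)) - I (S.R (j - 1))) + (I (S.L (S.star j - 1)) - I (S.R (S.star j - 1)))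
    rw [h1, h2, h3, h4]
    ring
  intro j
  rcases S.tau_pm j with h | h
  · exact key j h
  · have h1 : S.tau (S.star j) = 1 := by rw [S.tau_star, h]; norm_num
    have h2 := key (S.star j) h1
    rw [S.star_star] at h2
    linarith

end IdxAux

namespace Shadow

variable {n : ℕ} (S : Shadow n)

/-- A function that takes the same value on both sides of every edge is constant. -/
theorem const_of_edges {α : Type} [NeZero n] (I : Fin (n + 2) → α)
    (h : ∀ j, I (S.L j) = I (S.R j)) (f g : Fin (n + 2)) : I f = I g := by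
  have h1 : ∀ j, I (S.L j) = I (S.L (j - 1)) := by
    intro j
    rcases S.consecL j with ⟨_, h2, h3⟩ | ⟨_, h2, h3⟩
    · rw [h2, h3, h]
    · rw [h2, h3, h]
  have h2 : ∀ f, I f = I (S.L 0) := by
    intro f
    obtain ⟨j, hj | hj⟩ := S.surj f
    · rw [← hj]
      exact IdxAux.const_aux (fun j => I (S.L j)) h1 j
    · rw [← hj, ← h]
      exact IdxAux.const_aux (fun j => I (S.L j)) h1 j
  rw [h2 f, h2 g]

theorem exists_index [NeZero n] (z : ZMod (2 * n) → ℤ) (hz : S.Circ z) :
    ∃ I : Fin (n + 2) → ℤ, S.IsIndex I z := by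
  have hker : Module.finrank ℚ (LinearMap.ker (IdxAux.del S)) ≤ 1 := by
    have h1 : LinearMap.ker (IdxAux.del S) ≤ Submodule.span ℚ {fun _ => (1:ℚ)} := by
      intro I hI
      rw [LinearMap.mem_ker] at hI
      have h2 : ∀ j, I (S.L j) = I (S.R j) := by
        intro j
        have : I (S.L j) - I (S.R j) = 0 := congrFun hI j
        linarith
      rw [Submodule.mem_span_singleton]
      refine ⟨I (S.L 0), ?_⟩
      funext f
      simp only [Pi.smul_apply, smul_eq_mul, mul_one]
      exact S.const_of_edges I h2 _ _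
    exact (Submodule.finrank_mono h1).trans
      (by simpa using finrank_span_le_card ({fun _ => (1:ℚ)} : Set (Fin (n + 2) → ℚ)))
  have hrk := LinearMap.finrank_range_add_finrank_ker (IdxAux.del S)
  rw [Module.finrank_fintype_fun_eq_card, Fintype.card_fin] at hrk
  have hle : LinearMap.range (IdxAux.del S) ≤ IdxAux.circ S := by
    rintro _ ⟨I, rfl⟩
    exact IdxAux.del_circ S I
  have hfc := IdxAux.finrank_circ S
  have : NeZero (2 * n) := ⟨by have := NeZero.ne n; omega⟩
  have heq : LinearMap.range (IdxAux.del S) = IdxAux.circ S :=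
    Submodule.eq_of_le_of_finrank_le hle (by omega)
  have hz' : (fun j => (z j : ℚ)) ∈ LinearMap.range (IdxAux.del S) := by
    rw [heq]
    intro j
    have := hz j
    show (z j : ℚ) + (z (S.star j) : ℚ) = (z (j - 1) : ℚ) + (z (S.star j - 1) : ℚ)
    exact_mod_cast this
  obtain ⟨I, hI⟩ := hz'
  refine ⟨fun f => ⌊I f⌋, fun j => ?_⟩
  have h1 : I (S.L j) - I (S.R j) = (z j : ℚ) := congrFun hI j
  have h2 : I (S.L j) = I (S.R j) + (z j : ℚ) := by linarith
  show ⌊I (S.L j)⌋ - ⌊I (S.R j)⌋ = z j
  rw [h2, Int.floor_add_intCast]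
  ring

end Shadow

end Pool.H3F
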