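import Pool.Agent.H3F.GDefs

/-! LZ1: bounds of `Ph` in the zone of small `s`. -/

namespace Pool.H3F

private theorem lz1_D (A g v : ℝ) (hA : 3 ≤ A) :
    (max (3 * v - (3 * A - 3 / 2 - (63 / 100) * g ^ 2)) 0) ^ 2 / 8 ≤
      (9 / 8) * (max (v - 5 / 2 + (21 / 100) * g ^ 2) 0) ^ 2 := by
  have h0 : 0 ≤ max (3 * v - (3 * A - 3 / 2 - (63 / 100) * g ^ 2)) 0 := le_max_right _ _
  have h1 : max (3 * v - (3 * A - 3 / 2 - (63 / 100) * g ^ 2)) 0 ≤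
      3 * max (v - 5 / 2 + (21 / 100) * g ^ 2) 0 := by
    apply max_le
    · have := le_max_left (v - 5 / 2 + (21 / 100) * g ^ 2) 0
      linarith
    · have := le_max_right (v - 5 / 2 + (21 / 100) * g ^ 2) 0
      linarith
  have h2 := pow_le_pow_left₀ h0 h1 2
  have h3 : (3 * max (v - 5 / 2 + (21 / 100) * g ^ 2) 0) ^ 2 =
      9 * (max (v - 5 / 2 + (21 / 100) * g ^ 2) 0) ^ 2 := by ring
  rw [h3] at h2
  linarith

private theorem lz1_F3 (A g v : ℝ) (hA : 3 ≤ A) (hg0 : 0 ≤ g) (hg : g ≤ 61 / 25) (hv : 0 ≤ v) :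
    (max (3 * v - (3 * A - 3 / 2 - (63 / 100) * g ^ 2)) 0) ^ 2 / 8 - (63 / 50) * g ^ 2 * v +
      ((3 / 2) * v * g ^ 2 - v ^ 3 / 2) ≤ (8 / 125) * g ^ 3 := by
  have hD := lz1_D A g v hA
  have hid : (8 / 125) * g ^ 3 - (6 / 25) * v * g ^ 2 + v ^ 3 / 2 =
      (1 / 2) * ((v - (2 / 5) * g) ^ 2 * (v + (4 / 5) * g)) := by ring
  rcases le_total (v - 5 / 2 + (21 / 100) * g ^ 2) 0 with h | h
  · rw [max_eq_right h] at hD
    have : 0 ≤ (v - (2 / 5) * g) ^ 2 * (v + (4 / 5) * g) := by positivity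
    nlinarith
  · rw [max_eq_left h] at hD
    have h1 : v - 5 / 2 + (21 / 100) * g ^ 2 ≤ v - (2 / 5) * g := by nlinarith
    have h2 := pow_le_pow_left₀ h h1 2
    have h3 : (9 / 4 : ℝ) ≤ v + (4 / 5) * g := by nlinarith
    have h4 : (v - (2 / 5) * g) ^ 2 * (9 / 4) ≤ (v - (2 / 5) * g) ^ 2 * (v + (4 / 5) * g) :=
      mul_le_mul_of_nonneg_left h3 (sq_nonneg _)
    linarith

private theorem lz1_F2 (A g v : ℝ) (hA : 3 ≤ A) (hg0 : 0 ≤ g) (hg : g ≤ 61 / 25) :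
    (max (3 * v - (3 * A - 3 / 2 - (63 / 100) * g ^ 2)) 0) ^ 2 / 8 - (63 / 50) * g ^ 2 * v +
      (g ^ 3 - 3 * (g - v) ^ 2) ≤ (8 / 125) * g ^ 3 := by
  have hD := lz1_D A g v hA
  have hid : (8 / 125) * g ^ 3 + (63 / 50) * g ^ 2 * v - (g ^ 3 - 3 * (g - v) ^ 2) =
      3 * (v - g + (21 / 100) * g ^ 2) ^ 2 + g ^ 3 * (81 / 250 - (1323 / 10000) * g) := by ring
  have hp : 0 ≤ g ^ 3 * (81 / 250 - (1323 / 10000) * g) :=
    mul_nonneg (by positivity) (by linarith)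
  rcases le_total (v - 5 / 2 + (21 / 100) * g ^ 2) 0 with h | h
  · rw [max_eq_right h] at hD
    nlinarith [sq_nonneg (v - g + (21 / 100) * g ^ 2)]
  · rw [max_eq_left h] at hD
    have h1 : v - 5 / 2 + (21 / 100) * g ^ 2 ≤ v - g + (21 / 100) * g ^ 2 := by linarith
    have h2 := pow_le_pow_left₀ h h1 2
    nlinarith [sq_nonneg (v - g + (21 / 100) * g ^ 2)]

private theorem lz1_conv (c0 c1 r r1 : ℝ) (h0 : 0 ≤ r) (h1 : r ≤ r1) (q0 : c0 ≤ 0)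
    (q1 : c0 + c1 * r1 + (9 / 8) * r1 ^ 2 ≤ 0) : c0 + c1 * r + (9 / 8) * r ^ 2 ≤ 0 := by
  rcases eq_or_lt_of_le (h0.trans h1) with hr | hr
  · have : r = 0 := by linarith
    rw [this]; simpa using q0
  · have e1 : (r1 - r) * c0 ≤ 0 := mul_nonpos_of_nonneg_of_nonpos (by linarith) q0
    have e2 : r * (c0 + c1 * r1 + (9 / 8) * r1 ^ 2) ≤ 0 := mul_nonpos_of_nonneg_of_nonpos h0 q1
    have e3 : 0 ≤ r1 * (r * (r1 - r)) :=
      mul_nonneg hr.le (mul_nonneg h0 (by linarith))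
    have e4 : r1 * (c0 + c1 * r + (9 / 8) * r ^ 2) ≤ 0 := by nlinarith
    by_contra hc
    push Not at hc
    have := mul_pos hr hc
    linarith

private theorem lz1_F1 (A g v K : ℝ) (hA : 3 ≤ A) (hg0 : 0 ≤ g) (hg : g ≤ 61 / 25)
    (hv : g ≤ v) (hvA : v ≤ A) (hK : 0 ≤ K)
    (hend : (117 / 125) * g ^ 3 - (63 / 50) * g ^ 2 * 3 +
      (9 / 8) * (1 / 2 + (21 / 100) * g ^ 2) ^ 2 ≤ K) :
    (max (3 * v - (3 * A - 3 / 2 - (63 / 100) * g ^ 2)) 0) ^ 2 / 8 - (63 / 50) * g ^ 2 * v +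
      g ^ 3 ≤ (8 / 125) * g ^ 3 + K := by
  have hg2 : 0 ≤ g ^ 2 := sq_nonneg g
  have hg3 : 0 ≤ g ^ 3 := by positivity
  have hgv : g ^ 2 * g ≤ g ^ 2 * v := mul_le_mul_of_nonneg_left hv hg2
  have hcube : g ^ 2 * g = g ^ 3 := by ring
  rcases le_total (3 * v - (3 * A - 3 / 2 - (63 / 100) * g ^ 2)) 0 with h | h
  · rw [max_eq_right h]
    nlinarith
  · rw [max_eq_left h]
    have hAg : g ^ 2 * 3 ≤ g ^ 2 * A := mul_le_mul_of_nonneg_left hA hg2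
    have key : ((117 / 125) * g ^ 3 - (63 / 50) * g ^ 2 * A +
        (9 / 8) * (1 / 2 + (21 / 100) * g ^ 2) ^ 2 - K) +
        ((63 / 50) * g ^ 2 - (9 / 4) * (1 / 2 + (21 / 100) * g ^ 2)) * (A - v) +
        (9 / 8) * (A - v) ^ 2 ≤ 0 := by
      have q0 : (117 / 125) * g ^ 3 - (63 / 50) * g ^ 2 * A +
        (9 / 8) * (1 / 2 + (21 / 100) * g ^ 2) ^ 2 - K ≤ 0 := by nlinarith
      rcases le_total g (A - (1 / 2 + (21 / 100) * g ^ 2)) with hc | hc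
      · apply lz1_conv _ _ (A - v) (1 / 2 + (21 / 100) * g ^ 2) (by linarith) (by linarith) q0
        have h5 : g ^ 2 * g ≤ g ^ 2 * (A - (1 / 2 + (21 / 100) * g ^ 2)) :=
          mul_le_mul_of_nonneg_left hc hg2
        nlinarith
      · apply lz1_conv _ _ (A - v) (A - g) (by linarith) (by linarith) q0
        have h6 : 0 ≤ g - (A - (1 / 2 + (21 / 100) * g ^ 2)) := by linarith
        have h7 : g - (A - (1 / 2 + (21 / 100) * g ^ 2)) ≤ (21 / 100) * g ^ 2 := by linarith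
        have h8 := pow_le_pow_left₀ h6 h7 2
        have h9 : g ^ 3 * g ≤ g ^ 3 * (61 / 25) := mul_le_mul_of_nonneg_left hg hg3
        nlinarith
    nlinarith

/-- Bound of `FF` by its branches after scaling. -/
private theorem lz1_scale (α β s w lam K : ℝ) (h : α + β = 1) (hβ : 0 < β) (hβ1 : β ≤ 1 / 4)
    (hs0 : 0 ≤ s) (hs : s ≤ (61 / 25) * β) (hw : 0 ≤ w) (hwα : w ≤ α) (hK : 0 ≤ K)
    (hl : lam * β = 3 * α * β - (3 / 2) * β ^ 2 - (63 / 100) * s ^ 2)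
    (hend : ∀ g : ℝ, s = g * β → (117 / 125) * g ^ 3 - (63 / 50) * g ^ 2 * 3 +
      (9 / 8) * (1 / 2 + (21 / 100) * g ^ 2) ^ 2 ≤ K) :
    Ph α β s lam w ≤ (8 / 125) * s ^ 3 + K * β ^ 3 := by
  obtain ⟨g, hg⟩ : ∃ g, s = g * β := ⟨s / β, by field_simp⟩
  obtain ⟨v, hv⟩ : ∃ v, w = v * β := ⟨w / β, by field_simp⟩
  obtain ⟨A, hA⟩ : ∃ A, α = A * β := ⟨α / β, by field_simp⟩
  have hend' := hend g hg
  subst hg hv hA
  have hg0 : 0 ≤ g := by
    by_contra hc; push Not at hc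
    have := mul_neg_of_neg_of_pos hc hβ
    linarith
  have hv0 : 0 ≤ v := by
    by_contra hc; push Not at hc
    have := mul_neg_of_neg_of_pos hc hβ
    linarith
  have hg1 : g ≤ 61 / 25 := le_of_mul_le_mul_right hs hβ
  have hvA : v ≤ A := le_of_mul_le_mul_right hwα hβ
  have hA3 : 3 ≤ A := by
    have : 3 * β ≤ A * β := by linarith
    exact le_of_mul_le_mul_right this hβ
  have hlam : lam = (3 * A - 3 / 2 - (63 / 100) * g ^ 2) * β := by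
    have : lam * β = ((3 * A - 3 / 2 - (63 / 100) * g ^ 2) * β) * β := by rw [hl]; ring
    exact mul_right_cancel₀ hβ.ne' this
  subst hlam
  have hmax : max (3 * (v * β) - (3 * A - 3 / 2 - (63 / 100) * g ^ 2) * β) 0 =
      max (3 * v - (3 * A - 3 / 2 - (63 / 100) * g ^ 2)) 0 * β := by
    rw [max_mul_of_nonneg _ _ hβ.le]
    congr 1
    · ring
    · ring
  have hβ3 : 0 ≤ β ^ 3 := by positivity
  unfold Ph
  rw [hmax]
  have hlin : 6 * (A * β) - 3 * β - 2 * ((3 * A - 3 / 2 - (63 / 100) * g ^ 2) * β) =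
      (63 / 50) * g ^ 2 * β := by ring
  rw [hlin]
  set M := max (3 * v - (3 * A - 3 / 2 - (63 / 100) * g ^ 2)) 0 with hM
  have hlhs : β * (-((63 / 50) * g ^ 2 * β) * (v * β) + (M * β) ^ 2 / 8) =
      (M ^ 2 / 8 - (63 / 50) * g ^ 2 * v) * β ^ 3 := by ring
  rw [hlhs]
  have hrhs : (8 / 125) * (g * β) ^ 3 + K * β ^ 3 = ((8 / 125) * g ^ 3 + K) * β ^ 3 := by ring
  rw [hrhs]
  unfold FF
  split_ifs with c1 c2
  · have c1' : g ≤ v := le_of_mul_le_mul_right c1 hβ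
    have := lz1_F1 A g v K hA3 hg0 hg1 c1' hvA hK hend'
    have e := mul_le_mul_of_nonneg_right this hβ3
    rw [← hM] at e
    have e2 : (g * β) ^ 3 = g ^ 3 * β ^ 3 := by ring
    rw [e2]; linarith
  · have := lz1_F2 A g v hA3 hg0 hg1
    have e := mul_le_mul_of_nonneg_right this hβ3
    rw [← hM] at e
    have e2 : (g * β) ^ 3 - 3 * β * (g * β - v * β) ^ 2 = (g ^ 3 - 3 * (g - v) ^ 2) * β ^ 3 := by
      ring
    have e3 : 0 ≤ K * β ^ 3 := mul_nonneg hK hβ3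
    rw [e2]; linarith
  · have := lz1_F3 A g v hA3 hg0 hg1 hv0
    have e := mul_le_mul_of_nonneg_right this hβ3
    rw [← hM] at e
    have e2 : 3 / 2 * (v * β) * (g * β) ^ 2 - (v * β) ^ 3 / 2 =
      ((3 / 2) * v * g ^ 2 - v ^ 3 / 2) * β ^ 3 := by ring
    have e3 : 0 ≤ K * β ^ 3 := mul_nonneg hK hβ3
    have e4 : 0 ≤ (3 * β - g * β - v * β / 2) *
        max 0 ((g * β) ^ 2 - 2 * (v * β) * (A * β) + (v * β) ^ 2) := by
      apply mul_nonneg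
      · push Not at c2; linarith
      · exact le_max_left _ _
    rw [e2]; linarith

theorem lk2 (α β s w lam : ℝ) (h : α + β = 1) (hβ : 0 < β) (hβ1 : β ≤ 1 / 4)
    (hs0 : (6 / 5) * β ≤ s) (hs : s ≤ (61 / 25) * β) (hw : 0 ≤ w) (hwα : w ≤ α)
    (hl : lam * β = 3 * α * β - (3 / 2) * β ^ 2 - (63 / 100) * s ^ 2) :
    Ph α β s lam w ≤ (8 / 125) * s ^ 3 := by
  have := lz1_scale α β s w lam 0 h hβ hβ1 (by linarith) hs hw hwα le_rfl hl ?_
  · linarith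
  · intro g hg
    subst hg
    have h1 : 6 / 5 ≤ g := le_of_mul_le_mul_right hs0 hβ
    have h2 : g ≤ 61 / 25 := le_of_mul_le_mul_right hs hβ
    have h3 : 0 ≤ (g - 6 / 5) * (61 / 25 - g) := mul_nonneg (by linarith) (by linarith)
    nlinarith [mul_nonneg h3 (by linarith : (0 : ℝ) ≤ g), mul_nonneg h3 (sq_nonneg g)]

theorem lk1 (α β s w lam : ℝ) (h : α + β = 1) (hβ : 0 < β) (hβ1 : β ≤ 1 / 4)
    (hs0 : 0 ≤ s) (hs : s ≤ (6 / 5) * β) (hw : 0 ≤ w) (hwα : w ≤ α)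
    (hl : lam * β = 3 * α * β - (3 / 2) * β ^ 2 - (63 / 100) * s ^ 2) :
    Ph α β s lam w ≤ (8 / 125) * s ^ 3 + (3 / 10) * β ^ 3 := by
  apply lz1_scale α β s w lam (3 / 10) h hβ hβ1 hs0 (by linarith) hw hwα (by norm_num) hl
  intro g hg
  subst hg
  have h0 : 0 ≤ g := by
    by_contra hc; push Not at hc
    have := mul_neg_of_neg_of_pos hc hβ
    linarith
  have h2 : g ≤ 6 / 5 := le_of_mul_le_mul_right hs hβ
  have h3 : 0 ≤ g * (6 / 5 - g) := mul_nonneg h0 (by linarith)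
  nlinarith [mul_nonneg h3 h0, mul_nonneg h3 (sq_nonneg g), sq_nonneg g]

end Pool.H3F
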