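import Mathlib

/-! LZ2: polynomial inequalities at the vertices of the polygon, larger `s`. -/

namespace Pool.H3F

/-- The line at the abscissa `A`, with `s = β g`. -/
noncomputable def lpoly (β g A : ℝ) : ℝ :=
  2 * (1 - β) ^ 3 - 3 * (1 - β) * (β * g) ^ 2 + 3 * β * (β * g) ^ 2 + (8 / 125) * (β * g) ^ 3 +
    (3 * (1 - β) - (3 / 2) * β - (63 / 100) * (β * g ^ 2)) * (A - (1 - β) ^ 2 + (β * g) ^ 2)

private theorem lz2_bern (u w v z c00 c01 c02 c03 c04 c10 c11 c12 c13 c14 c20 c21 c22 c23 c24 c30 c31 c32 c33 c34 : ℝ) (hu : 0 ≤ u) (hw : 0 ≤ w)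
    (hv : 0 ≤ v) (hz : 0 ≤ z)
    (h00 : 0 ≤ c00) (h01 : 0 ≤ c01) (h02 : 0 ≤ c02) (h03 : 0 ≤ c03) (h04 : 0 ≤ c04)
    (h10 : 0 ≤ c10) (h11 : 0 ≤ c11) (h12 : 0 ≤ c12) (h13 : 0 ≤ c13) (h14 : 0 ≤ c14)
    (h20 : 0 ≤ c20) (h21 : 0 ≤ c21) (h22 : 0 ≤ c22) (h23 : 0 ≤ c23) (h24 : 0 ≤ c24)
    (h30 : 0 ≤ c30) (h31 : 0 ≤ c31) (h32 : 0 ≤ c32) (h33 : 0 ≤ c33) (h34 : 0 ≤ c34) :
    0 ≤ c00 * (u ^ 0 * w ^ 3 * (v ^ 0 * z ^ 4)) +
      c01 * (u ^ 0 * w ^ 3 * (v ^ 1 * z ^ 3)) +
      c02 * (u ^ 0 * w ^ 3 * (v ^ 2 * z ^ 2)) +
      c03 * (u ^ 0 * w ^ 3 * (v ^ 3 * z ^ 1)) +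
      c04 * (u ^ 0 * w ^ 3 * (v ^ 4 * z ^ 0)) +
      c10 * (u ^ 1 * w ^ 2 * (v ^ 0 * z ^ 4)) +
      c11 * (u ^ 1 * w ^ 2 * (v ^ 1 * z ^ 3)) +
      c12 * (u ^ 1 * w ^ 2 * (v ^ 2 * z ^ 2)) +
      c13 * (u ^ 1 * w ^ 2 * (v ^ 3 * z ^ 1)) +
      c14 * (u ^ 1 * w ^ 2 * (v ^ 4 * z ^ 0)) +
      c20 * (u ^ 2 * w ^ 1 * (v ^ 0 * z ^ 4)) +
      c21 * (u ^ 2 * w ^ 1 * (v ^ 1 * z ^ 3)) +
      c22 * (u ^ 2 * w ^ 1 * (v ^ 2 * z ^ 2)) +
      c23 * (u ^ 2 * w ^ 1 * (v ^ 3 * z ^ 1)) +
      c24 * (u ^ 2 * w ^ 1 * (v ^ 4 * z ^ 0)) +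
      c30 * (u ^ 3 * w ^ 0 * (v ^ 0 * z ^ 4)) +
      c31 * (u ^ 3 * w ^ 0 * (v ^ 1 * z ^ 3)) +
      c32 * (u ^ 3 * w ^ 0 * (v ^ 2 * z ^ 2)) +
      c33 * (u ^ 3 * w ^ 0 * (v ^ 3 * z ^ 1)) +
      c34 * (u ^ 3 * w ^ 0 * (v ^ 4 * z ^ 0)) := by
  positivity

private theorem lp2_0_b0 (β g : ℝ) (h1 : 0 ≤ β) (h2 : β ≤ (1 / 4))
    (h3 : (6 / 5) ≤ g) (h4 : g ≤ (61 / 25)) : lpoly β g (1 / 30) ≤ 49 / 250 := by
  have h := lz2_bern (β - 0) ((1 / 4) - β) (g - (6 / 5)) ((61 / 25) - g)
    (27400000 / 923521) (109600000 / 923521) (164400000 / 923521) (109600000 / 923521) (27400000 / 923521)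
    (49531500 / 923521) (186798600 / 923521) (257354310 / 923521) (152438820 / 923521) (32351610 / 923521)
    (29073000 / 923521) (99496200 / 923521) (115372770 / 923521) (48548940 / 923521) (3599370 / 923521)
    (10467825 / 1847042) (14966445 / 923521) (50088507 / 3694084) (6570205 / 1847042) (26933162 / 23088025)
    (by linarith) (by linarith) (by linarith) (by linarith)
    (by norm_num) (by norm_num) (by norm_num) (by norm_num) (by norm_num)
    (by norm_num) (by norm_num) (by norm_num) (by norm_num) (by norm_num)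
    (by norm_num) (by norm_num) (by norm_num) (by norm_num) (by norm_num)
    (by norm_num) (by norm_num) (by norm_num) (by norm_num) (by norm_num)
  unfold lpoly
  linarith

theorem lp2_0 (β g : ℝ) (h1 : 0 ≤ β) (h2 : β ≤ 1 / 4) (h3 : 6 / 5 ≤ g) (h4 : g ≤ 61 / 25) :
    lpoly β g (1 / 30) ≤ 49 / 250 := by
  exact lp2_0_b0 β g h1 h2 h3 h4

private theorem lp2_1_b0 (β g : ℝ) (h1 : 0 ≤ β) (h2 : β ≤ (1 / 8))
    (h3 : (6 / 5) ≤ g) (h4 : g ≤ (61 / 25)) : lpoly β g (593 / 5000) ≤ 2487 / 10000 := by
  have h := lz2_bern (β - 0) ((1 / 8) - β) (g - (6 / 5)) ((61 / 25) - g)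
    (178580000 / 923521) (714320000 / 923521) (1071480000 / 923521) (714320000 / 923521) (178580000 / 923521)
    (416592348 / 923521) (8125282056 / 4617605) (58856752638 / 23088025) (37493509236 / 23088025) (8848358178 / 23088025)
    (321864696 / 923521) (6082754112 / 4617605) (42045712776 / 23088025) (25036583472 / 23088025) (5358023856 / 23088025)
    (164289521 / 1847042) (1492416281 / 4617605) (38914207227 / 92352100) (10680897597 / 46176050) (206980968 / 4617605)
    (by linarith) (by linarith) (by linarith) (by linarith)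
    (by norm_num) (by norm_num) (by norm_num) (by norm_num) (by norm_num)
    (by norm_num) (by norm_num) (by norm_num) (by norm_num) (by norm_num)
    (by norm_num) (by norm_num) (by norm_num) (by norm_num) (by norm_num)
    (by norm_num) (by norm_num) (by norm_num) (by norm_num) (by norm_num)
  unfold lpoly
  linarith

private theorem lp2_1_b1 (β g : ℝ) (h1 : (1 / 8) ≤ β) (h2 : β ≤ (1 / 4))
    (h3 : (6 / 5) ≤ g) (h4 : g ≤ (91 / 50)) : lpoly β g (593 / 5000) ≤ 2487 / 10000 := by
  have h := lz2_bern (β - (1 / 8)) ((1 / 4) - β) (g - (6 / 5)) ((91 / 50) - g)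
    (1314316168 / 923521) (25082491928 / 4617605) (177746040387 / 23088025) (110796545354 / 23088025) (102478423451 / 92352100)
    (2736061872 / 923521) (50334567312 / 4617605) (340209326898 / 23088025) (199667691516 / 23088025) (3425354169 / 1847042)
    (1837931040 / 923521) (6401079648 / 923521) (40156833132 / 4617605) (21320636424 / 4617605) (20072277129 / 23088025)
    (388863936 / 923521) (6186862656 / 4617605) (34107346824 / 23088025) (15179961008 / 23088025) (480338542 / 4617605)
    (by linarith) (by linarith) (by linarith) (by linarith)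
    (by norm_num) (by norm_num) (by norm_num) (by norm_num) (by norm_num)
    (by norm_num) (by norm_num) (by norm_num) (by norm_num) (by norm_num)
    (by norm_num) (by norm_num) (by norm_num) (by norm_num) (by norm_num)
    (by norm_num) (by norm_num) (by norm_num) (by norm_num) (by norm_num)
  unfold lpoly
  linarith

private theorem lp2_1_b2 (β g : ℝ) (h1 : (1 / 8) ≤ β) (h2 : β ≤ (3 / 16))
    (h3 : (91 / 50) ≤ g) (h4 : g ≤ (61 / 25)) : lpoly β g (593 / 5000) ≤ 2487 / 10000 := by
  have h := lz2_bern (β - (1 / 8)) ((3 / 16) - β) (g - (91 / 50)) ((61 / 25) - g)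
    (204956846902 / 23088025) (753282412384 / 23088025) (1022698471752 / 23088025) (606724362144 / 23088025) (26493563904 / 4617605)
    (478702978803 / 23088025) (1701394520112 / 23088025) (2213285421636 / 23088025) (1243261904976 / 23088025) (253191661056 / 23088025)
    (730259795769 / 46176050) (1244382780648 / 23088025) (1532061015894 / 23088025) (800587341624 / 23088025) (148564663104 / 23088025)
    (363642011257 / 92352100) (295036642516 / 23088025) (341214667323 / 23088025) (165508448476 / 23088025) (5762529632 / 4617605)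
    (by linarith) (by linarith) (by linarith) (by linarith)
    (by norm_num) (by norm_num) (by norm_num) (by norm_num) (by norm_num)
    (by norm_num) (by norm_num) (by norm_num) (by norm_num) (by norm_num)
    (by norm_num) (by norm_num) (by norm_num) (by norm_num) (by norm_num)
    (by norm_num) (by norm_num) (by norm_num) (by norm_num) (by norm_num)
  unfold lpoly
  linarith

private theorem lp2_1_b3 (β g : ℝ) (h1 : (3 / 16) ≤ β) (h2 : β ≤ (1 / 4))
    (h3 : (91 / 50) ≤ g) (h4 : g ≤ (61 / 25)) : lpoly β g (593 / 5000) ≤ 2487 / 10000 := by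
  have h := lz2_bern (β - (3 / 16)) ((1 / 4) - β) (g - (91 / 50)) ((61 / 25) - g)
    (363642011257 / 92352100) (295036642516 / 23088025) (341214667323 / 23088025) (165508448476 / 23088025) (5762529632 / 4617605)
    (180333119001 / 23088025) (525837074448 / 23088025) (515226988044 / 23088025) (192463349232 / 23088025) (24311225856 / 23088025)
    (109109421036 / 23088025) (264303107712 / 23088025) (179617365936 / 23088025) (27013920192 / 23088025) (936957312 / 4617605)
    (3842708336 / 4617605) (32268645376 / 23088025) (5345646528 / 23088025) (303533824 / 4617605) (10158035456 / 23088025)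
    (by linarith) (by linarith) (by linarith) (by linarith)
    (by norm_num) (by norm_num) (by norm_num) (by norm_num) (by norm_num)
    (by norm_num) (by norm_num) (by norm_num) (by norm_num) (by norm_num)
    (by norm_num) (by norm_num) (by norm_num) (by norm_num) (by norm_num)
    (by norm_num) (by norm_num) (by norm_num) (by norm_num) (by norm_num)
  unfold lpoly
  linarith

theorem lp2_1 (β g : ℝ) (h1 : 0 ≤ β) (h2 : β ≤ 1 / 4) (h3 : 6 / 5 ≤ g) (h4 : g ≤ 61 / 25) :
    lpoly β g (593 / 5000) ≤ 2487 / 10000 := by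
  rcases le_total β (1 / 8) with k0 | k0
  · exact lp2_1_b0 β g h1 k0 h3 h4
  · rcases le_total g (91 / 50) with k1 | k1
    · exact lp2_1_b1 β g k0 h2 h3 k1
    · rcases le_total β (3 / 16) with k2 | k2
      · exact lp2_1_b2 β g k0 k2 k1 h4
      · exact lp2_1_b3 β g k2 h2 k1 h4

private theorem lp2_2_b0 (β g : ℝ) (h1 : 0 ≤ β) (h2 : β ≤ (1 / 8))
    (h3 : (6 / 5) ≤ g) (h4 : g ≤ (61 / 25)) : lpoly β g (2089 / 10000) ≤ 1751 / 5000 := by
  have h := lz2_bern (β - 0) ((1 / 8) - β) (g - (6 / 5)) ((61 / 25) - g)
    (144700000 / 923521) (578800000 / 923521) (868200000 / 923521) (578800000 / 923521) (144700000 / 923521)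
    (327159102 / 923521) (6357779844 / 4617605) (45813876687 / 23088025) (28976965914 / 23088025) (6773010897 / 23088025)
    (244638204 / 923521) (4580549688 / 4617605) (31205960874 / 23088025) (18167496828 / 23088025) (3748329294 / 23088025)
    (120943029 / 1847042) (1080114069 / 4617605) (27398703423 / 92352100) (7199810953 / 46176050) (653557559 / 23088025)
    (by linarith) (by linarith) (by linarith) (by linarith)
    (by norm_num) (by norm_num) (by norm_num) (by norm_num) (by norm_num)
    (by norm_num) (by norm_num) (by norm_num) (by norm_num) (by norm_num)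
    (by norm_num) (by norm_num) (by norm_num) (by norm_num) (by norm_num)
    (by norm_num) (by norm_num) (by norm_num) (by norm_num) (by norm_num)
  unfold lpoly
  linarith

private theorem lp2_2_b1 (β g : ℝ) (h1 : (1 / 8) ≤ β) (h2 : β ≤ (3 / 16))
    (h3 : (6 / 5) ≤ g) (h4 : g ≤ (61 / 25)) : lpoly β g (2089 / 10000) ≤ 1751 / 5000 := by
  have h := lz2_bern (β - (1 / 8)) ((3 / 16) - β) (g - (6 / 5)) ((61 / 25) - g)
    (483772116 / 923521) (8640912552 / 4617605) (54797406846 / 23088025) (28799243812 / 23088025) (5228460472 / 23088025)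
    (1198421706 / 923521) (20561907732 / 4617605) (121764487311 / 23088025) (56926609842 / 23088025) (8534754948 / 23088025)
    (984121539 / 923521) (16075123158 / 4617605) (174077438193 / 46176050) (34338865623 / 23088025) (3858178452 / 23088025)
    (535528723 / 1847042) (4117472203 / 4617605) (79296921201 / 92352100) (12301748311 / 46176050) (612623138 / 23088025)
    (by linarith) (by linarith) (by linarith) (by linarith)
    (by norm_num) (by norm_num) (by norm_num) (by norm_num) (by norm_num)
    (by norm_num) (by norm_num) (by norm_num) (by norm_num) (by norm_num)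
    (by norm_num) (by norm_num) (by norm_num) (by norm_num) (by norm_num)
    (by norm_num) (by norm_num) (by norm_num) (by norm_num) (by norm_num)
  unfold lpoly
  linarith

private theorem lp2_2_b2 (β g : ℝ) (h1 : (3 / 16) ≤ β) (h2 : β ≤ (1 / 4))
    (h3 : (6 / 5) ≤ g) (h4 : g ≤ (91 / 50)) : lpoly β g (2089 / 10000) ≤ 1751 / 5000 := by
  have h := lz2_bern (β - (3 / 16)) ((1 / 4) - β) (g - (6 / 5)) ((91 / 50) - g)
    (4284229784 / 923521) (75782075464 / 4617605) (487003870281 / 23088025) (268675707902 / 23088025) (43095358117 / 18470420)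
    (9959434080 / 923521) (33726404256 / 923521) (203777606484 / 4617605) (103228727448 / 4617605) (93000768441 / 23088025)
    (7601726208 / 923521) (121385914368 / 4617605) (671331123072 / 23088025) (297918796224 / 23088025) (9113727084 / 4617605)
    (1899200512 / 923521) (27969508352 / 4617605) (135233428608 / 23088025) (47898791936 / 23088025) (5963801456 / 23088025)
    (by linarith) (by linarith) (by linarith) (by linarith)
    (by norm_num) (by norm_num) (by norm_num) (by norm_num) (by norm_num)
    (by norm_num) (by norm_num) (by norm_num) (by norm_num) (by norm_num)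
    (by norm_num) (by norm_num) (by norm_num) (by norm_num) (by norm_num)
    (by norm_num) (by norm_num) (by norm_num) (by norm_num) (by norm_num)
  unfold lpoly
  linarith

private theorem lp2_2_b3 (β g : ℝ) (h1 : (3 / 16) ≤ β) (h2 : β ≤ (1 / 4))
    (h3 : (91 / 50) ≤ g) (h4 : g ≤ (213 / 100)) : lpoly β g (2089 / 10000) ≤ 1751 / 5000 := by
  have h := lz2_bern (β - (3 / 16)) ((1 / 4) - β) (g - (91 / 50)) ((213 / 100) - g)
    (172381432468 / 4617605) (3022037310824 / 23088025) (3911436688242 / 23088025) (2213484153614 / 23088025) (370056272929 / 18470420)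
    (1488012295056 / 23088025) (4798924672416 / 23088025) (5582547172296 / 23088025) (2756745748536 / 23088025) (486681862821 / 23088025)
    (145819633344 / 4617605) (1991238630528 / 23088025) (1803073078944 / 23088025) (597324587808 / 23088025) (2339460732 / 923521)
    (95420823296 / 23088025) (189334604288 / 23088025) (104758319232 / 23088025) (44752409728 / 23088025) (34838780656 / 23088025)
    (by linarith) (by linarith) (by linarith) (by linarith)
    (by norm_num) (by norm_num) (by norm_num) (by norm_num) (by norm_num)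
    (by norm_num) (by norm_num) (by norm_num) (by norm_num) (by norm_num)
    (by norm_num) (by norm_num) (by norm_num) (by norm_num) (by norm_num)
    (by norm_num) (by norm_num) (by norm_num) (by norm_num) (by norm_num)
  unfold lpoly
  linarith

private theorem lp2_2_b4 (β g : ℝ) (h1 : (3 / 16) ≤ β) (h2 : β ≤ (7 / 32))
    (h3 : (213 / 100) ≤ g) (h4 : g ≤ (61 / 25)) : lpoly β g (2089 / 10000) ≤ 1751 / 5000 := by
  have h := lz2_bern (β - (3 / 16)) ((7 / 32) - β) (g - (213 / 100)) ((61 / 25) - g)
    (740112545858 / 4617605) (11896628605408 / 23088025) (13857759635424 / 23088025) (6913204127488 / 23088025) (1254652186624 / 23088025)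
    (7497571545219 / 23088025) (4478355904848 / 4617605) (23676389008272 / 23088025) (10466344769664 / 23088025) (339032020992 / 4617605)
    (9678245069703 / 46176050) (13210443187368 / 23088025) (12528673264296 / 23088025) (5130896108352 / 23088025) (986372588544 / 23088025)
    (4170310011753 / 92352100) (545662624764 / 4617605) (2749833931116 / 23088025) (1620523114592 / 23088025) (112282779136 / 4617605)
    (by linarith) (by linarith) (by linarith) (by linarith)
    (by norm_num) (by norm_num) (by norm_num) (by norm_num) (by norm_num)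
    (by norm_num) (by norm_num) (by norm_num) (by norm_num) (by norm_num)
    (by norm_num) (by norm_num) (by norm_num) (by norm_num) (by norm_num)
    (by norm_num) (by norm_num) (by norm_num) (by norm_num) (by norm_num)
  unfold lpoly
  linarith

private theorem lp2_2_b5 (β g : ℝ) (h1 : (7 / 32) ≤ β) (h2 : β ≤ (1 / 4))
    (h3 : (213 / 100) ≤ g) (h4 : g ≤ (61 / 25)) : lpoly β g (2089 / 10000) ≤ 1751 / 5000 := by
  have h := lz2_bern (β - (7 / 32)) ((1 / 4) - β) (g - (213 / 100)) ((61 / 25) - g)
    (4170310011753 / 92352100) (545662624764 / 4617605) (2749833931116 / 23088025) (1620523114592 / 23088025) (112282779136 / 4617605)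
    (1416342482778 / 23088025) (3159435555552 / 23088025) (158813212896 / 923521) (183689703168 / 923521) (2382110785536 / 23088025)
    (652011441072 / 23088025) (2289764260608 / 23088025) (1311940624896 / 4617605) (1877807542272 / 4617605) (4486636498944 / 23088025)
    (278710245248 / 23088025) (374332536832 / 4617605) (5378996772864 / 23088025) (6460085895168 / 23088025) (536297766912 / 4617605)
    (by linarith) (by linarith) (by linarith) (by linarith)
    (by norm_num) (by norm_num) (by norm_num) (by norm_num) (by norm_num)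
    (by norm_num) (by norm_num) (by norm_num) (by norm_num) (by norm_num)
    (by norm_num) (by norm_num) (by norm_num) (by norm_num) (by norm_num)
    (by norm_num) (by norm_num) (by norm_num) (by norm_num) (by norm_num)
  unfold lpoly
  linarith

theorem lp2_2 (β g : ℝ) (h1 : 0 ≤ β) (h2 : β ≤ 1 / 4) (h3 : 6 / 5 ≤ g) (h4 : g ≤ 61 / 25) :
    lpoly β g (2089 / 10000) ≤ 1751 / 5000 := by
  rcases le_total β (1 / 8) with k0 | k0
  · exact lp2_2_b0 β g h1 k0 h3 h4
  · rcases le_total β (3 / 16) with k1 | k1
    · exact lp2_2_b1 β g k0 k1 h3 h4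
    · rcases le_total g (91 / 50) with k2 | k2
      · exact lp2_2_b2 β g k1 h2 h3 k2
      · rcases le_total g (213 / 100) with k3 | k3
        · exact lp2_2_b3 β g k1 h2 k2 k3
        · rcases le_total β (7 / 32) with k4 | k4
          · exact lp2_2_b4 β g k1 k4 k3 h4
          · exact lp2_2_b5 β g k4 h2 k3 h4

private theorem lp2_3_b0 (β g : ℝ) (h1 : 0 ≤ β) (h2 : β ≤ (1 / 8))
    (h3 : (6 / 5) ≤ g) (h4 : g ≤ (61 / 25)) : lpoly β g (613 / 2500) ≤ 4003 / 10000 := by
  have h := lz2_bern (β - 0) ((1 / 8) - β) (g - (6 / 5)) ((61 / 25) - g)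
    (132940000 / 923521) (531760000 / 923521) (797640000 / 923521) (531760000 / 923521) (132940000 / 923521)
    (296786136 / 923521) (5758827792 / 4617605) (41407517916 / 23088025) (26111232552 / 23088025) (6078200196 / 23088025)
    (219172272 / 923521) (4088245584 / 4617605) (27685243332 / 23088025) (15964030104 / 23088025) (3240707892 / 23088025)
    (107237097 / 1847042) (951562017 / 4617605) (23885268339 / 92352100) (6172344229 / 46176050) (546746858 / 23088025)
    (by linarith) (by linarith) (by linarith) (by linarith)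
    (by norm_num) (by norm_num) (by norm_num) (by norm_num) (by norm_num)
    (by norm_num) (by norm_num) (by norm_num) (by norm_num) (by norm_num)
    (by norm_num) (by norm_num) (by norm_num) (by norm_num) (by norm_num)
    (by norm_num) (by norm_num) (by norm_num) (by norm_num) (by norm_num)
  unfold lpoly
  linarith

private theorem lp2_3_b1 (β g : ℝ) (h1 : (1 / 8) ≤ β) (h2 : β ≤ (3 / 16))
    (h3 : (6 / 5) ≤ g) (h4 : g ≤ (61 / 25)) : lpoly β g (613 / 2500) ≤ 4003 / 10000 := by
  have h := lz2_bern (β - (1 / 8)) ((3 / 16) - β) (g - (6 / 5)) ((61 / 25) - g)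
    (428948388 / 923521) (7612496136 / 4617605) (47770536678 / 23088025) (24689376916 / 23088025) (4373974864 / 23088025)
    (1053578658 / 923521) (17903250276 / 4617605) (104226441723 / 23088025) (47246075706 / 23088025) (1344011064 / 4617605)
    (858906627 / 923521) (13843057494 / 4617605) (146086476849 / 46176050) (27307398039 / 23088025) (558447204 / 4617605)
    (465137539 / 1847042) (3515647579 / 4617605) (65359700193 / 92352100) (9380147623 / 46176050) (506894726 / 23088025)
    (by linarith) (by linarith) (by linarith) (by linarith)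
    (by norm_num) (by norm_num) (by norm_num) (by norm_num) (by norm_num)
    (by norm_num) (by norm_num) (by norm_num) (by norm_num) (by norm_num)
    (by norm_num) (by norm_num) (by norm_num) (by norm_num) (by norm_num)
    (by norm_num) (by norm_num) (by norm_num) (by norm_num) (by norm_num)
  unfold lpoly
  linarith

private theorem lp2_3_b2 (β g : ℝ) (h1 : (3 / 16) ≤ β) (h2 : β ≤ (1 / 4))
    (h3 : (6 / 5) ≤ g) (h4 : g ≤ (91 / 50)) : lpoly β g (613 / 2500) ≤ 4003 / 10000 := by
  have h := lz2_bern (β - (3 / 16)) ((1 / 4) - β) (g - (6 / 5)) ((91 / 50) - g)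
    (3721100312 / 923521) (65336183752 / 4617605) (415839816633 / 23088025) (226723029086 / 23088025) (179717402873 / 92352100)
    (8584095840 / 923521) (28769516448 / 923521) (171387704052 / 4617605) (85295474904 / 4617605) (75745278681 / 23088025)
    (6540438144 / 923521) (103154711424 / 4617605) (560924259696 / 23088025) (244444307232 / 23088025) (37877196684 / 23088025)
    (1650121216 / 923521) (24076852736 / 4617605) (115612023744 / 23088025) (42137886848 / 23088025) (6588005552 / 23088025)
    (by linarith) (by linarith) (by linarith) (by linarith)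
    (by norm_num) (by norm_num) (by norm_num) (by norm_num) (by norm_num)
    (by norm_num) (by norm_num) (by norm_num) (by norm_num) (by norm_num)
    (by norm_num) (by norm_num) (by norm_num) (by norm_num) (by norm_num)
    (by norm_num) (by norm_num) (by norm_num) (by norm_num) (by norm_num)
  unfold lpoly
  linarith

private theorem lp2_3_b3 (β g : ℝ) (h1 : (3 / 16) ≤ β) (h2 : β ≤ (1 / 4))
    (h3 : (91 / 50) ≤ g) (h4 : g ≤ (61 / 25)) : lpoly β g (613 / 2500) ≤ 4003 / 10000 := by
  have h := lz2_bern (β - (3 / 16)) ((1 / 4) - β) (g - (91 / 50)) ((61 / 25) - g)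
    (179717402873 / 92352100) (26542355332 / 4617605) (26761211871 / 4617605) (53741221724 / 23088025) (8110315616 / 23088025)
    (75745278681 / 23088025) (179484854928 / 23088025) (115960961484 / 23088025) (14636593392 / 23088025) (3986117376 / 23088025)
    (37877196684 / 23088025) (11714653248 / 4617605) (662227344 / 4617605) (6662088768 / 23088025) (26141567232 / 23088025)
    (6588005552 / 23088025) (10566157568 / 23088025) (20896835904 / 23088025) (47225366784 / 23088025) (31237592064 / 23088025)
    (by linarith) (by linarith) (by linarith) (by linarith)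
    (by norm_num) (by norm_num) (by norm_num) (by norm_num) (by norm_num)
    (by norm_num) (by norm_num) (by norm_num) (by norm_num) (by norm_num)
    (by norm_num) (by norm_num) (by norm_num) (by norm_num) (by norm_num)
    (by norm_num) (by norm_num) (by norm_num) (by norm_num) (by norm_num)
  unfold lpoly
  linarith

theorem lp2_3 (β g : ℝ) (h1 : 0 ≤ β) (h2 : β ≤ 1 / 4) (h3 : 6 / 5 ≤ g) (h4 : g ≤ 61 / 25) :
    lpoly β g (613 / 2500) ≤ 4003 / 10000 := by
  rcases le_total β (1 / 8) with k0 | k0
  · exact lp2_3_b0 β g h1 k0 h3 h4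
  · rcases le_total β (3 / 16) with k1 | k1
    · exact lp2_3_b1 β g k0 k1 h3 h4
    · rcases le_total g (91 / 50) with k2 | k2
      · exact lp2_3_b2 β g k1 h2 h3 k2
      · exact lp2_3_b3 β g k1 h2 k2 h4

private theorem lp2_4_b0 (β g : ℝ) (h1 : 0 ≤ β) (h2 : β ≤ (1 / 8))
    (h3 : (6 / 5) ≤ g) (h4 : g ≤ (61 / 25)) : lpoly β g (161 / 500) ≤ 1309 / 2500 := by
  have h := lz2_bern (β - 0) ((1 / 8) - β) (g - (6 / 5)) ((61 / 25) - g)
    (111520000 / 923521) (446080000 / 923521) (669120000 / 923521) (446080000 / 923521) (111520000 / 923521)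
    (242907960 / 923521) (939852624 / 923521) (6728454252 / 4617605) (4217278344 / 4617605) (973547412 / 4617605)
    (175675920 / 923521) (650863248 / 923521) (4358750004 / 4617605) (2468069688 / 4617605) (485256324 / 4617605)
    (85160745 / 1847042) (149759469 / 923521) (3705656343 / 18470420) (938132513 / 9235210) (407283722 / 23088025)
    (by linarith) (by linarith) (by linarith) (by linarith)
    (by norm_num) (by norm_num) (by norm_num) (by norm_num) (by norm_num)
    (by norm_num) (by norm_num) (by norm_num) (by norm_num) (by norm_num)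
    (by norm_num) (by norm_num) (by norm_num) (by norm_num) (by norm_num)
    (by norm_num) (by norm_num) (by norm_num) (by norm_num) (by norm_num)
  unfold lpoly
  linarith

private theorem lp2_4_b1 (β g : ℝ) (h1 : (1 / 8) ≤ β) (h2 : β ≤ (3 / 16))
    (h3 : (6 / 5) ≤ g) (h4 : g ≤ (61 / 25)) : lpoly β g (161 / 500) ≤ 1309 / 2500 := by
  have h := lz2_bern (β - (1 / 8)) ((3 / 16) - β) (g - (6 / 5)) ((61 / 25) - g)
    (340642980 / 923521) (1198075752 / 923521) (7411312686 / 4617605) (3752530052 / 4617605) (3258269776 / 23088025)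
    (830189730 / 923521) (2787887892 / 923521) (15915907071 / 4617605) (7014106482 / 4617605) (4957087512 / 23088025)
    (677044995 / 923521) (2156357598 / 923521) (22356538173 / 9235210) (4147298283 / 4617605) (2613415668 / 23088025)
    (371581315 / 1847042) (559214303 / 923521) (10496772141 / 18470420) (1747193531 / 9235210) (975337094 / 23088025)
    (by linarith) (by linarith) (by linarith) (by linarith)
    (by norm_num) (by norm_num) (by norm_num) (by norm_num) (by norm_num)
    (by norm_num) (by norm_num) (by norm_num) (by norm_num) (by norm_num)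
    (by norm_num) (by norm_num) (by norm_num) (by norm_num) (by norm_num)
    (by norm_num) (by norm_num) (by norm_num) (by norm_num) (by norm_num)
  unfold lpoly
  linarith

private theorem lp2_4_b2 (β g : ℝ) (h1 : (3 / 16) ≤ β) (h2 : β ≤ (1 / 4))
    (h3 : (6 / 5) ≤ g) (h4 : g ≤ (61 / 25)) : lpoly β g (161 / 500) ≤ 1309 / 2500 := by
  have h := lz2_bern (β - (3 / 16)) ((1 / 4) - β) (g - (6 / 5)) ((61 / 25) - g)
    (371581315 / 1847042) (559214303 / 923521) (10496772141 / 18470420) (1747193531 / 9235210) (975337094 / 23088025)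
    (437698950 / 923521) (1198928220 / 923521) (913377825 / 923521) (218856462 / 923521) (3238606896 / 23088025)
    (351497640 / 923521) (873029136 / 923521) (2693147148 / 4617605) (908074536 / 4617605) (6207469968 / 23088025)
    (97881760 / 923521) (225984064 / 923521) (700969392 / 4617605) (675263904 / 4617605) (4004939328 / 23088025)
    (by linarith) (by linarith) (by linarith) (by linarith)
    (by norm_num) (by norm_num) (by norm_num) (by norm_num) (by norm_num)
    (by norm_num) (by norm_num) (by norm_num) (by norm_num) (by norm_num)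
    (by norm_num) (by norm_num) (by norm_num) (by norm_num) (by norm_num)
    (by norm_num) (by norm_num) (by norm_num) (by norm_num) (by norm_num)
  unfold lpoly
  linarith

theorem lp2_4 (β g : ℝ) (h1 : 0 ≤ β) (h2 : β ≤ 1 / 4) (h3 : 6 / 5 ≤ g) (h4 : g ≤ 61 / 25) :
    lpoly β g (161 / 500) ≤ 1309 / 2500 := by
  rcases le_total β (1 / 8) with k0 | k0
  · exact lp2_4_b0 β g h1 k0 h3 h4
  · rcases le_total β (3 / 16) with k1 | k1
    · exact lp2_4_b1 β g k0 k1 h3 h4
    · exact lp2_4_b2 β g k1 h2 h3 h4

private theorem lp2_5_b0 (β g : ℝ) (h1 : 0 ≤ β) (h2 : β ≤ (1 / 8))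
    (h3 : (6 / 5) ≤ g) (h4 : g ≤ (61 / 25)) : lpoly β g (9 / 25) ≤ 74 / 125 := by
  have h := lz2_bern (β - 0) ((1 / 8) - β) (g - (6 / 5)) ((61 / 25) - g)
    (102400000 / 923521) (409600000 / 923521) (614400000 / 923521) (409600000 / 923521) (102400000 / 923521)
    (220684800 / 923521) (852741120 / 923521) (1218615552 / 923521) (761746944 / 923521) (175187712 / 923521)
    (158589600 / 923521) (586080240 / 923521) (781759404 / 923521) (439636488 / 923521) (85367724 / 923521)
    (77194425 / 1847042) (135607965 / 923521) (670590075 / 3694084) (170129053 / 1847042) (375239462 / 23088025)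
    (by linarith) (by linarith) (by linarith) (by linarith)
    (by norm_num) (by norm_num) (by norm_num) (by norm_num) (by norm_num)
    (by norm_num) (by norm_num) (by norm_num) (by norm_num) (by norm_num)
    (by norm_num) (by norm_num) (by norm_num) (by norm_num) (by norm_num)
    (by norm_num) (by norm_num) (by norm_num) (by norm_num) (by norm_num)
  unfold lpoly
  linarith

private theorem lp2_5_b1 (β g : ℝ) (h1 : (1 / 8) ≤ β) (h2 : β ≤ (1 / 4))
    (h3 : (6 / 5) ≤ g) (h4 : g ≤ (61 / 25)) : lpoly β g (9 / 25) ≤ 74 / 125 := by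
  have h := lz2_bern (β - (1 / 8)) ((1 / 4) - β) (g - (6 / 5)) ((61 / 25) - g)
    (77194425 / 1847042) (135607965 / 923521) (670590075 / 3694084) (170129053 / 1847042) (375239462 / 23088025)
    (72993675 / 923521) (227567550 / 923521) (448251417 / 1847042) (70750671 / 923521) (117243672 / 23088025)
    (49492950 / 923521) (135715740 / 923521) (103348161 / 923521) (23975310 / 923521) (345793944 / 23088025)
    (431900 / 29791) (1175000 / 29791) (1192698 / 29791) (1156908 / 29791) (21436416 / 744775)
    (by linarith) (by linarith) (by linarith) (by linarith)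
    (by norm_num) (by norm_num) (by norm_num) (by norm_num) (by norm_num)
    (by norm_num) (by norm_num) (by norm_num) (by norm_num) (by norm_num)
    (by norm_num) (by norm_num) (by norm_num) (by norm_num) (by norm_num)
    (by norm_num) (by norm_num) (by norm_num) (by norm_num) (by norm_num)
  unfold lpoly
  linarith

theorem lp2_5 (β g : ℝ) (h1 : 0 ≤ β) (h2 : β ≤ 1 / 4) (h3 : 6 / 5 ≤ g) (h4 : g ≤ 61 / 25) :
    lpoly β g (9 / 25) ≤ 74 / 125 := by
  rcases le_total β (1 / 8) with k0 | k0
  · exact lp2_5_b0 β g h1 k0 h3 h4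
  · exact lp2_5_b1 β g k0 h2 h3 h4

end Pool.H3F
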