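import Pool.Agent.H3F.LZ2

/-! LZ3: polynomial inequalities at the vertices of the polygon, smaller `s`. -/

namespace Pool.H3F

/-- Linear interpolation in `g ^ 2`: it suffices to look at `g = 0` and `g = 6 / 5`. -/
theorem lz3_gen (A c β g : ℝ) (h1 : 0 ≤ β) (h3 : 0 ≤ g) (h4 : g ≤ 6 / 5)
    (e0 : 2 * (1 - β) ^ 3 + (3 - 9 / 2 * β) * (A - (1 - β) ^ 2) + 3 / 10 * β ^ 3 ≤ c)
    (e1 : 2 * (1 - β) ^ 3 - 3 * (1 - β) * β ^ 2 * (36 / 25) + 3 * β ^ 3 * (36 / 25) +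
      8 / 125 * (6 / 5) * β ^ 3 * (36 / 25) +
      (3 - 9 / 2 * β) * (A - (1 - β) ^ 2 + β ^ 2 * (36 / 25)) -
      63 / 100 * β * (36 / 25) * (A - (1 - β) ^ 2) + 3 / 10 * β ^ 3 ≤ c) :
    lpoly β g A + (3 / 10) * β ^ 3 ≤ c := by
  unfold lpoly
  have k1 : 0 ≤ 25 / 36 * g ^ 2 := by positivity
  have k2 : 0 ≤ 1 - 25 / 36 * g ^ 2 := by nlinarith
  have k3 := mul_nonneg k2 (sub_nonneg.2 e0)
  have k4 := mul_nonneg k1 (sub_nonneg.2 e1)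
  have k5 : 0 ≤ β ^ 3 * g ^ 4 := by positivity
  have k6 : 0 ≤ β ^ 3 * g ^ 2 * (6 / 5 - g) := by
    apply mul_nonneg (by positivity) (by linarith)
  nlinarith [k3, k4, k5, k6]

theorem lp1_0 (β g : ℝ) (h1 : 0 ≤ β) (h2 : β ≤ 1 / 4) (h3 : 0 ≤ g) (h4 : g ≤ 6 / 5) :
    lpoly β g (1 / 30) + (3 / 10) * β ^ 3 ≤ 49 / 250 := by
  apply lz3_gen _ _ _ _ h1 h3 h4
  · nlinarith [mul_nonneg h1 (sub_nonneg.2 h2), mul_nonneg (mul_nonneg h1 h1) (sub_nonneg.2 h2)]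
  · nlinarith [mul_nonneg h1 (sub_nonneg.2 h2), mul_nonneg (mul_nonneg h1 h1) (sub_nonneg.2 h2)]

theorem lp1_1 (β g : ℝ) (h1 : 0 ≤ β) (h2 : β ≤ 1 / 4) (h3 : 0 ≤ g) (h4 : g ≤ 6 / 5) :
    lpoly β g (593 / 5000) + (3 / 10) * β ^ 3 ≤ 2487 / 10000 := by
  apply lz3_gen _ _ _ _ h1 h3 h4
  · nlinarith [mul_nonneg h1 (sub_nonneg.2 h2), mul_nonneg (mul_nonneg h1 h1) (sub_nonneg.2 h2)]
  · nlinarith [mul_nonneg h1 (sub_nonneg.2 h2), mul_nonneg (mul_nonneg h1 h1) (sub_nonneg.2 h2)]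

theorem lp1_2 (β g : ℝ) (h1 : 0 ≤ β) (h2 : β ≤ 1 / 4) (h3 : 0 ≤ g) (h4 : g ≤ 6 / 5) :
    lpoly β g (2089 / 10000) + (3 / 10) * β ^ 3 ≤ 1751 / 5000 := by
  apply lz3_gen _ _ _ _ h1 h3 h4
  · nlinarith [mul_nonneg h1 (sub_nonneg.2 h2), mul_nonneg (mul_nonneg h1 h1) (sub_nonneg.2 h2)]
  · nlinarith [mul_nonneg h1 (sub_nonneg.2 h2), mul_nonneg (mul_nonneg h1 h1) (sub_nonneg.2 h2)]

theorem lp1_3 (β g : ℝ) (h1 : 0 ≤ β) (h2 : β ≤ 1 / 4) (h3 : 0 ≤ g) (h4 : g ≤ 6 / 5) :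
    lpoly β g (613 / 2500) + (3 / 10) * β ^ 3 ≤ 4003 / 10000 := by
  apply lz3_gen _ _ _ _ h1 h3 h4
  · nlinarith [mul_nonneg h1 (sub_nonneg.2 h2), mul_nonneg (mul_nonneg h1 h1) (sub_nonneg.2 h2)]
  · nlinarith [mul_nonneg h1 (sub_nonneg.2 h2), mul_nonneg (mul_nonneg h1 h1) (sub_nonneg.2 h2)]

theorem lp1_4 (β g : ℝ) (h1 : 0 ≤ β) (h2 : β ≤ 1 / 4) (h3 : 0 ≤ g) (h4 : g ≤ 6 / 5) :
    lpoly β g (161 / 500) + (3 / 10) * β ^ 3 ≤ 1309 / 2500 := by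
  apply lz3_gen _ _ _ _ h1 h3 h4
  · nlinarith [mul_nonneg h1 (sub_nonneg.2 h2), mul_nonneg (mul_nonneg h1 h1) (sub_nonneg.2 h2)]
  · nlinarith [mul_nonneg h1 (sub_nonneg.2 h2), mul_nonneg (mul_nonneg h1 h1) (sub_nonneg.2 h2)]

theorem lp1_5 (β g : ℝ) (h1 : 0 ≤ β) (h2 : β ≤ 1 / 4) (h3 : 0 ≤ g) (h4 : g ≤ 6 / 5) :
    lpoly β g (9 / 25) + (3 / 10) * β ^ 3 ≤ 74 / 125 := by
  apply lz3_gen _ _ _ _ h1 h3 h4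
  · nlinarith [mul_nonneg h1 (sub_nonneg.2 h2), mul_nonneg (mul_nonneg h1 h1) (sub_nonneg.2 h2)]
  · nlinarith [mul_nonneg h1 (sub_nonneg.2 h2), mul_nonneg (mul_nonneg h1 h1) (sub_nonneg.2 h2)]

end Pool.H3F
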