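import Pool.Agent.H3F.LZ1
import Pool.Agent.H3F.LZ3
import Pool.Agent.H3F.ES2

/-! LZ4: the zone of small `s`. -/

namespace Pool.H3F

theorem zone_L (α β s a b : ℝ) (h : α + β = 1) (hβ : 0 < β) (hβ1 : β ≤ 1 / 4) (hs0 : 0 ≤ s)
    (hs : s ≤ (61 / 25) * β) (hG : GI α β s a b) (h1 : 1 - √2 ≤ a) (h2 : a ≤ 9 / 25) :
    Below a b := by
  obtain ⟨g, hg⟩ : ∃ g, g = s / β := ⟨_, rfl⟩
  have hsg : s = β * g := by rw [hg]; field_simp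
  have hg0 : 0 ≤ g := hg ▸ div_nonneg hs0 hβ.le
  have hg1 : g ≤ 61 / 25 := by
    rw [hg, div_le_iff₀ hβ]
    exact hs
  obtain ⟨lam, hlam⟩ : ∃ lam, lam = 3 * α - (3 / 2) * β - (63 / 100) * (β * g ^ 2) := ⟨_, rfl⟩
  have hl : lam * β = 3 * α * β - (3 / 2) * β ^ 2 - (63 / 100) * s ^ 2 := by
    rw [hlam, hsg]
    ring
  have hlam0 : 0 ≤ lam := by
    rw [hlam]
    have : β * g ^ 2 ≤ (1 / 4) * (61 / 25) ^ 2 := by
      gcongr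
    linarith
  have hα : α = 1 - β := by linarith
  rcases le_total (6 / 5) g with h3 | h3
  · have hK := hG lam ((8 / 125) * s ^ 3) (fun w hw hw1 => lk2 α β s w lam h hβ hβ1
      (by rw [hsg]; nlinarith) hs hw hw1 hl)
    have e0 := lp2_0 β g hβ.le hβ1 h3 hg1
    have e1 := lp2_1 β g hβ.le hβ1 h3 hg1
    have e2 := lp2_2 β g hβ.le hβ1 h3 hg1
    have e3 := lp2_3 β g hβ.le hβ1 h3 hg1
    have e4 := lp2_4 β g hβ.le hβ1 h3 hg1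
    have e5 := lp2_5 β g hβ.le hβ1 h3 hg1
    obtain ⟨c, hc⟩ : ∃ c, c = 2 * α ^ 3 - 3 * α * s ^ 2 + 3 * β * s ^ 2 +
      (8 / 125) * s ^ 3 - lam * (α ^ 2 - s ^ 2) := ⟨_, rfl⟩
    have hv : ∀ A, lpoly β g A = c + lam * A := by
      intro A
      rw [hc, hlam, hα, hsg]
      unfold lpoly
      ring
    rw [hv] at e0 e1 e2 e3 e4 e5
    obtain ⟨d, hd, hd1⟩ := es_poly a c lam h1 h2 hlam0 e0 e1 e2 e3 e4 e5
    refine ⟨d, hd, le_trans ?_ hd1⟩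
    rw [hc]
    linarith
  · have hK := hG lam ((8 / 125) * s ^ 3 + (3 / 10) * β ^ 3) (fun w hw hw1 =>
      lk1 α β s w lam h hβ hβ1 hs0 (by rw [hsg]; nlinarith) hw hw1 hl)
    have e0 := lp1_0 β g hβ.le hβ1 hg0 h3
    have e1 := lp1_1 β g hβ.le hβ1 hg0 h3
    have e2 := lp1_2 β g hβ.le hβ1 hg0 h3
    have e3 := lp1_3 β g hβ.le hβ1 hg0 h3
    have e4 := lp1_4 β g hβ.le hβ1 hg0 h3
    have e5 := lp1_5 β g hβ.le hβ1 hg0 h3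
    obtain ⟨c, hc⟩ : ∃ c, c = 2 * α ^ 3 - 3 * α * s ^ 2 + 3 * β * s ^ 2 +
      ((8 / 125) * s ^ 3 + (3 / 10) * β ^ 3) - lam * (α ^ 2 - s ^ 2) := ⟨_, rfl⟩
    have hv : ∀ A, lpoly β g A + (3 / 10) * β ^ 3 = c + lam * A := by
      intro A
      rw [hc, hlam, hα, hsg]
      unfold lpoly
      ring
    rw [hv] at e0 e1 e2 e3 e4 e5
    obtain ⟨d, hd, hd1⟩ := es_poly a c lam h1 h2 hlam0 e0 e1 e2 e3 e4 e5
    refine ⟨d, hd, le_trans ?_ hd1⟩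
    rw [hc]
    linarith

end Pool.H3F
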