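import Pool.Agent.H3F.GDefs

/-! MZ1: bound of `Ph` in the middle zone. -/

namespace Pool.H3F

theorem mk (α β x p s lam w : ℝ) (h : α + β = 1) (h1 : 7 / 20 ≤ β) (h2 : β ≤ 14 / 25)
    (hx0 : 0 ≤ x) (hx : x ≤ (3 / 8) * α) (hp : p = α - x) (hs0 : 0 ≤ s)
    (hs : s ^ 2 = x ^ 2 + 2 * p * x) (hlx : lam ≤ 3 * x)
    (c1 : 2 * p * (s - x) ≤ 3 * β ^ 2 + (5 / 4) * β * lam - (15 / 4) * β * x)
    (c2 : (117 / 128) * α ^ 2 + (27 / 32) * β ^ 2 ≤ β * (6 * α - 3 * β - (5 / 4) * lam))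
    (c3 : s ^ 3 - x ^ 3 - 3 * p * x ^ 2 ≤
      β * p * ((39 / 8) * α - (9 / 8) * x - 3 * β - (5 / 4) * lam))
    (hw : 0 ≤ w) (hwα : w ≤ α) :
    Ph α β s lam w ≤ β * (-(6 * α - 3 * β - 2 * lam) * x + (3 * x - lam) ^ 2 / 8) +
      x ^ 3 + 3 * p * x ^ 2 := by
  subst hp
  have hβ : 0 ≤ β := by linarith
  have hα : 0 < α := by linarith
  have hs' : s ^ 2 = 2 * α * x - x ^ 2 := by rw [hs]; ring
  -- the term with the maximum
  have hd : β * (-(6 * α - 3 * β - 2 * lam) * w + (max (3 * w - lam) 0) ^ 2 / 8) ≤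
      β * (-(6 * α - 3 * β - 2 * lam) * w + (3 * w - lam) ^ 2 / 8) := by
    refine mul_le_mul_of_nonneg_left ?_ hβ
    have : (max (3 * w - lam) 0) ^ 2 ≤ (3 * w - lam) ^ 2 := by
      rcases le_total (3 * w - lam) 0 with h0 | h0
      · rw [max_eq_right h0]
        have := sq_nonneg (3 * w - lam)
        linarith
      · rw [max_eq_left h0]
    linarith
  have hxs : x ≤ s := by
    have h3 : x ^ 2 ≤ s ^ 2 := by
      rw [hs']
      have := mul_nonneg hx0 (show (0 : ℝ) ≤ 2 * α - 2 * x by linarith)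
      linarith
    exact le_of_sq_le_sq h3 hs0
  have hsα2 : s ^ 2 ≤ (39 / 64) * α ^ 2 := by
    rw [hs']
    have := mul_nonneg (show (0 : ℝ) ≤ (3 / 8) * α - x by linarith)
      (show (0 : ℝ) ≤ (13 / 8) * α - x by linarith)
    linarith
  have hsα : s ≤ α := by
    have h3 : s ^ 2 ≤ α ^ 2 := by
      have := sq_nonneg α
      linarith
    exact le_of_sq_le_sq h3 hα.le
  have hs2β : s < 2 * β := by
    have h3 : s ^ 2 ≤ (13 / 20 : ℝ) ^ 2 := by
      have h4 : 0 ≤ (13 / 20 - α) * (13 / 20 + α) := mul_nonneg (by linarith) (by linarith)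
      have := sq_nonneg α
      linarith
    have h4 := le_of_sq_le_sq h3 (by norm_num)
    linarith
  -- the bracket
  have hbr : ∀ v, x ≤ v →
      0 ≤ β * (6 * α - 3 * β - (5 / 4) * lam) - (9 / 8) * β * (v + x) - (3 / 2) * s ^ 2 +
        (v ^ 2 + v * x + x ^ 2) / 2 := by
    intro v hv
    have h3 := sq_nonneg (v + x - (3 / 2) * β)
    have h4 := sq_nonneg (v - x)
    linarith
  have hpsi : ∀ v, x ≤ v →
      β * (-(6 * α - 3 * β - 2 * lam) * v + (3 * v - lam) ^ 2 / 8) + (3 / 2) * v * s ^ 2 -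
        v ^ 3 / 2 ≤ β * (-(6 * α - 3 * β - 2 * lam) * x + (3 * x - lam) ^ 2 / 8) +
      x ^ 3 + 3 * (α - x) * x ^ 2 := by
    intro v hv
    have h3 := mul_nonneg (sub_nonneg.mpr hv) (hbr v hv)
    have h4 : β * (-(6 * α - 3 * β - 2 * lam) * x + (3 * x - lam) ^ 2 / 8) +
      x ^ 3 + 3 * (α - x) * x ^ 2 -
      (β * (-(6 * α - 3 * β - 2 * lam) * v + (3 * v - lam) ^ 2 / 8) + (3 / 2) * v * s ^ 2 -
        v ^ 3 / 2) = (v - x) * (β * (6 * α - 3 * β - (5 / 4) * lam) - (9 / 8) * β * (v + x) -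
        (3 / 2) * s ^ 2 + (v ^ 2 + v * x + x ^ 2) / 2) := by
      linear_combination (-(3 / 2) * x) * hs'
    linarith
  unfold Ph
  refine (add_le_add_left hd _).trans ?_
  unfold FF
  split_ifs with hc1 hc2
  · -- `s ≤ w`
    have e1 := hpsi s hxs
    have e1' : β * (-(6 * α - 3 * β - 2 * lam) * s + (3 * s - lam) ^ 2 / 8) + s ^ 3 ≤
        β * (-(6 * α - 3 * β - 2 * lam) * x + (3 * x - lam) ^ 2 / 8) +
      x ^ 3 + 3 * (α - x) * x ^ 2 := by
      linarith
    have e2 : β * (-(6 * α - 3 * β - 2 * lam) * α + (3 * α - lam) ^ 2 / 8) + s ^ 3 ≤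
        β * (-(6 * α - 3 * β - 2 * lam) * x + (3 * x - lam) ^ 2 / 8) +
      x ^ 3 + 3 * (α - x) * x ^ 2 := by
      linarith
    rcases hsα.eq_or_lt with h3 | h3
    · have h4 : w = s := by linarith
      rw [h4]
      exact e1'
    · have f1 := mul_nonneg (sub_nonneg.mpr hwα) (sub_nonneg.mpr e1')
      have f2 := mul_nonneg (sub_nonneg.mpr hc1) (sub_nonneg.mpr e2)
      have f3 : 0 ≤ β * ((α - w) * (w - s) * (α - s)) :=
        mul_nonneg hβ (mul_nonneg (mul_nonneg (by linarith) (by linarith)) (by linarith))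
      have f4 : 0 < α - s := by linarith
      have f5 : 0 ≤ (α - s) * ((β * (-(6 * α - 3 * β - 2 * lam) * x + (3 * x - lam) ^ 2 / 8) +
          x ^ 3 + 3 * (α - x) * x ^ 2) -
          (β * (-(6 * α - 3 * β - 2 * lam) * w + (3 * w - lam) ^ 2 / 8) + s ^ 3)) := by
        linarith
      have f6 := nonneg_of_mul_nonneg_right f5 f4
      linarith
  · -- impossible
    exfalso
    push Not at hc1
    linarith
  · push Not at hc1 hc2
    rcases le_total x w with h3 | h3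
    · have h4 : s ^ 2 - 2 * w * α + w ^ 2 ≤ 0 := by
        rw [hs']
        have := mul_nonneg (sub_nonneg.mpr h3) (show (0 : ℝ) ≤ 2 * α - x - w by linarith)
        linarith
      rw [max_eq_left h4]
      have := hpsi w h3
      linarith
    · have h4 : 0 ≤ s ^ 2 - 2 * w * α + w ^ 2 := by
        rw [hs']
        have := mul_nonneg (sub_nonneg.mpr h3) (show (0 : ℝ) ≤ 2 * α - x - w by linarith)
        linarith
      rw [max_eq_right h4]
      have g1 : 0 ≤ (x - w) * (α + (15 / 8) * β - s) :=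
        mul_nonneg (sub_nonneg.mpr h3) (by linarith)
      have g2 : 0 ≤ (3 * β ^ 2 + (5 / 4) * β * lam - (15 / 4) * β * x - 2 * (α - x) * (s - x)) +
          (x - w) * (α + (15 / 8) * β - s) := by linarith
      have g3 := mul_nonneg (sub_nonneg.mpr h3) g2
      have g4 : β * (-(6 * α - 3 * β - 2 * lam) * x + (3 * x - lam) ^ 2 / 8) +
        x ^ 3 + 3 * (α - x) * x ^ 2 -
        (β * (-(6 * α - 3 * β - 2 * lam) * w + (3 * w - lam) ^ 2 / 8) +
        (3 / 2 * w * s ^ 2 - w ^ 3 / 2 - (3 * β - s - w / 2) * (s ^ 2 - 2 * w * α + w ^ 2))) =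
        (x - w) * ((3 * β ^ 2 + (5 / 4) * β * lam - (15 / 4) * β * x - 2 * (α - x) * (s - x)) +
          (x - w) * (α + (15 / 8) * β - s)) := by
        linear_combination (3 * β - s - 2 * w) * hs'
      linarith

end Pool.H3F
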