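import Mathlib

/-! MZ2: polynomial inequalities for the middle zone. -/

namespace Pool.H3F

/-- The conditions of the middle zone for the slope `lam` on a range of `β`. -/
def MCond (lam b0 b1 : ℝ) : Prop :=
  ∀ α β x p s : ℝ, α + β = 1 → b0 ≤ β → β ≤ b1 → 0 ≤ x → x ≤ (3 / 8) * α → p = α - x →
    2 * p * (p - x) ≤ β ^ 2 → 0 ≤ s → s ^ 2 = x ^ 2 + 2 * p * x →
    lam ≤ 3 * x ∧
    2 * p * (s - x) ≤ 3 * β ^ 2 + (5 / 4) * β * lam - (15 / 4) * β * x ∧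
    (117 / 128) * α ^ 2 + (27 / 32) * β ^ 2 ≤ β * (6 * α - 3 * β - (5 / 4) * lam) ∧
    s ^ 3 - x ^ 3 - 3 * p * x ^ 2 ≤
      β * p * ((39 / 8) * α - (9 / 8) * x - 3 * β - (5 / 4) * lam) ∧
    2 * p ^ 3 + 3 * x * β ^ 2 - 3 * x ^ 2 * β + lam * (1 / 30 - p ^ 2 + 2 * x * β) +
      β * (3 * x - lam) ^ 2 / 8 ≤ 49 / 250

theorem mz2_s (s q t : ℝ) (ht : 0 < t) (hs : s ^ 2 = q) :
    s ≤ (q + t ^ 2) / (2 * t) := by
  rw [le_div_iff₀ (by linarith)]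
  nlinarith [sq_nonneg (s - t)]

theorem mz2_s3 (s q t : ℝ) (ht : 0 < t) (hs : s ^ 2 = q) :
    s ^ 3 ≤ q * ((q + t ^ 2) / (2 * t)) := by
  have h1 := mz2_s s q t ht hs
  have h2 : 0 ≤ q := by rw [← hs]; positivity
  calc s ^ 3 = q * s := by rw [← hs]; ring
    _ ≤ q * ((q + t ^ 2) / (2 * t)) := mul_le_mul_of_nonneg_left h1 h2

theorem mz2_1a (β x : ℝ) (h1 : 7 / 20 ≤ β) (h2 : β ≤ 39 / 100) (hL : 2099 / 10000 + (969 / 1000) * (39 / 100 - β) ≤ x)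
    (hx : x ≤ (3 / 8) * (1 - β)) :
    2 * (1 - β - x) * ((2 * (1 - β) * x - x ^ 2 + (12 / 25) ^ 2) * (25 / 24)) -
      2 * (1 - β - x) * x ≤ 3 * β ^ 2 + (5 / 4) * β * (2 / 5) - (15 / 4) * β * x := by
  obtain ⟨u, rfl⟩ : ∃ u, β = 39 / 100 - u := ⟨39 / 100 - β, by ring⟩
  obtain ⟨y, rfl⟩ : ∃ y, x = 2099 / 10000 + (969 / 1000) * u + y :=
    ⟨x - (2099 / 10000 + (969 / 1000) * u), by ring⟩
  have hu0 : 0 ≤ u := by linarith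
  have hy0 : 0 ≤ y := by linarith
  have hw0 : 0 ≤ 19 / 1000 - 594 / 1000 * u - y := by linarith
  linarith [
    mul_nonneg hu0 hu0, mul_nonneg hu0 hy0, mul_nonneg hu0 hw0, mul_nonneg hy0 hy0,
    mul_nonneg hy0 hw0, mul_nonneg hw0 hw0, mul_nonneg (mul_nonneg hu0 hu0) hu0,
    mul_nonneg (mul_nonneg hu0 hu0) hy0, mul_nonneg (mul_nonneg hu0 hu0) hw0,
    mul_nonneg (mul_nonneg hu0 hy0) hy0, mul_nonneg (mul_nonneg hu0 hy0) hw0,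
    mul_nonneg (mul_nonneg hu0 hw0) hw0, mul_nonneg (mul_nonneg hy0 hy0) hy0,
    mul_nonneg (mul_nonneg hy0 hy0) hw0, mul_nonneg (mul_nonneg hy0 hw0) hw0,
    mul_nonneg (mul_nonneg hw0 hw0) hw0]

theorem mz2_1b (β x : ℝ) (h1 : 7 / 20 ≤ β) (h2 : β ≤ 39 / 100) (hL : 2099 / 10000 + (969 / 1000) * (39 / 100 - β) ≤ x)
    (hx : x ≤ (3 / 8) * (1 - β)) :
    (2 * (1 - β) * x - x ^ 2) * ((2 * (1 - β) * x - x ^ 2 + (12 / 25) ^ 2) * (25 / 24)) - x ^ 3 -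
      3 * (1 - β - x) * x ^ 2 ≤
      β * (1 - β - x) * ((39 / 8) * (1 - β) - (9 / 8) * x - 3 * β - (5 / 4) * (2 / 5)) := by
  obtain ⟨u, rfl⟩ : ∃ u, β = 39 / 100 - u := ⟨39 / 100 - β, by ring⟩
  obtain ⟨y, rfl⟩ : ∃ y, x = 2099 / 10000 + (969 / 1000) * u + y :=
    ⟨x - (2099 / 10000 + (969 / 1000) * u), by ring⟩
  have hu0 : 0 ≤ u := by linarith
  have hy0 : 0 ≤ y := by linarith
  have hw0 : 0 ≤ 19 / 1000 - 594 / 1000 * u - y := by linarith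
  linarith [
    mul_nonneg hu0 hu0, mul_nonneg hu0 hy0, mul_nonneg hu0 hw0, mul_nonneg hy0 hy0,
    mul_nonneg hy0 hw0, mul_nonneg hw0 hw0, mul_nonneg (mul_nonneg hu0 hu0) hu0,
    mul_nonneg (mul_nonneg hu0 hu0) hy0, mul_nonneg (mul_nonneg hu0 hu0) hw0,
    mul_nonneg (mul_nonneg hu0 hy0) hy0, mul_nonneg (mul_nonneg hu0 hy0) hw0,
    mul_nonneg (mul_nonneg hu0 hw0) hw0, mul_nonneg (mul_nonneg hy0 hy0) hy0,
    mul_nonneg (mul_nonneg hy0 hy0) hw0, mul_nonneg (mul_nonneg hy0 hw0) hw0,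
    mul_nonneg (mul_nonneg hw0 hw0) hw0, mul_nonneg (mul_nonneg (mul_nonneg hu0 hu0) hu0) hu0,
    mul_nonneg (mul_nonneg (mul_nonneg hu0 hu0) hu0) hy0,
    mul_nonneg (mul_nonneg (mul_nonneg hu0 hu0) hu0) hw0,
    mul_nonneg (mul_nonneg (mul_nonneg hu0 hu0) hy0) hy0,
    mul_nonneg (mul_nonneg (mul_nonneg hu0 hu0) hy0) hw0,
    mul_nonneg (mul_nonneg (mul_nonneg hu0 hu0) hw0) hw0,
    mul_nonneg (mul_nonneg (mul_nonneg hu0 hy0) hy0) hy0,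
    mul_nonneg (mul_nonneg (mul_nonneg hu0 hy0) hy0) hw0,
    mul_nonneg (mul_nonneg (mul_nonneg hu0 hy0) hw0) hw0,
    mul_nonneg (mul_nonneg (mul_nonneg hu0 hw0) hw0) hw0,
    mul_nonneg (mul_nonneg (mul_nonneg hy0 hy0) hy0) hy0,
    mul_nonneg (mul_nonneg (mul_nonneg hy0 hy0) hy0) hw0,
    mul_nonneg (mul_nonneg (mul_nonneg hy0 hy0) hw0) hw0,
    mul_nonneg (mul_nonneg (mul_nonneg hy0 hw0) hw0) hw0,
    mul_nonneg (mul_nonneg (mul_nonneg hw0 hw0) hw0) hw0]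

theorem mz2_1c (β x : ℝ) (h1 : 7 / 20 ≤ β) (h2 : β ≤ 39 / 100) (hL : 2099 / 10000 + (969 / 1000) * (39 / 100 - β) ≤ x)
    (hx : x ≤ (3 / 8) * (1 - β)) :
    2 * (1 - β - x) ^ 3 + 3 * x * β ^ 2 - 3 * x ^ 2 * β +
      (2 / 5) * (1 / 30 - (1 - β - x) ^ 2 + 2 * x * β) +
      β * (3 * x - (2 / 5)) ^ 2 / 8 ≤ 49 / 250 := by
  obtain ⟨u, rfl⟩ : ∃ u, β = 39 / 100 - u := ⟨39 / 100 - β, by ring⟩
  obtain ⟨y, rfl⟩ : ∃ y, x = 2099 / 10000 + (969 / 1000) * u + y :=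
    ⟨x - (2099 / 10000 + (969 / 1000) * u), by ring⟩
  have hu0 : 0 ≤ u := by linarith
  have hy0 : 0 ≤ y := by linarith
  have hw0 : 0 ≤ 19 / 1000 - 594 / 1000 * u - y := by linarith
  linarith [
    mul_nonneg hu0 hu0, mul_nonneg hu0 hy0, mul_nonneg hu0 hw0, mul_nonneg hy0 hy0,
    mul_nonneg hy0 hw0, mul_nonneg hw0 hw0, mul_nonneg (mul_nonneg hu0 hu0) hu0,
    mul_nonneg (mul_nonneg hu0 hu0) hy0, mul_nonneg (mul_nonneg hu0 hu0) hw0,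
    mul_nonneg (mul_nonneg hu0 hy0) hy0, mul_nonneg (mul_nonneg hu0 hy0) hw0,
    mul_nonneg (mul_nonneg hu0 hw0) hw0, mul_nonneg (mul_nonneg hy0 hy0) hy0,
    mul_nonneg (mul_nonneg hy0 hy0) hw0, mul_nonneg (mul_nonneg hy0 hw0) hw0,
    mul_nonneg (mul_nonneg hw0 hw0) hw0]

theorem mcond_1 : MCond (2 / 5) (7 / 20) (39 / 100) := by
  intro α β x p s hα h1 h2 hx0 hx hp hc hs0 hs
  obtain rfl : α = 1 - β := by linarith
  subst hp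
  have hL : 2099 / 10000 + (969 / 1000) * (39 / 100 - β) ≤ x := by
    by_contra hn
    push Not at hn
    nlinarith [mul_nonneg (sub_nonneg.2 h1) (sub_nonneg.2 h2),
      mul_nonneg (sub_nonneg.2 hn.le) (sub_nonneg.2 h1),
      mul_nonneg (sub_nonneg.2 hn.le) (sub_nonneg.2 h2), mul_nonneg hx0 (sub_nonneg.2 hn.le)]
  have hq : x ^ 2 + 2 * (1 - β - x) * x = 2 * (1 - β) * x - x ^ 2 := by ring
  rw [hq] at hs
  have hs1 := mz2_s s _ (12 / 25) (by norm_num) hs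
  have hs3 := mz2_s3 s _ (12 / 25) (by norm_num) hs
  rw [div_eq_mul_inv, show (2 * (12 / 25) : ℝ)⁻¹ = 25 / 24 by norm_num] at hs1 hs3
  have ha := mz2_1a β x h1 h2 hL hx
  have hb := mz2_1b β x h1 h2 hL hx
  have hc' := mz2_1c β x h1 h2 hL hx
  have hp0 : 0 ≤ 2 * (1 - β - x) := by linarith
  have h4 := mul_le_mul_of_nonneg_left hs1 hp0
  refine ⟨by linarith, ?_, by nlinarith, by linarith, hc'⟩
  linarith

theorem mz2_2a (β x : ℝ) (h1 : 39 / 100 ≤ β) (h2 : β ≤ 23 / 50) (hL : 13829 / 100000 + (1023 / 1000) * (46 / 100 - β) ≤ x)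
    (hx : x ≤ (3 / 8) * (1 - β)) :
    2 * (1 - β - x) * ((2 * (1 - β) * x - x ^ 2 + (21 / 50) ^ 2) * (25 / 21)) -
      2 * (1 - β - x) * x ≤ 3 * β ^ 2 + (5 / 4) * β * (3 / 10) - (15 / 4) * β * x := by
  obtain ⟨u, rfl⟩ : ∃ u, β = 46 / 100 - u := ⟨46 / 100 - β, by ring⟩
  obtain ⟨y, rfl⟩ : ∃ y, x = 13829 / 100000 + (1023 / 1000) * u + y :=
    ⟨x - (13829 / 100000 + (1023 / 1000) * u), by ring⟩
  have hu0 : 0 ≤ u := by linarith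
  have hv0 : 0 ≤ 7 / 100 - u := by linarith
  have hy0 : 0 ≤ y := by linarith
  have hw0 : 0 ≤ 6421 / 100000 - 648 / 1000 * u - y := by linarith
  linarith [
    mul_nonneg hu0 hu0, mul_nonneg hu0 hy0, mul_nonneg hu0 hw0, mul_nonneg hu0 hv0,
    mul_nonneg hy0 hy0, mul_nonneg hy0 hw0, mul_nonneg hy0 hv0, mul_nonneg hw0 hw0,
    mul_nonneg hw0 hv0, mul_nonneg hv0 hv0, mul_nonneg (mul_nonneg hu0 hu0) hu0,
    mul_nonneg (mul_nonneg hu0 hu0) hy0, mul_nonneg (mul_nonneg hu0 hu0) hw0,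
    mul_nonneg (mul_nonneg hu0 hu0) hv0, mul_nonneg (mul_nonneg hu0 hy0) hy0,
    mul_nonneg (mul_nonneg hu0 hy0) hw0, mul_nonneg (mul_nonneg hu0 hy0) hv0,
    mul_nonneg (mul_nonneg hu0 hw0) hw0, mul_nonneg (mul_nonneg hu0 hw0) hv0,
    mul_nonneg (mul_nonneg hu0 hv0) hv0, mul_nonneg (mul_nonneg hy0 hy0) hy0,
    mul_nonneg (mul_nonneg hy0 hy0) hw0, mul_nonneg (mul_nonneg hy0 hy0) hv0,
    mul_nonneg (mul_nonneg hy0 hw0) hw0, mul_nonneg (mul_nonneg hy0 hw0) hv0,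
    mul_nonneg (mul_nonneg hy0 hv0) hv0, mul_nonneg (mul_nonneg hw0 hw0) hw0,
    mul_nonneg (mul_nonneg hw0 hw0) hv0, mul_nonneg (mul_nonneg hw0 hv0) hv0,
    mul_nonneg (mul_nonneg hv0 hv0) hv0]

theorem mz2_2b (β x : ℝ) (h1 : 39 / 100 ≤ β) (h2 : β ≤ 23 / 50) (hL : 13829 / 100000 + (1023 / 1000) * (46 / 100 - β) ≤ x)
    (hx : x ≤ (3 / 8) * (1 - β)) :
    (2 * (1 - β) * x - x ^ 2) * ((2 * (1 - β) * x - x ^ 2 + (21 / 50) ^ 2) * (25 / 21)) - x ^ 3 -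
      3 * (1 - β - x) * x ^ 2 ≤
      β * (1 - β - x) * ((39 / 8) * (1 - β) - (9 / 8) * x - 3 * β - (5 / 4) * (3 / 10)) := by
  obtain ⟨u, rfl⟩ : ∃ u, β = 46 / 100 - u := ⟨46 / 100 - β, by ring⟩
  obtain ⟨y, rfl⟩ : ∃ y, x = 13829 / 100000 + (1023 / 1000) * u + y :=
    ⟨x - (13829 / 100000 + (1023 / 1000) * u), by ring⟩
  have hu0 : 0 ≤ u := by linarith
  have hv0 : 0 ≤ 7 / 100 - u := by linarith
  have hy0 : 0 ≤ y := by linarith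
  have hw0 : 0 ≤ 6421 / 100000 - 648 / 1000 * u - y := by linarith
  linarith [
    mul_nonneg hu0 hu0, mul_nonneg hu0 hy0, mul_nonneg hu0 hw0, mul_nonneg hu0 hv0,
    mul_nonneg hy0 hy0, mul_nonneg hy0 hw0, mul_nonneg hy0 hv0, mul_nonneg hw0 hw0,
    mul_nonneg hw0 hv0, mul_nonneg hv0 hv0, mul_nonneg (mul_nonneg hu0 hu0) hu0,
    mul_nonneg (mul_nonneg hu0 hu0) hy0, mul_nonneg (mul_nonneg hu0 hu0) hw0,
    mul_nonneg (mul_nonneg hu0 hu0) hv0, mul_nonneg (mul_nonneg hu0 hy0) hy0,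
    mul_nonneg (mul_nonneg hu0 hy0) hw0, mul_nonneg (mul_nonneg hu0 hy0) hv0,
    mul_nonneg (mul_nonneg hu0 hw0) hw0, mul_nonneg (mul_nonneg hu0 hw0) hv0,
    mul_nonneg (mul_nonneg hu0 hv0) hv0, mul_nonneg (mul_nonneg hy0 hy0) hy0,
    mul_nonneg (mul_nonneg hy0 hy0) hw0, mul_nonneg (mul_nonneg hy0 hy0) hv0,
    mul_nonneg (mul_nonneg hy0 hw0) hw0, mul_nonneg (mul_nonneg hy0 hw0) hv0,
    mul_nonneg (mul_nonneg hy0 hv0) hv0, mul_nonneg (mul_nonneg hw0 hw0) hw0,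
    mul_nonneg (mul_nonneg hw0 hw0) hv0, mul_nonneg (mul_nonneg hw0 hv0) hv0,
    mul_nonneg (mul_nonneg hv0 hv0) hv0, mul_nonneg (mul_nonneg (mul_nonneg hu0 hu0) hu0) hu0,
    mul_nonneg (mul_nonneg (mul_nonneg hu0 hu0) hu0) hy0,
    mul_nonneg (mul_nonneg (mul_nonneg hu0 hu0) hu0) hw0,
    mul_nonneg (mul_nonneg (mul_nonneg hu0 hu0) hu0) hv0,
    mul_nonneg (mul_nonneg (mul_nonneg hu0 hu0) hy0) hy0,
    mul_nonneg (mul_nonneg (mul_nonneg hu0 hu0) hy0) hw0,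
    mul_nonneg (mul_nonneg (mul_nonneg hu0 hu0) hy0) hv0,
    mul_nonneg (mul_nonneg (mul_nonneg hu0 hu0) hw0) hw0,
    mul_nonneg (mul_nonneg (mul_nonneg hu0 hu0) hw0) hv0,
    mul_nonneg (mul_nonneg (mul_nonneg hu0 hu0) hv0) hv0,
    mul_nonneg (mul_nonneg (mul_nonneg hu0 hy0) hy0) hy0,
    mul_nonneg (mul_nonneg (mul_nonneg hu0 hy0) hy0) hw0,
    mul_nonneg (mul_nonneg (mul_nonneg hu0 hy0) hy0) hv0,
    mul_nonneg (mul_nonneg (mul_nonneg hu0 hy0) hw0) hw0,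
    mul_nonneg (mul_nonneg (mul_nonneg hu0 hy0) hw0) hv0,
    mul_nonneg (mul_nonneg (mul_nonneg hu0 hy0) hv0) hv0,
    mul_nonneg (mul_nonneg (mul_nonneg hu0 hw0) hw0) hw0,
    mul_nonneg (mul_nonneg (mul_nonneg hu0 hw0) hw0) hv0,
    mul_nonneg (mul_nonneg (mul_nonneg hu0 hw0) hv0) hv0,
    mul_nonneg (mul_nonneg (mul_nonneg hu0 hv0) hv0) hv0,
    mul_nonneg (mul_nonneg (mul_nonneg hy0 hy0) hy0) hy0,
    mul_nonneg (mul_nonneg (mul_nonneg hy0 hy0) hy0) hw0,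
    mul_nonneg (mul_nonneg (mul_nonneg hy0 hy0) hy0) hv0,
    mul_nonneg (mul_nonneg (mul_nonneg hy0 hy0) hw0) hw0,
    mul_nonneg (mul_nonneg (mul_nonneg hy0 hy0) hw0) hv0,
    mul_nonneg (mul_nonneg (mul_nonneg hy0 hy0) hv0) hv0,
    mul_nonneg (mul_nonneg (mul_nonneg hy0 hw0) hw0) hw0,
    mul_nonneg (mul_nonneg (mul_nonneg hy0 hw0) hw0) hv0,
    mul_nonneg (mul_nonneg (mul_nonneg hy0 hw0) hv0) hv0,
    mul_nonneg (mul_nonneg (mul_nonneg hy0 hv0) hv0) hv0,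
    mul_nonneg (mul_nonneg (mul_nonneg hw0 hw0) hw0) hw0,
    mul_nonneg (mul_nonneg (mul_nonneg hw0 hw0) hw0) hv0,
    mul_nonneg (mul_nonneg (mul_nonneg hw0 hw0) hv0) hv0,
    mul_nonneg (mul_nonneg (mul_nonneg hw0 hv0) hv0) hv0,
    mul_nonneg (mul_nonneg (mul_nonneg hv0 hv0) hv0) hv0]

theorem mz2_2c (β x : ℝ) (h1 : 39 / 100 ≤ β) (h2 : β ≤ 23 / 50) (hL : 13829 / 100000 + (1023 / 1000) * (46 / 100 - β) ≤ x)
    (hx : x ≤ (3 / 8) * (1 - β)) :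
    2 * (1 - β - x) ^ 3 + 3 * x * β ^ 2 - 3 * x ^ 2 * β +
      (3 / 10) * (1 / 30 - (1 - β - x) ^ 2 + 2 * x * β) +
      β * (3 * x - (3 / 10)) ^ 2 / 8 ≤ 49 / 250 := by
  obtain ⟨u, rfl⟩ : ∃ u, β = 46 / 100 - u := ⟨46 / 100 - β, by ring⟩
  obtain ⟨y, rfl⟩ : ∃ y, x = 13829 / 100000 + (1023 / 1000) * u + y :=
    ⟨x - (13829 / 100000 + (1023 / 1000) * u), by ring⟩
  have hu0 : 0 ≤ u := by linarith
  have hv0 : 0 ≤ 7 / 100 - u := by linarith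
  have hy0 : 0 ≤ y := by linarith
  have hw0 : 0 ≤ 6421 / 100000 - 648 / 1000 * u - y := by linarith
  linarith [
    mul_nonneg hu0 hu0, mul_nonneg hu0 hy0, mul_nonneg hu0 hw0, mul_nonneg hu0 hv0,
    mul_nonneg hy0 hy0, mul_nonneg hy0 hw0, mul_nonneg hy0 hv0, mul_nonneg hw0 hw0,
    mul_nonneg hw0 hv0, mul_nonneg hv0 hv0, mul_nonneg (mul_nonneg hu0 hu0) hu0,
    mul_nonneg (mul_nonneg hu0 hu0) hy0, mul_nonneg (mul_nonneg hu0 hu0) hw0,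
    mul_nonneg (mul_nonneg hu0 hu0) hv0, mul_nonneg (mul_nonneg hu0 hy0) hy0,
    mul_nonneg (mul_nonneg hu0 hy0) hw0, mul_nonneg (mul_nonneg hu0 hy0) hv0,
    mul_nonneg (mul_nonneg hu0 hw0) hw0, mul_nonneg (mul_nonneg hu0 hw0) hv0,
    mul_nonneg (mul_nonneg hu0 hv0) hv0, mul_nonneg (mul_nonneg hy0 hy0) hy0,
    mul_nonneg (mul_nonneg hy0 hy0) hw0, mul_nonneg (mul_nonneg hy0 hy0) hv0,
    mul_nonneg (mul_nonneg hy0 hw0) hw0, mul_nonneg (mul_nonneg hy0 hw0) hv0,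
    mul_nonneg (mul_nonneg hy0 hv0) hv0, mul_nonneg (mul_nonneg hw0 hw0) hw0,
    mul_nonneg (mul_nonneg hw0 hw0) hv0, mul_nonneg (mul_nonneg hw0 hv0) hv0,
    mul_nonneg (mul_nonneg hv0 hv0) hv0]

theorem mcond_2 : MCond (3 / 10) (39 / 100) (23 / 50) := by
  intro α β x p s hα h1 h2 hx0 hx hp hc hs0 hs
  obtain rfl : α = 1 - β := by linarith
  subst hp
  have hL : 13829 / 100000 + (1023 / 1000) * (46 / 100 - β) ≤ x := by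
    by_contra hn
    push Not at hn
    nlinarith [mul_nonneg (sub_nonneg.2 h1) (sub_nonneg.2 h2),
      mul_nonneg (sub_nonneg.2 hn.le) (sub_nonneg.2 h1),
      mul_nonneg (sub_nonneg.2 hn.le) (sub_nonneg.2 h2), mul_nonneg hx0 (sub_nonneg.2 hn.le)]
  have hq : x ^ 2 + 2 * (1 - β - x) * x = 2 * (1 - β) * x - x ^ 2 := by ring
  rw [hq] at hs
  have hs1 := mz2_s s _ (21 / 50) (by norm_num) hs
  have hs3 := mz2_s3 s _ (21 / 50) (by norm_num) hs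
  rw [div_eq_mul_inv, show (2 * (21 / 50) : ℝ)⁻¹ = 25 / 21 by norm_num] at hs1 hs3
  have ha := mz2_2a β x h1 h2 hL hx
  have hb := mz2_2b β x h1 h2 hL hx
  have hc' := mz2_2c β x h1 h2 hL hx
  have hp0 : 0 ≤ 2 * (1 - β - x) := by linarith
  have h4 := mul_le_mul_of_nonneg_left hs1 hp0
  refine ⟨by linarith, ?_, by nlinarith, by linarith, hc'⟩
  linarith

end Pool.H3F
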