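import Pool.Agent.H3F.MZ1
import Pool.Agent.H3F.MZ3
import Pool.Agent.H3F.ES2

/-! MZ4: the middle zone. -/

namespace Pool.H3F

/-- One range of `β`. -/
theorem MZ4_one (α β x p s a b lam b0 b1 : ℝ) (hM : MCond lam b0 b1) (h0 : b0 ≤ β)
    (h0' : β ≤ b1) (hl : -(13 / 100) ≤ lam) (hl1 : lam ≤ 3 / 5)
    (h : α + β = 1) (h1 : 7 / 20 ≤ β) (h2 : β ≤ 14 / 25)
    (hx0 : 0 ≤ x) (hx : x ≤ (3 / 8) * α) (hp : p = α - x) (hc : 2 * p * (p - x) ≤ β ^ 2)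
    (hs0 : 0 ≤ s) (hs : s ^ 2 = x ^ 2 + 2 * p * x) (hG : GI α β s a b) (h3 : 1 - √2 ≤ a)
    (h4 : a ≤ 9 / 25) : Below a b := by
  obtain ⟨m0, m1, m2, m3, m4⟩ := hM α β x p s h h0 h0' hx0 hx hp hc hs0 hs
  have hK := hG lam _ (fun w hw hw1 => mk α β x p s lam w h h1 h2 hx0 hx hp hs0 hs m0 m1 m2 m3
    hw hw1)
  obtain ⟨c, hcc⟩ : ∃ c, c = 2 * α ^ 3 - 3 * α * s ^ 2 + 3 * β * s ^ 2 +
    (β * (-(6 * α - 3 * β - 2 * lam) * x + (3 * x - lam) ^ 2 / 8) +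
      x ^ 3 + 3 * p * x ^ 2) - lam * (α ^ 2 - s ^ 2) := ⟨_, rfl⟩
  have e0 : c + lam * (1 / 30) ≤ 49 / 250 := by
    refine le_trans (le_of_eq ?_) m4
    rw [hcc]
    have hα : α = p + x := by linarith
    have e1 : 2 * α ^ 3 - 3 * α * s ^ 2 + 3 * β * s ^ 2 =
        2 * α ^ 3 - 3 * α * (x ^ 2 + 2 * p * x) + 3 * β * (x ^ 2 + 2 * p * x) := by
      rw [hs]
    rw [e1, hs, hα]
    ring
  obtain ⟨d, hd, hd1⟩ := es_flat a c lam h3 h4 hl hl1 e0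
  refine ⟨d, hd, le_trans ?_ hd1⟩
  rw [hcc]
  linarith

theorem zone_M (α β x p s a b : ℝ) (h : α + β = 1) (h1 : 1 / 4 ≤ β) (h2 : β ≤ 14 / 25)
    (hx0 : 0 ≤ x) (hx : x ≤ (3 / 8) * α) (hp : p = α - x) (hc : 2 * p * (p - x) ≤ β ^ 2)
    (hs0 : 0 ≤ s) (hs : s ^ 2 = x ^ 2 + 2 * p * x) (hG : GI α β s a b) (h3 : 1 - √2 ≤ a)
    (h4 : a ≤ 9 / 25) : Below a b := by
  have h5 : 7 / 20 ≤ β := by
    by_contra hcon
    push Not at hcon
    have hα : 13 / 20 ≤ α := by linarith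
    have e1 : (5 / 8) * α ≤ p := by linarith
    have e2 : (1 / 4) * α ≤ p - x := by linarith
    have e3 : 2 * ((5 / 8) * α) * ((1 / 4) * α) ≤ 2 * p * (p - x) := by
      have : 0 ≤ α := by linarith
      have hp0 : 0 ≤ 2 * p := by linarith
      have hq : 0 ≤ (1 / 4) * α := by linarith
      exact mul_le_mul (by linarith) e2 hq hp0
    nlinarith
  rcases le_total β (39 / 100) with h6 | h6
  · exact MZ4_one α β x p s a b _ _ _ mcond_1 h5 h6 (by norm_num) (by norm_num) h h5 h2 hx0 hx hp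
      hc hs0 hs hG h3 h4
  rcases le_total β (23 / 50) with h7 | h7
  · exact MZ4_one α β x p s a b _ _ _ mcond_2 h6 h7 (by norm_num) (by norm_num) h h5 h2 hx0 hx hp
      hc hs0 hs hG h3 h4
  rcases le_total β (13 / 25) with h8 | h8
  · exact MZ4_one α β x p s a b _ _ _ mcond_3 h7 h8 (by norm_num) (by norm_num) h h5 h2 hx0 hx hp
      hc hs0 hs hG h3 h4
  · exact MZ4_one α β x p s a b _ _ _ mcond_4 h8 h2 (by norm_num) (by norm_num) h h5 h2 hx0 hx hp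
      hc hs0 hs hG h3 h4

end Pool.H3F
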