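import Pool.Agent.H3F.RZDefs

/-! RZ1: elementary identities for step kernels. -/

namespace Pool.H3F

open Finset

section

variable {V : Type} [Fintype V] {x : V → ℝ} {W : V → V → ℝ}

theorem kM_nonneg (h : IsKer x W) : 0 ≤ kM x := by
  exact Finset.sum_nonneg fun i _ => h.wt i

theorem kc_nonneg (h : IsKer x W) (i : V) : 0 ≤ kc x W i := by
  exact Finset.sum_nonneg fun j _ => mul_nonneg (h.wt j) (h.nn i j)

theorem kc_le (h : IsKer x W) (i : V) : kc x W i ≤ kM x := by
  refine Finset.sum_le_sum fun j _ => ?_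
  have := mul_le_mul_of_nonneg_left (h.le i j) (h.wt j)
  linarith

theorem kd_nonneg (h : IsKer x W) (i j : V) : 0 ≤ kd x W i j := by
  exact Finset.sum_nonneg fun k _ => mul_nonneg (h.wt k) (mul_nonneg (h.nn i k) (h.nn j k))

theorem kd_symm (h : IsKer x W) (i j : V) : kd x W i j = kd x W j i := by
  have _ := h
  refine Finset.sum_congr rfl fun k _ => ?_
  ring

/-- Inclusion-exclusion for common neighbours. -/
theorem kd_ge (h : IsKer x W) (i j : V) : kc x W i + kc x W j - kM x ≤ kd x W i j := by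
  unfold kc kM kd
  rw [← Finset.sum_add_distrib, ← Finset.sum_sub_distrib]
  refine Finset.sum_le_sum fun k _ => ?_
  have h1 : 0 ≤ x k * ((1 - W i k) * (1 - W j k)) :=
    mul_nonneg (h.wt k) (mul_nonneg (by linarith [h.le i k]) (by linarith [h.le j k]))
  nlinarith

theorem kt_nonneg (h : IsKer x W) (i : V) : 0 ≤ kt x W i := by
  exact Finset.sum_nonneg fun j _ => Finset.sum_nonneg fun k _ =>
    mul_nonneg (mul_nonneg (h.wt j) (h.wt k))
      (mul_nonneg (mul_nonneg (h.nn i j) (h.nn i k)) (h.nn j k))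

theorem kT_nonneg (h : IsKer x W) : 0 ≤ kT x W := by
  exact Finset.sum_nonneg fun i _ => Finset.sum_nonneg fun j _ => Finset.sum_nonneg fun k _ =>
    mul_nonneg (mul_nonneg (mul_nonneg (h.wt i) (h.wt j)) (h.wt k))
      (mul_nonneg (mul_nonneg (h.nn i j) (h.nn j k)) (h.nn i k))

theorem kE_nonneg (h : IsKer x W) : 0 ≤ kE x W := by
  exact Finset.sum_nonneg fun i _ => Finset.sum_nonneg fun j _ =>
    mul_nonneg (mul_nonneg (h.wt i) (h.wt j)) (h.nn i j)

theorem kE_eq (x : V → ℝ) (W : V → V → ℝ) : kE x W = ∑ i, x i * kc x W i := by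
  unfold kE kc
  refine Finset.sum_congr rfl fun i _ => ?_
  rw [Finset.mul_sum]
  refine Finset.sum_congr rfl fun j _ => ?_
  ring

theorem kT_eq (x : V → ℝ) (W : V → V → ℝ) : kT x W = ∑ i, x i * kt x W i := by
  unfold kT kt
  refine Finset.sum_congr rfl fun i _ => ?_
  rw [Finset.mul_sum]
  refine Finset.sum_congr rfl fun j _ => ?_
  rw [Finset.mul_sum]
  refine Finset.sum_congr rfl fun k _ => ?_
  ring

theorem kF_eq (x : V → ℝ) (W : V → V → ℝ) : kF x W = ∑ i, x i * kf x W i := by
  unfold kF kf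
  refine Finset.sum_congr rfl fun i _ => ?_
  rw [Finset.mul_sum]
  refine Finset.sum_congr rfl fun j _ => ?_
  rw [Finset.mul_sum]
  refine Finset.sum_congr rfl fun k _ => ?_
  rw [Finset.mul_sum]
  refine Finset.sum_congr rfl fun l _ => ?_
  ring

theorem kt_eq (h : IsKer x W) (i : V) : kt x W i = ∑ j, x j * (W i j * kd x W i j) := by
  have _ := h
  unfold kt kd
  refine Finset.sum_congr rfl fun j _ => ?_
  rw [Finset.mul_sum, Finset.mul_sum]
  refine Finset.sum_congr rfl fun k _ => ?_
  ring

theorem kT_eq2 (h : IsKer x W) : kT x W = ∑ i, ∑ j, x i * x j * (W i j * kd x W i j) := by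
  rw [kT_eq]
  refine Finset.sum_congr rfl fun i _ => ?_
  rw [kt_eq h, Finset.mul_sum]
  refine Finset.sum_congr rfl fun j _ => ?_
  ring

/-- The link of a vertex is again a kernel; its edges are the triangles at the vertex. -/
theorem link (h : IsKer x W) (i : V) : IsKer (fun j => x j * W i j) W ∧
    kM (fun j => x j * W i j) = kc x W i ∧ kE (fun j => x j * W i j) W = kt x W i ∧
    kT (fun j => x j * W i j) W = kf x W i := by
  refine ⟨⟨h.sym, h.nn, h.le, fun j => mul_nonneg (h.wt j) (h.nn i j)⟩, rfl, ?_, ?_⟩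
  · unfold kE kt
    refine Finset.sum_congr rfl fun j _ => Finset.sum_congr rfl fun k _ => ?_
    ring
  · unfold kT kf
    refine Finset.sum_congr rfl fun j _ => Finset.sum_congr rfl fun k _ =>
      Finset.sum_congr rfl fun l _ => ?_
    ring

/-- Goodman's inequality. -/
theorem goodman (h : IsKer x W) : kE x W * (2 * kE x W - kM x ^ 2) ≤ kM x * kT x W := by
  -- the sum of `x c²`
  obtain ⟨S, hS⟩ : ∃ S, S = ∑ i, x i * kc x W i ^ 2 := ⟨_, rfl⟩
  have hcs : kE x W ^ 2 ≤ kM x * S := by
    rw [kE_eq, hS]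
    have := Finset.sum_mul_sq_le_sq_mul_sq Finset.univ (fun i => √(x i))
      (fun i => √(x i) * kc x W i)
    have e1 : ∀ i, √(x i) * (√(x i) * kc x W i) = x i * kc x W i := fun i => by
      rw [← mul_assoc, Real.mul_self_sqrt (h.wt i)]
    have e2 : ∀ i, √(x i) ^ 2 = x i := fun i => Real.sq_sqrt (h.wt i)
    have e3 : ∀ i, (√(x i) * kc x W i) ^ 2 = x i * kc x W i ^ 2 := fun i => by
      rw [mul_pow, Real.sq_sqrt (h.wt i)]
    simp only [e1, e2, e3] at this
    exact this
  have hT : 2 * S - kM x * kE x W ≤ kT x W := by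
    have h1 : ∑ i, ∑ j, x i * x j * (W i j * (kc x W i + kc x W j - kM x)) ≤ kT x W := by
      rw [kT_eq2 h]
      refine Finset.sum_le_sum fun i _ => Finset.sum_le_sum fun j _ => ?_
      exact mul_le_mul_of_nonneg_left (mul_le_mul_of_nonneg_left (kd_ge h i j) (h.nn i j))
        (mul_nonneg (h.wt i) (h.wt j))
    have h2 : ∑ i, ∑ j, x i * x j * (W i j * (kc x W i + kc x W j - kM x)) =
        2 * S - kM x * kE x W := by
      have a1 : ∑ i, ∑ j, x i * x j * (W i j * kc x W i) = S := by
        rw [hS]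
        refine Finset.sum_congr rfl fun i _ => ?_
        have : x i * kc x W i ^ 2 = x i * kc x W i * kc x W i := by ring
        rw [this]
        conv_rhs => rw [kc, Finset.mul_sum]
        refine Finset.sum_congr rfl fun j _ => ?_
        unfold kc
        ring
      have a2 : ∑ i, ∑ j, x i * x j * (W i j * kc x W j) = S := by
        rw [Finset.sum_comm, ← a1]
        refine Finset.sum_congr rfl fun i _ => Finset.sum_congr rfl fun j _ => ?_
        rw [h.sym j i]
        ring
      have a3 : ∑ i, ∑ j, x i * x j * (W i j * kM x) = kM x * kE x W := by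
        unfold kE
        rw [Finset.mul_sum]
        refine Finset.sum_congr rfl fun i _ => ?_
        rw [Finset.mul_sum]
        refine Finset.sum_congr rfl fun j _ => ?_
        ring
      have : ∀ i j, x i * x j * (W i j * (kc x W i + kc x W j - kM x)) =
          x i * x j * (W i j * kc x W i) + x i * x j * (W i j * kc x W j) -
            x i * x j * (W i j * kM x) := fun i j => by ring
      simp only [this, Finset.sum_add_distrib, Finset.sum_sub_distrib]
      rw [a1, a2, a3]
      ring
    linarith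
  have hM := kM_nonneg h
  have h3 := mul_le_mul_of_nonneg_left hT hM
  nlinarith

omit [Fintype V] in
theorem IsKer.smul (h : IsKer x W) {r : ℝ} (hr : 0 ≤ r) : IsKer (fun i => r * x i) W :=
  ⟨h.sym, h.nn, h.le, fun i => mul_nonneg hr (h.wt i)⟩

theorem kM_smul (r : ℝ) (x : V → ℝ) : kM (fun i => r * x i) = r * kM x := by
  unfold kM
  rw [Finset.mul_sum]

theorem kE_smul (r : ℝ) (x : V → ℝ) (W : V → V → ℝ) :
    kE (fun i => r * x i) W = r ^ 2 * kE x W := by
  unfold kE
  rw [Finset.mul_sum]
  refine Finset.sum_congr rfl fun i _ => ?_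
  rw [Finset.mul_sum]
  refine Finset.sum_congr rfl fun j _ => ?_
  ring

theorem kT_smul (r : ℝ) (x : V → ℝ) (W : V → V → ℝ) :
    kT (fun i => r * x i) W = r ^ 3 * kT x W := by
  unfold kT
  rw [Finset.mul_sum]
  refine Finset.sum_congr rfl fun i _ => ?_
  rw [Finset.mul_sum]
  refine Finset.sum_congr rfl fun j _ => ?_
  rw [Finset.mul_sum]
  refine Finset.sum_congr rfl fun k _ => ?_
  ring

end

end Pool.H3F
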