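import Pool.Agent.H3F.RZ1

/-! RZ2: the inequality for complete graphs on four vertices. -/

namespace Pool.H3F

open Finset

section

variable {V : Type} [Fintype V] {x : V → ℝ} {W : V → V → ℝ}

theorem kn_eq (hM : kM x = 1) (h : IsKer x W) (i j : V) :
    kn x W i j = ∑ k, x k * ((1 - W i k) * (1 - W j k)) := by
  have _ := h
  have hM' : ∑ k, x k = 1 := hM
  have : ∀ k, x k * ((1 - W i k) * (1 - W j k)) =
      x k - x k * W i k - x k * W j k + x k * (W i k * W j k) := fun k => by ring
  simp only [this, Finset.sum_add_distrib, Finset.sum_sub_distrib]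
  rw [hM']
  rfl

theorem kn_nonneg (hM : kM x = 1) (h : IsKer x W) (i j : V) : 0 ≤ kn x W i j := by
  rw [kn_eq hM h]
  exact Finset.sum_nonneg fun k _ => mul_nonneg (h.wt k)
    (mul_nonneg (by linarith [h.le i k]) (by linarith [h.le j k]))

theorem kn_le (hM : kM x = 1) (h : IsKer x W) (i j : V) : kn x W i j ≤ 1 := by
  rw [kn_eq hM h]
  calc ∑ k, x k * ((1 - W i k) * (1 - W j k)) ≤ ∑ k, x k := by
        refine Finset.sum_le_sum fun k _ => ?_
        have h1 : (1 - W i k) * (1 - W j k) ≤ 1 :=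
          mul_le_one₀ (by linarith [h.nn i k]) (by linarith [h.le j k]) (by linarith [h.nn j k])
        have := mul_le_mul_of_nonneg_left h1 (h.wt k)
        linarith
    _ = 1 := hM

private theorem rz2_cc (h : IsKer x W) :
    ∑ i, ∑ j, x i * x j * (W i j * kc x W i) = ∑ i, x i * kc x W i ^ 2 := by
  have _ := h
  refine Finset.sum_congr rfl fun i _ => ?_
  have : x i * kc x W i ^ 2 = x i * kc x W i * kc x W i := by ring
  rw [this]
  conv_rhs => rw [kc, Finset.mul_sum]
  refine Finset.sum_congr rfl fun j _ => ?_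
  unfold kc
  ring

private theorem rz2_cc' (h : IsKer x W) :
    ∑ i, ∑ j, x i * x j * (W i j * kc x W j) = ∑ i, x i * kc x W i ^ 2 := by
  rw [Finset.sum_comm, ← rz2_cc h]
  refine Finset.sum_congr rfl fun i _ => Finset.sum_congr rfl fun j _ => ?_
  rw [h.sym j i]
  ring

theorem kP_eq (h : IsKer x W) :
    kP x W = kE x W - 2 * ∑ i, x i * kc x W i ^ 2 + kT x W := by
  unfold kP
  have : ∀ i j, x i * x j * (W i j * kn x W i j) =
      x i * x j * W i j - x i * x j * (W i j * kc x W i) - x i * x j * (W i j * kc x W j) +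
        x i * x j * (W i j * kd x W i j) := fun i j => by
    unfold kn
    ring
  simp only [this, Finset.sum_add_distrib, Finset.sum_sub_distrib]
  rw [rz2_cc h, rz2_cc' h, ← kT_eq2 h]
  unfold kE
  ring

private theorem rz2_cd (h : IsKer x W) :
    ∑ i, ∑ j, x i * x j * (W i j * (kc x W i * kd x W i j)) =
      ∑ i, x i * (kc x W i * kt x W i) := by
  refine Finset.sum_congr rfl fun i _ => ?_
  rw [kt_eq h, ← mul_assoc, Finset.mul_sum]
  refine Finset.sum_congr rfl fun j _ => ?_
  ring

private theorem rz2_cd' (h : IsKer x W) :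
    ∑ i, ∑ j, x i * x j * (W i j * (kc x W j * kd x W i j)) =
      ∑ i, x i * (kc x W i * kt x W i) := by
  rw [Finset.sum_comm, ← rz2_cd h]
  refine Finset.sum_congr rfl fun i _ => Finset.sum_congr rfl fun j _ => ?_
  rw [h.sym j i, kd_symm h j i]
  ring

theorem kY_eq (h : IsKer x W) :
    kY x W = kT x W - 2 * ∑ i, x i * (kc x W i * kt x W i) +
      ∑ i, ∑ j, x i * x j * (W i j * kd x W i j ^ 2) := by
  unfold kY
  have : ∀ i j, x i * x j * (W i j * kn x W i j * kd x W i j) =
      x i * x j * (W i j * kd x W i j) - x i * x j * (W i j * (kc x W i * kd x W i j)) -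
        x i * x j * (W i j * (kc x W j * kd x W i j)) +
        x i * x j * (W i j * kd x W i j ^ 2) := fun i j => by
    unfold kn
    ring
  simp only [this, Finset.sum_add_distrib, Finset.sum_sub_distrib]
  rw [rz2_cd h, rz2_cd' h, ← kT_eq2 h]
  ring

/-- triangle weight -/
private def rz2w (x : V → ℝ) (W : V → V → ℝ) (i j k : V) : ℝ :=
  x i * x j * x k * (W i j * W j k * W i k)

omit [Fintype V] in
private theorem rz2w_12 (h : IsKer x W) (i j k : V) : rz2w x W i j k = rz2w x W j i k := by
  unfold rz2w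
  rw [h.sym j i]
  ring

omit [Fintype V] in
private theorem rz2w_23 (h : IsKer x W) (i j k : V) : rz2w x W i j k = rz2w x W i k j := by
  unfold rz2w
  rw [h.sym k j]
  ring

private theorem rz2_c1 : ∑ i, ∑ j, ∑ k, rz2w x W i j k * kc x W i =
    ∑ i, x i * (kc x W i * kt x W i) := by
  refine Finset.sum_congr rfl fun i _ => ?_
  have : x i * (kc x W i * kt x W i) = (x i * kc x W i) * kt x W i := by ring
  rw [this]
  unfold kt
  rw [Finset.mul_sum]
  refine Finset.sum_congr rfl fun j _ => ?_
  rw [Finset.mul_sum]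
  refine Finset.sum_congr rfl fun k _ => ?_
  unfold rz2w
  ring

private theorem rz2_c2 (h : IsKer x W) : ∑ i, ∑ j, ∑ k, rz2w x W i j k * kc x W j =
    ∑ i, x i * (kc x W i * kt x W i) := by
  rw [Finset.sum_comm, ← rz2_c1]
  refine Finset.sum_congr rfl fun i _ => Finset.sum_congr rfl fun j _ =>
    Finset.sum_congr rfl fun k _ => ?_
  rw [rz2w_12 h]

private theorem rz2_c3 (h : IsKer x W) : ∑ i, ∑ j, ∑ k, rz2w x W i j k * kc x W k =
    ∑ i, x i * (kc x W i * kt x W i) := by
  rw [← rz2_c2 h]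
  refine Finset.sum_congr rfl fun i _ => ?_
  rw [Finset.sum_comm]
  refine Finset.sum_congr rfl fun j _ => Finset.sum_congr rfl fun k _ => ?_
  rw [rz2w_23 h]

private theorem rz2_d1 : ∑ i, ∑ j, ∑ k, rz2w x W i j k * kd x W i j =
    ∑ i, ∑ j, x i * x j * (W i j * kd x W i j ^ 2) := by
  refine Finset.sum_congr rfl fun i _ => Finset.sum_congr rfl fun j _ => ?_
  have : x i * x j * (W i j * kd x W i j ^ 2) = (x i * x j * W i j * kd x W i j) * kd x W i j := by
    ring
  rw [this]
  conv_rhs => rw [kd, Finset.mul_sum]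
  refine Finset.sum_congr rfl fun k _ => ?_
  unfold rz2w kd
  ring

private theorem rz2_d2 (h : IsKer x W) : ∑ i, ∑ j, ∑ k, rz2w x W i j k * kd x W i k =
    ∑ i, ∑ j, x i * x j * (W i j * kd x W i j ^ 2) := by
  rw [← rz2_d1]
  refine Finset.sum_congr rfl fun i _ => ?_
  rw [Finset.sum_comm]
  refine Finset.sum_congr rfl fun j _ => Finset.sum_congr rfl fun k _ => ?_
  rw [rz2w_23 h]

private theorem rz2_d3 (h : IsKer x W) : ∑ i, ∑ j, ∑ k, rz2w x W i j k * kd x W j k =
    ∑ i, ∑ j, x i * x j * (W i j * kd x W i j ^ 2) := by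
  rw [← rz2_d2 h, Finset.sum_comm]
  refine Finset.sum_congr rfl fun i _ => Finset.sum_congr rfl fun j _ =>
    Finset.sum_congr rfl fun k _ => ?_
  rw [rz2w_12 h]

private theorem rz2_f : ∑ i, ∑ j, ∑ k, rz2w x W i j k *
    (∑ l, x l * (W i l * W j l * W k l)) = kF x W := by
  unfold kF
  refine Finset.sum_congr rfl fun i _ => Finset.sum_congr rfl fun j _ =>
    Finset.sum_congr rfl fun k _ => ?_
  rw [Finset.mul_sum]
  refine Finset.sum_congr rfl fun l _ => ?_
  unfold rz2w
  ring

/-- From `(1 - u) (1 - v) (1 - w) ≥ 0`, summed over triangles and a fourth vertex. -/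
theorem kF_le0 (hM : kM x = 1) (h : IsKer x W) :
    kF x W ≤ kT x W - 3 * ∑ i, x i * (kc x W i * kt x W i) +
      3 * ∑ i, ∑ j, x i * x j * (W i j * kd x W i j ^ 2) := by
  have key : ∀ i j k, 0 ≤ rz2w x W i j k *
      (∑ l, x l * ((1 - W i l) * (1 - W j l) * (1 - W k l))) := fun i j k => by
    apply mul_nonneg
    · exact mul_nonneg (mul_nonneg (mul_nonneg (h.wt i) (h.wt j)) (h.wt k))
        (mul_nonneg (mul_nonneg (h.nn i j) (h.nn j k)) (h.nn i k))
    · refine Finset.sum_nonneg fun l _ => mul_nonneg (h.wt l) (mul_nonneg (mul_nonneg ?_ ?_) ?_)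
      · linarith [h.le i l]
      · linarith [h.le j l]
      · linarith [h.le k l]
  have expand : ∀ i j k, rz2w x W i j k *
      (∑ l, x l * ((1 - W i l) * (1 - W j l) * (1 - W k l))) =
      rz2w x W i j k - rz2w x W i j k * kc x W i - rz2w x W i j k * kc x W j -
        rz2w x W i j k * kc x W k + rz2w x W i j k * kd x W i j + rz2w x W i j k * kd x W i k +
        rz2w x W i j k * kd x W j k -
        rz2w x W i j k * (∑ l, x l * (W i l * W j l * W k l)) := fun i j k => by
    have e : ∑ l, x l * ((1 - W i l) * (1 - W j l) * (1 - W k l)) =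
        1 - kc x W i - kc x W j - kc x W k + kd x W i j + kd x W i k + kd x W j k -
          ∑ l, x l * (W i l * W j l * W k l) := by
      have hM' : ∑ l, x l = 1 := hM
      have : ∀ l, x l * ((1 - W i l) * (1 - W j l) * (1 - W k l)) =
          x l - x l * W i l - x l * W j l - x l * W k l + x l * (W i l * W j l) +
            x l * (W i l * W k l) + x l * (W j l * W k l) - x l * (W i l * W j l * W k l) :=
        fun l => by ring
      simp only [this, Finset.sum_add_distrib, Finset.sum_sub_distrib]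
      rw [hM']
      rfl
    rw [e]
    ring
  have hsum : 0 ≤ ∑ i, ∑ j, ∑ k, rz2w x W i j k *
      (∑ l, x l * ((1 - W i l) * (1 - W j l) * (1 - W k l))) :=
    Finset.sum_nonneg fun i _ => Finset.sum_nonneg fun j _ => Finset.sum_nonneg fun k _ =>
      key i j k
  simp only [expand, Finset.sum_add_distrib, Finset.sum_sub_distrib] at hsum
  rw [rz2_c1, rz2_c2 h, rz2_c3 h, rz2_d1, rz2_d2 h, rz2_d3 h, rz2_f] at hsum
  have hT : ∑ i, ∑ j, ∑ k, rz2w x W i j k = kT x W := rfl
  rw [hT] at hsum
  linarith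

theorem kF_le (hM : kM x = 1) (h : IsKer x W) :
    kF x W ≤ 3 * ∑ i, x i * (kc x W i * kt x W i) - 2 * kT x W + 3 * kY x W := by
  have h1 := kF_le0 hM h
  have h2 := kY_eq h
  linarith

end

end Pool.H3F
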