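import Pool.Agent.H3F.RZ1

/-! RZ3: derivatives of the edge and triangle masses along three perturbations. -/

namespace Pool.H3F

open Finset

section

variable {V : Type} [Fintype V] {x : V → ℝ} {W : V → V → ℝ}

open Classical in
/-- Weights moved towards the vertex `i`. -/
noncomputable def mvx (x : V → ℝ) (i : V) (ε : ℝ) (j : V) : ℝ :=
  (1 - ε) * x j + ε * (if j = i then 1 else 0)

open Classical in
/-- The row and the column of `i` scaled by `1 - ε`. -/
noncomputable def mvr (W : V → V → ℝ) (i : V) (ε : ℝ) (j l : V) : ℝ :=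
  W j l * ((1 - ε * (if j = i then 1 else 0)) * (1 - ε * (if l = i then 1 else 0)))

/-- Edges weakened in proportion to the mass of the common non-neighbours. -/
def mvn (x : V → ℝ) (W : V → V → ℝ) (ε : ℝ) (j l : V) : ℝ := W j l * (1 - ε * kn x W j l)

open Classical in
/-- The indicator of the vertex `i`. -/
noncomputable def rz3d (i j : V) : ℝ := if j = i then 1 else 0

theorem rz3d_sum (i : V) (f : V → ℝ) : ∑ j, rz3d i j * f j = f i := by
  classical
  unfold rz3d
  simp [ite_mul]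

theorem rz3_dE (X : ℝ → V → ℝ) (Y : ℝ → V → V → ℝ) (X' : V → ℝ) (Y' : V → V → ℝ)
    (hX : ∀ j, HasDerivAt (fun ε => X ε j) (X' j) 0)
    (hY : ∀ j l, HasDerivAt (fun ε => Y ε j l) (Y' j l) 0) :
    HasDerivAt (fun ε => kE (X ε) (Y ε))
      (∑ i, ∑ j, ((X' i * X 0 j + X 0 i * X' j) * Y 0 i j + X 0 i * X 0 j * Y' i j)) 0 := by
  unfold kE
  refine HasDerivAt.fun_sum fun i _ => HasDerivAt.fun_sum fun j _ => ?_
  exact ((hX i).mul (hX j)).mul (hY i j)

theorem rz3_dT (X : ℝ → V → ℝ) (Y : ℝ → V → V → ℝ) (X' : V → ℝ) (Y' : V → V → ℝ)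
    (hX : ∀ j, HasDerivAt (fun ε => X ε j) (X' j) 0)
    (hY : ∀ j l, HasDerivAt (fun ε => Y ε j l) (Y' j l) 0) :
    HasDerivAt (fun ε => kT (X ε) (Y ε))
      (∑ i, ∑ j, ∑ k, (((X' i * X 0 j + X 0 i * X' j) * X 0 k + X 0 i * X 0 j * X' k) *
        (Y 0 i j * Y 0 j k * Y 0 i k) + X 0 i * X 0 j * X 0 k *
        ((Y' i j * Y 0 j k + Y 0 i j * Y' j k) * Y 0 i k + Y 0 i j * Y 0 j k * Y' i k))) 0 := by
  unfold kT
  refine HasDerivAt.fun_sum fun i _ => HasDerivAt.fun_sum fun j _ =>
    HasDerivAt.fun_sum fun k _ => ?_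
  exact (((hX i).mul (hX j)).mul (hX k)).mul (((hY i j).mul (hY j k)).mul (hY i k))

/-- Edges at the vertex `i`, seen from the first place. -/
theorem rz3_e1 (i : V) : ∑ j, ∑ l, rz3d i j * x l * W j l = kc x W i := by
  rw [← rz3d_sum i (fun j => kc x W j)]
  refine Finset.sum_congr rfl fun j _ => ?_
  unfold kc
  rw [Finset.mul_sum]
  exact Finset.sum_congr rfl fun l _ => by ring

theorem rz3_e2 (h : IsKer x W) (i : V) : ∑ j, ∑ l, x j * rz3d i l * W j l = kc x W i := by
  rw [Finset.sum_comm, ← rz3_e1 (x := x) (W := W) i]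
  refine Finset.sum_congr rfl fun j _ => Finset.sum_congr rfl fun l _ => ?_
  rw [h.sym l j]; ring

theorem rz3_t1 (i : V) : ∑ j, ∑ k, ∑ l, rz3d i j * x k * x l * (W j k * W k l * W j l) =
    kt x W i := by
  rw [← rz3d_sum i (fun j => kt x W j)]
  refine Finset.sum_congr rfl fun j _ => ?_
  unfold kt
  rw [Finset.mul_sum]
  refine Finset.sum_congr rfl fun k _ => ?_
  rw [Finset.mul_sum]
  exact Finset.sum_congr rfl fun l _ => by ring

theorem rz3_t2 (h : IsKer x W) (i : V) :
    ∑ j, ∑ k, ∑ l, x j * rz3d i k * x l * (W j k * W k l * W j l) = kt x W i := by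
  rw [Finset.sum_comm, ← rz3_t1 (x := x) (W := W) i]
  refine Finset.sum_congr rfl fun j _ => Finset.sum_congr rfl fun k _ =>
    Finset.sum_congr rfl fun l _ => ?_
  rw [h.sym k j]; ring

theorem rz3_t3 (h : IsKer x W) (i : V) :
    ∑ j, ∑ k, ∑ l, x j * x k * rz3d i l * (W j k * W k l * W j l) = kt x W i := by
  rw [← rz3_t2 h i]
  refine Finset.sum_congr rfl fun j _ => ?_
  rw [Finset.sum_comm]
  refine Finset.sum_congr rfl fun k _ => Finset.sum_congr rfl fun l _ => ?_
  rw [h.sym l k]; ring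

theorem rz3_n1 : ∑ j, ∑ k, ∑ l, x j * x k * x l * (W j k * W k l * W j l) * kn x W j k =
    kY x W := by
  unfold kY
  refine Finset.sum_congr rfl fun j _ => Finset.sum_congr rfl fun k _ => ?_
  unfold kd
  rw [Finset.mul_sum, Finset.mul_sum]
  exact Finset.sum_congr rfl fun l _ => by ring

theorem rz3_kns (h : IsKer x W) (i j : V) : kn x W i j = kn x W j i := by
  unfold kn
  rw [kd_symm h i j]; ring

theorem rz3_n3 (h : IsKer x W) :
    ∑ j, ∑ k, ∑ l, x j * x k * x l * (W j k * W k l * W j l) * kn x W j l = kY x W := by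
  rw [← rz3_n1 (x := x) (W := W)]
  refine Finset.sum_congr rfl fun j _ => ?_
  rw [Finset.sum_comm]
  refine Finset.sum_congr rfl fun k _ => Finset.sum_congr rfl fun l _ => ?_
  rw [h.sym l k]; ring

theorem rz3_n2 (h : IsKer x W) :
    ∑ j, ∑ k, ∑ l, x j * x k * x l * (W j k * W k l * W j l) * kn x W k l = kY x W := by
  rw [← rz3_n3 h, Finset.sum_comm]
  refine Finset.sum_congr rfl fun j _ => Finset.sum_congr rfl fun k _ =>
    Finset.sum_congr rfl fun l _ => ?_
  rw [h.sym k j]; ring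

theorem mvx_zero (x : V → ℝ) (i : V) : mvx x i 0 = x := by
  funext j; simp [mvx]

theorem mvr_zero (W : V → V → ℝ) (i : V) : mvr W i 0 = W := by
  funext j l; simp [mvr]

theorem mvn_zero (x : V → ℝ) (W : V → V → ℝ) : mvn x W 0 = W := by
  funext j l; simp [mvn]

theorem rz3_dx (x : V → ℝ) (i j : V) :
    HasDerivAt (fun ε => mvx x i ε j) (rz3d i j - x j) 0 := by
  classical
  have h : HasDerivAt (fun ε : ℝ => (1 - ε) * x j + ε * rz3d i j) ((-1) * x j + 1 * rz3d i j) 0 :=
    (((hasDerivAt_id (0 : ℝ)).const_sub 1).mul_const _).add ((hasDerivAt_id (0 : ℝ)).mul_const _)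
  have e : (fun ε => mvx x i ε j) = fun ε : ℝ => (1 - ε) * x j + ε * rz3d i j := by
    funext ε
    unfold mvx rz3d
    congr
  rw [e]
  convert h using 1
  ring

theorem rz3_dr (W : V → V → ℝ) (i j l : V) :
    HasDerivAt (fun ε => mvr W i ε j l) (-(W j l * (rz3d i j + rz3d i l))) 0 := by
  classical
  have h1 : HasDerivAt (fun ε : ℝ => 1 - ε * rz3d i j) (-(1 * rz3d i j)) 0 :=
    ((hasDerivAt_id (0 : ℝ)).mul_const _).const_sub 1
  have h2 : HasDerivAt (fun ε : ℝ => 1 - ε * rz3d i l) (-(1 * rz3d i l)) 0 :=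
    ((hasDerivAt_id (0 : ℝ)).mul_const _).const_sub 1
  have h := (h1.mul h2).const_mul (W j l)
  have e : (fun ε => mvr W i ε j l) =
      fun ε : ℝ => W j l * ((1 - ε * rz3d i j) * (1 - ε * rz3d i l)) := by
    funext ε
    unfold mvr rz3d
    congr
  rw [e]
  refine h.congr_deriv ?_
  norm_num
  ring

theorem rz3_dn (x : V → ℝ) (W : V → V → ℝ) (j l : V) :
    HasDerivAt (fun ε => mvn x W ε j l) (-(W j l * kn x W j l)) 0 := by
  have h1 : HasDerivAt (fun ε : ℝ => 1 - ε * kn x W j l) (-(1 * kn x W j l)) 0 :=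
    ((hasDerivAt_id (0 : ℝ)).mul_const _).const_sub 1
  have h := h1.const_mul (W j l)
  have e : (fun ε => mvn x W ε j l) = fun ε : ℝ => W j l * (1 - ε * kn x W j l) := rfl
  rw [e]
  refine h.congr_deriv ?_
  ring

theorem mvx_E (h : IsKer x W) (i : V) :
    HasDerivAt (fun ε => kE (mvx x i ε) W) (2 * (kc x W i - kE x W)) 0 := by
  have h0 := rz3_dE (fun ε => mvx x i ε) (fun _ => W) (fun j => rz3d i j - x j) (fun _ _ => 0)
    (rz3_dx x i) (fun j l => hasDerivAt_const _ _)
  convert h0 using 1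
  have e : ∀ j l : V, ((rz3d i j - x j) * mvx x i 0 l + mvx x i 0 j * (rz3d i l - x l)) * W j l +
      mvx x i 0 j * mvx x i 0 l * 0 =
      rz3d i j * x l * W j l + x j * rz3d i l * W j l - 2 * (x j * x l * W j l) := by
    intro j l
    rw [mvx_zero]; ring
  simp only [e, Finset.sum_sub_distrib, Finset.sum_add_distrib, ← Finset.mul_sum]
  rw [rz3_e1, rz3_e2 h]
  unfold kE
  ring

theorem mvx_T (h : IsKer x W) (i : V) :
    HasDerivAt (fun ε => kT (mvx x i ε) W) (3 * (kt x W i - kT x W)) 0 := by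
  have h0 := rz3_dT (fun ε => mvx x i ε) (fun _ => W) (fun j => rz3d i j - x j) (fun _ _ => 0)
    (rz3_dx x i) (fun j l => hasDerivAt_const _ _)
  convert h0 using 1
  have e : ∀ j k l : V, (((rz3d i j - x j) * mvx x i 0 k + mvx x i 0 j * (rz3d i k - x k)) *
      mvx x i 0 l + mvx x i 0 j * mvx x i 0 k * (rz3d i l - x l)) * (W j k * W k l * W j l) +
      mvx x i 0 j * mvx x i 0 k * mvx x i 0 l *
        ((0 * W k l + W j k * 0) * W j l + W j k * W k l * 0) =
      rz3d i j * x k * x l * (W j k * W k l * W j l) +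
      x j * rz3d i k * x l * (W j k * W k l * W j l) +
      x j * x k * rz3d i l * (W j k * W k l * W j l) -
      3 * (x j * x k * x l * (W j k * W k l * W j l)) := by
    intro j k l
    rw [mvx_zero]; ring
  simp only [e, Finset.sum_sub_distrib, Finset.sum_add_distrib, ← Finset.mul_sum]
  rw [rz3_t1, rz3_t2 h, rz3_t3 h]
  unfold kT
  ring

theorem mvx_M (x : V → ℝ) (i : V) (ε : ℝ) (hM : kM x = 1) : kM (mvx x i ε) = 1 := by
  classical
  unfold kM at hM ⊢
  have e : ∀ j, mvx x i ε j = (1 - ε) * x j + ε * (rz3d i j * 1) := by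
    intro j
    unfold mvx rz3d
    rw [mul_one]
  simp only [e, Finset.sum_add_distrib, ← Finset.mul_sum, hM]
  rw [rz3d_sum i (fun _ => (1 : ℝ))]
  ring

theorem mvr_E (h : IsKer x W) (i : V) :
    HasDerivAt (fun ε => kE x (mvr W i ε)) (-2 * (x i * kc x W i)) 0 := by
  have h0 := rz3_dE (fun _ => x) (fun ε => mvr W i ε) (fun _ => 0)
    (fun j l => -(W j l * (rz3d i j + rz3d i l)))
    (fun j => hasDerivAt_const _ _) (rz3_dr W i)
  convert h0 using 1
  have e : ∀ j l : V, (0 * x l + x j * 0) * mvr W i 0 j l +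
      x j * x l * -(W j l * (rz3d i j + rz3d i l)) =
      -(rz3d i j * (x j * (x l * W j l)) + rz3d i l * (x l * (x j * W l j))) := by
    intro j l
    rw [h.sym l j]; ring
  have s1 : ∑ j, ∑ l, rz3d i j * (x j * (x l * W j l)) = x i * kc x W i := by
    rw [← rz3d_sum i (fun j => x j * kc x W j)]
    refine Finset.sum_congr rfl fun j _ => ?_
    unfold kc
    rw [Finset.mul_sum, Finset.mul_sum]
  have s2 : ∑ j, ∑ l, rz3d i l * (x l * (x j * W l j)) = x i * kc x W i := by
    rw [Finset.sum_comm, s1]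
  simp only [e, Finset.sum_neg_distrib, Finset.sum_add_distrib]
  rw [s1, s2]
  ring

theorem mvr_T (h : IsKer x W) (i : V) :
    HasDerivAt (fun ε => kT x (mvr W i ε)) (-6 * (x i * kt x W i)) 0 := by
  have h0 := rz3_dT (fun _ => x) (fun ε => mvr W i ε) (fun _ => 0)
    (fun j l => -(W j l * (rz3d i j + rz3d i l)))
    (fun j => hasDerivAt_const _ _) (rz3_dr W i)
  convert h0 using 1
  have z : mvr W i 0 = W := mvr_zero W i
  have e : ∀ j k l : V, ((0 * x k + x j * 0) * x l + x j * x k * 0) *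
      (mvr W i 0 j k * mvr W i 0 k l * mvr W i 0 j l) + x j * x k * x l *
      ((-(W j k * (rz3d i j + rz3d i k)) * mvr W i 0 k l +
        mvr W i 0 j k * -(W k l * (rz3d i k + rz3d i l))) * mvr W i 0 j l +
        mvr W i 0 j k * mvr W i 0 k l * -(W j l * (rz3d i j + rz3d i l))) =
      -2 * (rz3d i j * (x j * (x k * x l * (W j k * W j l * W k l)))) +
      -2 * (rz3d i k * (x k * (x j * x l * (W k j * W k l * W j l)))) +
      -2 * (rz3d i l * (x l * (x j * x k * (W l j * W l k * W j k)))) := by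
    intro j k l
    rw [z, h.sym k j, h.sym l j, h.sym l k]; ring
  have s1 : ∑ j, ∑ k, ∑ l, rz3d i j * (x j * (x k * x l * (W j k * W j l * W k l))) =
      x i * kt x W i := by
    rw [← rz3d_sum i (fun j => x j * kt x W j)]
    refine Finset.sum_congr rfl fun j _ => ?_
    unfold kt
    rw [Finset.mul_sum, Finset.mul_sum]
    refine Finset.sum_congr rfl fun k _ => ?_
    rw [Finset.mul_sum, Finset.mul_sum]
  have s2 : ∑ j, ∑ k, ∑ l, rz3d i k * (x k * (x j * x l * (W k j * W k l * W j l))) =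
      x i * kt x W i := by
    rw [Finset.sum_comm, s1]
  have s3 : ∑ j, ∑ k, ∑ l, rz3d i l * (x l * (x j * x k * (W l j * W l k * W j k))) =
      x i * kt x W i := by
    rw [← s2]
    refine Finset.sum_congr rfl fun j _ => ?_
    rw [Finset.sum_comm]
  simp only [e, Finset.sum_add_distrib, ← Finset.mul_sum]
  simp only [Finset.mul_sum]
  simp only [← Finset.mul_sum] at s1 s2 s3 ⊢
  rw [s1, s2, s3]
  ring

theorem mvn_E (h : IsKer x W) : HasDerivAt (fun ε => kE x (mvn x W ε)) (-kP x W) 0 := by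
  have h0 := rz3_dE (fun _ => x) (fun ε => mvn x W ε) (fun _ => 0)
    (fun j l => -(W j l * kn x W j l))
    (fun j => hasDerivAt_const _ _) (rz3_dn x W)
  convert h0 using 1
  unfold kP
  rw [← Finset.sum_neg_distrib]
  refine Finset.sum_congr rfl fun j _ => ?_
  rw [← Finset.sum_neg_distrib]
  refine Finset.sum_congr rfl fun l _ => ?_
  ring

theorem mvn_T (h : IsKer x W) : HasDerivAt (fun ε => kT x (mvn x W ε)) (-3 * kY x W) 0 := by
  have h0 := rz3_dT (fun _ => x) (fun ε => mvn x W ε) (fun _ => 0)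
    (fun j l => -(W j l * kn x W j l))
    (fun j => hasDerivAt_const _ _) (rz3_dn x W)
  convert h0 using 1
  have z : mvn x W 0 = W := mvn_zero x W
  have e : ∀ j k l : V, ((0 * x k + x j * 0) * x l + x j * x k * 0) *
      (mvn x W 0 j k * mvn x W 0 k l * mvn x W 0 j l) + x j * x k * x l *
      ((-(W j k * kn x W j k) * mvn x W 0 k l +
        mvn x W 0 j k * -(W k l * kn x W k l)) * mvn x W 0 j l +
        mvn x W 0 j k * mvn x W 0 k l * -(W j l * kn x W j l)) =
      -(x j * x k * x l * (W j k * W k l * W j l) * kn x W j k +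
      x j * x k * x l * (W j k * W k l * W j l) * kn x W k l +
      x j * x k * x l * (W j k * W k l * W j l) * kn x W j l) := by
    intro j k l
    rw [z]; ring
  simp only [e, Finset.sum_neg_distrib, Finset.sum_add_distrib]
  rw [rz3_n1, rz3_n2 h, rz3_n3 h]
  ring

theorem mvx_ker (h : IsKer x W) (i : V) {ε : ℝ} (h0 : 0 ≤ ε) (h1 : ε ≤ 1) :
    IsKer (mvx x i ε) W := by
  classical
  refine ⟨h.sym, h.nn, h.le, fun j => ?_⟩
  unfold mvx
  have := h.wt j
  have h2 : 0 ≤ (1 - ε) * x j := mul_nonneg (by linarith) this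
  split_ifs <;> nlinarith

/-- A vertex of positive weight can also lose weight. -/
theorem mvx_ker_neg (h : IsKer x W) (hM : kM x = 1) (i : V) (hi : 0 < x i) :
    ∀ᶠ ε in nhds (0 : ℝ), IsKer (mvx x i ε) W := by
  classical
  have hi1 : x i ≤ 1 := by
    rw [← hM]
    exact Finset.single_le_sum (f := x) (fun j _ => h.wt j) (Finset.mem_univ i)
  have ev : ∀ᶠ ε in nhds (0 : ℝ), ε ∈ Set.Ioo (-x i) 1 :=
    Ioo_mem_nhds (by linarith) (by norm_num)
  filter_upwards [ev] with ε hε
  refine ⟨h.sym, h.nn, h.le, fun j => ?_⟩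
  unfold mvx
  have hj := h.wt j
  have h2 : 0 ≤ (1 - ε) * x j := mul_nonneg (by linarith [hε.2]) hj
  split_ifs with hji
  · subst hji
    have := hε.1
    nlinarith
  · linarith

theorem mvr_ker (h : IsKer x W) (i : V) {ε : ℝ} (h0 : 0 ≤ ε) (h1 : ε ≤ 1) :
    IsKer x (mvr W i ε) := by
  classical
  have key : ∀ j : V, 0 ≤ (1 - ε * (if j = i then (1 : ℝ) else 0)) ∧
      (1 - ε * (if j = i then (1 : ℝ) else 0)) ≤ 1 := by
    intro j
    split_ifs <;> constructor <;> linarith
  refine ⟨fun j l => ?_, fun j l => ?_, fun j l => ?_, h.wt⟩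
  · unfold mvr
    rw [h.sym j l, mul_comm (1 - ε * (if j = i then (1 : ℝ) else 0))]
  · unfold mvr
    exact mul_nonneg (h.nn j l) (mul_nonneg (by convert (key j).1) (by convert (key l).1))
  · unfold mvr
    have a := key j
    have b := key l
    have c : (1 - ε * (if j = i then (1 : ℝ) else 0)) * (1 - ε * (if l = i then (1 : ℝ) else 0)) ≤ 1 :=
      mul_le_one₀ a.2 b.1 b.2
    have c0 : 0 ≤ (1 - ε * (if j = i then (1 : ℝ) else 0)) *
        (1 - ε * (if l = i then (1 : ℝ) else 0)) := mul_nonneg a.1 b.1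
    exact mul_le_one₀ (h.le j l) (by convert c0) (by convert c)

end

end Pool.H3F
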