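import Pool.Agent.H3F.RZDefs

/-! RZ4: the extremal function as a function of the edge density. -/

namespace Pool.H3F

theorem rz_sum {k g : ℝ} (hk : 0 < k) : k * rzb k g + rzs k g = 1 := by
  unfold rzb rzs
  field_simp
  ring

theorem rz_sq {k g : ℝ} (hk : 0 < k) (hg : 1 / (k + 1) ≤ 1 - g) :
    k * rzb k g ^ 2 + rzs k g ^ 2 = 1 - g := by
  have hk1 : 0 < k + 1 := by linarith
  have h0 : 0 ≤ k * ((k + 1) * (1 - g) - 1) := by
    apply mul_nonneg hk.le
    rw [div_le_iff₀ hk1] at hg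
    linarith
  have hD := Real.sq_sqrt h0
  unfold rzb rzs
  set D := √(k * ((k + 1) * (1 - g) - 1)) with hDdef
  have h1 : k * ((k + D) / (k * (k + 1))) ^ 2 + ((1 - D) / (k + 1)) ^ 2 =
      (k + D ^ 2) / (k * (k + 1)) := by
    field_simp
    ring
  rw [h1, hD]
  field_simp
  ring

theorem rz_s_nonneg {k g : ℝ} (hk : 0 < k) (hg : 1 - g ≤ 1 / k) : 0 ≤ rzs k g := by
  have hk1 : 0 < k + 1 := by linarith
  have h0 : k * ((k + 1) * (1 - g) - 1) ≤ 1 := by
    rw [le_div_iff₀ hk] at hg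
    nlinarith
  have hD : √(k * ((k + 1) * (1 - g) - 1)) ≤ 1 := by
    rw [Real.sqrt_le_left one_pos.le, one_pow]
    exact h0
  unfold rzs
  exact div_nonneg (by linarith) hk1.le

private theorem RZ4_diff {k g : ℝ} (hk : 0 < k) :
    rzb k g - rzs k g = √(k * ((k + 1) * (1 - g) - 1)) / k := by
  unfold rzb rzs
  field_simp
  ring

theorem rz_s_le_b {k g : ℝ} (hk : 0 < k) : rzs k g ≤ rzb k g := by
  have h := RZ4_diff (g := g) hk
  have h1 : 0 ≤ √(k * ((k + 1) * (1 - g) - 1)) / k := div_nonneg (Real.sqrt_nonneg _) hk.le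
  linarith

theorem rz_s_pos {k g : ℝ} (hk : 0 < k) (hg : 1 - g < 1 / k) : 0 < rzs k g := by
  have hk1 : 0 < k + 1 := by linarith
  have h0 : k * ((k + 1) * (1 - g) - 1) < 1 := by
    rw [lt_div_iff₀ hk] at hg
    nlinarith
  have hD : √(k * ((k + 1) * (1 - g) - 1)) < 1 := by
    rw [Real.sqrt_lt' one_pos, one_pow]
    exact h0
  unfold rzs
  exact div_pos (by linarith) hk1

private theorem RZ4_pos {k g : ℝ} (hk : 0 < k) (hg : 1 / (k + 1) < 1 - g) :
    0 < k * ((k + 1) * (1 - g) - 1) := by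
  have hk1 : 0 < k + 1 := by linarith
  apply mul_pos hk
  rw [div_lt_iff₀ hk1] at hg
  linarith

theorem rz_s_lt_b {k g : ℝ} (hk : 0 < k) (hg : 1 / (k + 1) < 1 - g) : rzs k g < rzb k g := by
  have h := RZ4_diff (g := g) hk
  have h1 : 0 < √(k * ((k + 1) * (1 - g) - 1)) / k :=
    div_pos (Real.sqrt_pos.2 (RZ4_pos hk hg)) hk
  linarith

/-- The two parts are determined by the density. -/
theorem rz_unique {k b s : ℝ} (hk : 0 < k) (hs : s ≤ b) (h1 : k * b + s = 1) :
    rzb k (1 - (k * b ^ 2 + s ^ 2)) = b ∧ rzs k (1 - (k * b ^ 2 + s ^ 2)) = s := by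
  have hk1 : 0 < k + 1 := by linarith
  have hu : k * ((k + 1) * (1 - (1 - (k * b ^ 2 + s ^ 2))) - 1) = (k * (b - s)) ^ 2 := by
    have : (1 : ℝ) = (k * b + s) ^ 2 := by rw [h1]; norm_num
    linear_combination k * (k * b + s + 1) * h1
  have hD : √(k * ((k + 1) * (1 - (1 - (k * b ^ 2 + s ^ 2))) - 1)) = k * (b - s) := by
    rw [hu]
    exact Real.sqrt_sq (mul_nonneg hk.le (by linarith))
  unfold rzb rzs
  rw [hD]
  constructor
  · rw [div_eq_iff (by positivity)]
    linear_combination -k * h1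
  · rw [div_eq_iff (by positivity)]
    linear_combination -h1

/-- For densities of the scallop. -/
theorem rz_range {k b s : ℝ} (hk : 0 < k) (hs0 : 0 ≤ s) (hs : s ≤ b) (h1 : k * b + s = 1) :
    1 / (k + 1) ≤ k * b ^ 2 + s ^ 2 ∧ k * b ^ 2 + s ^ 2 ≤ 1 / k := by
  have hk1 : 0 < k + 1 := by linarith
  have h2 : (1 : ℝ) = (k * b + s) ^ 2 := by rw [h1]; norm_num
  constructor
  · rw [div_le_iff₀ hk1]
    have h3 : 0 ≤ k * (b - s) ^ 2 := by positivity
    nlinarith
  · rw [le_div_iff₀ hk]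
    have h3 : 0 ≤ s * (s + k * (b + (b - s))) :=
      mul_nonneg hs0 (add_nonneg hs0 (mul_nonneg hk.le (by linarith)))
    nlinarith

theorem rzt_cont (k : ℝ) : Continuous (rzt k) := by
  unfold rzt rzb rzs
  fun_prop

theorem rzt_deriv {k g : ℝ} (hk : 0 < k) (hg : 1 / (k + 1) < 1 - g) :
    HasDerivAt (rzt k) (3 * (1 - rzb k g - rzs k g)) g := by
  have hk1 : 0 < k + 1 := by linarith
  have hpos := RZ4_pos hk hg
  have hDpos : 0 < √(k * ((k + 1) * (1 - g) - 1)) := Real.sqrt_pos.2 hpos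
  have hu : HasDerivAt (fun x : ℝ => k * ((k + 1) * (1 - x) - 1)) (-(k * (k + 1))) g := by
    have h1 : HasDerivAt (fun x : ℝ => 1 - x) (-1) g := by
      simpa using (hasDerivAt_id g).const_sub 1
    have h2 := ((h1.const_mul (k + 1)).sub_const 1).const_mul k
    have h3 : k * ((k + 1) * -1) = -(k * (k + 1)) := by ring
    rw [h3] at h2
    exact h2
  have hD := hu.sqrt hpos.ne'
  have hb : HasDerivAt (rzb k)
      (-(k * (k + 1)) / (2 * √(k * ((k + 1) * (1 - g) - 1))) / (k * (k + 1))) g := by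
    exact (hD.const_add k).div_const (k * (k + 1))
  have hs : HasDerivAt (rzs k)
      (-(-(k * (k + 1)) / (2 * √(k * ((k + 1) * (1 - g) - 1)))) / (k + 1)) g := by
    exact (hD.const_sub 1).div_const (k + 1)
  have hT := (((hasDerivAt_id g).const_sub 1).const_mul 3).const_sub 1
  have hB := (((hb.pow 3).const_mul k).add (hs.pow 3)).const_mul 2
  have hfin := hT.add hB
  have heq : -(3 * -1) + 2 * (k * ((3 : ℕ) * rzb k g ^ (3 - 1) *
      (-(k * (k + 1)) / (2 * √(k * ((k + 1) * (1 - g) - 1))) / (k * (k + 1)))) +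
      (3 : ℕ) * rzs k g ^ (3 - 1) *
      (-(-(k * (k + 1)) / (2 * √(k * ((k + 1) * (1 - g) - 1)))) / (k + 1))) =
      3 * (1 - rzb k g - rzs k g) := by
    have hd := RZ4_diff (g := g) hk
    set D := √(k * ((k + 1) * (1 - g) - 1)) with hDdef
    have e1 : -(k * (k + 1)) / (2 * D) / (k * (k + 1)) = -(1 / (2 * D)) := by
      field_simp
    have e2 : -(-(k * (k + 1)) / (2 * D)) / (k + 1) = k / (2 * D) := by
      field_simp
    rw [e1, e2]
    have e3 : rzb k g = rzs k g + D / k := by linarith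
    push_cast
    rw [e3]
    field_simp
    ring
  rw [heq] at hfin
  exact hfin

end Pool.H3F
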