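import Pool.Agent.H3F.RZ2
import Pool.Agent.H3F.RZ3
import Pool.Agent.H3F.RZ4

/-! RZ5: a worst counterexample of mass one and its first order conditions. -/

namespace Pool.H3F

open Finset Filter Topology

section

variable {V : Type} [Fintype V] {x : V → ℝ} {W : V → V → ℝ}

/-- Kernels of mass one whose edge density lies in the scallop `k`. -/
def RzK (V : Type) [Fintype V] (k : ℝ) : Set ((V → ℝ) × (V → V → ℝ)) :=
  {z | IsKer z.1 z.2 ∧ kM z.1 = 1 ∧ 1 / (k + 1) ≤ 1 - kE z.1 z.2 ∧ 1 - kE z.1 z.2 ≤ 1 / k}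

theorem rz5_kM_cont (V : Type) [Fintype V] :
    Continuous fun z : (V → ℝ) × (V → V → ℝ) => kM z.1 := by
  unfold kM
  fun_prop

theorem rz5_kE_cont (V : Type) [Fintype V] :
    Continuous fun z : (V → ℝ) × (V → V → ℝ) => kE z.1 z.2 := by
  unfold kE
  fun_prop

theorem rz5_kT_cont (V : Type) [Fintype V] :
    Continuous fun z : (V → ℝ) × (V → V → ℝ) => kT z.1 z.2 := by
  unfold kT
  fun_prop

theorem rz5_closed_ker (V : Type) [Fintype V] :
    IsClosed {z : (V → ℝ) × (V → V → ℝ) | IsKer z.1 z.2} := by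
  have e : {z : (V → ℝ) × (V → V → ℝ) | IsKer z.1 z.2} =
      {z | ∀ i j, z.2 i j = z.2 j i} ∩ {z | ∀ i j, 0 ≤ z.2 i j} ∩ {z | ∀ i j, z.2 i j ≤ 1} ∩
        {z | ∀ i, 0 ≤ z.1 i} := by
    ext z
    constructor
    · intro h
      exact ⟨⟨⟨h.sym, h.nn⟩, h.le⟩, h.wt⟩
    · rintro ⟨⟨⟨h1, h2⟩, h3⟩, h4⟩
      exact ⟨h1, h2, h3, h4⟩
  rw [e]
  refine (((?_ : IsClosed _).inter ?_).inter ?_).inter ?_
  · simp only [Set.ofPred_forall]
    exact isClosed_iInter fun i => isClosed_iInter fun j =>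
      isClosed_eq (by fun_prop) (by fun_prop)
  · simp only [Set.ofPred_forall]
    exact isClosed_iInter fun i => isClosed_iInter fun j =>
      isClosed_le (by fun_prop) (by fun_prop)
  · simp only [Set.ofPred_forall]
    exact isClosed_iInter fun i => isClosed_iInter fun j =>
      isClosed_le (by fun_prop) (by fun_prop)
  · simp only [Set.ofPred_forall]
    exact isClosed_iInter fun i => isClosed_le (by fun_prop) (by fun_prop)

theorem rzK_compact (V : Type) [Fintype V] (k : ℝ) : IsCompact (RzK V k) := by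
  have hcl : IsClosed (RzK V k) := by
    have e : RzK V k = {z | IsKer z.1 z.2} ∩ {z | kM z.1 = 1} ∩
        {z | 1 / (k + 1) ≤ 1 - kE z.1 z.2} ∩ {z | 1 - kE z.1 z.2 ≤ 1 / k} := by
      ext z
      constructor
      · rintro ⟨h1, h2, h3, h4⟩
        exact ⟨⟨⟨h1, h2⟩, h3⟩, h4⟩
      · rintro ⟨⟨⟨h1, h2⟩, h3⟩, h4⟩
        exact ⟨h1, h2, h3, h4⟩
    rw [e]
    have hE := rz5_kE_cont V
    exact ((((rz5_closed_ker V).inter (isClosed_eq (rz5_kM_cont V) continuous_const)).inter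
      (isClosed_le continuous_const (continuous_const.sub hE)))).inter
      (isClosed_le (continuous_const.sub hE) continuous_const)
  refine IsCompact.of_isClosed_subset
    ((isCompact_Icc (a := (0 : V → ℝ)) (b := 1)).prod
      (isCompact_Icc (a := (0 : V → V → ℝ)) (b := 1))) hcl ?_
  rintro ⟨x, W⟩ ⟨h1, h2, -, -⟩
  refine ⟨⟨fun i => h1.wt i, fun i => ?_⟩, ⟨fun i j => h1.nn i j, fun i j => h1.le i j⟩⟩
  have := Finset.single_le_sum (f := x) (fun i _ => h1.wt i) (Finset.mem_univ i)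
  simp only [kM] at h2
  simp only [Pi.one_apply]
  linarith

theorem rz_fun_cont (V : Type) [Fintype V] (k : ℝ) :
    Continuous fun z : (V → ℝ) × (V → V → ℝ) => kT z.1 z.2 - rzt k (kE z.1 z.2) :=
  (rz5_kT_cont V).sub ((rzt_cont k).comp (rz5_kE_cont V))

/-- A minimiser. -/
theorem rz_exists_min (V : Type) [Fintype V] {k : ℝ} (hk : 2 ≤ k)
    (hne : ∃ z ∈ RzK V k, kT z.1 z.2 < rzt k (kE z.1 z.2)) :
    ∃ z ∈ RzK V k, kT z.1 z.2 < rzt k (kE z.1 z.2) ∧
      ∀ z' ∈ RzK V k, kT z.1 z.2 - rzt k (kE z.1 z.2) ≤ kT z'.1 z'.2 - rzt k (kE z'.1 z'.2) := by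
  obtain ⟨w, hw, hlt⟩ := hne
  obtain ⟨z, hz, hmin⟩ := (rzK_compact V k).exists_isMinOn ⟨w, hw⟩ (rz_fun_cont V k).continuousOn
  have hmin' := isMinOn_iff.1 hmin
  refine ⟨z, hz, ?_, hmin'⟩
  have := hmin' w hw
  linarith

/-- By Goodman's inequality a counterexample does not lie at the ends of the scallop. -/
theorem rz_interior {k : ℝ} (hk : 2 ≤ k) (h : (x, W) ∈ RzK V k) (hlt : kT x W < rzt k (kE x W)) :
    1 / (k + 1) < 1 - kE x W ∧ 1 - kE x W < 1 / k := by
  obtain ⟨hK, hM, h1, h2⟩ := h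
  simp only at hK hM h1 h2
  have hgood := goodman hK
  rw [hM] at hgood
  have hk0 : (0 : ℝ) < k := by linarith
  have hk1 : (0 : ℝ) < k + 1 := by linarith
  constructor
  · refine lt_of_le_of_ne h1 fun heq => ?_
    have hg : kE x W = 1 - 1 / (k + 1) := by linarith
    have hu := rz_unique (k := k) (b := 1 / (k + 1)) (s := 1 / (k + 1)) hk0 le_rfl
      (by field_simp)
    have e1 : k * (1 / (k + 1)) ^ 2 + (1 / (k + 1)) ^ 2 = 1 / (k + 1) := by
      field_simp
    rw [e1] at hu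
    have ht : rzt k (kE x W) = 1 - 3 * (1 / (k + 1)) + 2 * (1 / (k + 1)) ^ 2 := by
      unfold rzt
      rw [hg, hu.1, hu.2]
      field_simp
      ring
    rw [ht] at hlt
    rw [hg] at hgood
    nlinarith
  · refine lt_of_le_of_ne h2 fun heq => ?_
    have hg : kE x W = 1 - 1 / k := by linarith
    have hu := rz_unique (k := k) (b := 1 / k) (s := 0) hk0 (by positivity)
      (by field_simp; simp)
    have e1 : k * (1 / k) ^ 2 + (0 : ℝ) ^ 2 = 1 / k := by
      field_simp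
      ring
    rw [e1] at hu
    have ht : rzt k (kE x W) = 1 - 3 * (1 / k) + 2 * (1 / k) ^ 2 := by
      unfold rzt
      rw [hg, hu.1, hu.2]
      field_simp
      ring
    rw [ht] at hlt
    rw [hg] at hgood
    nlinarith

/-- One-sided first order condition along a curve. -/
theorem rz_first_order {k : ℝ} (hk : 2 ≤ k) (h : (x, W) ∈ RzK V k)
    (hlt : kT x W < rzt k (kE x W))
    (hmin : ∀ z' ∈ RzK V k, kT x W - rzt k (kE x W) ≤ kT z'.1 z'.2 - rzt k (kE z'.1 z'.2))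
    (X : ℝ → V → ℝ) (Y : ℝ → V → V → ℝ) (hX : X 0 = x) (hY : Y 0 = W)
    (hK : ∀ᶠ ε in 𝓝[>] (0 : ℝ), IsKer (X ε) (Y ε) ∧ kM (X ε) = 1) {e t : ℝ}
    (he : HasDerivAt (fun ε => kE (X ε) (Y ε)) e 0)
    (ht : HasDerivAt (fun ε => kT (X ε) (Y ε)) t 0) :
    3 * (1 - rzb k (kE x W) - rzs k (kE x W)) * e ≤ t := by
  by_contra hcon
  rw [not_le] at hcon
  obtain ⟨i1, i2⟩ := rz_interior hk h hlt
  have hk0 : (0 : ℝ) < k := by linarith
  have hg0 : (fun ε => kE (X ε) (Y ε)) 0 = kE x W := by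
    simp only [hX, hY]
  have hd := rzt_deriv (k := k) (g := kE x W) hk0 i1
  rw [← hg0] at hd
  have hcomp := hd.comp (0 : ℝ) he
  have hphi := ht.sub hcomp
  have hneg : t - 3 * (1 - rzb k ((fun ε => kE (X ε) (Y ε)) 0) -
      rzs k ((fun ε => kE (X ε) (Y ε)) 0)) * e < 0 := by
    rw [hg0]
    linarith
  have hsl := hasDerivAt_iff_tendsto_slope.1 hphi
  have hsl2 := hsl.mono_left (nhdsWithin_mono (0 : ℝ)
    (fun y (hy : y ∈ Set.Ioi (0 : ℝ)) => (ne_of_gt hy : y ≠ 0)))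
  have hev1 := hsl2.eventually (gt_mem_nhds hneg)
  have hcont := he.continuousAt
  have hev2 : ∀ᶠ ε in 𝓝[>] (0 : ℝ), 1 / (k + 1) < 1 - kE (X ε) (Y ε) := by
    have hc : ContinuousAt (fun ε => 1 - kE (X ε) (Y ε)) 0 := continuousAt_const.sub hcont
    refine (hc.eventually (lt_mem_nhds ?_)).filter_mono nhdsWithin_le_nhds
    simp only [hX, hY]
    exact i1
  have hev3 : ∀ᶠ ε in 𝓝[>] (0 : ℝ), 1 - kE (X ε) (Y ε) < 1 / k := by
    have hc : ContinuousAt (fun ε => 1 - kE (X ε) (Y ε)) 0 := continuousAt_const.sub hcont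
    refine (hc.eventually (gt_mem_nhds ?_)).filter_mono nhdsWithin_le_nhds
    simp only [hX, hY]
    exact i2
  obtain ⟨ε, ⟨⟨⟨⟨hk1, hk2⟩, hsl'⟩, h2⟩, h3⟩, hpos⟩ :=
    ((((hK.and hev1).and hev2).and hev3).and self_mem_nhdsWithin).exists
  have hmem : ((X ε, Y ε) : (V → ℝ) × (V → V → ℝ)) ∈ RzK V k := ⟨hk1, hk2, h2.le, h3.le⟩
  have hm := hmin _ hmem
  simp only at hm
  have hpos' : (0 : ℝ) < ε := hpos
  rw [slope_def_field, sub_zero] at hsl'
  rw [div_lt_iff₀ hpos'] at hsl'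
  simp only [Pi.sub_apply, Function.comp_apply, hX, hY] at hsl'
  linarith

theorem rz5_mvn_ker (h : IsKer x W) (hM : kM x = 1) {ε : ℝ} (h0 : 0 ≤ ε) (h1 : ε ≤ 1) :
    IsKer x (mvn x W ε) := by
  have hn : ∀ i j, kn x W i j = kn x W j i := by
    intro i j
    unfold kn
    rw [kd_symm h i j]
    ring
  have hb : ∀ i j, 0 ≤ 1 - ε * kn x W i j ∧ 1 - ε * kn x W i j ≤ 1 := by
    intro i j
    have a1 := kn_nonneg hM h i j
    have a2 := kn_le hM h i j
    constructor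
    · nlinarith
    · nlinarith
  refine ⟨fun i j => ?_, fun i j => ?_, fun i j => ?_, h.wt⟩
  · unfold mvn
    rw [h.sym i j, hn i j]
  · exact mul_nonneg (h.nn i j) (hb i j).1
  · unfold mvn
    calc W i j * (1 - ε * kn x W i j) ≤ 1 * 1 :=
          mul_le_mul (h.le i j) (hb i j).2 (hb i j).1 zero_le_one
      _ = 1 := one_mul 1

/-- The conclusion used by the assembly. -/
theorem rz_kkt {k : ℝ} (hk : 2 ≤ k) (h : (x, W) ∈ RzK V k) (hlt : kT x W < rzt k (kE x W))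
    (hmin : ∀ z' ∈ RzK V k, kT x W - rzt k (kE x W) ≤ kT z'.1 z'.2 - rzt k (kE z'.1 z'.2)) :
    ∃ b s ζ : ℝ, 0 < ζ ∧ 0 < s ∧ s < b ∧ k * b + s = 1 ∧
      kE x W = 1 - (k * b ^ 2 + s ^ 2) ∧
      kT x W = 1 - 3 * (k * b ^ 2 + s ^ 2) + 2 * (k * b ^ 3 + s ^ 3) - ζ ∧
      (∀ i, 0 < x i → kt x W i =
        2 * ((k - 1) * b) * kc x W i - (k * (k - 1) * b ^ 2 + ζ)) ∧
      (∀ i, 0 < x i → kt x W i ≤ (k - 1) * b * kc x W i) ∧
      kY x W ≤ (k - 1) * b * kP x W := by
  obtain ⟨i1, i2⟩ := rz_interior hk h hlt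
  have hk0 : (0 : ℝ) < k := by linarith
  have hKer : IsKer x W := h.1
  have hM : kM x = 1 := h.2.1
  have hsum := rz_sum (k := k) (g := kE x W) hk0
  have hsq := rz_sq (k := k) (g := kE x W) hk0 i1.le
  have hspos := rz_s_pos (k := k) (g := kE x W) hk0 i2
  have hslt := rz_s_lt_b (k := k) (g := kE x W) hk0 i1
  have hdef : rzt k (kE x W) = 1 - 3 * (1 - kE x W) +
      2 * (k * rzb k (kE x W) ^ 3 + rzs k (kE x W) ^ 3) := rfl
  have hfo := fun X Y hX hY hK e t he ht =>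
    rz_first_order (x := x) (W := W) hk h hlt hmin X Y hX hY hK (e := e) (t := t) he ht
  generalize rzb k (kE x W) = b at *
  generalize rzs k (kE x W) = s at *
  have hs : s = 1 - k * b := by linarith
  have hc0 : 1 - b - s = (k - 1) * b := by rw [hs]; ring
  have hev01 : ∀ᶠ ε in 𝓝[>] (0 : ℝ), 0 ≤ ε ∧ ε ≤ 1 := by
    have hmem : Set.Ioo (0 : ℝ) 1 ∈ 𝓝[>] (0 : ℝ) := Ioo_mem_nhdsGT one_pos
    filter_upwards [hmem] with ε hε
    exact ⟨hε.1.le, hε.2.le⟩
  refine ⟨b, s, rzt k (kE x W) - kT x W, by linarith, hspos, hslt, hsum, by linarith, ?_, ?_, ?_,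
    ?_⟩
  · rw [hdef, ← hsq]
    ring
  · intro i hi
    have f1 := hfo (fun ε => mvx x i ε) (fun _ => W) (mvx_zero x i) rfl
      (by
        filter_upwards [hev01] with ε hε
        exact ⟨mvx_ker hKer i hε.1 hε.2, mvx_M x i ε hM⟩) _ _ (mvx_E hKer i) (mvx_T hKer i)
    have hneg0 : HasDerivAt (fun ε : ℝ => -ε) (-1) 0 := hasDerivAt_neg 0
    have hE' : HasDerivAt (fun ε => kE (mvx x i (-ε)) W) (-(2 * (kc x W i - kE x W))) 0 := by
      have a := mvx_E hKer i
      have a' : HasDerivAt (fun ε => kE (mvx x i ε) W) (2 * (kc x W i - kE x W)) (-0) := by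
        simpa using a
      have c := HasDerivAt.comp (0 : ℝ) a' hneg0
      have e2 : 2 * (kc x W i - kE x W) * (-1) = -(2 * (kc x W i - kE x W)) := by ring
      rw [e2] at c
      exact c
    have hT' : HasDerivAt (fun ε => kT (mvx x i (-ε)) W) (-(3 * (kt x W i - kT x W))) 0 := by
      have a := mvx_T hKer i
      have a' : HasDerivAt (fun ε => kT (mvx x i ε) W) (3 * (kt x W i - kT x W)) (-0) := by
        simpa using a
      have c := HasDerivAt.comp (0 : ℝ) a' hneg0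
      have e2 : 3 * (kt x W i - kT x W) * (-1) = -(3 * (kt x W i - kT x W)) := by ring
      rw [e2] at c
      exact c
    have f2 := hfo (fun ε => mvx x i (-ε)) (fun _ => W)
      (by
        simp only [neg_zero]
        exact mvx_zero x i) rfl
      (by
        have hev := mvx_ker_neg hKer hM i hi
        have hten : Tendsto (fun ε : ℝ => -ε) (𝓝[>] (0 : ℝ)) (𝓝 0) := by
          have : Tendsto (fun ε : ℝ => -ε) (𝓝 (0 : ℝ)) (𝓝 (-0)) := continuous_neg.tendsto 0
          rw [neg_zero] at this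
          exact this.mono_left nhdsWithin_le_nhds
        filter_upwards [hten.eventually hev] with ε hε
        exact ⟨hε, mvx_M x i (-ε) hM⟩) _ _ hE' hT'
    rw [hc0] at f1 f2
    have f3 : kt x W i - kT x W = (k - 1) * b * (2 * (kc x W i - kE x W)) := by linarith
    have hT : kT x W = 1 - 3 * (k * b ^ 2 + s ^ 2) + 2 * (k * b ^ 3 + s ^ 3) -
        (rzt k (kE x W) - kT x W) := by
      rw [hdef, ← hsq]
      ring
    have hE : kE x W = 1 - (k * b ^ 2 + s ^ 2) := by linarith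
    have f4 : kt x W i = kT x W + (k - 1) * b * (2 * (kc x W i - kE x W)) := by linarith
    generalize rzt k (kE x W) - kT x W = z at *
    rw [f4, hT, hE, hs]
    ring
  · intro i hi
    have f1 := hfo (fun _ => x) (fun ε => mvr W i ε) rfl (mvr_zero W i)
      (by
        filter_upwards [hev01] with ε hε
        exact ⟨mvr_ker hKer i hε.1 hε.2, hM⟩) _ _ (mvr_E hKer i) (mvr_T hKer i)
    rw [hc0] at f1
    have f2 : x i * kt x W i ≤ x i * ((k - 1) * b * kc x W i) := by nlinarith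
    exact le_of_mul_le_mul_left f2 hi
  · have f1 := hfo (fun _ => x) (fun ε => mvn x W ε) rfl (mvn_zero x W)
      (by
        filter_upwards [hev01] with ε hε
        exact ⟨rz5_mvn_ker hKer hM hε.1 hε.2, hM⟩) _ _ (mvn_E hKer) (mvn_T hKer)
    rw [hc0] at f1
    nlinarith

end

end Pool.H3F
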