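import Pool.Agent.H3F.RZDefs

/-! RZ6: real inequality for the link of a vertex. -/

namespace Pool.H3F

/-- Comparison of two partitions of the same mass. -/
private theorem RZ6_parts {n b s x : ℝ} (hn : 2 ≤ n) (hx : 0 ≤ x) (hs : n * x ≤ s)
    (hsb : s ≤ b) :
    3 / (n + 1) * (n * b + s) * (n * x * (2 * b - 2 * s + (n + 1) * x)) ≤
      2 * (n * ((b + x) ^ 3 - b ^ 3) - (s ^ 3 - (s - n * x) ^ 3)) := by
  have hn1 : 0 < n + 1 := by linarith
  have hnx : 0 ≤ n * x := mul_nonneg (by linarith) hx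
  rw [div_mul_eq_mul_div, div_mul_eq_mul_div, div_le_iff₀ hn1]
  have hBS : (n + 1) * x ≤ (2 * b + x) - (2 * s - n * x) := by linarith
  have hBnS : (n + 1) ^ 2 * x ≤ (2 * b + x) + n * (2 * s - n * x) := by
    have h1 : n * (n * x) ≤ n * (2 * s - n * x) :=
      mul_le_mul_of_nonneg_left (by linarith) (by linarith)
    nlinarith
  have h2 : ((n + 1) * x) * ((n + 1) ^ 2 * x) ≤
      ((2 * b + x) - (2 * s - n * x)) * ((2 * b + x) + n * (2 * s - n * x)) :=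
    mul_le_mul hBS hBnS (by positivity) (le_trans (by positivity) hBS)
  have h3 : 0 ≤ 3 * (((2 * b + x) - (2 * s - n * x)) * ((2 * b + x) + n * (2 * s - n * x))) -
      (n + 1) ^ 2 * (n - 1) * x ^ 2 := by
    have h4 : (n + 1) ^ 2 * (n - 1) * x ^ 2 ≤ 3 * (((n + 1) * x) * ((n + 1) ^ 2 * x)) := by
      have h5 : 0 ≤ (n + 1) ^ 2 * x ^ 2 * (3 * (n + 1) - (n - 1)) := by
        apply mul_nonneg (by positivity)
        linarith
      nlinarith
    linarith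
  have h6 : 0 ≤ n * x / 2 * (3 * (((2 * b + x) - (2 * s - n * x)) *
      ((2 * b + x) + n * (2 * s - n * x))) - (n + 1) ^ 2 * (n - 1) * x ^ 2) :=
    mul_nonneg (by linarith) h3
  have h7 : 2 * (n * ((b + x) ^ 3 - b ^ 3) - (s ^ 3 - (s - n * x) ^ 3)) * (n + 1) -
      3 * (n * b + s) * (n * x * (2 * b - 2 * s + (n + 1) * x)) =
      n * x / 2 * (3 * (((2 * b + x) - (2 * s - n * x)) *
      ((2 * b + x) + n * (2 * s - n * x))) - (n + 1) ^ 2 * (n - 1) * x ^ 2) := by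
    ring
  linarith

/-- Small degrees. -/
private theorem RZ6_a {n b ζ c e f : ℝ} (hn : 2 ≤ n) (hb : 0 < b) (hζ : 0 < ζ) (hc : 0 < c)
    (he : e = 2 * (n * b) * c - ((n + 1) * n * b ^ 2 + ζ)) (hG : e * (2 * e - c ^ 2) ≤ c * f)
    (hcc : c ≤ n * b) :
    n * (n - 1) * b ^ 2 * (3 * c - 2 * ((n + 1) * b)) - (3 - 3 / (n + 1)) * ζ * c ≤ f := by
  have hn1 : 0 < n + 1 := by linarith
  refine le_of_mul_le_mul_left (le_trans ?_ hG) hc
  have hid : e * (2 * e - c ^ 2) - c * (n * (n - 1) * b ^ 2 * (3 * c - 2 * ((n + 1) * b)) -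
      (3 - 3 / (n + 1)) * ζ * c) =
      2 * (n * b * (n * b - c) * ((n * b - c) + b) ^ 2) +
      ζ * (4 * (n * b ^ 2 + (n * b - c) ^ 2) - 3 / (n + 1) * c ^ 2) + 2 * ζ ^ 2 := by
    rw [he]
    ring
  have h1 : 0 ≤ n * b * (n * b - c) * ((n * b - c) + b) ^ 2 :=
    mul_nonneg (mul_nonneg (mul_nonneg (by linarith) hb.le) (by linarith)) (sq_nonneg _)
  have h2 : 3 / (n + 1) * c ^ 2 ≤ 4 * (n * b ^ 2 + (n * b - c) ^ 2) := by
    rw [div_mul_eq_mul_div, div_le_iff₀ hn1]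
    have h3 : c ^ 2 ≤ (n * b) ^ 2 := pow_le_pow_left₀ hc.le hcc 2
    have h4 : 0 ≤ (n * b - c) ^ 2 * (n + 1) := mul_nonneg (sq_nonneg _) hn1.le
    have h5 : 0 ≤ n * b ^ 2 := by positivity
    nlinarith
  have h3 : 0 ≤ ζ * (4 * (n * b ^ 2 + (n * b - c) ^ 2) - 3 / (n + 1) * c ^ 2) :=
    mul_nonneg hζ.le (by linarith)
  nlinarith [sq_nonneg ζ]

/-- Large degrees. -/
private theorem RZ6_c {n b ζ c e f : ℝ} (hn : 2 ≤ n) (hb : 0 < b) (hc : 0 < c)
    (he : e = 2 * (n * b) * c - ((n + 1) * n * b ^ 2 + ζ)) (hec : e ≤ n * b * c)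
    (hG : e * (2 * e - c ^ 2) ≤ c * f) (hcc : (n + 1) * b ≤ c) :
    n * (n - 1) * b ^ 2 * (3 * c - 2 * ((n + 1) * b)) - (3 - 3 / (n + 1)) * ζ * c ≤ f := by
  have hn1 : 0 < n + 1 := by linarith
  refine le_of_mul_le_mul_left (le_trans ?_ hG) hc
  obtain ⟨τ, hτ⟩ : ∃ τ, c = (n + 1) * b + τ := ⟨c - (n + 1) * b, by ring⟩
  have hτ0 : 0 ≤ τ := by linarith
  obtain ⟨ζ', hζ'⟩ : ∃ ζ', ζ = n * b * τ + ζ' := ⟨ζ - n * b * τ, by ring⟩
  have hζ0 : 0 ≤ ζ' := by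
    have : e = n * b * c - ζ' := by
      rw [he, hζ', hτ]
      ring
    linarith
  have hi : 3 / (n + 1) ≤ 1 := by
    rw [div_le_iff₀ hn1]
    linarith
  have hid : e * (2 * e - c ^ 2) - c * (n * (n - 1) * b ^ 2 * (3 * c - 2 * ((n + 1) * b)) -
      (3 - 3 / (n + 1)) * ζ * c) =
      c * (n * b * τ * (b + τ * (2 - 3 / (n + 1))) + ζ' * (b + (4 - 3 / (n + 1)) * τ)) +
        2 * ζ' ^ 2 := by
    rw [he, hζ', hτ]
    field_simp
    ring
  have h1 : 0 ≤ n * b * τ * (b + τ * (2 - 3 / (n + 1))) := by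
    apply mul_nonneg (mul_nonneg (mul_nonneg (by linarith) hb.le) hτ0)
    apply add_nonneg hb.le
    apply mul_nonneg hτ0
    linarith
  have h2 : 0 ≤ ζ' * (b + (4 - 3 / (n + 1)) * τ) := by
    apply mul_nonneg hζ0
    apply add_nonneg hb.le
    apply mul_nonneg _ hτ0
    linarith
  have h3 : 0 ≤ c * (n * b * τ * (b + τ * (2 - 3 / (n + 1))) +
      ζ' * (b + (4 - 3 / (n + 1)) * τ)) := mul_nonneg hc.le (add_nonneg h1 h2)
  nlinarith [sq_nonneg ζ']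

/-- Middle degrees. -/
private theorem RZ6_b {n b ζ c e f : ℝ} (hn : 2 ≤ n) (hb : 0 < b) (hζ : 0 < ζ) (hc : 0 < c)
    (he : e = 2 * (n * b) * c - ((n + 1) * n * b ^ 2 + ζ)) (hG : e * (2 * e - c ^ 2) ≤ c * f)
    (hR : ∀ b' s' : ℝ, 0 ≤ s' → s' ≤ b' → c = n * b' + s' →
      e = c ^ 2 - (n * b' ^ 2 + s' ^ 2) →
      c ^ 3 - 3 * c * (n * b' ^ 2 + s' ^ 2) + 2 * (n * b' ^ 3 + s' ^ 3) ≤ f)
    (h0 : n * b ≤ c) (h1 : c ≤ (n + 1) * b) :
    n * (n - 1) * b ^ 2 * (3 * c - 2 * ((n + 1) * b)) - (3 - 3 / (n + 1)) * ζ * c ≤ f := by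
  have hn0 : 0 < n := by linarith
  have hn1 : 0 < n + 1 := by linarith
  obtain ⟨s, hs⟩ : ∃ s, c = n * b + s := ⟨c - n * b, by ring⟩
  have hs0 : 0 ≤ s := by linarith
  have hsb : s ≤ b := by linarith
  -- the second moment
  obtain ⟨m, hm⟩ : ∃ m, m = n * b ^ 2 + s ^ 2 + ζ := ⟨_, rfl⟩
  have hem : e = c ^ 2 - m := by
    rw [he, hm, hs]
    ring
  have hl : n * (n - 1) * b ^ 2 * (3 * c - 2 * ((n + 1) * b)) =
      c ^ 3 - 3 * c * (n * b ^ 2 + s ^ 2) + 2 * (n * b ^ 3 + s ^ 3) := by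
    rw [hs]
    ring
  by_cases hcase : n * m ≤ c ^ 2
  · -- a true partition exists
    have hdisc : (n * (b - s)) ^ 2 ≤ n * ((n + 1) * m - c ^ 2) := by
      have : n * ((n + 1) * m - c ^ 2) = (n * (b - s)) ^ 2 + n * (n + 1) * ζ := by
        rw [hm, hs]
        ring
      rw [this]
      have : 0 ≤ n * (n + 1) * ζ := by positivity
      linarith
    have hdisc0 : 0 ≤ n * ((n + 1) * m - c ^ 2) := le_trans (sq_nonneg _) hdisc
    obtain ⟨D, hD⟩ : ∃ D, D = √(n * ((n + 1) * m - c ^ 2)) := ⟨_, rfl⟩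
    have hDsq : D ^ 2 = n * ((n + 1) * m - c ^ 2) := by
      rw [hD]
      exact Real.sq_sqrt hdisc0
    have hDge : n * (b - s) ≤ D := by
      rw [hD]
      exact Real.le_sqrt_of_sq_le hdisc
    have hD0 : 0 ≤ D := by
      rw [hD]
      exact Real.sqrt_nonneg _
    have hDc : D ≤ c := by
      apply le_of_sq_le_sq _ hc.le
      rw [hDsq]
      nlinarith
    obtain ⟨x, hx⟩ : ∃ x, x = (D - n * (b - s)) / (n * (n + 1)) := ⟨_, rfl⟩
    have hx0 : 0 ≤ x := by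
      rw [hx]
      exact div_nonneg (by linarith) (by positivity)
    have hDx : D = n * (b - s) + n * (n + 1) * x := by
      rw [hx]
      field_simp
      ring
    have hs' : n * x ≤ s := by
      have : (n + 1) * (n * x) ≤ (n + 1) * s := by
        have h2 : c = n * b + s := hs
        nlinarith
      exact le_of_mul_le_mul_left this hn1
    have hζx : ζ = n * x * (2 * b - 2 * s + (n + 1) * x) := by
      have h3 : n * (n + 1) * ζ = n * (n + 1) * (n * x * (2 * b - 2 * s + (n + 1) * x)) := by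
        have h4 : (n * (b - s) + n * (n + 1) * x) ^ 2 = n * ((n + 1) * m - c ^ 2) := by
          rw [← hDx, hDsq]
        rw [hm, hs] at h4
        linear_combination -h4
      exact mul_left_cancel₀ (by positivity) h3
    have hRR := hR (b + x) (s - n * x) (by linarith) (by nlinarith) (by rw [hs]; ring)
      (by rw [hem, hm, hζx]; ring)
    have hp := RZ6_parts hn hx0 hs' hsb
    rw [← hζx, ← hs] at hp
    rw [hl]
    have hq : n * (b + x) ^ 2 + (s - n * x) ^ 2 = n * b ^ 2 + s ^ 2 + ζ := by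
      rw [hζx]
      ring
    rw [hq] at hRR
    have h5 : 3 / (n + 1) * c * ζ = 3 / (n + 1) * ζ * c := by ring
    rw [h5] at hp
    nlinarith
  · -- beyond the last partition
    rw [not_le] at hcase
    refine le_of_mul_le_mul_left (le_trans ?_ hG) hc
    have hp := RZ6_parts (n := n) (b := b) (s := s) (x := s / n) hn (by positivity)
      (by field_simp; exact le_rfl) hsb
    have e1 : s - n * (s / n) = 0 := by
      field_simp
      ring
    rw [e1, ← hs] at hp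
    -- the value at the last partition
    have hm1 : n * (s / n) * (2 * b - 2 * s + (n + 1) * (s / n)) =
        c ^ 2 / n - (n * b ^ 2 + s ^ 2) := by
      rw [hs]
      field_simp
      ring
    rw [hm1] at hp
    have hb3 : 2 * (n * ((b + s / n) ^ 3 - b ^ 3) - (s ^ 3 - 0 ^ 3)) =
        2 * (c ^ 3 / n ^ 2) - 2 * (n * b ^ 3 + s ^ 3) := by
      rw [hs]
      field_simp
      ring
    rw [hb3] at hp
    have hΔ : 0 ≤ m - c ^ 2 / n := by
      rw [sub_nonneg, div_le_iff₀ hn0]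
      linarith
    have hcoef : 0 ≤ 4 / n - 3 / (n + 1) := by
      rw [sub_nonneg, div_le_div_iff₀ hn1 hn0]
      linarith
    have hid : e * (2 * e - c ^ 2) =
        c * (c ^ 3 - 3 * c * (c ^ 2 / n) + 2 * (c ^ 3 / n ^ 2)) +
          c ^ 2 * (-3 + 4 / n) * (m - c ^ 2 / n) + 2 * (m - c ^ 2 / n) ^ 2 := by
      rw [hem]
      field_simp
      ring
    rw [hid, hl]
    have hζm : ζ = (m - c ^ 2 / n) + (c ^ 2 / n - (n * b ^ 2 + s ^ 2)) := by
      rw [hm]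
      ring
    rw [hζm]
    generalize m - c ^ 2 / n = Δ at hΔ ⊢
    have h6 : 0 ≤ c * (2 * (c ^ 3 / n ^ 2) - 2 * (n * b ^ 3 + s ^ 3) -
        3 / (n + 1) * c * (c ^ 2 / n - (n * b ^ 2 + s ^ 2))) :=
      mul_nonneg hc.le (by linarith)
    have h7 : 0 ≤ c ^ 2 * Δ * (4 / n - 3 / (n + 1)) := by positivity
    have h8 : c * (c ^ 3 - 3 * c * (c ^ 2 / n) + 2 * (c ^ 3 / n ^ 2)) +
          c ^ 2 * (-3 + 4 / n) * Δ + 2 * Δ ^ 2 -
        c * (c ^ 3 - 3 * c * (n * b ^ 2 + s ^ 2) + 2 * (n * b ^ 3 + s ^ 3) -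
          (3 - 3 / (n + 1)) * (Δ + (c ^ 2 / n - (n * b ^ 2 + s ^ 2))) * c) =
        c * (2 * (c ^ 3 / n ^ 2) - 2 * (n * b ^ 3 + s ^ 3) -
        3 / (n + 1) * c * (c ^ 2 / n - (n * b ^ 2 + s ^ 2))) +
        c ^ 2 * Δ * (4 / n - 3 / (n + 1)) + 2 * Δ ^ 2 := by
      ring
    nlinarith [sq_nonneg Δ]

theorem link_real (k b ζ c e f : ℝ) (hk : 3 ≤ k) (hb : 0 < b) (hζ : 0 < ζ) (hc : 0 < c)
    (he : e = 2 * ((k - 1) * b) * c - (k * (k - 1) * b ^ 2 + ζ))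
    (hec : e ≤ (k - 1) * b * c)
    (hG : e * (2 * e - c ^ 2) ≤ c * f)
    (hR : ∀ b' s' : ℝ, 0 ≤ s' → s' ≤ b' → c = (k - 1) * b' + s' →
      e = c ^ 2 - ((k - 1) * b' ^ 2 + s' ^ 2) →
      c ^ 3 - 3 * c * ((k - 1) * b' ^ 2 + s' ^ 2) + 2 * ((k - 1) * b' ^ 3 + s' ^ 3) ≤ f) :
    (k - 1) * (k - 2) * b ^ 2 * (3 * c - 2 * (k * b)) - (3 - 3 / k) * ζ * c ≤ f := by
  obtain ⟨n, rfl⟩ : ∃ n, k = n + 1 := ⟨k - 1, by ring⟩
  have e1 : n + 1 - 1 = n := by ring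
  have e2 : n + 1 - 2 = n - 1 := by ring
  rw [e1] at he hec hR
  rw [e1, e2]
  have hn : 2 ≤ n := by linarith
  rcases le_total c (n * b) with h | h
  · exact RZ6_a hn hb hζ hc he hG h
  · rcases le_total c ((n + 1) * b) with h' | h'
    · exact RZ6_b hn hb hζ hc he hG hR h h'
    · exact RZ6_c hn hb hc he hec hG h'

end Pool.H3F
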