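import Pool.Agent.H3F.RZ5
import Pool.Agent.H3F.RZ6

/-! RZ7: Razborov's triangle density theorem for step kernels. -/

namespace Pool.H3F

open Finset

theorem raz_zero : Raz 0 := by
  intro V _ x W h b s hs hsb hM hE
  have h0 := kT_nonneg h
  have hM' : kM x = s := by rw [hM]; push_cast; ring
  rw [hM']
  push_cast
  have e : s ^ 3 - 3 * s * (0 * b ^ 2 + s ^ 2) + 2 * (0 * b ^ 3 + s ^ 3) = 0 := by ring
  rw [e]
  exact h0

theorem raz_one : Raz 1 := by
  intro V _ x W h b s hs hsb hM hE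
  have h0 := kT_nonneg h
  have hM' : kM x = b + s := by rw [hM]; push_cast; ring
  rw [hM']
  push_cast
  have e : (b + s) ^ 3 - 3 * (b + s) * (1 * b ^ 2 + s ^ 2) + 2 * (1 * b ^ 3 + s ^ 3) = 0 := by ring
  rw [e]
  exact h0

/-- Reduction to mass one. -/
theorem raz_of_mass_one {k : ℕ} (hk : 2 ≤ k)
    (h : ∀ (V : Type) [Fintype V], ∀ z ∈ RzK V k, rzt k (kE z.1 z.2) ≤ kT z.1 z.2) : Raz k := by
  intro V _ x W hker b s hs hsb hM hE
  have hk2 : (2 : ℝ) ≤ (k : ℝ) := by exact_mod_cast hk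
  have hk0 : (0 : ℝ) < (k : ℝ) := by linarith
  have hb : 0 ≤ b := le_trans hs hsb
  have hM0 : 0 ≤ kM x := kM_nonneg hker
  rcases eq_or_lt_of_le hM0 with hz | hpos
  · have hsum : (k : ℝ) * b + s = 0 := by rw [← hM, ← hz]
    have hkb : 0 ≤ (k : ℝ) * b := mul_nonneg hk0.le hb
    have hs0 : s = 0 := by linarith
    have hkb0 : (k : ℝ) * b = 0 := by linarith
    have hb0 : b = 0 := by
      rcases mul_eq_zero.mp hkb0 with h1 | h1
      · exact absurd h1 hk0.ne'
      · exact h1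
    have h0 := kT_nonneg hker
    rw [← hz, hs0, hb0]
    have e : (0 : ℝ) ^ 3 - 3 * 0 * ((k : ℝ) * 0 ^ 2 + 0 ^ 2) + 2 * ((k : ℝ) * 0 ^ 3 + 0 ^ 3) = 0 := by
      ring
    rw [e]
    exact h0
  · set M : ℝ := kM x with hMdef
    have hMne : M ≠ 0 := hpos.ne'
    set r : ℝ := 1 / M with hr
    have hr0 : 0 < r := by rw [hr]; positivity
    have hrM : r * M = 1 := by rw [hr]; field_simp
    have hker' : IsKer (fun i => r * x i) W := hker.smul hr0.le
    have hM1 : kM (fun i => r * x i) = 1 := by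
      rw [kM_smul, ← hMdef, hrM]
    have hsum : (k : ℝ) * (r * b) + r * s = 1 := by
      have : (k : ℝ) * (r * b) + r * s = r * (k * b + s) := by ring
      rw [this, ← hM, hrM]
    have hE1 : kE (fun i => r * x i) W = 1 - ((k : ℝ) * (r * b) ^ 2 + (r * s) ^ 2) := by
      rw [kE_smul, hE]
      have : r ^ 2 * (M ^ 2 - ((k : ℝ) * b ^ 2 + s ^ 2)) =
          (r * M) ^ 2 - ((k : ℝ) * (r * b) ^ 2 + (r * s) ^ 2) := by ring
      rw [this, hrM]
      ring
    have hs' : 0 ≤ r * s := mul_nonneg hr0.le hs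
    have hsb' : r * s ≤ r * b := mul_le_mul_of_nonneg_left hsb hr0.le
    have hrange := rz_range hk0 hs' hsb' hsum
    have huniq := rz_unique hk0 hsb' hsum
    have hmem : ((fun i => r * x i, W) : (V → ℝ) × (V → V → ℝ)) ∈ RzK V k := by
      refine ⟨hker', hM1, ?_, ?_⟩
      · show 1 / ((k : ℝ) + 1) ≤ 1 - kE (fun i => r * x i) W
        rw [hE1]
        linarith [hrange.1]
      · show 1 - kE (fun i => r * x i) W ≤ 1 / (k : ℝ)
        rw [hE1]
        linarith [hrange.2]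
    have hmain := h V _ hmem
    have hmain' : rzt k (kE (fun i => r * x i) W) ≤ kT (fun i => r * x i) W := hmain
    rw [hE1, kT_smul] at hmain'
    unfold rzt at hmain'
    rw [huniq.1, huniq.2] at hmain'
    have hM3 : 0 ≤ M ^ 3 := by positivity
    have key := mul_le_mul_of_nonneg_left hmain' hM3
    have e1 : M ^ 3 * (r ^ 3 * kT x W) = (r * M) ^ 3 * kT x W := by ring
    have e2 : M ^ 3 * (1 - 3 * (1 - (1 - ((k : ℝ) * (r * b) ^ 2 + (r * s) ^ 2))) +
        2 * ((k : ℝ) * (r * b) ^ 3 + (r * s) ^ 3)) =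
        M ^ 3 - 3 * M * (r * M) ^ 2 * ((k : ℝ) * b ^ 2 + s ^ 2) +
          2 * (r * M) ^ 3 * ((k : ℝ) * b ^ 3 + s ^ 3) := by ring
    rw [e1, e2, hrM] at key
    have e3 : M ^ 3 - 3 * M * (1 : ℝ) ^ 2 * ((k : ℝ) * b ^ 2 + s ^ 2) +
          2 * (1 : ℝ) ^ 3 * ((k : ℝ) * b ^ 3 + s ^ 3) =
        M ^ 3 - 3 * M * ((k : ℝ) * b ^ 2 + s ^ 2) + 2 * ((k : ℝ) * b ^ 3 + s ^ 3) := by ring
    rw [e3] at key
    have e4 : (1 : ℝ) ^ 3 * kT x W = kT x W := by ring
    rw [e4] at key
    exact key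

/-- The sum over the vertices of an inequality valid at the vertices of positive weight. -/
private theorem rz7_sum_le {V : Type} [Fintype V] {x : V → ℝ} (hx : ∀ i, 0 ≤ x i) {p q : V → ℝ}
    (h : ∀ i, 0 < x i → p i ≤ q i) : ∑ i, x i * p i ≤ ∑ i, x i * q i := by
  refine Finset.sum_le_sum fun i _ => ?_
  rcases eq_or_lt_of_le (hx i) with h0 | h0
  · rw [← h0]; simp
  · exact mul_le_mul_of_nonneg_left (h i h0) h0.le

private theorem rz7_sum_eq {V : Type} [Fintype V] {x : V → ℝ} (hx : ∀ i, 0 ≤ x i) {p q : V → ℝ}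
    (h : ∀ i, 0 < x i → p i = q i) : ∑ i, x i * p i = ∑ i, x i * q i :=
  le_antisymm (rz7_sum_le hx fun i hi => (h i hi).le) (rz7_sum_le hx fun i hi => (h i hi).ge)

/-- The final numerical contradiction. -/
private theorem rz7_final {K b s ζ g t Q nu F : ℝ} (hK : 2 ≤ K) (hζ : 0 < ζ) (hs : 0 < s)
    (hsb : s < b) (hsum : K * b + s = 1) (hg : g = 1 - (K * b ^ 2 + s ^ 2))
    (ht : t = 1 - 3 * (K * b ^ 2 + s ^ 2) + 2 * (K * b ^ 3 + s ^ 3) - ζ)
    (hnu : nu = K * (K - 1) * b ^ 2 + ζ)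
    (hF1 : (K - 1) * (K - 2) * b ^ 2 * (3 * g - 2 * (K * b)) - (3 - 3 / K) * ζ * g ≤ F)
    (hF2 : F ≤ 3 * (2 * ((K - 1) * b) * Q - nu * g) - 2 * t +
      3 * ((K - 1) * b * (g - 2 * Q + t))) : False := by
  have hK0 : 0 < K := by linarith
  have hs' : s = 1 - K * b := by linarith
  have hb : 0 < b := by linarith
  have hgK : g / K = 2 * b - (K + 1) * b ^ 2 := by
    rw [hg, hs']
    field_simp
    ring
  have hg' : g = 2 * K * b - K * (K + 1) * b ^ 2 := by
    rw [hg, hs']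
    ring
  have e1 : (3 - 3 / K) * ζ * g = ζ * (3 * g - 3 * (g / K)) := by ring
  rw [e1, hgK, hg'] at hF1
  rw [hnu, ht, hg', hs'] at hF2
  have h1 : ζ * (3 * (K + 1) * b * (1 - b) - 2) ≤ 0 := by
    have := le_trans hF1 hF2
    nlinarith [this]
  have hb1 : 1 < (K + 1) * b := by linarith
  have hb2 : K * b < 1 := by linarith
  have h2 : 0 < 3 * (K + 1) * b * (1 - b) - 2 := by
    have h3 : 0 < ((K + 1) * b - 1) := by linarith
    have hbhalf : 2 * b < 1 := by nlinarith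
    have h4 : 1 - b > 1 / 2 := by linarith
    have h5 : 0 < 3 * ((K + 1) * b - 1) * (1 - b) := by positivity
    -- 3 (K+1) b (1-b) - 2 = 3((K+1)b-1)(1-b) + 3(1-b) - 2
    nlinarith [h5, h3, hb2, hb1]
  have h6 : 0 < ζ * (3 * (K + 1) * b * (1 - b) - 2) := mul_pos hζ h2
  linarith

theorem raz_step {k : ℕ} (hk : 2 ≤ k) (ih : Raz (k - 1)) : Raz k := by
  refine raz_of_mass_one hk ?_
  intro V _ z0 hz0
  by_contra hcon
  have hlt0 := not_le.mp hcon
  have hk2 : (2 : ℝ) ≤ (k : ℝ) := by exact_mod_cast hk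
  obtain ⟨z, hz, hlt, hmin⟩ := rz_exists_min V hk2 ⟨z0, hz0, hlt0⟩
  obtain ⟨x, W⟩ := z
  have hz' : IsKer x W ∧ kM x = 1 ∧ 1 / ((k : ℝ) + 1) ≤ 1 - kE x W ∧ 1 - kE x W ≤ 1 / (k : ℝ) := hz
  have hker : IsKer x W := hz'.1
  have hM1 : kM x = 1 := hz'.2.1
  obtain ⟨b, s, ζ, hζ, hs, hsb, hsum, hE, hT, hlin, hle, hY⟩ := rz_kkt hk2 hz hlt hmin
  set K : ℝ := (k : ℝ) with hKdef
  have hb : 0 < b := by linarith
  have hc0 : 0 < (K - 1) * b := by
    have : 0 < K - 1 := by linarith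
    positivity
  have hx : ∀ i, 0 ≤ x i := hker.wt
  set nu : ℝ := K * (K - 1) * b ^ 2 + ζ with hnu
  have hnu0 : 0 < nu := by
    have : 0 < K - 1 := by linarith
    have h2 : 0 ≤ K * (K - 1) * b ^ 2 := by positivity
    linarith
  -- vertices of positive weight
  have hcpos : ∀ i, 0 < x i → 0 < kc x W i := by
    intro i hi
    have h1 := hlin i hi
    have h2 := kt_nonneg hker i
    have h3 : 0 < 2 * ((K - 1) * b) * kc x W i := by linarith
    by_contra hneg
    have hneg' := not_lt.mp hneg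
    have : 2 * ((K - 1) * b) * kc x W i ≤ 0 :=
      mul_nonpos_of_nonneg_of_nonpos (by linarith) hneg'
    linarith
  have hvert : ∀ i, 0 < x i →
      (K - 1) * (K - 2) * b ^ 2 * (3 * kc x W i - 2 * (K * b)) - (3 - 3 / K) * ζ * kc x W i ≤
        kf x W i := by
    intro i hi
    obtain ⟨hlk, hlM, hlE, hlT⟩ := link hker i
    have hci := hcpos i hi
    have hf0 : 0 ≤ kf x W i := by
      rw [← hlT]
      exact kT_nonneg hlk
    rcases Nat.lt_or_ge k 3 with h3 | h3
    · have hk' : k = 2 := by omega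
      have hK2 : K = 2 := by rw [hKdef, hk']; norm_num
      rw [hK2]
      have : (0 : ℝ) ≤ (3 - 3 / 2) * ζ * kc x W i := by positivity
      have e : (2 - 1 : ℝ) * (2 - 2) * b ^ 2 * (3 * kc x W i - 2 * (2 * b)) = 0 := by ring
      rw [e]
      linarith
    · have hK3 : (3 : ℝ) ≤ K := by rw [hKdef]; exact_mod_cast h3
      refine link_real K b ζ (kc x W i) (kt x W i) (kf x W i) hK3 hb hζ hci (hlin i hi) (hle i hi)
        ?_ ?_
      · have hg := goodman hlk
        rw [hlM, hlE, hlT] at hg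
        exact hg
      · intro b' s' hs0 hsb' hcc hee
        have hcast : ((k - 1 : ℕ) : ℝ) = K - 1 := by
          rw [Nat.cast_sub (by omega)]
          simp [hKdef]
        have hR := ih V (fun j => x j * W i j) W hlk b' s' hs0 hsb' (by rw [hlM, hcast]; exact hcc)
          (by rw [hlM, hlE, hcast]; exact hee)
        rw [hlM, hlT, hcast] at hR
        exact hR
  -- lower bound for the complete graphs on four vertices
  have hF1 : (K - 1) * (K - 2) * b ^ 2 * (3 * kE x W - 2 * (K * b)) - (3 - 3 / K) * ζ * kE x W ≤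
      kF x W := by
    have h1 := rz7_sum_le hx hvert
    rw [← kF_eq] at h1
    refine le_trans (le_of_eq ?_) h1
    have hM1' : ∑ i, x i = 1 := hM1
    have e : ∀ i, x i * ((K - 1) * (K - 2) * b ^ 2 * (3 * kc x W i - 2 * (K * b)) -
        (3 - 3 / K) * ζ * kc x W i) =
        ((K - 1) * (K - 2) * b ^ 2 * 3 - (3 - 3 / K) * ζ) * (x i * kc x W i) -
          ((K - 1) * (K - 2) * b ^ 2 * (2 * (K * b))) * x i := fun i => by ring
    rw [Finset.sum_congr rfl fun i _ => e i, Finset.sum_sub_distrib, ← Finset.mul_sum,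
      ← Finset.mul_sum, ← kE_eq, hM1']
    ring
  -- upper bound
  have hS1 : ∑ i, x i * (kc x W i * kt x W i) =
      2 * ((K - 1) * b) * (∑ i, x i * kc x W i ^ 2) - nu * kE x W := by
    have h1 : ∑ i, x i * (kc x W i * kt x W i) =
        ∑ i, x i * (kc x W i * (2 * ((K - 1) * b) * kc x W i - nu)) := by
      refine rz7_sum_eq hx fun i hi => ?_
      rw [hlin i hi]
    have e : ∀ i, x i * (kc x W i * (2 * ((K - 1) * b) * kc x W i - nu)) =
        2 * ((K - 1) * b) * (x i * kc x W i ^ 2) - nu * (x i * kc x W i) := fun i => by ring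
    rw [h1, Finset.sum_congr rfl fun i _ => e i, Finset.sum_sub_distrib, ← Finset.mul_sum,
      ← Finset.mul_sum, ← kE_eq]
  have hF2 : kF x W ≤ 3 * (2 * ((K - 1) * b) * (∑ i, x i * kc x W i ^ 2) - nu * kE x W) -
      2 * kT x W + 3 * ((K - 1) * b * (kE x W - 2 * (∑ i, x i * kc x W i ^ 2) + kT x W)) := by
    have h1 := kF_le hM1 hker
    rw [hS1] at h1
    rw [kP_eq hker] at hY
    linarith
  exact rz7_final hk2 hζ hs hsb hsum hE hT hnu hF1 hF2

theorem raz (k : ℕ) : Raz k := by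
  induction k with
  | zero => exact raz_zero
  | succ n ihn =>
    rcases Nat.lt_or_ge (n + 1) 2 with h | h
    · have : n = 0 := by omega
      subst this
      exact raz_one
    · exact raz_step h (by simpa using ihn)

end Pool.H3F
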