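import Mathlib

/-! Step kernels (weighted graphs with edge weights in `[0,1]`, loops allowed) and their densities.
Used for the triangle density theorem of Razborov. -/

namespace Pool.H3F

open Finset

section

variable {V : Type} [Fintype V]

/-- A symmetric step kernel `W` with values in `[0,1]` and nonnegative weights `x`. -/
structure IsKer (x : V → ℝ) (W : V → V → ℝ) : Prop where
  sym : ∀ i j, W i j = W j i
  nn : ∀ i j, 0 ≤ W i j
  le : ∀ i j, W i j ≤ 1
  wt : ∀ i, 0 ≤ x i

/-- Total mass. -/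
def kM (x : V → ℝ) : ℝ := ∑ i, x i

/-- Edge mass. -/
def kE (x : V → ℝ) (W : V → V → ℝ) : ℝ := ∑ i, ∑ j, x i * x j * W i j

/-- Triangle mass. -/
def kT (x : V → ℝ) (W : V → V → ℝ) : ℝ :=
  ∑ i, ∑ j, ∑ k, x i * x j * x k * (W i j * W j k * W i k)

/-- Mass of the complete graphs on four vertices. -/
def kF (x : V → ℝ) (W : V → V → ℝ) : ℝ :=
  ∑ i, ∑ j, ∑ k, ∑ l, x i * x j * x k * x l *
    (W i j * W i k * W i l * (W j k * W j l * W k l))

/-- Degree. -/
def kc (x : V → ℝ) (W : V → V → ℝ) (i : V) : ℝ := ∑ j, x j * W i j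

/-- Triangle mass at a vertex. -/
def kt (x : V → ℝ) (W : V → V → ℝ) (i : V) : ℝ :=
  ∑ j, ∑ k, x j * x k * (W i j * W i k * W j k)

/-- Codegree. -/
def kd (x : V → ℝ) (W : V → V → ℝ) (i j : V) : ℝ := ∑ k, x k * (W i k * W j k)

/-- Mass of the complete graphs on four vertices at a vertex. -/
def kf (x : V → ℝ) (W : V → V → ℝ) (i : V) : ℝ :=
  ∑ j, ∑ k, ∑ l, x j * x k * x l * (W i j * W i k * W i l * (W j k * W j l * W k l))

/-- Mass of the common non-neighbours when the total mass is one. -/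
def kn (x : V → ℝ) (W : V → V → ℝ) (i j : V) : ℝ :=
  1 - kc x W i - kc x W j + kd x W i j

/-- Triangles `i j k` together with a common non-neighbour of `i` and `j`. -/
def kY (x : V → ℝ) (W : V → V → ℝ) : ℝ :=
  ∑ i, ∑ j, x i * x j * (W i j * kn x W i j * kd x W i j)

/-- Edges `i j` together with a common non-neighbour of `i` and `j`. -/
def kP (x : V → ℝ) (W : V → V → ℝ) : ℝ := ∑ i, ∑ j, x i * x j * (W i j * kn x W i j)

end

/-- Razborov's bound on the scallop `k`: the extremal graph has `k` parts of mass `b` and one part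
of mass `s`. -/
def Raz (k : ℕ) : Prop :=
  ∀ (V : Type) [Fintype V] (x : V → ℝ) (W : V → V → ℝ), IsKer x W → ∀ b s : ℝ, 0 ≤ s → s ≤ b →
    kM x = k * b + s → kE x W = (kM x) ^ 2 - (k * b ^ 2 + s ^ 2) →
    (kM x) ^ 3 - 3 * kM x * (k * b ^ 2 + s ^ 2) + 2 * (k * b ^ 3 + s ^ 3) ≤ kT x W

/-- The part of mass `b` as a function of the edge density. -/
noncomputable def rzb (k : ℝ) (g : ℝ) : ℝ :=
  (k + √(k * ((k + 1) * (1 - g) - 1))) / (k * (k + 1))

/-- The small part as a function of the edge density. -/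
noncomputable def rzs (k : ℝ) (g : ℝ) : ℝ := (1 - √(k * ((k + 1) * (1 - g) - 1))) / (k + 1)

/-- The extremal triangle density as a function of the edge density. -/
noncomputable def rzt (k : ℝ) (g : ℝ) : ℝ :=
  1 - 3 * (1 - g) + 2 * (k * rzb k g ^ 3 + rzs k g ^ 3)

end Pool.H3F
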