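import Pool.Agent.H3F.Idx

/-! Distance to the base face in the dual graph. -/

namespace Pool.H3F

open Finset

namespace RankAux

variable {n : ℕ} (S : Shadow n)

/-- the dual graph -/
def G : SimpleGraph (Fin (n + 2)) where
  Adj f g := f ≠ g ∧ ∃ j, (S.L j = f ∧ S.R j = g) ∨ (S.L j = g ∧ S.R j = f)
  symm := ⟨by
    rintro f g ⟨h, j, hj⟩
    exact ⟨h.symm, j, hj.symm⟩⟩
  loopless := ⟨fun f h => h.1 rfl⟩

theorem conn [NeZero n] : (G S).Connected := by
  have h1 : ∀ j, (G S).connectedComponentMk (S.L j) = (G S).connectedComponentMk (S.R j) := by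
    intro j
    rw [SimpleGraph.ConnectedComponent.eq]
    by_cases h : S.L j = S.R j
    · rw [h]
    · exact SimpleGraph.Adj.reachable ⟨h, j, Or.inl ⟨rfl, rfl⟩⟩
  have h2 : (G S).Preconnected := fun f g => by
    have := S.const_of_edges (fun f => (G S).connectedComponentMk f) h1 f g
    exact SimpleGraph.ConnectedComponent.eq.1 this
  exact { preconnected := h2, nonempty := ⟨0⟩ }

theorem lip [NeZero n] (b f g : Fin (n + 2)) (h : f = g ∨ (G S).Adj f g) :
    (G S).dist b f ≤ (G S).dist b g + 1 := by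
  rcases h with h | h
  · rw [h]; exact Nat.le_succ _
  · have h1 := (conn S).dist_triangle (u := b) (v := g) (w := f)
    have h2 : (G S).dist g f = 1 := SimpleGraph.dist_eq_one_iff_adj.2 h.symm
    omega

end RankAux

open RankAux

namespace Shadow

variable {n : ℕ} (S : Shadow n)

theorem exists_rank [NeZero n] : ∃ d : Fin (n + 2) → ℕ, S.IsRank d := by
  have hedge : ∀ j, S.L j = S.R j ∨ (G S).Adj (S.L j) (S.R j) := by
    intro j
    by_cases h : S.L j = S.R j
    · exact Or.inl h
    · exact Or.inr ⟨h, j, Or.inl ⟨rfl, rfl⟩⟩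
  refine ⟨fun f => (G S).dist (S.L (-1)) f, fun f => ?_, fun j => ?_, fun j => ?_, fun f hf => ?_⟩
  · rw [(conn S).dist_eq_zero_iff, eq_comm]
  · exact lip S _ _ _ (hedge j)
  · exact lip S _ _ _ ((hedge j).imp Eq.symm fun h => h.symm)
  · obtain ⟨p, hp⟩ := ((conn S).preconnected f (S.L (-1))).exists_walk_length_eq_dist
    have hf' : (G S).dist (S.L (-1)) f ≠ 0 := hf
    cases p with
    | nil =>
      exfalso
      rw [SimpleGraph.dist_self] at hf'
      exact hf' rfl
    | @cons _ g _ h q =>
      rw [SimpleGraph.Walk.length_cons, SimpleGraph.dist_comm] at hp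
      have h1 : (G S).dist (S.L (-1)) g ≤ q.length := by
        rw [SimpleGraph.dist_comm]; exact SimpleGraph.dist_le q
      have h2 := lip S (S.L (-1)) f g (Or.inr h)
      obtain ⟨_, j, hj⟩ := h
      refine ⟨j, ?_⟩
      rcases hj with ⟨h3, h4⟩ | ⟨h3, h4⟩
      · left
        refine ⟨h3, ?_⟩
        show (G S).dist (S.L (-1)) (S.R j) + 1 = (G S).dist (S.L (-1)) f
        rw [h4]
        omega
      · right
        refine ⟨h4, ?_⟩
        show (G S).dist (S.L (-1)) (S.L j) + 1 = (G S).dist (S.L (-1)) f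
        rw [h3]
        omega

variable {S}

theorem IsRank.le {d : Fin (n + 2) → ℕ} (h : S.IsRank d) (f : Fin (n + 2)) : d f ≤ n + 1 := by
  have key : ∀ m : ℕ, ∀ f, d f = m → ∀ k ≤ m, ∃ g, d g = k := by
    intro m
    induction m with
    | zero =>
      intro f hf k hk
      exact ⟨f, by omega⟩
    | succ m ih =>
      intro f hf k hk
      rcases Nat.lt_or_ge m k with h1 | h1
      · exact ⟨f, by omega⟩
      · obtain ⟨j, h2 | h2⟩ := h.desc f (by omega)
        · exact ih (S.R j) (by omega) k h1
        · exact ih (S.L j) (by omega) k h1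
  have h1 : Finset.range (d f + 1) ⊆ Finset.univ.image d := by
    intro k hk
    obtain ⟨g, hg⟩ := key (d f) f rfl k (by have := Finset.mem_range.1 hk; omega)
    exact Finset.mem_image.2 ⟨g, Finset.mem_univ _, hg⟩
  have h2 := (Finset.card_le_card h1).trans Finset.card_image_le
  rw [Finset.card_range, Finset.card_univ, Fintype.card_fin] at h2
  omega

theorem sum_lev [NeZero n] (d : Fin (n + 2) → ℕ) (K : ℕ) :
    ∑ k ∈ range K, S.lev d k ≤ 2 * n := by
  classical
  have h1 : ∀ k, S.lev d k = (Finset.univ.filter (fun j : ZMod (2 * n) =>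
      (d (S.L j) = k ∧ d (S.R j) = k + 1) ∨ (d (S.L j) = k + 1 ∧ d (S.R j) = k))).card := by
    intro k
    unfold lev
    rw [← Set.ncard_coe_finset]
    congr 1
    ext j
    simp
  simp only [h1]
  rw [← Finset.card_biUnion]
  · refine (Finset.card_le_univ _).trans ?_
    rw [ZMod.card]
  · intro k _ l _ hkl
    show Disjoint _ _
    rw [Finset.disjoint_left]
    intro j h2 h3
    rw [Finset.mem_filter] at h2 h3
    apply hkl
    omega

end Shadow

end Pool.H3F
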