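import Pool.Agent.H3F.Bdw

/-! Two arcs of the curve meet algebraically a bounded number of times inside a component with
short boundary. -/

namespace Pool.H3F

open Finset

namespace SbAux

open Shadow

variable {n : ℕ} {S : Shadow n}

open Classical in
theorem sum_ncard [NeZero n] (V : Set (ZMod (2 * n))) (a : ℤ) [Fintype (ZMod (2 * n))] :
    (∑ t : ZMod (2 * n), if t ∈ V then a else 0) = V.ncard * a := by
  rw [← Finset.sum_filter, Finset.sum_const, nsmul_eq_mul]
  congr 2
  rw [← Set.ncard_coe_finset]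
  congr 1
  ext x
  simp

/-- The involution as an equivalence. -/
def starE (S : Shadow n) : ZMod (2 * n) ≃ ZMod (2 * n) where
  toFun := S.star
  invFun := S.star
  left_inv := S.star_star
  right_inv := S.star_star

theorem sum_star [Fintype (ZMod (2 * n))] (S : Shadow n) (f : ZMod (2 * n) → ℤ) :
    ∑ t, f (S.star t) = ∑ t, f t :=
  Equiv.sum_comp (starE S) f

theorem sum_shift [Fintype (ZMod (2 * n))] (f : ZMod (2 * n) → ℤ) :
    ∑ t, f (t - 1) = ∑ t, f t :=
  Equiv.sum_comp (Equiv.subRight (1 : ZMod (2 * n))) f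

theorem sum_nat [NeZero n] [Fintype (ZMod (2 * n))] (f : ZMod (2 * n) → ℤ) :
    ∑ p ∈ range (2 * n), f (p : ZMod (2 * n)) = ∑ t, f t := by
  have : NeZero (2 * n) := ⟨by have := NeZero.ne n; omega⟩
  refine Finset.sum_nbij' (fun p => (p : ZMod (2 * n))) (fun t => t.val) ?_ ?_ ?_ ?_ ?_
  · intro a _
    exact mem_univ _
  · intro a _
    exact mem_range.2 (ZMod.val_lt a)
  · intro a ha
    exact ZMod.val_natCast_of_lt (mem_range.1 ha)
  · intro a _
    exact ZMod.natCast_zmod_val a
  · intro a _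
    rfl

theorem val_ne [NeZero n] (S : Shadow n) (t : ZMod (2 * n)) : t.val ≠ (S.star t).val := by
  have : NeZero (2 * n) := ⟨by have := NeZero.ne n; omega⟩
  intro h
  exact S.star_ne t (ZMod.val_injective _ h).symm

/-- Divergence. -/
def dv (S : Shadow n) (ρ : ZMod (2 * n) → ℤ) (t : ZMod (2 * n)) : ℤ :=
  ρ t + ρ (S.star t) - ρ (t - 1) - ρ (S.star t - 1)

open Classical in
theorem half_sum [NeZero n] [Fintype (ZMod (2 * n))] (g : ZMod (2 * n) → ℤ)
    (hs : ∀ t, g (S.star t) = g t) (h0 : ∑ t, g t = 0) :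
    (∑ t, if t.val < (S.star t).val then g t else 0) = 0 := by
  have h1 : ∑ t, g t = (∑ t, if t.val < (S.star t).val then g t else 0) +
      ∑ t, if (S.star t).val < t.val then g t else 0 := by
    rw [← Finset.sum_add_distrib]
    refine Finset.sum_congr rfl fun t _ => ?_
    have := val_ne S t
    split_ifs <;> omega
  have h2 : (∑ t, if (S.star t).val < t.val then g t else 0) =
      ∑ t, if t.val < (S.star t).val then g t else 0 := by
    rw [← sum_star S]
    refine Finset.sum_congr rfl fun t _ => ?_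
    rw [S.star_star, hs]
  rw [h2] at h1
  omega

open Classical in
theorem pick [NeZero n] [Fintype (ZMod (2 * n))] (g : ZMod (2 * n) → ℤ)
    (hs : ∀ t, g (S.star t) = g t) (s : ZMod (2 * n)) :
    (∑ t, if t.val < (S.star t).val then
      g t * (if s = t ∨ s = S.star t then 1 else 0) else 0) = g s := by
  rcases lt_or_gt_of_ne (val_ne S s) with h | h
  · rw [Finset.sum_eq_single s]
    · simp [h]
    · intro t _ hts
      split_ifs with h1 h2
      · rcases h2 with h2 | h2
        · exact absurd h2.symm hts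
        · rw [h2, S.star_star] at h
          omega
      · simp
      · rfl
    · intro h1
      exact absurd (mem_univ _) h1
  · rw [Finset.sum_eq_single (S.star s)]
    · rw [S.star_star, if_pos h, hs]
      simp
    · intro t _ hts
      split_ifs with h1 h2
      · rcases h2 with h2 | h2
        · rw [h2] at h
          omega
        · rw [h2, S.star_star] at hts
          exact absurd rfl hts
      · simp
      · rfl
    · intro h1
      exact absurd (mem_univ _) h1

open Classical in
theorem flow_exists [NeZero n] [Fintype (ZMod (2 * n))] {d : Fin (n + 2) → ℕ}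
    (h : S.IsRank d) (k : ℕ) (f : Fin (n + 2))
    (hk : k < d f) (C : ℕ) (hC : (S.bd (S.comp d k f)).ncard ≤ C) (g : ZMod (2 * n) → ℤ)
    (hs : ∀ t, g (S.star t) = g t) (h0 : ∀ t, t ∉ S.bv (S.comp d k f) → g t = 0)
    (h2 : ∀ t, |g t| ≤ 2) (hsum : ∑ t, g t = 0) :
    ∃ ρ : ZMod (2 * n) → ℤ, (∀ t, ρ t ≠ 0 → t ∈ S.bd (S.comp d k f)) ∧
      (∀ t, |ρ t| ≤ 32 * (C : ℤ) ^ 2) ∧ ∀ t, dv S ρ t = -g t := by
  obtain ⟨i0', hi0'⟩ := h.bd_nonempty hk
  have hi0 := (bd_bv (S := S) _ _ hi0').1
  generalize hi0e : i0' = i0 at hi0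
  have hex : ∀ t, ∃ ρ : ZMod (2 * n) → ℤ, (∀ s, ρ s ≠ 0 → s ∈ S.bd (S.comp d k f)) ∧
      (∀ s, |ρ s| ≤ 4 * (C : ℤ)) ∧ (t ∈ S.bv (S.comp d k f) → ∀ s, dv S ρ s =
        (if s = t ∨ s = S.star t then 1 else 0) - (if s = i0 ∨ s = S.star i0 then 1 else 0)) := by
    intro t
    by_cases ht : t ∈ S.bv (S.comp d k f)
    · obtain ⟨N, hN, hw⟩ := h.bwalk hk t i0 ht hi0
      obtain ⟨ρ, h3, h4, h5⟩ := hw.flow
      refine ⟨ρ, h3, fun s => (h4 s).trans ?_, fun _ s => ?_⟩
      · have : N ≤ 4 * C := hN.trans (by omega)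
        exact_mod_cast this
      · exact h5 s
    · refine ⟨fun _ => 0, fun s hs' => absurd rfl hs', fun s => by simp, fun h6 => absurd h6 ht⟩
  choose R hR1 hR2 hR3 using hex
  refine ⟨fun s => -∑ t, if t.val < (S.star t).val then g t * R t s else 0, ?_, ?_, ?_⟩
  · intro s hs'
    by_contra hc
    apply hs'
    rw [neg_eq_zero]
    refine Finset.sum_eq_zero fun t _ => ?_
    have : R t s = 0 := by
      by_contra h7
      exact hc (hR1 t s h7)
    rw [this]
    simp
  · intro s
    rw [abs_neg]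
    refine (Finset.abs_sum_le_sum_abs _ _).trans ?_
    have h8 : ∀ t ∈ (univ : Finset (ZMod (2 * n))),
        |if t.val < (S.star t).val then g t * R t s else 0| ≤
        if t ∈ S.bv (S.comp d k f) then 8 * (C : ℤ) else 0 := by
      intro t _
      split_ifs with h9 h10 h10
      · rw [abs_mul]
        have a1 := h2 t
        have a2 := hR2 t s
        have a3 := abs_nonneg (g t)
        have a4 := abs_nonneg (R t s)
        nlinarith
      · rw [h0 t h10]
        simp
      · simp
      · simp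
    refine (Finset.sum_le_sum h8).trans ?_
    rw [sum_ncard]
    have h11 : (S.bv (S.comp d k f)).ncard ≤ 4 * C := (bv_card _).trans (by omega)
    have h12 : ((S.bv (S.comp d k f)).ncard : ℤ) ≤ 4 * C := by exact_mod_cast h11
    have h13 : (0 : ℤ) ≤ C := by positivity
    nlinarith
  · intro s
    have e1 : dv S (fun s => -∑ t, if t.val < (S.star t).val then g t * R t s else 0) s =
        -∑ t, if t.val < (S.star t).val then g t * dv S (R t) s else 0 := by
      unfold dv
      simp only
      have key : ∀ a b c e : ℤ, -a + -b - -c - -e = -(a + b - c - e) := by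
        intro a b c e; ring
      rw [key, ← Finset.sum_add_distrib, ← Finset.sum_sub_distrib, ← Finset.sum_sub_distrib]
      congr 1
      refine Finset.sum_congr rfl fun t _ => ?_
      split_ifs
      · ring
      · ring
    rw [e1]
    congr 1
    have e2 : (∑ t, if t.val < (S.star t).val then g t * dv S (R t) s else 0) =
        (∑ t, if t.val < (S.star t).val then
          g t * (if s = t ∨ s = S.star t then 1 else 0) else 0) -
        (∑ t, if t.val < (S.star t).val then g t else 0) *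
          (if s = i0 ∨ s = S.star i0 then 1 else 0) := by
      rw [Finset.sum_mul, ← Finset.sum_sub_distrib]
      refine Finset.sum_congr rfl fun t _ => ?_
      by_cases ht : t ∈ S.bv (S.comp d k f)
      · rw [hR3 t ht s]
        by_cases h14 : t.val < (S.star t).val
        · rw [if_pos h14, if_pos h14, if_pos h14]
          ring
        · rw [if_neg h14, if_neg h14, if_neg h14]
          ring
      · rw [h0 t ht]
        simp
    rw [e2, half_sum g hs hsum, pick g hs s]
    ring

theorem dv_star (ρ : ZMod (2 * n) → ℤ) (t : ZMod (2 * n)) : dv S ρ (S.star t) = dv S ρ t := by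
  unfold dv
  rw [S.star_star]
  ring

theorem dv_sum [Fintype (ZMod (2 * n))] (ρ : ZMod (2 * n) → ℤ) : ∑ t, dv S ρ t = 0 := by
  unfold dv
  rw [Finset.sum_sub_distrib, Finset.sum_sub_distrib, Finset.sum_add_distrib, sum_star S ρ,
    sum_star S (fun t => ρ (t - 1)), sum_shift]
  ring

theorem val_sub_one [NeZero n] (t : ZMod (2 * n)) (ht : t ≠ 0) : (t - 1).val + 1 = t.val := by
  have : NeZero (2 * n) := ⟨by have := NeZero.ne n; omega⟩
  have h1 : t.val ≠ 0 := fun h => ht ((ZMod.val_eq_zero t).1 h)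
  have h2 := ZMod.val_lt t
  have h3 : t - 1 = ((t.val - 1 : ℕ) : ZMod (2 * n)) := by
    rw [Nat.cast_sub (by omega), ZMod.natCast_zmod_val, Nat.cast_one]
  rw [h3, ZMod.val_natCast_of_lt (by omega)]
  omega

theorem telescope (G : ZMod (2 * n) → ℤ) (e l : ℕ) (he : e < l) :
    ∑ q ∈ Ico (e + 1) l, (G (q : ZMod (2 * n)) - G ((q : ZMod (2 * n)) - 1)) =
      G ((l : ZMod (2 * n)) - 1) - G (e : ZMod (2 * n)) := by
  induction l, he using Nat.le_induction with
  | base => simp
  | succ l hl ih =>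
    rw [Finset.sum_Ico_succ_top hl, ih]
    have : ((l + 1 : ℕ) : ZMod (2 * n)) - 1 = (l : ZMod (2 * n)) := by push_cast; ring
    rw [this]
    ring

open Classical in
/-- The main estimate: the sum over interior passages. -/
theorem core [NeZero n] [Fintype (ZMod (2 * n))] {d : Fin (n + 2) → ℕ}
    (h : S.IsRank d) (l : ℕ) (hl : l ≤ 2 * n)
    (hcl : d (S.L ((l : ZMod (2 * n)) - 1)) ≤ 2) (k : ℕ) (hk2 : 2 ≤ k) (f : Fin (n + 2))
    (hk : k < d f) (C : ℕ) (hC : (S.bd (S.comp d k f)).ncard ≤ C) (e : ℕ) (he : e < l)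
    (hside : S.L (e : ZMod (2 * n)) ∉ S.comp d k f ∨ S.R (e : ZMod (2 * n)) ∉ S.comp d k f) :
    |∑ t : ZMod (2 * n), if t ∈ S.iv (S.comp d k f) ∧ e < t.val ∧ t.val < l ∧
        (S.star t).val < e then S.tau t else 0| ≤ (1 + 32 * (C : ℤ) ^ 2) * (1 + 16 * C) := by
  have nz : NeZero (2 * n) := ⟨by have := NeZero.ne n; omega⟩
  -- facts about interior passages
  have hiv0 : ∀ t ∈ S.iv (S.comp d k f), t ≠ 0 := by
    rintro t ht rfl
    have h1 := ht.2.2.1
    rw [zero_sub] at h1
    have h2 := h.comp_gt hk h1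
    have h3 := (h.zero (S.L (-1))).2 rfl
    omega
  have hive : ∀ t ∈ S.iv (S.comp d k f), t.val ≠ e := by
    rintro t ht hte
    have h1 : (e : ZMod (2 * n)) = t := by rw [← hte, ZMod.natCast_zmod_val]
    rw [h1] at hside
    rcases hside with h2 | h2
    · exact h2 ht.1
    · exact h2 ht.2.1
  -- the arc
  set zA : ZMod (2 * n) → ℤ := fun t =>
    if t.val < e ∧ S.L t ∈ S.comp d k f ∧ S.R t ∈ S.comp d k f then 1 else 0 with hzA
  have hzA_out : ∀ t, (S.L t ∉ S.comp d k f ∨ S.R t ∉ S.comp d k f) → zA t = 0 := by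
    intro t ht
    simp only [hzA]
    rw [if_neg]
    rintro ⟨_, h1, h2⟩
    rcases ht with ht | ht
    · exact ht h1
    · exact ht h2
  have hzA_iv : ∀ t ∈ S.iv (S.comp d k f), zA t = (if t.val < e then 1 else 0) ∧
      zA (t - 1) = (if t.val < e then 1 else 0) := by
    intro t ht
    have h1 := val_sub_one t (hiv0 t ht)
    have h2 := hive t ht
    constructor
    · simp only [hzA, ht.1, ht.2.1, and_true]
    · simp only [hzA, ht.2.2.1, ht.2.2.2, and_true]
      split_ifs <;> omega
  have hzA01 : ∀ t, 0 ≤ zA t ∧ zA t ≤ 1 := by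
    intro t
    simp only [hzA]
    split_ifs <;> omega
  -- divergence of the arc
  have hdv_iv : ∀ t ∈ S.iv (S.comp d k f), dv S zA t = 0 := by
    intro t ht
    have h1 := hzA_iv t ht
    have h2 := hzA_iv (S.star t) ((iv_star _ _).2 ht)
    unfold dv
    omega
  have hdv0 : ∀ t, t ∉ S.bv (S.comp d k f) → dv S zA t = 0 := by
    intro t ht
    by_cases hiv : t ∈ S.iv (S.comp d k f)
    · exact hdv_iv t hiv
    · have h1 : ¬ (S.L t ∈ S.comp d k f ∨ S.R t ∈ S.comp d k f ∨ S.L (t - 1) ∈ S.comp d k f ∨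
          S.R (t - 1) ∈ S.comp d k f) := by
        intro h2
        exact ht ⟨h2, hiv⟩
      have h2 := (S.corners_star (fun g => g ∈ S.comp d k f) t).1
      have h3 : ¬ (S.L (S.star t) ∈ S.comp d k f ∨ S.R (S.star t) ∈ S.comp d k f ∨
          S.L (S.star t - 1) ∈ S.comp d k f ∨ S.R (S.star t - 1) ∈ S.comp d k f) :=
        fun h4 => h1 (h2.2 h4)
      push Not at h1 h3
      unfold dv
      rw [hzA_out t (Or.inl h1.1), hzA_out _ (Or.inl h3.1), hzA_out _ (Or.inl h1.2.2.1),
        hzA_out _ (Or.inl h3.2.2.1)]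
      rfl
  have hdv2 : ∀ t, |dv S zA t| ≤ 2 := by
    intro t
    have h1 := hzA01 t
    have h2 := hzA01 (S.star t)
    have h3 := hzA01 (t - 1)
    have h4 := hzA01 (S.star t - 1)
    unfold dv
    rw [abs_le]
    constructor <;> omega
  obtain ⟨ρ, hρ1, hρ2, hρ3⟩ := flow_exists h k f hk C hC (dv S zA) (dv_star zA) hdv0 hdv2
    (dv_sum zA)
  -- the circulation
  have hZc : S.Circ (fun t => zA t + ρ t) := by
    intro j
    have h1 := hρ3 j
    unfold dv at h1
    simp only
    linarith
  obtain ⟨J, hJ⟩ := S.exists_index _ hZc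
  set I : Fin (n + 2) → ℤ := fun g => J g - J (S.L (-1)) with hI
  have hIi : S.IsIndex I (fun t => zA t + ρ t) := by
    intro j
    have := hJ j
    simp only [hI]
    simp only at this
    linarith
  have hbase : S.L (-1) ∉ S.comp d k f := by
    intro h1
    have h2 := h.comp_gt hk h1
    have h3 := (h.zero (S.L (-1))).2 rfl
    omega
  have hρ_in : ∀ t, (t ∉ S.bd (S.comp d k f)) → ρ t = 0 := by
    intro t ht
    by_contra h1
    exact ht (hρ1 t h1)
  have hIout : ∀ g, g ∉ S.comp d k f → I g = 0 := by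
    intro g hg
    have h1 := h.compl_const hk I (fun j h2 h3 => by
      have h4 := hIi j
      simp only at h4
      rw [hzA_out j (Or.inl h2), hρ_in j (fun h5 => by
        rcases h5 with h5 | h5
        · exact h2 h5.1
        · exact h3 h5.2)] at h4
      linarith) hg hbase
    rw [h1]
    simp [hI]
  have hC0 : (0 : ℤ) ≤ C := by positivity
  have hZ : ∀ t, |zA t + ρ t| ≤ 1 + 32 * (C : ℤ) ^ 2 := by
    intro t
    have h1 := hzA01 t
    have h2 := abs_le.1 (hρ2 t)
    rw [abs_le]
    constructor <;> linarith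
  have hM0 : (0 : ℤ) ≤ 1 + 32 * (C : ℤ) ^ 2 := by positivity
  have hcor : ∀ t ∈ S.bv (S.comp d k f), ∀ g, (g = S.L t ∨ g = S.R t ∨ g = S.L (t - 1) ∨
      g = S.R (t - 1)) → |I g| ≤ 2 * (1 + 32 * (C : ℤ) ^ 2) := by
    intro t ht g hg
    have h1 : ∃ g', (g' = S.L t ∨ g' = S.R t ∨ g' = S.L (t - 1) ∨
      g' = S.R (t - 1)) ∧ g' ∉ S.comp d k f := by
      by_contra hcon
      push Not at hcon
      refine ht.2 ⟨hcon _ (Or.inl rfl), hcon _ (Or.inr (Or.inl rfl)),
        hcon _ (Or.inr (Or.inr (Or.inl rfl))), hcon _ (Or.inr (Or.inr (Or.inr rfl)))⟩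
    obtain ⟨g', hg', hg'2⟩ := h1
    have h2 := (Path.corners t g' g hg' hg).bound I _ hIi (1 + 32 * (C : ℤ) ^ 2) hM0
      (fun j _ => hZ j)
    rw [hIout g' hg'2, sub_zero] at h2
    exact_mod_cast h2
  -- telescoping
  have htel : (∑ t : ZMod (2 * n), if e < t.val ∧ t.val < l then
      (I (S.L t) - I (S.L (t - 1))) else 0) = I (S.L ((l : ZMod (2 * n)) - 1)) -
        I (S.L (e : ZMod (2 * n))) := by
    rw [← telescope (fun t => I (S.L t)) e l he, ← sum_nat, ← Finset.sum_filter]
    have hrw : ∀ p ∈ range (2 * n), ((p : ZMod (2 * n)).val = p) := fun p hp =>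
      ZMod.val_natCast_of_lt (mem_range.1 hp)
    refine Finset.sum_congr ?_ fun _ _ => rfl
    ext p
    simp only [mem_filter, mem_range, mem_Ico]
    constructor
    · rintro ⟨h1, h2⟩
      rw [hrw p (mem_range.2 h1)] at h2
      omega
    · rintro ⟨h1, h2⟩
      have h3 : p < 2 * n := by omega
      rw [hrw p (mem_range.2 h3)]
      omega
  have hend : I (S.L ((l : ZMod (2 * n)) - 1)) = 0 := by
    apply hIout
    intro h1
    have h2 := h.comp_gt hk h1
    omega
  have hIe : |I (S.L (e : ZMod (2 * n)))| ≤ 1 + 32 * (C : ℤ) ^ 2 := by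
    rcases hside with h1 | h1
    · rw [hIout _ h1]
      simpa using hM0
    · have h2 := hIi (e : ZMod (2 * n))
      rw [hIout _ h1, sub_zero] at h2
      rw [h2]
      exact hZ _
  -- splitting of the telescoping sum
  have hsplit : (∑ t : ZMod (2 * n), if t ∈ S.iv (S.comp d k f) ∧ e < t.val ∧ t.val < l ∧
        (S.star t).val < e then S.tau t else 0) =
      -(∑ t : ZMod (2 * n), if e < t.val ∧ t.val < l then
      (I (S.L t) - I (S.L (t - 1))) else 0) +
      ∑ t : ZMod (2 * n), (if t ∈ S.bv (S.comp d k f) ∧ e < t.val ∧ t.val < l then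
      (I (S.L t) - I (S.L (t - 1))) else 0) := by
    rw [← Finset.sum_neg_distrib, ← Finset.sum_add_distrib]
    refine Finset.sum_congr rfl fun t _ => ?_
    by_cases hr : e < t.val ∧ t.val < l
    · by_cases hbv : t ∈ S.bv (S.comp d k f)
      · have hni : t ∉ S.iv (S.comp d k f) := hbv.2
        simp only [hni, hr, hbv, false_and, if_false, and_self, if_true]
        ring
      · by_cases hiv : t ∈ S.iv (S.comp d k f)
        · have h1 := S.walk I _ hIi t
          have h2 := hzA_iv (S.star t) ((iv_star _ _).2 hiv)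
          have h3 : S.star t ∈ S.iv (S.comp d k f) := (iv_star _ _).2 hiv
          have h4 : ρ (S.star t) = 0 := hρ_in _ (fun h5 => by
            rcases h5 with h5 | h5
            · exact h5.2 h3.2.1
            · exact h5.1 h3.1)
          have h5 : ρ (S.star t - 1) = 0 := hρ_in _ (fun h5 => by
            rcases h5 with h5 | h5
            · exact h5.2 h3.2.2.2
            · exact h5.1 h3.2.2.1)
          simp only [h2.1, h2.2, h4, h5, add_zero, ite_self] at h1
          rw [h1]
          simp only [hiv, hr, hbv, true_and, if_false, and_true, if_true]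
          by_cases h6 : (S.star t).val < e
          · simp [h6]
          · simp [h6]
        · have h1 : ¬ (S.L t ∈ S.comp d k f ∨ S.R t ∈ S.comp d k f ∨
            S.L (t - 1) ∈ S.comp d k f ∨ S.R (t - 1) ∈ S.comp d k f) := fun h2 =>
              hbv ⟨h2, hiv⟩
          push Not at h1
          rw [hIout _ h1.1, hIout _ h1.2.2.1]
          simp [hiv]
    · have a1 : ¬ (t ∈ S.iv (S.comp d k f) ∧ e < t.val ∧ t.val < l ∧
        (S.star t).val < e) := fun h1 => hr ⟨h1.2.1, h1.2.2.1⟩
      have a2 : ¬ (t ∈ S.bv (S.comp d k f) ∧ e < t.val ∧ t.val < l) := fun h1 => hr h1.2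
      rw [if_neg a1, if_neg hr, if_neg a2]
      rfl
  have hVsum : |∑ t : ZMod (2 * n), (if t ∈ S.bv (S.comp d k f) ∧ e < t.val ∧ t.val < l then
      (I (S.L t) - I (S.L (t - 1))) else 0)| ≤ 4 * C * (4 * (1 + 32 * (C : ℤ) ^ 2)) := by
    refine (Finset.abs_sum_le_sum_abs _ _).trans ?_
    have h8 : ∀ t ∈ (univ : Finset (ZMod (2 * n))),
        |if t ∈ S.bv (S.comp d k f) ∧ e < t.val ∧ t.val < l then
      (I (S.L t) - I (S.L (t - 1))) else 0| ≤
        if t ∈ S.bv (S.comp d k f) then 4 * (1 + 32 * (C : ℤ) ^ 2) else 0 := by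
      intro t _
      by_cases hbv : t ∈ S.bv (S.comp d k f)
      · have h1 := abs_le.1 (hcor t hbv (S.L t) (Or.inl rfl))
        have h2 := abs_le.1 (hcor t hbv (S.L (t - 1)) (Or.inr (Or.inr (Or.inl rfl))))
        rw [if_pos hbv]
        split_ifs
        · rw [abs_le]
          constructor <;> linarith
        · simp only [abs_zero]
          linarith
      · simp [hbv]
    refine (Finset.sum_le_sum h8).trans ?_
    rw [sum_ncard]
    have h11 : (S.bv (S.comp d k f)).ncard ≤ 4 * C := (bv_card _).trans (by omega)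
    have h12 : ((S.bv (S.comp d k f)).ncard : ℤ) ≤ 4 * C := by exact_mod_cast h11
    have h13 : (0 : ℤ) ≤ 4 * (1 + 32 * (C : ℤ) ^ 2) := by positivity
    exact mul_le_mul_of_nonneg_right h12 h13
  rw [hsplit, htel, hend]
  have h20 := abs_le.1 hIe
  have h21 := abs_le.1 hVsum
  rw [abs_le]
  constructor
  · linarith
  · linarith

end SbAux

namespace Shadow

variable {n : ℕ} {S : Shadow n} {d : Fin (n + 2) → ℕ}

/-- The constant of the bound. -/
def Kb (C : ℕ) : ℕ := (1 + 32 * C ^ 2) * (1 + 16 * C) + 4 * C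

open Classical in
theorem IsRank.sbound [NeZero n] (h : S.IsRank d) (l : ℕ) (hl : l ≤ 2 * n)
    (hcl : d (S.L ((l : ZMod (2 * n)) - 1)) ≤ 2) (k : ℕ) (hk2 : 2 ≤ k) (f : Fin (n + 2))
    (hk : k < d f) (C : ℕ) (hC : (S.bd (S.comp d k f)).ncard ≤ C) (e : ℕ) (he : e < l)
    (hside : S.L (e : ZMod (2 * n)) ∉ S.comp d k f ∨ S.R (e : ZMod (2 * n)) ∉ S.comp d k f) :
    |∑ p ∈ range (e + 1), if e < S.pt p ∧ S.pt p < l ∧
        S.L ((p : ZMod (2 * n)) - 1) ∈ S.comp d k f
      then S.tau (p : ZMod (2 * n)) else 0| ≤ Kb C := by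
  have nz : NeZero (2 * n) := ⟨by have := NeZero.ne n; omega⟩
  have h1 := SbAux.core h l hl hcl k hk2 f hk C hC e he hside
  have hive : ∀ t ∈ S.iv (S.comp d k f), t.val ≠ e := by
    rintro t ht hte
    have h1 : (e : ZMod (2 * n)) = t := by rw [← hte, ZMod.natCast_zmod_val]
    rw [h1] at hside
    rcases hside with h2 | h2
    · exact h2 ht.1
    · exact h2 ht.2.1
  have e1 : (∑ p ∈ range (e + 1), if e < S.pt p ∧ S.pt p < l ∧
        S.L ((p : ZMod (2 * n)) - 1) ∈ S.comp d k f
      then S.tau (p : ZMod (2 * n)) else 0) =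
      ∑ t : ZMod (2 * n), if t.val ≤ e ∧ e < (S.star t).val ∧ (S.star t).val < l ∧
        S.L (t - 1) ∈ S.comp d k f then S.tau t else 0 := by
    rw [← SbAux.sum_nat, ← Finset.sum_filter, ← Finset.sum_filter]
    refine Finset.sum_congr ?_ fun _ _ => rfl
    ext p
    simp only [mem_filter, mem_range, pt]
    constructor
    · rintro ⟨h2, h3⟩
      have h4 : p < 2 * n := by omega
      rw [ZMod.val_natCast_of_lt h4]
      exact ⟨h4, by omega, h3⟩
    · rintro ⟨h2, h3⟩
      rw [ZMod.val_natCast_of_lt h2] at h3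
      exact ⟨by omega, h3.2⟩
  have e2 : (∑ t : ZMod (2 * n), if t.val ≤ e ∧ e < (S.star t).val ∧ (S.star t).val < l ∧
        S.L (t - 1) ∈ S.comp d k f then S.tau t else 0) =
      -(∑ t : ZMod (2 * n), if t ∈ S.iv (S.comp d k f) ∧ e < t.val ∧ t.val < l ∧
        (S.star t).val < e then S.tau t else 0) +
      ∑ t : ZMod (2 * n), (if t ∉ S.iv (S.comp d k f) ∧ t.val ≤ e ∧ e < (S.star t).val ∧
        (S.star t).val < l ∧ S.L (t - 1) ∈ S.comp d k f then S.tau t else 0) := by
    rw [← SbAux.sum_star S (fun t => if t ∈ S.iv (S.comp d k f) ∧ e < t.val ∧ t.val < l ∧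
        (S.star t).val < e then S.tau t else 0), ← Finset.sum_neg_distrib,
        ← Finset.sum_add_distrib]
    refine Finset.sum_congr rfl fun t _ => ?_
    simp only [S.star_star, iv_star, S.tau_star]
    by_cases hiv : t ∈ S.iv (S.comp d k f)
    · have h2 := hive t hiv
      have h3 := hiv.2.2.1
      simp only [hiv, h3, not_true_eq_false, false_and, if_false, and_true, true_and]
      split_ifs <;> omega
    · simp only [hiv, not_false_eq_true, true_and, false_and, if_false]
      ring
  have e3 : |∑ t : ZMod (2 * n), (if t ∉ S.iv (S.comp d k f) ∧ t.val ≤ e ∧ e < (S.star t).val ∧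
        (S.star t).val < l ∧ S.L (t - 1) ∈ S.comp d k f then S.tau t else 0)| ≤ 4 * C := by
    refine (Finset.abs_sum_le_sum_abs _ _).trans ?_
    have h8 : ∀ t ∈ (univ : Finset (ZMod (2 * n))),
        |if t ∉ S.iv (S.comp d k f) ∧ t.val ≤ e ∧ e < (S.star t).val ∧
        (S.star t).val < l ∧ S.L (t - 1) ∈ S.comp d k f then S.tau t else 0| ≤
        if t ∈ S.bv (S.comp d k f) then 1 else 0 := by
      intro t _
      split_ifs with h9 h10 h10
      · rcases S.tau_pm t with h11 | h11 <;> rw [h11] <;> simp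
      · exact absurd (show t ∈ S.bv (S.comp d k f) from
          ⟨Or.inr (Or.inr (Or.inl h9.2.2.2.2)), h9.1⟩) h10
      · simp
      · simp
    refine (Finset.sum_le_sum h8).trans ?_
    rw [SbAux.sum_ncard]
    have h11 : (S.bv (S.comp d k f)).ncard ≤ 4 * C := (bv_card _).trans (by omega)
    have h12 : ((S.bv (S.comp d k f)).ncard : ℤ) ≤ 4 * C := by exact_mod_cast h11
    linarith
  rw [e1, e2]
  have h2 := abs_le.1 h1
  have h3 := abs_le.1 e3
  unfold Kb
  push_cast
  rw [abs_le]
  constructor <;> linarith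

end Shadow

end Pool.H3F
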