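import Pool.Agent.H3F.Defs2

/-! The shadow of a diagram. -/

namespace Pool.H3F

open Finset

namespace KnotDiagram

variable {n : ℕ} (D : KnotDiagram n)

/-- The passages, as a disjoint union of overpasses and underpasses. -/
noncomputable def eqv : Fin n ⊕ Fin n ≃ ZMod (2 * n) := Equiv.ofBijective _ D.bij

theorem eqv_inl (c : Fin n) : D.eqv (Sum.inl c) = D.ov c := rfl

theorem eqv_inr (c : Fin n) : D.eqv (Sum.inr c) = D.un c := rfl

theorem symm_ov (c : Fin n) : D.eqv.symm (D.ov c) = Sum.inl c := by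
  rw [← D.eqv_inl, Equiv.symm_apply_apply]

theorem symm_un (c : Fin n) : D.eqv.symm (D.un c) = Sum.inr c := by
  rw [← D.eqv_inr, Equiv.symm_apply_apply]

/-- The other passage through the same crossing. -/
noncomputable def starFn (j : ZMod (2 * n)) : ZMod (2 * n) := D.eqv (D.eqv.symm j).swap

/-- Orientation of the strands at a passage. -/
noncomputable def tauFn (j : ZMod (2 * n)) : ℤ :=
  Sum.elim (fun c => D.sgn c) (fun c => -D.sgn c) (D.eqv.symm j)

theorem starFn_ov (c : Fin n) : D.starFn (D.ov c) = D.un c := by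
  simp [starFn, symm_ov, eqv_inr]

theorem starFn_un (c : Fin n) : D.starFn (D.un c) = D.ov c := by
  simp [starFn, symm_un, eqv_inl]

theorem tauFn_ov (c : Fin n) : D.tauFn (D.ov c) = D.sgn c := by
  simp [tauFn, symm_ov]

theorem tauFn_un (c : Fin n) : D.tauFn (D.un c) = -D.sgn c := by
  simp [tauFn, symm_un]

theorem cases_pos (j : ZMod (2 * n)) : ∃ c, j = D.ov c ∨ j = D.un c := by
  obtain ⟨x, hx⟩ := D.bij.2 j
  cases x with
  | inl c => exact ⟨c, Or.inl hx.symm⟩
  | inr c => exact ⟨c, Or.inr hx.symm⟩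

/-- The curve underlying the diagram. -/
noncomputable def shadow : Shadow n where
  star := D.starFn
  star_star j := by
    obtain ⟨c, rfl | rfl⟩ := D.cases_pos j
    · rw [starFn_ov, starFn_un]
    · rw [starFn_un, starFn_ov]
  tau := D.tauFn
  tau_pm j := by
    obtain ⟨c, rfl | rfl⟩ := D.cases_pos j
    · rw [tauFn_ov]; exact D.sgn_pm c
    · rw [tauFn_un]
      rcases D.sgn_pm c with h | h <;> rw [h] <;> simp
  tau_star j := by
    obtain ⟨c, rfl | rfl⟩ := D.cases_pos j
    · rw [starFn_ov, tauFn_ov, tauFn_un]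
    · rw [starFn_un, tauFn_ov, tauFn_un, neg_neg]
  L := D.left
  R := D.right
  surj := D.surj
  corner j hj := by
    obtain ⟨c, rfl | rfl⟩ := D.cases_pos j
    · rw [tauFn_ov] at hj
      rw [starFn_ov]
      exact D.corner c _ _ (Or.inl ⟨hj, rfl, rfl⟩)
    · rw [tauFn_un] at hj
      rw [starFn_un]
      exact D.corner c _ _ (Or.inr ⟨by omega, rfl, rfl⟩)

theorem shadow_star_ov (c : Fin n) : D.shadow.star (D.ov c) = D.un c := D.starFn_ov c

theorem shadow_star_un (c : Fin n) : D.shadow.star (D.un c) = D.ov c := D.starFn_un c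

theorem shadow_tau_ov (c : Fin n) : D.shadow.tau (D.ov c) = D.sgn c := D.tauFn_ov c

theorem shadow_tau_un (c : Fin n) : D.shadow.tau (D.un c) = -D.sgn c := D.tauFn_un c

end KnotDiagram

end Pool.H3F
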