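import Pool.Agent.H3F.GDefs
import Pool.Agent.H3F.ES2

/-! VZ: the zone of the first family. -/

namespace Pool.H3F

private theorem vz_mono {a b b' : ℝ} (h : Below a b) (hb : b' ≤ b) : Below a b' := by
  obtain ⟨c, hc, hbc⟩ := h
  exact ⟨c, hc, hb.trans hbc⟩

private theorem vz_cub (β s w : ℝ) (hβ : 0 ≤ β) (hs : (61 / 25) * β ≤ s) (hw : 0 ≤ w) :
    (3 / 2) * w * (s ^ 2 - 2 * β * s) - w ^ 3 / 2 ≤ s ^ 3 - (9 / 4) * β * s ^ 2 := by
  have hs0 : 0 ≤ s := by linarith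
  have hA : 0 ≤ s ^ 2 - 2 * β * s := by nlinarith
  set c := √(s ^ 2 - 2 * β * s) with hc
  have hc0 : 0 ≤ c := Real.sqrt_nonneg _
  have hc2 : c ^ 2 = s ^ 2 - 2 * β * s := Real.sq_sqrt hA
  have h1 : (3 / 2) * w * (s ^ 2 - 2 * β * s) - w ^ 3 / 2 ≤ c ^ 3 := by
    rw [← hc2]
    nlinarith [mul_nonneg (sq_nonneg (w - c)) (by positivity : 0 ≤ w + 2 * c)]
  have h2 : 0 ≤ s ^ 3 - (9 / 4) * β * s ^ 2 := by
    have : 0 ≤ s ^ 2 * (s - (9 / 4) * β) := mul_nonneg (sq_nonneg _) (by linarith)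
    nlinarith
  have h3 : (c ^ 3) ^ 2 ≤ (s ^ 3 - (9 / 4) * β * s ^ 2) ^ 2 := by
    have e1 : (c ^ 3) ^ 2 = (s ^ 2 - 2 * β * s) ^ 3 := by rw [← hc2]; ring
    have e2 : (s ^ 3 - (9 / 4) * β * s ^ 2) ^ 2 - (s ^ 2 - 2 * β * s) ^ 3 =
        s ^ 3 * β * ((3 / 2) * s ^ 2 - (111 / 16) * s * β + 8 * β ^ 2) := by ring
    have e3 : 0 ≤ (3 / 2) * s ^ 2 - (111 / 16) * s * β + 8 * β ^ 2 := by
      nlinarith [mul_nonneg (sub_nonneg.mpr hs) hβ, sq_nonneg (s - (61 / 25) * β), hs]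
    have e4 : 0 ≤ s ^ 3 * β * ((3 / 2) * s ^ 2 - (111 / 16) * s * β + 8 * β ^ 2) := by positivity
    rw [e1]
    linarith
  have h4 : c ^ 3 ≤ s ^ 3 - (9 / 4) * β * s ^ 2 :=
    (pow_le_pow_iff_left₀ (by positivity) h2 two_ne_zero).mp h3
  linarith

theorem vk (α β s w : ℝ) (h : α + β = 1) (hβ : 0 ≤ β) (hs : (61 / 25) * β ≤ s) (hsα : s ≤ α)
    (hw : 0 ≤ w) (hwα : w ≤ α) :
    Ph α β s (3 * α - (3 / 2) * (β + s)) w ≤
      s ^ 3 - (9 / 4) * β * s ^ 2 + (9 / 5) * β * (max (s + β / 2 - α) 0) ^ 2 := by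
  have hs0 : 0 ≤ s := by linarith
  unfold Ph
  set M := max (3 * w - (3 * α - (3 / 2) * (β + s))) 0 with hM
  set κ := max (s + β / 2 - α) 0 with hκ
  have hκ0 : 0 ≤ κ := le_max_right _ _
  have hκ1 : s + β / 2 - α ≤ κ := le_max_left _ _
  have hM0 : 0 ≤ M := le_max_right _ _
  have hlin : 6 * α - 3 * β - 2 * (3 * α - (3 / 2) * (β + s)) = 3 * s := by ring
  rw [hlin]
  unfold FF
  split_ifs with c1 c2
  · have hM1 : M ≤ (3 / 2) * (β + s) := by
      rw [hM]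
      exact max_le (by linarith) (by linarith)
    have hM2 : M ^ 2 ≤ ((3 / 2) * (β + s)) ^ 2 := pow_le_pow_left₀ hM0 hM1 2
    have hbs : β + s ≤ (86 / 61) * s := by linarith
    have hbs2 : (β + s) ^ 2 ≤ ((86 / 61) * s) ^ 2 := pow_le_pow_left₀ (by linarith) hbs 2
    have hsw : s * s ≤ s * w := mul_le_mul_of_nonneg_left c1 hs0
    have key : -(3 * s) * w + M ^ 2 / 8 ≤ -((9 / 4) * s ^ 2) := by
      nlinarith [sq_nonneg s]
    have k2 := mul_le_mul_of_nonneg_left key hβ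
    have k3 : 0 ≤ (9 / 5) * β * κ ^ 2 := by positivity
    nlinarith [k2, k3]
  · push Not at c1
    have hM1 : M ≤ 3 * (|w - s / 2| + κ) := by
      rw [hM]
      refine max_le ?_ (by positivity)
      have := le_abs_self (w - s / 2)
      linarith
    have hM2 : M ^ 2 ≤ (3 * (|w - s / 2| + κ)) ^ 2 := pow_le_pow_left₀ hM0 hM1 2
    have habs : |w - s / 2| ^ 2 = (w - s / 2) ^ 2 := sq_abs _
    have key : M ^ 2 / 8 ≤ 3 * (w - s / 2) ^ 2 + (9 / 5) * κ ^ 2 := by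
      rw [← habs]
      nlinarith [sq_nonneg (|w - s / 2| - (3 / 5) * κ)]
    have k2 := mul_le_mul_of_nonneg_left key hβ
    nlinarith [k2]
  · push Not at c1 c2
    have hr : w ≤ s / 2 := by linarith
    have hM1 : M ≤ 3 * κ := by
      rw [hM]
      exact max_le (by linarith) (by positivity)
    have hM2 : M ^ 2 ≤ (3 * κ) ^ 2 := pow_le_pow_left₀ hM0 hM1 2
    have key : M ^ 2 / 8 ≤ (9 / 5) * κ ^ 2 := by nlinarith [sq_nonneg κ]
    have k2 := mul_le_mul_of_nonneg_left key hβ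
    have k3 := vz_cub β s w hβ hs hw
    have k4 : 0 ≤ (3 * β - s - w / 2) * max 0 (s ^ 2 - 2 * w * α + w ^ 2) :=
      mul_nonneg (by linarith) (le_max_left _ _)
    nlinarith [k2, k3, k4]

private theorem vz_num (α β s κ : ℝ) (h : α + β = 1) (hβ : 0 ≤ β) (hs : (61 / 25) * β ≤ s)
    (hsα : s ≤ α) (hκ0 : 0 ≤ κ) (hκ : κ ≤ β / 2) :
    2 * α ^ 3 - 3 * α * s ^ 2 + (3 / 4) * β * s ^ 2 + s ^ 3 +
      (3 * α - (3 / 2) * (β + s)) * (0 - α ^ 2 + s ^ 2) + (9 / 5) * β * κ ^ 2 ≤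
      (146 + 75 * β) / 1000 := by
  obtain rfl : α = 1 - β := by linarith
  have hb : β ≤ 25 / 86 := by linarith
  have hα : 0 ≤ 1 - β := by linarith
  have hκ2 : κ ^ 2 ≤ (β / 2) ^ 2 := pow_le_pow_left₀ hκ0 hκ 2
  have k1 := mul_le_mul_of_nonneg_left hκ2 hβ
  have ht : 0 ≤ 1 - β - s := by linarith
  have hs0 : 0 ≤ s := by linarith
  have k2 : 0 ≤ (1 - β - s) ^ 2 * (3 / 4 * β + (3 / 2) * (1 - β) - (1 / 2) * (1 - β - s) - (1 - β)) :=
    mul_nonneg (sq_nonneg _) (by linarith)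
  have k3 : 0 ≤ (1 - β) * ((1 - β - s) - (3 / 4) * β) ^ 2 := by positivity
  have k4 : (3 / 4) * (1 - β) ^ 2 * β + (9 / 16) * (1 - β) * β ^ 2 + (9 / 20) * β ^ 3 ≤
      (146 + 75 * β) / 1000 := by
    nlinarith [mul_nonneg hβ (sub_nonneg.mpr hb), mul_nonneg (mul_nonneg hβ hβ) (sub_nonneg.mpr hb)]
  nlinarith [k1, k2, k3, k4]

private theorem vz_last (α β s a κ : ℝ) (h : α + β = 1) (hβ : 0 ≤ β) (hs : (61 / 25) * β ≤ s)
    (hb : β ≤ 25 / 86) (hα : 61 / 86 ≤ α) (hα2 : a ≤ α ^ 2) (ha3 : 1 / 30 ≤ a)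
    (hk : 0 < s + β / 2 - α) (hκp : κ = s + β / 2 - α) :
    Below a (2 * α ^ 3 - 3 * α * s ^ 2 + (3 / 4) * β * s ^ 2 + s ^ 3 +
              (3 * α - (3 / 2) * (β + s)) * (a - α ^ 2 + s ^ 2) + (9 / 5) * β * κ ^ 2) := by
  have h1α : 0 ≤ α := by linarith
  have ha : 0 ≤ a := by linarith
  have hcont : ContinuousOn (fun t : ℝ => α ^ 2 - t ^ 2 - β * t) (Set.Icc 0 α) := by
    fun_prop
  have hmem : a ∈ Set.Icc ((fun t : ℝ => α ^ 2 - t ^ 2 - β * t) α)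
      ((fun t : ℝ => α ^ 2 - t ^ 2 - β * t) 0) := by
    have := mul_nonneg hβ h1α
    constructor
    · simp only
      linarith
    · simp only
      linarith
  obtain ⟨H, ⟨hH0, hH1⟩, hH⟩ := intermediate_value_Icc' h1α hcont hmem
  simp only at hH
  have e : 1 - β = α := by linarith
  refine ⟨2 * α ^ 3 - 3 * α * (H ^ 2 + β * H) + H ^ 3 + (9 / 4) * β * H ^ 2 +
      (3 / 2) * β ^ 2 * H, Or.inl ⟨β, H, hβ, hH0, by linarith, ha, ?_, ?_⟩, ?_⟩
  · rw [e]; exact hH.symm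
  · rw [e]
  · have key : 2 * α ^ 3 - 3 * α * (H ^ 2 + β * H) + H ^ 3 + (9 / 4) * β * H ^ 2 +
        (3 / 2) * β ^ 2 * H - (2 * α ^ 3 - 3 * α * s ^ 2 + (3 / 4) * β * s ^ 2 + s ^ 3 +
        (3 * α - (3 / 2) * (β + s)) * (a - α ^ 2 + s ^ 2)) =
        (H - s) ^ 2 * (H + s / 2 + (3 / 4) * β) := by
      rw [← hH]
      ring
    have hHa : H ≤ α - β / 2 := by
      have q0 : β ^ 2 / 4 ≤ a := by nlinarith
      have q1 : (H + β / 2) ^ 2 ≤ α ^ 2 := by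
        have : (H + β / 2) ^ 2 = α ^ 2 - a + β ^ 2 / 4 := by rw [← hH]; ring
        rw [this]; linarith
      have q2 : H + β / 2 ≤ α :=
        (pow_le_pow_iff_left₀ (by positivity) h1α two_ne_zero).mp q1
      linarith
    have g1 : κ ^ 2 ≤ (s - H) ^ 2 := by
      rw [hκp]
      exact pow_le_pow_left₀ hk.le (by linarith) 2
    have g2 : (9 / 5) * β ≤ H + s / 2 + (3 / 4) * β := by linarith
    have g3 : (9 / 5) * β * κ ^ 2 ≤ (H - s) ^ 2 * (H + s / 2 + (3 / 4) * β) := by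
      calc (9 / 5) * β * κ ^ 2 ≤ (H + s / 2 + (3 / 4) * β) * (s - H) ^ 2 :=
            mul_le_mul g2 g1 (sq_nonneg _) (by linarith)
        _ = (H - s) ^ 2 * (H + s / 2 + (3 / 4) * β) := by ring
    linarith

theorem zone_V (α β s a b : ℝ) (h : α + β = 1) (hβ : 0 ≤ β) (hs : (61 / 25) * β ≤ s)
    (hsα : s ≤ α) (hG : GI α β s a b) (h1 : 1 - √2 ≤ a) (h2 : a ≤ 9 / 25) : Below a b := by
  have hs0 : 0 ≤ s := by linarith
  have hb : β ≤ 25 / 86 := by linarith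
  have hα : 61 / 86 ≤ α := by linarith
  have hα2 : a ≤ α ^ 2 := by nlinarith
  set κ := max (s + β / 2 - α) 0 with hκ
  have hκ0 : 0 ≤ κ := le_max_right _ _
  have hκ1 : s + β / 2 - α ≤ κ := le_max_left _ _
  have hκ2 : κ ≤ β / 2 := by
    rw [hκ]
    exact max_le (by linarith) (by linarith)
  have hb1 := hG (3 * α - (3 / 2) * (β + s)) _ (fun w hw hwα => vk α β s w h hβ hs hsα hw hwα)
  rw [← hκ] at hb1
  set lam := 3 * α - (3 / 2) * (β + s) with hlam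
  have hlam0 : 0 ≤ lam := by rw [hlam]; linarith
  have hnum := vz_num α β s κ h hβ hs hsα hκ0 hκ2
  rw [← hlam] at hnum
  have hr : √2 < 14143 / 10000 := by
    rw [Real.sqrt_lt' (by norm_num)]; norm_num
  rcases le_total a 0 with ha | ha
  · refine vz_mono (es_0 a h1 (by linarith)) ?_
    nlinarith [mul_nonneg hlam0 (neg_nonneg.mpr ha)]
  · rcases le_or_gt (s + β / 2 - α) 0 with hk | hk
    · have hκz : κ = 0 := by rw [hκ]; exact max_eq_right hk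
      have hV := es_V a β s hβ hs0 (by linarith) ha (by
        have : 1 - β = α := by linarith
        rw [this]; exact hα2)
      have e : 1 - β = α := by linarith
      rw [e] at hV
      refine vz_mono hV ?_
      rw [hκz] at hb1
      rw [← hlam]
      linarith
    · have hκp : κ = s + β / 2 - α := by rw [hκ]; exact max_eq_left hk.le
      rcases le_total a (1 / 30) with ha3 | ha3
      · refine vz_mono (es_0 a h1 ha3) ?_
        have k1 := mul_le_mul_of_nonneg_left ha3 hlam0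
        have k2 : lam ≤ (3 / 2) * α - (3 / 4) * β := by rw [hlam]; linarith
        nlinarith [hb1, hnum, k1, k2]
      · have hV := vz_last α β s a κ h hβ hs hb hα hα2 ha3 hk hκp
        refine vz_mono hV ?_
        rw [← hlam]
        linarith

end Pool.H3F
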