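import Pool.Agent.H3F.GDefs

/-! WZ1: bound of `Ph` in the zone of the second family. -/

namespace Pool.H3F

theorem wz1_s (s q t : ℝ) (ht : 0 < t) (hs : s ^ 2 = q) : s ≤ (q + t ^ 2) / (2 * t) := by
  rw [le_div_iff₀ (by linarith)]
  nlinarith [sq_nonneg (s - t)]

theorem wz1_left_poly (β x : ℝ) (hu : 0 ≤ β - 1 / 4) (hx0 : 0 ≤ x)
    (hw : 0 ≤ (3 / 8) * (1 - β) - x) :
    3 * β ^ 2 + 6 * β * x ≤
      2 * (3 * β + x - (2 * (1 - β) * x - x ^ 2 + 13689 / 40000) * (100 / 117)) * (1 - x) := by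
  linarith [
    mul_nonneg hu hu, mul_nonneg hu hx0, mul_nonneg hu hw, mul_nonneg hx0 hx0, mul_nonneg hx0 hw,
    mul_nonneg hw hw, mul_nonneg (mul_nonneg hu hu) hu, mul_nonneg (mul_nonneg hu hu) hx0,
    mul_nonneg (mul_nonneg hu hu) hw, mul_nonneg (mul_nonneg hu hx0) hx0,
    mul_nonneg (mul_nonneg hu hx0) hw, mul_nonneg (mul_nonneg hu hw) hw,
    mul_nonneg (mul_nonneg hx0 hx0) hx0, mul_nonneg (mul_nonneg hx0 hx0) hw,
    mul_nonneg (mul_nonneg hx0 hw) hw, mul_nonneg (mul_nonneg hw hw) hw]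

/-- Slope bound at the left of `x`. -/
theorem wk_left (α β x p s : ℝ) (h : α + β = 1) (h1 : 1 / 4 ≤ β) (h2 : β ≤ 14 / 25)
    (hx0 : 0 ≤ x) (hx : x ≤ (3 / 8) * α) (hp : p = α - x) (hc : β ^ 2 ≤ 2 * p * (p - x))
    (hs0 : 0 ≤ s) (hs : s ^ 2 = x ^ 2 + 2 * p * x) :
    3 * β * (β + 2 * x) ≤ 2 * (3 * β + x - s) * (p + β) := by
  obtain rfl : α = 1 - β := by linarith
  subst hp
  have hq : x ^ 2 + 2 * (1 - β - x) * x = 2 * (1 - β) * x - x ^ 2 := by ring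
  rw [hq] at hs
  have h3 := wz1_s s _ (117 / 200) (by norm_num) hs
  rw [div_eq_mul_inv, show (2 * (117 / 200) : ℝ)⁻¹ = 100 / 117 by norm_num,
    show ((117 / 200 : ℝ)) ^ 2 = 13689 / 40000 by norm_num] at h3
  have h4 := wz1_left_poly β x (by linarith) hx0 (by linarith)
  have h5 := mul_le_mul_of_nonneg_right h3 (show (0 : ℝ) ≤ 2 * (1 - x) by linarith)
  linarith

theorem wz1_mid_sign (β x : ℝ) (hu0 : 0 ≤ β - 1 / 4) (hv0 : 0 ≤ 17 / 60 - β)
    (hw0 : 0 ≤ (3 / 8) * (1 - β) - x) (hz0 : 0 ≤ x - 9 / 50) :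
    0 ≤ β * (3 * (1 - β - x) * (β + 2 * x)) - (2 * (1 - β) * x - x ^ 2) * (1 - x) := by
  linarith [
    mul_nonneg hu0 hu0, mul_nonneg hu0 hv0, mul_nonneg hu0 hw0, mul_nonneg hu0 hz0,
    mul_nonneg hv0 hv0, mul_nonneg hv0 hw0, mul_nonneg hv0 hz0, mul_nonneg hw0 hw0,
    mul_nonneg hw0 hz0, mul_nonneg hz0 hz0, mul_nonneg (mul_nonneg hu0 hu0) hu0,
    mul_nonneg (mul_nonneg hu0 hu0) hv0, mul_nonneg (mul_nonneg hu0 hu0) hw0,
    mul_nonneg (mul_nonneg hu0 hu0) hz0, mul_nonneg (mul_nonneg hu0 hv0) hv0,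
    mul_nonneg (mul_nonneg hu0 hv0) hw0, mul_nonneg (mul_nonneg hu0 hv0) hz0,
    mul_nonneg (mul_nonneg hu0 hw0) hw0, mul_nonneg (mul_nonneg hu0 hw0) hz0,
    mul_nonneg (mul_nonneg hu0 hz0) hz0, mul_nonneg (mul_nonneg hv0 hv0) hv0,
    mul_nonneg (mul_nonneg hv0 hv0) hw0, mul_nonneg (mul_nonneg hv0 hv0) hz0,
    mul_nonneg (mul_nonneg hv0 hw0) hw0, mul_nonneg (mul_nonneg hv0 hw0) hz0,
    mul_nonneg (mul_nonneg hv0 hz0) hz0, mul_nonneg (mul_nonneg hw0 hw0) hw0,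
    mul_nonneg (mul_nonneg hw0 hw0) hz0, mul_nonneg (mul_nonneg hw0 hz0) hz0,
    mul_nonneg (mul_nonneg hz0 hz0) hz0]

theorem wz1_end_poly (β x : ℝ) (hu : 0 ≤ β - 1 / 4) (hx0 : 0 ≤ x)
    (hw : 0 ≤ 9 / 25 * (171 / 500 - (β - 1 / 4)) - 171 / 500 * x) :
    (2 * (1 - β) * x - x ^ 2) * ((2 * (1 - β) * x - x ^ 2 + 9 / 25) * (5 / 6)) * (1 - x) ^ 2 ≤
      (x ^ 3 + 3 * (1 - β - x) * x ^ 2) * (1 - x) ^ 2 +
      β * (3 * (1 - β - x) * (β + 2 * x)) * (1 - β - x) * (1 - x) -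
      β * (3 * β * (1 - x) + 3 * (1 - β - x) * (β + 2 * x)) ^ 2 / 32 := by
  linarith [
    mul_nonneg hu hu, mul_nonneg hu hx0, mul_nonneg hu hw, mul_nonneg hx0 hx0, mul_nonneg hx0 hw,
    mul_nonneg hw hw, mul_nonneg (mul_nonneg hu hu) hu, mul_nonneg (mul_nonneg hu hu) hx0,
    mul_nonneg (mul_nonneg hu hu) hw, mul_nonneg (mul_nonneg hu hx0) hx0,
    mul_nonneg (mul_nonneg hu hx0) hw, mul_nonneg (mul_nonneg hu hw) hw,
    mul_nonneg (mul_nonneg hx0 hx0) hx0, mul_nonneg (mul_nonneg hx0 hx0) hw,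
    mul_nonneg (mul_nonneg hx0 hw) hw, mul_nonneg (mul_nonneg hw hw) hw,
    mul_nonneg (mul_nonneg (mul_nonneg hu hu) hu) hu,
    mul_nonneg (mul_nonneg (mul_nonneg hu hu) hu) hx0,
    mul_nonneg (mul_nonneg (mul_nonneg hu hu) hu) hw,
    mul_nonneg (mul_nonneg (mul_nonneg hu hu) hx0) hx0,
    mul_nonneg (mul_nonneg (mul_nonneg hu hu) hx0) hw,
    mul_nonneg (mul_nonneg (mul_nonneg hu hu) hw) hw,
    mul_nonneg (mul_nonneg (mul_nonneg hu hx0) hx0) hx0,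
    mul_nonneg (mul_nonneg (mul_nonneg hu hx0) hx0) hw,
    mul_nonneg (mul_nonneg (mul_nonneg hu hx0) hw) hw,
    mul_nonneg (mul_nonneg (mul_nonneg hu hw) hw) hw,
    mul_nonneg (mul_nonneg (mul_nonneg hx0 hx0) hx0) hx0,
    mul_nonneg (mul_nonneg (mul_nonneg hx0 hx0) hx0) hw,
    mul_nonneg (mul_nonneg (mul_nonneg hx0 hx0) hw) hw,
    mul_nonneg (mul_nonneg (mul_nonneg hx0 hw) hw) hw,
    mul_nonneg (mul_nonneg (mul_nonneg hw hw) hw) hw,
    mul_nonneg (mul_nonneg (mul_nonneg (mul_nonneg hu hu) hu) hu) hu,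
    mul_nonneg (mul_nonneg (mul_nonneg (mul_nonneg hu hu) hu) hu) hx0,
    mul_nonneg (mul_nonneg (mul_nonneg (mul_nonneg hu hu) hu) hu) hw,
    mul_nonneg (mul_nonneg (mul_nonneg (mul_nonneg hu hu) hu) hx0) hx0,
    mul_nonneg (mul_nonneg (mul_nonneg (mul_nonneg hu hu) hu) hx0) hw,
    mul_nonneg (mul_nonneg (mul_nonneg (mul_nonneg hu hu) hu) hw) hw,
    mul_nonneg (mul_nonneg (mul_nonneg (mul_nonneg hu hu) hx0) hx0) hx0,
    mul_nonneg (mul_nonneg (mul_nonneg (mul_nonneg hu hu) hx0) hx0) hw,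
    mul_nonneg (mul_nonneg (mul_nonneg (mul_nonneg hu hu) hx0) hw) hw,
    mul_nonneg (mul_nonneg (mul_nonneg (mul_nonneg hu hu) hw) hw) hw,
    mul_nonneg (mul_nonneg (mul_nonneg (mul_nonneg hu hx0) hx0) hx0) hx0,
    mul_nonneg (mul_nonneg (mul_nonneg (mul_nonneg hu hx0) hx0) hx0) hw,
    mul_nonneg (mul_nonneg (mul_nonneg (mul_nonneg hu hx0) hx0) hw) hw,
    mul_nonneg (mul_nonneg (mul_nonneg (mul_nonneg hu hx0) hw) hw) hw,
    mul_nonneg (mul_nonneg (mul_nonneg (mul_nonneg hu hw) hw) hw) hw,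
    mul_nonneg (mul_nonneg (mul_nonneg (mul_nonneg hx0 hx0) hx0) hx0) hx0,
    mul_nonneg (mul_nonneg (mul_nonneg (mul_nonneg hx0 hx0) hx0) hx0) hw,
    mul_nonneg (mul_nonneg (mul_nonneg (mul_nonneg hx0 hx0) hx0) hw) hw,
    mul_nonneg (mul_nonneg (mul_nonneg (mul_nonneg hx0 hx0) hw) hw) hw,
    mul_nonneg (mul_nonneg (mul_nonneg (mul_nonneg hx0 hw) hw) hw) hw,
    mul_nonneg (mul_nonneg (mul_nonneg (mul_nonneg hw hw) hw) hw) hw,
    mul_nonneg (mul_nonneg (mul_nonneg (mul_nonneg (mul_nonneg hu hu) hu) hu) hu) hu,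
    mul_nonneg (mul_nonneg (mul_nonneg (mul_nonneg (mul_nonneg hu hu) hu) hu) hu) hx0,
    mul_nonneg (mul_nonneg (mul_nonneg (mul_nonneg (mul_nonneg hu hu) hu) hu) hu) hw,
    mul_nonneg (mul_nonneg (mul_nonneg (mul_nonneg (mul_nonneg hu hu) hu) hu) hx0) hx0,
    mul_nonneg (mul_nonneg (mul_nonneg (mul_nonneg (mul_nonneg hu hu) hu) hu) hx0) hw,
    mul_nonneg (mul_nonneg (mul_nonneg (mul_nonneg (mul_nonneg hu hu) hu) hu) hw) hw,
    mul_nonneg (mul_nonneg (mul_nonneg (mul_nonneg (mul_nonneg hu hu) hu) hx0) hx0) hx0,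
    mul_nonneg (mul_nonneg (mul_nonneg (mul_nonneg (mul_nonneg hu hu) hu) hx0) hx0) hw,
    mul_nonneg (mul_nonneg (mul_nonneg (mul_nonneg (mul_nonneg hu hu) hu) hx0) hw) hw,
    mul_nonneg (mul_nonneg (mul_nonneg (mul_nonneg (mul_nonneg hu hu) hu) hw) hw) hw,
    mul_nonneg (mul_nonneg (mul_nonneg (mul_nonneg (mul_nonneg hu hu) hx0) hx0) hx0) hx0,
    mul_nonneg (mul_nonneg (mul_nonneg (mul_nonneg (mul_nonneg hu hu) hx0) hx0) hx0) hw,
    mul_nonneg (mul_nonneg (mul_nonneg (mul_nonneg (mul_nonneg hu hu) hx0) hx0) hw) hw,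
    mul_nonneg (mul_nonneg (mul_nonneg (mul_nonneg (mul_nonneg hu hu) hx0) hw) hw) hw,
    mul_nonneg (mul_nonneg (mul_nonneg (mul_nonneg (mul_nonneg hu hu) hw) hw) hw) hw,
    mul_nonneg (mul_nonneg (mul_nonneg (mul_nonneg (mul_nonneg hu hx0) hx0) hx0) hx0) hx0,
    mul_nonneg (mul_nonneg (mul_nonneg (mul_nonneg (mul_nonneg hu hx0) hx0) hx0) hx0) hw,
    mul_nonneg (mul_nonneg (mul_nonneg (mul_nonneg (mul_nonneg hu hx0) hx0) hx0) hw) hw,
    mul_nonneg (mul_nonneg (mul_nonneg (mul_nonneg (mul_nonneg hu hx0) hx0) hw) hw) hw,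
    mul_nonneg (mul_nonneg (mul_nonneg (mul_nonneg (mul_nonneg hu hx0) hw) hw) hw) hw,
    mul_nonneg (mul_nonneg (mul_nonneg (mul_nonneg (mul_nonneg hu hw) hw) hw) hw) hw,
    mul_nonneg (mul_nonneg (mul_nonneg (mul_nonneg (mul_nonneg hx0 hx0) hx0) hx0) hx0) hx0,
    mul_nonneg (mul_nonneg (mul_nonneg (mul_nonneg (mul_nonneg hx0 hx0) hx0) hx0) hx0) hw,
    mul_nonneg (mul_nonneg (mul_nonneg (mul_nonneg (mul_nonneg hx0 hx0) hx0) hx0) hw) hw,
    mul_nonneg (mul_nonneg (mul_nonneg (mul_nonneg (mul_nonneg hx0 hx0) hx0) hw) hw) hw,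
    mul_nonneg (mul_nonneg (mul_nonneg (mul_nonneg (mul_nonneg hx0 hx0) hw) hw) hw) hw,
    mul_nonneg (mul_nonneg (mul_nonneg (mul_nonneg (mul_nonneg hx0 hw) hw) hw) hw) hw,
    mul_nonneg (mul_nonneg (mul_nonneg (mul_nonneg (mul_nonneg hw hw) hw) hw) hw) hw]

theorem wz1_disc (β x : ℝ) (hu : 0 ≤ β - 1 / 4) (hx0 : 0 ≤ x)
    (hw : 0 ≤ (3 / 8) * (1 - β) - x) (hv : 0 ≤ (3 / 4) * β - x) (ht : 0 ≤ 14 / 25 - β) :
    ((3 / 2) * x - (9 / 8) * β) ^ 2 * (1 - x) ≤ 6 * (1 - β - x) * ((β + x) ^ 2 - x) := by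
  linarith [
    mul_nonneg hu hu, mul_nonneg hu hx0, mul_nonneg hu hw, mul_nonneg hu hv, mul_nonneg hu ht,
    mul_nonneg hx0 hx0, mul_nonneg hx0 hw, mul_nonneg hx0 hv, mul_nonneg hx0 ht,
    mul_nonneg hw hw, mul_nonneg hw hv, mul_nonneg hw ht, mul_nonneg hv hv, mul_nonneg hv ht,
    mul_nonneg ht ht, mul_nonneg (mul_nonneg hu hu) hu, mul_nonneg (mul_nonneg hu hu) hx0,
    mul_nonneg (mul_nonneg hu hu) hw, mul_nonneg (mul_nonneg hu hu) hv,
    mul_nonneg (mul_nonneg hu hu) ht, mul_nonneg (mul_nonneg hu hx0) hx0,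
    mul_nonneg (mul_nonneg hu hx0) hw, mul_nonneg (mul_nonneg hu hx0) hv,
    mul_nonneg (mul_nonneg hu hx0) ht, mul_nonneg (mul_nonneg hu hw) hw,
    mul_nonneg (mul_nonneg hu hw) hv, mul_nonneg (mul_nonneg hu hw) ht,
    mul_nonneg (mul_nonneg hu hv) hv, mul_nonneg (mul_nonneg hu hv) ht,
    mul_nonneg (mul_nonneg hu ht) ht, mul_nonneg (mul_nonneg hx0 hx0) hx0,
    mul_nonneg (mul_nonneg hx0 hx0) hw, mul_nonneg (mul_nonneg hx0 hx0) hv,
    mul_nonneg (mul_nonneg hx0 hx0) ht, mul_nonneg (mul_nonneg hx0 hw) hw,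
    mul_nonneg (mul_nonneg hx0 hw) hv, mul_nonneg (mul_nonneg hx0 hw) ht,
    mul_nonneg (mul_nonneg hx0 hv) hv, mul_nonneg (mul_nonneg hx0 hv) ht,
    mul_nonneg (mul_nonneg hx0 ht) ht, mul_nonneg (mul_nonneg hw hw) hw,
    mul_nonneg (mul_nonneg hw hw) hv, mul_nonneg (mul_nonneg hw hw) ht,
    mul_nonneg (mul_nonneg hw hv) hv, mul_nonneg (mul_nonneg hw hv) ht,
    mul_nonneg (mul_nonneg hw ht) ht, mul_nonneg (mul_nonneg hv hv) hv,
    mul_nonneg (mul_nonneg hv hv) ht, mul_nonneg (mul_nonneg hv ht) ht,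
    mul_nonneg (mul_nonneg ht ht) ht]

theorem wz1_mid_poly (β x : ℝ) (hu : 0 ≤ β - 1 / 4) (hw : 0 ≤ (3 / 8) * (1 - β) - x)
    (hz : 0 ≤ x - 9 / 50) :
    β * (3 * (1 - β - x) * (β + 2 * x)) * x * (1 - x) +
      β * (3 * (1 - β - x) * (β + 2 * x)) ^ 2 / 12 ≤
      (β * (3 * (1 - β - x) * (β + 2 * x)) - (2 * (1 - β) * x - x ^ 2) * (1 - x)) * (1 - x) *
        ((2 * (1 - β) * x - x ^ 2 + 293 / 1000) * (500 / 543)) +
      (x ^ 3 + 3 * (1 - β - x) * x ^ 2) * (1 - x) ^ 2 := by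
  linarith [
    mul_nonneg hu hu, mul_nonneg hu hw, mul_nonneg hu hz, mul_nonneg hw hw, mul_nonneg hw hz,
    mul_nonneg hz hz, mul_nonneg (mul_nonneg hu hu) hu, mul_nonneg (mul_nonneg hu hu) hw,
    mul_nonneg (mul_nonneg hu hu) hz, mul_nonneg (mul_nonneg hu hw) hw,
    mul_nonneg (mul_nonneg hu hw) hz, mul_nonneg (mul_nonneg hu hz) hz,
    mul_nonneg (mul_nonneg hw hw) hw, mul_nonneg (mul_nonneg hw hw) hz,
    mul_nonneg (mul_nonneg hw hz) hz, mul_nonneg (mul_nonneg hz hz) hz,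
    mul_nonneg (mul_nonneg (mul_nonneg hu hu) hu) hu,
    mul_nonneg (mul_nonneg (mul_nonneg hu hu) hu) hw,
    mul_nonneg (mul_nonneg (mul_nonneg hu hu) hu) hz,
    mul_nonneg (mul_nonneg (mul_nonneg hu hu) hw) hw,
    mul_nonneg (mul_nonneg (mul_nonneg hu hu) hw) hz,
    mul_nonneg (mul_nonneg (mul_nonneg hu hu) hz) hz,
    mul_nonneg (mul_nonneg (mul_nonneg hu hw) hw) hw,
    mul_nonneg (mul_nonneg (mul_nonneg hu hw) hw) hz,
    mul_nonneg (mul_nonneg (mul_nonneg hu hw) hz) hz,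
    mul_nonneg (mul_nonneg (mul_nonneg hu hz) hz) hz,
    mul_nonneg (mul_nonneg (mul_nonneg hw hw) hw) hw,
    mul_nonneg (mul_nonneg (mul_nonneg hw hw) hw) hz,
    mul_nonneg (mul_nonneg (mul_nonneg hw hw) hz) hz,
    mul_nonneg (mul_nonneg (mul_nonneg hw hz) hz) hz,
    mul_nonneg (mul_nonneg (mul_nonneg hz hz) hz) hz,
    mul_nonneg (mul_nonneg (mul_nonneg (mul_nonneg hu hu) hu) hu) hu,
    mul_nonneg (mul_nonneg (mul_nonneg (mul_nonneg hu hu) hu) hu) hw,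
    mul_nonneg (mul_nonneg (mul_nonneg (mul_nonneg hu hu) hu) hu) hz,
    mul_nonneg (mul_nonneg (mul_nonneg (mul_nonneg hu hu) hu) hw) hw,
    mul_nonneg (mul_nonneg (mul_nonneg (mul_nonneg hu hu) hu) hw) hz,
    mul_nonneg (mul_nonneg (mul_nonneg (mul_nonneg hu hu) hu) hz) hz,
    mul_nonneg (mul_nonneg (mul_nonneg (mul_nonneg hu hu) hw) hw) hw,
    mul_nonneg (mul_nonneg (mul_nonneg (mul_nonneg hu hu) hw) hw) hz,
    mul_nonneg (mul_nonneg (mul_nonneg (mul_nonneg hu hu) hw) hz) hz,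
    mul_nonneg (mul_nonneg (mul_nonneg (mul_nonneg hu hu) hz) hz) hz,
    mul_nonneg (mul_nonneg (mul_nonneg (mul_nonneg hu hw) hw) hw) hw,
    mul_nonneg (mul_nonneg (mul_nonneg (mul_nonneg hu hw) hw) hw) hz,
    mul_nonneg (mul_nonneg (mul_nonneg (mul_nonneg hu hw) hw) hz) hz,
    mul_nonneg (mul_nonneg (mul_nonneg (mul_nonneg hu hw) hz) hz) hz,
    mul_nonneg (mul_nonneg (mul_nonneg (mul_nonneg hu hz) hz) hz) hz,
    mul_nonneg (mul_nonneg (mul_nonneg (mul_nonneg hw hw) hw) hw) hw,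
    mul_nonneg (mul_nonneg (mul_nonneg (mul_nonneg hw hw) hw) hw) hz,
    mul_nonneg (mul_nonneg (mul_nonneg (mul_nonneg hw hw) hw) hz) hz,
    mul_nonneg (mul_nonneg (mul_nonneg (mul_nonneg hw hw) hz) hz) hz,
    mul_nonneg (mul_nonneg (mul_nonneg (mul_nonneg hw hz) hz) hz) hz,
    mul_nonneg (mul_nonneg (mul_nonneg (mul_nonneg hz hz) hz) hz) hz,
    mul_nonneg (mul_nonneg (mul_nonneg (mul_nonneg (mul_nonneg hu hu) hu) hu) hu) hu,
    mul_nonneg (mul_nonneg (mul_nonneg (mul_nonneg (mul_nonneg hu hu) hu) hu) hu) hw,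
    mul_nonneg (mul_nonneg (mul_nonneg (mul_nonneg (mul_nonneg hu hu) hu) hu) hu) hz,
    mul_nonneg (mul_nonneg (mul_nonneg (mul_nonneg (mul_nonneg hu hu) hu) hu) hw) hw,
    mul_nonneg (mul_nonneg (mul_nonneg (mul_nonneg (mul_nonneg hu hu) hu) hu) hw) hz,
    mul_nonneg (mul_nonneg (mul_nonneg (mul_nonneg (mul_nonneg hu hu) hu) hu) hz) hz,
    mul_nonneg (mul_nonneg (mul_nonneg (mul_nonneg (mul_nonneg hu hu) hu) hw) hw) hw,
    mul_nonneg (mul_nonneg (mul_nonneg (mul_nonneg (mul_nonneg hu hu) hu) hw) hw) hz,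
    mul_nonneg (mul_nonneg (mul_nonneg (mul_nonneg (mul_nonneg hu hu) hu) hw) hz) hz,
    mul_nonneg (mul_nonneg (mul_nonneg (mul_nonneg (mul_nonneg hu hu) hu) hz) hz) hz,
    mul_nonneg (mul_nonneg (mul_nonneg (mul_nonneg (mul_nonneg hu hu) hw) hw) hw) hw,
    mul_nonneg (mul_nonneg (mul_nonneg (mul_nonneg (mul_nonneg hu hu) hw) hw) hw) hz,
    mul_nonneg (mul_nonneg (mul_nonneg (mul_nonneg (mul_nonneg hu hu) hw) hw) hz) hz,
    mul_nonneg (mul_nonneg (mul_nonneg (mul_nonneg (mul_nonneg hu hu) hw) hz) hz) hz,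
    mul_nonneg (mul_nonneg (mul_nonneg (mul_nonneg (mul_nonneg hu hu) hz) hz) hz) hz,
    mul_nonneg (mul_nonneg (mul_nonneg (mul_nonneg (mul_nonneg hu hw) hw) hw) hw) hw,
    mul_nonneg (mul_nonneg (mul_nonneg (mul_nonneg (mul_nonneg hu hw) hw) hw) hw) hz,
    mul_nonneg (mul_nonneg (mul_nonneg (mul_nonneg (mul_nonneg hu hw) hw) hw) hz) hz,
    mul_nonneg (mul_nonneg (mul_nonneg (mul_nonneg (mul_nonneg hu hw) hw) hz) hz) hz,
    mul_nonneg (mul_nonneg (mul_nonneg (mul_nonneg (mul_nonneg hu hw) hz) hz) hz) hz,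
    mul_nonneg (mul_nonneg (mul_nonneg (mul_nonneg (mul_nonneg hu hz) hz) hz) hz) hz,
    mul_nonneg (mul_nonneg (mul_nonneg (mul_nonneg (mul_nonneg hw hw) hw) hw) hw) hw,
    mul_nonneg (mul_nonneg (mul_nonneg (mul_nonneg (mul_nonneg hw hw) hw) hw) hw) hz,
    mul_nonneg (mul_nonneg (mul_nonneg (mul_nonneg (mul_nonneg hw hw) hw) hw) hz) hz,
    mul_nonneg (mul_nonneg (mul_nonneg (mul_nonneg (mul_nonneg hw hw) hw) hz) hz) hz,
    mul_nonneg (mul_nonneg (mul_nonneg (mul_nonneg (mul_nonneg hw hw) hz) hz) hz) hz,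
    mul_nonneg (mul_nonneg (mul_nonneg (mul_nonneg (mul_nonneg hw hz) hz) hz) hz) hz,
    mul_nonneg (mul_nonneg (mul_nonneg (mul_nonneg (mul_nonneg hz hz) hz) hz) hz) hz]

/-- The second regime. -/
theorem wk_mid (α β x p s c : ℝ) (h : α + β = 1) (h1 : 1 / 4 ≤ β) (h2 : β ≤ 14 / 25)
    (hx0 : 0 ≤ x) (hx : x ≤ (3 / 8) * α) (hp : p = α - x) (hc : β ^ 2 ≤ 2 * p * (p - x))
    (hs0 : 0 ≤ s) (hs : s ^ 2 = x ^ 2 + 2 * p * x) (hs2 : 2 * β ≤ s)
    (hcc : c * (p + β) = 3 * p * (β + 2 * x)) :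
    s ^ 3 - x ^ 3 - 3 * p * x ^ 2 - β * c * (s - x) + β * c ^ 2 / 12 ≤ 0 := by
  obtain rfl : α = 1 - β := by linarith
  subst hp
  have hq : x ^ 2 + 2 * (1 - β - x) * x = 2 * (1 - β) * x - x ^ 2 := by ring
  rw [hq] at hs
  have hs2' : 4 * β ^ 2 ≤ 2 * (1 - β) * x - x ^ 2 := by nlinarith
  have hb : β ≤ 17 / 60 := by
    by_contra hn
    push Not at hn
    nlinarith [mul_nonneg (sub_nonneg.2 hx) (show (0 : ℝ) ≤ (13 / 8) * (1 - β) - x by linarith)]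
  have hxl : 9 / 50 ≤ x := by
    by_contra hn
    push Not at hn
    nlinarith [mul_nonneg hx0 (sub_nonneg.2 h1)]
  have hsu : s ≤ 293 / 500 := by
    by_contra hn
    push Not at hn
    nlinarith [mul_nonneg (sub_nonneg.2 hx) (show (0 : ℝ) ≤ (13 / 8) * (1 - β) - x by linarith)]
  have hsl : (2 * (1 - β) * x - x ^ 2 + 293 / 1000) * (500 / 543) ≤ s := by
    nlinarith [mul_nonneg (show (0 : ℝ) ≤ s - 1 / 2 by linarith) (sub_nonneg.2 hsu)]
  have hsg := wz1_mid_sign β x (by linarith) (by linarith) (by linarith) (by linarith)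
  have hx1 : 0 < 1 - x := by linarith
  have hcc' : c * (1 - x) = 3 * (1 - β - x) * (β + 2 * x) := by rw [← hcc]; ring
  by_contra hn
  push Not at hn
  have e := mul_pos (pow_pos hx1 2) hn
  have e1 : (1 - x) ^ 2 * (s ^ 3 - x ^ 3 - 3 * (1 - β - x) * x ^ 2 - β * c * (s - x) +
      β * c ^ 2 / 12) = (1 - x) ^ 2 * (s * s ^ 2 - x ^ 3 - 3 * (1 - β - x) * x ^ 2) -
      β * (c * (1 - x)) * (1 - x) * (s - x) + β * (c * (1 - x)) ^ 2 / 12 := by ring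
  rw [e1, hcc', hs] at e
  have e2 := mul_nonneg (mul_nonneg hsg hx1.le) (sub_nonneg.2 hsl)
  have e3 := wz1_mid_poly β x (by linarith) (by linarith) (by linarith)
  linarith

/-- The bound at the right end. -/
theorem wz1_end (α β x p s c : ℝ) (h : α + β = 1) (h1 : 1 / 4 ≤ β) (h2 : β ≤ 14 / 25)
    (hx0 : 0 ≤ x) (hx : x ≤ (3 / 8) * α) (hp : p = α - x) (hc : β ^ 2 ≤ 2 * p * (p - x))
    (hs : s ^ 2 = x ^ 2 + 2 * p * x) (hcc : c * (p + β) = 3 * p * (β + 2 * x)) :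
    s ^ 3 - x ^ 3 - 3 * p * x ^ 2 ≤ β * c * p - β * (3 * β + c) ^ 2 / 32 := by
  obtain rfl : α = 1 - β := by linarith
  subst hp
  have hq : x ^ 2 + 2 * (1 - β - x) * x = 2 * (1 - β) * x - x ^ 2 := by ring
  rw [hq] at hs
  have h3 := wz1_s s _ (3 / 5) (by norm_num) hs
  rw [div_eq_mul_inv, show (2 * (3 / 5) : ℝ)⁻¹ = 5 / 6 by norm_num,
    show ((3 / 5 : ℝ)) ^ 2 = 9 / 25 by norm_num] at h3
  have hq0 : 0 ≤ 2 * (1 - β) * x - x ^ 2 := by rw [← hs]; positivity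
  have hx1 : 0 < 1 - x := by linarith
  have hcc' : c * (1 - x) = 3 * (1 - β - x) * (β + 2 * x) := by rw [← hcc]; ring
  have hw : 0 ≤ 9 / 25 * (171 / 500 - (β - 1 / 4)) - 171 / 500 * x := by
    by_contra hn
    push Not at hn
    have hpos : 0 < (6 * (1 - β) - 4 * x) * (171 / 500) -
        4 * (9 / 25 * (171 / 500 - (β - 1 / 4))) := by linarith
    nlinarith [mul_pos (neg_pos.2 hn) hpos, sq_nonneg (β - 4567 / 10000)]
  have e3 := wz1_end_poly β x (by linarith) hx0 hw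
  by_contra hn
  push Not at hn
  have e := mul_pos (pow_pos hx1 2) (sub_pos.2 hn)
  have e1 : (1 - x) ^ 2 * (s ^ 3 - x ^ 3 - 3 * (1 - β - x) * x ^ 2 -
      (β * c * (1 - β - x) - β * (3 * β + c) ^ 2 / 32)) =
      (1 - x) ^ 2 * (s * s ^ 2 - x ^ 3 - 3 * (1 - β - x) * x ^ 2) -
      β * (c * (1 - x)) * (1 - β - x) * (1 - x) +
      β * (3 * β * (1 - x) + c * (1 - x)) ^ 2 / 32 := by ring
  rw [e1, hcc', hs] at e
  have e2 := mul_nonneg (mul_nonneg hq0 (sub_nonneg.2 h3)) (pow_pos hx1 2).le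
  linarith

/-- The convexity step. -/
theorem wz1_conv (α s w lam : ℝ) (hsw : s ≤ w) (hwα : w ≤ α) :
    (α - s) * (max (3 * w - lam) 0) ^ 2 ≤
      (α - w) * (max (3 * s - lam) 0) ^ 2 + (w - s) * (max (3 * α - lam) 0) ^ 2 := by
  rcases le_total (3 * w - lam) 0 with h | h
  · rw [max_eq_right h]
    have h1 := mul_nonneg (sub_nonneg.2 hwα) (sq_nonneg (max (3 * s - lam) 0))
    have h2 := mul_nonneg (sub_nonneg.2 hsw) (sq_nonneg (max (3 * α - lam) 0))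
    linarith
  · rw [max_eq_left h, max_eq_left (show (0 : ℝ) ≤ 3 * α - lam by linarith)]
    rcases le_total (3 * s - lam) 0 with h' | h'
    · rw [max_eq_right h']
      have e1 : 0 ≤ (3 * w - lam) * (3 * α - lam) * (α - w) :=
        mul_nonneg (mul_nonneg h (by linarith)) (by linarith)
      have e2 : 0 ≤ (lam - 3 * s) * ((3 * α - lam) + (3 * w - lam)) * (α - w) :=
        mul_nonneg (mul_nonneg (by linarith) (by linarith)) (by linarith)
      nlinarith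
    · rw [max_eq_left h']
      nlinarith [mul_nonneg (mul_nonneg (sub_nonneg.2 hsw) (sub_nonneg.2 hwα))
        (show (0 : ℝ) ≤ α - s by linarith)]

/-- The bound to the right of `x`. -/
theorem wz1_right (β x p s lam w c : ℝ) (h1 : 1 / 4 ≤ β) (h2 : β ≤ 14 / 25)
    (hx0 : 0 ≤ x) (hx : x ≤ (3 / 8) * (1 - β)) (hp : p = 1 - β - x)
    (hs : s ^ 2 = x ^ 2 + 2 * p * x) (hlam : 3 * x ≤ lam)
    (hcc : c * (p + β) = 3 * p * (β + 2 * x)) (hw : x ≤ w) :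
    β * (-c * w + (max (3 * w - lam) 0) ^ 2 / 8) + (3 / 2) * w * s ^ 2 - w ^ 3 / 2 ≤
      -β * c * x + x ^ 3 + 3 * p * x ^ 2 := by
  have hx1 : 0 < 1 - x := by linarith
  have hM : (max (3 * w - lam) 0) ^ 2 ≤ 9 * (w - x) ^ 2 := by
    have e1 : max (3 * w - lam) 0 ≤ 3 * (w - x) := max_le (by linarith) (by linarith)
    have e2 : 0 ≤ max (3 * w - lam) 0 := le_max_right _ _
    calc (max (3 * w - lam) 0) ^ 2 ≤ (3 * (w - x)) ^ 2 := pow_le_pow_left₀ e2 e1 2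
      _ = 9 * (w - x) ^ 2 := by ring
  obtain ⟨r, rfl⟩ : ∃ r, w = x + r := ⟨w - x, by ring⟩
  have hr : 0 ≤ r := by linarith
  have hp0 : 0 ≤ p := by linarith
  have hA1 : (β * c - 3 * p * x) * (1 - x) = 3 * p * ((β + x) ^ 2 - x) := by
    have e : (β * c - 3 * p * x) * (1 - x) = β * (c * (p + β)) - 3 * p * x * (1 - x) := by
      rw [hp]; ring
    rw [e, hcc, hp]; ring
  have hsq : 0 ≤ (β + x) ^ 2 - x := by nlinarith [sq_nonneg (x - 1 / 4)]
  have hA : 0 ≤ β * c - 3 * p * x := by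
    have e : 0 ≤ (β * c - 3 * p * x) * (1 - x) := by
      rw [hA1]; exact mul_nonneg (by linarith) hsq
    exact nonneg_of_mul_nonneg_left e hx1
  have key : 0 ≤ (β * c - 3 * p * x) + ((3 / 2) * x - (9 / 8) * β) * r + r ^ 2 / 2 := by
    rcases le_total ((3 / 4) * β) x with h' | h'
    · have := mul_nonneg (show (0 : ℝ) ≤ (3 / 2) * x - (9 / 8) * β by linarith) hr
      nlinarith [sq_nonneg r]
    · have hd := wz1_disc β x (by linarith) hx0 (by linarith) (by linarith) (by linarith)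
      have hd2 : ((3 / 2) * x - (9 / 8) * β) ^ 2 ≤ 2 * (β * c - 3 * p * x) := by
        have e : ((3 / 2) * x - (9 / 8) * β) ^ 2 * (1 - x) ≤
            2 * (β * c - 3 * p * x) * (1 - x) := by
          rw [mul_assoc, hA1, hp]; linarith
        exact le_of_mul_le_mul_right e hx1
      nlinarith [sq_nonneg (r + ((3 / 2) * x - (9 / 8) * β))]
  have h3 := mul_nonneg hr key
  have h4 := mul_le_mul_of_nonneg_left hM (show (0 : ℝ) ≤ β / 8 by linarith)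
  rw [hs]
  nlinarith

/-- The bound to the left of `x`. -/
theorem wz1_leftb (β x p s w c : ℝ) (h1 : 1 / 4 ≤ β) (h2 : β ≤ 14 / 25)
    (hx0 : 0 ≤ x) (hx : x ≤ (3 / 8) * (1 - β)) (hp : p = 1 - β - x)
    (hc : β ^ 2 ≤ 2 * p * (p - x)) (hs0 : 0 ≤ s)
    (hs : s ^ 2 = x ^ 2 + 2 * p * x) (hsα : s ≤ 1 - β)
    (hcc : c * (p + β) = 3 * p * (β + 2 * x)) (hw : w ≤ x) :
    -β * c * w + (3 / 2) * w * s ^ 2 - w ^ 3 / 2 -
      (3 * β - s - w / 2) * (s ^ 2 - 2 * w * (1 - β) + w ^ 2) ≤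
      -β * c * x + x ^ 3 + 3 * p * x ^ 2 := by
  have hx1 : 0 < 1 - x := by linarith
  have hl := wk_left (1 - β) β x p s (by ring) h1 h2 hx0 hx hp hc hs0 hs
  have hp0 : 0 ≤ p := by linarith
  have hB : 0 ≤ 2 * p * (x + 3 * β - s) - β * c := by
    have e : 0 ≤ (2 * p * (x + 3 * β - s) - β * c) * (1 - x) := by
      have e1 : (2 * p * (x + 3 * β - s) - β * c) * (1 - x) =
          p * (2 * (3 * β + x - s) * (p + β)) - β * (c * (p + β)) := by rw [hp]; ring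
      rw [e1, hcc]
      nlinarith [mul_nonneg hp0 (sub_nonneg.2 hl)]
    exact nonneg_of_mul_nonneg_left e hx1
  have h3 := mul_nonneg (sub_nonneg.2 hw) hB
  have h4 := mul_nonneg (mul_nonneg (sub_nonneg.2 hw) (sub_nonneg.2 hw))
    (show (0 : ℝ) ≤ 3 * β - s + (1 - β) by linarith)
  rw [hs]
  subst hp
  nlinarith

theorem wz1_sb (β x s : ℝ) (h1 : 1 / 4 ≤ β) (hx0 : 0 ≤ x) (hx : x ≤ (3 / 8) * (1 - β))
    (hs0 : 0 ≤ s) (hs : s ^ 2 = 2 * (1 - β) * x - x ^ 2) (hs2 : 2 * β ≤ s) :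
    s ≤ (1 - β) - β / 2 := by
  have hb1 : β ≤ 1 := by linarith
  have hq : s ^ 2 ≤ (39 / 64) * (1 - β) ^ 2 := by
    rw [hs]
    nlinarith [mul_nonneg (sub_nonneg.2 hx)
      (show (0 : ℝ) ≤ (13 / 8) * (1 - β) - x by linarith)]
  have hb : β ≤ 7 / 24 := by
    by_contra hn
    push Not at hn
    have e : (2 * β) ^ 2 ≤ s ^ 2 := pow_le_pow_left₀ (by linarith) hs2 2
    nlinarith
  by_contra hn
  push Not at hn
  have e : ((1 - β) - β / 2) ^ 2 ≤ s ^ 2 := pow_le_pow_left₀ (by linarith) hn.le 2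
  nlinarith

theorem wk (α β x p s lam w : ℝ) (h : α + β = 1) (h1 : 1 / 4 ≤ β) (h2 : β ≤ 14 / 25)
    (hx0 : 0 ≤ x) (hx : x ≤ (3 / 8) * α) (hp : p = α - x) (hc : β ^ 2 ≤ 2 * p * (p - x))
    (hs0 : 0 ≤ s) (hs : s ^ 2 = x ^ 2 + 2 * p * x)
    (hl : lam * (2 * (p + β)) = 6 * p ^ 2 - 3 * β ^ 2 + 6 * β * x) (hw : 0 ≤ w)
    (hwα : w ≤ α) :
    Ph α β s lam w ≤ β * (-(6 * α - 3 * β - 2 * lam) * x) + x ^ 3 + 3 * p * x ^ 2 := by
  obtain rfl : α = 1 - β := by linarith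
  obtain ⟨c, hcd⟩ : ∃ c, c = 6 * (1 - β) - 3 * β - 2 * lam := ⟨_, rfl⟩
  have hx1 : 0 < 1 - x := by linarith
  have hpb : p + β = 1 - x := by linarith
  have hcc : c * (p + β) = 3 * p * (β + 2 * x) := by
    have e : c * (p + β) = (6 * (1 - β) - 3 * β) * (p + β) - lam * (2 * (p + β)) := by
      rw [hcd]; ring
    rw [e, hl, hp]; ring
  have hp0 : 0 ≤ p := by linarith
  have hc0 : 0 ≤ c := by
    have e : 0 ≤ c * (p + β) := by
      rw [hcc]; exact mul_nonneg (by linarith) (by linarith)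
    rw [hpb] at e
    exact nonneg_of_mul_nonneg_left e hx1
  have hlam : 3 * x ≤ lam := by
    have e : 0 ≤ (lam - 3 * x) * (1 - x) := by
      have e1 : 2 * ((lam - 3 * x) * (1 - x)) =
          lam * (2 * (p + β)) - 6 * x * (1 - x) := by rw [hpb]; ring
      have e2 : 6 * p ^ 2 - 3 * β ^ 2 + 6 * β * x - 6 * x * (1 - x) =
          3 * (2 * p * (p - x) - β ^ 2) := by rw [hp]; ring
      have e3 : 0 ≤ 2 * ((lam - 3 * x) * (1 - x)) := by
        rw [e1, hl, e2]; linarith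
      linarith
    have := nonneg_of_mul_nonneg_left e hx1
    linarith
  have hsα : s < 1 - β := by
    by_contra hn
    push Not at hn
    have e : (1 - β) ^ 2 ≤ s ^ 2 := pow_le_pow_left₀ (by linarith) hn 2
    rw [hs, hp] at e
    nlinarith [mul_nonneg hp0 hp0, mul_pos (show (0 : ℝ) < 1 - β by linarith)
      (show (0 : ℝ) < 1 - β by linarith)]
  have hxs : x ≤ s := by
    by_contra hn
    push Not at hn
    have e : s ^ 2 < x ^ 2 := pow_lt_pow_left₀ hn hs0 (by norm_num)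
    nlinarith [mul_nonneg hp0 hx0]
  have hright := fun v hv => wz1_right β x p s lam v c h1 h2 hx0 hx hp hs hlam hcc hv
  rw [← hcd]
  unfold Ph FF
  rw [← hcd]
  split_ifs with c1 c2
  · have hS := hright s hxs
    have hE := wz1_end (1 - β) β x p s c (by ring) h1 h2 hx0 hx hp hc hs hcc
    have hS' : β * (-c * s + (max (3 * s - lam) 0) ^ 2 / 8) + s ^ 3 ≤
        -β * c * x + x ^ 3 + 3 * p * x ^ 2 := by
      have : (3 / 2) * s * s ^ 2 - s ^ 3 / 2 = s ^ 3 := by ring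
      linarith
    have hM : max (3 * (1 - β) - lam) 0 = (3 * β + c) / 2 := by
      have e : 3 * (1 - β) - lam = (3 * β + c) / 2 := by rw [hcd]; ring
      rw [e]
      exact max_eq_left (by linarith)
    have hE' : β * (-c * (1 - β) + (max (3 * (1 - β) - lam) 0) ^ 2 / 8) + s ^ 3 ≤
        -β * c * x + x ^ 3 + 3 * p * x ^ 2 := by
      rw [hM]
      have e : p = 1 - β - x := hp
      have e' : β * c * p = β * c * (1 - β) - β * c * x := by rw [e]; ring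
      linarith
    have hcv := wz1_conv (1 - β) s w lam c1 hwα
    have e1 := mul_le_mul_of_nonneg_left hS' (sub_nonneg.2 hwα)
    have e2 := mul_le_mul_of_nonneg_left hE' (sub_nonneg.2 c1)
    have e3 := mul_le_mul_of_nonneg_left hcv (show (0 : ℝ) ≤ β / 8 by linarith)
    have e4 : (1 - β - s) * (β * (-c * w + (max (3 * w - lam) 0) ^ 2 / 8) + s ^ 3) ≤
        (1 - β - s) * (-β * c * x + x ^ 3 + 3 * p * x ^ 2) := by
      linarith
    have e5 := le_of_mul_le_mul_left e4 (show (0 : ℝ) < 1 - β - s by linarith)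
    linarith
  · push Not at c1
    have hs2 : 2 * β ≤ s := by linarith
    have hm := wk_mid (1 - β) β x p s c (by ring) h1 h2 hx0 hx hp hc hs0 hs hs2 hcc
    have hsb := wz1_sb β x s h1 hx0 hx hs0 (by rw [hs, hp]; ring) hs2
    have hM : (max (3 * w - lam) 0) ^ 2 ≤ 9 * (c / 6 - (s - w)) ^ 2 := by
      rcases le_total (3 * w - lam) 0 with h' | h'
      · rw [max_eq_right h']; nlinarith [sq_nonneg (c / 6 - (s - w))]
      · rw [max_eq_left h']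
        have e1 : 3 * w - lam ≤ 3 * (c / 6 - (s - w)) := by rw [hcd]; linarith
        calc (3 * w - lam) ^ 2 ≤ (3 * (c / 6 - (s - w))) ^ 2 := pow_le_pow_left₀ h' e1 2
          _ = 9 * (c / 6 - (s - w)) ^ 2 := by ring
    have e1 := mul_le_mul_of_nonneg_left hM (show (0 : ℝ) ≤ β / 8 by linarith)
    have e2 := mul_nonneg (show (0 : ℝ) ≤ β by linarith) (sq_nonneg (c / 6 - (s - w)))
    linarith
  · push Not at c1 c2
    rcases le_total x w with hxw | hxw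
    · have hz : s ^ 2 - 2 * w * (1 - β) + w ^ 2 ≤ 0 := by
        rw [hs, hp]
        nlinarith [mul_nonneg (sub_nonneg.2 hxw) (show (0 : ℝ) ≤ 2 * (1 - β) - x - w by linarith)]
      rw [max_eq_left hz]
      have := hright w hxw
      linarith
    · have hz : 0 ≤ s ^ 2 - 2 * w * (1 - β) + w ^ 2 := by
        rw [hs, hp]
        nlinarith [mul_nonneg (sub_nonneg.2 hxw) (show (0 : ℝ) ≤ 2 * (1 - β) - x - w by linarith)]
      rw [max_eq_right hz, max_eq_right (show 3 * w - lam ≤ 0 by linarith)]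
      have := wz1_leftb β x p s w c h1 h2 hx0 hx hp hc hs0 hs hsα.le hcc hxw
      linarith

end Pool.H3F
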