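import Pool.Agent.H3F.WZ1
import Pool.Agent.H3F.ES2

/-! WZ2: the zone of the second family. -/

namespace Pool.H3F

private theorem wz2_B0 (a : ℝ) (h1 : 11 / 25 ≤ a) (h2 : a ≤ 3 / 4) :
    0 ≤ (3)*a^4 + (2)*a^3 + (-3)*a^2 + (2/5) := by
  have e : (3)*a^4 + (2)*a^3 + (-3)*a^2 + (2/5) =
      (10201088/923521) * (a - 11 / 25) ^ 0 * (3 / 4 - a) ^ 4 +
      (26662400/923521) * (a - 11 / 25) ^ 1 * (3 / 4 - a) ^ 3 +
      (48810000/923521) * (a - 11 / 25) ^ 2 * (3 / 4 - a) ^ 2 +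
      (80125000/923521) * (a - 11 / 25) ^ 3 * (3 / 4 - a) ^ 1 +
      (50546875/923521) * (a - 11 / 25) ^ 4 * (3 / 4 - a) ^ 0 := by ring
  rw [e]
  have hs : 0 ≤ a - 11 / 25 := by linarith
  have ht : 0 ≤ 3 / 4 - a := by linarith
  positivity

private theorem wz2_B1 (a : ℝ) (h1 : 11 / 25 ≤ a) (h2 : a ≤ 3 / 4) :
    0 ≤ (27/16)*a^4 + (41/16)*a^3 + (-3)*a^2 + (-3/80)*a + (2/5) := by
  have e : (27/16)*a^4 + (41/16)*a^3 + (-3)*a^2 + (-3/80)*a + (2/5) =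
      (8423312/923521) * (a - 11 / 25) ^ 0 * (3 / 4 - a) ^ 4 +
      (14652800/923521) * (a - 11 / 25) ^ 1 * (3 / 4 - a) ^ 3 +
      (15931875/923521) * (a - 11 / 25) ^ 2 * (3 / 4 - a) ^ 2 +
      (152321875/3694084) * (a - 11 / 25) ^ 3 * (3 / 4 - a) ^ 1 +
      (478984375/14776336) * (a - 11 / 25) ^ 4 * (3 / 4 - a) ^ 0 := by ring
  rw [e]
  have hs : 0 ≤ a - 11 / 25 := by linarith
  have ht : 0 ≤ 3 / 4 - a := by linarith
  positivity

private theorem wz2_B2 (a : ℝ) (h1 : 11 / 25 ≤ a) (h2 : a ≤ 3 / 4) :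
    0 ≤ (57/128)*a^4 + (109/32)*a^3 + (-393/128)*a^2 + (-3/40)*a + (2/5) := by
  have e : (57/128)*a^4 + (109/32)*a^3 + (-393/128)*a^2 + (-3/40)*a + (2/5) =
      (7943624/923521) * (a - 11 / 25) ^ 0 * (3 / 4 - a) ^ 4 +
      (11723975/923521) * (a - 11 / 25) ^ 1 * (3 / 4 - a) ^ 3 +
      (49475625/7388168) * (a - 11 / 25) ^ 2 * (3 / 4 - a) ^ 2 +
      (85815625/3694084) * (a - 11 / 25) ^ 3 * (3 / 4 - a) ^ 1 +
      (2491015625/118210688) * (a - 11 / 25) ^ 4 * (3 / 4 - a) ^ 0 := by ring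
  rw [e]
  have hs : 0 ≤ a - 11 / 25 := by linarith
  have ht : 0 ≤ 3 / 4 - a := by linarith
  positivity

private theorem wz2_B3 (a : ℝ) (h1 : 11 / 25 ≤ a) (h2 : a ≤ 3 / 4) :
    0 ≤ (-93/128)*a^4 + (1133/256)*a^3 + (-411/128)*a^2 + (-9/80)*a + (2/5) := by
  have e : (-93/128)*a^4 + (1133/256)*a^3 + (-411/128)*a^2 + (-9/80)*a + (2/5) =
      (7863599/923521) * (a - 11 / 25) ^ 0 * (3 / 4 - a) ^ 4 +
      (49533125/3694084) * (a - 11 / 25) ^ 1 * (3 / 4 - a) ^ 3 +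
      (114279375/14776336) * (a - 11 / 25) ^ 2 * (3 / 4 - a) ^ 2 +
      (1149746875/59105344) * (a - 11 / 25) ^ 3 * (3 / 4 - a) ^ 1 +
      (1877890625/118210688) * (a - 11 / 25) ^ 4 * (3 / 4 - a) ^ 0 := by ring
  rw [e]
  have hs : 0 ≤ a - 11 / 25 := by linarith
  have ht : 0 ≤ 3 / 4 - a := by linarith
  positivity

private theorem wz2_B4 (a : ℝ) (h1 : 11 / 25 ≤ a) (h2 : a ≤ 3 / 4) :
    0 ≤ (-3663/2048)*a^4 + (353/64)*a^3 + (-219/64)*a^2 + (-3/20)*a + (2/5) := by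
  have e : (-3663/2048)*a^4 + (353/64)*a^3 + (-219/64)*a^2 + (-3/20)*a + (2/5) =
      (1918207/238328) * (a - 11 / 25) ^ 0 * (3 / 4 - a) ^ 4 +
      (3135175/238328) * (a - 11 / 25) ^ 1 * (3 / 4 - a) ^ 3 +
      (18508125/1906624) * (a - 11 / 25) ^ 2 * (3 / 4 - a) ^ 2 +
      (75434375/3813248) * (a - 11 / 25) ^ 3 * (3 / 4 - a) ^ 1 +
      (817109375/61011968) * (a - 11 / 25) ^ 4 * (3 / 4 - a) ^ 0 := by ring
  rw [e]
  have hs : 0 ≤ a - 11 / 25 := by linarith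
  have ht : 0 ≤ 3 / 4 - a := by linarith
  positivity


/-- The tangent condition. -/
theorem wt (α β x p x' lam : ℝ) (h : α + β = 1) (h1 : 1 / 4 ≤ β) (h2 : β ≤ 14 / 25)
    (hx0 : 0 ≤ x) (hx : x ≤ (3 / 8) * α) (hp : p = α - x) (hc : β ^ 2 ≤ 2 * p * (p - x))
    (hl : lam * (2 * (p + β)) = 6 * p ^ 2 - 3 * β ^ 2 + 6 * β * x) (hx'0 : 0 ≤ x')
    (hx' : x' ≤ α) (ha : 0 ≤ (α - x') ^ 2 - 2 * x' * β) :
    lam ≤ 6 * α - 3 * β - 4 * x - 2 * x' := by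
  have _ := hc
  have hβ : β = 1 - α := by linarith
  subst hβ
  subst hp
  have hα1 : 11 / 25 ≤ α := by linarith
  have hα2 : α ≤ 3 / 4 := by linarith
  have hf : x' * (2 - x') ≤ α ^ 2 := by nlinarith [ha]
  have hx34 : x' ≤ 17 / 50 := by
    by_contra hcon
    have hcon' : 17 / 50 < x' := not_le.mp hcon
    nlinarith [mul_pos (sub_pos.mpr hcon') (show (0 : ℝ) < 83 / 50 - x' by linarith)]
  have hx61 : x' ≤ (61 / 100) * α ^ 2 := by
    nlinarith [mul_nonneg hx'0 (sub_nonneg.mpr hx34)]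
  have hx1 : 0 < 1 - x := by linarith
  have hq1 : 0 ≤ 9 * α - 3 - 3 * α ^ 2 + (9 / 32) * α ^ 2 -
      (61 / 25) * α ^ 2 * (1 - (3 / 8) * α) := by
    nlinarith [mul_nonneg (sub_nonneg.mpr hα1) (sub_nonneg.mpr hα2),
      mul_nonneg (mul_nonneg (sub_nonneg.mpr hα1) (sub_nonneg.mpr hα1)) (sub_nonneg.mpr hα2),
      mul_nonneg (mul_nonneg (sub_nonneg.mpr hα1) (sub_nonneg.mpr hα2)) (sub_nonneg.mpr hα2)]
  have hq2 : 0 ≤ ((3 / 8) * α - x) * (8 - 2 * (x + (3 / 8) * α) - (61 / 25) * α ^ 2) := by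
    refine mul_nonneg (by linarith) ?_
    nlinarith
  have hq : 0 ≤ 12 * α - 3 - 8 * x - 3 * α ^ 2 + 2 * x ^ 2 -
      (61 / 25) * α ^ 2 * (1 - x) := by nlinarith [hq1, hq2]
  have hx'' : 4 * x' * (1 - x) ≤ (61 / 25) * α ^ 2 * (1 - x) := by
    nlinarith [mul_nonneg (sub_nonneg.mpr hx61) hx1.le]
  have hm : lam * (2 * (1 - x)) ≤ (6 * α - 3 * (1 - α) - 4 * x - 2 * x') * (2 * (1 - x)) := by
    nlinarith [hl, hq, hx'']
  exact le_of_mul_le_mul_right hm (by linarith)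

/-- The height of the line at `0`. -/
theorem w0 (α β x p lam : ℝ) (h : α + β = 1) (h1 : 1 / 4 ≤ β) (h2 : β ≤ 14 / 25)
    (hx0 : 0 ≤ x) (hx : x ≤ (3 / 8) * α) (hp : p = α - x) (hc : β ^ 2 ≤ 2 * p * (p - x))
    (hl : lam * (2 * (p + β)) = 6 * p ^ 2 - 3 * β ^ 2 + 6 * β * x) :
    2 * p ^ 3 + 3 * x * β ^ 2 - 3 * x ^ 2 * β - lam * (p ^ 2 - 2 * x * β) ≤ 1 / 5 := by
  have _ := hc
  have hβ : β = 1 - α := by linarith
  subst hβ
  subst hp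
  have hα1 : 11 / 25 ≤ α := by linarith
  have hα2 : α ≤ 3 / 4 := by linarith
  have hx1 : 0 < 1 - x := by linarith
  have hB0 := wz2_B0 α hα1 hα2
  have hB1 := wz2_B1 α hα1 hα2
  have hB2 := wz2_B2 α hα1 hα2
  have hB3 := wz2_B3 α hα1 hα2
  have hB4 := wz2_B4 α hα1 hα2
  have hu : 0 ≤ (8 / 3) * x := by linarith
  have hv : 0 ≤ α - (8 / 3) * x := by linarith
  have hα4 : 0 < α ^ 4 := by positivity
  set g := (6 * (α - x) ^ 2 - 3 * (1 - α) ^ 2 + 6 * (1 - α) * x) *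
    ((α - x) ^ 2 - 2 * x * (1 - α)) -
    2 * (1 - x) * (2 * (α - x) ^ 3 + 3 * x * (1 - α) ^ 2 - 3 * x ^ 2 * (1 - α) - 1 / 5) with hg
  have e : α ^ 4 * g = ((3)*α^4 + (2)*α^3 + (-3)*α^2 + (2/5)) * (α - (8 / 3) * x) ^ 4 +
      4 * (((27/16)*α^4 + (41/16)*α^3 + (-3)*α^2 + (-3/80)*α + (2/5))) * ((8 / 3) * x) * (α - (8 / 3) * x) ^ 3 +
      6 * (((57/128)*α^4 + (109/32)*α^3 + (-393/128)*α^2 + (-3/40)*α + (2/5))) * ((8 / 3) * x) ^ 2 * (α - (8 / 3) * x) ^ 2 +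
      4 * (((-93/128)*α^4 + (1133/256)*α^3 + (-411/128)*α^2 + (-9/80)*α + (2/5))) * ((8 / 3) * x) ^ 3 * (α - (8 / 3) * x) +
      ((-3663/2048)*α^4 + (353/64)*α^3 + (-219/64)*α^2 + (-3/20)*α + (2/5)) * ((8 / 3) * x) ^ 4 := by
    rw [hg]
    ring
  have hpos : 0 ≤ α ^ 4 * g := by
    rw [e]
    have t0 := mul_nonneg hB0 (pow_nonneg hv 4)
    have t1 := mul_nonneg (mul_nonneg hB1 hu) (pow_nonneg hv 3)
    have t2 := mul_nonneg (mul_nonneg hB2 (pow_nonneg hu 2)) (pow_nonneg hv 2)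
    have t3 := mul_nonneg (mul_nonneg hB3 (pow_nonneg hu 3)) hv
    have t4 := mul_nonneg hB4 (pow_nonneg hu 4)
    linarith
  have hg0 : 0 ≤ g := nonneg_of_mul_nonneg_right hpos hα4
  have hm : (2 * (α - x) ^ 3 + 3 * x * (1 - α) ^ 2 - 3 * x ^ 2 * (1 - α) -
      lam * ((α - x) ^ 2 - 2 * x * (1 - α))) * (2 * (1 - x)) ≤ 1 / 5 * (2 * (1 - x)) := by
    have e2 : lam * (2 * (α - x + (1 - α))) = lam * (2 * (1 - x)) := by ring
    rw [e2] at hl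
    have e3 : (lam * ((α - x) ^ 2 - 2 * x * (1 - α))) * (2 * (1 - x)) =
        (6 * (α - x) ^ 2 - 3 * (1 - α) ^ 2 + 6 * (1 - α) * x) *
          ((α - x) ^ 2 - 2 * x * (1 - α)) := by
      rw [← hl]; ring
    have e4 : (2 * (α - x) ^ 3 + 3 * x * (1 - α) ^ 2 - 3 * x ^ 2 * (1 - α) -
      lam * ((α - x) ^ 2 - 2 * x * (1 - α))) * (2 * (1 - x)) =
      2 * (1 - x) * (2 * (α - x) ^ 3 + 3 * x * (1 - α) ^ 2 - 3 * x ^ 2 * (1 - α)) -
      (lam * ((α - x) ^ 2 - 2 * x * (1 - α))) * (2 * (1 - x)) := by ring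
    rw [e4, e3]
    linarith
  exact le_of_mul_le_mul_right hm (by linarith)

private theorem wz2_mono {a b c : ℝ} (h : Below a b) (hc : c ≤ b) : Below a c := by
  obtain ⟨d, hd, hb⟩ := h
  exact ⟨d, hd, hc.trans hb⟩

theorem zone_W (α β x p s a b : ℝ) (h : α + β = 1) (h1 : 1 / 4 ≤ β) (h2 : β ≤ 14 / 25)
    (hx0 : 0 ≤ x) (hx : x ≤ (3 / 8) * α) (hp : p = α - x) (hc : β ^ 2 ≤ 2 * p * (p - x))
    (hs0 : 0 ≤ s) (hs : s ^ 2 = x ^ 2 + 2 * p * x) (hG : GI α β s a b) (h3 : 1 - √2 ≤ a)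
    (h4 : a ≤ 9 / 25) : Below a b := by
  have hα1 : 11 / 25 ≤ α := by linarith
  have hα2 : α ≤ 3 / 4 := by linarith
  have hx1 : 0 < 1 - x := by linarith
  have hpβ : p + β = 1 - x := by linarith
  have hp0 : 0 ≤ p := by linarith
  set lam := (6 * p ^ 2 - 3 * β ^ 2 + 6 * β * x) / (2 * (p + β)) with hlamd
  have hden : 0 < 2 * (p + β) := by rw [hpβ]; linarith
  have hl : lam * (2 * (p + β)) = 6 * p ^ 2 - 3 * β ^ 2 + 6 * β * x := by
    rw [hlamd]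
    field_simp
  have hβ0 : 0 ≤ β := by linarith
  have hlam0 : 0 ≤ lam := by
    rw [hlamd]
    refine div_nonneg ?_ hden.le
    nlinarith [mul_nonneg hp0 hx0, mul_nonneg hβ0 hx0]
  have hb := hG lam (β * (-(6 * α - 3 * β - 2 * lam) * x) + x ^ 3 + 3 * p * x ^ 2)
    (fun w hw hwα => wk α β x p s lam w h h1 h2 hx0 hx hp hc hs0 hs hl hw hwα)
  have hs3 : α ^ 2 - s ^ 2 = p ^ 2 := by rw [hs, hp]; ring
  have hline : b ≤ 2 * p ^ 3 + 3 * x * β ^ 2 - 3 * x ^ 2 * β +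
      lam * (a - (p ^ 2 - 2 * x * β)) := by
    rw [hs3] at hb
    rw [hs] at hb
    refine hb.trans (le_of_eq ?_)
    rw [hp]
    ring
  have hw0 := w0 α β x p lam h h1 h2 hx0 hx hp hc hl
  by_cases ha0 : a ≤ 0
  · refine wz2_mono (es_0 a h3 (by linarith)) ?_
    have : lam * a ≤ 0 := mul_nonpos_of_nonneg_of_nonpos hlam0 ha0
    nlinarith
  · have ha0' : 0 ≤ a := (not_le.mp ha0).le
    by_cases haα : a ≤ α ^ 2
    · have hα' : 1 - β = α := by linarith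
      refine wz2_mono (es_W a β x p lam hβ0 hx0 (by rw [hp]; linarith) hp0 (by linarith)
        (by rw [← hl, hpβ]) ha0' (by rw [hα']; exact haα) ?_) hline
      intro x' hx'0 hx' hax'
      rw [hα'] at hx' hax' ⊢
      exact wt α β x p x' lam h h1 h2 hx0 hx hp hc hl hx'0 hx' (by rw [← hax']; exact ha0')
    · have haα' : α ^ 2 < a := not_le.mp haα
      have hα3 : α ≤ 3 / 5 := by nlinarith
      have hT0 := wt α β x p 0 lam h h1 h2 hx0 hx hp hc hl le_rfl (by linarith)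
        (by nlinarith [sq_nonneg α])
      have hgap : 2 * p ^ 3 + 3 * x * β ^ 2 - 3 * x ^ 2 * β +
          lam * (α ^ 2 - (p ^ 2 - 2 * x * β)) ≤ 2 * α ^ 3 := by
        have e : 2 * α ^ 3 - (2 * p ^ 3 + 3 * x * β ^ 2 - 3 * x ^ 2 * β +
            lam * (α ^ 2 - (p ^ 2 - 2 * x * β))) =
            x ^ 2 * (6 * α - 3 * β - 4 * x - lam) +
            x * ((6 * p ^ 2 - 3 * β ^ 2 + 6 * β * x) - lam * (2 * (p + β))) := by
          rw [hp]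
          ring
        have e2 : 0 ≤ x ^ 2 * (6 * α - 3 * β - 4 * x - lam) :=
          mul_nonneg (sq_nonneg x) (by linarith)
        rw [hl, sub_self, mul_zero, add_zero] at e
        linarith
      have hlam84 : lam ≤ 21 / 25 := by
        have hm : lam * (2 * (p + β)) ≤ 21 / 25 * (2 * (p + β)) := by
          rw [hl, hpβ, hp]
          have hβ : β = 1 - α := by linarith
          subst hβ
          nlinarith [mul_nonneg hx0 (sub_nonneg.mpr hx), mul_nonneg hx0 (sub_nonneg.mpr hα3),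
            mul_nonneg (sub_nonneg.mpr hα1) (sub_nonneg.mpr hα3),
            mul_nonneg hx0 (sub_nonneg.mpr hα1)]
        exact le_of_mul_le_mul_right hm hden
      have hα0 : 0 ≤ α := by linarith
      refine wz2_mono (es_2 a (by nlinarith) h4) ?_
      have h5 : b ≤ 2 * α ^ 3 + lam * (a - α ^ 2) := by nlinarith [hline, hgap]
      have h6 : lam * (a - α ^ 2) ≤ 21 / 25 * (a - α ^ 2) :=
        mul_le_mul_of_nonneg_right hlam84 (by linarith)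
      have h7 : 0 ≤ 174229 / 500000 + (9327 / 8300) * (α ^ 2 - 2073 / 10000) - 2 * α ^ 3 := by
        nlinarith [mul_nonneg (sub_nonneg.mpr hα1) (sub_nonneg.mpr hα3),
          mul_nonneg (mul_nonneg (sub_nonneg.mpr hα1) (sub_nonneg.mpr hα3)) hα0]
      linarith

end Pool.H3F
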