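import Pool.Agent.H3F.Defs2

/-! Moving along the curve. -/

namespace Pool.H3F

namespace WalkAux

variable {n : ℕ} (S : Shadow n)

theorem corner_neg (j : ZMod (2 * n)) (h : S.tau j = -1) :
    S.L (S.star j) = S.R j ∧ S.L (S.star j - 1) = S.L j ∧ S.R (S.star j - 1) = S.L (j - 1) ∧
      S.R (S.star j) = S.R (j - 1) := by
  have h1 : S.tau (S.star j) = 1 := by rw [S.tau_star, h]; norm_num
  have h2 := S.corner (S.star j) h1
  rw [S.star_star] at h2
  exact h2

end WalkAux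

namespace Shadow

variable {n : ℕ} (S : Shadow n)

theorem star_ne (j : ZMod (2 * n)) : S.star j ≠ j := by
  intro h
  have h1 := S.tau_star j
  rw [h] at h1
  rcases S.tau_pm j with h2 | h2 <;> omega

/-- The left sides of two consecutive edges are the two sides of an edge that starts or ends at
the crossing between them; the same holds for the right sides. -/
theorem consecL (j : ZMod (2 * n)) :
    (S.tau j = 1 ∧ S.L (j - 1) = S.L (S.star j) ∧ S.L j = S.R (S.star j)) ∨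
    (S.tau j = -1 ∧ S.L (j - 1) = S.R (S.star j - 1) ∧ S.L j = S.L (S.star j - 1)) := by
  rcases S.tau_pm j with h | h
  · obtain ⟨h1, h2, h3, h4⟩ := S.corner j h
    exact Or.inl ⟨h, h2, h1⟩
  · obtain ⟨h1, h2, h3, h4⟩ := WalkAux.corner_neg S j h
    exact Or.inr ⟨h, h3.symm, h2.symm⟩

theorem consecR (j : ZMod (2 * n)) :
    (S.tau j = 1 ∧ S.R (j - 1) = S.L (S.star j - 1) ∧ S.R j = S.R (S.star j - 1)) ∨
    (S.tau j = -1 ∧ S.R (j - 1) = S.R (S.star j) ∧ S.R j = S.L (S.star j)) := by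
  rcases S.tau_pm j with h | h
  · obtain ⟨h1, h2, h3, h4⟩ := S.corner j h
    exact Or.inl ⟨h, h3, h4⟩
  · obtain ⟨h1, h2, h3, h4⟩ := WalkAux.corner_neg S j h
    exact Or.inr ⟨h, h4.symm, h1.symm⟩

theorem walk (I : Fin (n + 2) → ℤ) (z : ZMod (2 * n) → ℤ) (h : S.IsIndex I z)
    (j : ZMod (2 * n)) :
    I (S.L j) - I (S.L (j - 1)) =
      -S.tau j * (if S.tau j = 1 then z (S.star j) else z (S.star j - 1)) := by
  rcases S.consecL j with ⟨h1, h2, h3⟩ | ⟨h1, h2, h3⟩
  · have h4 := h (S.star j)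
    rw [h1, if_pos rfl, h2, h3, ← h4]
    ring
  · have h4 := h (S.star j - 1)
    rw [h1, if_neg (by norm_num), h2, h3, ← h4]
    ring

/-- The two descriptions of the four corners at a crossing agree. -/
theorem corners_star (P : Fin (n + 2) → Prop) (j : ZMod (2 * n)) :
    ((P (S.L j) ∨ P (S.R j) ∨ P (S.L (j - 1)) ∨ P (S.R (j - 1))) ↔
      (P (S.L (S.star j)) ∨ P (S.R (S.star j)) ∨ P (S.L (S.star j - 1)) ∨
        P (S.R (S.star j - 1)))) ∧
    ((P (S.L j) ∧ P (S.R j) ∧ P (S.L (j - 1)) ∧ P (S.R (j - 1))) ↔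
      (P (S.L (S.star j)) ∧ P (S.R (S.star j)) ∧ P (S.L (S.star j - 1)) ∧
        P (S.R (S.star j - 1)))) := by
  rcases S.tau_pm j with h | h
  · obtain ⟨h1, h2, h3, h4⟩ := S.corner j h
    rw [h1, h2, h3, h4]
    tauto
  · obtain ⟨h1, h2, h3, h4⟩ := WalkAux.corner_neg S j h
    rw [h1, h2, h3, h4]
    tauto

end Shadow

end Pool.H3F
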