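import Pool.Agent.H3F.XDefs

/-! Decomposition into positive and negative parts. -/

namespace Pool.H3F

open Finset

section

variable {V : Type} [Fintype V] {ρ : V → ℝ} {I : V → V → ℝ}

theorem IsSys.neg (h : IsSys ρ I) : IsSys (fun i => -ρ i) I :=
  ⟨h.sym, h.zo, by simp only [abs_neg]; exact h.mass⟩

theorem aOf_neg (ρ : V → ℝ) (I : V → V → ℝ) : aOf (fun i => -ρ i) I = aOf ρ I := by
  unfold aOf
  refine Finset.sum_congr rfl fun i _ => Finset.sum_congr rfl fun j _ => ?_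
  ring

theorem bOf_neg (ρ : V → ℝ) (I : V → V → ℝ) : bOf (fun i => -ρ i) I = -bOf ρ I := by
  unfold bOf
  rw [← Finset.sum_neg_distrib]
  refine Finset.sum_congr rfl fun i _ => ?_
  rw [← Finset.sum_neg_distrib]
  refine Finset.sum_congr rfl fun j _ => ?_
  rw [← Finset.sum_neg_distrib]
  refine Finset.sum_congr rfl fun k _ => ?_
  ring

theorem pp_nonneg (ρ : V → ℝ) (i : V) : 0 ≤ pp ρ i := le_max_right _ _

theorem mm_nonneg (ρ : V → ℝ) (i : V) : 0 ≤ mm ρ i := le_max_right _ _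

theorem xa_sub (ρ : V → ℝ) (i : V) : ρ i = pp ρ i - mm ρ i := by
  unfold pp mm
  rcases le_total 0 (ρ i) with h | h
  · rw [max_eq_left h, max_eq_right (by linarith)]; ring
  · rw [max_eq_right h, max_eq_left (by linarith)]; ring

theorem xa_abs (ρ : V → ℝ) (i : V) : |ρ i| = pp ρ i + mm ρ i := by
  unfold pp mm
  rcases le_total 0 (ρ i) with h | h
  · rw [max_eq_left h, max_eq_right (by linarith), abs_of_nonneg h]; ring
  · rw [max_eq_right h, max_eq_left (by linarith), abs_of_nonpos h]; ring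

theorem IsSys.tot_add (h : IsSys ρ I) : tot (pp ρ) + tot (mm ρ) = 1 := by
  unfold tot
  rw [← Finset.sum_add_distrib, ← h.mass]
  exact Finset.sum_congr rfl fun i _ => (xa_abs ρ i).symm

theorem IsSys.tot_sub (ρ : V → ℝ) : ∑ i, ρ i = tot (pp ρ) - tot (mm ρ) := by
  unfold tot
  rw [← Finset.sum_sub_distrib]
  exact Finset.sum_congr rfl fun i _ => xa_sub ρ i

theorem xa_q2_symm (h : IsSys ρ I) (x y : V → ℝ) : q2 x y I = q2 y x I := by
  unfold q2
  rw [Finset.sum_comm]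
  refine Finset.sum_congr rfl fun i _ => Finset.sum_congr rfl fun j _ => ?_
  rw [h.sym j i]
  ring

theorem IsSys.a_eq (h : IsSys ρ I) :
    aOf ρ I = q2 (pp ρ) (pp ρ) I - 2 * q2 (mm ρ) (pp ρ) I + q2 (mm ρ) (mm ρ) I := by
  have h1 : aOf ρ I = q2 (pp ρ) (pp ρ) I - q2 (mm ρ) (pp ρ) I - q2 (pp ρ) (mm ρ) I +
      q2 (mm ρ) (mm ρ) I := by
    unfold aOf q2
    simp only [← Finset.sum_sub_distrib, ← Finset.sum_add_distrib]
    refine Finset.sum_congr rfl fun i _ => Finset.sum_congr rfl fun j _ => ?_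
    rw [xa_sub ρ i, xa_sub ρ j]
    ring
  rw [h1, xa_q2_symm h (pp ρ) (mm ρ)]
  ring

theorem xa_tri12 (h : IsSys ρ I) (x y z : V → ℝ) : tri x y z I = tri y x z I := by
  unfold tri
  rw [Finset.sum_comm]
  refine Finset.sum_congr rfl fun i _ => Finset.sum_congr rfl fun j _ =>
    Finset.sum_congr rfl fun k _ => ?_
  rw [h.sym j i]
  unfold phi
  ring

theorem xa_tri23 (h : IsSys ρ I) (x y z : V → ℝ) : tri x y z I = tri x z y I := by
  unfold tri
  refine Finset.sum_congr rfl fun i _ => ?_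
  rw [Finset.sum_comm]
  refine Finset.sum_congr rfl fun j _ => Finset.sum_congr rfl fun k _ => ?_
  rw [h.sym k j]
  unfold phi
  ring

theorem IsSys.b_eq (h : IsSys ρ I) :
    bOf ρ I = tri (pp ρ) (pp ρ) (pp ρ) I - 3 * tri (mm ρ) (pp ρ) (pp ρ) I +
      3 * tri (pp ρ) (mm ρ) (mm ρ) I - tri (mm ρ) (mm ρ) (mm ρ) I := by
  have h1 : bOf ρ I = tri (pp ρ) (pp ρ) (pp ρ) I - tri (mm ρ) (pp ρ) (pp ρ) I
      - tri (pp ρ) (mm ρ) (pp ρ) I - tri (pp ρ) (pp ρ) (mm ρ) I + tri (mm ρ) (mm ρ) (pp ρ) I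
      + tri (mm ρ) (pp ρ) (mm ρ) I + tri (pp ρ) (mm ρ) (mm ρ) I - tri (mm ρ) (mm ρ) (mm ρ) I := by
    unfold bOf tri
    simp only [← Finset.sum_sub_distrib, ← Finset.sum_add_distrib]
    refine Finset.sum_congr rfl fun i _ => Finset.sum_congr rfl fun j _ =>
      Finset.sum_congr rfl fun k _ => ?_
    rw [xa_sub ρ i, xa_sub ρ j, xa_sub ρ k]
    ring
  rw [h1, xa_tri12 h (pp ρ) (mm ρ) (pp ρ), xa_tri23 h (pp ρ) (pp ρ) (mm ρ),
    xa_tri12 h (pp ρ) (mm ρ) (pp ρ), xa_tri23 h (mm ρ) (mm ρ) (pp ρ),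
    xa_tri12 h (mm ρ) (pp ρ) (mm ρ)]
  ring

/-- `phi` in terms of the complementary graph. -/
theorem phi_co (x y z : ℝ) :
    phi x y z = 2 - ((1 - x) + (1 - y) + (1 - z)) + (1 - x) * (1 - y) * (1 - z) := by
  unfold phi
  ring

theorem xa_prod2 (x y : V → ℝ) : ∑ i, ∑ j, x i * y j = tot x * tot y := by
  unfold tot
  rw [Finset.sum_mul_sum]

theorem IsSys.u_eq (x : V → ℝ) (I : V → V → ℝ) : q2 x x (co I) = tot x ^ 2 - q2 x x I := by
  rw [pow_two, ← xa_prod2]
  unfold q2 co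
  simp only [← Finset.sum_sub_distrib]
  refine Finset.sum_congr rfl fun i _ => Finset.sum_congr rfl fun j _ => ?_
  ring

theorem xa_prod3 (x y z : V → ℝ) :
    ∑ i, ∑ j, ∑ k, x i * y j * z k = tot x * tot y * tot z := by
  rw [← xa_prod2]
  unfold tot
  rw [Finset.sum_mul]
  refine Finset.sum_congr rfl fun i _ => ?_
  rw [Finset.sum_mul]
  refine Finset.sum_congr rfl fun j _ => ?_
  rw [Finset.mul_sum]

theorem xa_s12 (x y z : V → ℝ) (A : V → V → ℝ) :
    ∑ i, ∑ j, ∑ k, x i * y j * z k * A i j = tot z * q2 x y A := by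
  unfold q2 tot
  rw [Finset.mul_sum]
  refine Finset.sum_congr rfl fun i _ => ?_
  rw [Finset.mul_sum]
  refine Finset.sum_congr rfl fun j _ => ?_
  rw [Finset.sum_mul]
  refine Finset.sum_congr rfl fun k _ => ?_
  ring

theorem xa_s23 (x y z : V → ℝ) (A : V → V → ℝ) :
    ∑ i, ∑ j, ∑ k, x i * y j * z k * A j k = tot x * q2 y z A := by
  unfold q2 tot
  rw [Finset.sum_mul]
  refine Finset.sum_congr rfl fun i _ => ?_
  rw [Finset.mul_sum]
  refine Finset.sum_congr rfl fun j _ => ?_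
  rw [Finset.mul_sum]
  refine Finset.sum_congr rfl fun k _ => ?_
  ring

theorem xa_s13 (x y z : V → ℝ) (A : V → V → ℝ) :
    ∑ i, ∑ j, ∑ k, x i * y j * z k * A i k = tot y * q2 x z A := by
  have h : ∀ i, ∑ j, ∑ k, x i * y j * z k * A i k = ∑ k, ∑ j, x i * y j * z k * A i k :=
    fun i => Finset.sum_comm
  rw [Finset.sum_congr rfl fun i _ => h i]
  unfold q2 tot
  rw [Finset.mul_sum]
  refine Finset.sum_congr rfl fun i _ => ?_
  rw [Finset.mul_sum]
  refine Finset.sum_congr rfl fun j _ => ?_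
  rw [Finset.sum_mul]
  refine Finset.sum_congr rfl fun k _ => ?_
  ring

/-- One block, in terms of the complementary graph. -/
theorem IsSys.tri_same (h : IsSys ρ I) (x : V → ℝ) :
    tri x x x I = 2 * tot x ^ 3 - 3 * tot x * q2 x x (co I) +
      q3 x x x (co I) (co I) (co I) := by
  have _ := h
  have h1 : tri x x x I = 2 * (∑ i, ∑ j, ∑ k, x i * x j * x k) -
      (∑ i, ∑ j, ∑ k, x i * x j * x k * co I i j) - (∑ i, ∑ j, ∑ k, x i * x j * x k * co I j k)
      - (∑ i, ∑ j, ∑ k, x i * x j * x k * co I i k) + q3 x x x (co I) (co I) (co I) := by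
    unfold tri q3
    simp only [Finset.mul_sum, ← Finset.sum_sub_distrib, ← Finset.sum_add_distrib]
    refine Finset.sum_congr rfl fun i _ => Finset.sum_congr rfl fun j _ =>
      Finset.sum_congr rfl fun k _ => ?_
    rw [phi_co]
    unfold co
    ring
  rw [h1, xa_prod3, xa_s12, xa_s23, xa_s13]
  ring

theorem IsSys.tri_mixed (h : IsSys ρ I) (x y : V → ℝ) :
    tri y x x I = 2 * tot x * q2 y x I - tot y * q2 x x (co I) + ∑ i, y i * jn x I i := by
  have _ := h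
  have h1 : tri y x x I = (∑ i, ∑ j, ∑ k, y i * x j * x k * I i j) +
      (∑ i, ∑ j, ∑ k, y i * x j * x k * I i k) -
      (∑ i, ∑ j, ∑ k, y i * x j * x k * co I j k) + ∑ i, y i * jn x I i := by
    unfold tri jn
    simp only [Finset.mul_sum, ← Finset.sum_sub_distrib, ← Finset.sum_add_distrib]
    refine Finset.sum_congr rfl fun i _ => Finset.sum_congr rfl fun j _ =>
      Finset.sum_congr rfl fun k _ => ?_
    rw [phi_co]
    unfold co
    ring
  rw [h1, xa_s12, xa_s23, xa_s13]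
  ring

theorem xa_phi (h : IsSys ρ I) (i j k l m n : V) :
    0 ≤ phi (I i j) (I k l) (I m n) ∧ phi (I i j) (I k l) (I m n) ≤ 2 := by
  unfold phi
  rcases h.zo i j with h1 | h1 <;> rcases h.zo k l with h2 | h2 <;>
    rcases h.zo m n with h3 | h3 <;> rw [h1, h2, h3] <;> norm_num

theorem xa_q2_nonneg (h : IsSys ρ I) (x y : V → ℝ) (hx : ∀ i, 0 ≤ x i) (hy : ∀ i, 0 ≤ y i) :
    0 ≤ q2 x y I := by
  unfold q2
  refine Finset.sum_nonneg fun i _ => Finset.sum_nonneg fun j _ => ?_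
  have : 0 ≤ I i j := by rcases h.zo i j with h1 | h1 <;> rw [h1]; norm_num
  have := mul_nonneg (hx i) (hy j)
  positivity

theorem xa_q2_le (h : IsSys ρ I) (x y : V → ℝ) (hx : ∀ i, 0 ≤ x i) (hy : ∀ i, 0 ≤ y i) :
    q2 x y I ≤ tot x * tot y := by
  rw [← xa_prod2]
  unfold q2
  refine Finset.sum_le_sum fun i _ => Finset.sum_le_sum fun j _ => ?_
  have h1 : I i j ≤ 1 := by rcases h.zo i j with h1 | h1 <;> rw [h1]; norm_num
  have h2 := mul_nonneg (hx i) (hy j)
  calc x i * y j * I i j ≤ x i * y j * 1 := mul_le_mul_of_nonneg_left h1 h2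
    _ = x i * y j := mul_one _

/-- Range of the forms. -/
theorem IsSys.ext0 (h : IsSys ρ I) : |bOf ρ I| ≤ 2 ∧ aOf ρ I ≤ 1 ∧ -(1 / 2) ≤ aOf ρ I := by
  refine ⟨?_, ?_, ?_⟩
  · have h1 : tot (fun i => |ρ i|) = 1 := h.mass
    have h2 := xa_prod3 (fun i => |ρ i|) (fun i => |ρ i|) (fun i => |ρ i|)
    rw [h1] at h2
    unfold bOf
    calc |∑ i, ∑ j, ∑ k, ρ i * ρ j * ρ k * phi (I i j) (I j k) (I i k)|
        ≤ ∑ i, ∑ j, ∑ k, |ρ i * ρ j * ρ k * phi (I i j) (I j k) (I i k)| := by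
          refine (Finset.abs_sum_le_sum_abs _ _).trans (Finset.sum_le_sum fun i _ => ?_)
          refine (Finset.abs_sum_le_sum_abs _ _).trans (Finset.sum_le_sum fun j _ => ?_)
          exact Finset.abs_sum_le_sum_abs _ _
      _ ≤ ∑ i, ∑ j, ∑ k, 2 * (|ρ i| * |ρ j| * |ρ k|) := by
          refine Finset.sum_le_sum fun i _ => Finset.sum_le_sum fun j _ =>
            Finset.sum_le_sum fun k _ => ?_
          obtain ⟨h3, h4⟩ := xa_phi h i j j k i k
          rw [abs_mul, abs_mul, abs_mul, abs_of_nonneg h3]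
          have h5 : 0 ≤ |ρ i| * |ρ j| * |ρ k| := by positivity
          nlinarith
      _ = 2 := by
          have e : ∑ i, ∑ j, ∑ k, 2 * (|ρ i| * |ρ j| * |ρ k|) =
              2 * ∑ i, ∑ j, ∑ k, |ρ i| * |ρ j| * |ρ k| := by
            simp only [Finset.mul_sum]
          rw [e, h2]
          norm_num
  · have h1 : tot (fun i => |ρ i|) = 1 := h.mass
    have h2 := xa_prod2 (fun i => |ρ i|) (fun i => |ρ i|)
    rw [h1] at h2
    have h3 : aOf ρ I ≤ ∑ i, ∑ j, |ρ i| * |ρ j| := by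
      unfold aOf
      refine Finset.sum_le_sum fun i _ => Finset.sum_le_sum fun j _ => ?_
      have h4 : ρ i * ρ j ≤ |ρ i| * |ρ j| := by
        rw [← abs_mul]
        exact le_abs_self _
      have h5 : 0 ≤ |ρ i| * |ρ j| := by positivity
      rcases h.zo i j with h6 | h6 <;> rw [h6]
      · rw [mul_zero]; exact h5
      · rw [mul_one]; exact h4
    linarith
  · have h1 := h.a_eq
    have h2 := xa_q2_nonneg h (pp ρ) (pp ρ) (pp_nonneg ρ) (pp_nonneg ρ)
    have h3 := xa_q2_nonneg h (mm ρ) (mm ρ) (mm_nonneg ρ) (mm_nonneg ρ)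
    have h4 := xa_q2_le h (mm ρ) (pp ρ) (mm_nonneg ρ) (pp_nonneg ρ)
    have h5 := h.tot_add
    nlinarith [sq_nonneg (tot (pp ρ) - tot (mm ρ))]

end

end Pool.H3F
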