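import Pool.Agent.H3F.XA

/-! The basic upper bound for the cubic form. -/

namespace Pool.H3F

open Finset

section

variable {V : Type} [Fintype V] {ρ : V → ℝ} {I : V → V → ℝ}

theorem xb_phi_le (h : IsSys ρ I) (i j k : V) :
    phi (I i j) (I j k) (I i k) ≤ (I i j + I i k) * (1 + I j k) / 2 := by
  unfold phi
  rcases h.zo i j with h1 | h1 <;> rcases h.zo j k with h2 | h2 <;>
    rcases h.zo i k with h3 | h3 <;> rw [h1, h2, h3] <;> norm_num

theorem xb_phi_nonneg (h : IsSys ρ I) (i j k : V) : 0 ≤ phi (I i j) (I j k) (I i k) := by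
  unfold phi
  rcases h.zo i j with h1 | h1 <;> rcases h.zo j k with h2 | h2 <;>
    rcases h.zo i k with h3 | h3 <;> rw [h1, h2, h3] <;> norm_num

theorem xb_q2 (x y : V → ℝ) : q2 y x I = ∑ j, y j * dg x I j := by
  unfold q2 dg
  refine sum_congr rfl fun j _ => ?_
  rw [mul_sum]
  exact sum_congr rfl fun i _ => by ring

theorem IsSys.tri_two (h : IsSys ρ I) (x y : V → ℝ) (hx : ∀ i, 0 ≤ x i) (hy : ∀ i, 0 ≤ y i) :
    tri x y y I ≤ tot y * q2 y x I + ∑ i, y i * (dg x I i * dg y I i) := by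
  have hA : ∑ i, ∑ j, ∑ k, x i * y j * y k * (I i j * (1 + I j k)) =
      ∑ j, y j * (dg x I j * (tot y + dg y I j)) := by
    rw [sum_comm]
    refine sum_congr rfl fun j _ => ?_
    have e : tot y + dg y I j = ∑ k, y k * (1 + I j k) := by
      unfold tot dg
      rw [← sum_add_distrib]
      exact sum_congr rfl fun k _ => by ring
    rw [e]
    unfold dg
    rw [Finset.sum_mul_sum, Finset.mul_sum]
    refine sum_congr rfl fun i _ => ?_
    rw [mul_sum]
    refine sum_congr rfl fun k _ => ?_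
    rw [h.sym i j]
    ring
  have hB : ∑ i, ∑ j, ∑ k, x i * y j * y k * (I i k * (1 + I j k)) =
      ∑ i, ∑ j, ∑ k, x i * y j * y k * (I i j * (1 + I j k)) := by
    refine sum_congr rfl fun i _ => ?_
    rw [sum_comm]
    refine sum_congr rfl fun j _ => sum_congr rfl fun k _ => ?_
    rw [h.sym k j]
    ring
  calc tri x y y I ≤ ∑ i, ∑ j, ∑ k, x i * y j * y k * ((I i j + I i k) * (1 + I j k) / 2) := by
        unfold tri
        refine sum_le_sum fun i _ => sum_le_sum fun j _ => sum_le_sum fun k _ => ?_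
        exact mul_le_mul_of_nonneg_left (xb_phi_le h i j k)
          (mul_nonneg (mul_nonneg (hx i) (hy j)) (hy k))
    _ = (∑ i, ∑ j, ∑ k, x i * y j * y k * (I i j * (1 + I j k)) +
        ∑ i, ∑ j, ∑ k, x i * y j * y k * (I i k * (1 + I j k))) / 2 := by
        rw [← sum_add_distrib, sum_div]
        refine sum_congr rfl fun i _ => ?_
        rw [← sum_add_distrib, sum_div]
        refine sum_congr rfl fun j _ => ?_
        rw [← sum_add_distrib, sum_div]
        exact sum_congr rfl fun k _ => by ring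
    _ = ∑ j, y j * (dg x I j * (tot y + dg y I j)) := by rw [hB, hA]; ring
    _ = tot y * q2 y x I + ∑ i, y i * (dg x I i * dg y I i) := by
        rw [xb_q2, mul_sum, ← sum_add_distrib]
        exact sum_congr rfl fun i _ => by ring

theorem IsSys.u_val (h : IsSys ρ I) :
    q2 (pp ρ) (pp ρ) (co I) = (1 - aOf ρ I) - 2 * tot (mm ρ) + tot (mm ρ) ^ 2 -
      2 * q2 (mm ρ) (pp ρ) I + q2 (mm ρ) (mm ρ) I := by
  have h1 := h.tot_add
  have h2 := h.a_eq
  have h3 := IsSys.u_eq (pp ρ) I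
  have h4 : tot (pp ρ) = 1 - tot (mm ρ) := by linarith
  rw [h3, h4]
  linarith

theorem IsSys.upper (h : IsSys ρ I) :
    bOf ρ I ≤ 3 * aOf ρ I - 1 + 6 * tot (mm ρ) * (1 - aOf ρ I) - 9 * tot (mm ρ) ^ 2 +
      4 * tot (mm ρ) ^ 3 + q3 (pp ρ) (pp ρ) (pp ρ) (co I) (co I) (co I) -
      3 * (∑ y, mm ρ y * jn (pp ρ) I y) -
      3 * (1 - 2 * tot (mm ρ)) * q2 (mm ρ) (mm ρ) I - 3 * tot (mm ρ) * q2 (mm ρ) (pp ρ) I +
      3 * ∑ y, mm ρ y * (dg (pp ρ) I y * dg (mm ρ) I y) := by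
  have h1 := h.tot_add
  have h2 := h.b_eq
  have h3 := h.tri_same (pp ρ)
  have h4 := h.tri_mixed (pp ρ) (mm ρ)
  have h5 := h.tri_two (pp ρ) (mm ρ) (pp_nonneg ρ) (mm_nonneg ρ)
  have h6 : 0 ≤ tri (mm ρ) (mm ρ) (mm ρ) I := by
    unfold tri
    refine sum_nonneg fun i _ => sum_nonneg fun j _ => sum_nonneg fun k _ => ?_
    exact mul_nonneg (mul_nonneg (mul_nonneg (mm_nonneg ρ i) (mm_nonneg ρ j)) (mm_nonneg ρ k))
      (xb_phi_nonneg h i j k)
  have h7 := h.u_val
  have h8 : tot (pp ρ) = 1 - tot (mm ρ) := by linarith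
  rw [h8, h7] at h3 h4
  rw [h2, h3, h4]
  linarith

end

end Pool.H3F
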