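import Pool.Agent.H3F.Defs2

/-! Definitions for the extremal problem on signed weighted graphs. -/

namespace Pool.H3F

open Finset

section

variable {V : Type} [Fintype V]

/-- Positive part of the weights. -/
noncomputable def pp (ρ : V → ℝ) (i : V) : ℝ := max (ρ i) 0

/-- Negative part of the weights. -/
noncomputable def mm (ρ : V → ℝ) (i : V) : ℝ := max (-ρ i) 0

/-- Total weight. -/
def tot (x : V → ℝ) : ℝ := ∑ i, x i

/-- Bilinear form. -/
def q2 (x y : V → ℝ) (A : V → V → ℝ) : ℝ := ∑ i, ∑ j, x i * y j * A i j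

/-- Trilinear form. -/
def q3 (x y z : V → ℝ) (A B C : V → V → ℝ) : ℝ :=
  ∑ i, ∑ j, ∑ k, x i * y j * z k * (A i j * B j k * C i k)

/-- Trilinear form of the weight `phi`. -/
def tri (x y z : V → ℝ) (I : V → V → ℝ) : ℝ :=
  ∑ i, ∑ j, ∑ k, x i * y j * z k * phi (I i j) (I j k) (I i k)

/-- Weighted degree of `i`. -/
def dg (x : V → ℝ) (A : V → V → ℝ) (i : V) : ℝ := ∑ j, x j * A i j

/-- The complementary graph. -/
def co (I : V → V → ℝ) (i j : V) : ℝ := 1 - I i j

/-- Weight of the edges of the complementary graph between common non-neighbours of `y`. -/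
def jn (x : V → ℝ) (I : V → V → ℝ) (y : V) : ℝ :=
  ∑ k, ∑ l, x k * x l * (co I y k * co I y l * co I k l)

end

end Pool.H3F
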