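import Pool.Agent.H3F.XG3
import Pool.Agent.H3F.RZ8

/-! XG4: the second general inequality. -/

namespace Pool.H3F

open Finset

section

variable {V : Type} [Fintype V] {ρ : V → ℝ} {I : V → V → ℝ}

/-- The dependence on the mass `P`. -/
private theorem xg4_P (α β μ v P : ℝ) (hα : 0 < α) (hβ : 0 < β) (h1 : (3 / 2) * α ≤ μ)
    (h2 : μ ≤ α / 2 + 3 * β) (hv : 0 ≤ v) (hvα : v ≤ α) (hP : 0 ≤ P) (hPα : P ≤ α ^ 2) :
    (μ - (3 / 2) * α - 3 * β) * P + P ^ 2 / (2 * α) - 3 * β * max (v ^ 2 - P) 0 ≤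
      (μ - (3 / 2) * α - 3 * β) * v ^ 2 + v ^ 4 / (2 * α) := by
  have e : v ^ 4 / (2 * α) - P ^ 2 / (2 * α) = (v ^ 2 - P) * ((v ^ 2 + P) / (2 * α)) := by
    field_simp
    ring
  by_cases hPv : P ≤ v ^ 2
  · rw [max_eq_left (by linarith)]
    have h3 : 0 ≤ (v ^ 2 + P) / (2 * α) := by positivity
    have h4 : 0 ≤ (v ^ 2 - P) * ((v ^ 2 + P) / (2 * α)) := mul_nonneg (by linarith) h3
    have h5 : 0 ≤ (v ^ 2 - P) * (μ - (3 / 2) * α) := mul_nonneg (by linarith) (by linarith)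
    nlinarith [h4, h5, e]
  · have hPv' : v ^ 2 ≤ P := (not_le.mp hPv).le
    rw [max_eq_right (by linarith)]
    have h3 : (v ^ 2 + P) / (2 * α) ≤ α := by
      rw [div_le_iff₀ (by linarith)]
      nlinarith
    have h4 : 0 ≤ (P - v ^ 2) * (α - (v ^ 2 + P) / (2 * α)) :=
      mul_nonneg (by linarith) (by linarith)
    have h5 : 0 ≤ (P - v ^ 2) * (α / 2 + 3 * β - μ) := mul_nonneg (by linarith) (by linarith)
    nlinarith [h4, h5, e]

/-- Completing the square. -/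
private theorem xg4_d (μ v d : ℝ) (hd : 0 ≤ d) :
    (μ - 3 * v) * d - 2 * d ^ 2 ≤ (max (μ - 3 * v) 0) ^ 2 / 8 := by
  have h1 : (μ - 3 * v) * d ≤ max (μ - 3 * v) 0 * d :=
    mul_le_mul_of_nonneg_right (le_max_left _ _) hd
  nlinarith [sq_nonneg (max (μ - 3 * v) 0 - 4 * d)]

theorem IsSys.ci1 (h : IsSys ρ I) (hα : 0 < tot (pp ρ)) (hβ : 0 < tot (mm ρ)) :
    CI1 (tot (pp ρ)) (tot (mm ρ)) (aOf ρ I) (bOf ρ I) := by
  intro μ G hμ1 hμ2 hG
  have ha := h.cform_a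
  have hb := h.cform hα (tot (pp ρ)) (tot (mm ρ)) (q2 (pp ρ) (pp ρ) I)
    (∑ y, mm ρ y * nv ρ I y) (q2 (mm ρ) (mm ρ) I) rfl rfl rfl rfl rfl
  have hsum := h.tot_add
  have hgood := mmm_good h
  have hP0 : 0 ≤ q2 (pp ρ) (pp ρ) I := xa_q2_nonneg h _ _ (pp_nonneg ρ) (pp_nonneg ρ)
  have hP1 : q2 (pp ρ) (pp ρ) I ≤ tot (pp ρ) ^ 2 := by
    have := xa_q2_le h _ _ (pp_nonneg ρ) (pp_nonneg ρ)
    nlinarith [this]
  have hδ : q2 (mm ρ) (mm ρ) I = ∑ y, mm ρ y * dg (mm ρ) I y := XLAux.q2_eq _ _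
  set α := tot (pp ρ) with hαd
  set β := tot (mm ρ) with hβd
  set P := q2 (pp ρ) (pp ρ) I with hPd
  set H := ∑ y, mm ρ y * nv ρ I y with hHd
  set δ := q2 (mm ρ) (mm ρ) I with hδd
  set A := aOf ρ I with hAd
  set B := bOf ρ I with hBd
  set S1 := ∑ y, mm ρ y * (nv ρ I y * dg (mm ρ) I y) with hS1
  set S2 := ∑ y, mm ρ y * max (nv ρ I y ^ 2 - P) 0 with hS2
  set T := tri (mm ρ) (mm ρ) (mm ρ) I with hT
  set S3 := ∑ y, mm ρ y * dg (mm ρ) I y ^ 2 with hS3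
  -- the vertex sum
  have hvert : β * (μ * δ + (2 * μ - 3 * β) * H + (μ - (3 / 2) * α - 3 * β) * P + P ^ 2 / (2 * α) -
      3 * S1 - 3 * S2 - 2 * S3) ≤ β * G := by
    have e1 : β * (μ * δ + (2 * μ - 3 * β) * H + (μ - (3 / 2) * α - 3 * β) * P +
        P ^ 2 / (2 * α) - 3 * S1 - 3 * S2 - 2 * S3) =
        ∑ y, mm ρ y * (β * ((μ - 3 * nv ρ I y) * dg (mm ρ) I y - 2 * dg (mm ρ) I y ^ 2) +
          β * (2 * μ - 3 * β) * nv ρ I y +
          ((μ - (3 / 2) * α - 3 * β) * P + P ^ 2 / (2 * α) -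
            3 * β * max (nv ρ I y ^ 2 - P) 0)) := by
      have e2 : ∀ y, mm ρ y * (β * ((μ - 3 * nv ρ I y) * dg (mm ρ) I y -
          2 * dg (mm ρ) I y ^ 2) + β * (2 * μ - 3 * β) * nv ρ I y +
          ((μ - (3 / 2) * α - 3 * β) * P + P ^ 2 / (2 * α) -
            3 * β * max (nv ρ I y ^ 2 - P) 0)) =
          (β * μ) * (mm ρ y * dg (mm ρ) I y) - (3 * β) * (mm ρ y * (nv ρ I y * dg (mm ρ) I y)) -
          (2 * β) * (mm ρ y * dg (mm ρ) I y ^ 2) + (β * (2 * μ - 3 * β)) * (mm ρ y * nv ρ I y) +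
          ((μ - (3 / 2) * α - 3 * β) * P + P ^ 2 / (2 * α)) * mm ρ y -
          (3 * β) * (mm ρ y * max (nv ρ I y ^ 2 - P) 0) := fun y => by ring
      rw [Finset.sum_congr rfl fun y _ => e2 y, Finset.sum_sub_distrib, Finset.sum_add_distrib,
        Finset.sum_add_distrib, Finset.sum_sub_distrib, Finset.sum_sub_distrib,
        ← Finset.mul_sum, ← Finset.mul_sum, ← Finset.mul_sum, ← Finset.mul_sum,
        ← Finset.mul_sum, ← Finset.mul_sum, ← hS1, ← hS2, ← hS3, ← hHd, ← hδ]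
      have e3 : ∑ y, mm ρ y = β := rfl
      rw [e3]
      ring
    rw [e1]
    have e4 : β * G = ∑ y, mm ρ y * G := by
      rw [← Finset.sum_mul]
      rfl
    rw [e4]
    refine Finset.sum_le_sum fun y _ => mul_le_mul_of_nonneg_left ?_ (mm_nonneg ρ y)
    have hv0 := nv_nonneg h y
    have hv1 := nv_le h y
    have hd0 := XLAux.dg_nonneg h (mm_nonneg ρ) y
    have h5 := xg4_P α β μ (nv ρ I y) P hα hβ hμ1 hμ2 hv0 hv1 hP0 hP1
    have h6 := mul_le_mul_of_nonneg_left (xg4_d μ (nv ρ I y) (dg (mm ρ) I y) hd0) hβ.le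
    have h7 := hG (nv ρ I y) hv0 hv1
    linarith
  have hvert' := le_of_mul_le_mul_left hvert hβ
  have h8 : (3 * α - μ) * (A - (P - 2 * α * β + 2 * H + δ)) = 0 := by rw [ha]; ring
  have hα' : α = 1 - β := by linarith
  have h9 : 3 * α * β * (β - α) + 3 * α * δ + (6 * α - 3 * β) * H +
      ((3 / 2) * α - 3 * β) * P + (3 * α - μ) * (A - (P - 2 * α * β + 2 * H + δ)) =
      α * β * (3 * (α + β) - 2 * μ) + (3 * α - μ) * A + (μ * δ + (2 * μ - 3 * β) * H +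
      (μ - (3 / 2) * α - 3 * β) * P) := by ring
  rw [hsum] at h9
  linarith

end

end Pool.H3F
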