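import Pool.Agent.H3F.XG3
import Pool.Agent.H3F.RZ8

/-! XG5: the third and the fourth general inequality. -/

namespace Pool.H3F

open Finset

section

variable {V : Type} [Fintype V] {ρ : V → ℝ} {I : V → V → ℝ}

/-- The common part: the cubic form after the square of the complement is bounded. -/
private theorem xg5_base (h : IsSys ρ I) (hα : 0 < tot (pp ρ)) :
    0 ≤ q2 (pp ρ) (pp ρ) I ∧ 0 ≤ ∑ y, mm ρ y * nv ρ I y ∧ 0 ≤ q2 (mm ρ) (mm ρ) I ∧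
    aOf ρ I + 2 * tot (pp ρ) * tot (mm ρ) = q2 (pp ρ) (pp ρ) I + 2 * ∑ y, mm ρ y * nv ρ I y +
      q2 (mm ρ) (mm ρ) I ∧
    0 ≤ ∑ y, mm ρ y * (nv ρ I y * dg (mm ρ) I y) ∧
    0 ≤ ∑ y, mm ρ y * max (nv ρ I y ^ 2 - q2 (pp ρ) (pp ρ) I) 0 ∧
    bOf ρ I ≤ 3 * tot (pp ρ) * tot (mm ρ) * (tot (mm ρ) - tot (pp ρ)) +
      3 * tot (pp ρ) * (aOf ρ I + 2 * tot (pp ρ) * tot (mm ρ)) -
      3 * tot (mm ρ) * ∑ y, mm ρ y * nv ρ I y -
      (tot (pp ρ) + 3 * tot (mm ρ)) * q2 (pp ρ) (pp ρ) I -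
      3 * ∑ y, mm ρ y * (nv ρ I y * dg (mm ρ) I y) -
      3 * ∑ y, mm ρ y * max (nv ρ I y ^ 2 - q2 (pp ρ) (pp ρ) I) 0 -
      tri (mm ρ) (mm ρ) (mm ρ) I := by
  have ha := h.cform_a
  have hb := h.cform hα (tot (pp ρ)) (tot (mm ρ)) (q2 (pp ρ) (pp ρ) I)
    (∑ y, mm ρ y * nv ρ I y) (q2 (mm ρ) (mm ρ) I) rfl rfl rfl rfl rfl
  have hP0 : 0 ≤ q2 (pp ρ) (pp ρ) I := xa_q2_nonneg h _ _ (pp_nonneg ρ) (pp_nonneg ρ)
  have hP1 : q2 (pp ρ) (pp ρ) I ≤ tot (pp ρ) ^ 2 := by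
    have := xa_q2_le h _ _ (pp_nonneg ρ) (pp_nonneg ρ)
    nlinarith [this]
  have hδ0 : 0 ≤ q2 (mm ρ) (mm ρ) I := xa_q2_nonneg h _ _ (mm_nonneg ρ) (mm_nonneg ρ)
  have hH0 : 0 ≤ ∑ y, mm ρ y * nv ρ I y :=
    Finset.sum_nonneg fun y _ => mul_nonneg (mm_nonneg ρ y) (nv_nonneg h y)
  have hS1 : 0 ≤ ∑ y, mm ρ y * (nv ρ I y * dg (mm ρ) I y) :=
    Finset.sum_nonneg fun y _ => mul_nonneg (mm_nonneg ρ y)
      (mul_nonneg (nv_nonneg h y) (XLAux.dg_nonneg h (mm_nonneg ρ) y))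
  have hS2 : 0 ≤ ∑ y, mm ρ y * max (nv ρ I y ^ 2 - q2 (pp ρ) (pp ρ) I) 0 :=
    Finset.sum_nonneg fun y _ => mul_nonneg (mm_nonneg ρ y) (le_max_right _ _)
  set α := tot (pp ρ) with hαd
  set β := tot (mm ρ) with hβd
  set P := q2 (pp ρ) (pp ρ) I with hPd
  set H := ∑ y, mm ρ y * nv ρ I y with hHd
  set δ := q2 (mm ρ) (mm ρ) I with hδd
  have hPP : P ^ 2 / (2 * α) ≤ α * P / 2 := by
    rw [div_le_iff₀ (by linarith)]
    nlinarith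
  refine ⟨hP0, hH0, hδ0, by rw [ha]; ring, hS1, hS2, ?_⟩
  have e1 : aOf ρ I + 2 * α * β = P + 2 * H + δ := by rw [ha]; ring
  rw [e1]
  nlinarith [hb, hPP]

theorem IsSys.ci2 (h : IsSys ρ I) (hα : 0 < tot (pp ρ)) (hβ : 0 < tot (mm ρ)) :
    CI2 (tot (pp ρ)) (tot (mm ρ)) (aOf ρ I) (bOf ρ I) := by
  obtain ⟨hP0, hH0, hδ0, ha, hS1, hS2, hb⟩ := xg5_base h hα
  have hT0 : 0 ≤ tri (mm ρ) (mm ρ) (mm ρ) I := by
    refine le_trans ?_ (mmm_good h)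
    exact mul_nonneg zero_le_two
      (Finset.sum_nonneg fun y _ => mul_nonneg (mm_nonneg ρ y) (sq_nonneg _))
  have hδβ : q2 (mm ρ) (mm ρ) I ≤ tot (mm ρ) ^ 2 := by
    have := xa_q2_le h _ _ (mm_nonneg ρ) (mm_nonneg ρ)
    nlinarith [this]
  refine ⟨by linarith, fun h0 => ?_, fun k c s hk hs0 hsc e1 e2 => ?_⟩
  · have hP : q2 (pp ρ) (pp ρ) I = 0 := by linarith
    have hH : ∑ y, mm ρ y * nv ρ I y = 0 := by linarith
    rw [h0, hP, hH] at hb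
    rw [hP] at hS2
    linarith
  · have hkR : (3 : ℝ) ≤ (k : ℝ) := by exact_mod_cast hk
    have hc0 : 0 ≤ c := hs0.trans hsc
    have key : 2 * ((k : ℝ) * c ^ 3 + s ^ 3) - tri (mm ρ) (mm ρ) (mm ρ) I ≤
        3 * tot (mm ρ) * ((∑ y, mm ρ y * nv ρ I y) + q2 (pp ρ) (pp ρ) I) := by
      rcases hδ0.lt_or_eq with hδp | hδz
      · obtain ⟨k1, b1, s1, -, hs1, hsb1, e3, e4⟩ := raz_parts _ _ hβ hδp hδβ
        have h5 := mmm_raz h k1 b1 s1 hs1 hsb1 e3 e4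
        have h6 := raz_slope (tot (mm ρ)) hβ k k1 c s b1 s1 hk hs0 hsc hs1 hsb1 e1 e3
          (by rw [← e2, ← e4]; linarith)
        rw [← e2, ← e4, ha] at h6
        have h7 : 0 ≤ tot (mm ρ) * q2 (pp ρ) (pp ρ) I := mul_nonneg hβ.le hP0
        nlinarith [h5, h6, h7]
      · have h5 : (k : ℝ) * c ^ 3 + s ^ 3 ≤ c * ((k : ℝ) * c ^ 2 + s ^ 2) := by
          nlinarith [mul_nonneg (sub_nonneg.mpr hsc) (sq_nonneg s)]
        have h6 : 3 * c ≤ tot (mm ρ) := by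
          rw [e1]
          nlinarith
        have h7 : 0 ≤ (k : ℝ) * c ^ 2 + s ^ 2 := by positivity
        have h8 : 3 * (c * ((k : ℝ) * c ^ 2 + s ^ 2)) ≤ tot (mm ρ) * ((k : ℝ) * c ^ 2 + s ^ 2) := by
          nlinarith
        rw [← e2, ha, ← hδz] at h8 h5
        have h9 : 0 ≤ tot (mm ρ) * q2 (pp ρ) (pp ρ) I := mul_nonneg hβ.le hP0
        have h10 : 0 ≤ tot (mm ρ) * ∑ y, mm ρ y * nv ρ I y := mul_nonneg hβ.le hH0
        nlinarith [h5, h8, h9, h10]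
    have h11 : 0 ≤ tot (pp ρ) * q2 (pp ρ) (pp ρ) I := mul_nonneg hα.le hP0
    rw [← e2]
    nlinarith [hb, key, h11]

/-- Real inequality for one vertex. -/
theorem xg5_vertex (β D v d : ℝ) (hβ : 0 ≤ β) (hD : (9 / 50) * β ≤ D) (hv : 0 ≤ v)
    (hd : 0 ≤ d) :
    (1 / 3) * β * v - (4 / 3) * v ^ 2 - 3 * v * d - (2 / 3) * (d - D) ^ 2 ≤ 0 := by
  have hD0 : 0 ≤ D := by linarith
  have h1 : 0 ≤ v * (D - (9 / 50) * β) := mul_nonneg hv (by linarith)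
  have h2 : 0 ≤ v * D := mul_nonneg hv hD0
  have h3 : 0 ≤ v * d := mul_nonneg hv hd
  nlinarith [sq_nonneg (d - D + (7 / 5) * v), sq_nonneg v]

theorem IsSys.ci3 (h : IsSys ρ I) (hα : 0 < tot (pp ρ)) (hβ : 0 < tot (mm ρ)) :
    CI3 (tot (pp ρ)) (tot (mm ρ)) (aOf ρ I) (bOf ρ I) := by
  obtain ⟨hP0, hH0, hδ0, ha, hS1, hS2, hb⟩ := xg5_base h hα
  have hgood := mmm_good h
  have hδ : q2 (mm ρ) (mm ρ) I = ∑ y, mm ρ y * dg (mm ρ) I y := XLAux.q2_eq _ _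
  have hcs := XLAux.cs (x := mm ρ) (f := dg (mm ρ) I) (mm_nonneg ρ)
  unfold CI3
  obtain ⟨D, hDβ⟩ : ∃ D : ℝ, D * tot (mm ρ) = q2 (mm ρ) (mm ρ) I :=
    ⟨q2 (mm ρ) (mm ρ) I / tot (mm ρ), by field_simp⟩
  have hmix := mmm_mix h (tot (mm ρ)) (q2 (mm ρ) (mm ρ) I) D rfl hβ rfl hDβ
  have e3 : ∑ y, mm ρ y = tot (mm ρ) := rfl
  have hα0 : 0 ≤ tot (pp ρ) * q2 (pp ρ) (pp ρ) I := mul_nonneg hα.le hP0
  have hS3e : ∑ y, mm ρ y * (dg (mm ρ) I y * dg (mm ρ) I y) =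
      ∑ y, mm ρ y * dg (mm ρ) I y ^ 2 := Finset.sum_congr rfl fun y _ => by ring
  rw [← hδ, hS3e] at hcs
  set α := tot (pp ρ) with hαd
  set β := tot (mm ρ) with hβd
  set P := q2 (pp ρ) (pp ρ) I with hPd
  set H := ∑ y, mm ρ y * nv ρ I y with hHd
  set δ := q2 (mm ρ) (mm ρ) I with hδd
  set S1 := ∑ y, mm ρ y * (nv ρ I y * dg (mm ρ) I y) with hS1d
  set S2 := ∑ y, mm ρ y * max (nv ρ I y ^ 2 - P) 0 with hS2d
  set T := tri (mm ρ) (mm ρ) (mm ρ) I with hT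
  set S3 := ∑ y, mm ρ y * dg (mm ρ) I y ^ 2 with hS3
  have hv2 : (4 / 3) * ∑ y, mm ρ y * nv ρ I y ^ 2 ≤ (4 / 3) * β * P + 3 * S2 := by
    have e4 : (4 / 3) * β * P + 3 * S2 =
        ∑ y, mm ρ y * ((4 / 3) * P + 3 * max (nv ρ I y ^ 2 - P) 0) := by
      have e5 : ∀ y, mm ρ y * ((4 / 3) * P + 3 * max (nv ρ I y ^ 2 - P) 0) =
          ((4 / 3) * P) * mm ρ y + 3 * (mm ρ y * max (nv ρ I y ^ 2 - P) 0) := fun y => by ring
      rw [Finset.sum_congr rfl fun y _ => e5 y, Finset.sum_add_distrib, ← Finset.mul_sum,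
        ← Finset.mul_sum, e3]
      ring
    rw [e4, Finset.mul_sum]
    refine Finset.sum_le_sum fun y _ => ?_
    have h5 := le_max_left (nv ρ I y ^ 2 - P) 0
    have h6 := le_max_right (nv ρ I y ^ 2 - P) 0
    have h7 : (4 / 3) * nv ρ I y ^ 2 ≤ (4 / 3) * P + 3 * max (nv ρ I y ^ 2 - P) 0 := by linarith
    have h8 := mul_le_mul_of_nonneg_left h7 (mm_nonneg ρ y)
    linarith
  have hmain : (1 / 3) * β * H - (4 / 3) * (∑ y, mm ρ y * nv ρ I y ^ 2) - 3 * S1 +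
      (5 * β * δ - β ^ 3) / 3 - T ≤ 0 := by
    by_cases hD : (9 / 50) * β ≤ D
    · have h9 : (1 / 3) * β * H - (4 / 3) * (∑ y, mm ρ y * nv ρ I y ^ 2) - 3 * S1 -
          (2 / 3) * ∑ y, mm ρ y * (dg (mm ρ) I y - D) ^ 2 ≤ 0 := by
        have e6 : (1 / 3) * β * H - (4 / 3) * (∑ y, mm ρ y * nv ρ I y ^ 2) - 3 * S1 -
            (2 / 3) * ∑ y, mm ρ y * (dg (mm ρ) I y - D) ^ 2 =
            ∑ y, mm ρ y * ((1 / 3) * β * nv ρ I y - (4 / 3) * nv ρ I y ^ 2 -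
              3 * nv ρ I y * dg (mm ρ) I y - (2 / 3) * (dg (mm ρ) I y - D) ^ 2) := by
          rw [hHd, hS1d, Finset.mul_sum, Finset.mul_sum, Finset.mul_sum, Finset.mul_sum,
            ← Finset.sum_sub_distrib, ← Finset.sum_sub_distrib, ← Finset.sum_sub_distrib]
          refine Finset.sum_congr rfl fun y _ => ?_
          ring
        rw [e6]
        refine Finset.sum_nonpos fun y _ => ?_
        exact mul_nonpos_of_nonneg_of_nonpos (mm_nonneg ρ y)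
          (xg5_vertex β D _ _ hβ.le hD (nv_nonneg h y) (XLAux.dg_nonneg h (mm_nonneg ρ) y))
      linarith
    · have hD' : D ≤ (9 / 50) * β := (not_le.mp hD).le
      have hD0 : 0 ≤ D := by
        by_contra hneg
        have : D * β < 0 := mul_neg_of_neg_of_pos (not_le.mp hneg) hβ
        linarith
      have h10 : (1 / 3) * β * H - (4 / 3) * (∑ y, mm ρ y * nv ρ I y ^ 2) ≤ β ^ 3 / 48 := by
        have e7 : (1 / 3) * β * H - (4 / 3) * (∑ y, mm ρ y * nv ρ I y ^ 2) =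
            ∑ y, mm ρ y * ((1 / 3) * β * nv ρ I y - (4 / 3) * nv ρ I y ^ 2) := by
          rw [hHd, Finset.mul_sum, Finset.mul_sum, ← Finset.sum_sub_distrib]
          refine Finset.sum_congr rfl fun y _ => ?_
          ring
        have e8 : β ^ 3 / 48 = ∑ y, mm ρ y * (β ^ 2 / 48) := by
          rw [← Finset.sum_mul, e3]
          ring
        rw [e7, e8]
        refine Finset.sum_le_sum fun y _ => mul_le_mul_of_nonneg_left ?_ (mm_nonneg ρ y)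
        nlinarith [sq_nonneg (8 * nv ρ I y - β)]
      have h11 : D ^ 2 * β ≤ S3 := by
        have h12 : (D * β) ^ 2 ≤ β * S3 := by rw [hDβ]; exact hcs
        have h13 : β * (D ^ 2 * β) ≤ β * S3 := by nlinarith [h12]
        exact le_of_mul_le_mul_left h13 hβ
      have h14 : β ^ 2 / 48 + (5 * D * β - β ^ 2) / 3 - 2 * D ^ 2 ≤ 0 := by
        nlinarith [mul_nonneg (sub_nonneg.mpr hD') hβ.le, mul_nonneg (sub_nonneg.mpr hD') hD0,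
          sq_nonneg β]
      have h15 : β * (β ^ 2 / 48 + (5 * D * β - β ^ 2) / 3 - 2 * D ^ 2) ≤ 0 :=
        mul_nonpos_of_nonneg_of_nonpos hβ.le h14
      have h16 : β ^ 3 / 48 + (5 * β * δ - β ^ 3) / 3 - 2 * (D ^ 2 * β) ≤ 0 := by
        rw [← hDβ]
        linarith [h15, show β * (β ^ 2 / 48 + (5 * D * β - β ^ 2) / 3 - 2 * D ^ 2) =
          β ^ 3 / 48 + (5 * β * (D * β) - β ^ 3) / 3 - 2 * (D ^ 2 * β) by ring]
      linarith
  have e9 : α * β * 0 = 0 := by ring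
  have e10 : (5 * β * (aOf ρ I + 2 * α * β) - β ^ 3) / 3 =
      (5 / 3) * β * P + (10 / 3) * β * H + (5 * β * δ - β ^ 3) / 3 := by
    rw [ha]; ring
  rw [e10]
  linarith

end

end Pool.H3F
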