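import Pool.Agent.H3F.XG2
import Pool.Agent.H3F.XG4
import Pool.Agent.H3F.XG5
import Pool.Agent.H3F.VZ
import Pool.Agent.H3F.LZ4
import Pool.Agent.H3F.WZ2
import Pool.Agent.H3F.MZ4
import Pool.Agent.H3F.HZ4
import Pool.Agent.H3F.CZ1
import Pool.Agent.H3F.CZ2
import Pool.Agent.H3F.CZ3
import Pool.Agent.H3F.CZ5
import Pool.Agent.H3F.XU
import Pool.Agent.H3F.XM

/-! XEND: every system lies below the envelope. -/

namespace Pool.H3F

open Finset

theorem XEND_mono {a b c : ℝ} (h : Below a c) (hbc : b ≤ c) : Below a b := by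
  obtain ⟨d, hd, hcd⟩ := h
  exact ⟨d, hd, hbc.trans hcd⟩

theorem XEND_nonpos {a b : ℝ} (h1 : 1 - √2 ≤ a) (h2 : a ≤ 9 / 25) (hb : b ≤ 0) : Below a b := by
  rcases le_total a (1 / 30) with h | h
  · exact XEND_mono (es_0 a h1 h) (by linarith)
  · exact XEND_mono (es_1 a h h2) (by linarith)

/-- The zones `β ≤ 14 / 25`. -/
theorem XEND_gi (α β s a b : ℝ) (h : α + β = 1) (hβ : 0 ≤ β) (hβ1 : β ≤ 14 / 25)
    (hs0 : 0 ≤ s) (hsα : s ≤ α) (hG : GI α β s a b) (h1 : 1 - √2 ≤ a) (h2 : a ≤ 9 / 25) :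
    Below a b := by
  rcases le_or_gt ((61 / 25) * β) s with hs | hs
  · exact zone_V α β s a b h hβ hs hsα hG h1 h2
  rcases le_total β (1 / 4) with h3 | h3
  · have h4 : 0 < β := by
      rcases hβ.lt_or_eq with h4 | h4
      · exact h4
      · rw [← h4] at hs
        linarith
    exact zone_L α β s a b h h4 h3 hs0 hs.le hG h1 h2
  rcases le_total ((39 / 50) * α) s with h4 | h4
  · exact zone_H α β s a b h h3 hβ1 h4 hsα hs.le hG h1 h2
  have hα : 0 ≤ α := by linarith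
  obtain ⟨p, hp⟩ : ∃ p, p = √(α ^ 2 - s ^ 2) := ⟨_, rfl⟩
  have hp0 : 0 ≤ p := hp ▸ Real.sqrt_nonneg _
  have hpp : p ^ 2 = α ^ 2 - s ^ 2 := by
    rw [hp]
    exact Real.sq_sqrt (by nlinarith)
  have hpα : p ≤ α := by nlinarith
  have h5 : (5 / 8) * α ≤ p := by
    have : ((5 / 8) * α) ^ 2 ≤ p ^ 2 := by nlinarith
    exact le_of_sq_le_sq this hp0
  have hx0 : 0 ≤ α - p := by linarith
  have hx : α - p ≤ (3 / 8) * α := by linarith
  have hpx : p = α - (α - p) := by ring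
  have hsx : s ^ 2 = (α - p) ^ 2 + 2 * p * (α - p) := by nlinarith
  rcases le_total (β ^ 2) (2 * p * (p - (α - p))) with h6 | h6
  · exact zone_W α β (α - p) p s a b h h3 hβ1 hx0 hx hpx h6 hs0 hsx hG h1 h2
  · exact zone_M α β (α - p) p s a b h h3 hβ1 hx0 hx hpx h6 hs0 hsx hG h1 h2

/-- The zones `14 / 25 ≤ β`. -/
theorem XEND_ci (α β a b : ℝ) (h : α + β = 1) (hα : 0 < α) (hβ1 : 14 / 25 ≤ β)
    (hG1 : CI1 α β a b) (hG2 : CI2 α β a b) (hG3 : CI3 α β a b) (h1 : 1 - √2 ≤ a)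
    (h2 : a ≤ 9 / 25) : Below a b := by
  rcases le_total β (13 / 20) with h3 | h3
  · exact zone_C5 α β a b h hβ1 h3 hG1 h1 h2
  rcases le_total (a + 2 * α * β) (β ^ 2 / 3) with h4 | h4
  · exact zone_C1 α β a b h hα h3 hG2 h1 h4 h2
  rcases le_total (a + 2 * α * β) (β ^ 2 / 2) with h5 | h5
  · exact zone_C2 α β a b h hα h3 hG3 h4 h5 h2
  rcases le_total (a + 2 * α * β) ((47 / 80) * β ^ 2) with h6 | h6
  · exact zone_C3 α β a b h hα h3 hG1 h5 h6 h2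
  · exact zone_C4 α β a b h hα h3 hG1 h6 h2

section

variable {V : Type} [Fintype V] {ρ : V → ℝ} {I : V → V → ℝ}

theorem XEND_zero (h : IsSys ρ I) (h0 : tot (pp ρ) = 0) : bOf ρ I ≤ 0 := by
  have h1 : ∀ i, pp ρ i = 0 := by
    intro i
    exact (Finset.sum_eq_zero_iff_of_nonneg (fun j _ => pp_nonneg ρ j)).1 h0 i (mem_univ i)
  rw [h.b_eq]
  have e1 : tri (pp ρ) (pp ρ) (pp ρ) I = 0 := by
    unfold tri
    simp [h1]
  have e2 : tri (mm ρ) (pp ρ) (pp ρ) I = 0 := by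
    unfold tri
    simp [h1]
  have e3 : tri (pp ρ) (mm ρ) (mm ρ) I = 0 := by
    unfold tri
    simp [h1]
  have e4 : 0 ≤ tri (mm ρ) (mm ρ) (mm ρ) I := by
    unfold tri
    refine sum_nonneg fun i _ => sum_nonneg fun j _ => sum_nonneg fun k _ => ?_
    exact mul_nonneg (mul_nonneg (mul_nonneg (mm_nonneg ρ i) (mm_nonneg ρ j)) (mm_nonneg ρ k))
      (xb_phi_nonneg h i j k)
  rw [e1, e2, e3]
  linarith

theorem IsSys.below_mid (h : IsSys ρ I) (h1 : 1 - √2 ≤ aOf ρ I) (h2 : aOf ρ I ≤ 9 / 25) :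
    Below (aOf ρ I) (bOf ρ I) := by
  have hab := h.tot_add
  have hα0 : 0 ≤ tot (pp ρ) := sum_nonneg fun i _ => pp_nonneg ρ i
  have hβ0 : 0 ≤ tot (mm ρ) := sum_nonneg fun i _ => mm_nonneg ρ i
  rcases le_total (tot (mm ρ)) (14 / 25) with h3 | h3
  · exact XEND_gi _ _ _ _ _ hab hβ0 h3 (Real.sqrt_nonneg _) h.s_le h.gi h1 h2
  rcases hα0.lt_or_eq with h4 | h4
  · have h5 : 0 < tot (mm ρ) := by linarith
    exact XEND_ci _ _ _ _ hab h4 h3 (h.ci1 h4 h5) (h.ci2 h4 h5) (h.ci3 h4 h5) h1 h2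
  · exact XEND_nonpos h1 h2 (XEND_zero h h4.symm)

theorem IsSys.below (h : IsSys ρ I) : Below (aOf ρ I) |bOf ρ I| := by
  obtain ⟨-, ha1, ha2⟩ := h.ext0
  rcases le_total (9 / 25) (aOf ρ I) with h1 | h1
  · have h2 := h.up h1
    have h3 : √(1 - aOf ρ I) ^ 2 = 1 - aOf ρ I := Real.sq_sqrt (by linarith)
    have h4 : 0 ≤ √(1 - aOf ρ I) := Real.sqrt_nonneg _
    refine XEND_mono ⟨_, Or.inl ⟨0, √(1 - aOf ρ I), le_rfl, h4, ?_, by linarith, ?_, rfl⟩,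
      le_rfl⟩ (h2.trans ?_)
    · rw [zero_add]
      exact Real.sqrt_le_one.2 (by linarith)
    · linarith
    · nlinarith
  rcases le_total (aOf ρ I) (1 - √2) with h2 | h2
  · have h3 := h.left h2
    have h4 : √(1 + 2 * aOf ρ I) ^ 2 = 1 + 2 * aOf ρ I := Real.sq_sqrt (by linarith)
    obtain ⟨e, he⟩ : ∃ e, e = √(1 + 2 * aOf ρ I) := ⟨_, rfl⟩
    have he0 : 0 ≤ e := he ▸ Real.sqrt_nonneg _
    rw [← he] at h3 h4
    have h5 : 1 ≤ √2 := by
      rw [Real.one_le_sqrt]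
      norm_num
    have he1 : e ≤ 1 := by nlinarith
    refine XEND_mono ⟨_, Or.inr (Or.inr ⟨0, (1 - e) / 2, (1 + e) / 2, Or.inl rfl, by linarith,
      by linarith, by ring, ?_, rfl⟩), le_rfl⟩ (h3.trans ?_)
    · nlinarith
    · have : aOf ρ I = (e ^ 2 - 1) / 2 := by linarith
      rw [this]
      nlinarith
  · have h3 := h.below_mid h2 h1
    have h4 := h.neg.below_mid (by rw [aOf_neg]; exact h2) (by rw [aOf_neg]; exact h1)
    rw [aOf_neg, bOf_neg] at h4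
    rcases abs_choice (bOf ρ I) with h5 | h5
    · rw [h5]
      exact h3
    · rw [h5]
      exact h4

end

end Pool.H3F
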