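import Pool.Agent.H3F.GDefs
import Pool.Agent.H3F.XT

/-! XG1: the robust bound with the lower bound for the penalty. -/

namespace Pool.H3F

open Finset

/-- The numerical inequality. -/
theorem XG1_num {s w z yy e T β α : ℝ} (hs : 0 ≤ s) (hz : 0 ≤ z) (hw : 0 ≤ w) (hyy : 0 ≤ yy)
    (hyw : yy ≤ w) (hβ : 0 ≤ β) (he : e ≤ w * (α - w))
    (hu : s ^ 2 = z ^ 2 + 2 * e + yy ^ 2) (hT1 : T ≤ s ^ 3)
    (hT : T ≤ z ^ 3 + 3 * (w * z ^ 2) + 3 * (yy * e) + yy ^ 3) :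
    T - 3 * β * z ^ 2 ≤ FF α β s w := by
  have hm : max 0 (s ^ 2 - 2 * w * α + w ^ 2) ≤ z ^ 2 := by
    refine max_le (sq_nonneg _) ?_
    nlinarith
  have hm0 : 0 ≤ max 0 (s ^ 2 - 2 * w * α + w ^ 2) := le_max_left _ _
  have hbz : 0 ≤ β * z ^ 2 := mul_nonneg hβ (sq_nonneg _)
  -- the bound in the second case
  have hB : z + w < s → T - 3 * β * z ^ 2 ≤
      z ^ 2 * (z + (3 / 2) * w - 3 * β) + (3 / 2) * s ^ 2 * w - w ^ 3 / 2 := by
    intro hlt
    have hee : e = (s ^ 2 - z ^ 2 - yy ^ 2) / 2 := by linarith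
    have hU : w ^ 2 ≤ s ^ 2 - z ^ 2 := by nlinarith
    have h1 : 3 * (yy * e) + yy ^ 3 ≤ (3 / 2) * (s ^ 2 - z ^ 2) * w - w ^ 3 / 2 := by
      rw [hee]
      have h2 : (3 / 2) * (s ^ 2 - z ^ 2) * w - w ^ 3 / 2 -
          (3 * (yy * ((s ^ 2 - z ^ 2 - yy ^ 2) / 2)) + yy ^ 3) =
          (w - yy) / 2 * (3 * (s ^ 2 - z ^ 2) - (w ^ 2 + w * yy + yy ^ 2)) := by ring
      have h3 : 0 ≤ (w - yy) / 2 * (3 * (s ^ 2 - z ^ 2) - (w ^ 2 + w * yy + yy ^ 2)) := by
        apply mul_nonneg (by linarith)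
        nlinarith
      linarith
    nlinarith
  have hid : (s - w) ^ 2 * (s + w / 2) + (3 / 2) * s ^ 2 * w - w ^ 3 / 2 = s ^ 3 := by ring
  unfold FF
  split_ifs with c1 c2
  · linarith
  · push Not at c1
    rcases le_or_gt s (z + w) with hA | hA
    · have h1 : (s - w) ^ 2 ≤ z ^ 2 := pow_le_pow_left₀ (by linarith) (by linarith) 2
      have h2 : β * (s - w) ^ 2 ≤ β * z ^ 2 := mul_le_mul_of_nonneg_left h1 hβ
      linarith
    · have h1 := hB hA
      have h2 : z ^ 2 * (z + (3 / 2) * w - 3 * β) ≤ (s - w) ^ 2 * (s + w / 2 - 3 * β) := by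
        rcases le_total (z + (3 / 2) * w - 3 * β) 0 with h | h
        · have a1 : z ^ 2 * (z + (3 / 2) * w - 3 * β) ≤ 0 :=
            mul_nonpos_of_nonneg_of_nonpos (sq_nonneg _) h
          have a2 : 0 ≤ (s - w) ^ 2 * (s + w / 2 - 3 * β) :=
            mul_nonneg (sq_nonneg _) (by linarith)
          linarith
        · exact mul_le_mul (pow_le_pow_left₀ hz (by linarith) 2) (by linarith) h (sq_nonneg _)
      linarith
  · push Not at c1 c2
    have hk : 0 ≤ 3 * β - s - w / 2 := by linarith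
    have h5 := mul_le_mul_of_nonneg_left hm hk
    rcases le_or_gt s (z + w) with hA | hA
    · have h1 : (s - w) ^ 2 ≤ z ^ 2 := pow_le_pow_left₀ (by linarith) (by linarith) 2
      have h2 : (s - w) ^ 2 * (s + w / 2) ≤ z ^ 2 * (s + w / 2) :=
        mul_le_mul_of_nonneg_right h1 (by linarith)
      linarith
    · have h1 := hB hA
      have h2 : z ^ 2 * (z + (3 / 2) * w - 3 * β) ≤ z ^ 2 * (s + w / 2 - 3 * β) :=
        mul_le_mul_of_nonneg_left (by linarith) (sq_nonneg _)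
      linarith

section

variable {V : Type} [Fintype V]

theorem ff_bound (x : V → ℝ) (hx : ∀ i, 0 ≤ x i) (I : V → V → ℝ) (hs : ∀ i j, I i j = I j i)
    (hI : ∀ i j, I i j = 0 ∨ I i j = 1) (β : ℝ) (hβ : 0 ≤ β) (y : V) :
    q3 x x x (co I) (co I) (co I) - 3 * β * jn x I y ≤
      FF (tot x) β (√(q2 x x (co I))) (dg x I y) := by
  obtain ⟨J, hJ⟩ : ∃ J, J = co I := ⟨_, rfl⟩
  have hJs : ∀ i j, J i j = J j i := by
    intro i j
    rw [hJ]
    unfold co
    rw [hs]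
  have hJ01 : ∀ i j, J i j = 0 ∨ J i j = 1 := by
    intro i j
    rw [hJ]
    unfold co
    rcases hI i j with h | h <;> rw [h] <;> norm_num
  have J0 : ∀ i j, 0 ≤ J i j := by
    intro i j
    rcases hJ01 i j with h | h <;> rw [h]
    exact zero_le_one
  have J1 : ∀ i j, J i j ≤ 1 := by
    intro i j
    rcases hJ01 i j with h | h <;> rw [h]
    exact zero_le_one
  have I0 : ∀ i j, 0 ≤ I i j := by
    intro i j
    rcases hI i j with h | h <;> rw [h]
    exact zero_le_one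
  rw [← hJ]
  obtain ⟨X, hX⟩ : ∃ X : V → ℝ, ∀ k, X k = x k * I y k := ⟨_, fun _ => rfl⟩
  obtain ⟨Y, hY⟩ : ∃ Y : V → ℝ, ∀ k, Y k = x k * J y k := ⟨_, fun _ => rfl⟩
  have X0 : ∀ k, 0 ≤ X k := fun k => by rw [hX]; exact mul_nonneg (hx _) (I0 _ _)
  have Y0 : ∀ k, 0 ≤ Y k := fun k => by rw [hY]; exact mul_nonneg (hx _) (J0 _ _)
  have hxXY : x = fun k => X k + Y k := by
    funext k
    rw [hX, hY, hJ]
    unfold co
    ring
  -- the quantities
  obtain ⟨w, hw⟩ : ∃ w, w = dg x I y := ⟨_, rfl⟩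
  have hwX : w = ∑ k, X k := by
    rw [hw]
    unfold dg
    exact Finset.sum_congr rfl fun k _ => (hX k).symm
  have w0 : 0 ≤ w := by rw [hwX]; exact Finset.sum_nonneg fun k _ => X0 k
  have hZ : jn x I y = q2 Y Y J := by
    unfold jn q2
    refine Finset.sum_congr rfl fun k _ => Finset.sum_congr rfl fun l _ => ?_
    rw [hY, hY, hJ]
    ring
  have q20 : ∀ a b : V → ℝ, (∀ i, 0 ≤ a i) → (∀ i, 0 ≤ b i) → 0 ≤ q2 a b J := by
    intro a b ha hb
    exact Finset.sum_nonneg fun i _ => Finset.sum_nonneg fun j _ =>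
      mul_nonneg (mul_nonneg (ha _) (hb _)) (J0 _ _)
  have hx' : ∀ i, 0 ≤ x i := hx
  have Z0 := q20 Y Y Y0 Y0
  have E0 := q20 X Y X0 Y0
  have Y20 := q20 X X X0 X0
  have u0 := q20 x x hx hx
  have hu : q2 x x J = q2 Y Y J + 2 * q2 X Y J + q2 X X J := by
    conv_lhs => rw [hxXY]
    rw [XT_q2_add_left, XT_q2_add_right, XT_q2_add_right, XT_q2_comm Y X hJs]
    ring
  have hY2w : q2 X X J ≤ w ^ 2 := by
    have : w ^ 2 = ∑ i, ∑ j, X i * X j := by
      rw [sq, hwX, Finset.sum_mul_sum]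
    rw [this]
    apply Finset.sum_le_sum
    intro i _
    apply Finset.sum_le_sum
    intro j _
    exact mul_le_of_le_one_right (mul_nonneg (X0 _) (X0 _)) (J1 _ _)
  obtain ⟨s, hsd⟩ : ∃ s, s = √(q2 x x J) := ⟨_, rfl⟩
  obtain ⟨z, hzd⟩ : ∃ z, z = √(q2 Y Y J) := ⟨_, rfl⟩
  obtain ⟨yy, hyyd⟩ : ∃ yy, yy = √(q2 X X J) := ⟨_, rfl⟩
  have s0 : 0 ≤ s := by rw [hsd]; exact Real.sqrt_nonneg _
  have z0 : 0 ≤ z := by rw [hzd]; exact Real.sqrt_nonneg _
  have yy0 : 0 ≤ yy := by rw [hyyd]; exact Real.sqrt_nonneg _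
  have s2 : s ^ 2 = q2 x x J := by rw [hsd]; exact Real.sq_sqrt u0
  have z2 : z ^ 2 = q2 Y Y J := by rw [hzd]; exact Real.sq_sqrt Z0
  have yy2 : yy ^ 2 = q2 X X J := by rw [hyyd]; exact Real.sq_sqrt Y20
  have hT1 : q3 x x x J J J ≤ s ^ 3 := by
    apply XT_le_of_sq (by positivity)
    refine (q3_sq_le x x x hx hx hx J J J hJ01 hJ01 hJ01).trans (le_of_eq ?_)
    rw [← s2]; ring
  have hyw : yy ≤ w := by
    apply XT_le_of_sq w0
    rw [yy2]
    exact hY2w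
  rw [← hsd, ← hw, hZ, ← z2]
  have hYt : ∑ k, Y k = tot x - w := by
    rw [hwX]
    unfold tot
    rw [← Finset.sum_sub_distrib]
    refine Finset.sum_congr rfl fun k _ => ?_
    rw [hX, hY, hJ]
    unfold co
    ring
  have hE : q2 X Y J ≤ w * (tot x - w) := by
    rw [← hYt, hwX, Finset.sum_mul_sum]
    apply Finset.sum_le_sum
    intro i _
    apply Finset.sum_le_sum
    intro j _
    exact mul_le_of_le_one_right (mul_nonneg (X0 _) (Y0 _)) (J1 _ _)
  refine XG1_num s0 z0 w0 yy0 hyw hβ hE (by rw [s2, z2, yy2, hu]) hT1 ?_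
  have e1 : q3 x x x J J J =
      q3 Y Y Y J J J + 3 * q3 X Y Y J J J + 3 * q3 X X Y J J J + q3 X X X J J J := by
    conv_lhs => rw [hxXY]
    exact XT_q3_expand X Y hJs
  have b1 : q3 Y Y Y J J J ≤ z ^ 3 := by
    apply XT_le_of_sq (by positivity)
    refine (q3_sq_le Y Y Y Y0 Y0 Y0 J J J hJ01 hJ01 hJ01).trans (le_of_eq ?_)
    rw [← z2]; ring
  have b2 : q3 X X X J J J ≤ yy ^ 3 := by
    apply XT_le_of_sq (by positivity)
    refine (q3_sq_le X X X X0 X0 X0 J J J hJ01 hJ01 hJ01).trans (le_of_eq ?_)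
    rw [← yy2]; ring
  have b3 : q3 X X Y J J J ≤ yy * q2 X Y J := by
    apply XT_le_of_sq (mul_nonneg yy0 E0)
    refine (q3_sq_le X X Y X0 X0 Y0 J J J hJ01 hJ01 hJ01).trans (le_of_eq ?_)
    rw [← yy2]; ring
  have b4 : q3 X Y Y J J J ≤ w * z ^ 2 := by
    have h5 : w * z ^ 2 = ∑ i, ∑ j, ∑ k, X i * (Y j * Y k * J j k) := by
      rw [z2, hwX, Finset.sum_mul]
      refine Finset.sum_congr rfl fun i _ => ?_
      unfold q2
      rw [Finset.mul_sum]
      refine Finset.sum_congr rfl fun j _ => ?_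
      rw [Finset.mul_sum]
    rw [h5]
    unfold q3
    apply Finset.sum_le_sum
    intro i _
    apply Finset.sum_le_sum
    intro j _
    apply Finset.sum_le_sum
    intro k _
    have h6 : J i j * J i k ≤ 1 := mul_le_one₀ (J1 _ _) (J0 _ _) (J1 _ _)
    have h7 : 0 ≤ X i * (Y j * Y k * J j k) :=
      mul_nonneg (X0 _) (mul_nonneg (mul_nonneg (Y0 _) (Y0 _)) (J0 _ _))
    calc X i * Y j * Y k * (J i j * J j k * J i k) =
          (X i * (Y j * Y k * J j k)) * (J i j * J i k) := by ring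
      _ ≤ (X i * (Y j * Y k * J j k)) * 1 := mul_le_mul_of_nonneg_left h6 h7
      _ = _ := mul_one _
  rw [e1]
  linarith

end

end Pool.H3F
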