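import Pool.Agent.H3F.XG1
import Pool.Agent.H3F.RZ8
import Pool.Agent.H3F.XB

/-! XG2: the general inequality for systems. -/

namespace Pool.H3F

open Finset

section

variable {V : Type} [Fintype V] {ρ : V → ℝ} {I : V → V → ℝ}

theorem XG2_phi_le (h : IsSys ρ I) (i j k : V) :
    phi (I i j) (I j k) (I i k) ≤ (I i j + I i k) * (1 + I j k) / 2 := by
  unfold phi
  rcases h.zo i j with h1 | h1 <;> rcases h.zo j k with h2 | h2 <;>
    rcases h.zo i k with h3 | h3 <;> rw [h1, h2, h3] <;> norm_num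

theorem XG2_q2_nonneg (h : IsSys ρ I) (x y : V → ℝ) (hx : ∀ i, 0 ≤ x i) (hy : ∀ i, 0 ≤ y i) :
    0 ≤ q2 x y (co I) := by
  unfold q2
  refine Finset.sum_nonneg fun i _ => Finset.sum_nonneg fun j _ => ?_
  have : 0 ≤ co I i j := by
    unfold co
    rcases h.zo i j with h1 | h1 <;> rw [h1] <;> norm_num
  have := mul_nonneg (hx i) (hy j)
  positivity

theorem XG2_quad (w lam d : ℝ) (hd : 0 ≤ d) :
    (3 * w - lam) * d - 2 * d ^ 2 ≤ (max (3 * w - lam) 0) ^ 2 / 8 := by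
  rcases le_total 0 (3 * w - lam) with h | h
  · rw [max_eq_left h]
    nlinarith [sq_nonneg (3 * w - lam - 4 * d)]
  · rw [max_eq_right h]
    nlinarith [mul_nonneg (neg_nonneg.2 h) hd, sq_nonneg d]

theorem XG2_T_le (h : IsSys ρ I) [Nonempty V] :
    q3 (pp ρ) (pp ρ) (pp ρ) (co I) (co I) (co I) ≤ √(q2 (pp ρ) (pp ρ) (co I)) ^ 3 := by
  obtain ⟨y⟩ := ‹Nonempty V›
  have h1 := robust (pp ρ) (pp_nonneg ρ) I h.sym h.zo 0 le_rfl y
  have h2 : min (3 * (0 : ℝ)) (√(q2 (pp ρ) (pp ρ) (co I))) = 0 := by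
    rw [mul_zero]
    exact min_eq_left (Real.sqrt_nonneg _)
  rw [h2] at h1
  linarith

theorem IsSys.gi (h : IsSys ρ I) :
    GI (tot (pp ρ)) (tot (mm ρ)) (√(q2 (pp ρ) (pp ρ) (co I))) (aOf ρ I) (bOf ρ I) := by
  intro lam K hK
  have hb := h.b_eq
  rw [h.tri_same, h.tri_mixed (pp ρ) (mm ρ)] at hb
  have ha := h.a_eq
  have hu := IsSys.u_eq (pp ρ) I
  have h5 := h.tri_two (pp ρ) (mm ρ) (pp_nonneg ρ) (mm_nonneg ρ)
  have h6 := mmm_good h
  have e1 := XLAux.q2_eq (I := I) (mm ρ) (pp ρ)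
  have e2 := XLAux.q2_eq (I := I) (mm ρ) (mm ρ)
  have hu0 : 0 ≤ q2 (pp ρ) (pp ρ) (co I) :=
    XG2_q2_nonneg h _ _ (pp_nonneg ρ) (pp_nonneg ρ)
  have hs2 : √(q2 (pp ρ) (pp ρ) (co I)) ^ 2 = q2 (pp ρ) (pp ρ) (co I) := Real.sq_sqrt hu0
  have hff : ∀ y, q3 (pp ρ) (pp ρ) (pp ρ) (co I) (co I) (co I) -
      3 * tot (mm ρ) * jn (pp ρ) I y ≤
      FF (tot (pp ρ)) (tot (mm ρ)) (√(q2 (pp ρ) (pp ρ) (co I))) (dg (pp ρ) I y) := fun y =>
    ff_bound (pp ρ) (pp_nonneg ρ) I h.sym h.zo (tot (mm ρ))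
      (Finset.sum_nonneg fun i _ => mm_nonneg ρ i) y
  have hPh : ∀ y, Ph (tot (pp ρ)) (tot (mm ρ)) (√(q2 (pp ρ) (pp ρ) (co I))) lam
      (dg (pp ρ) I y) ≤ K := fun y =>
    hK _ (XLAux.dg_nonneg h (pp_nonneg ρ) y) (XLAux.dg_le h (pp_nonneg ρ) y)
  have hal0 : 0 ≤ tot (pp ρ) := Finset.sum_nonneg fun i _ => pp_nonneg ρ i
  have hbe0 : 0 ≤ tot (mm ρ) := Finset.sum_nonneg fun i _ => mm_nonneg ρ i
  have hT : 0 < tot (pp ρ) → q3 (pp ρ) (pp ρ) (pp ρ) (co I) (co I) (co I) ≤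
      √(q2 (pp ρ) (pp ρ) (co I)) ^ 3 := by
    intro hp
    have : Nonempty V := by
      by_contra hne
      have : IsEmpty V := not_nonempty_iff.1 hne
      unfold tot at hp
      simp at hp
    exact XG2_T_le h
  have htot := h.tot_add
  have hK0 := hK 0 le_rfl hal0
  -- the per-vertex inequality, summed
  have hsum : (∑ y, mm ρ y) * q3 (pp ρ) (pp ρ) (pp ρ) (co I) (co I) (co I) -
      3 * tot (mm ρ) * (∑ y, mm ρ y * jn (pp ρ) I y) +
      tot (mm ρ) * (-(6 * tot (pp ρ) - 3 * tot (mm ρ) - 2 * lam) *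
        (∑ y, mm ρ y * dg (pp ρ) I y) +
        3 * (∑ y, mm ρ y * (dg (pp ρ) I y * dg (mm ρ) I y)) -
        lam * (∑ y, mm ρ y * dg (mm ρ) I y) -
        2 * (∑ y, mm ρ y * dg (mm ρ) I y ^ 2)) ≤ (∑ y, mm ρ y) * K := by
    simp only [Finset.sum_mul, Finset.mul_sum, ← Finset.sum_sub_distrib,
      ← Finset.sum_add_distrib]
    refine Finset.sum_le_sum fun y _ => ?_
    have h1 := hff y
    have h2 := hPh y
    have h3 := XG2_quad (dg (pp ρ) I y) lam (dg (mm ρ) I y)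
      (XLAux.dg_nonneg h (mm_nonneg ρ) y)
    have h4 := mul_le_mul_of_nonneg_left h3 hbe0
    unfold Ph at h2
    have h7 : q3 (pp ρ) (pp ρ) (pp ρ) (co I) (co I) (co I) -
        3 * tot (mm ρ) * jn (pp ρ) I y +
        tot (mm ρ) * (-(6 * tot (pp ρ) - 3 * tot (mm ρ) - 2 * lam) * dg (pp ρ) I y +
          3 * (dg (pp ρ) I y * dg (mm ρ) I y) - lam * dg (mm ρ) I y -
          2 * dg (mm ρ) I y ^ 2) ≤ K := by
      linarith
    have h8 := mul_le_mul_of_nonneg_left h7 (mm_nonneg ρ y)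
    linarith
  have et : ∑ y, mm ρ y = tot (mm ρ) := rfl
  rw [et] at hsum
  rw [← e1, ← e2] at hsum
  set al := tot (pp ρ)
  set be := tot (mm ρ)
  set s := √(q2 (pp ρ) (pp ρ) (co I))
  set u := q2 (pp ρ) (pp ρ) (co I)
  set T := q3 (pp ρ) (pp ρ) (pp ρ) (co I) (co I) (co I)
  set W := q2 (mm ρ) (pp ρ) I
  set D := q2 (mm ρ) (mm ρ) I
  set J := ∑ i, mm ρ i * jn (pp ρ) I i
  set X := ∑ i, mm ρ i * (dg (pp ρ) I i * dg (mm ρ) I i)
  set Q := ∑ i, mm ρ i * dg (mm ρ) I i ^ 2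
  set M := tri (mm ρ) (mm ρ) (mm ρ) I
  rw [hs2]
  have hmain : bOf ρ I ≤ 2 * al ^ 3 - 3 * al * u + 3 * be * u + lam * (aOf ρ I - (al ^ 2 - u)) +
      (T - 3 * J + (-(6 * al - 3 * be - 2 * lam) * W + 3 * X - lam * D - 2 * Q)) := by
    rw [ha]
    have : q2 (pp ρ) (pp ρ) I = al ^ 2 - u := by linarith
    rw [this]
    linarith
  refine hmain.trans ?_
  have hbr : T - 3 * J + (-(6 * al - 3 * be - 2 * lam) * W + 3 * X - lam * D - 2 * Q) ≤ K := by
    rcases hbe0.lt_or_eq with hbe | hbe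
    · have : be * (T - 3 * J + (-(6 * al - 3 * be - 2 * lam) * W + 3 * X - lam * D - 2 * Q))
          ≤ be * K := by linarith
      exact le_of_mul_le_mul_left this hbe
    · have hz : ∀ y, mm ρ y = 0 := by
        have h0 : ∑ y, mm ρ y = 0 := hbe.symm
        intro y
        exact (Finset.sum_eq_zero_iff_of_nonneg (fun i _ => mm_nonneg ρ i)).1 h0 y
          (Finset.mem_univ y)
      have hJ : J = 0 := Finset.sum_eq_zero fun i _ => by rw [hz i, zero_mul]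
      have hX : X = 0 := Finset.sum_eq_zero fun i _ => by rw [hz i, zero_mul]
      have hQ : Q = 0 := Finset.sum_eq_zero fun i _ => by rw [hz i, zero_mul]
      have hW : W = 0 := by
        rw [e1]
        exact Finset.sum_eq_zero fun i _ => by rw [hz i, zero_mul]
      have hD : D = 0 := by
        rw [e2]
        exact Finset.sum_eq_zero fun i _ => by rw [hz i, zero_mul]
      rw [hJ, hX, hQ, hW, hD]
      have hT' := hT (by linarith)
      have hFF : FF al be s 0 = s ^ 3 := by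
        unfold FF
        rw [← hbe]
        split_ifs with h1 h2
        · rfl
        · ring
        · exfalso
          apply h2
          have : 0 ≤ s := Real.sqrt_nonneg _
          linarith
      have hPh0 : Ph al be s lam 0 = s ^ 3 := by
        unfold Ph
        rw [hFF, ← hbe]
        ring
      rw [hPh0] at hK0
      linarith
  linarith

theorem IsSys.s_le (h : IsSys ρ I) : √(q2 (pp ρ) (pp ρ) (co I)) ≤ tot (pp ρ) := by
  have hal0 : 0 ≤ tot (pp ρ) := Finset.sum_nonneg fun i _ => pp_nonneg ρ i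
  have hu := IsSys.u_eq (pp ρ) I
  have h1 := xa_q2_nonneg h (pp ρ) (pp ρ) (pp_nonneg ρ) (pp_nonneg ρ)
  exact Real.sqrt_le_iff.2 ⟨hal0, by linarith⟩

end

end Pool.H3F
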