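import Pool.Agent.H3F.XDefs

/-! Loomis-Whitney type inequality for triangles. -/

namespace Pool.H3F

open Finset

section

variable {V : Type} [Fintype V]

theorem q3_sq_le (x y z : V → ℝ) (hx : ∀ i, 0 ≤ x i) (hy : ∀ i, 0 ≤ y i) (hz : ∀ i, 0 ≤ z i)
    (A B C : V → V → ℝ) (hA : ∀ i j, A i j = 0 ∨ A i j = 1) (hB : ∀ i j, B i j = 0 ∨ B i j = 1)
    (hC : ∀ i j, C i j = 0 ∨ C i j = 1) :
    q3 x y z A B C ^ 2 ≤ q2 x y A * q2 y z B * q2 x z C := by
  have nn : ∀ {t : ℝ}, (t = 0 ∨ t = 1) → 0 ≤ t := by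
    rintro t (h | h) <;> rw [h]
    exact zero_le_one
  have le1 : ∀ {t : ℝ}, (t = 0 ∨ t = 1) → t ≤ 1 := by
    rintro t (h | h) <;> rw [h]
    exact zero_le_one
  have sq : ∀ {t : ℝ}, (t = 0 ∨ t = 1) → t ^ 2 = t := by
    rintro t (h | h) <;> rw [h] <;> norm_num
  obtain ⟨h, hh⟩ : ∃ h : V → V → ℝ, ∀ i j, h i j = ∑ k, z k * (B j k * C i k) := ⟨_, fun _ _ => rfl⟩
  -- rewrite q3
  have e1 : q3 x y z A B C = ∑ p : V × V, x p.1 * y p.2 * A p.1 p.2 * h p.1 p.2 := by
    rw [Fintype.sum_prod_type]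
    unfold q3
    refine Finset.sum_congr rfl fun i _ => Finset.sum_congr rfl fun j _ => ?_
    rw [hh, Finset.mul_sum]
    refine Finset.sum_congr rfl fun k _ => ?_
    ring
  have e2 : q2 x y A = ∑ p : V × V, x p.1 * y p.2 * A p.1 p.2 := by
    rw [Fintype.sum_prod_type]
    rfl
  have c1 : (∑ p : V × V, x p.1 * y p.2 * A p.1 p.2 * h p.1 p.2) ^ 2 ≤
      (∑ p : V × V, x p.1 * y p.2 * A p.1 p.2) *
        ∑ p : V × V, x p.1 * y p.2 * A p.1 p.2 * h p.1 p.2 ^ 2 := by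
    apply Finset.sum_sq_le_sum_mul_sum_of_sq_eq_mul
    · intro p _
      exact mul_nonneg (mul_nonneg (hx _) (hy _)) (nn (hA _ _))
    · intro p _
      exact mul_nonneg (mul_nonneg (mul_nonneg (hx _) (hy _)) (nn (hA _ _))) (sq_nonneg _)
    · intro p _
      ring
  -- the inner Cauchy-Schwarz
  have c2 : ∀ i j, h i j ^ 2 ≤ (∑ k, z k * B j k) * ∑ k, z k * C i k := by
    intro i j
    rw [hh]
    apply Finset.sum_sq_le_sum_mul_sum_of_sq_eq_mul
    · intro k _
      exact mul_nonneg (hz _) (nn (hB _ _))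
    · intro k _
      exact mul_nonneg (hz _) (nn (hC _ _))
    · intro k _
      have b := sq (hB j k)
      have c := sq (hC i k)
      calc (z k * (B j k * C i k)) ^ 2 = z k ^ 2 * (B j k ^ 2 * C i k ^ 2) := by ring
        _ = z k * B j k * (z k * C i k) := by rw [b, c]; ring
  have c3 : ∑ p : V × V, x p.1 * y p.2 * A p.1 p.2 * h p.1 p.2 ^ 2 ≤ q2 y z B * q2 x z C := by
    have e3 : q2 y z B * q2 x z C =
        ∑ p : V × V, x p.1 * y p.2 * ((∑ k, z k * B p.2 k) * ∑ k, z k * C p.1 k) := by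
      rw [Fintype.sum_prod_type]
      have e4 : q2 y z B = ∑ j, y j * ∑ k, z k * B j k := by
        unfold q2
        refine Finset.sum_congr rfl fun j _ => ?_
        rw [Finset.mul_sum]
        refine Finset.sum_congr rfl fun k _ => ?_
        ring
      have e5 : q2 x z C = ∑ i, x i * ∑ k, z k * C i k := by
        unfold q2
        refine Finset.sum_congr rfl fun j _ => ?_
        rw [Finset.mul_sum]
        refine Finset.sum_congr rfl fun k _ => ?_
        ring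
      rw [e4, e5, mul_comm, Finset.sum_mul_sum]
      refine Finset.sum_congr rfl fun i _ => Finset.sum_congr rfl fun j _ => ?_
      ring
    rw [e3]
    apply Finset.sum_le_sum
    intro p _
    have h1 : 0 ≤ x p.1 * y p.2 := mul_nonneg (hx _) (hy _)
    have h2 := c2 p.1 p.2
    have h3 : 0 ≤ h p.1 p.2 ^ 2 := sq_nonneg _
    calc x p.1 * y p.2 * A p.1 p.2 * h p.1 p.2 ^ 2
        ≤ x p.1 * y p.2 * 1 * h p.1 p.2 ^ 2 := by
          apply mul_le_mul_of_nonneg_right _ h3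
          exact mul_le_mul_of_nonneg_left (le1 (hA _ _)) h1
      _ = x p.1 * y p.2 * h p.1 p.2 ^ 2 := by ring
      _ ≤ _ := mul_le_mul_of_nonneg_left h2 h1
  rw [e1, e2, mul_assoc]
  refine c1.trans (mul_le_mul_of_nonneg_left c3 ?_)
  exact Finset.sum_nonneg fun p _ => mul_nonneg (mul_nonneg (hx _) (hy _)) (nn (hA _ _))

end

end Pool.H3F
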