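import Pool.Agent.H3F.GDefs
import Pool.Agent.H3F.XL
import Pool.Agent.H3F.XB
import Pool.Agent.H3F.XW

/-! XG3: the cubic form in terms of the non-neighbours in the positive part. -/

namespace Pool.H3F

open Finset

section

variable {V : Type} [Fintype V] {ρ : V → ℝ} {I : V → V → ℝ}

/-- Mass of the non-neighbours of `y` in the positive part. -/
noncomputable def nv (ρ : V → ℝ) (I : V → V → ℝ) (y : V) : ℝ := tot (pp ρ) - dg (pp ρ) I y

theorem nv_nonneg (h : IsSys ρ I) (y : V) : 0 ≤ nv ρ I y := by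
  unfold nv
  have := XLAux.dg_le h (pp_nonneg ρ) y
  linarith

theorem nv_le (h : IsSys ρ I) (y : V) : nv ρ I y ≤ tot (pp ρ) := by
  unfold nv
  have := XLAux.dg_nonneg h (pp_nonneg ρ) y
  linarith

theorem xg3_mx (h : IsSys ρ I) :
    q2 (mm ρ) (pp ρ) I = tot (pp ρ) * tot (mm ρ) - ∑ y, mm ρ y * nv ρ I y := by
  have _ := h
  rw [XLAux.q2_eq]
  have e : tot (pp ρ) * tot (mm ρ) = ∑ y, mm ρ y * tot (pp ρ) := by
    rw [← Finset.sum_mul, mul_comm]
    rfl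
  rw [e, ← Finset.sum_sub_distrib]
  refine Finset.sum_congr rfl fun i _ => ?_
  unfold nv
  ring

theorem IsSys.cform_a (h : IsSys ρ I) :
    aOf ρ I = q2 (pp ρ) (pp ρ) I - 2 * tot (pp ρ) * tot (mm ρ) +
      2 * ∑ y, mm ρ y * nv ρ I y + q2 (mm ρ) (mm ρ) I := by
  rw [h.a_eq, xg3_mx h]
  ring

theorem xg3_co01 (h : IsSys ρ I) (i j : V) : co I i j = 0 ∨ co I i j = 1 := by
  unfold co
  rcases h.zo i j with h1 | h1 <;> rw [h1] <;> norm_num

/-- Lower bound for the co-edges between the non-neighbours. -/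
theorem xg3_jn (h : IsSys ρ I) (y : V) :
    max (nv ρ I y ^ 2 - q2 (pp ρ) (pp ρ) I) 0 ≤ jn (pp ρ) I y := by
  have hX := pp_nonneg ρ
  have c0 : ∀ i j, 0 ≤ co I i j := fun i j => by
    rcases xg3_co01 h i j with h1 | h1 <;> rw [h1]
    exact zero_le_one
  have c1 : ∀ i j, co I i j ≤ 1 := fun i j => by
    rcases xg3_co01 h i j with h1 | h1 <;> rw [h1]
    exact zero_le_one
  have I0 : ∀ i j, 0 ≤ I i j := fun i j => by
    rcases h.zo i j with h1 | h1 <;> rw [h1]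
    exact zero_le_one
  have hv : nv ρ I y = ∑ k, pp ρ k * co I y k := by
    unfold nv tot dg co
    rw [← Finset.sum_sub_distrib]
    refine Finset.sum_congr rfl fun k _ => ?_
    ring
  have hv2 : nv ρ I y ^ 2 = ∑ k, ∑ l, pp ρ k * co I y k * (pp ρ l * co I y l) := by
    rw [hv, sq, Finset.sum_mul_sum]
  have hj0 : 0 ≤ jn (pp ρ) I y := by
    unfold jn
    refine Finset.sum_nonneg fun k _ => Finset.sum_nonneg fun l _ => ?_
    exact mul_nonneg (mul_nonneg (hX k) (hX l)) (mul_nonneg (mul_nonneg (c0 _ _) (c0 _ _)) (c0 _ _))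
  have hj1 : nv ρ I y ^ 2 - q2 (pp ρ) (pp ρ) I ≤ jn (pp ρ) I y := by
    rw [hv2]
    unfold q2 jn
    rw [← Finset.sum_sub_distrib]
    refine Finset.sum_le_sum fun k _ => ?_
    rw [← Finset.sum_sub_distrib]
    refine Finset.sum_le_sum fun l _ => ?_
    have e1 : pp ρ k * pp ρ l * (co I y k * co I y l * co I k l) =
        pp ρ k * co I y k * (pp ρ l * co I y l) -
          pp ρ k * pp ρ l * (co I y k * co I y l * I k l) := by
      have : co I k l = 1 - I k l := rfl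
      rw [this]; ring
    rw [e1]
    have h2 : co I y k * co I y l * I k l ≤ I k l := by
      have h3 : co I y k * co I y l ≤ 1 := mul_le_one₀ (c1 _ _) (c0 _ _) (c1 _ _)
      calc co I y k * co I y l * I k l ≤ 1 * I k l := mul_le_mul_of_nonneg_right h3 (I0 _ _)
        _ = I k l := one_mul _
    have h4 := mul_le_mul_of_nonneg_left h2 (mul_nonneg (hX k) (hX l))
    linarith
  exact max_le hj1 hj0

/-- Upper bound for the triangles of the complement. -/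
theorem xg3_T (h : IsSys ρ I) {α P : ℝ} (hα : 0 < α) (eα : α = tot (pp ρ))
    (eP : P = q2 (pp ρ) (pp ρ) I) :
    q3 (pp ρ) (pp ρ) (pp ρ) (co I) (co I) (co I) ≤ α ^ 3 - 3 / 2 * α * P + P ^ 2 / (2 * α) := by
  have hX := pp_nonneg ρ
  have h1 := q3_sq_le (pp ρ) (pp ρ) (pp ρ) hX hX hX (co I) (co I) (co I) (xg3_co01 h)
    (xg3_co01 h) (xg3_co01 h)
  have h2 := IsSys.u_eq (pp ρ) I
  rw [← eα, ← eP] at h2
  rw [h2] at h1
  have hP0 : 0 ≤ P := by rw [eP]; exact xa_q2_nonneg h _ _ hX hX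
  have hP1 : P ≤ α ^ 2 := by
    have := xa_q2_le h (pp ρ) (pp ρ) hX hX
    rw [← eα, ← eP] at this
    nlinarith
  have hR : α ^ 3 - 3 / 2 * α * P + P ^ 2 / (2 * α) = (α ^ 2 - P) * (α ^ 2 - P / 2) / α := by
    field_simp
    ring
  rw [hR]
  have hR0 : 0 ≤ (α ^ 2 - P) * (α ^ 2 - P / 2) / α := by
    apply div_nonneg _ hα.le
    apply mul_nonneg <;> linarith
  refine abs_le_of_sq_le_sq' ?_ hR0 |>.2
  refine h1.trans ?_
  have e2 : ((α ^ 2 - P) * (α ^ 2 - P / 2) / α) ^ 2 =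
      (α ^ 2 - P) * (α ^ 2 - P) * (α ^ 2 - P) + (α ^ 2 - P) ^ 2 * (P ^ 2 / (4 * α ^ 2)) := by
    field_simp
    ring
  rw [e2]
  have : 0 ≤ (α ^ 2 - P) ^ 2 * (P ^ 2 / (4 * α ^ 2)) := by positivity
  linarith

theorem IsSys.cform (h : IsSys ρ I) (hα : 0 < tot (pp ρ)) (α β P H δ : ℝ)
    (eα : α = tot (pp ρ)) (eβ : β = tot (mm ρ)) (eP : P = q2 (pp ρ) (pp ρ) I)
    (eH : H = ∑ y, mm ρ y * nv ρ I y) (eδ : δ = q2 (mm ρ) (mm ρ) I) :
    bOf ρ I ≤ 3 * α * β * (β - α) + 3 * α * δ + (6 * α - 3 * β) * H +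
      ((3 / 2) * α - 3 * β) * P + P ^ 2 / (2 * α) -
      3 * ∑ y, mm ρ y * (nv ρ I y * dg (mm ρ) I y) -
      3 * ∑ y, mm ρ y * max (nv ρ I y ^ 2 - P) 0 - tri (mm ρ) (mm ρ) (mm ρ) I := by
  have hα' : 0 < α := by rw [eα]; exact hα
  have hn := mm_nonneg ρ
  have h2 := h.b_eq
  have h3 := h.tri_same (pp ρ)
  have h4 := h.tri_mixed (pp ρ) (mm ρ)
  have h5 := h.tri_two (pp ρ) (mm ρ) (pp_nonneg ρ) (mm_nonneg ρ)
  have h6 := IsSys.u_eq (pp ρ) I
  have h7 := xg3_mx h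
  have h8 := xg3_T h hα' eα eP
  have h9 : ∑ y, mm ρ y * max (nv ρ I y ^ 2 - P) 0 ≤ ∑ i, mm ρ i * jn (pp ρ) I i := by
    refine Finset.sum_le_sum fun i _ => mul_le_mul_of_nonneg_left ?_ (hn i)
    rw [eP]
    exact xg3_jn h i
  have h10 : ∑ i, mm ρ i * (dg (pp ρ) I i * dg (mm ρ) I i) =
      α * δ - ∑ y, mm ρ y * (nv ρ I y * dg (mm ρ) I y) := by
    rw [eδ, XLAux.q2_eq, Finset.mul_sum, ← Finset.sum_sub_distrib]
    refine Finset.sum_congr rfl fun i _ => ?_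
    unfold nv
    rw [← eα]
    ring
  rw [h10] at h5
  rw [← eα, ← eP] at h6
  rw [← eα, ← eβ, ← eH] at h7
  rw [h6, ← eα] at h3
  rw [h6, h7, ← eα, ← eβ] at h4
  rw [h7, ← eβ] at h5
  rw [h2, h3, h4]
  linarith

end

end Pool.H3F
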