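import Mathlib

/-! Real inequality 1 for the upper curve. -/

namespace Pool.H3F

theorem XR1_P (s β x : ℝ) (hβ : 0 ≤ β) (hs : 3 * β ≤ s) (hx : 0 ≤ x) (hxs : x ≤ s)
    (hK : s ^ 2 + 2 * β * (1 + x) - 2 * β ^ 2 ≤ 16 / 25) :
    0 ≤ 12 / 5 + 9 / 2 * s - 15 / 2 * s ^ 2 - 16 / 5 * x + 7 / 2 * s * x - 4 * β -
      25 / 2 * s * β := by
  have hs0 : 0 ≤ s := by linarith
  rcases hs0.eq_or_lt with h0 | hpos
  · have hx0 : x = 0 := by linarith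
    have hb0 : β = 0 := by linarith
    rw [← h0, hx0, hb0]
    norm_num
  have q00 : 0 ≤ 12 / 5 - 19 / 10 * s - 15 / 2 * s ^ 2 + 10 * s ^ 3 := by
    nlinarith [mul_nonneg hs0 (sq_nonneg (s - 3 / 5)), sq_nonneg (s - 3 / 5),
      sq_nonneg (s - 1 / 2)]
  have q01 : 0 ≤ 12 / 5 - 97 / 30 * s - 5 * s ^ 2 + 70 / 9 * s ^ 3 := by
    nlinarith [mul_nonneg hs0 (sq_nonneg (s - 13 / 20)), sq_nonneg (s - 13 / 20)]
  have q10 : 0 ≤ 12 / 5 - 51 / 10 * s - 4 * s ^ 2 + 10 * s ^ 3 := by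
    nlinarith [mul_nonneg hs0 (sq_nonneg (s - 17 / 30)), sq_nonneg (s - 17 / 30)]
  have q11 : 0 ≤ 12 / 5 - 193 / 30 * s - 3 / 2 * s ^ 2 + 130 / 9 * s ^ 3 := by
    nlinarith [mul_nonneg hs0 (sq_nonneg (s - 21 / 50)), sq_nonneg (s - 21 / 50)]
  have hb : 0 ≤ s / 3 - β := by linarith
  have f0 : 0 ≤ s * (12 / 5 - 19 / 10 * s - 15 / 2 * s ^ 2 + 10 * s ^ 3 - 4 * β +
      15 / 2 * s * β - 20 * s * β ^ 2) := by
    have e : s * (12 / 5 - 19 / 10 * s - 15 / 2 * s ^ 2 + 10 * s ^ 3 - 4 * β +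
      15 / 2 * s * β - 20 * s * β ^ 2) =
      (s - 3 * β) * (12 / 5 - 19 / 10 * s - 15 / 2 * s ^ 2 + 10 * s ^ 3) +
      3 * β * (12 / 5 - 97 / 30 * s - 5 * s ^ 2 + 70 / 9 * s ^ 3) +
      20 * s ^ 2 * (β * (s / 3 - β)) := by ring
    rw [e]
    have h1 := mul_nonneg (by linarith : 0 ≤ s - 3 * β) q00
    have h2 := mul_nonneg (by linarith : 0 ≤ 3 * β) q01
    have h3 := mul_nonneg (by positivity : 0 ≤ 20 * s ^ 2) (mul_nonneg hβ hb)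
    linarith
  have f1 : 0 ≤ s * (12 / 5 - 51 / 10 * s - 4 * s ^ 2 + 10 * s ^ 3 + β * (20 * s ^ 2 - 4 +
      15 / 2 * s) - 20 * s * β ^ 2) := by
    have e : s * (12 / 5 - 51 / 10 * s - 4 * s ^ 2 + 10 * s ^ 3 + β * (20 * s ^ 2 - 4 +
      15 / 2 * s) - 20 * s * β ^ 2) =
      (s - 3 * β) * (12 / 5 - 51 / 10 * s - 4 * s ^ 2 + 10 * s ^ 3) +
      3 * β * (12 / 5 - 193 / 30 * s - 3 / 2 * s ^ 2 + 130 / 9 * s ^ 3) +
      20 * s ^ 2 * (β * (s / 3 - β)) := by ring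
    rw [e]
    have h1 := mul_nonneg (by linarith : 0 ≤ s - 3 * β) q10
    have h2 := mul_nonneg (by linarith : 0 ≤ 3 * β) q11
    have h3 := mul_nonneg (by positivity : 0 ≤ 20 * s ^ 2) (mul_nonneg hβ hb)
    linarith
  have f0' := (mul_nonneg_iff_of_pos_left hpos).1 f0
  have f1' := (mul_nonneg_iff_of_pos_left hpos).1 f1
  have hQ : 0 ≤ s * (12 / 5 - 19 / 10 * s - 15 / 2 * s ^ 2 + 10 * s ^ 3 - 16 / 5 * x +
      7 / 2 * s * x + 20 * s * β * x - 4 * β + 15 / 2 * s * β - 20 * s * β ^ 2) := by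
    have e : s * (12 / 5 - 19 / 10 * s - 15 / 2 * s ^ 2 + 10 * s ^ 3 - 16 / 5 * x +
      7 / 2 * s * x + 20 * s * β * x - 4 * β + 15 / 2 * s * β - 20 * s * β ^ 2) =
      (s - x) * (12 / 5 - 19 / 10 * s - 15 / 2 * s ^ 2 + 10 * s ^ 3 - 4 * β +
      15 / 2 * s * β - 20 * s * β ^ 2) +
      x * (12 / 5 - 51 / 10 * s - 4 * s ^ 2 + 10 * s ^ 3 + β * (20 * s ^ 2 - 4 +
      15 / 2 * s) - 20 * s * β ^ 2) := by ring
    rw [e]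
    have h1 := mul_nonneg (by linarith : 0 ≤ s - x) f0'
    have h2 := mul_nonneg hx f1'
    linarith
  have hQ' := (mul_nonneg_iff_of_pos_left hpos).1 hQ
  have hK' : 0 ≤ s * (16 / 25 - (s ^ 2 + 2 * β * (1 + x) - 2 * β ^ 2)) :=
    mul_nonneg hs0 (by linarith)
  nlinarith

theorem calcR1 (s β x δ ν : ℝ) (hβ : 0 ≤ β) (hs : 3 * β ≤ s) (hx : 0 ≤ x) (hxs : x ≤ s)
    (hδ : 0 ≤ δ) (hδβ : δ ≤ β ^ 2) (hν : 0 ≤ ν) (hν2 : ν ^ 2 ≤ 16 / 25)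
    (hN : ν ^ 2 = s ^ 2 + 2 * β - β ^ 2 + 2 * β * x - δ) :
    0 ≤ ν ^ 3 - s ^ 3 - 6 * β * ν ^ 2 + 9 * β ^ 2 - 4 * β ^ 3 + 3 * β * (s - x) ^ 2 +
      2 * β ^ 2 * x + (3 - 6 * β - 2 * s) * δ := by
  have hs0 : 0 ≤ s := by linarith
  have hK : s ^ 2 + 2 * β * (1 + x) - 2 * β ^ 2 ≤ 16 / 25 := by nlinarith
  have hs1 : s ≤ 1 := by
    by_contra hc
    push Not at hc
    have h1 : β ^ 2 ≤ (s / 3) ^ 2 := pow_le_pow_left₀ hβ (by linarith) 2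
    nlinarith [mul_nonneg hβ hx]
  have hb1 : β ≤ 1 / 3 := by linarith
  have hs2 : s ^ 2 ≤ 16 / 25 := by nlinarith [mul_nonneg hβ hx]
  have hs8 : s ≤ 4 / 5 := by nlinarith
  -- tangent
  have ht : (3 / 2) * (s + 2 * β) * ν ^ 2 - (s + 2 * β) ^ 3 / 2 ≤ ν ^ 3 := by
    have e : ν ^ 3 - ((3 / 2) * (s + 2 * β) * ν ^ 2 - (s + 2 * β) ^ 3 / 2) =
        (ν - (s + 2 * β)) ^ 2 * (ν + (s + 2 * β) / 2) := by ring
    have h1 : 0 ≤ (ν - (s + 2 * β)) ^ 2 * (ν + (s + 2 * β) / 2) :=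
      mul_nonneg (sq_nonneg _) (by linarith)
    linarith
  have hP := XR1_P s β x hβ hs hx hxs hK
  have hL : 0 ≤ 3 * (s - s * x - s ^ 2 + x ^ 2) + β * (3 - 4 * x - 15 / 2 * s) - 5 * β ^ 2 := by
    have h1 : 0 ≤ (4 / 5 + s) * (3 * (s - s * x - s ^ 2 + x ^ 2) +
        β * (3 - 4 * x - 15 / 2 * s) - 5 * β ^ 2) := by
      have e : (4 / 5 + s) * (3 * (s - s * x - s ^ 2 + x ^ 2) +
        β * (3 - 4 * x - 15 / 2 * s) - 5 * β ^ 2) =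
        3 * (4 / 5 + s) * (x - s / 2) ^ 2 +
        15 / 4 * (s * (16 / 25 - (s ^ 2 + 2 * β * (1 + x) - 2 * β ^ 2))) +
        β * (12 / 5 + 9 / 2 * s - 15 / 2 * s ^ 2 - 16 / 5 * x + 7 / 2 * s * x - 4 * β -
          25 / 2 * s * β) := by ring
      rw [e]
      have a1 : 0 ≤ 3 * (4 / 5 + s) * (x - s / 2) ^ 2 := by positivity
      have a2 : 0 ≤ s * (16 / 25 - (s ^ 2 + 2 * β * (1 + x) - 2 * β ^ 2)) :=
        mul_nonneg hs0 (by linarith)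
      have a3 := mul_nonneg hβ hP
      linarith
    exact (mul_nonneg_iff_of_pos_left (by linarith : 0 < 4 / 5 + s)).1 h1
  have hD : 0 ≤ 3 - 7 / 2 * s - 3 * β := by
    nlinarith [mul_nonneg hβ hx, sq_nonneg (s - 4 / 5), mul_nonneg hβ (by linarith : 0 ≤ 1 / 3 - β)]
  have h2 := mul_nonneg hβ hL
  have h3 := mul_nonneg hδ hD
  have e : (3 / 2) * (s + 2 * β) * ν ^ 2 - (s + 2 * β) ^ 3 / 2 - s ^ 3 - 6 * β * ν ^ 2 +
      9 * β ^ 2 - 4 * β ^ 3 + 3 * β * (s - x) ^ 2 + 2 * β ^ 2 * x + (3 - 6 * β - 2 * s) * δ =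
      β * (3 * (s - s * x - s ^ 2 + x ^ 2) + β * (3 - 4 * x - 15 / 2 * s) - 5 * β ^ 2) +
      δ * (3 - 7 / 2 * s - 3 * β) := by
    rw [hN]; ring
  linarith

end Pool.H3F
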